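import Pool.Agent.Helper4.KSq.ExtDefs

set_option autoImplicit false

/-!
# Existence of approximations
-/

namespace Pool.Agent.Helper4.KSq

open Filter Cod

variable {α : Type} {A : Str J α} {I : Cut}

namespace AppExAux

theorem le_tr (hA : IsK A I) {a b c : α} (h : A.le a b) (h' : A.le b c) : A.le a c := by
  rcases h with h | rfl
  · rcases h' with h' | rfl
    · exact Or.inl (hA.trans h h')
    · exact Or.inl h
  · exact h'

theorem lt_le (hA : IsK A I) {a b c : α} (h : A.lt a b) (h' : A.le b c) : A.lt a c := by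
  rcases h' with h' | rfl
  · exact hA.trans h h'
  · exact h

theorem le_lt (hA : IsK A I) {a b c : α} (h : A.le a b) (h' : A.lt b c) : A.lt a c := by
  rcases h with h | rfl
  · exact hA.trans h h'
  · exact h'

theorem not_lt (hA : IsK A I) {a b : α} (h : A.le a b) : ¬ A.lt b a := fun h' =>
  hA.irrefl _ (le_lt hA h h')

theorem le_of_not (hA : IsK A I) {a b : α} (h : ¬ A.lt b a) : A.le a b := by
  rcases hA.tri a b with h1 | h1 | h1
  · exact Or.inl h1
  · exact Or.inr h1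
  · exact absurd h1 h

theorem ub (hA : IsK A I) (a b : α) : ∃ m, A.le a m ∧ A.le b m := by
  rcases hA.tri a b with h | h | h
  · exact ⟨b, Or.inl h, Or.inr rfl⟩
  · exact ⟨b, Or.inr h, Or.inr rfl⟩
  · exact ⟨a, Or.inr rfl, Or.inl h⟩

theorem pair_inj (hA : IsK A I) {a b a' b' : α} (h : A.pair a b = A.pair a' b') :
    a = a' ∧ b = b' := by
  have h1 := congrArg A.fst h
  have h2 := congrArg A.snd h
  rw [hA.pairing.fst_pair, hA.pairing.fst_pair] at h1
  rw [hA.pairing.snd_pair, hA.pairing.snd_pair] at h2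
  exact ⟨h1, h2⟩

theorem pair_lt (hA : IsK A I) {a b b' : α} (h : A.lt b b') : A.lt (A.pair a b) (A.pair a b') := by
  rcases hA.pair_mono (Or.inr rfl : A.le a a) (Or.inl h : A.le b b') with h1 | h1
  · exact h1
  · have := (pair_inj hA h1).2
    subst this
    exact absurd h (hA.irrefl _)

theorem lt_self_succ (hA : IsK A I) (a : α) : A.lt a (A.add a A.one) :=
  (hA.lt_succ a a).2 (Or.inr rfl)

theorem succ_le (hA : IsK A I) {a b : α} (h : A.lt a b) : A.le (A.add a A.one) b := by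
  refine le_of_not hA fun h' => ?_
  exact not_lt hA ((hA.lt_succ b a).1 h') h

theorem le_j (hA : IsK A I) {x : α} {b : J} (h : A.le x (A.j b)) : ∃ a ≤ b, x = A.j a := by
  rcases h with h | rfl
  · obtain ⟨a, rfl⟩ := hA.initial x b h
    exact ⟨a, ((hA.j_lt a b).1 h).le, rfl⟩
  · exact ⟨b, le_rfl, rfl⟩

theorem j_le (hA : IsK A I) {a b : J} : A.le (A.j a) (A.j b) ↔ a ≤ b := by
  constructor
  · rintro (h | h)
    · exact ((hA.j_lt a b).1 h).le
    · exact (hA.j_inj h).le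
  · intro h
    rcases h.lt_or_eq with h | rfl
    · exact Or.inl ((hA.j_lt a b).2 h)
    · exact Or.inr rfl

theorem S5 (hA : IsK A I) {D : J} (hD : D ∈ I.s) {c : J} (hc : c ≤ D) (y : α) :
    A.S (c5 D) (A.pair (A.j c) y) ↔ A.S c y := by
  rw [hA.tarski.sat D (c5_mem I hD)]
  constructor
  · rintro ⟨c', -, h1, h2⟩
    rw [hA.pairing.fst_pair] at h1
    rw [hA.pairing.snd_pair] at h2
    rw [hA.j_inj h1]
    exact h2
  · intro h
    exact ⟨c, hc, hA.pairing.fst_pair _ _, by rw [hA.pairing.snd_pair]; exact h⟩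

theorem S5_code (hA : IsK A I) {D : J} (hD : D ∈ I.s) {x y : α}
    (h : A.S (c5 D) (A.pair x y)) : ∃ c ≤ D, x = A.j c := by
  rw [hA.tarski.sat D (c5_mem I hD)] at h
  obtain ⟨c, hc, h1, -⟩ := h
  rw [hA.pairing.fst_pair] at h1
  exact ⟨c, hc, h1⟩

/-! ### Tarski's clauses -/

theorem icb_eq (hA : IsK A I) (k : ℕ) : A.icb k = A.j (cb k) := by
  unfold Ar.icb cb
  rw [hA.j_pair, hA.j_num, hA.j_num]

theorem icn_eq (hA : IsK A I) (c : J) : A.icn (A.j c) = A.j (cn c) := by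
  unfold Ar.icn cn
  rw [hA.j_pair, hA.j_num]

theorem ica_eq (hA : IsK A I) (c d : J) : A.ica (A.j c) (A.j d) = A.j (ca c d) := by
  unfold Ar.ica ca
  rw [hA.j_pair, hA.j_pair, hA.j_num]

theorem ice_eq (hA : IsK A I) (c : J) : A.ice (A.j c) = A.j (ce c) := by
  unfold Ar.ice ce
  rw [hA.j_pair, hA.j_num]

theorem icf_eq (hA : IsK A I) (k : ℕ) (c : J) : A.icf k (A.j c) = A.j (cf k c) := by
  unfold Ar.icf cf
  rw [hA.j_pair, hA.j_pair, hA.j_num, hA.j_num]

theorem ic5_eq (hA : IsK A I) (c : J) : A.ic5 (A.j c) = A.j (c5 c) := by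
  unfold Ar.ic5 c5
  rw [hA.j_pair, hA.j_num]

theorem le_icn (hA : IsK A I) (c : α) : A.le c (A.icn c) := (hA.le_pair _ _).2
theorem le_ica (hA : IsK A I) (c d : α) : A.le c (A.ica c d) ∧ A.le d (A.ica c d) :=
  ⟨le_tr hA (hA.le_pair c d).1 (hA.le_pair _ _).2, le_tr hA (hA.le_pair c d).2 (hA.le_pair _ _).2⟩
theorem le_ice (hA : IsK A I) (c : α) : A.le c (A.ice c) := (hA.le_pair _ _).2
theorem le_icf (hA : IsK A I) (k : ℕ) (c : α) : A.le c (A.icf k c) :=
  le_tr hA (hA.le_pair _ c).2 (hA.le_pair _ _).2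
theorem le_ic5 (hA : IsK A I) (c : α) : A.le c (A.ic5 c) := (hA.le_pair _ _).2

section clauses

variable (hA : IsK A I) {D : J} (hD : D ∈ I.s)
include hA hD

theorem cl_b {k : ℕ} (hk : k < 7) (h : A.le (A.icb k) (A.j D)) (y : α) :
    A.S (c5 D) (A.pair (A.icb k) y) ↔ A.base k y := by
  rw [icb_eq hA] at h ⊢
  have hc := (j_le hA).1 h
  rw [S5 hA hD hc, hA.tarski.base k hk (I.down hc hD)]

theorem cl_n {c : α} (h : A.le (A.icn c) (A.j D)) (y : α) :
    A.S (c5 D) (A.pair (A.icn c) y) ↔ ¬ A.S (c5 D) (A.pair c y) := by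
  obtain ⟨c0, hc0, rfl⟩ := le_j hA (le_tr hA (le_icn hA c) h)
  rw [icn_eq hA] at h ⊢
  have hc := (j_le hA).1 h
  rw [S5 hA hD hc, S5 hA hD hc0, hA.tarski.neg _ (I.down hc hD)]

theorem cl_a {c c' : α} (h : A.le (A.ica c c') (A.j D)) (y : α) :
    A.S (c5 D) (A.pair (A.ica c c') y) ↔ A.S (c5 D) (A.pair c y) ∧ A.S (c5 D) (A.pair c' y) := by
  obtain ⟨c0, hc0, rfl⟩ := le_j hA (le_tr hA (le_ica hA c c').1 h)
  obtain ⟨c1, hc1, rfl⟩ := le_j hA (le_tr hA (le_ica hA (A.j c0) c').2 h)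
  rw [ica_eq hA] at h ⊢
  have hc := (j_le hA).1 h
  rw [S5 hA hD hc, S5 hA hD hc0, S5 hA hD hc1, hA.tarski.and _ _ (I.down hc hD)]

theorem cl_e {c : α} (h : A.le (A.ice c) (A.j D)) (y : α) :
    A.S (c5 D) (A.pair (A.ice c) y) ↔ ∃ z, A.S (c5 D) (A.pair c (A.pair z y)) := by
  obtain ⟨c0, hc0, rfl⟩ := le_j hA (le_tr hA (le_ice hA c) h)
  rw [ice_eq hA] at h ⊢
  have hc := (j_le hA).1 h
  rw [S5 hA hD hc, hA.tarski.ex _ (I.down hc hD)]
  exact exists_congr fun z => (S5 hA hD hc0 _).symm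

theorem cl_f {k : ℕ} (hk : k < 7) {c : α} (h : A.le (A.icf k c) (A.j D)) (y : α) :
    A.S (c5 D) (A.pair (A.icf k c) y) ↔ A.S (c5 D) (A.pair c (A.fn k y)) := by
  obtain ⟨c0, hc0, rfl⟩ := le_j hA (le_tr hA (le_icf hA k c) h)
  rw [icf_eq hA] at h ⊢
  have hc := (j_le hA).1 h
  rw [S5 hA hD hc, S5 hA hD hc0, hA.tarski.fn k hk _ (I.down hc hD)]

theorem cl_5 {c : α} (h : A.le (A.ic5 c) (A.j D)) (y : α) :
    A.S (c5 D) (A.pair (A.ic5 c) y) ↔
      A.le (A.fst y) c ∧ A.S (c5 D) (A.pair (A.fst y) (A.snd y)) := by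
  obtain ⟨c0, hc0, rfl⟩ := le_j hA (le_tr hA (le_ic5 hA c) h)
  rw [ic5_eq hA] at h ⊢
  have hc := (j_le hA).1 h
  rw [S5 hA hD hc, hA.tarski.sat _ (I.down hc hD)]
  constructor
  · rintro ⟨c, h1, h2, h3⟩
    rw [h2]
    exact ⟨(j_le hA).2 h1, (S5 hA hD (h1.trans hc0) _).2 h3⟩
  · rintro ⟨h1, h2⟩
    obtain ⟨c, hc1, hc2⟩ := le_j hA h1
    rw [hc2] at h2
    exact ⟨c, hc1, hc2, (S5 hA hD (hc1.trans hc0) _).1 h2⟩

end clauses

/-! ### One threshold -/

/-- `y'` is a sufficiently large threshold after `y`, for the predicate `S(k, .)` -/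
def Nx {C α : Type} (A : Str C α) (k : C) (d y y' : α) : Prop :=
  A.lt y y' ∧
  (∀ a b, A.le a y → A.le b y → A.le (A.add a b) y' ∧ A.le (A.mul a b) y' ∧
    A.le (A.pair a b) y') ∧
  (∀ u, ∃ u', A.le u' y' ∧ ∀ z, A.le z y → (A.E u z ↔ A.E u' z)) ∧
  (∀ c z, A.le (A.ice c) d → A.le z y → A.S k (A.pair (A.ice c) z) →
    ∃ v, A.le v y' ∧ A.S k (A.pair c (A.pair v z)))

theorem nx_exists (hA : IsK A I) {D : J} (hD : D ∈ I.s) (y : α) :
    ∃ y', Nx A (c5 D) (A.j D) y y' := by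
  obtain ⟨m1, h1⟩ := hA.collect (R := fun _ _ A _ x v _ => v = A.add (A.fst x) (A.snd x))
    (by
      repeat' first
        | exact TD.var _ | apply TD.fst | apply TD.snd | apply TD.add | apply UD.eq)
    (ρ := fun _ => c5 D) (fun _ => c5_mem I hD) (fun _ => y) (A.pair y y) (fun x _ => ⟨_, rfl⟩)
  obtain ⟨m2, h2⟩ := hA.collect (R := fun _ _ A _ x v _ => v = A.mul (A.fst x) (A.snd x))
    (by
      repeat' first
        | exact TD.var _ | apply TD.fst | apply TD.snd | apply TD.mul | apply UD.eq)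
    (ρ := fun _ => c5 D) (fun _ => c5_mem I hD) (fun _ => y) (A.pair y y) (fun x _ => ⟨_, rfl⟩)
  obtain ⟨m3, h3⟩ := hA.E_bound y
  obtain ⟨m4, h4⟩ := hA.collect (R := fun _ _ A ρ x v _ =>
      A.S (ρ 0) (A.pair (A.ice (A.fst x)) (A.snd x)) →
        A.S (ρ 0) (A.pair (A.fst x) (A.pair v (A.snd x))))
    (by
      repeat' first
        | exact TD.var _ | exact TD.nm _ | apply TD.fst | apply TD.snd | apply TD.pair
        | apply TD.ice | apply UD.S | apply UD.imp)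
    (ρ := fun _ => c5 D) (fun _ => c5_mem I hD) (fun _ => y) (A.pair (A.j D) y) (fun x _ => by
      by_cases h : A.S (c5 D) (A.pair (A.ice (A.fst x)) (A.snd x))
      · obtain ⟨c, hc, h5⟩ := S5_code hA hD h
        have h6 : A.le (A.ice (A.fst x)) (A.j D) := by rw [h5]; exact (j_le hA).2 hc
        obtain ⟨z, hz⟩ := (cl_e hA hD h6 _).1 h
        exact ⟨z, fun _ => hz⟩
      · exact ⟨y, fun h' => absurd h' h⟩)
  obtain ⟨n1, a1, a2⟩ := ub hA m1 m2
  obtain ⟨n2, a3, a4⟩ := ub hA m3 m4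
  obtain ⟨n3, a5, a6⟩ := ub hA n1 n2
  obtain ⟨n4, a7, a8⟩ := ub hA n3 (A.pair y y)
  have hle : A.le n4 (A.add n4 A.one) := Or.inl (lt_self_succ hA n4)
  have b1 : A.le m1 (A.add n4 A.one) := le_tr hA a1 (le_tr hA a5 (le_tr hA a7 hle))
  have b2 : A.le m2 (A.add n4 A.one) := le_tr hA a2 (le_tr hA a5 (le_tr hA a7 hle))
  have b3 : A.le m3 (A.add n4 A.one) := le_tr hA a3 (le_tr hA a6 (le_tr hA a7 hle))
  have b4 : A.le m4 (A.add n4 A.one) := le_tr hA a4 (le_tr hA a6 (le_tr hA a7 hle))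
  have b5 : A.le (A.pair y y) (A.add n4 A.one) := le_tr hA a8 hle
  refine ⟨A.add n4 A.one, ?_, ?_, ?_, ?_⟩
  · exact (hA.lt_succ _ _).2 (le_tr hA (hA.le_pair y y).1 a8)
  · intro a b ha hb
    have hp := hA.pair_mono ha hb
    obtain ⟨v1, hv1, e1⟩ := h1 _ hp
    obtain ⟨v2, hv2, e2⟩ := h2 _ hp
    rw [hA.pairing.fst_pair, hA.pairing.snd_pair] at e1 e2
    exact ⟨e1 ▸ le_tr hA hv1 b1, e2 ▸ le_tr hA hv2 b2, le_tr hA hp b5⟩
  · intro u
    obtain ⟨u', hu', hz⟩ := h3 u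
    exact ⟨u', le_tr hA hu' b3, hz⟩
  · intro c z hc hz hS
    obtain ⟨v, hv, hvS⟩ := h4 (A.pair c z) (hA.pair_mono (le_tr hA (le_ice hA c) hc) hz)
    rw [hA.pairing.fst_pair, hA.pairing.snd_pair] at hvS
    exact ⟨v, le_tr hA hv b4, hvS hS⟩

/-! ### The sequence of thresholds -/

theorem es_uniq (hA : IsK A I) {s i y y' : α} (h : Es A s i y) (h' : Es A s i y') : y = y' := by
  rcases hA.tri y y' with h1 | h1 | h1
  · exact absurd h.1 (h'.2 _ h1)
  · exact h1
  · exact absurd h'.1 (h.2 _ h1)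

/-- sequence of thresholds for the predicate `S(k, .)` -/
def Sq {C α : Type} (A : Str C α) (k : C) (d x s n : α) : Prop :=
  (∀ i, A.le i n → ∃ y, Es A s i y) ∧
  (∀ y, Es A s A.zero y → A.le x y) ∧
  (∀ i y y', A.lt i n → Es A s i y → Es A s (A.add i A.one) y' → Nx A k d y y')

theorem ud_sq : UD (fun _ _ A ρ e => ∃ s, Sq A (ρ 0) (e 1) (e 2) s (e 0)) := by
  unfold Sq Nx
  repeat' first
    | exact TD.var _ | exact TD.zero | exact TD.one | exact TD.nm _ | assumption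
    | apply TD.fst | apply TD.snd | apply TD.pair | apply TD.add | apply TD.mul | apply TD.ice
    | apply UD.Es
    | apply UD.S | apply UD.E | apply UD.lt | apply UD.le | apply UD.eq
    | apply UD.not | apply UD.and | apply UD.or | apply UD.iff | apply UD.all | apply UD.ex
    | apply UD.imp

theorem bound (hA : IsK A I) {s n : α} (h : ∀ i, A.le i n → ∃ y, Es A s i y) :
    ∃ M, ∀ i y, A.le i n → Es A s i y → A.le y M := by
  obtain ⟨M, hM⟩ := hA.collect (R := fun _ _ A _ x v e => Es A (e 0) x v)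
    (by
      repeat' first
        | exact TD.var _ | apply UD.Es)
    (ρ := fun _ => num 0) (fun _ => I.num 0) (fun _ => s) n h
  refine ⟨M, fun i y hi hy => ?_⟩
  obtain ⟨y', hy', h'⟩ := hM i hi
  rw [es_uniq hA hy h']
  exact hy'

theorem sq_exists (hA : IsK A I) {D : J} (hD : D ∈ I.s) (x n : α) :
    ∃ s, Sq A (c5 D) (A.j D) x s n := by
  refine hA.induct (R := fun C α A ρ n e => ∃ s, Sq A (ρ 0) (e 0) (e 1) s n) (by exact ud_sq)
    (ρ := fun _ => c5 D) (fun _ => c5_mem I hD) (fun i => if i = 0 then A.j D else x) ?_ ?_ n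
  · simp only [if_true, one_ne_zero, if_false]
    obtain ⟨u, hu⟩ := hA.E_empty (A.add (A.pair A.zero x) A.one)
    obtain ⟨s, hs⟩ := hA.E_insert u (A.pair A.zero x) (A.add (A.pair A.zero x) A.one)
    have hs' : ∀ z, A.le z (A.pair A.zero x) → (A.E s z ↔ z = A.pair A.zero x) := by
      intro z hz
      have hz' := (hA.lt_succ _ _).2 hz
      rw [hs z hz']
      exact or_iff_right (hu z hz')
    have hE : Es A s A.zero x := by
      refine ⟨(hs' _ (Or.inr rfl)).2 rfl, fun y' hy' h => ?_⟩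
      have := (hs' _ (hA.pair_mono (Or.inr rfl) (Or.inl hy'))).1 h
      have e := (pair_inj hA this).2
      subst e
      exact hA.irrefl _ hy'
    refine ⟨s, fun i hi => ?_, fun y hy => ?_, fun i y y' hi _ _ => ?_⟩
    · have : i = A.zero := by
        rcases hi with hi | hi
        · exact absurd hi (not_lt hA (hA.zero_le i))
        · exact hi
      subst this
      exact ⟨x, hE⟩
    · rw [es_uniq hA hy hE]
      exact Or.inr rfl
    · exact absurd hi (not_lt hA (hA.zero_le i))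
  · simp only [if_true, one_ne_zero, if_false]
    rintro n ⟨s, h1, h2, h3⟩
    obtain ⟨yn, hyn⟩ := h1 n (Or.inr rfl)
    obtain ⟨y', hy'⟩ := nx_exists hA hD yn
    obtain ⟨Y, hY⟩ := bound hA h1
    obtain ⟨M, hM1, hM2⟩ := ub hA Y y'
    obtain ⟨s', hs'⟩ := hA.compr (R := fun _ _ A _ z e =>
        (A.le (A.fst z) (e 1) ∧ A.E (e 0) z) ∨ z = A.pair (A.add (e 1) A.one) (e 2))
      (by
        repeat' first
          | exact TD.var _ | exact TD.one | apply TD.fst | apply TD.snd | apply TD.pair | apply TD.add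
          | apply UD.E | apply UD.le | apply UD.eq | apply UD.and | apply UD.or)
      (ρ := fun _ => num 0) (fun _ => I.num 0)
      (fun i => if i = 0 then s else if i = 1 then n else y')
      (A.add (A.pair (A.add n A.one) M) A.one)
    simp only [if_true, one_ne_zero, if_false, OfNat.ofNat_ne_zero, OfNat.ofNat_ne_one] at hs'
    have hs1 : ∀ i y, A.le i n → A.le y M → (A.E s' (A.pair i y) ↔ A.E s (A.pair i y)) := by
      intro i y hi hy
      rw [hs' _ ((hA.lt_succ _ _).2 (hA.pair_mono (le_tr hA hi (Or.inl (lt_self_succ hA n))) hy)),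
        hA.pairing.fst_pair]
      constructor
      · rintro (h | h)
        · exact h.2
        · have := (pair_inj hA h).1
          subst this
          exact absurd hi (fun h => not_lt hA h (lt_self_succ hA n))
      · exact fun h => Or.inl ⟨hi, h⟩
    have hs2 : ∀ y, A.le y M → (A.E s' (A.pair (A.add n A.one) y) ↔ y = y') := by
      intro y hy
      rw [hs' _ ((hA.lt_succ _ _).2 (hA.pair_mono (Or.inr rfl) hy)), hA.pairing.fst_pair]
      constructor
      · rintro (h | h)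
        · exact absurd h.1 (fun h => not_lt hA h (lt_self_succ hA n))
        · exact (pair_inj hA h).2
      · rintro rfl
        exact Or.inr rfl
    have hE1 : ∀ i y, A.le i n → Es A s i y → Es A s' i y := by
      intro i y hi hy
      have hyM : A.le y M := le_tr hA (hY i y hi hy) hM1
      refine ⟨(hs1 i y hi hyM).2 hy.1, fun z hz h => ?_⟩
      exact hy.2 z hz ((hs1 i z hi (le_tr hA (Or.inl hz) hyM)).1 h)
    have hE1' : ∀ i y, A.le i n → Es A s' i y → Es A s i y := by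
      intro i y hi hy
      obtain ⟨z, hz⟩ := h1 i hi
      rw [es_uniq hA hy (hE1 i z hi hz)]
      exact hz
    have hE2 : Es A s' (A.add n A.one) y' := by
      refine ⟨(hs2 y' hM2).2 rfl, fun z hz h => ?_⟩
      have := (hs2 z (le_tr hA (Or.inl hz) hM2)).1 h
      subst this
      exact hA.irrefl _ hz
    refine ⟨s', fun i hi => ?_, fun y hy => ?_, fun i y z hi hy hz => ?_⟩
    · rcases hi with hi | rfl
      · have hi' := (hA.lt_succ _ _).1 hi
        obtain ⟨y, hy⟩ := h1 i hi'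
        exact ⟨y, hE1 i y hi' hy⟩
      · exact ⟨y', hE2⟩
    · exact h2 y (hE1' _ _ (hA.zero_le n) hy)
    · have hi' := (hA.lt_succ _ _).1 hi
      rcases hi' with hi' | rfl
      · exact h3 i y z hi' (hE1' _ _ (Or.inl hi') hy) (hE1' _ _ (succ_le hA hi') hz)
      · rw [es_uniq hA (hE1' _ _ (Or.inr rfl) hy) hyn, es_uniq hA hz hE2]
        exact hy'

/-- the approximation -/
theorem good_exists (hA : IsK A I) {D : J} (hD : D ∈ I.s) (x : α) :
    ∃ w, Thr A (A.j D) (A.snd w) (A.fst w) x x ∧ ∃ M, (∀ m, Es A (A.fst w) x m → A.le m M) ∧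
      ∀ c y, A.le c (A.j D) → A.le y (A.pair M M) →
        (Tc A (A.snd w) c y ↔ A.S (c5 D) (A.pair c y)) := by
  obtain ⟨s, h1, h2, h3⟩ := sq_exists hA hD x x
  obtain ⟨M, hM⟩ := bound hA h1
  obtain ⟨t, ht⟩ := hA.compr (R := fun _ _ A ρ z _ => A.S (ρ 0) z)
    (by exact UD.S 0 (TD.var 0))
    (ρ := fun _ => c5 D) (fun _ => c5_mem I hD) (fun _ => x)
    (A.add (A.pair (A.j D) (A.pair M M)) A.one)
  have ht' : ∀ c y, A.le c (A.j D) → A.le y (A.pair M M) →
      (Tc A t c y ↔ A.S (c5 D) (A.pair c y)) := fun c y hc hy =>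
    ht _ ((hA.lt_succ _ _).2 (hA.pair_mono hc hy))
  refine ⟨A.pair s t, ?_, M, ?_, ?_⟩
  · rw [hA.pairing.fst_pair, hA.pairing.snd_pair]
    refine ⟨h1, fun _ _ _ ha hb => es_uniq hA ha hb, h2, fun i y y' hi hy hy' => ?_⟩
    obtain ⟨n1, n2, n3, n4⟩ := h3 i y y' hi hy hy'
    refine ⟨n1, n2, n3, fun c z hc hz hT => ?_⟩
    have hyM : A.le y M := hM i y (Or.inl hi) hy
    have hyM' : A.le y' M := hM _ y' (succ_le hA hi) hy'
    have hzM : A.le z M := le_tr hA hz hyM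
    have hT' := (ht' _ z hc (le_tr hA hzM (hA.le_pair M M).1)).1 hT
    obtain ⟨v, hv, hvS⟩ := n4 c z hc hz hT'
    exact ⟨v, hv, (ht' c _ (le_tr hA (le_ice hA c) hc)
      (hA.pair_mono (le_tr hA hv hyM') hzM)).2 hvS⟩
  · rw [hA.pairing.fst_pair]
    exact fun m hm => hM x m (Or.inr rfl) hm
  · rw [hA.pairing.snd_pair]
    exact ht'

theorem nxt_mono (hA : IsK A I) {d d' t y y' : α} (h : A.le d d') (hN : Nxt A d' t y y') :
    Nxt A d t y y' := by
  obtain ⟨n1, n2, n3, n4⟩ := hN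
  exact ⟨n1, n2, n3, fun c z hc hz hT => n4 c z (le_tr hA hc h) hz hT⟩

theorem thr_mono (hA : IsK A I) {d d' t s x n : α} (h : A.le d d') (hT : Thr A d' t s x n) :
    Thr A d t s x n := by
  obtain ⟨h1, hu, h2, h3⟩ := hT
  exact ⟨h1, hu, h2, fun i y y' hi hy hy' => nxt_mono hA h (h3 i y y' hi hy hy')⟩

theorem tarT_of (hA : IsK A I) {D : J} (hD : D ∈ I.s) {d t m M : α} (hd : A.le d (A.j D))
    (hm : A.le m M)
    (ht : ∀ c y, A.le c (A.j D) → A.le y M → (Tc A t c y ↔ A.S (c5 D) (A.pair c y))) :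
    TarT A d t m := by
  have tb : ∀ k < 7, ∀ y, A.le y m → A.le (A.icb k) d → (Tc A t (A.icb k) y ↔ A.base k y) := by
    intro k hk y hy hc
    rw [ht _ _ (le_tr hA hc hd) (le_tr hA hy hm), cl_b hA hD hk (le_tr hA hc hd)]
  have tf : ∀ k < 7, ∀ c y, A.le (A.icf k c) d → A.le y m → A.le (A.fn k y) m →
      (Tc A t (A.icf k c) y ↔ Tc A t c (A.fn k y)) := by
    intro k hk c y hc hy hf
    have hc' := le_tr hA hc hd
    rw [ht _ _ hc' (le_tr hA hy hm), cl_f hA hD hk hc',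
      ht _ _ (le_tr hA (le_icf hA k c) hc') (le_tr hA hf hm)]
  refine ⟨tb 0 (by norm_num), tb 1 (by norm_num), tb 2 (by norm_num), tb 3 (by norm_num),
    tb 4 (by norm_num), tb 5 (by norm_num), tb 6 (by norm_num), ?_, ?_, ?_,
    tf 0 (by norm_num), tf 1 (by norm_num), tf 2 (by norm_num), tf 3 (by norm_num),
    tf 4 (by norm_num), tf 5 (by norm_num), tf 6 (by norm_num), ?_⟩
  · intro c y hc hy
    have hc' := le_tr hA hc hd
    rw [ht _ _ hc' (le_tr hA hy hm), cl_n hA hD hc',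
      ht _ _ (le_tr hA (le_icn hA c) hc') (le_tr hA hy hm)]
  · intro c c' y hc hy
    have hc' := le_tr hA hc hd
    rw [ht _ _ hc' (le_tr hA hy hm), cl_a hA hD hc',
      ht _ _ (le_tr hA (le_ica hA c c').1 hc') (le_tr hA hy hm),
      ht _ _ (le_tr hA (le_ica hA c c').2 hc') (le_tr hA hy hm)]
  · intro c z y hc hzy h
    have hc' := le_tr hA hc hd
    have hy : A.le y m := le_tr hA (hA.le_pair z y).2 hzy
    rw [ht _ _ hc' (le_tr hA hy hm), cl_e hA hD hc']
    exact ⟨z, (ht _ _ (le_tr hA (le_ice hA c) hc') (le_tr hA hzy hm)).1 h⟩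
  · intro f y hc hy
    have hc' := le_tr hA hc hd
    rw [ht _ _ hc' (le_tr hA hy hm), cl_5 hA hD hc']
    refine and_congr_right fun hf => ?_
    have hs : A.le (A.snd y) y := by
      have := (hA.le_pair (A.fst y) (A.snd y)).2
      rwa [hA.pairing.eta] at this
    rw [ht _ _ (le_tr hA hf (le_tr hA (le_ic5 hA f) hc')) (le_tr hA hs (le_tr hA hy hm))]

/-- the satisfaction relations `c5 l` agree -/
theorem S5_eq (hA : IsK A I) {D l : J} (hD : D ∈ I.s) (hl : l ∈ I.s) (h : l ≤ D) {c y : α}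
    (hc : A.le c (A.j l)) : A.S (c5 D) (A.pair c y) ↔ A.S (c5 l) (A.pair c y) := by
  obtain ⟨c0, hc0, rfl⟩ := le_j hA hc
  rw [S5 hA hD (hc0.trans h), S5 hA hl hc0]

theorem q1 (hA : IsK A I) (a b c d f g : α) : A.fst (qmk A a b c d f g) = a :=
  hA.pairing.fst_pair _ _
theorem q2 (hP : A.Pairing) (a b c d f g : α) : A.fst (A.snd (qmk A a b c d f g)) = b := by
  simp [qmk, hP.fst_pair, hP.snd_pair]
theorem q3 (hP : A.Pairing) (a b c d f g : α) : A.fst (A.snd (A.snd (qmk A a b c d f g))) = c := by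
  simp [qmk, hP.fst_pair, hP.snd_pair]
theorem q4 (hP : A.Pairing) (a b c d f g : α) :
    A.fst (A.snd (A.snd (A.snd (qmk A a b c d f g)))) = d := by
  simp [qmk, hP.fst_pair, hP.snd_pair]
theorem q5 (hP : A.Pairing) (a b c d f g : α) :
    A.fst (A.snd (A.snd (A.snd (A.snd (qmk A a b c d f g))))) = f := by
  simp [qmk, hP.fst_pair, hP.snd_pair]
theorem q6 (hP : A.Pairing) (a b c d f g : α) :
    A.snd (A.snd (A.snd (A.snd (A.snd (qmk A a b c d f g))))) = g := by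
  simp [qmk, hP.snd_pair]
theorem q1' (hP : A.Pairing) (a b c d f g : α) : A.fst (qmk A a b c d f g) = a :=
  hP.fst_pair _ _

end AppExAux

open AppExAux

/-- in a structure of length `I` there are approximations for all codes in `I`, with constraints
given by its own satisfaction relation -/
theorem psi_full (hA : IsK A I) {l l1 d : J} (hl : l ∈ I.s) (hl1 : l1 ∈ I.s) (hd : d ∈ I.s) :
    Psi A (c5 l) (c5 l1) (A.j l) (A.j l1) (A.j d) := by
  intro b u hu x
  obtain ⟨D, hD, hlD, hl1D, hdD⟩ : ∃ D ∈ I.s, l ≤ D ∧ l1 ≤ D ∧ d ≤ D := by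
    refine ⟨max l (max l1 d), ?_, le_max_left _ _, (le_max_left _ _).trans (le_max_right _ _),
      (le_max_right _ _).trans (le_max_right _ _)⟩
    rcases max_choice l (max l1 d) with h | h <;> rw [h]
    · exact hl
    · rcases max_choice l1 d with h | h <;> rw [h]
      · exact hl1
      · exact hd
  obtain ⟨w, hT, M, hM, hw⟩ := good_exists hA hD x
  have hdD' : A.le (A.j d) (A.j D) := (j_le hA).2 hdD
  refine ⟨w, thr_mono hA hdD' hT, fun m hm => ?_⟩
  have hmM : A.le m (A.pair M M) := le_tr hA (hM m hm) (hA.le_pair M M).1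
  refine ⟨tarT_of hA hD hdD' hmM hw, ?_, ?_, ?_⟩
  · intro c y hc hy
    rw [hw c y (le_tr hA hc ((j_le hA).2 hlD)) (le_tr hA hy hmM), S5_eq hA hD hl hlD hc]
  · intro c y hc hyb hy
    rw [qmk1, q1' hA.pairing] at hc
    rw [qmk1, q3 hA.pairing] at hyb
    rw [qmk1, q2 hA.pairing, hw c y (le_tr hA hc ((j_le hA).2 hl1D)) (le_tr hA hy hmM),
      S5_eq hA hD hl1 hl1D hc]
    exact (hu c y hc hyb).symm
  · intro c y hc hyb hy
    rw [qmk1, q6 hA.pairing] at hyb
    exact absurd hyb (not_lt hA (hA.zero_le y))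

theorem good_low (hA : IsK A I) {l l' : J} (hl : l ∈ I.s) (hl' : l' ≤ l) {t m : α}
    (h : Cor A (c5 l) (A.j l) t m) : Cor A (c5 l') (A.j l') t m := by
  intro c y hc hy
  rw [h c y (le_tr hA hc ((j_le hA).2 hl')) hy, S5_eq hA hl (I.down hl' hl) hl' hc]

/-- adding a constraint given by the satisfaction relation for codes `≤ l2 ≤ l`, and lowering the
level -/
theorem app_add (hA : IsK A I) {l l' l2 : J} (hl : l ∈ I.s) (h2 : l2 ≤ l) (hl' : l' ≤ l)
    {l1 u1 b1 u b D : α} (h : App A (c5 l) (A.j l) (qmk1 A l1 u1 b1) D)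
    (hu : Cds A (c5 l2) (A.j l2) u b) :
    App A (c5 l') (A.j l') (qmk A l1 u1 b1 (A.j l2) u b) D := by
  intro x
  obtain ⟨w, hT, hw⟩ := h x
  refine ⟨w, hT, fun m hm => ?_⟩
  obtain ⟨w1, w2, w3, -⟩ := hw m hm
  refine ⟨w1, good_low hA hl hl' w2, ?_, ?_⟩
  · rw [qmk1, q1' hA.pairing, q2 hA.pairing, q3 hA.pairing] at w3
    rw [q1' hA.pairing, q2 hA.pairing, q3 hA.pairing]
    exact w3
  · rw [q4 hA.pairing, q5 hA.pairing, q6 hA.pairing]
    intro c y hc hyb hy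
    rw [w2 c y (le_tr hA hc ((j_le hA).2 h2)) hy, S5_eq hA hl (I.down h2 hl) h2 hc]
    exact (hu c y hc hyb).symm

/-- lowering the level -/
theorem app_mono (hA : IsK A I) {l l' : J} (hl : l ∈ I.s) (hl' : l' ≤ l) {q D : α}
    (h : App A (c5 l) (A.j l) q D) : App A (c5 l') (A.j l') q D := by
  intro x
  obtain ⟨w, hT, hw⟩ := h x
  refine ⟨w, hT, fun m hm => ?_⟩
  obtain ⟨w1, w2, w3, w4⟩ := hw m hm
  exact ⟨w1, good_low hA hl hl' w2, w3, w4⟩

/-- only the pairs `⟨c, y⟩` with `c ≤ l1`, `y < b1` matter for the constraint (first constraint) -/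
theorem app_congr1 {k : J} {L l1 u1 u1' b1 l2 u2 b2 D : α}
    (hu : ∀ c y, A.le c l1 → A.lt y b1 → (A.E u1 (A.pair c y) ↔ A.E u1' (A.pair c y)))
    (h : App A k L (qmk A l1 u1 b1 l2 u2 b2) D) (hP : A.Pairing) :
    App A k L (qmk A l1 u1' b1 l2 u2 b2) D := by
  intro x
  obtain ⟨w, hT, hw⟩ := h x
  refine ⟨w, hT, fun m hm => ?_⟩
  obtain ⟨w1, w2, w3, w4⟩ := hw m hm
  rw [q1' hP, q2 hP, q3 hP] at w3
  rw [q4 hP, q5 hP, q6 hP] at w4
  refine ⟨w1, w2, ?_, ?_⟩
  · rw [q1' hP, q2 hP, q3 hP]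
    exact fun c y hc hyb hy => (w3 c y hc hyb hy).trans (hu c y hc hyb)
  · rw [q4 hP, q5 hP, q6 hP]
    exact w4

/-- only the pairs `⟨c, y⟩` with `c ≤ l2`, `y < b2` matter for the constraint (second constraint) -/
theorem app_congr2 {k : J} {L l1 u1 b1 l2 u2 u2' b2 D : α}
    (hu : ∀ c y, A.le c l2 → A.lt y b2 → (A.E u2 (A.pair c y) ↔ A.E u2' (A.pair c y)))
    (h : App A k L (qmk A l1 u1 b1 l2 u2 b2) D) (hP : A.Pairing) :
    App A k L (qmk A l1 u1 b1 l2 u2' b2) D := by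
  intro x
  obtain ⟨w, hT, hw⟩ := h x
  refine ⟨w, hT, fun m hm => ?_⟩
  obtain ⟨w1, w2, w3, w4⟩ := hw m hm
  rw [q1' hP, q2 hP, q3 hP] at w3
  rw [q4 hP, q5 hP, q6 hP] at w4
  refine ⟨w1, w2, ?_, ?_⟩
  · rw [q1' hP, q2 hP, q3 hP]
    exact w3
  · rw [q4 hP, q5 hP, q6 hP]
    exact fun c y hc hyb hy => (w4 c y hc hyb hy).trans (hu c y hc hyb)

end Pool.Agent.Helper4.KSq
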