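import Mathlib

set_option autoImplicit false

/-!
# Codes, structures and formulas

* `Cod C`: a type of codes (used for `C = ℕ` and for the countable base `C = J`).
* `Ar α`: arithmetical structures with a pairing function; `Str C α`: with an embedded copy of the
  codes and a satisfaction relation `S : C → α → Prop`.
* `Fo`: first order formulas (de Bruijn variables) with atoms `S (ρ k) x_i`, their truth `Fo.sat`
  and their codes `Fo.code`.
-/

namespace Pool.Agent.Helper4.KSq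

/-- a type of codes: pairing and numerals -/
class Cod (C : Type) where
  pr : C → C → C
  num : ℕ → C

instance : Cod ℕ := ⟨Nat.pair, fun n => n⟩

section Codes

variable {C : Type} [Cod C]

open Cod

/-- code of the `k`-th base relation -/
def cb (k : ℕ) : C := pr (num 0) (num k)
/-- code of a negation -/
def cn (c : C) : C := pr (num 1) c
/-- code of a conjunction -/
def ca (c d : C) : C := pr (num 2) (pr c d)
/-- code of an existential quantification -/
def ce (c : C) : C := pr (num 3) c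
/-- code of a substitution (of the `k`-th base function) -/
def cf (k : ℕ) (c : C) : C := pr (num 4) (pr (num k) c)
/-- code of the satisfaction relation for codes `≤ e` -/
def c5 (e : C) : C := pr (num 5) e
/-- code of the substitution `x ↦ ⟨x_i, x⟩` -/
def cp (i : ℕ) (c : C) : C := cf 2 ((cf 3)^[i] (cf 4 ((cf 5)^[i] (cf 6 c))))

end Codes

/-- arithmetical structures with a pairing function -/
structure Ar (α : Type) where
  zero : α
  one : α
  add : α → α → α
  mul : α → α → α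
  pair : α → α → α
  fst : α → α
  snd : α → α
  lt : α → α → Prop

namespace Ar

variable {α : Type} (A : Ar α)

/-- the laws of pairing -/
structure Pairing : Prop where
  fst_pair : ∀ a b, A.fst (A.pair a b) = a
  snd_pair : ∀ a b, A.snd (A.pair a b) = b
  eta : ∀ a, A.pair (A.fst a) (A.snd a) = a

/-- `a ≤ b` -/
def le (a b : α) : Prop := A.lt a b ∨ a = b

/-- numerals -/
def nm : ℕ → α
  | 0 => A.zero
  | n + 1 => A.add (nm n) A.one

/-- the `i`-th element of a stack -/
def pj : ℕ → α → α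
  | 0, x => A.fst x
  | n + 1, x => pj n (A.snd x)

/-- the base functions -/
def fn : ℕ → α → α
  | 0, x => A.fst x
  | 1, x => A.snd x
  | 2, x => A.pair x x
  | 3, x => A.pair (A.pair (A.fst (A.snd x)) (A.fst x)) (A.snd (A.snd x))
  | 4, x => A.pair (A.fst (A.snd x)) x
  | 5, x => A.pair (A.fst x) (A.pair (A.snd (A.fst (A.snd x)))
      (A.pair (A.fst (A.fst (A.snd x))) (A.snd (A.snd x))))
  | 6, x => A.pair (A.fst x) (A.snd (A.snd x))
  | _, x => x

/-- the base relations -/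
def base : ℕ → α → Prop
  | 0, x => A.add (A.fst x) (A.fst (A.snd x)) = A.fst (A.snd (A.snd x))
  | 1, x => A.mul (A.fst x) (A.fst (A.snd x)) = A.fst (A.snd (A.snd x))
  | 2, x => A.lt (A.fst x) (A.fst (A.snd x))
  | 3, x => A.pair (A.fst x) (A.fst (A.snd x)) = A.fst (A.snd (A.snd x))
  | 4, x => A.fst x = A.fst (A.snd x)
  | 5, x => A.fst x = A.zero
  | 6, x => A.fst x = A.one
  | _, _ => False

/-- `E u y`: the number `y` belongs to the finite set coded by `u = ⟨a, m⟩`, that is,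
`m (y + 1) + 1` divides `a` -/
def E (u y : α) : Prop :=
  ∃ z, A.add (A.add (A.mul (A.mul z (A.snd u)) y) (A.mul z (A.snd u))) z = A.fst u

/-- internal codes -/
def icb (k : ℕ) : α := A.pair (A.nm 0) (A.nm k)
def icn (c : α) : α := A.pair (A.nm 1) c
def ica (c d : α) : α := A.pair (A.nm 2) (A.pair c d)
def ice (c : α) : α := A.pair (A.nm 3) c
def icf (k : ℕ) (c : α) : α := A.pair (A.nm 4) (A.pair (A.nm k) c)
def ic5 (e : α) : α := A.pair (A.nm 5) e

end Ar

/-- structures: arithmetic with pairing, a map `j` from the codes and a satisfaction relation -/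
structure Str (C α : Type) extends Ar α where
  j : C → α
  S : C → α → Prop

/-- extend an assignment -/
def cs {α : Type} (x : α) (e : ℕ → α) : ℕ → α
  | 0 => x
  | n + 1 => e n

/-- formulas; variables are de Bruijn indices; `S k i` is the atom `S (ρ k) x_i` -/
inductive Fo : Type
  | zero : ℕ → Fo
  | one : ℕ → Fo
  | add : ℕ → ℕ → ℕ → Fo
  | mul : ℕ → ℕ → ℕ → Fo
  | pair : ℕ → ℕ → ℕ → Fo
  | lt : ℕ → ℕ → Fo
  | eq : ℕ → ℕ → Fo
  | S : ℕ → ℕ → Fo
  | neg : Fo → Fo
  | and : Fo → Fo → Fo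
  | ex : Fo → Fo

namespace Fo

/-- truth -/
def sat {C α : Type} (A : Str C α) (ρ : ℕ → C) : Fo → (ℕ → α) → Prop
  | zero i, e => e i = A.zero
  | one i, e => e i = A.one
  | add i j k, e => A.add (e i) (e j) = e k
  | mul i j k, e => A.mul (e i) (e j) = e k
  | pair i j k, e => A.pair (e i) (e j) = e k
  | lt i j, e => A.lt (e i) (e j)
  | eq i j, e => e i = e j
  | S k i, e => A.S (ρ k) (e i)
  | neg φ, e => ¬ φ.sat A ρ e
  | and φ ψ, e => φ.sat A ρ e ∧ ψ.sat A ρ e
  | ex φ, e => ∃ x, φ.sat A ρ (cs x e)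

/-- code of a formula -/
def code {C : Type} [Cod C] (ρ : ℕ → C) : Fo → C
  | zero i => cp i (cb 5)
  | one i => cp i (cb 6)
  | add i j k => cp k (cp (j + 1) (cp (i + 2) (cb 0)))
  | mul i j k => cp k (cp (j + 1) (cp (i + 2) (cb 1)))
  | pair i j k => cp k (cp (j + 1) (cp (i + 2) (cb 3)))
  | lt i j => cp j (cp (i + 1) (cb 2))
  | eq i j => cp j (cp (i + 1) (cb 4))
  | S k i => cp i (cf 0 (ρ k))
  | neg φ => cn (φ.code ρ)
  | and φ ψ => ca (φ.code ρ) (ψ.code ρ)
  | ex φ => ce (φ.code ρ)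

/-- all free variables are `< φ.bd` -/
def bd : Fo → ℕ
  | zero i => i + 1
  | one i => i + 1
  | add i j k => (i + 1) ⊔ (j + 1) ⊔ (k + 1)
  | mul i j k => (i + 1) ⊔ (j + 1) ⊔ (k + 1)
  | pair i j k => (i + 1) ⊔ (j + 1) ⊔ (k + 1)
  | lt i j => (i + 1) ⊔ (j + 1)
  | eq i j => (i + 1) ⊔ (j + 1)
  | S _ i => i + 1
  | neg φ => φ.bd
  | and φ ψ => φ.bd ⊔ ψ.bd
  | ex φ => φ.bd - 1

/-- code of a formula as a set of numbers: `S (code1 ρ φ) x ↔ φ(x, x, x, ...)` -/
def code1 {C : Type} [Cod C] (ρ : ℕ → C) (φ : Fo) : C :=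
  cf 2 ((cp 0)^[φ.bd] (φ.code ρ))

end Fo

/-- a set of codes which is closed under pairing and contains the numerals -/
structure CClosed {C : Type} [Cod C] (I : Set C) : Prop where
  num : ∀ n, Cod.num n ∈ I
  pr : ∀ a b, a ∈ I → b ∈ I → Cod.pr a b ∈ I

/-- Tarski's clauses for the codes in `I` -/
structure Str.Tarski {C α : Type} [LE C] [Cod C] (A : Str C α) (I : Set C) : Prop where
  base : ∀ k < 7, cb k ∈ I → ∀ x, A.S (cb k) x ↔ A.base k x
  neg : ∀ c, cn c ∈ I → ∀ x, A.S (cn c) x ↔ ¬ A.S c x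
  and : ∀ c d, ca c d ∈ I → ∀ x, A.S (ca c d) x ↔ A.S c x ∧ A.S d x
  ex : ∀ c, ce c ∈ I → ∀ x, A.S (ce c) x ↔ ∃ z, A.S c (A.pair z x)
  fn : ∀ k < 7, ∀ c, cf k c ∈ I → ∀ x, A.S (cf k c) x ↔ A.S c (A.fn k x)
  sat : ∀ e, c5 e ∈ I → ∀ x, A.S (c5 e) x ↔ ∃ c ≤ e, A.fst x = A.j c ∧ A.S c (A.snd x)

/-- relations which are uniformly defined by a formula -/
def UD (R : ∀ (C α : Type), Str C α → (ℕ → C) → (ℕ → α) → Prop) : Prop :=
  ∃ φ : Fo, ∀ (C α : Type) (A : Str C α), A.Pairing → ∀ (ρ : ℕ → C) (e : ℕ → α),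
    φ.sat A ρ e ↔ R C α A ρ e

/-- terms (functions) which are uniformly defined by a formula -/
def TD (T : ∀ (C α : Type), Str C α → (ℕ → C) → (ℕ → α) → α) : Prop :=
  ∃ φ : Fo, ∀ (C α : Type) (A : Str C α), A.Pairing → ∀ (ρ : ℕ → C) (e : ℕ → α) (x : α),
    φ.sat A ρ (cs x e) ↔ x = T C α A ρ e

end Pool.Agent.Helper4.KSq
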