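import Pool.Agent.Helper4.KSq.MS3

set_option autoImplicit false

/-!
# Definable functions
-/

namespace Pool.Agent.Helper4.KSq

open Filter Cod

variable {α : Type} {A : Str J α} {I I' : Cut}

/-- the functions which are definable with a code in `I'`, the parameter `p` and parameters
from `J` -/
def DFc (A : Str J α) (I' : Cut) (p : α) : Set (α → α) :=
  {F | ∃ f ∈ I'.s, ∃ P : J, DF A F f (A.pair p (A.j P))}

/-- relations between three terms -/
theorem dfun_rel3 {R : ∀ (C α : Type), Str C α → (ℕ → C) → α → α → α → Prop}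
    (h : UD (fun C α A ρ e => R C α A ρ (e 0) (e 1) (e 2))) {t u v : Tr} (ht : TD t) (hu : TD u)
    (hv : TD v) :
    UD (fun C α A ρ e => R C α A ρ (t C α A ρ e) (u C α A ρ e) (v C α A ρ e)) := by
  have h0 : UD (fun C α A ρ e => R C α A ρ (e 1) (e 2) (e 0)) :=
    h.ren (fun n => if n = 0 then 1 else if n = 1 then 2 else 0)
  have h1 : UD (fun C α A ρ e =>
      R C α A ρ (e 0) (e 1) (v C α A ρ (fun n => e (n + 2)))) :=
    UD.subst (P := fun C α A ρ x e => R C α A ρ (e 0) (e 1) x) h0 (hv.ren (fun n => n + 2))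
  have h2 : UD (fun C α A ρ e =>
      R C α A ρ (e 1) (e 0) (v C α A ρ (fun n => e (n + 2)))) :=
    h1.ren (fun n => match n with | 0 => 1 | 1 => 0 | n + 2 => n + 2)
  have h3 : UD (fun C α A ρ e =>
      R C α A ρ (e 0) (u C α A ρ (fun n => e (n + 1))) (v C α A ρ (fun n => e (n + 1)))) :=
    UD.subst (P := fun C α A ρ x e => R C α A ρ (e 0) x (v C α A ρ (fun n => e (n + 1)))) h2
      (hu.ren (fun n => n + 1))
  exact UD.subst (P := fun C α A ρ x e => R C α A ρ x (u C α A ρ e) (v C α A ρ e)) h3 ht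

/-- membership in `DFc` through a uniformly definable relation -/
theorem dfun_mk (hA : IsK A I) (hI : I' ≤ I)
    {R : ∀ (C α : Type), Str C α → (ℕ → C) → α → α → α → α → Prop}
    (hR : UD (fun C α A ρ e => R C α A ρ (A.fst (A.fst (e 0))) (A.snd (A.fst (e 0)))
      (A.fst (A.snd (e 0))) (A.snd (A.snd (e 0)))))
    {ρ : ℕ → J} (hρ : ∀ k, ρ k ∈ I'.s) {p : α} {P : J} {F : α → α}
    (hF : ∀ x y, y = F x ↔ R J α A ρ x y p (A.j P)) : F ∈ DFc A I' p := by
  refine ⟨hR.cd ρ, hR.cd_mem I' hρ, P, fun x y => ?_⟩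
  have h := UD.cd_spec (R := fun C α A ρ v => R C α A ρ (A.fst (A.fst v)) (A.snd (A.fst v))
      (A.fst (A.snd v)) (A.snd (A.snd v))) hR hA (fun k => hI (hρ k))
      (A.pair (A.pair x y) (A.pair p (A.j P)))
  simp only [hA.pairing.fst_pair, hA.pairing.snd_pair] at h
  exact h.trans (hF x y).symm

/-- a function defined by a relation from another function -/
theorem DFc.of_rel (hA : IsK A I) (hI : I' ≤ I)
    {R : ∀ (C α : Type), Str C α → (ℕ → C) → α → α → α → Prop}
    (hR : UD (fun C α A ρ e => R C α A ρ (e 0) (e 1) (e 2)))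
    {ρ : ℕ → J} (hρ : ∀ k, ρ k ∈ I'.s) {p : α} {F G : α → α} (hG : G ∈ DFc A I' p)
    (hF : ∀ x y, y = F x ↔ R J α A ρ x y (G x)) : F ∈ DFc A I' p := by
  obtain ⟨g, hg, P, hgG⟩ := hG
  refine dfun_mk (R := fun C α A ρ x y q r => ∃ z, A.S (ρ 0) (A.pair (A.pair x z) (A.pair q r)) ∧
    R C α A (fun k => ρ (k + 1)) x y z) hA hI ?_ (ρ := cs g ρ) ?_ (P := P) ?_
  · refine UD.ex (P := fun C α A ρ z e => A.S (ρ 0) (A.pair (A.pair (A.fst (A.fst (e 0))) z)
      (A.pair (A.fst (A.snd (e 0))) (A.snd (A.snd (e 0))))) ∧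
      R C α A (fun k => ρ (k + 1)) (A.fst (A.fst (e 0))) (A.snd (A.fst (e 0))) z) ?_
    refine UD.and ?_ ?_
    · exact UD.S 0 (TD.pair (TD.pair (TD.fst (TD.fst (TD.var 1))) (TD.var 0))
        (TD.pair (TD.fst (TD.snd (TD.var 1))) (TD.snd (TD.snd (TD.var 1)))))
    · exact dfun_rel3 (R := fun C α A ρ x y z => R C α A (fun k => ρ (k + 1)) x y z)
        (hR.renC (fun k => k + 1)) (TD.fst (TD.fst (TD.var 1))) (TD.snd (TD.fst (TD.var 1)))
        (TD.var 0)
  · intro k
    cases k with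
    | zero => exact hg
    | succ k => exact hρ k
  · intro x y
    rw [hF x y]
    constructor
    · intro h
      exact ⟨G x, (hgG x (G x)).2 rfl, h⟩
    · rintro ⟨z, hz1, hz2⟩
      have := (hgG x z).1 hz1
      subst this
      exact hz2

theorem DFc.const (hA : IsK A I) (hI : I' ≤ I) (p : α) : (fun _ => p) ∈ DFc A I' p := by
  refine dfun_mk (R := fun _ _ _ _ _ y q _ => y = q) hA hI ?_ (ρ := fun _ => num 0)
    (fun _ => I'.num 0) (P := num 0) (fun x y => Iff.rfl)
  exact UD.eq (TD.snd (TD.fst (TD.var 0))) (TD.fst (TD.snd (TD.var 0)))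

theorem DFc.constJ (hA : IsK A I) (hI : I' ≤ I) (p : α) (a : J) :
    (fun _ => A.j a) ∈ DFc A I' p := by
  refine dfun_mk (R := fun _ _ _ _ _ y _ r => y = r) hA hI ?_ (ρ := fun _ => num 0)
    (fun _ => I'.num 0) (P := a) (fun x y => Iff.rfl)
  exact UD.eq (TD.snd (TD.fst (TD.var 0))) (TD.snd (TD.snd (TD.var 0)))

theorem DFc.id (hA : IsK A I) (hI : I' ≤ I) (p : α) : (fun x => x) ∈ DFc A I' p := by
  refine dfun_mk (R := fun _ _ _ _ x y _ _ => y = x) hA hI ?_ (ρ := fun _ => num 0)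
    (fun _ => I'.num 0) (P := num 0) (fun x y => Iff.rfl)
  exact UD.eq (TD.snd (TD.fst (TD.var 0))) (TD.fst (TD.fst (TD.var 0)))

theorem DFc.pair (hA : IsK A I) (hI : I' ≤ I) {p : α} {F G : α → α} (hF : F ∈ DFc A I' p)
    (hG : G ∈ DFc A I' p) : (fun x => A.pair (F x) (G x)) ∈ DFc A I' p := by
  obtain ⟨f, hf, P, hfF⟩ := hF
  obtain ⟨g, hg, Q, hgG⟩ := hG
  refine dfun_mk (R := fun _ _ A ρ x y q r => ∃ a, ∃ b,
    A.S (ρ 0) (A.pair (A.pair x a) (A.pair q (A.fst r))) ∧
    A.S (ρ 1) (A.pair (A.pair x b) (A.pair q (A.snd r))) ∧ y = A.pair a b) hA hI ?_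
    (ρ := rh2 f g) ?_ (P := Cod.pr P Q) ?_
  · repeat' first
      | exact TD.var _ | exact TD.zero | exact TD.one | exact TD.nm _ | assumption
      | apply TD.fst | apply TD.snd | apply TD.pair | apply TD.add | apply TD.mul
      | apply UD.S | apply UD.E | apply UD.lt | apply UD.le | apply UD.eq
      | apply UD.not | apply UD.and | apply UD.or | apply UD.iff | apply UD.all | apply UD.ex
      | apply UD.imp
  · intro k
    unfold rh2
    split_ifs
    · exact hf
    · exact hg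
  · intro x y
    rw [hA.j_pair]
    simp only [hA.pairing.fst_pair, hA.pairing.snd_pair]
    constructor
    · rintro rfl
      exact ⟨F x, G x, (hfF x (F x)).2 rfl, (hgG x (G x)).2 rfl, rfl⟩
    · rintro ⟨a, b, h1, h2, h3⟩
      have h1' := (hfF x a).1 h1
      have h2' := (hgG x b).1 h2
      subst h1'
      subst h2'
      exact h3

/-- composition with a uniformly definable term -/
theorem DFc.term (hA : IsK A I) (hI : I' ≤ I)
    {t : ∀ (C α : Type), Str C α → (ℕ → C) → α → α}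
    (ht : TD (fun C α A ρ e => t C α A ρ (e 0)))
    {ρ : ℕ → J} (hρ : ∀ k, ρ k ∈ I'.s) {p : α} {F : α → α} (hF : F ∈ DFc A I' p) :
    (fun x => t J α A ρ (F x)) ∈ DFc A I' p := by
  refine DFc.of_rel (R := fun C α A ρ _ y z => y = t C α A ρ z) hA hI ?_ hρ hF
    (fun x y => Iff.rfl)
  exact UD.eq (TD.var 1) (ht.ren (fun n => n + 2))

/-- change of parameters -/
theorem DFc.fst_param (hA : IsK A I) (hI : I' ≤ I) {p p' : α} {F : α → α}
    (hF : F ∈ DFc A I' p) : F ∈ DFc A I' (A.pair p p') := by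
  obtain ⟨f, hf, P, hfF⟩ := hF
  refine dfun_mk (R := fun _ _ A ρ x y q r =>
    A.S (ρ 0) (A.pair (A.pair x y) (A.pair (A.fst q) r))) hA hI ?_
    (ρ := fun _ => f) (fun _ => hf) (P := P) ?_
  · repeat' first
      | exact TD.var _ | exact TD.zero | exact TD.one | exact TD.nm _ | assumption
      | apply TD.fst | apply TD.snd | apply TD.pair | apply TD.add | apply TD.mul
      | apply UD.S
  · intro x y
    simp only [hA.pairing.fst_pair]
    exact (hfF x y).symm

theorem DFc.snd_param (hA : IsK A I) (hI : I' ≤ I) {p p' : α} {F : α → α}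
    (hF : F ∈ DFc A I' p') : F ∈ DFc A I' (A.pair p p') := by
  obtain ⟨f, hf, P, hfF⟩ := hF
  refine dfun_mk (R := fun _ _ A ρ x y q r =>
    A.S (ρ 0) (A.pair (A.pair x y) (A.pair (A.snd q) r))) hA hI ?_
    (ρ := fun _ => f) (fun _ => hf) (P := P) ?_
  · repeat' first
      | exact TD.var _ | exact TD.zero | exact TD.one | exact TD.nm _ | assumption
      | apply TD.fst | apply TD.snd | apply TD.pair | apply TD.add | apply TD.mul
      | apply UD.S
  · intro x y
    simp only [hA.pairing.snd_pair]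
    exact (hfF x y).symm

end Pool.Agent.Helper4.KSq
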