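import Pool.Agent.Helper4.KSq.DFun

set_option autoImplicit false

/-!
# Codes of statements about definable functions
-/

namespace Pool.Agent.Helper4.KSq

open Filter Cod

variable {α : Type} {A : Str J α} {I I' : Cut}

/-- substitution of three terms in a relation -/
theorem DFc.relT3 {R : ∀ (C α : Type), Str C α → (ℕ → C) → α → α → α → Prop}
    (h : UD (fun C α A ρ e => R C α A ρ (e 0) (e 1) (e 2))) {t u v : Tr} (ht : TD t) (hu : TD u)
    (hv : TD v) :
    UD (fun C α A ρ e => R C α A ρ (t C α A ρ e) (u C α A ρ e) (v C α A ρ e)) := by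
  have h0 : UD (fun C α A ρ e => R C α A ρ (e 1) (e 2) (e 0)) :=
    h.ren (fun n => if n = 0 then 1 else if n = 1 then 2 else 0)
  have h1 : UD (fun C α A ρ e => R C α A ρ (e 0) (e 1) (v C α A ρ (fun n => e (n + 2)))) :=
    UD.subst (P := fun C α A ρ x e => R C α A ρ (e 0) (e 1) x) h0 (hv.ren (fun n => n + 2))
  have h2 : UD (fun C α A ρ e => R C α A ρ (e 1) (e 0) (v C α A ρ (fun n => e (n + 2)))) := by
    have := h1.ren (fun n => if n = 0 then 1 else if n = 1 then 0 else n)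
    exact this
  have h3 : UD (fun C α A ρ e => R C α A ρ (e 0) (u C α A ρ (fun n => e (n + 1)))
      (v C α A ρ (fun n => e (n + 1)))) :=
    UD.subst (P := fun C α A ρ x e => R C α A ρ (e 0) x (v C α A ρ (fun n => e (n + 1)))) h2
      (hu.ren (fun n => n + 1))
  exact UD.subst (P := fun C α A ρ x e => R C α A ρ x (u C α A ρ e) (v C α A ρ e)) h3 ht

/-- add a constant -/
def addC {C : Type} (f : C) (ρ : ℕ → C) : ℕ → C
  | 0 => f
  | k + 1 => ρ k

/-- the predicate `R(x, F x)` for a definable function `F` has a code: for each `p` there are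
`θ` and `P` with `R(x, F x, y) ↔ S(θ, ⟨x, ⟨y, ⟨p, P⟩⟩⟩)` -/
theorem DFc.code (hA : IsK A I) (hI : I' ≤ I)
    {R : ∀ (C α : Type), Str C α → (ℕ → C) → α → α → α → Prop}
    (hR : UD (fun C α A ρ e => R C α A ρ (e 0) (e 1) (e 2)))
    {ρ : ℕ → J} (hρ : ∀ k, ρ k ∈ I'.s) {p : α} {F : α → α} (hF : F ∈ DFc A I' p) :
    ∃ θ ∈ I'.s, ∃ P : J, ∀ x y, A.S θ (A.pair x (A.pair y (A.pair p (A.j P)))) ↔
      R J α A ρ x (F x) y := by
  obtain ⟨f, hf, P, hF⟩ := hF
  have hU : UD (fun C α A ρ e => ∃ z, A.S (ρ 0) (A.pair (A.pair (A.fst (e 0)) z)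
      (A.snd (A.snd (e 0)))) ∧ R C α A (fun k => ρ (k + 1)) (A.fst (e 0)) z
        (A.fst (A.snd (e 0)))) := by
    apply UD.ex
    apply UD.and
    · exact UD.S 0 (TD.pair (TD.pair (TD.fst (TD.var 1)) (TD.var 0)) (TD.snd (TD.snd (TD.var 1))))
    · exact UD.renC (DFc.relT3 hR (TD.fst (TD.var 1)) (TD.var 0) (TD.fst (TD.snd (TD.var 1))))
        (fun k => k + 1)
  have hρ' : ∀ k, addC f ρ k ∈ I'.s := by
    intro k; cases k with
    | zero => exact hf
    | succ k => exact hρ k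
  refine ⟨hU.cd (addC f ρ), UD.cd_mem _ I' hρ', P, fun x y => ?_⟩
  rw [UD.cd_spec (R := fun C α A ρ x => ∃ z, A.S (ρ 0) (A.pair (A.pair (A.fst x) z)
      (A.snd (A.snd x))) ∧ R C α A (fun k => ρ (k + 1)) (A.fst x) z (A.fst (A.snd x))) hU hA
      (fun k => hI (hρ' k))]
  simp only [hA.pairing.fst_pair, hA.pairing.snd_pair]
  constructor
  · rintro ⟨z, h1, h2⟩
    rw [(hF x z).1 h1] at h2
    exact h2
  · intro h
    exact ⟨F x, (hF x (F x)).2 rfl, h⟩

/-- almost everywhere statements about definable functions have a code -/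
theorem DFc.ae_code (hA : IsK A I) (hI : I' ≤ I)
    {R : ∀ (C α : Type), Str C α → (ℕ → C) → α → α → α → Prop}
    (hR : UD (fun C α A ρ e => R C α A ρ (e 0) (e 1) (e 2)))
    {ρ : ℕ → J} (hρ : ∀ k, ρ k ∈ I'.s) {p : α} {F : α → α} (hF : F ∈ DFc A I' p) :
    ∃ θ ∈ I'.s, ∃ P : J, ∀ y, A.S θ (A.pair y (A.pair p (A.j P))) ↔
      Ae A I (fun x => R J α A ρ x (F x) y) := by
  obtain ⟨θ, hθ, P, h⟩ := DFc.code hA hI hR hρ hF
  refine ⟨dl θ, dl_mem I' hθ, P, fun y => ?_⟩
  rw [← ae_dec hA (hI hθ)]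
  constructor
  · intro h1; exact h1.mono fun x hx => (h x y).1 hx
  · intro h1; exact h1.mono fun x hx => (h x y).2 hx

/-- a statement about a definable function is decided almost everywhere -/
theorem DFc.ae_em (hA : IsK A I)
    {R : ∀ (C α : Type), Str C α → (ℕ → C) → α → α → Prop}
    (hR : UD (fun C α A ρ e => R C α A ρ (e 0) (e 1)))
    {ρ : ℕ → J} (hρ : ∀ k, ρ k ∈ I.s) {p : α} {F : α → α} (hF : F ∈ DFc A I p) :
    Ae A I (fun x => R J α A ρ x (F x)) ∨ Ae A I (fun x => ¬ R J α A ρ x (F x)) := by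
  obtain ⟨θ, hθ, P, h⟩ := DFc.code (R := fun C α A ρ x z _ => R C α A ρ x z) hA (fun _ h => h)
    hR hρ hF
  rcases Ae.em hA hθ (A.pair A.zero (A.pair p (A.j P))) with h1 | h1
  · left; exact h1.mono fun x hx => (h x A.zero).1 hx
  · right; exact h1.mono fun x hx hR => hx ((h x A.zero).2 hR)

end Pool.Agent.Helper4.KSq
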