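import Pool.Agent.Helper4.KSq.ExtDefs

set_option autoImplicit false

/-!
# The ultrapower, part A: thresholds and definable functions
-/

namespace Pool.Agent.Helper4.KSq

open Filter Cod

namespace Ctx

variable {α : Type} (X : Ctx α)

theorem wf_spec (x : α) : LG X.A (c5 X.l) (X.A.j X.l) X.q (X.A.j X.d) x (X.wf x) := by
  have h0 : UD (fun C α A ρ e => Good A (ρ 0) (e 1) (e 2) (e 3) (e 4) (e 0)) :=
    UD.Good (TD.var 1) (TD.var 2) (TD.var 3) (TD.var 4) (TD.var 0) 0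
  have h1 := X.isK.least (R := fun C α A ρ w e => Good A (ρ 0) (e 0) (e 1) (e 2) (e 3) w)
    h0 (ρ := fun _ => c5 X.l) (fun _ => c5_mem X.I X.hl)
    (fun n => match n with
      | 0 => X.A.j X.l
      | 1 => X.q
      | 2 => X.A.j X.d
      | _ => x) (X.app x)
  obtain ⟨w, hw, hw'⟩ := h1
  exact @Classical.epsilon_spec α
    (fun w => LG X.A (c5 X.l) (X.A.j X.l) X.q (X.A.j X.d) x w) ⟨w, hw, hw'⟩

theorem exA_thr (x : α) : Thr X.A (X.A.j X.d) (X.tf x) (X.sf x) x x := (X.wf_spec x).1.1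

theorem th_spec (i : ℕ) {x : α} (h : X.A.le (X.A.nm i) x) :
    Es X.A (X.sf x) (X.A.nm i) (X.th i x) := by
  have h1 : ∃ y, Es X.A (X.sf x) (X.A.nm i) y := (X.exA_thr x).1 _ h
  unfold th
  rw [dif_pos h1]
  exact Classical.choose_spec h1

theorem ae_nm_le (i : ℕ) : Ae X.A X.I (fun x => X.A.le (X.A.nm i) x) :=
  (Ae.tail X.isK (X.A.nm i)).mono fun _ h => Or.inl h

theorem le_th_zero (x : α) : X.A.le x (X.th 0 x) :=
  (X.exA_thr x).2.2.1 _ (X.th_spec 0 (X.isK.zero_le x))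

/-- the last threshold -/
noncomputable def top (x : α) : α :=
  @Classical.epsilon α ⟨X.A.zero⟩ (fun y => Es X.A (X.sf x) x y)

theorem top_spec (x : α) : Es X.A (X.sf x) x (X.top x) :=
  @Classical.epsilon_spec α (fun y => Es X.A (X.sf x) x y) ((X.exA_thr x).1 x (Or.inr rfl))

theorem ae_th_nxt (i : ℕ) :
    Ae X.A X.I (fun x => Nxt X.A (X.A.j X.d) (X.tf x) (X.th i x) (X.th (i + 1) x)) := by
  refine ((Ae.tail X.isK (X.A.nm i)).and X.isK (X.ae_nm_le (i + 1))).mono ?_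
  rintro x ⟨h1, h2⟩
  exact (X.exA_thr x).2.2.2 _ _ _ h1 (X.th_spec i (Or.inl h1)) (X.th_spec (i + 1) h2)

theorem exA_mono (x : α) (i : α) {y y' n : α} (hy : Es X.A (X.sf x) i y)
    (hin : X.A.le i n) (hn : X.A.le n x) (hy' : Es X.A (X.sf x) n y') :
    X.A.le y y' := by
  have hK := X.isK
  -- internal induction
  have h0 : UD (fun C α A ρ e => A.le (e 0) (e 1) → A.le (e 3) (e 0) → ∀ y y',
      Es A (e 2) (e 3) y → Es A (e 2) (e 0) y' → A.le y y') := by
    repeat' first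
      | exact TD.var _ | assumption
      | apply TD.fst | apply TD.snd | apply TD.pair
      | apply UD.Es | apply UD.E | apply UD.lt | apply UD.le | apply UD.and | apply UD.imp | apply UD.all
  have h1 := hK.induct (R := fun C α A ρ n e => A.le n (e 0) → A.le (e 2) n → ∀ y y',
      Es A (e 1) (e 2) y → Es A (e 1) n y' → A.le y y') h0
    (ρ := fun _ => c5 X.l) (fun _ => c5_mem X.I X.hl)
    (fun n => match n with
      | 0 => x
      | 1 => X.sf x
      | _ => i) ?_ ?_ n hn hin y y' hy hy'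
  · exact h1
  · intro _ h y y' hy hy'
    have hi : i = X.A.zero := by
      rcases h with h | h
      · exfalso
        rcases hK.zero_le i with h' | h'
        · exact hK.irrefl _ (hK.trans h h')
        · change X.A.lt i _ at h
          rw [← h'] at h
          exact hK.irrefl _ h
      · exact h
    change Es X.A (X.sf x) i y at hy
    rw [hi] at hy
    exact Or.inr ((X.exA_thr x).2.1 _ _ _ hy hy')
  · intro n ih hnx hin y y' hy hy'
    change X.A.le (X.A.add n X.A.one) x at hnx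
    change X.A.le i (X.A.add n X.A.one) at hin
    change Es X.A (X.sf x) i y at hy
    change Es X.A (X.sf x) (X.A.add n X.A.one) y' at hy'
    have hn1 : X.A.lt n (X.A.add n X.A.one) := (hK.lt_succ n n).2 (Or.inr rfl)
    have hnx' : X.A.lt n x := by
      rcases hnx with h | h
      · exact hK.trans hn1 h
      · rw [← h]; exact hn1
    rcases hin with h | h
    · have hin' : X.A.le i n := (hK.lt_succ i n).1 h
      obtain ⟨z, hz⟩ := (X.exA_thr x).1 n (Or.inl hnx')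
      have h2 : X.A.le y z := ih (Or.inl hnx') hin' y z hy hz
      have h3 : X.A.lt z y' := ((X.exA_thr x).2.2.2 n z y' hnx' hz hy').1
      rcases h2 with h2 | h2
      · exact Or.inl (hK.trans h2 h3)
      · rw [h2]; exact Or.inl h3
    · rw [h] at hy
      exact Or.inr ((X.exA_thr x).2.1 _ _ _ hy hy')

theorem ae_th_le_top (i : ℕ) : Ae X.A X.I (fun x => X.A.le (X.th i x) (X.top x)) := by
  refine (X.ae_nm_le i).mono ?_
  intro x hx
  exact X.exA_mono x (X.A.nm i) (X.th_spec i hx) hx (Or.inr rfl) (X.top_spec x)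

theorem tarT (x : α) : TarT X.A (X.A.j X.d) (X.tf x) (X.top x) :=
  ((X.wf_spec x).1.2 _ (X.top_spec x)).1

theorem cor (x : α) : Cor X.A (c5 X.l) (X.A.j X.l) (X.tf x) (X.top x) :=
  ((X.wf_spec x).1.2 _ (X.top_spec x)).2.1

/-- for a code `c ≤ l` and `y ≤ top x` the approximation is correct -/
theorem cor' {c : J} (hc : c ≤ X.l) (x : α) {y : α} (hy : X.A.le y (X.top x)) :
    Tc X.A (X.tf x) (X.A.j c) y ↔ X.A.S c y := by
  have hK := X.isK
  have hcl : X.A.le (X.A.j c) (X.A.j X.l) := by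
    rcases lt_or_eq_of_le hc with h | h
    · exact Or.inl ((hK.j_lt c X.l).2 h)
    · exact Or.inr (by rw [h])
  rw [X.cor x (X.A.j c) y hcl hy, hK.tarski.sat X.l (c5_mem X.I X.hl)]
  rw [hK.pairing.fst_pair, hK.pairing.snd_pair]
  constructor
  · rintro ⟨c', _, h1, h2⟩
    rw [hK.j_inj h1]; exact h2
  · intro h
    exact ⟨c, hc, rfl, h⟩

theorem con1 (x : α) : Con X.A (X.A.fst X.q) (X.A.fst (X.A.snd X.q))
    (X.A.fst (X.A.snd (X.A.snd X.q))) (X.tf x) (X.top x) :=
  ((X.wf_spec x).1.2 _ (X.top_spec x)).2.2.1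

theorem con2 (x : α) : Con X.A (X.A.fst (X.A.snd (X.A.snd (X.A.snd X.q))))
    (X.A.fst (X.A.snd (X.A.snd (X.A.snd (X.A.snd X.q)))))
    (X.A.snd (X.A.snd (X.A.snd (X.A.snd (X.A.snd X.q))))) (X.tf x) (X.top x) :=
  ((X.wf_spec x).1.2 _ (X.top_spec x)).2.2.2

theorem exA_LG_unique (x y : α)
    (h : LG X.A (c5 X.l) (X.A.j X.l) X.q (X.A.j X.d) x y) : y = X.wf x := by
  have h2 := X.wf_spec x
  rcases X.isK.tri y (X.wf x) with h3 | h3 | h3
  · exact absurd h.1 (h2.2 y h3)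
  · exact h3
  · exact absurd h2.1 (h.2 _ h3)

/-- the approximations are definable -/
theorem wf_mem : ∃ p, X.wf ∈ DFc X.A X.I p := by
  refine ⟨X.A.pair X.q (X.A.pair (X.A.j X.d) (X.A.j X.l)), ?_⟩
  have h0 : UD (fun C α A ρ e => LG A (ρ 0) (A.snd (A.snd (e 2))) (A.fst (e 2))
      (A.fst (A.snd (e 2))) (e 0) (e 1)) :=
    UD.LG (TD.snd (TD.snd (TD.var 2))) (TD.fst (TD.var 2)) (TD.fst (TD.snd (TD.var 2)))
      (TD.var 0) (TD.var 1) 0
  refine DFc.of_rel (R := fun C α A ρ x y z => LG A (ρ 0) (A.snd (A.snd z)) (A.fst z)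
      (A.fst (A.snd z)) x y) X.isK (fun _ h => h) h0 (ρ := fun _ => c5 X.l)
    (fun _ => c5_mem X.I X.hl) (DFc.const X.isK (fun _ h => h) _) ?_
  intro x y
  simp only [X.isK.pairing.fst_pair, X.isK.pairing.snd_pair]
  constructor
  · rintro rfl; exact X.wf_spec x
  · exact X.exA_LG_unique x y

theorem tf_mem : ∃ p, X.tf ∈ DFc X.A X.I p := by
  obtain ⟨p, hp⟩ := X.wf_mem
  refine ⟨p, ?_⟩
  exact DFc.term (t := fun C α A ρ x => A.snd x) X.isK (fun _ h => h) (TD.snd (TD.var 0))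
    (ρ := fun _ => c5 X.l) (fun _ => c5_mem X.I X.hl) hp

theorem th_mem (i : ℕ) : ∃ p, X.th i ∈ DFc X.A X.I p := by
  obtain ⟨p, hp⟩ := X.wf_mem
  refine ⟨p, ?_⟩
  have h0 : UD (fun C α A ρ e => Es A (A.fst (e 2)) (A.nm i) (e 1) ∨
      ((¬ ∃ y', Es A (A.fst (e 2)) (A.nm i) y') ∧ e 1 = A.zero)) := by
    repeat' first
      | exact TD.var _ | exact TD.nm _ | exact TD.zero | assumption
      | apply TD.fst | apply TD.snd | apply TD.pair
      | apply UD.Es | apply UD.E | apply UD.eq | apply UD.and | apply UD.or | apply UD.not | apply UD.ex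
  refine DFc.of_rel (R := fun C α A ρ x y z => Es A (A.fst z) (A.nm i) y ∨
      ((¬ ∃ y', Es A (A.fst z) (A.nm i) y') ∧ y = A.zero)) X.isK (fun _ h => h) h0
    (ρ := fun _ => c5 X.l) (fun _ => c5_mem X.I X.hl) hp ?_
  intro x y
  change y = X.th i x ↔ Es X.A (X.sf x) (X.A.nm i) y ∨
      ((¬ ∃ y', Es X.A (X.sf x) (X.A.nm i) y') ∧ y = X.A.zero)
  unfold th
  by_cases h : ∃ y, Es X.A (X.sf x) (X.A.nm i) y
  · rw [dif_pos h]
    constructor
    · rintro rfl; exact Or.inl (Classical.choose_spec h)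
    · rintro (h2 | ⟨h2, _⟩)
      · exact (X.exA_thr x).2.1 _ _ _ h2 (Classical.choose_spec h)
      · exact absurd h h2
  · rw [dif_neg h]
    constructor
    · rintro rfl; exact Or.inr ⟨h, rfl⟩
    · rintro (h2 | ⟨_, h2⟩)
      · exact absurd ⟨y, h2⟩ h
      · exact h2

end Ctx

end Pool.Agent.Helper4.KSq
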