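import Pool.Agent.Helper4.KSq.ExtA

set_option autoImplicit false

/-!
# The ultrapower, part A2: the functions of the ultrapower
-/

namespace Pool.Agent.Helper4.KSq

open Filter Cod

namespace Ctx

variable {α : Type} (X : Ctx α)

theorem le_trans' {a b c : α} (h : X.A.le a b) (h' : X.A.le b c) : X.A.le a c := by
  rcases h with h | rfl
  · rcases h' with h' | rfl
    · exact Or.inl (X.isK.trans h h')
    · exact Or.inl h
  · exact h'

/-- the thresholds increase almost everywhere -/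
theorem ae_th_mono {i k : ℕ} (h : i ≤ k) :
    Ae X.A X.I (fun x => X.A.le (X.th i x) (X.th k x)) := by
  induction k, h using Nat.le_induction with
  | base => exact Ae.all X.isK fun _ => Or.inr rfl
  | succ k _ ih =>
    exact (Ae.and X.isK ih (X.ae_th_nxt k)).mono fun x hx => X.le_trans' hx.1 (Or.inl hx.2.1)

/-- two functions of the ultrapower have a common bound -/
theorem ae_two {F G : α → α} (hF : ∃ i : ℕ, Ae X.A X.I (fun x => X.A.le (F x) (X.th i x)))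
    (hG : ∃ i : ℕ, Ae X.A X.I (fun x => X.A.le (G x) (X.th i x))) :
    ∃ i : ℕ, Ae X.A X.I (fun x => X.A.le (F x) (X.th i x) ∧ X.A.le (G x) (X.th i x)) := by
  obtain ⟨i, hi⟩ := hF
  obtain ⟨k, hk⟩ := hG
  refine ⟨max i k, ?_⟩
  have h1 := X.ae_th_mono (le_max_left i k)
  have h2 := X.ae_th_mono (le_max_right i k)
  exact (Ae.and X.isK (Ae.and X.isK hi hk) (Ae.and X.isK h1 h2)).mono fun x hx =>
    ⟨X.le_trans' hx.1.1 hx.2.1, X.le_trans' hx.1.2 hx.2.2⟩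

theorem ae_op {F G : α → α} (hF : ∃ i : ℕ, Ae X.A X.I (fun x => X.A.le (F x) (X.th i x)))
    (hG : ∃ i : ℕ, Ae X.A X.I (fun x => X.A.le (G x) (X.th i x))) :
    ∃ i : ℕ, Ae X.A X.I (fun x => X.A.le (X.A.add (F x) (G x)) (X.th i x) ∧
      X.A.le (X.A.mul (F x) (G x)) (X.th i x) ∧ X.A.le (X.A.pair (F x) (G x)) (X.th i x)) := by
  obtain ⟨i, hi⟩ := X.ae_two hF hG
  exact ⟨i + 1, (Ae.and X.isK hi (X.ae_th_nxt i)).mono fun x hx =>
    hx.2.2.1 _ _ hx.1.1 hx.1.2⟩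

/-- the functions of the ultrapower are closed under definable functions which are bounded by some
threshold -/
theorem isFn_of_rel {R : ∀ (C α : Type), Str C α → (ℕ → C) → α → α → α → Prop}
    (hR : UD (fun C α A ρ e => R C α A ρ (e 0) (e 1) (e 2)))
    {ρ : ℕ → J} (hρ : ∀ k, ρ k ∈ X.I.s) {F G : α → α} (hG : ∃ p, G ∈ DFc X.A X.I p)
    (hF : ∀ x y, y = F x ↔ R J α X.A ρ x y (G x))
    (hb : ∃ i : ℕ, Ae X.A X.I (fun x => X.A.le (F x) (X.th i x))) : X.IsFn F := by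
  obtain ⟨p, hp⟩ := hG
  exact ⟨⟨p, DFc.of_rel X.isK (fun _ h => h) hR hρ hp hF⟩, hb⟩

theorem isFn_const (a : α) : X.IsFn (fun _ => a) := by
  refine ⟨⟨a, DFc.const X.isK (fun _ h => h) a⟩, 0, ?_⟩
  exact (Ae.tail X.isK a).mono fun x hx => X.le_trans' (Or.inl hx) (X.le_th_zero x)

theorem isFn_id : X.IsFn (fun x => x) :=
  ⟨⟨X.A.zero, DFc.id X.isK (fun _ h => h) X.A.zero⟩, 0, Ae.all X.isK fun x => X.le_th_zero x⟩

theorem df_pair {F G : α → α} (hF : ∃ p, F ∈ DFc X.A X.I p) (hG : ∃ p, G ∈ DFc X.A X.I p) :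
    ∃ p, (fun x => X.A.pair (F x) (G x)) ∈ DFc X.A X.I p := by
  obtain ⟨p, hp⟩ := hF
  obtain ⟨p', hp'⟩ := hG
  exact ⟨X.A.pair p p', DFc.pair X.isK (fun _ h => h)
    (DFc.fst_param X.isK (fun _ h => h) hp) (DFc.snd_param X.isK (fun _ h => h) hp')⟩

theorem df_term {t : ∀ (C α : Type), Str C α → (ℕ → C) → α → α}
    (ht : TD (fun C α A ρ e => t C α A ρ (e 0))) {F : α → α} (hF : ∃ p, F ∈ DFc X.A X.I p) :
    ∃ p, (fun x => t J α X.A (fun _ => num 0) (F x)) ∈ DFc X.A X.I p := by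
  obtain ⟨p, hp⟩ := hF
  exact ⟨p, DFc.term X.isK (fun _ h => h) ht (fun _ => X.I.num 0) hp⟩

theorem isFn_pair {F G : α → α} (hF : X.IsFn F) (hG : X.IsFn G) :
    X.IsFn (fun x => X.A.pair (F x) (G x)) := by
  refine ⟨X.df_pair hF.1 hG.1, ?_⟩
  obtain ⟨i, hi⟩ := X.ae_op hF.2 hG.2
  exact ⟨i, hi.mono fun x hx => hx.2.2⟩

theorem isFn_add {F G : α → α} (hF : X.IsFn F) (hG : X.IsFn G) :
    X.IsFn (fun x => X.A.add (F x) (G x)) := by
  refine ⟨?_, ?_⟩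
  · have h := X.df_term (t := fun _ _ A _ y => A.add (A.fst y) (A.snd y))
      (TD.add (TD.fst (TD.var 0)) (TD.snd (TD.var 0))) (X.df_pair hF.1 hG.1)
    simpa only [X.isK.pairing.fst_pair, X.isK.pairing.snd_pair] using h
  · obtain ⟨i, hi⟩ := X.ae_op hF.2 hG.2
    exact ⟨i, hi.mono fun x hx => hx.1⟩

theorem isFn_mul {F G : α → α} (hF : X.IsFn F) (hG : X.IsFn G) :
    X.IsFn (fun x => X.A.mul (F x) (G x)) := by
  refine ⟨?_, ?_⟩
  · have h := X.df_term (t := fun _ _ A _ y => A.mul (A.fst y) (A.snd y))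
      (TD.mul (TD.fst (TD.var 0)) (TD.snd (TD.var 0))) (X.df_pair hF.1 hG.1)
    simpa only [X.isK.pairing.fst_pair, X.isK.pairing.snd_pair] using h
  · obtain ⟨i, hi⟩ := X.ae_op hF.2 hG.2
    exact ⟨i, hi.mono fun x hx => hx.2.1⟩

theorem fst_le (z : α) : X.A.le (X.A.fst z) z := by
  have h := (X.isK.le_pair (X.A.fst z) (X.A.snd z)).1
  rwa [X.isK.pairing.eta] at h

theorem snd_le (z : α) : X.A.le (X.A.snd z) z := by
  have h := (X.isK.le_pair (X.A.fst z) (X.A.snd z)).2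
  rwa [X.isK.pairing.eta] at h

theorem isFn_fst {F : α → α} (hF : X.IsFn F) : X.IsFn (fun x => X.A.fst (F x)) := by
  refine ⟨X.df_term (t := fun _ _ A _ y => A.fst y) (TD.fst (TD.var 0)) hF.1, ?_⟩
  obtain ⟨i, hi⟩ := hF.2
  exact ⟨i, hi.mono fun x hx => X.le_trans' (X.fst_le _) hx⟩

theorem isFn_snd {F : α → α} (hF : X.IsFn F) : X.IsFn (fun x => X.A.snd (F x)) := by
  refine ⟨X.df_term (t := fun _ _ A _ y => A.snd y) (TD.snd (TD.var 0)) hF.1, ?_⟩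
  obtain ⟨i, hi⟩ := hF.2
  exact ⟨i, hi.mono fun x hx => X.le_trans' (X.snd_le _) hx⟩

/-- a function bounded by a function of the ultrapower -/
theorem isFn_le {F G : α → α} (hF : ∃ p, F ∈ DFc X.A X.I p) (hG : X.IsFn G)
    (h : Ae X.A X.I (fun x => X.A.le (F x) (G x))) : X.IsFn F := by
  refine ⟨hF, ?_⟩
  obtain ⟨i, hi⟩ := hG.2
  exact ⟨i, (Ae.and X.isK h hi).mono fun x hx => X.le_trans' hx.1 hx.2⟩

/-- definable choice of the least element -/
theorem exists_min {R : ∀ (C α : Type), Str C α → (ℕ → C) → α → α → α → Prop}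
    (hR : UD (fun C α A ρ e => R C α A ρ (e 0) (e 1) (e 2)))
    {ρ : ℕ → J} (hρ : ∀ k, ρ k ∈ X.I.s) {G : α → α} (hG : ∃ p, G ∈ DFc X.A X.I p) :
    ∃ F : α → α, (∃ p, F ∈ DFc X.A X.I p) ∧
      (∀ x, (∃ y, R J α X.A ρ x y (G x)) → R J α X.A ρ x (F x) (G x) ∧
        ∀ y, X.A.lt y (F x) → ¬ R J α X.A ρ x y (G x)) ∧
      (∀ x, ¬ (∃ y, R J α X.A ρ x y (G x)) → F x = X.A.zero) := by
  classical
  have hl : ∀ x, (∃ y, R J α X.A ρ x y (G x)) → ∃ y, R J α X.A ρ x y (G x) ∧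
      ∀ y', X.A.lt y' y → ¬ R J α X.A ρ x y' (G x) := by
    intro x hx
    have hU : UD (fun C α A ρ e => R C α A ρ (e 1) (e 0) (e 2)) :=
      hR.ren (fun n => if n = 0 then 1 else if n = 1 then 0 else 2)
    exact X.isK.least (R := fun C α A ρ y e => R C α A ρ (e 0) y (e 1)) hU hρ
      (fun n => if n = 0 then x else G x) hx
  choose! F' hF' using hl
  let F : α → α := fun x => if ∃ y, R J α X.A ρ x y (G x) then F' x else X.A.zero
  have h1 : ∀ x, (∃ y, R J α X.A ρ x y (G x)) → R J α X.A ρ x (F x) (G x) ∧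
      ∀ y, X.A.lt y (F x) → ¬ R J α X.A ρ x y (G x) := by
    intro x hx
    have : F x = F' x := if_pos hx
    rw [this]
    exact hF' x hx
  have h2 : ∀ x, ¬ (∃ y, R J α X.A ρ x y (G x)) → F x = X.A.zero := fun x hx => if_neg hx
  refine ⟨F, ?_, h1, h2⟩
  obtain ⟨p, hp⟩ := hG
  have hU2 : UD (fun C α A ρ e => R C α A ρ (e 1) (e 0) (e 3)) :=
    hR.ren (fun n => if n = 0 then 1 else if n = 1 then 0 else 3)
  have hUR : UD (fun C α A ρ e => (R C α A ρ (e 0) (e 1) (e 2) ∧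
      ∀ y', A.lt y' (e 1) → ¬ R C α A ρ (e 0) y' (e 2)) ∨
      ((¬ ∃ y', R C α A ρ (e 0) y' (e 2)) ∧ e 1 = A.zero)) := by
    refine UD.or (UD.and hR (UD.all (P := fun C α A ρ y' e =>
      A.lt y' (e 1) → ¬ R C α A ρ (e 0) y' (e 2)) ?_))
      (UD.and (UD.not (UD.ex (P := fun C α A ρ y' e => R C α A ρ (e 0) y' (e 2)) hU2))
        (UD.eq (TD.var 1) TD.zero))
    exact UD.imp (UD.lt (TD.var 0) (TD.var 2)) (UD.not hU2)
  refine ⟨p, DFc.of_rel (R := fun C α A ρ x y g => (R C α A ρ x y g ∧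
      ∀ y', A.lt y' y → ¬ R C α A ρ x y' g) ∨
      ((¬ ∃ y', R C α A ρ x y' g) ∧ y = A.zero)) X.isK (fun _ h => h) hUR hρ hp ?_⟩
  intro x y
  constructor
  · rintro rfl
    by_cases hx : ∃ y, R J α X.A ρ x y (G x)
    · exact Or.inl (h1 x hx)
    · exact Or.inr ⟨hx, h2 x hx⟩
  · rintro (⟨ha, hb⟩ | ⟨ha, hb⟩)
    · have hx : ∃ y, R J α X.A ρ x y (G x) := ⟨y, ha⟩
      obtain ⟨hc, hd⟩ := h1 x hx
      rcases X.isK.tri y (F x) with h | h | h
      · exact absurd ha (hd y h)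
      · exact h
      · exact absurd hc (hb _ h)
    · rw [h2 x ha]
      exact hb

end Ctx

end Pool.Agent.Helper4.KSq
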