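import Pool.Agent.Helper4.KSq.ExtA2

set_option autoImplicit false

/-!
# The ultrapower, part A3: elements
-/

namespace Pool.Agent.Helper4.KSq

open Filter Cod

namespace Ctx

variable {α : Type} (X : Ctx α)

theorem rep_isFn (v : X.Bt) : X.IsFn (X.rep v) := (Quot.out v).2

theorem ExtA3_le_trans {a b c : α} (h : X.A.le a b) (h' : X.A.le b c) : X.A.le a c := by
  rcases h with h | h
  · rcases h' with h' | h'
    · exact Or.inl (X.isK.trans h h')
    · exact h' ▸ Or.inl h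
  · exact h ▸ h'

theorem ExtA3_equiv : Equivalence (fun F G : {F : α → α // X.IsFn F} =>
    Ae X.A X.I (fun x => F.1 x = G.1 x)) where
  refl F := Ae.all X.isK fun _ => rfl
  symm h := h.mono fun _ h => h.symm
  trans h h' := (Ae.and X.isK h h').mono fun _ h => h.1.trans h.2

theorem ExtA3_exact {F G : {F : α → α // X.IsFn F}}
    (h : (Quot.mk _ F : X.Bt) = Quot.mk _ G) : Ae X.A X.I (fun x => F.1 x = G.1 x) :=
  X.ExtA3_equiv.eqvGen_iff.1 (Quot.eqvGen_exact h)

theorem ExtA3_el {F : α → α} (hF : X.IsFn F) : X.el F = (Quot.mk _ ⟨F, hF⟩ : X.Bt) := by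
  unfold el
  rw [dif_pos hF]

theorem rep_el {F : α → α} (hF : X.IsFn F) : Ae X.A X.I (fun x => X.rep (X.el F) x = F x) := by
  have h : (Quot.mk _ (Quot.out (X.el F)) : X.Bt) = Quot.mk _ ⟨F, hF⟩ := by
    rw [← X.ExtA3_el hF]
    exact Quot.out_eq _
  exact X.ExtA3_exact h

theorem el_rep (v : X.Bt) : X.el (X.rep v) = v := by
  rw [X.ExtA3_el (X.rep_isFn v)]
  exact Quot.out_eq v

theorem el_eq {F G : α → α} (hF : X.IsFn F) (hG : X.IsFn G) :
    X.el F = X.el G ↔ Ae X.A X.I (fun x => F x = G x) := by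
  rw [X.ExtA3_el hF, X.ExtA3_el hG]
  exact ⟨fun h => X.ExtA3_exact h, fun h => Quot.sound h⟩

theorem S_el {F : α → α} (hF : X.IsFn F) (c : J) :
    X.B.S c (X.el F) ↔ Ae X.A X.I (fun x => Tc X.A (X.tf x) (X.A.j c) (F x)) := by
  show Ae X.A X.I (fun x => Tc X.A (X.tf x) (X.A.j c) (X.rep (X.el F) x)) ↔ _
  constructor
  · intro h
    exact (Ae.and X.isK h (X.rep_el hF)).mono fun x h => by
      have := h.1
      rwa [h.2] at this
  · intro h
    exact (Ae.and X.isK h (X.rep_el hF)).mono fun x h => by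
      rw [h.2]
      exact h.1

theorem lt_el {F G : α → α} (hF : X.IsFn F) (hG : X.IsFn G) :
    X.B.lt (X.el F) (X.el G) ↔ Ae X.A X.I (fun x => X.A.lt (F x) (G x)) := by
  show Ae X.A X.I (fun x => X.A.lt (X.rep (X.el F) x) (X.rep (X.el G) x)) ↔ _
  have hr := Ae.and X.isK (X.rep_el hF) (X.rep_el hG)
  constructor
  · intro h
    exact (Ae.and X.isK h hr).mono fun x h => by
      have := h.1
      rwa [h.2.1, h.2.2] at this
  · intro h
    exact (Ae.and X.isK h hr).mono fun x h => by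
      rw [h.2.1, h.2.2]
      exact h.1

theorem pair_el {F G : α → α} (hF : X.IsFn F) (hG : X.IsFn G) :
    X.B.pair (X.el F) (X.el G) = X.el (fun x => X.A.pair (F x) (G x)) := by
  show X.el (fun x => X.A.pair (X.rep (X.el F) x) (X.rep (X.el G) x)) = _
  rw [X.el_eq (X.isFn_pair (X.rep_isFn _) (X.rep_isFn _)) (X.isFn_pair hF hG)]
  exact (Ae.and X.isK (X.rep_el hF) (X.rep_el hG)).mono fun x h => by rw [h.1, h.2]

theorem add_el {F G : α → α} (hF : X.IsFn F) (hG : X.IsFn G) :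
    X.B.add (X.el F) (X.el G) = X.el (fun x => X.A.add (F x) (G x)) := by
  show X.el (fun x => X.A.add (X.rep (X.el F) x) (X.rep (X.el G) x)) = _
  rw [X.el_eq (X.isFn_add (X.rep_isFn _) (X.rep_isFn _)) (X.isFn_add hF hG)]
  exact (Ae.and X.isK (X.rep_el hF) (X.rep_el hG)).mono fun x h => by rw [h.1, h.2]

theorem mul_el {F G : α → α} (hF : X.IsFn F) (hG : X.IsFn G) :
    X.B.mul (X.el F) (X.el G) = X.el (fun x => X.A.mul (F x) (G x)) := by
  show X.el (fun x => X.A.mul (X.rep (X.el F) x) (X.rep (X.el G) x)) = _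
  rw [X.el_eq (X.isFn_mul (X.rep_isFn _) (X.rep_isFn _)) (X.isFn_mul hF hG)]
  exact (Ae.and X.isK (X.rep_el hF) (X.rep_el hG)).mono fun x h => by rw [h.1, h.2]

theorem fst_el {F : α → α} (hF : X.IsFn F) : X.B.fst (X.el F) = X.el (fun x => X.A.fst (F x)) := by
  show X.el (fun x => X.A.fst (X.rep (X.el F) x)) = _
  rw [X.el_eq (X.isFn_fst (X.rep_isFn _)) (X.isFn_fst hF)]
  exact (X.rep_el hF).mono fun x h => by rw [h]

theorem snd_el {F : α → α} (hF : X.IsFn F) : X.B.snd (X.el F) = X.el (fun x => X.A.snd (F x)) := by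
  show X.el (fun x => X.A.snd (X.rep (X.el F) x)) = _
  rw [X.el_eq (X.isFn_snd (X.rep_isFn _)) (X.isFn_snd hF)]
  exact (X.rep_el hF).mono fun x h => by rw [h]

/-- truth in the ultrapower for the codes `≤ l` -/
theorem los {F : α → α} (hF : X.IsFn F) {c : J} (hc : c ≤ X.l) :
    X.B.S c (X.el F) ↔ Ae X.A X.I (fun x => X.A.S c (F x)) := by
  rw [X.S_el hF c]
  obtain ⟨i, hi⟩ := hF.2
  have ht : Ae X.A X.I (fun x => X.A.le (F x) (X.top x)) :=
    (Ae.and X.isK hi (X.ae_th_le_top i)).mono fun x h => X.ExtA3_le_trans h.1 h.2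
  constructor
  · intro h
    exact (Ae.and X.isK h ht).mono fun x h => (X.cor' hc x h.2).1 h.1
  · intro h
    exact (Ae.and X.isK h ht).mono fun x h => (X.cor' hc x h.2).2 h.1

theorem ExtA3_ud : UD (fun _ _ A _ e => Tc A (A.fst (e 1)) (A.fst (A.snd (e 1)))
    (A.snd (A.snd (e 1)))) := by
  unfold Tc
  repeat' first
    | exact TD.var _ | assumption
    | apply TD.fst | apply TD.snd | apply TD.pair
    | apply UD.E

/-- decision of the approximations at definable functions -/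
theorem tc_em {F : α → α} (hF : ∃ p, F ∈ DFc X.A X.I p) (c : J) :
    Ae X.A X.I (fun x => Tc X.A (X.tf x) (X.A.j c) (F x)) ∨
    Ae X.A X.I (fun x => ¬ Tc X.A (X.tf x) (X.A.j c) (F x)) := by
  obtain ⟨p, hp⟩ := hF
  obtain ⟨p', hp'⟩ := X.tf_mem
  have hI : X.I ≤ X.I := fun _ h => h
  have h1 : X.tf ∈ DFc X.A X.I (X.A.pair p' p) := DFc.fst_param X.isK hI hp'
  have h2 : F ∈ DFc X.A X.I (X.A.pair p' p) := DFc.snd_param X.isK hI hp
  have h3 : (fun _ => X.A.j c) ∈ DFc X.A X.I (X.A.pair p' p) := DFc.constJ X.isK hI _ c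
  have h4 := DFc.pair X.isK hI h1 (DFc.pair X.isK hI h3 h2)
  have h5 := DFc.ae_em X.isK
    (R := fun _ _ A _ _ z => Tc A (A.fst z) (A.fst (A.snd z)) (A.snd (A.snd z))) ExtA3_ud
    (ρ := fun _ => X.l) (fun _ => X.hl) h4
  simpa only [X.isK.pairing.fst_pair, X.isK.pairing.snd_pair] using h5

end Ctx

end Pool.Agent.Helper4.KSq
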