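import Pool.Agent.Helper4.KSq.K

set_option autoImplicit false

/-!
# The structure `J` belongs to the class
-/

namespace Pool.Agent.Helper4.KSq

open Filter Cod

/-! ## Countability -/

theorem jf_tm_code_inj : ∀ t u : Tm, t.code = u.code → t = u := by
  intro t
  induction t with
  | var k =>
    intro u h
    cases u with
    | var l =>
      simp only [Tm.code] at h
      have h1 : k = l := by omega
      rw [h1]
    | _ => simp only [Tm.code] at h; omega
  | zero => intro u h; cases u <;> simp only [Tm.code] at h <;> first | omega | rfl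
  | one => intro u h; cases u <;> simp only [Tm.code] at h <;> first | omega | rfl
  | add t1 t2 ih1 ih2 =>
    intro u h
    cases u with
    | add u1 u2 =>
      simp only [Tm.code] at h
      have h1 : Nat.pair t1.code t2.code = Nat.pair u1.code u2.code := by omega
      have h2 := Nat.pair_eq_pair.1 h1
      rw [ih1 _ h2.1, ih2 _ h2.2]
    | _ => simp only [Tm.code] at h; omega
  | mul t1 t2 ih1 ih2 =>
    intro u h
    cases u with
    | mul u1 u2 =>
      simp only [Tm.code] at h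
      have h1 : Nat.pair t1.code t2.code = Nat.pair u1.code u2.code := by omega
      have h2 := Nat.pair_eq_pair.1 h1
      rw [ih1 _ h2.1, ih2 _ h2.2]
    | _ => simp only [Tm.code] at h; omega

theorem jf_fm_code_inj : ∀ φ ψ : Fm, φ.code = ψ.code → φ = ψ := by
  intro φ
  induction φ with
  | bot => intro ψ h; cases ψ <;> simp only [Fm.code] at h <;> first | omega | rfl
  | eq t u =>
    intro ψ h
    cases ψ with
    | eq t' u' =>
      simp only [Fm.code] at h
      have h1 : Nat.pair t.code u.code = Nat.pair t'.code u'.code := by omega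
      have h2 := Nat.pair_eq_pair.1 h1
      rw [jf_tm_code_inj _ _ h2.1, jf_tm_code_inj _ _ h2.2]
    | _ => simp only [Fm.code] at h; omega
  | lt t u =>
    intro ψ h
    cases ψ with
    | lt t' u' =>
      simp only [Fm.code] at h
      have h1 : Nat.pair t.code u.code = Nat.pair t'.code u'.code := by omega
      have h2 := Nat.pair_eq_pair.1 h1
      rw [jf_tm_code_inj _ _ h2.1, jf_tm_code_inj _ _ h2.2]
    | _ => simp only [Fm.code] at h; omega
  | imp φ1 φ2 ih1 ih2 =>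
    intro ψ h
    cases ψ with
    | imp t' u' =>
      simp only [Fm.code] at h
      have h1 : Nat.pair φ1.code φ2.code = Nat.pair t'.code u'.code := by omega
      have h2 := Nat.pair_eq_pair.1 h1
      rw [ih1 _ h2.1, ih2 _ h2.2]
    | _ => simp only [Fm.code] at h; omega
  | all k φ1 ih1 =>
    intro ψ h
    cases ψ with
    | all k' u' =>
      simp only [Fm.code] at h
      have h1 : Nat.pair k φ1.code = Nat.pair k' u'.code := by omega
      have h2 := Nat.pair_eq_pair.1 h1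
      rw [h2.1, ih1 _ h2.2]
    | _ => simp only [Fm.code] at h; omega

theorem jf_recSet_countable : {P : Set Fm | RecSet P}.Countable := by
  classical
  have hex : ∀ P : {P : Set Fm | RecSet P}, ∃ f : {f : ℕ → ℕ // Computable f},
      ∀ n, f.1 n = 1 ↔ ∃ φ ∈ P.1, φ.code = n := by
    rintro ⟨P, hP⟩
    obtain ⟨hd, hc⟩ := hP
    refine ⟨⟨fun n => cond (decide (∃ φ ∈ P, φ.code = n)) 1 0, ?_⟩, ?_⟩
    · exact Computable.cond hc (Computable.const 1) (Computable.const 0)
    · intro n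
      by_cases h : ∃ φ ∈ P, φ.code = n
      · simp [h]
      · simp [h]
  choose F hF using hex
  have hinj : Function.Injective F := by
    intro P Q hPQ
    apply Subtype.ext
    ext φ
    have h1 : ∀ R : {P : Set Fm | RecSet P}, (∃ ψ ∈ R.1, ψ.code = φ.code) ↔ φ ∈ R.1 := by
      intro R
      constructor
      · rintro ⟨ψ, h, h'⟩
        rwa [← jf_fm_code_inj _ _ h']
      · intro h
        exact ⟨φ, h, rfl⟩
    rw [← h1 P, ← h1 Q, ← hF P, ← hF Q, hPQ]
  exact Set.countable_coe_iff.1 hinj.countable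

theorem jf_fam_countable : fam.Countable := by
  unfold fam
  refine ((Set.countable_range _).union (Set.Finite.countable (Set.toFinite _))).union ?_
  have h : {f : ℕ → ℕ | ∃ P, RecSet P ∧
      (f = cP P ∨ f = bdc (cP P) ∨ f = gcd (cP P) ∨ f = iv (bdc (cP P)))} =
      ⋃ P ∈ {P : Set Fm | RecSet P}, {cP P, bdc (cP P), gcd (cP P), iv (bdc (cP P))} := by
    ext f
    simp only [Set.mem_iUnion, Set.mem_insert_iff, Set.mem_singleton_iff]
    constructor
    · rintro ⟨P, hP, h⟩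
      exact ⟨P, hP, h⟩
    · rintro ⟨P, hP, h⟩
      exact ⟨P, hP, h⟩
  rw [h]
  exact jf_recSet_countable.biUnion fun P _ => Set.Finite.countable (Set.toFinite _)

/-- the functions generated in at most `n` steps -/
def jfLev : ℕ → Set (ℕ → ℕ)
  | 0 => {fun n => n}
  | k + 1 => jfLev k ∪ (Set.image2 (fun f F => fun n => f (F n)) fam (jfLev k) ∪
      Set.image2 (fun F G => fun n => Nat.pair (F n) (G n)) (jfLev k) (jfLev k))

theorem jfLev_countable (k : ℕ) : (jfLev k).Countable := by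
  induction k with
  | zero => exact Set.countable_singleton _
  | succ k ih =>
    exact ih.union ((jf_fam_countable.image2 ih _).union (ih.image2 ih _))

theorem jfLev_mono {k l : ℕ} (h : k ≤ l) : jfLev k ⊆ jfLev l := by
  induction h with
  | refl => exact subset_rfl
  | step _ ih => exact ih.trans Set.subset_union_left

theorem jf_gen_lev {F : ℕ → ℕ} (hF : Gen F) : ∃ k, F ∈ jfLev k := by
  induction hF with
  | id => exact ⟨0, rfl⟩
  | ap hf _ ih =>
    obtain ⟨k, hk⟩ := ih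
    exact ⟨k + 1, Or.inr (Or.inl ⟨_, hf, _, hk, rfl⟩)⟩
  | pr _ _ ih1 ih2 =>
    obtain ⟨k, hk⟩ := ih1
    obtain ⟨l, hl⟩ := ih2
    exact ⟨max k l + 1, Or.inr (Or.inr ⟨_, jfLev_mono (le_max_left _ _) hk, _,
      jfLev_mono (le_max_right _ _) hl, rfl⟩)⟩

theorem jf_gen_countable : {F : ℕ → ℕ | Gen F}.Countable := by
  refine (Set.countable_iUnion jfLev_countable).mono ?_
  intro F hF
  obtain ⟨k, hk⟩ := jf_gen_lev hF
  exact Set.mem_iUnion.2 ⟨k, hk⟩

theorem J.countable : Countable J := by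
  have : Countable {F : ℕ → ℕ | Gen F} := jf_gen_countable.to_subtype
  refine Function.Surjective.countable (f := fun F : {F : ℕ → ℕ | Gen F} => J.mk F.1 F.2) ?_
  intro a
  obtain ⟨F, hF, rfl⟩ := a.ind
  exact ⟨⟨F, hF⟩, rfl⟩

/-! ## Pointwise description of the operations -/

namespace J

theorem jf_eq (a b : J) : a = b ↔ ∀ᶠ n in (JU : Filter ℕ), a.rep n = b.rep n := by
  conv_lhs => rw [← mk_rep a, ← mk_rep b]
  exact mk_eq _ _

theorem jf_lt (a b : J) : a < b ↔ ∀ᶠ n in (JU : Filter ℕ), a.rep n < b.rep n := by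
  conv_lhs => rw [← mk_rep a, ← mk_rep b]
  exact mk_lt _ _

theorem jf_le (a b : J) : a ≤ b ↔ ∀ᶠ n in (JU : Filter ℕ), a.rep n ≤ b.rep n := by
  conv_lhs => rw [← mk_rep a, ← mk_rep b]
  exact mk_le _ _

theorem jf_ap (f : ℕ → ℕ) (hf : f ∈ fam) (a : J) :
    ∀ᶠ n in (JU : Filter ℕ), (ap f hf a).rep n = f (a.rep n) := rep_mk _

theorem jf_pr (a b : J) :
    ∀ᶠ n in (JU : Filter ℕ), (pr a b).rep n = Nat.pair (a.rep n) (b.rep n) := rep_mk _

theorem jf_num (k : ℕ) : ∀ᶠ n in (JU : Filter ℕ), (num k : J).rep n = k := rep_mk _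

theorem jf_fst (a : J) : ∀ᶠ n in (JU : Filter ℕ), (JAr.fst a).rep n = NAr.fst (a.rep n) :=
  jf_ap _ mem_fst a

theorem jf_snd (a : J) : ∀ᶠ n in (JU : Filter ℕ), (JAr.snd a).rep n = NAr.snd (a.rep n) :=
  jf_ap _ mem_snd a

theorem jf_pair (a b : J) :
    ∀ᶠ n in (JU : Filter ℕ), (JAr.pair a b).rep n = NAr.pair (a.rep n) (b.rep n) := jf_pr a b

theorem jf_add (a b : J) :
    ∀ᶠ n in (JU : Filter ℕ), (JAr.add a b).rep n = NAr.add (a.rep n) (b.rep n) := by
  filter_upwards [jf_ap _ mem_add (pr a b), jf_pr a b] with n h1 h2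
  show (ap _ mem_add (pr a b)).rep n = a.rep n + b.rep n
  rw [h1, h2, Nat.unpair_pair]

theorem jf_mul (a b : J) :
    ∀ᶠ n in (JU : Filter ℕ), (JAr.mul a b).rep n = NAr.mul (a.rep n) (b.rep n) := by
  filter_upwards [jf_ap _ mem_mul (pr a b), jf_pr a b] with n h1 h2
  show (ap _ mem_mul (pr a b)).rep n = a.rep n * b.rep n
  rw [h1, h2, Nat.unpair_pair]

theorem jf_fn (k : ℕ) (a : J) :
    ∀ᶠ n in (JU : Filter ℕ), (JAr.fn k a).rep n = NAr.fn k (a.rep n) := by
  match k with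
  | 0 => exact jf_fst a
  | 1 => exact jf_snd a
  | 2 => exact jf_pair a a
  | 3 =>
    filter_upwards [jf_fst a, jf_snd a, jf_fst (JAr.snd a), jf_snd (JAr.snd a),
      jf_pair (JAr.fst (JAr.snd a)) (JAr.fst a),
      jf_pair (JAr.pair (JAr.fst (JAr.snd a)) (JAr.fst a)) (JAr.snd (JAr.snd a))]
      with n h1 h2 h3 h4 h5 h6
    show (JAr.pair (JAr.pair (JAr.fst (JAr.snd a)) (JAr.fst a)) (JAr.snd (JAr.snd a))).rep n = _
    rw [h6, h5, h3, h4, h1, h2]
    rfl
  | 4 =>
    filter_upwards [jf_snd a, jf_fst (JAr.snd a), jf_pair (JAr.fst (JAr.snd a)) a]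
      with n h1 h2 h3
    show (JAr.pair (JAr.fst (JAr.snd a)) a).rep n = _
    rw [h3, h2, h1]
    rfl
  | 5 =>
    filter_upwards [jf_fst a, jf_snd a, jf_fst (JAr.snd a), jf_snd (JAr.snd a),
      jf_fst (JAr.fst (JAr.snd a)), jf_snd (JAr.fst (JAr.snd a)),
      jf_pair (JAr.fst (JAr.fst (JAr.snd a))) (JAr.snd (JAr.snd a)),
      jf_pair (JAr.snd (JAr.fst (JAr.snd a)))
        (JAr.pair (JAr.fst (JAr.fst (JAr.snd a))) (JAr.snd (JAr.snd a))),
      jf_pair (JAr.fst a) (JAr.pair (JAr.snd (JAr.fst (JAr.snd a)))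
        (JAr.pair (JAr.fst (JAr.fst (JAr.snd a))) (JAr.snd (JAr.snd a))))]
      with n h1 h2 h3 h4 h5 h6 h7 h8 h9
    show (JAr.pair (JAr.fst a) (JAr.pair (JAr.snd (JAr.fst (JAr.snd a)))
        (JAr.pair (JAr.fst (JAr.fst (JAr.snd a))) (JAr.snd (JAr.snd a))))).rep n = _
    rw [h9, h8, h7, h6, h5, h4, h3, h2, h1]
    rfl
  | 6 =>
    filter_upwards [jf_fst a, jf_snd a, jf_snd (JAr.snd a),
      jf_pair (JAr.fst a) (JAr.snd (JAr.snd a))] with n h1 h2 h3 h4
    show (JAr.pair (JAr.fst a) (JAr.snd (JAr.snd a))).rep n = _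
    rw [h4, h3, h1, h2]
    rfl
  | (k + 7) => exact Eventually.of_forall fun n => rfl

/-- transfer of an equivalence -/
theorem jf_ev {P Q : ℕ → Prop} (h : ∀ᶠ n in (JU : Filter ℕ), (P n ↔ Q n)) :
    (∀ᶠ n in (JU : Filter ℕ), P n) ↔ ∀ᶠ n in (JU : Filter ℕ), Q n :=
  Filter.eventually_congr h

theorem jf_base (k : ℕ) (a : J) :
    JAr.base k a ↔ ∀ᶠ n in (JU : Filter ℕ), NAr.base k (a.rep n) := by
  match k with
  | 0 =>
    show JAr.add (JAr.fst a) (JAr.fst (JAr.snd a)) = JAr.fst (JAr.snd (JAr.snd a)) ↔ _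
    rw [jf_eq]
    apply jf_ev
    filter_upwards [jf_fst a, jf_snd a, jf_fst (JAr.snd a), jf_snd (JAr.snd a),
      jf_fst (JAr.snd (JAr.snd a)), jf_add (JAr.fst a) (JAr.fst (JAr.snd a))]
      with n h1 h2 h3 h4 h5 h6
    rw [h6, h5, h4, h3, h2, h1]
    rfl
  | 1 =>
    show JAr.mul (JAr.fst a) (JAr.fst (JAr.snd a)) = JAr.fst (JAr.snd (JAr.snd a)) ↔ _
    rw [jf_eq]
    apply jf_ev
    filter_upwards [jf_fst a, jf_snd a, jf_fst (JAr.snd a), jf_snd (JAr.snd a),
      jf_fst (JAr.snd (JAr.snd a)), jf_mul (JAr.fst a) (JAr.fst (JAr.snd a))]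
      with n h1 h2 h3 h4 h5 h6
    rw [h6, h5, h4, h3, h2, h1]
    rfl
  | 2 =>
    show JAr.fst a < JAr.fst (JAr.snd a) ↔ _
    rw [jf_lt]
    apply jf_ev
    filter_upwards [jf_fst a, jf_snd a, jf_fst (JAr.snd a)] with n h1 h2 h3
    rw [h3, h2, h1]
    rfl
  | 3 =>
    show JAr.pair (JAr.fst a) (JAr.fst (JAr.snd a)) = JAr.fst (JAr.snd (JAr.snd a)) ↔ _
    rw [jf_eq]
    apply jf_ev
    filter_upwards [jf_fst a, jf_snd a, jf_fst (JAr.snd a), jf_snd (JAr.snd a),
      jf_fst (JAr.snd (JAr.snd a)), jf_pair (JAr.fst a) (JAr.fst (JAr.snd a))]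
      with n h1 h2 h3 h4 h5 h6
    rw [h6, h5, h4, h3, h2, h1]
    rfl
  | 4 =>
    show JAr.fst a = JAr.fst (JAr.snd a) ↔ _
    rw [jf_eq]
    apply jf_ev
    filter_upwards [jf_fst a, jf_snd a, jf_fst (JAr.snd a)] with n h1 h2 h3
    rw [h3, h2, h1]
    rfl
  | 5 =>
    show JAr.fst a = num 0 ↔ _
    rw [jf_eq]
    apply jf_ev
    filter_upwards [jf_fst a, jf_num 0] with n h1 h2
    rw [h2, h1]
    rfl
  | 6 =>
    show JAr.fst a = num 1 ↔ _
    rw [jf_eq]
    apply jf_ev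
    filter_upwards [jf_fst a, jf_num 1] with n h1 h2
    rw [h2, h1]
    rfl
  | (k + 7) =>
    show False ↔ ∀ᶠ n in (JU : Filter ℕ), False
    refine ⟨fun h => h.elim, fun h => ?_⟩
    obtain ⟨n, hn⟩ := h.exists
    exact hn

theorem jf_pairing : JJ.Pairing where
  fst_pair a b := by
    show JAr.fst (JAr.pair a b) = a
    rw [jf_eq]
    filter_upwards [jf_fst (JAr.pair a b), jf_pair a b] with n h1 h2
    rw [h1, h2]
    exact NN_pairing.fst_pair _ _
  snd_pair a b := by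
    show JAr.snd (JAr.pair a b) = b
    rw [jf_eq]
    filter_upwards [jf_snd (JAr.pair a b), jf_pair a b] with n h1 h2
    rw [h1, h2]
    exact NN_pairing.snd_pair _ _
  eta a := by
    show JAr.pair (JAr.fst a) (JAr.snd a) = a
    rw [jf_eq]
    filter_upwards [jf_fst a, jf_snd a, jf_pair (JAr.fst a) (JAr.snd a)] with n h1 h2 h3
    rw [h3, h1, h2]
    exact NN_pairing.eta _

theorem jf_cb (k : ℕ) : ∀ᶠ n in (JU : Filter ℕ), (cb k : J).rep n = cb k := by
  filter_upwards [jf_pr (num 0) (num k), jf_num 0, jf_num k] with n h1 h2 h3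
  show (pr (num 0) (num k) : J).rep n = Nat.pair 0 k
  rw [h1, h2, h3]

theorem jf_cn (c : J) : ∀ᶠ n in (JU : Filter ℕ), (cn c).rep n = cn (c.rep n) := by
  filter_upwards [jf_pr (num 1) c, jf_num 1] with n h1 h2
  show (pr (num 1) c : J).rep n = Nat.pair 1 (c.rep n)
  rw [h1, h2]

theorem jf_ca (c d : J) : ∀ᶠ n in (JU : Filter ℕ), (ca c d).rep n = ca (c.rep n) (d.rep n) := by
  filter_upwards [jf_pr (num 2) (pr c d), jf_pr c d, jf_num 2] with n h1 h2 h3
  show (pr (num 2) (pr c d) : J).rep n = Nat.pair 2 (Nat.pair (c.rep n) (d.rep n))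
  rw [h1, h2, h3]

theorem jf_ce (c : J) : ∀ᶠ n in (JU : Filter ℕ), (ce c).rep n = ce (c.rep n) := by
  filter_upwards [jf_pr (num 3) c, jf_num 3] with n h1 h2
  show (pr (num 3) c : J).rep n = Nat.pair 3 (c.rep n)
  rw [h1, h2]

theorem jf_cf (k : ℕ) (c : J) :
    ∀ᶠ n in (JU : Filter ℕ), (cf k c).rep n = cf k (c.rep n) := by
  filter_upwards [jf_pr (num 4) (pr (num k) c), jf_pr (num k) c, jf_num 4, jf_num k]
    with n h1 h2 h3 h4
  show (pr (num 4) (pr (num k) c) : J).rep n = Nat.pair 4 (Nat.pair k (c.rep n))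
  rw [h1, h2, h3, h4]

theorem jf_c5 (c : J) : ∀ᶠ n in (JU : Filter ℕ), (c5 c).rep n = c5 (c.rep n) := by
  filter_upwards [jf_pr (num 5) c, jf_num 5] with n h1 h2
  show (pr (num 5) c : J).rep n = Nat.pair 5 (c.rep n)
  rw [h1, h2]

/-- the Skolem function -/
theorem jf_sk_spec {c x : ℕ} (h : ∃ z, SN c (Nat.pair z x)) :
    SN c (Nat.pair (sk (Nat.pair c x)) x) := by
  have h1 : {z | SN (Nat.pair c x).unpair.1 (Nat.pair z (Nat.pair c x).unpair.2)}.Nonempty := by
    obtain ⟨z, hz⟩ := h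
    exact ⟨z, by simpa using hz⟩
  have h2 := Nat.sInf_mem h1
  simp only [Nat.unpair_pair] at h2
  have h3 : sk (Nat.pair c x) = sInf {z | SN c (Nat.pair z x)} := by simp [sk]
  rw [h3]
  exact h2

theorem jf_sk_min {c x z : ℕ} (h : z < sk (Nat.pair c x)) : ¬ SN c (Nat.pair z x) := by
  have h3 : sk (Nat.pair c x) = sInf {z | SN c (Nat.pair z x)} := by simp [sk]
  rw [h3] at h
  intro hz
  exact absurd (Nat.sInf_le (s := {z | SN c (Nat.pair z x)}) hz) (by omega)

theorem jf_ex (c x : J) : (∃ z, SJ c (JAr.pair z x)) ↔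
    ∀ᶠ n in (JU : Filter ℕ), ∃ z, SN (c.rep n) (Nat.pair z (x.rep n)) := by
  constructor
  · rintro ⟨z, hz⟩
    filter_upwards [hz, jf_pair z x] with n h1 h2
    rw [h2] at h1
    exact ⟨_, h1⟩
  · intro h
    refine ⟨ap _ mem_sk (pr c x), ?_⟩
    filter_upwards [h, jf_pair (ap _ mem_sk (pr c x)) x, jf_ap _ mem_sk (pr c x), jf_pr c x]
      with n h1 h2 h3 h4
    rw [h2, h3, h4]
    exact jf_sk_spec h1

theorem jf_tarski (I : Set J) : JJ.Tarski I where
  base k hk _ x := by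
    show (∀ᶠ n in (JU : Filter ℕ), SN ((cb k : J).rep n) (x.rep n)) ↔ JAr.base k x
    rw [jf_base]
    apply jf_ev
    filter_upwards [jf_cb k] with n h1
    rw [h1]
    exact NN_tarski.base k hk (Set.mem_univ _) _
  neg c _ x := by
    show (∀ᶠ n in (JU : Filter ℕ), SN ((cn c : J).rep n) (x.rep n)) ↔
      ¬ ∀ᶠ n in (JU : Filter ℕ), SN (c.rep n) (x.rep n)
    rw [← Ultrafilter.eventually_not]
    apply jf_ev
    filter_upwards [jf_cn c] with n h1
    rw [h1]
    exact NN_tarski.neg _ (Set.mem_univ _) _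
  and c d _ x := by
    show (∀ᶠ n in (JU : Filter ℕ), SN ((ca c d : J).rep n) (x.rep n)) ↔
      (∀ᶠ n in (JU : Filter ℕ), SN (c.rep n) (x.rep n)) ∧
      ∀ᶠ n in (JU : Filter ℕ), SN (d.rep n) (x.rep n)
    rw [← Filter.eventually_and]
    apply jf_ev
    filter_upwards [jf_ca c d] with n h1
    rw [h1]
    exact NN_tarski.and _ _ (Set.mem_univ _) _
  ex c _ x := by
    show (∀ᶠ n in (JU : Filter ℕ), SN ((ce c : J).rep n) (x.rep n)) ↔
      ∃ z, SJ c (JAr.pair z x)
    rw [jf_ex]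
    apply jf_ev
    filter_upwards [jf_ce c] with n h1
    rw [h1]
    exact NN_tarski.ex _ (Set.mem_univ _) _
  fn k hk c _ x := by
    show (∀ᶠ n in (JU : Filter ℕ), SN ((cf k c : J).rep n) (x.rep n)) ↔
      ∀ᶠ n in (JU : Filter ℕ), SN (c.rep n) ((JAr.fn k x).rep n)
    apply jf_ev
    filter_upwards [jf_cf k c, jf_fn k x] with n h1 h2
    rw [h1, h2]
    exact NN_tarski.fn k hk _ (Set.mem_univ _) _
  sat e _ x := by
    show (∀ᶠ n in (JU : Filter ℕ), SN ((c5 e : J).rep n) (x.rep n)) ↔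
      ∃ c ≤ e, JAr.fst x = c ∧ ∀ᶠ n in (JU : Filter ℕ), SN (c.rep n) ((JAr.snd x).rep n)
    have key : ∀ n, SN (c5 (e.rep n)) (x.rep n) ↔
        ∃ c ≤ e.rep n, NAr.fst (x.rep n) = c ∧ SN c (NAr.snd (x.rep n)) :=
      fun n => NN_tarski.sat _ (Set.mem_univ _) _
    constructor
    · intro h
      refine ⟨JAr.fst x, ?_, rfl, ?_⟩
      · rw [jf_le]
        filter_upwards [h, jf_c5 e, jf_fst x] with n h1 h2 h3
        rw [h2, key] at h1
        obtain ⟨c, hc, hc', _⟩ := h1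
        rw [h3, hc']
        exact hc
      · filter_upwards [h, jf_c5 e, jf_fst x, jf_snd x] with n h1 h2 h3 h4
        rw [h2, key] at h1
        obtain ⟨c, hc, hc', hs⟩ := h1
        rw [h3, h4, hc']
        exact hs
    · rintro ⟨c, hc, rfl, hs⟩
      rw [jf_le] at hc
      filter_upwards [hc, hs, jf_c5 e, jf_fst x, jf_snd x] with n h1 h2 h3 h4 h5
      rw [h3, key]
      rw [h4] at h1
      rw [h4, h5] at h2
      exact ⟨_, h1, rfl, h2⟩

end J

/-- `J` belongs to the class, for every length -/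
theorem JJ_isK (I : Cut) : IsK J.JJ I where
  pairing := J.jf_pairing
  j_pair _ _ := rfl
  initial x _ _ := ⟨x, rfl⟩
  tarski := J.jf_tarski I.s
  lnp c _ p := by
    intro h
    have h' : ∀ᶠ n in (JU : Filter ℕ), ∃ z, SN (c.rep n) (Nat.pair z (p.rep n)) :=
      (J.jf_ex c p).1 h
    refine ⟨J.ap _ J.mem_sk (pr c p), ?_, ?_⟩
    · show ∀ᶠ n in (JU : Filter ℕ),
        SN (c.rep n) ((J.JAr.pair (J.ap _ J.mem_sk (pr c p)) p).rep n)
      filter_upwards [h', J.jf_pair (J.ap _ J.mem_sk (pr c p)) p,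
        J.jf_ap _ J.mem_sk (pr c p), J.jf_pr c p] with n h1 h2 h3 h4
      rw [h2, h3, h4]
      exact J.jf_sk_spec h1
    · intro y hy hy'
      have hy1 : ∀ᶠ n in (JU : Filter ℕ), y.rep n < (J.ap _ J.mem_sk (pr c p)).rep n :=
        (J.jf_lt _ _).1 hy
      have hy2 : ∀ᶠ n in (JU : Filter ℕ), SN (c.rep n) ((J.JAr.pair y p).rep n) := hy'
      have hf : ∀ᶠ n in (JU : Filter ℕ), False := by
        filter_upwards [hy1, hy2, J.jf_pair y p, J.jf_ap _ J.mem_sk (pr c p), J.jf_pr c p]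
          with n h1 h2 h3 h4 h5
        rw [h4, h5] at h1
        rw [h3] at h2
        exact J.jf_sk_min h1 h2
      obtain ⟨n, hn⟩ := hf.exists
      exact hn
  agree _ _ := Iff.rfl
  void n hn x h := by
    have h1 : ∀ᶠ m in (JU : Filter ℕ), SN ((num n : J).rep m) (x.rep m) := h
    have hf : ∀ᶠ m in (JU : Filter ℕ), False := by
      filter_upwards [h1, J.jf_num n] with m h2 h3
      rw [h3] at h2
      exact hn _ h2
    obtain ⟨m, hm⟩ := hf.exists
    exact hm

end Pool.Agent.Helper4.KSq
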