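import Pool.Agent.Helper4.KSq.ExtA3
import Pool.Agent.Helper4.KSq.JFacts

set_option autoImplicit false

/-!
# The ultrapower, part B: the extension belongs to the class
-/

namespace Pool.Agent.Helper4.KSq

open Filter Cod Cardinal

namespace Ctx

variable {α : Type} (X : Ctx α)

/-! ### Auxiliary facts -/

theorem exB_const_iff (P : Prop) : Ae X.A X.I (fun _ => P) ↔ P :=
  ⟨fun h => (Ae.exists X.isK h).elim fun _ hx => hx, fun h => Ae.all X.isK fun _ => h⟩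

theorem exB_ex (v : X.Bt) : ∃ F, X.IsFn F ∧ v = X.el F :=
  ⟨X.rep v, X.rep_isFn v, (X.el_rep v).symm⟩

theorem exB_le_top {F : α → α} (hF : X.IsFn F) :
    Ae X.A X.I (fun x => X.A.le (F x) (X.top x)) := by
  obtain ⟨-, i, hi⟩ := hF
  refine (Ae.and X.isK hi (X.ae_th_le_top i)).mono fun x hx => ?_
  obtain ⟨h1, h2⟩ := hx
  rcases h1 with h1 | h1
  · rcases h2 with h2 | h2
    · exact Or.inl (X.isK.trans h1 h2)
    · exact Or.inl (h2 ▸ h1)
  · rw [h1]; exact h2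

theorem exB_le_trans {a b c : α} (h1 : X.A.le a b) (h2 : X.A.le b c) : X.A.le a c := by
  rcases h1 with h1 | h1
  · rcases h2 with h2 | h2
    · exact Or.inl (X.isK.trans h1 h2)
    · exact Or.inl (h2 ▸ h1)
  · rw [h1]; exact h2

theorem exB_not_lt_of_le {a b : α} (h : X.A.le a b) : ¬ X.A.lt b a := by
  intro h'
  rcases h with h | h
  · exact X.isK.irrefl _ (X.isK.trans h h')
  · rw [h] at h'; exact X.isK.irrefl _ h'

theorem exB_le_of_not_lt {a b : α} (h : ¬ X.A.lt b a) : X.A.le a b := by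
  rcases X.isK.tri a b with h' | h' | h'
  · exact Or.inl h'
  · exact Or.inr h'
  · exact absurd h' h

theorem exB_j_le {g : J} (hg : g ∈ X.K.s) : X.A.le (X.A.j g) (X.A.j X.d) :=
  Or.inl ((X.isK.j_lt _ _).2 (X.hd g hg))

theorem exB_j_cb (k : ℕ) : X.A.j (cb k) = X.A.icb k := by
  unfold cb Ar.icb
  rw [X.isK.j_pair, X.isK.j_num, X.isK.j_num]

theorem exB_j_cn (c : J) : X.A.j (cn c) = X.A.icn (X.A.j c) := by
  unfold cn Ar.icn
  rw [X.isK.j_pair, X.isK.j_num]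

theorem exB_j_ca (c c' : J) : X.A.j (ca c c') = X.A.ica (X.A.j c) (X.A.j c') := by
  unfold ca Ar.ica
  rw [X.isK.j_pair, X.isK.j_num, X.isK.j_pair]

theorem exB_j_ce (c : J) : X.A.j (ce c) = X.A.ice (X.A.j c) := by
  unfold ce Ar.ice
  rw [X.isK.j_pair, X.isK.j_num]

theorem exB_j_cf (k : ℕ) (c : J) : X.A.j (cf k c) = X.A.icf k (X.A.j c) := by
  unfold cf Ar.icf
  rw [X.isK.j_pair, X.isK.j_num, X.isK.j_pair, X.isK.j_num]

theorem exB_j_c5 (c : J) : X.A.j (c5 c) = X.A.ic5 (X.A.j c) := by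
  unfold c5 Ar.ic5
  rw [X.isK.j_pair, X.isK.j_num]

theorem exB_not_iff {P : α → Prop} (h : Ae X.A X.I P ∨ Ae X.A X.I (fun x => ¬ P x)) :
    Ae X.A X.I (fun x => ¬ P x) ↔ ¬ Ae X.A X.I P := by
  constructor
  · intro h1 h2
    exact Ae.false X.isK ((Ae.and X.isK h1 h2).mono fun x hx => hx.1 hx.2)
  · intro h1
    exact h.resolve_left h1

theorem exB_congr {P Q : α → Prop} (h : Ae X.A X.I (fun x => P x ↔ Q x)) :
    Ae X.A X.I P ↔ Ae X.A X.I Q :=
  ⟨fun h1 => (Ae.and X.isK h h1).mono fun _ hx => hx.1.1 hx.2,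
    fun h1 => (Ae.and X.isK h h1).mono fun _ hx => hx.1.2 hx.2⟩

/-- common parameters for two definable functions -/
theorem exB_comm2 {F G : α → α} (hF : ∃ p, F ∈ DFc X.A X.I p) (hG : ∃ p, G ∈ DFc X.A X.I p) :
    ∃ p, F ∈ DFc X.A X.I p ∧ G ∈ DFc X.A X.I p := by
  obtain ⟨p, hp⟩ := hF
  obtain ⟨p', hp'⟩ := hG
  exact ⟨X.A.pair p p', DFc.fst_param X.isK (fun _ h => h) hp,
    DFc.snd_param X.isK (fun _ h => h) hp'⟩

theorem exB_dpair {F G : α → α} (hF : ∃ p, F ∈ DFc X.A X.I p) (hG : ∃ p, G ∈ DFc X.A X.I p) :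
    ∃ p, (fun x => X.A.pair (F x) (G x)) ∈ DFc X.A X.I p := by
  obtain ⟨p, h1, h2⟩ := X.exB_comm2 hF hG
  exact ⟨p, DFc.pair X.isK (fun _ h => h) h1 h2⟩

theorem exB_dconst (a : α) : ∃ p, (fun _ : α => a) ∈ DFc X.A X.I p :=
  ⟨a, DFc.const X.isK (fun _ h => h) a⟩

theorem exB_udR : UD (fun _ _ A _ e => Tc A (A.fst (e 2)) (A.snd (A.snd (e 2)))
    (A.pair (e 1) (A.fst (A.snd (e 2))))) := by
  unfold Tc
  repeat' first
    | exact TD.var _ | exact TD.zero | exact TD.one | exact TD.nm _ | assumption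
    | apply TD.fst | apply TD.snd | apply TD.pair
    | apply UD.E

/-- definable choice of the least witness -/
theorem exB_choice {F : α → α} (hF : ∃ p, F ∈ DFc X.A X.I p) (c : J) {G : α → α}
    (hG : X.IsFn G)
    (h : Ae X.A X.I (fun x => ∃ y, X.A.le y (G x) ∧
      Tc X.A (X.tf x) (X.A.j c) (X.A.pair y (F x)))) :
    ∃ W : α → α, X.IsFn W ∧
      Ae X.A X.I (fun x => Tc X.A (X.tf x) (X.A.j c) (X.A.pair (W x) (F x)) ∧
        ∀ y, X.A.lt y (W x) → ¬ Tc X.A (X.tf x) (X.A.j c) (X.A.pair y (F x))) := by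
  have hD := X.exB_dpair X.tf_mem (X.exB_dpair hF (X.exB_dconst (X.A.j c)))
  obtain ⟨W, hW, hW1, -⟩ := X.exists_min
    (R := fun C α A ρ x y g => Tc A (A.fst g) (A.snd (A.snd g)) (A.pair y (A.fst (A.snd g))))
    exB_udR (ρ := fun _ => num 0) (fun _ => X.I.num 0) hD
  simp only [X.isK.pairing.fst_pair, X.isK.pairing.snd_pair] at hW1
  refine ⟨W, X.isFn_le hW hG (h.mono fun x hx => ?_), h.mono fun x hx => ?_⟩
  · obtain ⟨y, hy, hy'⟩ := hx
    obtain ⟨-, h2⟩ := hW1 x ⟨y, hy'⟩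
    exact X.exB_le_trans (X.exB_le_of_not_lt fun hlt => h2 y hlt hy') hy
  · obtain ⟨y, hy, hy'⟩ := hx
    exact hW1 x ⟨y, hy'⟩

/-! ### The end extension -/

theorem endExt : EndExt X.A X.B X.emb := by
  refine ⟨?_, rfl, rfl, ?_, ?_, ?_, ?_, ?_, ?_, fun _ => rfl, ?_⟩
  · intro a b hab
    exact (X.exB_const_iff _).1 ((X.el_eq (X.isFn_const a) (X.isFn_const b)).1 hab)
  · intro x y
    exact (X.add_el (X.isFn_const x) (X.isFn_const y)).symm
  · intro x y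
    exact (X.mul_el (X.isFn_const x) (X.isFn_const y)).symm
  · intro x y
    exact (X.pair_el (X.isFn_const x) (X.isFn_const y)).symm
  · intro x
    exact (X.fst_el (X.isFn_const x)).symm
  · intro x
    exact (X.snd_el (X.isFn_const x)).symm
  · intro x y
    exact ((X.lt_el (X.isFn_const x) (X.isFn_const y)).trans (X.exB_const_iff _)).symm
  · intro x y hy
    obtain ⟨F, hF, rfl⟩ := X.exB_ex y
    have h1 := (X.lt_el hF (X.isFn_const x)).1 hy
    obtain ⟨⟨p, f, hf, P, hP⟩, -⟩ := id hF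
    obtain ⟨a, ha⟩ := Ae.const X.isK hf hP h1
    exact ⟨a, (X.el_eq hF (X.isFn_const a)).2 ha⟩

theorem B_pairing : X.B.Pairing := by
  refine ⟨?_, ?_, ?_⟩
  · intro a b
    obtain ⟨F, hF, rfl⟩ := X.exB_ex a
    obtain ⟨G, hG, rfl⟩ := X.exB_ex b
    rw [X.pair_el hF hG, X.fst_el (X.isFn_pair hF hG)]
    simp only [X.isK.pairing.fst_pair]
  · intro a b
    obtain ⟨F, hF, rfl⟩ := X.exB_ex a
    obtain ⟨G, hG, rfl⟩ := X.exB_ex b
    rw [X.pair_el hF hG, X.snd_el (X.isFn_pair hF hG)]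
    simp only [X.isK.pairing.snd_pair]
  · intro a
    obtain ⟨F, hF, rfl⟩ := X.exB_ex a
    rw [X.fst_el hF, X.snd_el hF, X.pair_el (X.isFn_fst hF) (X.isFn_snd hF)]
    simp only [X.isK.pairing.eta]

theorem B_coh (c : J) (hc : c ≤ X.l) (x : α) : X.B.S c (X.emb x) ↔ X.A.S c x :=
  (X.los (X.isFn_const x) hc).trans (X.exB_const_iff _)

/-! ### Base relations and base functions -/

theorem exB_base {F : α → α} (hF : X.IsFn F) {k : ℕ} (hk : k < 7) :
    X.B.base k (X.el F) ↔ Ae X.A X.I (fun x => X.A.base k (F x)) := by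
  have h1 := X.isFn_fst hF
  have h2 := X.isFn_fst (X.isFn_snd hF)
  have h3 := X.isFn_fst (X.isFn_snd (X.isFn_snd hF))
  interval_cases k
  · show X.B.add (X.B.fst (X.el F)) (X.B.fst (X.B.snd (X.el F))) =
      X.B.fst (X.B.snd (X.B.snd (X.el F))) ↔ _
    rw [X.snd_el hF, X.snd_el (X.isFn_snd hF), X.fst_el hF, X.fst_el (X.isFn_snd hF),
      X.fst_el (X.isFn_snd (X.isFn_snd hF)), X.add_el h1 h2, X.el_eq (X.isFn_add h1 h2) h3]
    rfl
  · show X.B.mul (X.B.fst (X.el F)) (X.B.fst (X.B.snd (X.el F))) =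
      X.B.fst (X.B.snd (X.B.snd (X.el F))) ↔ _
    rw [X.snd_el hF, X.snd_el (X.isFn_snd hF), X.fst_el hF, X.fst_el (X.isFn_snd hF),
      X.fst_el (X.isFn_snd (X.isFn_snd hF)), X.mul_el h1 h2, X.el_eq (X.isFn_mul h1 h2) h3]
    rfl
  · show X.B.lt (X.B.fst (X.el F)) (X.B.fst (X.B.snd (X.el F))) ↔ _
    rw [X.snd_el hF, X.fst_el hF, X.fst_el (X.isFn_snd hF), X.lt_el h1 h2]
    rfl
  · show X.B.pair (X.B.fst (X.el F)) (X.B.fst (X.B.snd (X.el F))) =
      X.B.fst (X.B.snd (X.B.snd (X.el F))) ↔ _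
    rw [X.snd_el hF, X.snd_el (X.isFn_snd hF), X.fst_el hF, X.fst_el (X.isFn_snd hF),
      X.fst_el (X.isFn_snd (X.isFn_snd hF)), X.pair_el h1 h2, X.el_eq (X.isFn_pair h1 h2) h3]
    rfl
  · show X.B.fst (X.el F) = X.B.fst (X.B.snd (X.el F)) ↔ _
    rw [X.snd_el hF, X.fst_el hF, X.fst_el (X.isFn_snd hF), X.el_eq h1 h2]
    rfl
  · show X.B.fst (X.el F) = X.el (fun _ => X.A.zero) ↔ _
    rw [X.fst_el hF, X.el_eq h1 (X.isFn_const _)]
    rfl
  · show X.B.fst (X.el F) = X.el (fun _ => X.A.one) ↔ _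
    rw [X.fst_el hF, X.el_eq h1 (X.isFn_const _)]
    rfl

theorem exB_fn {F : α → α} (hF : X.IsFn F) {k : ℕ} (hk : k < 7) :
    X.IsFn (fun x => X.A.fn k (F x)) ∧ X.B.fn k (X.el F) = X.el (fun x => X.A.fn k (F x)) := by
  have f1 := X.isFn_fst hF
  have s1 := X.isFn_snd hF
  have f2 := X.isFn_fst s1
  have s2 := X.isFn_snd s1
  interval_cases k
  · exact ⟨f1, X.fst_el hF⟩
  · exact ⟨s1, X.snd_el hF⟩
  · exact ⟨X.isFn_pair hF hF, X.pair_el hF hF⟩
  · refine ⟨X.isFn_pair (X.isFn_pair f2 f1) s2, ?_⟩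
    show X.B.pair (X.B.pair (X.B.fst (X.B.snd (X.el F))) (X.B.fst (X.el F)))
      (X.B.snd (X.B.snd (X.el F))) = _
    rw [X.snd_el hF, X.snd_el s1, X.fst_el hF, X.fst_el s1, X.pair_el f2 f1,
      X.pair_el (X.isFn_pair f2 f1) s2]
    rfl
  · refine ⟨X.isFn_pair f2 hF, ?_⟩
    show X.B.pair (X.B.fst (X.B.snd (X.el F))) (X.el F) = _
    rw [X.snd_el hF, X.fst_el s1, X.pair_el f2 hF]
    rfl
  · have hs := X.isFn_snd f2
    have hf := X.isFn_fst f2
    refine ⟨X.isFn_pair f1 (X.isFn_pair hs (X.isFn_pair hf s2)), ?_⟩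
    show X.B.pair (X.B.fst (X.el F)) (X.B.pair (X.B.snd (X.B.fst (X.B.snd (X.el F))))
      (X.B.pair (X.B.fst (X.B.fst (X.B.snd (X.el F)))) (X.B.snd (X.B.snd (X.el F))))) = _
    rw [X.snd_el hF, X.snd_el s1, X.fst_el hF, X.fst_el s1, X.snd_el f2, X.fst_el f2,
      X.pair_el hf s2, X.pair_el hs (X.isFn_pair hf s2),
      X.pair_el f1 (X.isFn_pair hs (X.isFn_pair hf s2))]
    rfl
  · refine ⟨X.isFn_pair f1 s2, ?_⟩
    show X.B.pair (X.B.fst (X.el F)) (X.B.snd (X.B.snd (X.el F))) = _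
    rw [X.snd_el hF, X.snd_el s1, X.fst_el hF, X.pair_el f1 s2]
    rfl

/-! ### Tarski's clauses -/

theorem B_tarski : X.B.Tarski X.K.s := by
  refine ⟨?_, ?_, ?_, ?_, ?_, ?_⟩
  · intro k hk hc v
    obtain ⟨F, hF, rfl⟩ := X.exB_ex v
    rw [X.S_el hF, X.exB_base hF hk]
    apply X.exB_congr
    refine (X.exB_le_top hF).mono fun x hx => ?_
    have hd := X.exB_j_le hc
    rw [X.exB_j_cb] at hd ⊢
    obtain ⟨t0, t1, t2, t3, t4, t5, t6, -⟩ := X.tarT x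
    interval_cases k
    · exact t0 _ hx hd
    · exact t1 _ hx hd
    · exact t2 _ hx hd
    · exact t3 _ hx hd
    · exact t4 _ hx hd
    · exact t5 _ hx hd
    · exact t6 _ hx hd
  · intro c hc v
    obtain ⟨F, hF, rfl⟩ := X.exB_ex v
    rw [X.S_el hF, X.S_el hF, ← X.exB_not_iff (X.tc_em hF.1 c)]
    apply X.exB_congr
    refine (X.exB_le_top hF).mono fun x hx => ?_
    have hd := X.exB_j_le hc
    rw [X.exB_j_cn] at hd ⊢
    obtain ⟨-, -, -, -, -, -, -, t7, -⟩ := X.tarT x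
    exact t7 _ _ hd hx
  · intro c c' hc v
    obtain ⟨F, hF, rfl⟩ := X.exB_ex v
    rw [X.S_el hF, X.S_el hF, X.S_el hF]
    have h0 : Ae X.A X.I (fun x => Tc X.A (X.tf x) (X.A.j (ca c c')) (F x) ↔
        (Tc X.A (X.tf x) (X.A.j c) (F x) ∧ Tc X.A (X.tf x) (X.A.j c') (F x))) := by
      refine (X.exB_le_top hF).mono fun x hx => ?_
      have hd := X.exB_j_le hc
      rw [X.exB_j_ca] at hd ⊢
      obtain ⟨-, -, -, -, -, -, -, -, t8, -⟩ := X.tarT x
      exact t8 _ _ _ hd hx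
    rw [X.exB_congr h0]
    exact ⟨fun h => ⟨h.mono fun _ hx => hx.1, h.mono fun _ hx => hx.2⟩,
      fun h => Ae.and X.isK h.1 h.2⟩
  · intro c hc v
    obtain ⟨F, hF, rfl⟩ := X.exB_ex v
    rw [X.S_el hF]
    have hd := X.exB_j_le hc
    rw [X.exB_j_ce] at hd ⊢
    constructor
    · intro h
      obtain ⟨hF1, i, hi⟩ := id hF
      have hth : X.IsFn (X.th (i + 1)) :=
        ⟨X.th_mem (i + 1), i + 1, Ae.all X.isK fun _ => Or.inr rfl⟩
      obtain ⟨W, hW, hW'⟩ := X.exB_choice hF1 c hth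
        ((Ae.and X.isK h (Ae.and X.isK hi (X.ae_th_nxt i))).mono fun x hx => by
          obtain ⟨h1, h2, -, -, -, h3⟩ := hx
          exact h3 _ _ hd h2 h1)
      refine ⟨X.el W, ?_⟩
      rw [X.pair_el hW hF, X.S_el (X.isFn_pair hW hF)]
      exact hW'.mono fun x hx => hx.1
    · rintro ⟨z, hz⟩
      obtain ⟨G, hG, rfl⟩ := X.exB_ex z
      rw [X.pair_el hG hF, X.S_el (X.isFn_pair hG hF)] at hz
      refine (Ae.and X.isK hz (X.exB_le_top (X.isFn_pair hG hF))).mono fun x hx => ?_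
      obtain ⟨-, -, -, -, -, -, -, -, -, t9, -⟩ := X.tarT x
      exact t9 _ _ _ hd hx.2 hx.1
  · intro k hk c hc v
    obtain ⟨F, hF, rfl⟩ := X.exB_ex v
    obtain ⟨hf, he⟩ := X.exB_fn hF hk
    rw [he, X.S_el hF, X.S_el hf]
    apply X.exB_congr
    refine (Ae.and X.isK (X.exB_le_top hF) (X.exB_le_top hf)).mono fun x hx => ?_
    have hd := X.exB_j_le hc
    rw [X.exB_j_cf] at hd ⊢
    obtain ⟨-, -, -, -, -, -, -, -, -, -, t0, t1, t2, t3, t4, t5, t6, -⟩ := X.tarT x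
    interval_cases k
    · exact t0 _ _ hd hx.1 hx.2
    · exact t1 _ _ hd hx.1 hx.2
    · exact t2 _ _ hd hx.1 hx.2
    · exact t3 _ _ hd hx.1 hx.2
    · exact t4 _ _ hd hx.1 hx.2
    · exact t5 _ _ hd hx.1 hx.2
    · exact t6 _ _ hd hx.1 hx.2
  · intro e hc v
    obtain ⟨F, hF, rfl⟩ := X.exB_ex v
    have h0 : Ae X.A X.I (fun x => Tc X.A (X.tf x) (X.A.j (c5 e)) (F x) ↔
        (X.A.le (X.A.fst (F x)) (X.A.j e) ∧
          Tc X.A (X.tf x) (X.A.fst (F x)) (X.A.snd (F x)))) := by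
      refine (X.exB_le_top hF).mono fun x hx => ?_
      have hd := X.exB_j_le hc
      rw [X.exB_j_c5] at hd ⊢
      obtain ⟨-, -, -, -, -, -, -, -, -, -, -, -, -, -, -, -, -, t17⟩ := X.tarT x
      exact t17 _ _ hd hx
    rw [X.S_el hF, X.exB_congr h0, X.fst_el hF, X.snd_el hF]
    constructor
    · intro h
      obtain ⟨⟨p, f, hf, P, hP⟩, -⟩ := id (X.isFn_fst hF)
      obtain ⟨a, ha⟩ := Ae.const X.isK hf hP (b := X.A.add (X.A.j e) X.A.one)
        (h.mono fun x hx => (X.isK.lt_succ _ _).2 hx.1)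
      obtain ⟨x, hx1, hx2⟩ := Ae.exists X.isK (Ae.and X.isK h ha)
      have hx2' : X.A.fst (F x) = a := hx2
      have hae : X.A.le a (X.A.j e) := by rw [← hx2']; exact hx1.1
      obtain ⟨c, hce, rfl⟩ : ∃ c, c ≤ e ∧ a = X.A.j c := by
        rcases hae with hlt | heq
        · obtain ⟨c, rfl⟩ := X.isK.initial _ _ hlt
          exact ⟨c, ((X.isK.j_lt _ _).1 hlt).le, rfl⟩
        · exact ⟨e, le_rfl, heq⟩
      refine ⟨c, hce, (X.el_eq (X.isFn_fst hF) (X.isFn_const _)).2 ha, ?_⟩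
      rw [X.S_el (X.isFn_snd hF)]
      refine (Ae.and X.isK h ha).mono fun x hx => ?_
      obtain ⟨hx1, hx2⟩ := hx
      have hx2' : X.A.fst (F x) = X.A.j c := hx2
      rw [← hx2']; exact hx1.2
    · rintro ⟨c, hce, h1, h2⟩
      have h1' := (X.el_eq (X.isFn_fst hF) (X.isFn_const (X.A.j c))).1 h1
      rw [X.S_el (X.isFn_snd hF)] at h2
      refine (Ae.and X.isK h1' h2).mono fun x hx => ?_
      obtain ⟨hx1, hx2⟩ := hx
      have hx1' : X.A.fst (F x) = X.A.j c := hx1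
      rw [hx1']
      refine ⟨?_, hx2⟩
      rcases hce.lt_or_eq with hlt | rfl
      · exact Or.inl ((X.isK.j_lt _ _).2 hlt)
      · exact Or.inr rfl

/-! ### Standard codes -/

theorem exB_lt_nm {n : ℕ} {a : α} (h : X.A.lt a (X.A.nm n)) : ∃ k, a = X.A.nm k := by
  induction n with
  | zero =>
    exact absurd h (X.exB_not_lt_of_le (X.isK.zero_le a))
  | succ n ih =>
    rcases (X.isK.lt_succ a (X.A.nm n)).1 h with h | h
    · exact ih h
    · exact ⟨n, h⟩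

theorem exB_num_le (n : ℕ) : num n ≤ X.l := by
  by_contra hlt
  rw [not_le] at hlt
  have h1 : X.A.lt (X.A.j X.l) (X.A.nm n) := by
    rw [← X.isK.j_num n]; exact (X.isK.j_lt _ _).2 hlt
  obtain ⟨k, hk⟩ := X.exB_lt_nm h1
  rw [← X.isK.j_num k] at hk
  exact X.nonst k (X.isK.j_inj hk)

theorem B_isK : IsK X.B X.K := by
  refine ⟨X.B_pairing, ?_, ?_, X.B_tarski, ?_, ?_, ?_⟩
  · intro a b
    show X.emb (X.A.j (pr a b)) = X.B.pair (X.emb (X.A.j a)) (X.emb (X.A.j b))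
    rw [X.isK.j_pair]
    exact X.endExt.pair _ _
  · intro v b hv
    obtain ⟨x', rfl⟩ := X.endExt.init (X.A.j b) v hv
    have h1 : X.A.lt x' (X.A.j b) := (X.endExt.lt _ _).2 hv
    obtain ⟨a, rfl⟩ := X.isK.initial _ _ h1
    exact ⟨a, rfl⟩
  · intro c hc p hv
    obtain ⟨v, hv⟩ := hv
    obtain ⟨P, hP, rfl⟩ := X.exB_ex p
    obtain ⟨V, hV, rfl⟩ := X.exB_ex v
    rw [X.pair_el hV hP, X.S_el (X.isFn_pair hV hP)] at hv
    obtain ⟨W, hW, hW'⟩ := X.exB_choice hP.1 c hV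
      (hv.mono fun x hx => ⟨V x, Or.inr rfl, hx⟩)
    refine ⟨X.el W, ?_, ?_⟩
    · rw [X.pair_el hW hP, X.S_el (X.isFn_pair hW hP)]
      exact hW'.mono fun x hx => hx.1
    · intro y hy hS
      obtain ⟨Y, hY, rfl⟩ := X.exB_ex y
      rw [X.lt_el hY hW] at hy
      rw [X.pair_el hY hP, X.S_el (X.isFn_pair hY hP)] at hS
      exact Ae.false X.isK ((Ae.and X.isK hW' (Ae.and X.isK hy hS)).mono fun x hx =>
        hx.1.2 _ hx.2.1 hx.2.2)
  · intro n x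
    exact (X.B_coh (num n) (X.exB_num_le n) (X.A.j x)).trans (X.isK.agree n x)
  · intro n hn v hv
    obtain ⟨F, hF, rfl⟩ := X.exB_ex v
    rw [X.los hF (X.exB_num_le n)] at hv
    exact Ae.false X.isK (hv.mono fun x hx => X.isK.void n hn _ hx)

theorem B_card : #X.Bt ≤ max #α ℵ₀ := by
  classical
  have hch : ∀ v : X.Bt, ∃ t : J × α × J, DF X.A (X.rep v) t.1 (X.A.pair t.2.1 (X.A.j t.2.2)) := by
    intro v
    obtain ⟨⟨p, f, hf, P, hP⟩, -⟩ := X.rep_isFn v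
    exact ⟨(f, p, P), hP⟩
  choose t ht using hch
  have hinj : Function.Injective t := by
    intro v w hvw
    have hrep : X.rep v = X.rep w := by
      funext x
      have h1 := (ht v x (X.rep v x)).2 rfl
      rw [hvw] at h1
      exact (ht w x (X.rep v x)).1 h1
    rw [← X.el_rep v, ← X.el_rep w, hrep]
  have h1 : #X.Bt ≤ #(J × α × J) := Cardinal.mk_le_of_injective hinj
  have hJ : #J ≤ ℵ₀ := by
    have := J.countable
    exact Cardinal.mk_le_aleph0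
  refine h1.trans ?_
  simp only [Cardinal.mk_prod, Cardinal.lift_id]
  have h2 : #α ≤ max #α ℵ₀ := le_max_left _ _
  have h3 : ℵ₀ ≤ max #α ℵ₀ := le_max_right _ _
  calc #J * (#α * #J) ≤ max #α ℵ₀ * (max #α ℵ₀ * max #α ℵ₀) :=
        mul_le_mul' (hJ.trans h3) (mul_le_mul' h2 (hJ.trans h3))
    _ = max #α ℵ₀ := by
        rw [Cardinal.mul_eq_self h3, Cardinal.mul_eq_self h3]

end Ctx

end Pool.Agent.Helper4.KSq
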