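import Pool.Agent.Helper4.KSq.ExtB

set_option autoImplicit false

/-!
# The ultrapower, part C: the properties of the extension
-/

namespace Pool.Agent.Helper4.KSq

open Filter Cod Cardinal

section ExtCaux

variable {α : Type} {A : Str J α} {I : Cut}

theorem extC_le_trans (hA : IsK A I) {a b c : α} (h : A.le a b) (h' : A.le b c) : A.le a c := by
  rcases h with h | rfl
  · rcases h' with h' | rfl
    · exact Or.inl (hA.trans h h')
    · exact Or.inl h
  · exact h'

theorem extC_lt_of_lt_of_le (hA : IsK A I) {a b c : α} (h : A.lt a b) (h' : A.le b c) :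
    A.lt a c := by
  rcases h' with h' | rfl
  · exact hA.trans h h'
  · exact h

theorem extC_lt_of_le_of_lt (hA : IsK A I) {a b c : α} (h : A.le a b) (h' : A.lt b c) :
    A.lt a c := by
  rcases h with h | rfl
  · exact hA.trans h h'
  · exact h'

theorem extC_le_of_not_lt (hA : IsK A I) {a b : α} (h : ¬ A.lt b a) : A.le a b := by
  rcases hA.tri a b with h1 | h1 | h1
  · exact Or.inl h1
  · exact Or.inr h1
  · exact absurd h1 h

theorem extC_least_unique (hA : IsK A I) {P : α → Prop} {a b : α} (ha : P a)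
    (ha' : ∀ x, A.lt x a → ¬ P x) (hb : P b) (hb' : ∀ x, A.lt x b → ¬ P x) : a = b := by
  rcases hA.tri a b with h | h | h
  · exact absurd ha (hb' a h)
  · exact h
  · exact absurd hb (ha' b h)

theorem extC_num_pr (a b : ℕ) : (pr (num a) (num b) : J) = num (Nat.pair a b) := by
  rw [J.num_def, J.num_def, J.num_def, J.pr_mk]

/-- standard codes in `J` -/
def extCStd (c : J) : Prop := ∃ n, c = num n

theorem extC_closed : CClosed (C := J) {c | extCStd c} where
  num n := ⟨n, rfl⟩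
  pr := by
    rintro a b ⟨m, rfl⟩ ⟨n, rfl⟩
    exact ⟨_, extC_num_pr m n⟩

theorem extC_cd_std {R : Rl} (h : UD R) : extCStd (h.cd (fun _ => (num 0 : J))) :=
  extC_closed.code1 (fun _ => ⟨0, rfl⟩) _

theorem extC_num_le {l : J} (hl : NonSt l) (n : ℕ) : num n ≤ l := by
  by_contra h
  rw [not_le] at h
  induction n with
  | zero =>
    obtain ⟨F, hF, rfl⟩ := J.ind l
    rw [J.num_def, J.mk_lt] at h
    obtain ⟨n, hn⟩ := h.exists
    exact Nat.not_lt_zero _ hn
  | succ n ih =>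
    obtain ⟨F, hF, rfl⟩ := J.ind l
    have h1 : J.mk F hF ≤ num n := by
      rw [J.num_def, J.mk_le]
      rw [J.num_def, J.mk_lt] at h
      filter_upwards [h] with k hk
      exact Nat.lt_succ_iff.1 hk
    rcases h1.lt_or_eq with h2 | h2
    · exact ih h2
    · exact hl n h2

/-- the relation `E (fst x) (snd x)` -/
def extCE (C α : Type) (A : Str C α) (_ : ℕ → C) (x : α) : Prop := A.E (A.fst x) (A.snd x)

theorem extC_udE : UD (fun C α A ρ e => extCE C α A ρ (e 0)) :=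
  UD.E (TD.fst (TD.var 0)) (TD.snd (TD.var 0))

/-- a standard code of `E` -/
noncomputable def extCEc : J := extC_udE.cd (fun _ => (num 0 : J))

theorem extC_E_spec (hA : IsK A I) (u y : α) : A.S extCEc (A.pair u y) ↔ A.E u y := by
  rw [extCEc, UD.cd_spec (R := extCE) extC_udE hA (fun _ => I.num 0)]
  simp only [extCE, hA.pairing.fst_pair, hA.pairing.snd_pair]

theorem extC_sat (hA : IsK A I) {c e : J} (he : e ∈ I.s) (hc : c ≤ e) (y : α) :
    A.S (c5 e) (A.pair (A.j c) y) ↔ A.S c y := by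
  rw [hA.tarski.sat e (c5_mem I he), hA.pairing.fst_pair, hA.pairing.snd_pair]
  constructor
  · rintro ⟨c', _, h1, h2⟩
    rwa [hA.j_inj h1]
  · intro h
    exact ⟨c, hc, rfl, h⟩

theorem extC_DFc_mono {I' : Cut} (hI : I' ≤ I) {p : α} {F : α → α} (hF : F ∈ DFc A I' p) :
    F ∈ DFc A I p := by
  obtain ⟨f, hf, P, h⟩ := hF
  exact ⟨f, hI hf, P, h⟩

end ExtCaux

namespace Ctx

variable {α : Type} (X : Ctx α)

/-- the canonical code at `x` of the satisfaction relation for the codes `≤ e` -/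
noncomputable def canF (e : J) (x : α) : α :=
  @Classical.epsilon α ⟨X.A.zero⟩ (fun u =>
    (∀ c y, X.A.le c (X.A.j e) → X.A.lt y x → (X.A.E u (X.A.pair c y) ↔
      X.A.S (c5 e) (X.A.pair c y))) ∧
    ∀ u', X.A.lt u' u → ¬ ∀ c y, X.A.le c (X.A.j e) → X.A.lt y x →
      (X.A.E u' (X.A.pair c y) ↔ X.A.S (c5 e) (X.A.pair c y)))

/-- the elements generated with codes in `I'` and the parameter `p` -/
def GnS (I' : Cut) (p : α) : Set X.Bt := {v | ∃ F ∈ DFc X.A I' p, X.IsFn F ∧ v = X.el F}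

/-- the relation defining `canF` -/
def extCcan (C α : Type) (A : Str C α) (ρ : ℕ → C) (x u z : α) : Prop :=
  (∀ c y, A.le c z → A.lt y x → (A.E u (A.pair c y) ↔ A.S (ρ 0) (A.pair c y))) ∧
    ∀ u', A.lt u' u → ¬ ∀ c y, A.le c z → A.lt y x →
      (A.E u' (A.pair c y) ↔ A.S (ρ 0) (A.pair c y))

theorem extC_ud_can : UD (fun C α A ρ e => extCcan C α A ρ (e 0) (e 1) (e 2)) := by
  unfold extCcan
  repeat' first
    | exact TD.var _ | exact TD.zero | exact TD.one | exact TD.nm _ | assumption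
    | apply TD.fst | apply TD.snd | apply TD.pair | apply TD.add | apply TD.mul
    | apply UD.S | apply UD.E | apply UD.lt | apply UD.le | apply UD.eq
    | apply UD.not | apply UD.and | apply UD.or | apply UD.iff | apply UD.all | apply UD.ex
    | apply UD.imp

/-- the property without minimality: `e 0 = u`, `e 1 = x`, `e 2 = z` -/
theorem extC_ud_can1 : UD (fun C α A ρ e => ∀ c y, A.le c (e 2) → A.lt y (e 1) →
    (A.E (e 0) (A.pair c y) ↔ A.S (ρ 0) (A.pair c y))) := by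
  repeat' first
    | exact TD.var _ | exact TD.zero | exact TD.one | exact TD.nm _ | assumption
    | apply TD.fst | apply TD.snd | apply TD.pair | apply TD.add | apply TD.mul
    | apply UD.S | apply UD.E | apply UD.lt | apply UD.le | apply UD.eq
    | apply UD.not | apply UD.and | apply UD.or | apply UD.iff | apply UD.all | apply UD.ex
    | apply UD.imp

theorem canF_spec {e : J} (he : e ∈ X.I.s) (x : α) :
    extCcan J α X.A (fun _ => c5 e) x (X.canF e x) (X.A.j e) := by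
  have hA := X.isK
  have hex : ∃ u, ∀ c y, X.A.le c (X.A.j e) → X.A.lt y x →
      (X.A.E u (X.A.pair c y) ↔ X.A.S (c5 e) (X.A.pair c y)) := by
    obtain ⟨u, hu⟩ := hA.compr (R := fun C α A ρ y _ => A.S (ρ 0) y)
      (UD.S 0 (TD.var 0)) (ρ := fun _ => c5 e) (fun _ => c5_mem _ he) (fun _ => x)
      (X.A.add (X.A.pair (X.A.j e) x) X.A.one)
    refine ⟨u, fun c y hc hy => hu _ ?_⟩
    rw [hA.lt_succ]
    exact hA.pair_mono hc (Or.inl hy)
  have hl := hA.least (R := fun C α A ρ u e' => ∀ c y, A.le c (e' 1) → A.lt y (e' 0) →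
    (A.E u (A.pair c y) ↔ A.S (ρ 0) (A.pair c y))) extC_ud_can1 (ρ := fun _ => c5 e)
    (fun _ => c5_mem _ he) (fun n => if n = 0 then x else X.A.j e) (by simpa using hex)
  simp only [one_ne_zero, if_true, if_false] at hl
  exact @Classical.epsilon_spec α (fun u =>
    (∀ c y, X.A.le c (X.A.j e) → X.A.lt y x → (X.A.E u (X.A.pair c y) ↔
      X.A.S (c5 e) (X.A.pair c y))) ∧
    ∀ u', X.A.lt u' u → ¬ ∀ c y, X.A.le c (X.A.j e) → X.A.lt y x →
      (X.A.E u' (X.A.pair c y) ↔ X.A.S (c5 e) (X.A.pair c y))) hl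

theorem canF_mem {I' : Cut} (hI : I' ≤ X.I) {e : J} (he : e ∈ I'.s) (p : α) :
    X.canF e ∈ DFc X.A I' p := by
  refine DFc.of_rel X.isK hI (R := extCcan) extC_ud_can (ρ := fun _ => c5 e)
    (fun _ => c5_mem _ he) (DFc.constJ X.isK hI p e) ?_
  intro x y
  constructor
  · rintro rfl
    exact X.canF_spec (hI he) x
  · intro h
    have h' := X.canF_spec (hI he) x
    exact extC_least_unique X.isK h.1 h.2 h'.1 h'.2

theorem canF_isFn {e : J} (he : e ∈ X.I.s) : X.IsFn (X.canF e) := by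
  have hA := X.isK
  refine ⟨⟨X.A.zero, X.canF_mem (fun _ h => h) he _⟩, 2, ?_⟩
  have h1 := Ae.and hA (Ae.and hA (X.ae_th_nxt 0) (X.ae_th_nxt 1)) (Ae.tail (I := X.I) hA (X.A.j e))
  refine h1.mono ?_
  rintro x ⟨⟨h0, h1⟩, hx⟩
  have hx0 := X.le_th_zero x
  obtain ⟨u', hu', hu''⟩ := h1.2.2.1 (X.canF e x)
  have hs := X.canF_spec he x
  have hpair : ∀ c y, X.A.le c (X.A.j e) → X.A.lt y x → X.A.le (X.A.pair c y) (X.th (0 + 1) x) := by
    intro c y hc hy
    refine (h0.2.1 c y ?_ ?_).2.2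
    · exact extC_le_trans hA (extC_le_trans hA hc (Or.inl hx)) hx0
    · exact extC_le_trans hA (Or.inl hy) hx0
  have hP : ∀ c y, X.A.le c (X.A.j e) → X.A.lt y x → (X.A.E u' (X.A.pair c y) ↔
      X.A.S (c5 e) (X.A.pair c y)) := by
    intro c y hc hy
    rw [← hu'' _ (hpair c y hc hy)]
    exact hs.1 c y hc hy
  have hle : X.A.le (X.canF e x) u' :=
    extC_le_of_not_lt hA fun h => hs.2 u' h hP
  exact extC_le_trans hA hle hu'

theorem extC_LG_unique {x w : α} (h : LG X.A (c5 X.l) (X.A.j X.l) X.q (X.A.j X.d) x w) :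
    w = X.wf x := by
  have h' := X.wf_spec x
  exact extC_least_unique X.isK h.1 h.2 h'.1 h'.2

theorem B_trace {g : J} (hg : g ∈ X.K.s) (z : α) : X.B.S g (X.emb z) ↔
    X.A.S (thC X.l) (X.A.pair z (X.A.pair (X.A.j g) (X.A.pair X.q
      (X.A.pair (X.A.j X.d) (X.A.j X.l))))) := by
  have hA := X.isK
  have hm : udTh.cd (fun _ => c5 X.l) ∈ X.I.s := UD.cd_mem _ X.I (fun _ => c5_mem X.I X.hl)
  unfold emb
  rw [X.S_el (X.isFn_const z), thC, ← ae_dec hA hm]
  have key : ∀ x, X.A.S (udTh.cd (fun _ => c5 X.l)) (X.A.pair x (X.A.pair z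
      (X.A.pair (X.A.j g) (X.A.pair X.q (X.A.pair (X.A.j X.d) (X.A.j X.l)))))) ↔
      Tc X.A (X.tf x) (X.A.j g) z := by
    intro x
    rw [UD.cd_spec (R := thP) udTh hA (fun _ => c5_mem X.I X.hl)]
    simp only [thP, hA.pairing.fst_pair, hA.pairing.snd_pair]
    constructor
    · rintro ⟨w, h1, h2⟩
      rw [X.extC_LG_unique h1] at h2
      exact h2
    · intro h
      exact ⟨X.wf x, X.wf_spec x, h⟩
  constructor
  · intro h
    exact h.mono fun x hx => (key x).2 hx
  · intro h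
    exact h.mono fun x hx => (key x).1 hx

theorem extC_ae_congr {P Q : α → Prop} (h : ∀ x, P x ↔ Q x) :
    Ae X.A X.I P ↔ Ae X.A X.I Q :=
  ⟨fun h' => h'.mono fun x hx => (h x).1 hx, fun h' => h'.mono fun x hx => (h x).2 hx⟩

theorem B_gn_trace {I' : Cut} (hI : I' ≤ X.I) {p : α} {v : X.Bt} (hv : v ∈ X.GnS I' p) {g : J}
    (hg : g ∈ I'.s) (hl : g ≤ X.l) : ∃ θ ∈ I'.s, ∃ P : J, ∀ y,
      X.B.S g (X.B.pair (X.emb y) v) ↔ X.A.S θ (X.A.pair y (X.A.pair p (X.A.j P))) := by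
  obtain ⟨F, hF, hFn, rfl⟩ := hv
  obtain ⟨θ, hθ, P, h⟩ := DFc.ae_code X.isK hI
    (R := fun C α A ρ x z y => A.S (ρ 0) (A.pair y z))
    (UD.S 0 (TD.pair (TD.var 2) (TD.var 1))) (ρ := fun _ => g) (fun _ => hg) hF
  refine ⟨θ, hθ, P, fun y => ?_⟩
  rw [h y]
  unfold emb
  rw [X.pair_el (X.isFn_const y) hFn, X.los (X.isFn_pair (X.isFn_const y) hFn) hl]

/-- least solution, with default value -/
def extCmin (C α : Type) (A : Str C α) (ρ : ℕ → C) (_ y z : α) : Prop :=
  (A.S (ρ 0) (A.pair y z) ∧ ∀ y', A.lt y' y → ¬ A.S (ρ 0) (A.pair y' z)) ∨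
    ((∀ y', ¬ A.S (ρ 0) (A.pair y' z)) ∧ y = A.zero)

theorem extC_ud_min : UD (fun C α A ρ e => extCmin C α A ρ (e 0) (e 1) (e 2)) := by
  unfold extCmin
  repeat' first
    | exact TD.var _ | exact TD.zero | exact TD.one | exact TD.nm _ | assumption
    | apply TD.fst | apply TD.snd | apply TD.pair | apply TD.add | apply TD.mul
    | apply UD.S | apply UD.E | apply UD.lt | apply UD.le | apply UD.eq
    | apply UD.not | apply UD.and | apply UD.or | apply UD.iff | apply UD.all | apply UD.ex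
    | apply UD.imp

theorem B_gn_def {I' : Cut} (hI : I' ≤ X.I) {p : α} {v : X.Bt} (hv : v ∈ X.GnS I' p) {g : J}
    (hg : g ∈ I'.s) (hl : g ≤ X.l) (w : X.Bt)
    (hw : ∀ w', X.B.S g (X.B.pair w' v) ↔ w' = w) : w ∈ X.GnS I' p := by
  have hA := X.isK
  obtain ⟨F, hF, hFn, rfl⟩ := hv
  have hex : ∀ x, ∃ y, extCmin J α X.A (fun _ => g) x y (F x) := by
    intro x
    by_cases h : ∃ y, X.A.S g (X.A.pair y (F x))
    · obtain ⟨y, h1, h2⟩ := hA.lnp g (hI hg) (F x) h
      exact ⟨y, Or.inl ⟨h1, h2⟩⟩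
    · exact ⟨X.A.zero, Or.inr ⟨fun y' hy' => h ⟨y', hy'⟩, rfl⟩⟩
  choose W hW using hex
  have hWmem : W ∈ DFc X.A I' p := by
    refine DFc.of_rel hA hI (R := extCmin) extC_ud_min (ρ := fun _ => g) (fun _ => hg) hF ?_
    intro x y
    constructor
    · rintro rfl
      exact hW x
    · intro h
      rcases h with ⟨h1, h2⟩ | ⟨h1, h2⟩
      · rcases hW x with ⟨h3, h4⟩ | ⟨h3, h4⟩
        · exact extC_least_unique hA (P := fun y => X.A.S g (X.A.pair y (F x))) h1 h2 h3 h4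
        · exact absurd h1 (h3 y)
      · rcases hW x with ⟨h3, h4⟩ | ⟨h3, h4⟩
        · exact absurd h3 (h1 _)
        · rw [h2, h4]
  have hW0 := X.rep_isFn w
  have hae : Ae X.A X.I (fun x => X.A.S g (X.A.pair (X.rep w x) (F x))) := by
    rw [← X.los (X.isFn_pair hW0 hFn) hl, ← X.pair_el hW0 hFn, X.el_rep]
    exact (hw w).2 rfl
  have hae2 : Ae X.A X.I (fun x => X.A.le (W x) (X.rep w x) ∧ X.A.S g (X.A.pair (W x) (F x))) := by
    refine hae.mono fun x hx => ?_
    rcases hW x with ⟨h3, h4⟩ | ⟨h3, h4⟩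
    · exact ⟨extC_le_of_not_lt hA fun h => h4 _ h hx, h3⟩
    · exact absurd hx (h3 _)
  have hWfn : X.IsFn W := X.isFn_le ⟨p, extC_DFc_mono hI hWmem⟩ hW0 (hae2.mono fun x hx => hx.1)
  refine ⟨W, hWmem, hWfn, ?_⟩
  symm
  rw [← hw, X.pair_el hWfn hFn, X.los (X.isFn_pair hWfn hFn) hl]
  exact hae2.mono fun x hx => hx.2

theorem extC_Ec_le : extCEc ≤ X.l := by
  obtain ⟨n, hn⟩ := extC_cd_std extC_udE
  unfold extCEc
  rw [hn]
  exact extC_num_le X.nonst n

theorem extC_E_el {F G : α → α} (hF : X.IsFn F) (hG : X.IsFn G) :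
    X.B.E (X.el F) (X.el G) ↔ Ae X.A X.I (fun x => X.A.E (F x) (G x)) := by
  rw [← extC_E_spec X.B_isK, X.pair_el hF hG, X.los (X.isFn_pair hF hG) X.extC_Ec_le]
  exact X.extC_ae_congr fun x => extC_E_spec X.isK _ _

theorem B_cons (v : X.Bt) : ∃ g ∈ X.I.s, ∃ p, ∀ a, X.B.E v (X.emb a) ↔ X.A.S g (X.A.pair a p) := by
  obtain ⟨⟨p, hF⟩, hb⟩ := X.rep_isFn v
  obtain ⟨θ, hθ, P, h⟩ := DFc.ae_code X.isK (fun _ h => h)
    (R := fun C α A ρ x z y => A.E z y)
    (UD.E (TD.var 1) (TD.var 2)) (ρ := fun _ => num 0) (fun _ => X.I.num 0) hF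
  refine ⟨θ, hθ, X.A.pair p (X.A.j P), fun a => ?_⟩
  rw [h a]
  conv_lhs => rw [← X.el_rep v]
  exact X.extC_E_el (X.rep_isFn v) (X.isFn_const a)

theorem extC_ae_le_top {F : α → α} (hF : X.IsFn F) :
    Ae X.A X.I (fun x => X.A.le (F x) (X.top x)) := by
  obtain ⟨_, i, hi⟩ := hF
  exact (Ae.and X.isK hi (X.ae_th_le_top i)).mono fun x hx => extC_le_trans X.isK hx.1 hx.2

theorem extC_con {l1 u1 b1 : α} (hcon : ∀ x, Con X.A l1 u1 b1 (X.tf x) (X.top x)) (c : J)
    (y : X.Bt) (hc : X.A.le (X.A.j c) l1) (hy : X.B.lt y (X.emb b1)) :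
    X.B.S c y ↔ X.B.E (X.emb u1) (X.B.pair (X.B.j c) y) := by
  have hA := X.isK
  have hYn := X.rep_isFn y
  rw [← X.el_rep y] at hy ⊢
  unfold emb at hy ⊢
  rw [X.lt_el hYn (X.isFn_const b1)] at hy
  have hj : X.B.j c = X.el (fun _ => X.A.j c) := rfl
  rw [X.S_el hYn, hj, X.pair_el (X.isFn_const _) hYn,
    X.extC_E_el (X.isFn_const u1) (X.isFn_pair (X.isFn_const _) hYn)]
  have hboth := Ae.and hA hy (X.extC_ae_le_top hYn)
  constructor
  · intro h
    refine (Ae.and hA h hboth).mono fun x hx => ?_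
    exact (hcon x _ _ hc hx.2.1 hx.2.2).1 hx.1
  · intro h
    refine (Ae.and hA h hboth).mono fun x hx => ?_
    exact (hcon x _ _ hc hx.2.1 hx.2.2).2 hx.1

theorem extSpec : ExtSpec X.A X.I X.K X.l X.q X.d X.B X.emb (X.el (fun x => x))
    (fun e => X.el (X.canF e)) X.GnS := by
  have hA := X.isK
  refine
    { emb := X.endExt
      isK := X.B_isK
      coh := X.B_coh
      trace := fun g hg z => X.B_trace hg z
      con1 := fun c y hc hy => X.extC_con X.con1 c y hc hy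
      con2 := fun c y hc hy => X.extC_con X.con2 c y hc hy
      m_gt := ?_
      can_spec := ?_
      gn_p := ?_
      gn_j := ?_
      gn_m := ?_
      gn_can := ?_
      gn_pair := ?_
      gn_trace := fun I' p hI v hv g hg hl => X.B_gn_trace hI hv hg hl
      gn_def := fun I' p hI v hv g hg hl w hw => X.B_gn_def hI hv hg hl w hw
      cons := X.B_cons }
  · intro a
    unfold emb
    rw [X.lt_el (X.isFn_const a) X.isFn_id]
    exact Ae.tail hA a
  · intro e he c hc y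
    have hj : X.B.j c = X.el (fun _ => X.A.j c) := rfl
    unfold emb
    rw [hj, X.pair_el (X.isFn_const _) (X.isFn_const _),
      X.extC_E_el (X.canF_isFn he) (X.isFn_pair (X.isFn_const _) (X.isFn_const _))]
    have key : ∀ x, X.A.lt y x →
        (X.A.E (X.canF e x) (X.A.pair (X.A.j c) y) ↔ X.A.S c y) := by
      intro x hx
      have hs := (X.canF_spec he x).1 (X.A.j c) y ?_ hx
      · rw [hs]
        exact extC_sat hA he hc y
      · rcases hc.lt_or_eq with h | h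
        · exact Or.inl ((hA.j_lt _ _).2 h)
        · exact Or.inr (by rw [h])
    constructor
    · intro h
      obtain ⟨x, h1, h2⟩ := Ae.exists hA (Ae.and hA h (Ae.tail hA y))
      exact (key x h2).1 h1
    · intro h
      exact (Ae.tail hA y).mono fun x hx => (key x hx).2 h
  · intro I' p hI
    exact ⟨_, DFc.const hA hI p, X.isFn_const p, rfl⟩
  · intro I' p a hI
    exact ⟨_, DFc.constJ hA hI p a, X.isFn_const _, rfl⟩
  · intro I' p hI
    exact ⟨_, DFc.id hA hI p, X.isFn_id, rfl⟩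
  · intro I' p hI e he
    exact ⟨_, X.canF_mem hI he p, X.canF_isFn (hI he), rfl⟩
  · rintro I' p hI v ⟨F, hF, hFn, rfl⟩ w ⟨G, hG, hGn, rfl⟩
    exact ⟨_, DFc.pair hA hI hF hG, X.isFn_pair hFn hGn, X.pair_el hFn hGn⟩

end Ctx

end Pool.Agent.Helper4.KSq
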