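import Pool.Agent.Helper4.KSq.DFun2

set_option autoImplicit false

/-!
# End extensions: definitions
-/

namespace Pool.Agent.Helper4.KSq

open Filter Cod

/-- `f` embeds `A` into `B` as an initial segment (for the arithmetical operations and `j`) -/
structure EndExt {α β : Type} (A : Str J α) (B : Str J β) (f : α → β) : Prop where
  inj : Function.Injective f
  zero : f A.zero = B.zero
  one : f A.one = B.one
  add : ∀ x y, f (A.add x y) = B.add (f x) (f y)
  mul : ∀ x y, f (A.mul x y) = B.mul (f x) (f y)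
  pair : ∀ x y, f (A.pair x y) = B.pair (f x) (f y)
  fst : ∀ x, f (A.fst x) = B.fst (f x)
  snd : ∀ x, f (A.snd x) = B.snd (f x)
  lt : ∀ x y, A.lt x y ↔ B.lt (f x) (f y)
  j : ∀ c, f (A.j c) = B.j c
  init : ∀ x y, B.lt y (f x) → ∃ x', y = f x'

section codes

/-- approximations: the argument is `⟨l, ⟨q, d⟩⟩` -/
def appR (C α : Type) (A : Str C α) (ρ : ℕ → C) (x : α) : Prop :=
  App A (ρ 0) (A.fst x) (A.fst (A.snd x)) (A.snd (A.snd x))

theorem udApp : UD (fun C α A ρ e => appR C α A ρ (e 0)) :=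
  UD.App (TD.fst (TD.var 0)) (TD.fst (TD.snd (TD.var 0))) (TD.snd (TD.snd (TD.var 0))) 0

/-- the code of `App` -/
noncomputable def appC (l : J) : J := udApp.cd (fun _ => c5 l)

/-- the argument is `⟨x, ⟨z, ⟨g, ⟨q, ⟨d, l⟩⟩⟩⟩⟩` -/
def thP (C α : Type) (A : Str C α) (ρ : ℕ → C) (y : α) : Prop :=
  ∃ w, LG A (ρ 0) (A.snd (A.snd (A.snd (A.snd (A.snd y)))))
    (A.fst (A.snd (A.snd (A.snd y)))) (A.fst (A.snd (A.snd (A.snd (A.snd y))))) (A.fst y) w ∧
    Tc A (A.snd w) (A.fst (A.snd (A.snd y))) (A.fst (A.snd y))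

theorem udTh : UD (fun C α A ρ e => thP C α A ρ (e 0)) := by
  unfold thP Tc
  repeat' first
    | exact TD.var _ | assumption
    | apply TD.fst | apply TD.snd | apply TD.pair
    | apply UD.LG | apply UD.E | apply UD.and | apply UD.ex

/-- the code which computes the traces of the satisfaction relation of the extension: the argument
is `⟨z, ⟨g, ⟨q, ⟨d, l⟩⟩⟩⟩` -/
noncomputable def thC (l : J) : J := dl (udTh.cd (fun _ => c5 l))

theorem c5_mem (I : Cut) {l : J} (hl : l ∈ I.s) : c5 l ∈ I.s := I.pr (I.num _) hl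

theorem appC_mem (I : Cut) {l : J} (hl : l ∈ I.s) : appC l ∈ I.s :=
  UD.cd_mem _ I (fun _ => c5_mem I hl)

theorem thC_mem (I : Cut) {l : J} (hl : l ∈ I.s) : thC l ∈ I.s :=
  dl_mem I (UD.cd_mem _ I (fun _ => c5_mem I hl))

theorem appC_spec {α : Type} {A : Str J α} {I : Cut} (hA : IsK A I) {l : J} (hl : l ∈ I.s)
    (q d : α) :
    A.S (appC l) (A.pair (A.j l) (A.pair q d)) ↔ App A (c5 l) (A.j l) q d := by
  rw [appC, UD.cd_spec (R := appR) udApp hA (fun _ => c5_mem I hl)]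
  simp only [appR, hA.pairing.fst_pair, hA.pairing.snd_pair]

end codes

/-- the properties of the extension `B` of `A` (along `f`) for the level `l`, the constraints `q`
and the bound `d` of the codes; `A` has length `I` and `B` has length `K` -/
structure ExtSpec {α β : Type} (A : Str J α) (I K : Cut) (l : J) (q : α) (d : J) (B : Str J β)
    (f : α → β) (m : β) (can : J → β) (Gn : Cut → α → Set β) : Prop where
  emb : EndExt A B f
  isK : IsK B K
  coh : ∀ c ≤ l, ∀ x, B.S c (f x) ↔ A.S c x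
  trace : ∀ g ∈ K.s, ∀ z, B.S g (f z) ↔
    A.S (thC l) (A.pair z (A.pair (A.j g) (A.pair q (A.pair (A.j d) (A.j l)))))
  con1 : ∀ (c : J) (y : β), A.le (A.j c) (A.fst q) → B.lt y (f (A.fst (A.snd (A.snd q)))) →
    (B.S c y ↔ B.E (f (A.fst (A.snd q))) (B.pair (B.j c) y))
  con2 : ∀ (c : J) (y : β), A.le (A.j c) (A.fst (A.snd (A.snd (A.snd q)))) →
    B.lt y (f (A.snd (A.snd (A.snd (A.snd (A.snd q)))))) →
    (B.S c y ↔ B.E (f (A.fst (A.snd (A.snd (A.snd (A.snd q)))))) (B.pair (B.j c) y))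
  m_gt : ∀ a, B.lt (f a) m
  can_spec : ∀ e ∈ I.s, ∀ c ≤ e, ∀ y, B.E (can e) (B.pair (B.j c) (f y)) ↔ A.S c y
  gn_p : ∀ (I' : Cut) (p : α), I' ≤ I → f p ∈ Gn I' p
  gn_j : ∀ (I' : Cut) (p : α) (a : J), I' ≤ I → B.j a ∈ Gn I' p
  gn_m : ∀ (I' : Cut) (p : α), I' ≤ I → m ∈ Gn I' p
  gn_can : ∀ (I' : Cut) (p : α), I' ≤ I → ∀ e ∈ I'.s, can e ∈ Gn I' p
  gn_pair : ∀ (I' : Cut) (p : α), I' ≤ I → ∀ v ∈ Gn I' p, ∀ w ∈ Gn I' p, B.pair v w ∈ Gn I' p
  gn_trace : ∀ (I' : Cut) (p : α), I' ≤ I → ∀ v ∈ Gn I' p, ∀ g ∈ I'.s, g ≤ l →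
    ∃ θ ∈ I'.s, ∃ P : J, ∀ y, B.S g (B.pair (f y) v) ↔ A.S θ (A.pair y (A.pair p (A.j P)))
  gn_def : ∀ (I' : Cut) (p : α), I' ≤ I → ∀ v ∈ Gn I' p, ∀ g ∈ I'.s, g ≤ l →
    ∀ w, (∀ w', B.S g (B.pair w' v) ↔ w' = w) → w ∈ Gn I' p
  cons : ∀ v, ∃ g ∈ I.s, ∃ p, ∀ a, B.E v (f a) ↔ A.S g (A.pair a p)

/-- the data of an extension -/
structure Ctx (α : Type) where
  A : Str J α
  I : Cut
  K : Cut
  l : J
  q : α
  d : J
  isK : IsK A I
  hl : l ∈ I.s
  nonst : NonSt l
  hd : ∀ k ∈ K.s, k < d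
  app : App A (c5 l) (A.j l) q (A.j d)

namespace Ctx

variable {α : Type} (X : Ctx α)

/-- the least good approximation at `x` -/
noncomputable def wf (x : α) : α :=
  @Classical.epsilon α ⟨X.A.zero⟩ (fun w => LG X.A (c5 X.l) (X.A.j X.l) X.q (X.A.j X.d) x w)
/-- the set of pairs coded by the approximation -/
noncomputable def tf (x : α) : α := X.A.snd (X.wf x)
/-- the sequence of thresholds of the approximation -/
noncomputable def sf (x : α) : α := X.A.fst (X.wf x)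
open Classical in
/-- the `i`-th threshold -/
noncomputable def th (i : ℕ) (x : α) : α :=
  if h : ∃ y, Es X.A (X.sf x) (X.A.nm i) y then Classical.choose h else X.A.zero

/-- the functions used in the ultrapower -/
def IsFn (F : α → α) : Prop := (∃ p, F ∈ DFc X.A X.I p) ∧
  ∃ i : ℕ, Ae X.A X.I (fun x => X.A.le (F x) (X.th i x))

theorem isFn_zero : X.IsFn (fun _ => X.A.zero) :=
  ⟨⟨X.A.zero, DFc.const X.isK (fun _ h => h) _⟩, 0, Ae.all X.isK fun _ => X.isK.zero_le _⟩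

/-- the universe of the ultrapower -/
def Bt : Type := Quot (fun F G : {F : α → α // X.IsFn F} => Ae X.A X.I (fun x => F.1 x = G.1 x))

/-- a representative -/
noncomputable def rep (v : X.Bt) : α → α := (Quot.out v).1

open Classical in
/-- the element given by a function, if it belongs to the ultrapower -/
noncomputable def el (F : α → α) : X.Bt :=
  if h : X.IsFn F then Quot.mk _ ⟨F, h⟩ else Quot.mk _ ⟨fun _ => X.A.zero, X.isFn_zero⟩

/-- the ultrapower -/
noncomputable def B : Str J X.Bt where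
  zero := X.el (fun _ => X.A.zero)
  one := X.el (fun _ => X.A.one)
  add v w := X.el (fun x => X.A.add (X.rep v x) (X.rep w x))
  mul v w := X.el (fun x => X.A.mul (X.rep v x) (X.rep w x))
  pair v w := X.el (fun x => X.A.pair (X.rep v x) (X.rep w x))
  fst v := X.el (fun x => X.A.fst (X.rep v x))
  snd v := X.el (fun x => X.A.snd (X.rep v x))
  lt v w := Ae X.A X.I (fun x => X.A.lt (X.rep v x) (X.rep w x))
  j c := X.el (fun _ => X.A.j c)
  S c v := Ae X.A X.I (fun x => Tc X.A (X.tf x) (X.A.j c) (X.rep v x))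

/-- the canonical embedding -/
noncomputable def emb (a : α) : X.Bt := X.el (fun _ => a)

end Ctx

end Pool.Agent.Helper4.KSq
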