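import Pool.Agent.Helper4.KSq.MS1

set_option autoImplicit false

/-!
# The MacDowell-Specker construction: the sets `{x | S(gam g, x)}`
-/

namespace Pool.Agent.Helper4.KSq

open Filter Cod

variable {α : Type} {A : Str J α} {I : Cut}

/-! ### Germs and codes -/

/-- the function `F` represents the element `a` of `J` -/
def Ms2Ev (a : J) (F : ℕ → ℕ) : Prop := ∀ᶠ n in (JU : Filter ℕ), a.rep n = F n

theorem Ms2Ev.rep (a : J) : Ms2Ev a a.rep := Filter.Eventually.of_forall fun _ => rfl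

theorem Ms2Ev.num (k : ℕ) : Ms2Ev (num k : J) (fun _ => k) := J.rep_mk (J.gen_const k)

theorem Ms2Ev.pr {a b : J} {F G : ℕ → ℕ} (ha : Ms2Ev a F) (hb : Ms2Ev b G) :
    Ms2Ev (pr a b) (fun n => Nat.pair (F n) (G n)) := by
  have h := J.rep_mk (Gen.pr a.gen_rep b.gen_rep)
  unfold Ms2Ev at *
  filter_upwards [ha, hb, h] with n h1 h2 h3
  rw [← h1, ← h2]
  exact h3

theorem Ms2Ev.ap {f : ℕ → ℕ} (hf : f ∈ fam) {a : J} {F : ℕ → ℕ} (ha : Ms2Ev a F) :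
    Ms2Ev (J.ap f hf a) (fun n => f (F n)) := by
  have h := J.rep_mk (Gen.ap hf a.gen_rep)
  unfold Ms2Ev at *
  filter_upwards [ha, h] with n h1 h2
  rw [← h1]
  exact h2

theorem Ms2Ev.unique {a b : J} {F : ℕ → ℕ} (ha : Ms2Ev a F) (hb : Ms2Ev b F) : a = b := by
  rw [← J.mk_rep a, ← J.mk_rep b]
  refine (J.mk_eq _ _).2 ?_
  filter_upwards [ha, hb] with n h1 h2
  rw [h1, h2]

theorem ms2_le {a b : J} : a ≤ b ↔ ∀ᶠ n in (JU : Filter ℕ), a.rep n ≤ b.rep n := by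
  conv_lhs => rw [← J.mk_rep a, ← J.mk_rep b]
  exact J.mk_le _ _

theorem Ms2Ev.le {a b : J} {F G : ℕ → ℕ} (ha : Ms2Ev a F) (hb : Ms2Ev b G)
    (h : ∀ n, F n ≤ G n) : a ≤ b := by
  rw [ms2_le]
  filter_upwards [ha, hb] with n h1 h2
  rw [h1, h2]
  exact h n

theorem Ms2Ev.cb (k : ℕ) : Ms2Ev (cb k) (fun _ => cb k) := (Ms2Ev.num 0).pr (Ms2Ev.num k)

theorem Ms2Ev.cn {a : J} {F : ℕ → ℕ} (ha : Ms2Ev a F) : Ms2Ev (cn a) (fun n => cn (F n)) :=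
  (Ms2Ev.num 1).pr ha

theorem Ms2Ev.ca {a b : J} {F G : ℕ → ℕ} (ha : Ms2Ev a F) (hb : Ms2Ev b G) :
    Ms2Ev (ca a b) (fun n => ca (F n) (G n)) := (Ms2Ev.num 2).pr (ha.pr hb)

theorem Ms2Ev.ce {a : J} {F : ℕ → ℕ} (ha : Ms2Ev a F) : Ms2Ev (ce a) (fun n => ce (F n)) :=
  (Ms2Ev.num 3).pr ha

theorem Ms2Ev.cf (k : ℕ) {a : J} {F : ℕ → ℕ} (ha : Ms2Ev a F) :
    Ms2Ev (cf k a) (fun n => cf k (F n)) := (Ms2Ev.num 4).pr ((Ms2Ev.num k).pr ha)

theorem Ms2Ev.cf_iter (k i : ℕ) {a : J} {F : ℕ → ℕ} (ha : Ms2Ev a F) :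
    Ms2Ev ((KSq.cf k)^[i] a) (fun n => (KSq.cf k)^[i] (F n)) := by
  induction i generalizing a F with
  | zero => exact ha
  | succ i ih => exact ih (ha.cf k)

theorem Ms2Ev.cp (i : ℕ) {a : J} {F : ℕ → ℕ} (ha : Ms2Ev a F) :
    Ms2Ev (cp i a) (fun n => cp i (F n)) :=
  ((((ha.cf 6).cf_iter 5 i).cf 4).cf_iter 3 i).cf 2

theorem Ms2Ev.cp_iter (k i : ℕ) {a : J} {F : ℕ → ℕ} (ha : Ms2Ev a F) :
    Ms2Ev ((KSq.cp k)^[i] a) (fun n => (KSq.cp k)^[i] (F n)) := by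
  induction i generalizing a F with
  | zero => exact ha
  | succ i ih => exact ih (ha.cp k)

theorem Ms2Ev.code (φ : Fo) {ρ : ℕ → J} {P : ℕ → ℕ → ℕ} (h : ∀ k, Ms2Ev (ρ k) (fun n => P n k)) :
    Ms2Ev (φ.code ρ) (fun n => φ.code (P n)) := by
  induction φ with
  | zero i => exact (Ms2Ev.cb 5).cp i
  | one i => exact (Ms2Ev.cb 6).cp i
  | add i j k => exact (((Ms2Ev.cb 0).cp (i + 2)).cp (j + 1)).cp k
  | mul i j k => exact (((Ms2Ev.cb 1).cp (i + 2)).cp (j + 1)).cp k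
  | pair i j k => exact (((Ms2Ev.cb 3).cp (i + 2)).cp (j + 1)).cp k
  | lt i j => exact ((Ms2Ev.cb 2).cp (i + 1)).cp j
  | eq i j => exact ((Ms2Ev.cb 4).cp (i + 1)).cp j
  | S k i => exact ((h k).cf 0).cp i
  | neg φ ih => exact ih.cn
  | and φ ψ ih1 ih2 => exact ih1.ca ih2
  | ex φ ih => exact ih.ce

theorem Ms2Ev.code1 (φ : Fo) {ρ : ℕ → J} {P : ℕ → ℕ → ℕ}
    (h : ∀ k, Ms2Ev (ρ k) (fun n => P n k)) : Ms2Ev (φ.code1 ρ) (fun n => φ.code1 (P n)) :=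
  ((Ms2Ev.code φ h).cp_iter 0 φ.bd).cf 2

theorem Ms2Ev.sc {a : J} {F : ℕ → ℕ} (ha : Ms2Ev a F) : Ms2Ev (J.sc a) (fun n => F n + 1) := by
  have h := Ms2Ev.ap J.mem_add (ha.pr (Ms2Ev.num 1))
  simp only [Nat.unpair_pair] at h
  exact h

theorem Cut.gam_mem (I : Cut) {g : J} (hg : g ∈ I.s) : J.gam g ∈ I.s := by
  refine I.down ?_ (I.gmax hg)
  refine (Ms2Ev.ap J.mem_gam (Ms2Ev.rep g)).le (Ms2Ev.ap J.mem_gmax (Ms2Ev.rep g)) fun n => ?_
  unfold KSq.gmax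
  exact Finset.le_sup (f := KSq.gam) (Finset.mem_range.2 (by omega))

theorem Cut.sc_mem (I : Cut) {g : J} (hg : g ∈ I.s) : J.sc g ∈ I.s := by
  refine I.down ?_ (I.pr hg (I.num 1))
  exact (Ms2Ev.rep g).sc.le ((Ms2Ev.rep g).pr (Ms2Ev.num 1)) fun n => Nat.add_le_pair _ _

/-- `J.gam (g + 1)` is the code of `msP` for `J.gam g` and `g` -/
theorem J.gam_sc (g : J) : J.gam (J.sc g) = gamF.code1 (rh2 (J.gam g) g) := by
  have h1 : Ms2Ev (J.gam (J.sc g)) (fun n => KSq.gam (g.rep n + 1)) :=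
    Ms2Ev.ap J.mem_gam (Ms2Ev.rep g).sc
  have h2 : Ms2Ev (gamF.code1 (rh2 (J.gam g) g))
      (fun n => gamF.code1 (rh2 (KSq.gam (g.rep n)) (g.rep n))) := by
    refine Ms2Ev.code1 gamF (P := fun n => rh2 (KSq.gam (g.rep n)) (g.rep n)) fun k => ?_
    by_cases hk : k = 0
    · simp only [rh2, hk, if_true]
      exact Ms2Ev.ap J.mem_gam (Ms2Ev.rep g)
    · simp only [rh2, hk, if_false]
      exact Ms2Ev.rep g
  have h3 : (fun n => KSq.gam (g.rep n + 1)) =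
      fun n => gamF.code1 (rh2 (KSq.gam (g.rep n)) (g.rep n)) := by
    funext n
    rw [KSq.gam]
  rw [h3] at h1
  exact h1.unique h2

theorem gam_zero (hA : IsK A I) (x : α) : A.S (J.gam (num 0)) x := by
  have h1 : Ms2Ev (J.gam (num 0)) (fun _ => KSq.gam 0) := Ms2Ev.ap J.mem_gam (Ms2Ev.num 0)
  have h2 : Ms2Ev (trueF.code1 (fun _ => (num 0 : J))) (fun _ => trueF.code1 (fun _ => 0)) :=
    Ms2Ev.code1 trueF (P := fun _ _ => 0) fun _ => Ms2Ev.num 0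
  have h3 : (fun _ : ℕ => KSq.gam 0) = fun _ => trueF.code1 (fun _ => 0) := by
    funext n
    rw [KSq.gam]
  rw [h3] at h1
  rw [h1.unique h2, hA.tarski.rep1 hA.pairing I.closed (fun _ => I.num 0)]
  simp [trueF, Fo.sat]

theorem gam_sc (hA : IsK A I) {g : J} (hg : g ∈ I.s) (x : α) :
    A.S (J.gam (J.sc g)) x ↔ msP A (J.gam g) g x := by
  have hρ : ∀ k, rh2 (J.gam g) g k ∈ I.s := by
    intro k
    unfold rh2
    split_ifs
    · exact I.gam_mem hg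
    · exact hg
  rw [J.gam_sc, hA.tarski.rep1 hA.pairing I.closed hρ]
  exact Classical.choose_spec (UD.msP (TD.var 0) 0 1) J α A hA.pairing _ _

theorem ms2_j_le (hA : IsK A I) {a b : J} : A.le (A.j a) (A.j b) ↔ a ≤ b := by
  unfold Ar.le
  rw [hA.j_lt, le_iff_lt_or_eq]
  constructor
  · rintro (h | h)
    · exact Or.inl h
    · exact Or.inr (hA.j_inj h)
  · rintro (h | rfl)
    · exact Or.inl h
    · exact Or.inr rfl

theorem ms2_initial (hA : IsK A I) {x : α} {b : J} (h : A.le x (A.j b)) :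
    ∃ a, x = A.j a ∧ a ≤ b := by
  rcases h with h | h
  · obtain ⟨a, rfl⟩ := hA.initial x b h
    exact ⟨a, rfl, ((hA.j_lt a b).1 h).le⟩
  · exact ⟨b, h, le_rfl⟩

/-- bound for the values of `gam` up to `e` -/
theorem ms2_gam_le {g e : J} (hg : g ≤ e) : J.gam g ≤ J.ap _ J.mem_bdgam e := by
  have h1 : Ms2Ev (J.gam g) _ := Ms2Ev.ap J.mem_gam (Ms2Ev.rep g)
  have h2 : Ms2Ev (J.ap _ J.mem_bdgam e) _ := Ms2Ev.ap J.mem_bdgam (Ms2Ev.rep e)
  rw [ms2_le]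
  filter_upwards [h1, h2, ms2_le.1 hg] with n a b c
  rw [a, b]
  exact le_bdc _ c

/-- the function `gam` up to `e` is coded -/
theorem gam_coded (hA : IsK A I) {g e : J} (he : e ∈ I.s) (hg : g ≤ e) (y : α) :
    y = A.j (J.gam g) ↔ A.le y (A.j (J.ap _ J.mem_bdgam e)) ∧
      A.E (A.j (J.ap _ J.mem_gcgam e)) (A.pair (A.j g) y) := by
  have h1 : Ms2Ev (J.gam g) _ := Ms2Ev.ap J.mem_gam (Ms2Ev.rep g)
  have h2 : Ms2Ev (J.ap _ J.mem_bdgam e) _ := Ms2Ev.ap J.mem_bdgam (Ms2Ev.rep e)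
  have h3 : Ms2Ev (J.ap _ J.mem_gcgam e) _ := Ms2Ev.ap J.mem_gcgam (Ms2Ev.rep e)
  constructor
  · rintro rfl
    refine ⟨(ms2_j_le hA).2 (ms2_gam_le hg), ?_⟩
    rw [← hA.j_pair, hA.j_E]
    have h4 : Ms2Ev (pr g (J.gam g)) _ := (Ms2Ev.rep g).pr h1
    filter_upwards [h3, h4, ms2_le.1 hg] with n a b c
    rw [a, b]
    exact (gcd_spec _ c (le_bdc _ c)).2 rfl
  · rintro ⟨hy, hE⟩
    obtain ⟨a, rfl, ha⟩ := ms2_initial hA hy
    rw [← hA.j_pair, hA.j_E] at hE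
    have h4 : Ms2Ev (pr g a) _ := (Ms2Ev.rep g).pr (Ms2Ev.rep a)
    have h5 : Ms2Ev (J.gam g) a.rep := by
      unfold Ms2Ev
      filter_upwards [h1, h2, h3, h4, ms2_le.1 hg, ms2_le.1 ha, hE] with n b1 b2 b3 b4 b5 b6 b7
      rw [b3, b4] at b7
      rw [b2] at b6
      rw [b1]
      exact ((gcd_spec _ b5 b6).1 b7).symm
    rw [h5.unique (Ms2Ev.rep a)]

theorem ms2_sat (hA : IsK A I) {f e : J} (he : e ∈ I.s) (hf : f ≤ e) (x : α) :
    A.S (c5 (J.ap _ J.mem_bdgam e)) (A.pair (A.j (J.gam f)) x) ↔ A.S (J.gam f) x := by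
  have hb : J.ap _ J.mem_bdgam e ∈ I.s := by
    refine I.down ?_ (I.gmax he)
    exact (Ms2Ev.ap J.mem_bdgam (Ms2Ev.rep e)).le (Ms2Ev.ap J.mem_gmax (Ms2Ev.rep e))
      fun n => le_rfl
  rw [hA.tarski.sat _ (I.closed.c5 hb), hA.pairing.fst_pair, hA.pairing.snd_pair]
  constructor
  · rintro ⟨c, -, h1, h2⟩
    rwa [hA.j_inj h1]
  · intro h
    exact ⟨J.gam f, ms2_gam_le hf, rfl, h⟩

/-- induction on `f ≤ e` in `J`, for definable properties -/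
theorem ms2_pred (hA : IsK A I) {f : J} (h0 : f ≠ num 0) : ∃ f', f = J.sc f' ∧ f' < f := by
  have h1 : A.j f ≠ A.zero := by
    intro h
    apply h0
    apply hA.j_inj
    rw [h, hA.j_num]
    rfl
  obtain ⟨b, hb⟩ := hA.exists_pred h1
  have hlt : A.lt b (A.j f) := by
    rw [hb, hA.lt_succ]
    exact Or.inr rfl
  obtain ⟨f', rfl⟩ := hA.initial b f hlt
  refine ⟨f', ?_, (hA.j_lt _ _).1 hlt⟩
  apply hA.j_inj
  rw [hA.j_sc, hb]

theorem ms2_lt_sc (hA : IsK A I) {g f : J} (h : g < J.sc f) : g ≤ f := by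
  rw [← ms2_j_le hA, ← hA.lt_succ, ← hA.j_sc, hA.j_lt]
  exact h

theorem ms2_UD1 : UD (fun (C α : Type) (A : Str C α) (ρ : ℕ → C) (e : ℕ → α) =>
    ¬ (A.le (e 0) (e 1) → A.le (e 2) (e 0) → (∃ m, A.le m (e 3) ∧ A.E (e 4) (A.pair (e 0) m) ∧
      A.S (ρ 0) (A.pair m (e 5))) → A.S (ρ 1) (e 5))) := by
  repeat' first
    | exact TD.var _ | exact TD.zero | exact TD.one | exact TD.nm _ | assumption
    | apply TD.fst | apply TD.snd | apply TD.pair | apply TD.add | apply TD.mul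
    | apply UD.S | apply UD.E | apply UD.lt | apply UD.le | apply UD.eq
    | apply UD.not | apply UD.and | apply UD.or | apply UD.iff | apply UD.all | apply UD.ex
    | apply UD.imp

theorem gam_anti (hA : IsK A I) {g g' : J} (hg' : g' ∈ I.s) (h : g ≤ g') {x : α}
    (hx : A.S (J.gam g') x) : A.S (J.gam g) x := by
  by_contra hcon
  have hg : g ∈ I.s := I.down h hg'
  set bd := J.ap _ J.mem_bdgam g' with hbd
  set gc := J.ap _ J.mem_gcgam g' with hgc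
  have hb : bd ∈ I.s := by
    refine I.down ?_ (I.gmax hg')
    exact (Ms2Ev.ap J.mem_bdgam (Ms2Ev.rep g')).le (Ms2Ev.ap J.mem_gmax (Ms2Ev.rep g'))
      fun n => le_rfl
  let ρ : ℕ → J := fun k => if k = 0 then c5 bd else J.gam g
  have hρ : ∀ k, ρ k ∈ I.s := by
    intro k
    simp only [ρ]
    split_ifs
    · exact I.closed.c5 hb
    · exact I.gam_mem hg
  let e : ℕ → α := fun k => if k = 0 then A.j g' else if k = 1 then A.j g else
    if k = 2 then A.j bd else if k = 3 then A.j gc else x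
  have key := hA.least (R := fun C α A ρ z e =>
    ¬ (A.le z (e 0) → A.le (e 1) z → (∃ m, A.le m (e 2) ∧ A.E (e 3) (A.pair z m) ∧
      A.S (ρ 0) (A.pair m (e 4))) → A.S (ρ 1) (e 4))) ms2_UD1 hρ e
  have hval : ∀ z : α, (¬ (A.le z (e 0) → A.le (e 1) z → (∃ m, A.le m (e 2) ∧
      A.E (e 3) (A.pair z m) ∧ A.S (ρ 0) (A.pair m (e 4))) → A.S (ρ 1) (e 4))) ↔
      (∃ f, z = A.j f ∧ g ≤ f ∧ f ≤ g' ∧ A.S (J.gam f) x) := by
    intro z
    have e0 : e 0 = A.j g' := rfl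
    have e1 : e 1 = A.j g := rfl
    have e2 : e 2 = A.j bd := rfl
    have e3 : e 3 = A.j gc := rfl
    have e4 : e 4 = x := rfl
    have r0 : ρ 0 = c5 bd := rfl
    have r1 : ρ 1 = J.gam g := rfl
    rw [e0, e1, e2, e3, e4, r0, r1]
    constructor
    · intro hn
      push Not at hn
      obtain ⟨h1, h2, ⟨m, h3, h4, h5⟩, -⟩ := hn
      obtain ⟨f, rfl, hf⟩ := ms2_initial hA h1
      have h6 := (gam_coded hA hg' hf m).2 ⟨h3, h4⟩
      rw [h6, ms2_sat hA hg' hf] at h5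
      exact ⟨f, rfl, (ms2_j_le hA).1 h2, hf, h5⟩
    · rintro ⟨f, rfl, h1, h2, h3⟩ hn
      apply hcon
      refine hn ((ms2_j_le hA).2 h2) ((ms2_j_le hA).2 h1) ⟨A.j (J.gam f), ?_⟩
      have h4 := (gam_coded hA hg' h2 (A.j (J.gam f))).1 rfl
      exact ⟨h4.1, h4.2, (ms2_sat hA hg' h2 x).2 h3⟩
  obtain ⟨z, hz, hmin⟩ := key ⟨A.j g', (hval _).2 ⟨g', rfl, h, le_rfl, hx⟩⟩
  obtain ⟨f, rfl, h1, h2, h3⟩ := (hval z).1 hz
  have hfg : f ≠ g := fun h4 => hcon (h4 ▸ h3)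
  have hgf : g < f := lt_of_le_of_ne h1 hfg.symm
  have hf0 : f ≠ num 0 := by
    intro h4
    rw [h4] at hgf
    have h5 : A.lt (A.j g) (A.j (num 0)) := (hA.j_lt _ _).2 hgf
    have h6 : A.j (num 0) = A.zero := by rw [hA.j_num]; rfl
    rw [h6] at h5
    rcases hA.zero_le (A.j g) with h7 | h7
    · exact hA.irrefl _ (hA.trans h5 h7)
    · rw [← h7] at h5
      exact hA.irrefl _ h5
  obtain ⟨f', hf', hlt⟩ := ms2_pred hA hf0
  have hf'I : f' ∈ I.s := I.down (hlt.le.trans h2) hg'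
  have h4 : A.S (J.gam f') x := by
    rw [hf', gam_sc hA hf'I] at h3
    exact h3.1
  have h5 : g ≤ f' := ms2_lt_sc hA (hf' ▸ hgf)
  exact hmin (A.j f') ((hA.j_lt _ _).2 hlt) ((hval _).2 ⟨f', rfl, h5, hlt.le.trans h2, h4⟩)

theorem ms2_UD2 : UD (fun (C α : Type) (A : Str C α) (ρ : ℕ → C) (e : ℕ → α) =>
    ¬ (A.le (e 0) (e 1) → (∀ m, A.le m (e 2) → A.E (e 3) (A.pair (e 0) m) →
      ∀ y, ∃ x, A.lt y x ∧ A.S (ρ 0) (A.pair m x)))) := by
  repeat' first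
    | exact TD.var _ | exact TD.zero | exact TD.one | exact TD.nm _ | assumption
    | apply TD.fst | apply TD.snd | apply TD.pair | apply TD.add | apply TD.mul
    | apply UD.S | apply UD.E | apply UD.lt | apply UD.le | apply UD.eq
    | apply UD.not | apply UD.and | apply UD.or | apply UD.iff | apply UD.all | apply UD.ex
    | apply UD.imp

theorem gam_unb (hA : IsK A I) {g : J} (hg : g ∈ I.s) (y : α) :
    ∃ x, A.lt y x ∧ A.S (J.gam g) x := by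
  revert y
  by_contra hcon
  set bd := J.ap _ J.mem_bdgam g with hbd
  set gc := J.ap _ J.mem_gcgam g with hgc
  have hb : bd ∈ I.s := by
    refine I.down ?_ (I.gmax hg)
    exact (Ms2Ev.ap J.mem_bdgam (Ms2Ev.rep g)).le (Ms2Ev.ap J.mem_gmax (Ms2Ev.rep g))
      fun n => le_rfl
  let ρ : ℕ → J := fun _ => c5 bd
  have hρ : ∀ k, ρ k ∈ I.s := fun _ => I.closed.c5 hb
  let e : ℕ → α := fun k => if k = 0 then A.j g else if k = 1 then A.j bd else A.j gc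
  have key := hA.least (R := fun C α A ρ z e =>
    ¬ (A.le z (e 0) → (∀ m, A.le m (e 1) → A.E (e 2) (A.pair z m) →
      ∀ y, ∃ x, A.lt y x ∧ A.S (ρ 0) (A.pair m x)))) ms2_UD2 hρ e
  have hval : ∀ z : α, (¬ (A.le z (e 0) → (∀ m, A.le m (e 1) → A.E (e 2) (A.pair z m) →
      ∀ y, ∃ x, A.lt y x ∧ A.S (ρ 0) (A.pair m x)))) ↔
      (∃ f, z = A.j f ∧ f ≤ g ∧ ¬ ∀ y, ∃ x, A.lt y x ∧ A.S (J.gam f) x) := by
    intro z
    have e0 : e 0 = A.j g := rfl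
    have e1 : e 1 = A.j bd := rfl
    have e2 : e 2 = A.j gc := rfl
    have r0 : ρ 0 = c5 bd := rfl
    rw [e0, e1, e2, r0]
    constructor
    · intro hn
      rw [Classical.not_imp] at hn
      obtain ⟨h1, h2⟩ := hn
      obtain ⟨f, rfl, hf⟩ := ms2_initial hA h1
      refine ⟨f, rfl, hf, fun h3 => h2 fun m h4 h5 y => ?_⟩
      have h6 := (gam_coded hA hg hf m).2 ⟨h4, h5⟩
      obtain ⟨x, hx1, hx2⟩ := h3 y
      refine ⟨x, hx1, ?_⟩
      rw [h6, ms2_sat hA hg hf]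
      exact hx2
    · rintro ⟨f, rfl, h2, h3⟩ hn
      apply h3
      intro y
      have h4 := (gam_coded hA hg h2 (A.j (J.gam f))).1 rfl
      obtain ⟨x, hx1, hx2⟩ := hn ((ms2_j_le hA).2 h2) _ h4.1 h4.2 y
      exact ⟨x, hx1, (ms2_sat hA hg h2 x).1 hx2⟩
  obtain ⟨z, hz, hmin⟩ := key ⟨A.j g, (hval _).2 ⟨g, rfl, le_rfl, hcon⟩⟩
  obtain ⟨f, rfl, h2, h3⟩ := (hval z).1 hz
  apply h3
  by_cases hf0 : f = num 0
  · intro y
    refine ⟨A.add y A.one, (hA.lt_succ y y).2 (Or.inr rfl), ?_⟩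
    rw [hf0]
    exact gam_zero hA _
  · obtain ⟨f', hf', hlt⟩ := ms2_pred hA hf0
    have hf'I : f' ∈ I.s := I.down (hlt.le.trans h2) hg
    have h4 : ∀ y, ∃ x, A.lt y x ∧ A.S (J.gam f') x := by
      by_contra h5
      exact hmin (A.j f') ((hA.j_lt _ _).2 hlt) ((hval _).2 ⟨f', rfl, hlt.le.trans h2, h5⟩)
    intro y
    obtain ⟨x, hx1, hx2⟩ := ms_unb hA (I.gam_mem hf'I) hf'I h4 y
    refine ⟨x, hx1, ?_⟩
    rw [hf', gam_sc hA hf'I]
    exact hx2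

end Pool.Agent.Helper4.KSq
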