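import Pool.Agent.Helper4.KSq.KInd
import Pool.Agent.Helper4.KSq.MS2

set_option autoImplicit false

/-!
# Standard codes and the language of arithmetic
-/

namespace Pool.Agent.Helper4.KSq

open Filter Cod

/-! ### Translation of pure formulas into the language of arithmetic -/

/-- the structure without the satisfaction relation -/
def Str.nos {C α : Type} (A : Str C α) : Str C α := { A with S := fun _ _ => False }

/-- conjunction in the language of arithmetic -/
def Fm.fdAnd (φ ψ : Fm) : Fm := (Fm.imp φ ψ.neg).neg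

/-- disjunction in the language of arithmetic -/
def Fm.fdOr (φ ψ : Fm) : Fm := .imp φ.neg ψ

theorem Fm.sat_neg {α : Type} (M : ArStr α) (v : ℕ → α) (φ : Fm) :
    φ.neg.Sat M v ↔ ¬ φ.Sat M v := Iff.rfl

theorem Fm.sat_fdAnd {α : Type} (M : ArStr α) (v : ℕ → α) (φ ψ : Fm) :
    (φ.fdAnd ψ).Sat M v ↔ φ.Sat M v ∧ ψ.Sat M v := by
  simp only [Fm.fdAnd, Fm.sat_neg, Fm.Sat]
  tauto

theorem Fm.sat_fdOr {α : Type} (M : ArStr α) (v : ℕ → α) (φ ψ : Fm) :
    (φ.fdOr ψ).Sat M v ↔ φ.Sat M v ∨ ψ.Sat M v := by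
  simp only [Fm.fdOr, Fm.sat_neg, Fm.Sat]
  tauto

theorem Fm.sat_ex {α : Type} (M : ArStr α) (v : ℕ → α) (k : ℕ) (φ : Fm) :
    (Fm.ex k φ).Sat M v ↔ ∃ a, φ.Sat M (Function.update v k a) := by
  simp only [Fm.ex, Fm.sat_neg, Fm.Sat, not_forall, not_not]

/-- translation; the variable with index `i` gets the name `g i`, names `≥ m` are not used -/
def Fo.toFm : Fo → (ℕ → ℕ) → ℕ → Fm
  | .zero i, g, _ => .eq (.var (g i)) .zero
  | .one i, g, _ => .eq (.var (g i)) .one
  | .add i j k, g, _ => .eq (.add (.var (g i)) (.var (g j))) (.var (g k))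
  | .mul i j k, g, _ => .eq (.mul (.var (g i)) (.var (g j))) (.var (g k))
  | .pair i j k, g, _ =>
    Fm.fdOr (Fm.fdAnd (.lt (.var (g i)) (.var (g j)))
      (.eq (.var (g k)) (.add (.mul (.var (g j)) (.var (g j))) (.var (g i)))))
    (Fm.fdAnd (Fm.lt (.var (g i)) (.var (g j))).neg
      (.eq (.var (g k)) (.add (.add (.mul (.var (g i)) (.var (g i))) (.var (g i))) (.var (g j)))))
  | .lt i j, g, _ => .lt (.var (g i)) (.var (g j))
  | .eq i j, g, _ => .eq (.var (g i)) (.var (g j))
  | .S _ _, _, _ => .bot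
  | .neg φ, g, m => (φ.toFm g m).neg
  | .and φ ψ, g, m => (φ.toFm g m).fdAnd (ψ.toFm g m)
  | .ex φ, g, m => Fm.ex m (φ.toFm (cs m g) (m + 1))

theorem fd_UDpair : UD (fun (C α : Type) (A : Str C α) (ρ : ℕ → C) (e : ℕ → α) =>
    (A.pair (e 0) (e 1) = e 2 ↔
      ((A.lt (e 0) (e 1) ∧ e 2 = A.add (A.mul (e 1) (e 1)) (e 0)) ∨
        (¬ A.lt (e 0) (e 1) ∧ e 2 = A.add (A.add (A.mul (e 0) (e 0)) (e 0)) (e 1))))) := by
  repeat' first
    | exact TD.var _ | exact TD.zero | exact TD.one | exact TD.nm _ | assumption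
    | apply TD.fst | apply TD.snd | apply TD.pair | apply TD.add | apply TD.mul
    | apply UD.S | apply UD.E | apply UD.lt | apply UD.le | apply UD.eq
    | apply UD.not | apply UD.and | apply UD.or | apply UD.iff | apply UD.all | apply UD.ex
    | apply UD.imp

theorem fd_pair {α : Type} {A : Str J α} {I : Cut} (hA : IsK A I) (a b c : α) :
    A.pair a b = c ↔ ((A.lt a b ∧ c = A.add (A.mul b b) a) ∨
      (¬ A.lt a b ∧ c = A.add (A.add (A.mul a a) a) b)) := by
  have h := transfer hA fd_UDpair (fun _ => 0) (fun e => ?_)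
    (fun k => if k = 0 then a else if k = 1 then b else c)
  · exact h
  · show (Nat.pair (e 0) (e 1) = e 2 ↔ ((e 0 < e 1 ∧ e 2 = e 1 * e 1 + e 0) ∨
      (¬ e 0 < e 1 ∧ e 2 = e 0 * e 0 + e 0 + e 1)))
    unfold Nat.pair
    split_ifs with h
    · constructor
      · intro h2
        exact Or.inl ⟨h, h2.symm⟩
      · rintro (h2 | h2)
        · exact h2.2.symm
        · exact absurd h h2.1
    · constructor
      · intro h2
        exact Or.inr ⟨h, h2.symm⟩
      · rintro (h2 | h2)
        · exact absurd h2.1 h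
        · exact h2.2.symm

theorem Fo.sat_toFm {α : Type} {A : Str J α} {I : Cut} (hA : IsK A I) (ρ : ℕ → J) (φ : Fo)
    (g : ℕ → ℕ) (m : ℕ) (hg : ∀ i, g i < m) (v : ℕ → α) :
    (φ.toFm g m).Sat A.red v ↔ φ.sat A.nos ρ (fun i => v (g i)) := by
  induction φ generalizing g m v with
  | zero i => exact Iff.rfl
  | one i => exact Iff.rfl
  | add i j k => exact Iff.rfl
  | mul i j k => exact Iff.rfl
  | pair i j k =>
    rw [Fo.toFm, Fm.sat_fdOr, Fm.sat_fdAnd, Fm.sat_fdAnd, Fm.sat_neg]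
    exact (fd_pair hA (v (g i)) (v (g j)) (v (g k))).symm
  | lt i j => exact Iff.rfl
  | eq i j => exact Iff.rfl
  | S k i => exact Iff.rfl
  | neg φ ih =>
    rw [Fo.toFm, Fm.sat_neg, ih g m hg]
    exact Iff.rfl
  | and φ ψ ih1 ih2 =>
    rw [Fo.toFm, Fm.sat_fdAnd, ih1 g m hg, ih2 g m hg]
    exact Iff.rfl
  | ex φ ih =>
    rw [Fo.toFm, Fm.sat_ex]
    show _ ↔ ∃ x, φ.sat A.nos ρ (cs x (fun i => v (g i)))
    refine exists_congr fun a => ?_
    have hg' : ∀ i, cs m g i < m + 1 := by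
      intro i
      cases i with
      | zero => exact Nat.lt_succ_self m
      | succ i => exact (hg i).trans (Nat.lt_succ_self m)
    rw [ih (cs m g) (m + 1) hg']
    have : (fun i => Function.update v m a (cs m g i)) = cs a (fun i => v (g i)) := by
      funext i
      cases i with
      | zero => simp [cs]
      | succ i => simp [cs, (hg i).ne]
    rw [this]

/-! ### Pure definability of the sets with a standard code -/

/-- definable without the satisfaction relation -/
def FdSD {α : Type} (A : Str J α) (P : α → Prop) : Prop :=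
  ∃ R : (∀ (C α : Type), Str C α → (ℕ → C) → α → Prop),
    UD (fun C α A ρ e => R C α A ρ (e 0)) ∧ ∀ x, R J α A.nos (fun _ => num 0) x ↔ P x

namespace FdSD

variable {α : Type} {A : Str J α} {P Q : α → Prop}

theorem congr (h : FdSD A P) (hPQ : ∀ x, P x ↔ Q x) : FdSD A Q := by
  obtain ⟨R, h1, h2⟩ := h
  exact ⟨R, h1, fun x => (h2 x).trans (hPQ x)⟩

theorem not (h : FdSD A P) : FdSD A (fun x => ¬ P x) := by
  obtain ⟨R, h1, h2⟩ := h
  exact ⟨fun C α A ρ x => ¬ R C α A ρ x, h1.not, fun x => not_congr (h2 x)⟩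

theorem and (h : FdSD A P) (h' : FdSD A Q) : FdSD A (fun x => P x ∧ Q x) := by
  obtain ⟨R, h1, h2⟩ := h
  obtain ⟨R', h1', h2'⟩ := h'
  exact ⟨fun C α A ρ x => R C α A ρ x ∧ R' C α A ρ x, h1.and h1', fun x =>
    and_congr (h2 x) (h2' x)⟩

theorem or (h : FdSD A P) (h' : FdSD A Q) : FdSD A (fun x => P x ∨ Q x) := by
  obtain ⟨R, h1, h2⟩ := h
  obtain ⟨R', h1', h2'⟩ := h'
  exact ⟨fun C α A ρ x => R C α A ρ x ∨ R' C α A ρ x, h1.or h1', fun x =>
    or_congr (h2 x) (h2' x)⟩

theorem false : FdSD A (fun _ => False) :=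
  ⟨fun _ _ _ _ _ => False, (UD.true.not).congr fun _ _ _ _ _ _ => by simp, fun _ => Iff.rfl⟩

theorem ex (h : FdSD A P) : FdSD A (fun x => ∃ z, P (A.pair z x)) := by
  obtain ⟨R, h1, h2⟩ := h
  refine ⟨fun C α A ρ x => ∃ z, R C α A ρ (A.pair z x), ?_, fun x =>
    exists_congr fun z => h2 _⟩
  exact UD.ex (P := fun C α A ρ z e => R C α A ρ (A.pair z (e 0)))
    (UD.rel1 (R := R) h1 (TD.pair (TD.var 0) (TD.var 1)))

theorem term {t : Tr} (ht : TD t) (h : FdSD A P) :
    FdSD A (fun x => P (t J α A.nos (fun _ => num 0) (fun _ => x))) := by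
  obtain ⟨R, h1, h2⟩ := h
  refine ⟨fun C α A ρ x => R C α A ρ (t C α A ρ (fun _ => x)), ?_, fun x => h2 _⟩
  exact UD.rel1 (R := R) h1 (ht.ren fun _ => 0)

theorem fn (k : ℕ) (h : FdSD A P) : FdSD A (fun x => P (A.fn k x)) := by
  have key : ∀ {t : Tr}, TD t →
      (∀ x, t J α A.nos (fun _ => num 0) (fun _ => x) = A.fn k x) →
      FdSD A (fun x => P (A.fn k x)) := by
    intro t ht h1
    refine (h.term ht).congr fun x => ?_
    rw [h1 x]
  match k with
  | 0 => exact key (TD.fst (TD.var 0)) fun x => rfl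
  | 1 => exact key (TD.snd (TD.var 0)) fun x => rfl
  | 2 => exact key (TD.pair (TD.var 0) (TD.var 0)) fun x => rfl
  | 3 => exact key (TD.pair (TD.pair (TD.fst (TD.snd (TD.var 0))) (TD.fst (TD.var 0)))
      (TD.snd (TD.snd (TD.var 0)))) fun x => rfl
  | 4 => exact key (TD.pair (TD.fst (TD.snd (TD.var 0))) (TD.var 0)) fun x => rfl
  | 5 =>
    have h5 := TD.pair (TD.fst (TD.var 0)) (TD.pair (TD.snd (TD.fst (TD.snd (TD.var 0))))
      (TD.pair (TD.fst (TD.fst (TD.snd (TD.var 0)))) (TD.snd (TD.snd (TD.var 0)))))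
    exact key h5 fun x => rfl
  | 6 => exact key (TD.pair (TD.fst (TD.var 0)) (TD.snd (TD.snd (TD.var 0)))) fun x => rfl
  | n + 7 => exact key (TD.var 0) fun x => rfl

theorem base (k : ℕ) : FdSD A (fun x => A.base k x) := by
  match k with
  | 0 => exact ⟨fun C α A ρ x => A.base 0 x, UD.eq (TD.add (TD.fst (TD.var 0))
      (TD.fst (TD.snd (TD.var 0)))) (TD.fst (TD.snd (TD.snd (TD.var 0)))), fun x => Iff.rfl⟩
  | 1 => exact ⟨fun C α A ρ x => A.base 1 x, UD.eq (TD.mul (TD.fst (TD.var 0))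
      (TD.fst (TD.snd (TD.var 0)))) (TD.fst (TD.snd (TD.snd (TD.var 0)))), fun x => Iff.rfl⟩
  | 2 => exact ⟨fun C α A ρ x => A.base 2 x, UD.lt (TD.fst (TD.var 0))
      (TD.fst (TD.snd (TD.var 0))), fun x => Iff.rfl⟩
  | 3 => exact ⟨fun C α A ρ x => A.base 3 x, UD.eq (TD.pair (TD.fst (TD.var 0))
      (TD.fst (TD.snd (TD.var 0)))) (TD.fst (TD.snd (TD.snd (TD.var 0)))), fun x => Iff.rfl⟩
  | 4 => exact ⟨fun C α A ρ x => A.base 4 x, UD.eq (TD.fst (TD.var 0))
      (TD.fst (TD.snd (TD.var 0))), fun x => Iff.rfl⟩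
  | 5 => exact ⟨fun C α A ρ x => A.base 5 x, UD.eq (TD.fst (TD.var 0)) TD.zero, fun x => Iff.rfl⟩
  | 6 => exact ⟨fun C α A ρ x => A.base 6 x, UD.eq (TD.fst (TD.var 0)) TD.one, fun x => Iff.rfl⟩
  | n + 7 => exact FdSD.false

theorem fst_nm (i : ℕ) : FdSD A (fun x => A.fst x = A.nm i) :=
  ⟨fun C α A ρ x => A.fst x = A.nm i, UD.eq (TD.fst (TD.var 0)) (TD.nm i), fun x => by
    show A.fst x = A.nos.nm i ↔ _
    have : ∀ i, A.nos.nm i = A.nm i := by
      intro i
      induction i with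
      | zero => rfl
      | succ i ih =>
        show A.add (A.nos.nm i) A.one = A.add (A.nm i) A.one
        rw [ih]
    rw [this]⟩

theorem bigOr {Q : ℕ → α → Prop} (n : ℕ) (h : ∀ i < n, FdSD A (Q i)) :
    FdSD A (fun x => ∃ i < n, Q i x) := by
  induction n with
  | zero => exact FdSD.false.congr fun x => by simp
  | succ n ih =>
    refine ((ih fun i hi => h i (by omega)).or (h n (by omega))).congr fun x => ?_
    constructor
    · rintro (⟨i, hi, hq⟩ | hq)
      · exact ⟨i, by omega, hq⟩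
      · exact ⟨n, by omega, hq⟩
    · rintro ⟨i, hi, hq⟩
      rcases Nat.lt_succ_iff_lt_or_eq.1 hi with h1 | rfl
      · exact Or.inl ⟨i, h1, hq⟩
      · exact Or.inr hq

end FdSD

theorem fd_num_pair (a b : ℕ) : (num (Nat.pair a b) : J) = pr (num a) (num b) :=
  (Ms2Ev.num _).unique ((Ms2Ev.num a).pr (Ms2Ev.num b))

theorem fd_num_le {c : J} {e : ℕ} (h : c ≤ num e) : ∃ i ≤ e, c = num i := by
  have h1 : ∀ᶠ n in (JU : Filter ℕ), c.rep n ≤ e := by
    filter_upwards [ms2_le.1 h, Ms2Ev.num e] with n a b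
    rwa [b] at a
  have h2 : ∀ᶠ n in (JU : Filter ℕ), ∃ i ∈ Finset.range (e + 1), c.rep n = i := by
    filter_upwards [h1] with n hn
    exact ⟨c.rep n, Finset.mem_range.2 (by omega), rfl⟩
  have h3 : ∃ i ∈ Finset.range (e + 1), ∀ᶠ n in (JU : Filter ℕ), c.rep n = i := by
    have := (Ultrafilter.eventually_exists_mem_iff (is := ((Finset.range (e + 1) : Finset ℕ) :
      Set ℕ)) (Finset.finite_toSet _) (f := JU) (P := fun i n => c.rep n = i)).1 ?_
    · obtain ⟨i, hi, hi2⟩ := this
      exact ⟨i, by simpa using hi, hi2⟩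
    · filter_upwards [h2] with n hn
      obtain ⟨i, hi, hi2⟩ := hn
      exact ⟨i, by simpa using hi, hi2⟩
  obtain ⟨i, hi, hi2⟩ := h3
  refine ⟨i, by rw [Finset.mem_range] at hi; omega, ?_⟩
  have h4 : Ms2Ev c (fun _ => i) := hi2
  exact h4.unique (Ms2Ev.num i)

theorem fd_sd {α : Type} {A : Str J α} {I : Cut} (hA : IsK A I) (k : ℕ) :
    FdSD A (fun x => A.S (num k) x) := by
  induction k using Nat.strong_induction_on with
  | _ k ih =>
    have hk : k = Nat.pair k.unpair.1 k.unpair.2 := (Nat.pair_unpair k).symm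
    have hadd := Nat.unpair_add_le k
    have hnum : (num k : J) = pr (num k.unpair.1) (num k.unpair.2) := by
      rw [← fd_num_pair, ← hk]
    have hI : ∀ n, (num n : J) ∈ I.s := I.num
    have hvoid : (∀ x, ¬ SN k x) → FdSD A (fun x => A.S (num k) x) := fun h =>
      FdSD.false.congr fun x => iff_of_false not_false (hA.void k h x)
    by_cases h0 : k.unpair.1 = 0
    · by_cases h7 : k.unpair.2 < 7
      · refine (FdSD.base k.unpair.2).congr fun x => ?_
        rw [hnum, h0]
        exact (hA.tarski.base _ h7 (I.closed.cb _) x).symm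
      · apply hvoid
        intro x
        rw [SN, dif_pos h0]
        obtain ⟨n, hn⟩ : ∃ n, k.unpair.2 = n + 7 := ⟨k.unpair.2 - 7, by omega⟩
        rw [hn]
        exact fun h => h
    by_cases h1 : k.unpair.1 = 1
    · have hlt : k.unpair.2 < k := by omega
      refine ((ih _ hlt).not).congr fun x => ?_
      rw [hnum, h1]
      exact (hA.tarski.neg _ (I.closed.cn (hI _)) x).symm
    by_cases h2 : k.unpair.1 = 2
    · have hlt : k.unpair.2 < k := by omega
      have ha := Nat.unpair_left_le k.unpair.2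
      have hb := Nat.unpair_right_le k.unpair.2
      refine ((ih k.unpair.2.unpair.1 (by omega)).and (ih k.unpair.2.unpair.2 (by omega))).congr
        fun x => ?_
      have hnum2 : (num k.unpair.2 : J) = pr (num k.unpair.2.unpair.1) (num k.unpair.2.unpair.2) := by
        rw [← fd_num_pair, Nat.pair_unpair]
      rw [hnum, h2, hnum2]
      exact (hA.tarski.and _ _ (I.closed.ca (hI _) (hI _)) x).symm
    by_cases h3 : k.unpair.1 = 3
    · have hlt : k.unpair.2 < k := by omega
      refine ((ih _ hlt).ex).congr fun x => ?_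
      rw [hnum, h3]
      exact (hA.tarski.ex _ (I.closed.ce (hI _)) x).symm
    by_cases h4 : k.unpair.1 = 4
    · have hlt : k.unpair.2 < k := by omega
      have ha := Nat.unpair_left_le k.unpair.2
      have hb := Nat.unpair_right_le k.unpair.2
      by_cases h7 : k.unpair.2.unpair.1 < 7
      · refine ((ih k.unpair.2.unpair.2 (by omega)).fn k.unpair.2.unpair.1).congr fun x => ?_
        have hnum2 : (num k.unpair.2 : J) =
            pr (num k.unpair.2.unpair.1) (num k.unpair.2.unpair.2) := by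
          rw [← fd_num_pair, Nat.pair_unpair]
        rw [hnum, h4, hnum2]
        exact (hA.tarski.fn _ h7 _ (I.closed.cf _ (hI _)) x).symm
      · apply hvoid
        intro x
        rw [SN, dif_neg h0, dif_neg h1, dif_neg h2, dif_neg h3, dif_pos h4]
        exact fun h => h7 h.1
    by_cases h5 : k.unpair.1 = 5
    · have hlt : k.unpair.2 < k := by omega
      have hor := FdSD.bigOr (A := A) (Q := fun i x => A.fst x = A.nm i ∧ A.S (num i) (A.snd x))
        (k.unpair.2 + 1) (fun i hi => (FdSD.fst_nm i).and ((ih i (by omega)).fn 1))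
      refine hor.congr fun x => ?_
      rw [hnum, h5]
      refine Iff.trans ?_ (hA.tarski.sat _ (I.closed.c5 (hI k.unpair.2)) x).symm
      constructor
      · rintro ⟨i, hi, h6, h7⟩
        refine ⟨num i, ?_, by rw [hA.j_num]; exact h6, h7⟩
        exact (Ms2Ev.num i).le (Ms2Ev.num k.unpair.2) fun _ => by omega
      · rintro ⟨c, hc, h6, h7⟩
        obtain ⟨i, hi, rfl⟩ := fd_num_le hc
        exact ⟨i, by omega, by rw [h6, hA.j_num], h7⟩
    · apply hvoid
      intro x
      rw [SN, dif_neg h0, dif_neg h1, dif_neg h2, dif_neg h3, dif_neg h4, dif_neg h5]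
      exact fun h => h

/-- every set with a standard code is definable in the language of arithmetic -/
theorem def_of_code {α : Type} {A : Str J α} {I : Cut} (hA : IsK A I) (k : ℕ) (p : α) :
    IsDef A.red {x | A.S (num k) (A.pair x p)} := by
  obtain ⟨R, h1, h2⟩ := fd_sd hA k
  have h3 : UD (fun C α A ρ e => R C α A ρ (A.pair (e 0) (e 1))) :=
    UD.rel1 (R := R) h1 (TD.pair (TD.var 0) (TD.var 1))
  obtain ⟨φ, hφ⟩ := h3
  refine ⟨φ.toFm (fun i => if i = 0 then 0 else 1) 2, fun _ => p, fun x => ?_⟩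
  rw [Fo.sat_toFm hA (fun _ => num 0) φ _ 2 (fun i => by split_ifs <;> omega)]
  have hnp : A.nos.Pairing := ⟨hA.pairing.fst_pair, hA.pairing.snd_pair, hA.pairing.eta⟩
  have key : (fun i => Function.update (fun _ => p) 0 x (if i = 0 then 0 else 1)) =
      fun i => if i = 0 then x else p := by
    funext i
    by_cases hi : i = 0 <;> simp [hi]
  rw [key, hφ J α A.nos hnp]
  exact (h2 (A.pair x p)).symm

/-- every set which is definable in the language of arithmetic has a standard code -/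
theorem code_of_def {α : Type} {A : Str J α} {I : Cut} (hA : IsK A I) {X : Set α}
    (h : IsDef A.red X) : ∃ (k : ℕ) (p : α), ∀ x, x ∈ X ↔ A.S (num k) (A.pair x p) := by
  obtain ⟨φ, v, hv⟩ := h
  refine ⟨φ.fo.code (fun _ => 0), A.st φ.fo.bd (fun i => v (i + 1)) A.zero, fun x => ?_⟩
  have h1 : (num (φ.fo.code (fun _ => 0)) : J) = φ.fo.code (fun _ => num 0) :=
    (Ms2Ev.num _).unique (Ms2Ev.code φ.fo (P := fun _ _ => 0) fun _ => Ms2Ev.num 0)
  rw [hv x, h1, ← Fm.sat_fo A (fun _ => num 0) φ,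
    ← hA.tarski.rep hA.pairing I.closed (fun _ => I.num 0) φ.fo (Nat.le_succ φ.fo.bd)
      (Function.update v 0 x) A.zero]
  have h2 : A.st (φ.fo.bd + 1) (Function.update v 0 x) A.zero =
      A.pair x (A.st φ.fo.bd (fun i => v (i + 1)) A.zero) := by
    show A.pair (Function.update v 0 x 0)
      (A.st φ.fo.bd (fun i => Function.update v 0 x (i + 1)) A.zero) = _
    have h3 : (fun i => Function.update v 0 x (i + 1)) = fun i => v (i + 1) := by
      funext i
      simp
    rw [h3, Function.update_self]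
  rw [h2]

theorem fd_UDfm (φ : Fm) : UD (fun _ _ A _ e => φ.Sat A.red e) :=
  ⟨φ.fo, fun _ _ A _ ρ e => Fm.sat_fo A ρ φ e⟩

theorem fd_basic (φ : Fm) (hφ : φ ∈ basicAxioms) (e : ℕ → ℕ) : φ.Sat NN.red e := by
  have hadd : ∀ a b : ℕ, NN.red.add a b = a + b := fun _ _ => rfl
  have hmul : ∀ a b : ℕ, NN.red.mul a b = a * b := fun _ _ => rfl
  have hzero : NN.red.zero = 0 := rfl
  have hone : NN.red.one = 1 := rfl
  have hlt : ∀ a b : ℕ, NN.red.lt a b ↔ a < b := fun _ _ => Iff.rfl
  simp only [basicAxioms, List.mem_cons, List.not_mem_nil, or_false] at hφ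
  rcases hφ with rfl | rfl | rfl | rfl | rfl | rfl | rfl | rfl <;>
    simp only [Fm.sat_neg, Fm.sat_ex, Fm.Sat, Tm.val, hadd, hmul, hzero, hone, hlt,
      Function.update_self, ne_eq, OfNat.ofNat_ne_zero, OfNat.one_ne_ofNat, zero_ne_one,
      not_false_eq_true, Function.update_of_ne, OfNat.zero_ne_ofNat]
  · omega
  · omega
  · omega
  · omega
  · omega
  · ring
  · intro h
    exact ⟨e 1 - e 0 - 1, by omega⟩
  · omega

/-- Peano arithmetic -/
theorem isPA_of_isK {α : Type} {A : Str J α} {I : Cut} (hA : IsK A I) : IsPA A.red := by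
  refine ⟨fun φ hφ v => ?_, fun φ k v h0 hs x => ?_⟩
  · exact transfer hA (fd_UDfm φ) (fun _ => 0) (fd_basic φ hφ) v
  · have hUD : UD (fun C α A ρ e =>
        φ.Sat A.red (Function.update (fun n => e (n + 1)) k (e 0))) := by
      refine ((fd_UDfm φ).ren (fun i => if i = k then 0 else i + 1)).congr
        fun C α A _ ρ e => ?_
      have : (fun n => e (if n = k then 0 else n + 1)) =
          Function.update (fun n => e (n + 1)) k (e 0) := by
        funext i
        by_cases h : i = k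
        · subst h; simp
        · simp [h]
      rw [this]
    exact hA.induct (R := fun C α A ρ x e => φ.Sat A.red (Function.update e k x)) hUD
      (ρ := fun _ => num 0) (fun _ => I.num 0) v h0 hs x

end Pool.Agent.Helper4.KSq
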