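import Pool.Agent.Helper4.KSq.KDefs

set_option autoImplicit false

/-!
# Fodor's lemma
-/

namespace Pool.Agent.Helper4.KSq

open Cardinal Order Set

/-- `s` is stationary in `κ` -/
def IsStat (κ : Cardinal.{0}) (s : Set Ordinal.{0}) : Prop :=
  ∀ D, IsClubIn D κ.ord → ∃ a ∈ D, a ∈ s

theorem sup_lt_aux {κ : Cardinal.{0}} (hκ : κ.IsRegular) {x : Ordinal.{0}} (hx : x < κ.ord)
    (f : Ordinal.{0} → Ordinal.{0}) (hf : ∀ b < x, f b < κ.ord) :
    ⨆ b : Set.Iio x, f b.1 < κ.ord := by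
  apply Ordinal.lift_iSup_lt_of_lt_cof
  · rw [Cardinal.lift_id'.{0,1}, Cardinal.mk_Iio_ordinal]
    rw [← Ordinal.lift_cof, Cardinal.lift_lt, hκ.cof_ord]
    exact Cardinal.lt_ord.1 hx
  · intro i
    exact hf i.1 i.2

/-- diagonal intersection of clubs -/
theorem club_diag {κ : Cardinal.{0}} (hκ : κ.IsRegular) (hu : ℵ₀ < κ)
    (D : Ordinal.{0} → Set Ordinal.{0}) (hD : ∀ b < κ.ord, IsClubIn (D b) κ.ord) :
    IsClubIn {a | a < κ.ord ∧ ∀ b < a, a ∈ D b} κ.ord := by
  have hlim : IsSuccLimit κ.ord := Cardinal.isSuccLimit_ord hκ.aleph0_le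
  have hsucc : ∀ x < κ.ord, succ x < κ.ord := fun x hx => hlim.succ_lt hx
  refine ⟨fun a ha => ha.1, ?_, ?_⟩
  · intro b0 hb0
    classical
    -- the next element
    have hnext : ∀ b x : Ordinal.{0}, ∃ c, b < κ.ord → x < κ.ord → c ∈ D b ∧ x ≤ c := by
      intro b x
      by_cases h : b < κ.ord ∧ x < κ.ord
      · obtain ⟨c, hc, hxc⟩ := (hD b h.1).2.1 x h.2
        exact ⟨c, fun _ _ => ⟨hc, hxc⟩⟩
      · exact ⟨0, fun h1 h2 => (h ⟨h1, h2⟩).elim⟩
    choose nx hnx using hnext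
    let f : Ordinal.{0} → Ordinal.{0} := fun x =>
      max (succ x) (succ (⨆ b : Set.Iio (succ x), nx b.1 x))
    have hf : ∀ x < κ.ord, f x < κ.ord := by
      intro x hx
      refine max_lt (hsucc x hx) (hsucc _ ?_)
      refine sup_lt_aux hκ (hsucc x hx) (fun b => nx b x) ?_
      intro b hb
      exact (hD b (hb.trans (hsucc x hx))).1 (hnx b x (hb.trans (hsucc x hx)) hx).1
    have hit : ∀ n, f^[n] b0 < κ.ord := by
      intro n
      induction n with
      | zero => exact hb0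
      | succ n ih => rw [Function.iterate_succ_apply']; exact hf _ ih
    have hlt : ∀ n, f^[n] b0 < f^[n+1] b0 := by
      intro n
      rw [Function.iterate_succ_apply']
      exact (lt_succ _).trans_le (le_max_left _ _)
    have hmono : StrictMono (fun n => f^[n] b0) := strictMono_nat_of_lt_succ hlt
    have hA : Ordinal.nfp f b0 < κ.ord :=
      Ordinal.nfp_lt_ord (by rw [hκ.cof_ord]; exact hu) hf hb0
    refine ⟨Ordinal.nfp f b0, ⟨hA, ?_⟩, Ordinal.le_nfp f b0⟩
    intro c hc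
    apply (hD c (hc.trans hA)).2.2 _ hA
    refine ⟨(zero_le).trans_lt hc, ?_⟩
    intro y hy
    obtain ⟨n, hn⟩ := Ordinal.lt_nfp_iff.1 (max_lt hc hy)
    have hcn : c < f^[n] b0 := (le_max_left _ _).trans_lt hn
    have hyn : y < f^[n] b0 := (le_max_right _ _).trans_lt hn
    have h1 := hnx c (f^[n] b0) (hc.trans hA) (hit n)
    refine ⟨nx c (f^[n] b0), h1.1, hyn.trans_le h1.2, ?_⟩
    have h2 : nx c (f^[n] b0) < f^[n+1] b0 := by
      rw [Function.iterate_succ_apply']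
      refine lt_of_lt_of_le ?_ (le_max_right _ _)
      refine lt_of_le_of_lt ?_ (lt_succ _)
      exact Ordinal.le_iSup (fun b : Set.Iio (succ (f^[n] b0)) => nx b.1 (f^[n] b0))
        ⟨c, hcn.trans (lt_succ _)⟩
    exact h2.trans_le (Ordinal.iterate_le_nfp f b0 (n+1))
  · intro b hb hacc
    refine ⟨hb, fun c hc => ?_⟩
    apply (hD c (hc.trans hb)).2.2 b hb
    refine ⟨hacc.1, fun y hy => ?_⟩
    obtain ⟨d, hd, h1, h2⟩ := hacc.2 (max y c) (max_lt hy hc)
    exact ⟨d, hd.2 c ((le_max_right _ _).trans_lt h1), (le_max_left _ _).trans_lt h1, h2⟩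

theorem club_inter {κ : Cardinal.{0}} (hκ : κ.IsRegular) (hu : ℵ₀ < κ)
    {D D' : Set Ordinal.{0}} (hD : IsClubIn D κ.ord) (hD' : IsClubIn D' κ.ord) :
    IsClubIn (D ∩ D') κ.ord := by
  classical
  refine ⟨fun a ha => hD.1 ha.1, ?_, ?_⟩
  · intro b hb
    have h := club_diag hκ hu (fun x => if x = 0 then D else D') (by
      intro x _
      by_cases h0 : x = 0
      · simpa [h0] using hD
      · simpa [h0] using hD')
    have hω : (Ordinal.omega0 : Ordinal.{0}) < κ.ord := by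
      rw [Cardinal.lt_ord, Ordinal.card_omega0]
      exact hu
    have h2 : (2 : Ordinal.{0}) < κ.ord := (Ordinal.natCast_lt_omega0 2).trans hω
    obtain ⟨c, hc, hbc⟩ := h.2.1 (max b 2) (max_lt hb h2)
    have hc2 : (2 : Ordinal.{0}) ≤ c := (le_max_right _ _).trans hbc
    have hc0 := hc.2 0 (lt_of_lt_of_le (by norm_num) hc2)
    have hc1 := hc.2 1 (lt_of_lt_of_le (by norm_num) hc2)
    simp only [if_true] at hc0
    rw [if_neg one_ne_zero] at hc1
    exact ⟨c, ⟨hc0, hc1⟩, (le_max_left _ _).trans hbc⟩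
  · intro b hb hacc
    refine ⟨hD.2.2 b hb ⟨hacc.1, fun y hy => ?_⟩, hD'.2.2 b hb ⟨hacc.1, fun y hy => ?_⟩⟩
    · obtain ⟨d, hd, h1, h2⟩ := hacc.2 y hy
      exact ⟨d, hd.1, h1, h2⟩
    · obtain ⟨d, hd, h1, h2⟩ := hacc.2 y hy
      exact ⟨d, hd.2, h1, h2⟩

/-- the limit ordinals above a given ordinal form a club -/
theorem club_lim {κ : Cardinal.{0}} (hκ : κ.IsRegular) (hu : ℵ₀ < κ) {b : Ordinal.{0}}
    (hb : b < κ.ord) : IsClubIn {a | a < κ.ord ∧ b < a ∧ IsSuccLimit a} κ.ord := by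
  have hlim : IsSuccLimit κ.ord := Cardinal.isSuccLimit_ord hκ.aleph0_le
  have hsucc : ∀ x < κ.ord, succ x < κ.ord := fun x hx => hlim.succ_lt hx
  have hlimit : ∀ x : Ordinal.{0}, 0 < x → (∀ y < x, succ y < x) → IsSuccLimit x := by
    intro x h0 h
    rw [isSuccLimit_iff]
    refine ⟨fun hm => ?_, ?_⟩
    · exact absurd (hm h0.le) (not_le.2 h0)
    · intro y hy
      have := h y hy.lt
      exact (hy.2 (lt_succ y) this).elim
  refine ⟨fun a ha => ha.1, ?_, ?_⟩
  · intro c hc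
    have hm : max b c < κ.ord := max_lt hb hc
    have hA : Ordinal.nfp succ (max b c) < κ.ord :=
      Ordinal.nfp_lt_ord (by rw [hκ.cof_ord]; exact hu) hsucc hm
    have hst : ∀ y < Ordinal.nfp succ (max b c), succ y < Ordinal.nfp succ (max b c) := by
      intro y hy
      obtain ⟨n, hn⟩ := Ordinal.lt_nfp_iff.1 hy
      rw [Ordinal.lt_nfp_iff]
      refine ⟨n+1, ?_⟩
      rw [Function.iterate_succ_apply']
      exact succ_lt_succ hn
    have hbl : max b c < Ordinal.nfp succ (max b c) := by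
      rw [Ordinal.lt_nfp_iff]
      exact ⟨1, lt_succ _⟩
    refine ⟨Ordinal.nfp succ (max b c), ⟨hA, (le_max_left _ _).trans_lt hbl, ?_⟩,
      ((le_max_right _ _).trans_lt hbl).le⟩
    exact hlimit _ ((zero_le).trans_lt hbl) hst
  · intro x hx hacc
    refine ⟨hx, ?_, ?_⟩
    · obtain ⟨d, hd, h1, h2⟩ := hacc.2 0 hacc.1
      exact hd.2.1.trans h2
    · apply hlimit _ hacc.1
      intro y hy
      obtain ⟨d, hd, h1, h2⟩ := hacc.2 y hy
      exact (succ_le_of_lt h1).trans_lt h2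

/-- Fodor's lemma: a regressive function on a stationary set is constant on a stationary set -/
theorem fodor {κ : Cardinal.{0}} (hκ : κ.IsRegular) (hu : ℵ₀ < κ) {s : Set Ordinal.{0}}
    (hs : IsStat κ s) (f : Ordinal.{0} → Ordinal.{0}) (hf : ∀ a ∈ s, f a < a) :
    ∃ b, IsStat κ {a | a ∈ s ∧ f a = b} := by
  by_contra hcon
  push Not at hcon
  have h : ∀ b, ∃ D, IsClubIn D κ.ord ∧ ∀ a ∈ D, a ∈ s → f a ≠ b := by
    intro b
    have := hcon b
    unfold IsStat at this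
    push Not at this
    obtain ⟨D, hD, h⟩ := this
    exact ⟨D, hD, fun a ha hs' hfa => h a ha ⟨hs', hfa⟩⟩
  choose D hD hno using h
  obtain ⟨a, ha, has⟩ := hs _ (club_diag hκ hu D (fun b _ => hD b))
  exact hno (f a) a (ha.2 (f a) (hf a has)) has rfl

end Pool.Agent.Helper4.KSq
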