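import Pool.Agent.Helper4.KSq.PS

set_option autoImplicit false

/-!
# The tower of structures: definitions
-/

namespace Pool.Agent.Helper4.KSq

open Filter Cod Cardinal

/-- the cuts and levels -/
structure Levels where
  I : ℕ → Cut
  e0 : J
  e0_nmem : e0 ∉ (I 0).s
  anti : ∀ n, I (n + 1) ≤ I n
  inter : ∀ a : J, (∀ n, a ∈ (I n).s) → ∃ k, a = num k
  nonst : ∀ n, ∃ a ∈ (I n).s, NonSt a
  lU : J
  lU_mem : lU ∈ (I 0).s
  lU_nmem : lU ∉ (I 1).s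
  lv : ℕ → ℕ → J
  lv_mem : ∀ h k, lv h k ∈ (I h).s
  lv_nmem : ∀ h k, lv h k ∉ (I (h + 1)).s
  lv_mono : ∀ h k, lv h k ≤ lv h (k + 1)
  lv_cof : ∀ h, ∀ a ∈ (I h).s, ∃ k, a ≤ lv h k
  lv_app : ∀ h k, appC (lv h k) ≤ lv h (k + 1)

/-- the index structure of the tower: `L` consists of the limit nodes (including the least element
`bot`), `S` of the service nodes; the remaining nodes are the unconstrained successor nodes -/
structure Idx (ι : Type) [LinearOrder ι] where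
  L : Set ι
  S : Set ι
  bot : ι
  /-- the immediate predecessor of a successor node -/
  pv : ι → ι
  /-- the immediate successor of a node in `L ∪ S` -/
  sc : ι → ι
  /-- the node which precedes the service node `c` in its chains -/
  pd : ι → ι
  /-- the limit node at the root of the chain of a service node -/
  rt : ι → ι
  /-- the number of a service node in its chain -/
  kk : ι → ℕ
  h : ι → ℕ
  /-- the `C`-sequence -/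
  Cs : ι → Set ι
  disj : ∀ i ∈ S, i ∉ L
  bot_mem : bot ∈ L
  bot_le : ∀ i, bot ≤ i
  pv_lt : ∀ i, i ∉ L → pv i < i
  le_pv : ∀ i, i ∉ L → ∀ j < i, j ≤ pv i
  lim : ∀ i ∈ L, ∀ j < i, ∃ j' < i, j < j'
  sc_L : ∀ i, i ∈ L ∨ i ∈ S → sc i ∉ L
  sc_S : ∀ i, i ∈ L ∨ i ∈ S → sc i ∉ S
  pv_sc : ∀ i, i ∈ L ∨ i ∈ S → pv (sc i) = i
  pd_LS : ∀ c ∈ S, pd c ∈ L ∨ pd c ∈ S
  sc_pd : ∀ c ∈ S, sc (pd c) < c
  rt_L : ∀ c ∈ S, pd c ∈ L → rt c = pd c ∧ kk c = 0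
  rt_S : ∀ c ∈ S, pd c ∈ S → rt c = rt (pd c) ∧ kk c = kk (pd c) + 1
  h_pos : ∀ c ∈ S, 1 ≤ h c
  h_pd : ∀ c ∈ S, pd c ≠ bot → h (pd c) = h c
  hL_pos : ∀ t ∈ L, t ≠ bot → 1 ≤ h t
  C_lt : ∀ t ∈ L, t ≠ bot → ∀ c ∈ Cs t, c < t ∧ (c ∈ L ∨ c ∈ S)
  C_S : ∀ t ∈ L, t ≠ bot → ∀ c ∈ Cs t, c ∈ S →
    h c = h t ∧ pd c ∈ Cs t ∧ ∀ x ∈ Cs t, x < c → x ≤ pd c
  C_L : ∀ t ∈ L, t ≠ bot → ∀ c ∈ Cs t, c ∈ L → c ≠ bot → h c = h t ∧ Cs c = Cs t ∩ Set.Iio c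
  C_cof : ∀ t ∈ L, t ≠ bot → ∀ i < t, ∀ k : ℕ, ∃ c ∈ Cs t, c ∈ S ∧ i < c ∧ k ≤ kk c

/-- the index structure is large (with respect to the cardinal `κ`) -/
structure Idx.Large {ι : Type} [LinearOrder ι] (X : Idx ι) (κ : Cardinal.{0}) : Prop where
  wf : WellFoundedLT ι
  card : #ι = κ
  small : ∀ i : ι, #(Set.Iio i) < κ
  cof : ∀ s : Set ι, #s < κ → ∃ i, ∀ x ∈ s, x < i
  fodor : ∀ n, 1 ≤ n → ∀ r : ι → ι, (∀ t ∈ X.L, t ≠ X.bot → X.h t = n → r t < t) →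
    ∃ b, ∀ i, ∃ t ∈ X.L, i < t ∧ X.h t = n ∧ r t ≤ b

section limits

variable {ι Ω : Type} [LinearOrder ι]

/-- `M` is the limit of the structures `N i`, `i ∈ s`; for the code `c`, the satisfaction relation
is computed in the structures `N i` with `i ∈ good c` -/
structure IsLim (N : ι → PS Ω) (s : Set ι) (good : J → Set ι) (M : PS Ω) : Prop where
  U : M.U = ⋃ i ∈ s, (N i).U
  emb : ∀ i ∈ s, PS.EE (N i) M
  S : ∀ c, ∀ x ∈ M.U, (M.S c x ↔ ∃ i ∈ good c, x ∈ (N i).U ∧ (N i).S c x)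

end limits

/-- the data for the construction of the tower -/
structure Setup (Ω ι : Type) [LinearOrder ι] where
  V : Levels
  X : Idx ι
  κ : Cardinal.{0}
  reg : κ.IsRegular
  unc : ℵ₀ < κ
  cardΩ : #Ω = κ
  large : X.Large κ
  /-- a copy of `J` -/
  P0 : PS Ω
  P0_isK : IsK P0.sub (V.I 0)
  P0_card : #P0.U ≤ ℵ₀
  P0_U : P0.U = Set.range P0.j

namespace Setup

variable {Ω ι : Type} [LinearOrder ι] (Z : Setup Ω ι)

/-- the cut `K` -/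
abbrev K : Cut := Z.V.I 0

/-- the nodes of `C_t` which are used for the satisfaction relation with code `c` -/
def good (t : ι) (c : J) : Set ι :=
  {i | i ∈ Z.X.Cs t ∧ i ∈ Z.X.S ∧ c ≤ Z.V.lv (Z.X.h t) (Z.X.kk i)}

/-- the structure `M_t` -/
noncomputable def Ml (N : ι → Nd Ω) (t : ι) : PS Ω :=
  @Classical.epsilon (PS Ω) ⟨Z.P0⟩ (IsLim (fun i => (N i).ps) (Set.Iio t) (Z.good t))

open Classical in
/-- the structure of which `N i` is an extension -/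
noncomputable def bs (N : ι → Nd Ω) (i : ι) : PS Ω :=
  if i = Z.X.bot then Z.P0 else if i ∈ Z.X.L then Z.Ml N i else (N (Z.X.pv i)).ps

open Classical in
/-- the length of `bs N i` -/
noncomputable def bI (i : ι) : Cut :=
  if i = Z.X.bot then Z.K else if i ∈ Z.X.L then Z.V.I (Z.X.h i) else Z.K

end Setup

section specs

variable {Ω : Type}

/-- a pair of constraints -/
def PS.qq (P : PS Ω) (l1 u1 b1 l2 u2 b2 : Ω) : Ω :=
  P.pair l1 (P.pair u1 (P.pair b1 (P.pair l2 (P.pair u2 b2))))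

/-- there are approximations -/
def PS.app (P : PS Ω) (l : J) (q d : Ω) : Prop := P.S (appC l) (P.pair (P.j l) (P.pair q d))

/-- `b` is the greatest number `≤ m` such that there are approximations with the constraint
`(l1, u1, b)` -/
def PS.G1 (P : PS Ω) (l : J) (l1 u1 d m b : Ω) : Prop :=
  P.le b m ∧ P.app l (P.qq l1 u1 b P.zero P.zero P.zero) d ∧
    ∀ b' ∈ P.U, P.le b' m → P.app l (P.qq l1 u1 b' P.zero P.zero P.zero) d → P.le b' b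

/-- `b` is the greatest number `≤ m` such that there are approximations with the constraints
`(l1, u1, b1)` and `(l2, u2, b)` -/
def PS.G2 (P : PS Ω) (l : J) (l1 u1 b1 l2 u2 d m b : Ω) : Prop :=
  P.le b m ∧ P.app l (P.qq l1 u1 b1 l2 u2 b) d ∧
    ∀ b' ∈ P.U, P.le b' m → P.app l (P.qq l1 u1 b1 l2 u2 b') d → P.le b' b

end specs

namespace Setup

variable {Ω ι : Type} [LinearOrder ι] (Z : Setup Ω ι)

/-- specification of a service node whose chain has length one -/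
def SpecS0 (N : ι → Nd Ω) (c : ι) : Prop :=
  PS.CohI (Z.V.I (N c).n) (N (Z.X.pd c)).ps (N (Z.X.pv c)).ps ∧
  ∃ b1 ∈ (N (Z.X.pd c)).ps.U, ∃ l1 : J, l1 = Z.V.lv (Z.X.h c) 1 ∧
    (N c).q = (N (Z.X.pd c)).ps.qq (Z.P0.j l1) ((N (Z.X.pd c)).can l1) b1
      Z.P0.zero Z.P0.zero Z.P0.zero ∧
    (∀ a ∈ (Z.bs N (Z.X.pd c)).U, (N (Z.X.pd c)).ps.lt a b1) ∧
    (N (Z.X.pv c)).ps.G1 (N c).l (Z.P0.j l1) ((N (Z.X.pd c)).can l1) (Z.P0.j (N c).d)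
      (N (Z.X.pd c)).m b1

/-- specification of a service node whose chain has length greater than one -/
def SpecS1 (N : ι → Nd Ω) (c : ι) : Prop :=
  PS.CohI (Z.V.I (N c).n) (N (Z.X.sc (Z.X.pd c))).ps (N (Z.X.pv c)).ps ∧
  ∃ b1 ∈ (N (Z.X.rt c)).ps.U, ∃ b2 ∈ (N (Z.X.sc (Z.X.pd c))).ps.U, ∃ l1 l2 : J,
    l1 = Z.V.lv (Z.X.h c) (Z.X.kk c + 1) ∧ l2 = Z.V.lv (Z.X.h c) (Z.X.kk (Z.X.pd c)) ∧
    (N c).q = (N (Z.X.sc (Z.X.pd c))).ps.qq (Z.P0.j l1) ((N (Z.X.rt c)).can l1) b1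
      (Z.P0.j l2) ((N (Z.X.sc (Z.X.pd c))).can l2) b2 ∧
    (∀ a ∈ (Z.bs N (Z.X.rt c)).U, (N (Z.X.rt c)).ps.lt a b1) ∧
    (N (Z.X.pd c)).ps.G1 l2 (Z.P0.j l1) ((N (Z.X.rt c)).can l1) (Z.P0.j (N c).d)
      (N (Z.X.rt c)).m b1 ∧
    (∀ a ∈ (N (Z.X.pd c)).ps.U, (N (Z.X.sc (Z.X.pd c))).ps.lt a b2) ∧
    (N (Z.X.pv c)).ps.G2 (N c).l (Z.P0.j l1) ((N (Z.X.rt c)).can l1) b1 (Z.P0.j l2)
      ((N (Z.X.sc (Z.X.pd c))).can l2) (Z.P0.j (N c).d) (N (Z.X.sc (Z.X.pd c))).m b2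

/-- specification of the node `i` of the tower -/
structure Spec (N : ι → Nd Ω) (i : ι) : Prop where
  ext : PExt (Z.bs N i) (Z.bI i) Z.K (N i)
  q_mem : (N i).q ∈ (Z.bs N i).U
  card : #(N i).ps.U < Z.κ
  nonst : NonSt (N i).l
  d_gt : ∀ k ∈ Z.K.s, k < (N i).d
  l_bot : i = Z.X.bot → (N i).l = Z.V.lU
  l_lim : i ∈ Z.X.L → i ≠ Z.X.bot → (N i).l = Z.V.lv (Z.X.h i) 0
  l_U : i ∉ Z.X.L → i ∉ Z.X.S → (N i).l = Z.V.lU
  l_S : i ∈ Z.X.S → Z.X.h i + 1 ≤ (N i).n ∧ (N i).l ∈ (Z.V.I (N i).n).s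
  q_zero : i ∉ Z.X.S → (N i).q = Z.P0.zero
  s0 : i ∈ Z.X.S → Z.X.pd i ∈ Z.X.L → Z.SpecS0 N i
  s1 : i ∈ Z.X.S → Z.X.pd i ∈ Z.X.S → Z.SpecS1 N i

end Setup

end Pool.Agent.Helper4.KSq
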