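import Pool.Agent.Helper4.KSq.SqData
import Pool.Agent.Helper4.KSq.TowerDefs

set_option autoImplicit false

/-!
# The index structure
-/

namespace Pool.Agent.Helper4.KSq

open Cardinal Order Set

namespace IB

/-- accumulation points in an arbitrary linear order -/
def Acc {W : Type} [LinearOrder W] (S : Set W) (b : W) : Prop :=
  (∃ x, x < b) ∧ ∀ x < b, ∃ c ∈ S, x < c ∧ c < b

/-- the square data on a well-order -/
structure WSq (W : Type) [LinearOrder W] where
  z : W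
  z_le : ∀ w, z ≤ w
  s : W → W
  lt_s : ∀ w, w < s w
  s_le : ∀ w v, w < v → s w ≤ v
  lim : Set W
  lim_lt : ∀ w ∈ lim, ∀ v < w, s v < w
  cases : ∀ w, w = z ∨ (∃ v, w = s v) ∨ w ∈ lim
  z_nlim : z ∉ lim
  C : W → Set W
  C_lt : ∀ w ∈ lim, ∀ v ∈ C w, v < w
  C_unb : ∀ w ∈ lim, ∀ v < w, ∃ c ∈ C w, v < c
  C_cl : ∀ w ∈ lim, ∀ v < w, Acc (C w) v → v ∈ C w
  acc_lim : ∀ w ∈ lim, ∀ v < w, Acc (C w) v → v ∈ lim
  C_coh : ∀ w ∈ lim, ∀ v < w, Acc (C w) v → C v = C w ∩ Iio v
  h : W → ℕ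
  h_coh : ∀ w ∈ lim, ∀ v < w, Acc (C w) v → h v = h w
  h_pos : ∀ w, 1 ≤ h w

/-- nodes -/
structure Node (W : Type) [LinearOrder W] where
  a : W
  b : W
  n : ℕ
  hb : b ≤ a

variable {W : Type} [LinearOrder W]

theorem Node.ext' {i j : Node W} (ha : i.a = j.a) (hb : i.b = j.b) (hn : i.n = j.n) : i = j := by
  cases i; cases j; simp only at ha hb hn; subst ha hb hn; rfl

/-- the position of a node -/
def Node.f (i : Node W) : W ×ₗ (W ×ₗ ℕ) := toLex (i.a, toLex (i.b, i.n))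

theorem Node.f_inj : Function.Injective (Node.f (W := W)) := by
  intro i j h
  have h1 := congrArg (fun x => (ofLex x).1) h
  have h2 := congrArg (fun x => (ofLex (ofLex x).2).1) h
  have h3 := congrArg (fun x => (ofLex (ofLex x).2).2) h
  exact Node.ext' h1 h2 h3

noncomputable instance : LinearOrder (Node W) :=
  @LinearOrder.lift' (Node W) (W ×ₗ (W ×ₗ ℕ)) _ Node.f Node.f_inj

theorem Node.lt_iff {i j : Node W} :
    i < j ↔ i.a < j.a ∨ (i.a = j.a ∧ (i.b < j.b ∨ (i.b = j.b ∧ i.n < j.n))) := by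
  have h : i < j ↔ i.f < j.f := Iff.rfl
  rw [h]
  simp only [Node.f, Prod.Lex.toLex_lt_toLex]

theorem Node.le_iff {i j : Node W} :
    i ≤ j ↔ i.a < j.a ∨ (i.a = j.a ∧ (i.b < j.b ∨ (i.b = j.b ∧ i.n ≤ j.n))) := by
  have h : i ≤ j ↔ i.f ≤ j.f := Iff.rfl
  rw [h]
  simp only [Node.f, Prod.Lex.toLex_le_toLex]

theorem Node.wf [WellFoundedLT W] : WellFoundedLT (Node W) := by
  have h : WellFounded ((· < ·) : W ×ₗ (W ×ₗ ℕ) → W ×ₗ (W ×ₗ ℕ) → Prop) := wellFounded_lt
  exact ⟨InvImage.wf Node.f h⟩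

theorem Node.le_a {i j : Node W} (h : i ≤ j) : i.a ≤ j.a := by
  rw [Node.le_iff] at h
  rcases h with h | h
  · exact h.le
  · exact h.1.le

theorem Node.lt_of_a {i j : Node W} (h : i.a < j.a) : i < j := Node.lt_iff.2 (Or.inl h)

/-- recursion along the chains -/
theorem exists_rt_kk {ι : Type} [LinearOrder ι] [WellFoundedLT ι] (L S : Set ι) (pd : ι → ι)
    (hS : ∀ c ∈ S, pd c < c) (hd : ∀ i ∈ S, i ∉ L) :
    ∃ (rt : ι → ι) (kk : ι → ℕ), (∀ c ∈ S, pd c ∈ L → rt c = pd c ∧ kk c = 0) ∧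
      ∀ c ∈ S, pd c ∈ S → rt c = rt (pd c) ∧ kk c = kk (pd c) + 1 := by
  classical
  have hw : WellFounded ((· < ·) : ι → ι → Prop) := wellFounded_lt
  let F : ∀ c : ι, (∀ y, y < c → ι × ℕ) → ι × ℕ := fun c ih =>
    if h : pd c < c ∧ pd c ∈ S then ((ih (pd c) h.1).1, (ih (pd c) h.1).2 + 1) else (pd c, 0)
  let g : ι → ι × ℕ := hw.fix F
  have hg : ∀ c, g c = F c (fun y _ => g y) := fun c => hw.fix_eq F c
  refine ⟨fun c => (g c).1, fun c => (g c).2, ?_, ?_⟩
  · intro c hc hL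
    have h1 : g c = (pd c, 0) := by
      rw [hg]
      have : ¬ (pd c < c ∧ pd c ∈ S) := fun h => hd _ h.2 hL
      simp only [F, dif_neg this]
    simp only [h1, and_self]
  · intro c hc hp
    have h1 : g c = ((g (pd c)).1, (g (pd c)).2 + 1) := by
      rw [hg]
      have : (pd c < c ∧ pd c ∈ S) := ⟨hS c hc, hp⟩
      simp only [F, dif_pos this]
    constructor
    · simp only [h1]
    · simp only [h1]

namespace WSq

variable (X : WSq W)

theorem s_inj {v w : W} (h : X.s v = X.s w) : v = w := by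
  rcases lt_trichotomy v w with h1 | h1 | h1
  · have := X.s_le v w h1
    rw [h] at this
    exact absurd (X.lt_s w) (not_lt.2 this)
  · exact h1
  · have := X.s_le w v h1
    rw [← h] at this
    exact absurd (X.lt_s v) (not_lt.2 this)

theorem le_of_lt_s {v w : W} (h : v < X.s w) : v ≤ w := by
  by_contra hc
  exact absurd h (not_lt.2 (X.s_le w v (not_le.1 hc)))

theorem s_ne_z (w : W) : X.s w ≠ X.z := fun h =>
  absurd (X.lt_s w) (not_lt.2 (h ▸ X.z_le w))

theorem s_nlim (w : W) : X.s w ∉ X.lim := fun h =>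
  lt_irrefl _ (X.lim_lt _ h w (X.lt_s w))

theorem z_lt_of_lim {w : W} (h : w ∈ X.lim) : X.z < w :=
  lt_of_le_of_ne (X.z_le w) fun h1 => X.z_nlim (h1 ▸ h)

/-- maximum of the elements of `C w` below a point which is not an accumulation point -/
theorem exists_max [WellFoundedLT W] {w : W} (hw : w ∈ X.lim) {x : W} (hx : x < w)
    (hn : ¬ Acc (X.C w) x) (hne : ∃ y ∈ X.C w, y < x) :
    ∃ m ∈ X.C w, m < x ∧ ∀ y ∈ X.C w, y < x → y ≤ m := by
  classical
  have h1 : ∃ b < x, ∀ c ∈ X.C w, c < x → c ≤ b := by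
    by_contra hc
    push Not at hc
    apply hn
    obtain ⟨y, _, hy⟩ := hne
    refine ⟨⟨y, hy⟩, fun b hb => ?_⟩
    obtain ⟨c, h1, h2, h3⟩ := hc b hb
    exact ⟨c, h1, h3, h2⟩
  obtain ⟨b, hb, hb'⟩ := h1
  let T : Set W := {b | ∀ c ∈ X.C w, c < x → c ≤ b}
  have hT : T.Nonempty := ⟨b, hb'⟩
  have hwf : WellFounded ((· < ·) : W → W → Prop) := wellFounded_lt
  let m := hwf.min T hT
  have hm : m ∈ T := hwf.min_mem T hT
  have hmin : ∀ y < m, ∃ c ∈ X.C w, c < x ∧ y < c := by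
    intro y hy
    have : y ∉ T := fun h => hwf.not_lt_min T h hy
    simp only [T, Set.mem_ofPred_eq] at this
    push Not at this
    exact this
  have hmb : m ≤ b := not_lt.1 (hwf.not_lt_min T hb')
  have hmx : m < x := hmb.trans_lt hb
  refine ⟨m, ?_, hmx, hm⟩
  by_contra hc
  apply hc
  apply X.C_cl w hw m (hmx.trans hx)
  obtain ⟨y, hy, hyx⟩ := hne
  refine ⟨⟨y, lt_of_le_of_ne (hm y hy hyx) fun h => hc (h ▸ hy)⟩, fun v hv => ?_⟩
  obtain ⟨c, h1, h2, h3⟩ := hmin v hv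
  exact ⟨c, h1, h3, lt_of_le_of_ne (hm c h1 h2) fun h => hc (h ▸ h1)⟩

theorem acc_congr {S T : Set W} {b : W} (h : ∀ c < b, c ∈ S ↔ c ∈ T) : Acc S b ↔ Acc T b := by
  unfold Acc
  refine and_congr_right fun _ => forall₂_congr fun x hx => ?_
  constructor
  · rintro ⟨c, h1, h2, h3⟩
    exact ⟨c, (h c h3).1 h1, h2, h3⟩
  · rintro ⟨c, h1, h2, h3⟩
    exact ⟨c, (h c h3).2 h1, h2, h3⟩

/-- shape of the initial segments -/
theorem shape [WellFoundedLT W] {w : W} (hw : w ∈ X.lim) :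
    ∀ x ∈ X.C w, ∃ (F : Finset W) (e : Option W), (∀ y ∈ F, y ≤ x) ∧ (∀ y ∈ e, y ≤ x) ∧
      X.C w ∩ Iic x = (F : Set W) ∪ (match e with | none => ∅ | some e => X.C e) := by
  intro x
  induction x using WellFoundedLT.induction with
  | ind x ih =>
    intro hx
    have hxw := X.C_lt w hw x hx
    by_cases ha : Acc (X.C w) x
    · refine ⟨{x}, some x, by simp, by simp, ?_⟩
      ext y
      simp only [mem_inter_iff, mem_Iic, Finset.coe_singleton, mem_union, mem_singleton_iff,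
        X.C_coh w hw x hxw ha, mem_Iio]
      constructor
      · rintro ⟨h1, h2⟩
        rcases h2.lt_or_eq with h | h
        · exact Or.inr ⟨h1, h⟩
        · exact Or.inl h
      · rintro (h | h)
        · subst h
          exact ⟨hx, le_rfl⟩
        · exact ⟨h.1, h.2.le⟩
    · by_cases hne : ∃ y ∈ X.C w, y < x
      · obtain ⟨m, h1, h2, h3⟩ := X.exists_max hw hxw ha hne
        obtain ⟨F, e, hF, he, hFe⟩ := ih m h2 h1
        classical
        refine ⟨insert x F, e, ?_, fun y hy => (he y hy).trans h2.le, ?_⟩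
        · intro y hy
          rcases Finset.mem_insert.1 hy with rfl | h
          · exact le_rfl
          · exact (hF y h).trans h2.le
        · rw [Finset.coe_insert, insert_union, ← hFe]
          ext y
          simp only [mem_inter_iff, mem_Iic, mem_insert_iff]
          constructor
          · rintro ⟨h4, h5⟩
            rcases h5.lt_or_eq with h | h
            · exact Or.inr ⟨h4, h3 y h4 h⟩
            · exact Or.inl h
          · rintro (h | h)
            · subst h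
              exact ⟨hx, le_rfl⟩
            · exact ⟨h.1, h.2.trans h2.le⟩
      · refine ⟨{x}, none, by simp, by simp, ?_⟩
        ext y
        simp only [mem_inter_iff, mem_Iic, Finset.coe_singleton, mem_union, mem_singleton_iff,
          mem_empty_iff_false, or_false]
        constructor
        · rintro ⟨h1, h2⟩
          rcases h2.lt_or_eq with h | h
          · exact absurd ⟨y, h1, h⟩ hne
          · exact h
        · rintro rfl
          exact ⟨hx, le_rfl⟩

/-- the data of the service nodes in the block `x` -/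
def D (x : W) : Set (ℕ × Set W) :=
  {p | ∃ w ∈ X.lim, x ∈ X.C w ∧ ¬ Acc (X.C w) x ∧ p = (X.h w, X.C w ∩ Iic x)}

theorem mk_D [WellFoundedLT W] (x : W) : #(X.D x) ≤ #(Iic x × ℕ) := by
  classical
  let A := Iic x
  let G : ℕ × Finset A × Option A → ℕ × Set W := fun q =>
    (q.1, ((fun y : A => (y : W)) '' (q.2.1 : Set A)) ∪
      (match q.2.2 with | none => ∅ | some e => X.C (e : W)))
  have h1 : X.D x ⊆ range G := by
    rintro p ⟨w, hw, hx, _, rfl⟩
    obtain ⟨F, e, hF, he, hFe⟩ := X.shape hw x hx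
    refine ⟨(X.h w, F.subtype (fun y => y ∈ Iic x), e.attach.map fun y => ⟨y.1, he y.1 y.2⟩), ?_⟩
    simp only [G, Prod.mk.injEq, true_and]
    rw [hFe]
    congr 1
    · ext y
      constructor
      · rintro ⟨a, h1, rfl⟩
        exact Finset.mem_subtype.1 h1
      · intro h1
        exact ⟨⟨y, hF y h1⟩, Finset.mem_subtype.2 h1, rfl⟩
    · cases e with
      | none => simp
      | some e => simp
  have h2 : #(X.D x) ≤ #(ℕ × Finset A × Option A) :=
    (mk_le_mk_of_subset h1).trans mk_range_le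
  refine h2.trans ?_
  have hA : Nonempty A := ⟨⟨x, le_rfl⟩⟩
  have h3 : #(Finset A) ≤ max ℵ₀ #A :=
    (mk_le_of_surjective (f := fun l : List A => l.toFinset) fun s =>
      ⟨s.toList, by simp⟩).trans (mk_list_le_max A)
  have h4 : #(Option A) ≤ max ℵ₀ #A := by
    rw [mk_option]
    rcases le_total ℵ₀ #A with h | h
    · rw [max_eq_right h, add_one_of_aleph0_le h]
    · rw [max_eq_left h]
      exact (add_le_add h one_le_aleph0).trans (by simp)
  have h5 : #(A × ℕ) = max ℵ₀ #A := by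
    rw [mk_prod, lift_id, lift_id, mk_nat, mul_eq_max_of_aleph0_le_right (mk_ne_zero A) le_rfl,
      max_comm]
  rw [h5, mk_prod, mk_prod, lift_id, lift_id, lift_id, lift_id, mk_nat]
  have h6 : ℵ₀ ≤ max ℵ₀ #A := le_max_left _ _
  exact (mul_le_mul' h6 (mul_le_mul' h3 h4)).trans (by rw [mul_eq_self h6, mul_eq_self h6])

theorem exists_dat [WellFoundedLT W] : ∃ dat : Node W → ℕ × Set W, ∀ x, ∀ p ∈ X.D x,
    ∃ i : Node W, i.a = x ∧ i.n % 4 = 0 ∧ i.n ≠ 0 ∧ dat i = p := by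
  classical
  have h : ∀ x, Nonempty (X.D x ↪ Iic x × ℕ) := fun x => X.mk_D x
  let φ : ∀ x, X.D x ↪ Iic x × ℕ := fun x => (h x).some
  refine ⟨fun i => Function.extend (φ i.a) Subtype.val (fun _ => (0, ∅))
    (⟨i.b, i.hb⟩, i.n / 4 - 1), ?_⟩
  intro x p hp
  refine ⟨⟨x, (φ x ⟨p, hp⟩).1.1, 4 * (φ x ⟨p, hp⟩).2 + 4, (φ x ⟨p, hp⟩).1.2⟩, rfl, ?_, ?_, ?_⟩
  · simp only
    omega
  · simp only
    omega
  · simp only
    have : ((⟨(φ x ⟨p, hp⟩).1.1, (φ x ⟨p, hp⟩).1.2⟩ : Iic x),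
        (4 * (φ x ⟨p, hp⟩).2 + 4) / 4 - 1) = φ x ⟨p, hp⟩ := by
      refine Prod.ext rfl ?_
      simp only
      omega
    rw [this, (φ x).injective.extend_apply]

end WSq

namespace WSq

variable (X : WSq W) (dat : Node W → ℕ × Set W)

/-- the first node of a block -/
def fst (w : W) : Node W := ⟨w, X.z, 0, X.z_le w⟩

/-- the least node -/
def bot : Node W := X.fst X.z

theorem bot_le (i : Node W) : X.bot ≤ i := by
  rw [Node.le_iff]
  rcases (X.z_le i.a).lt_or_eq with h | h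
  · exact Or.inl h
  · refine Or.inr ⟨h, ?_⟩
    rcases (X.z_le i.b).lt_or_eq with h' | h'
    · exact Or.inl h'
    · exact Or.inr ⟨h', Nat.zero_le _⟩

theorem fst_le {w : W} {i : Node W} (h : w ≤ i.a) : X.fst w ≤ i := by
  rw [Node.le_iff]
  rcases h.lt_or_eq with h | h
  · exact Or.inl h
  · refine Or.inr ⟨h, ?_⟩
    rcases (X.z_le i.b).lt_or_eq with h' | h'
    · exact Or.inl h'
    · exact Or.inr ⟨h', Nat.zero_le _⟩

theorem lt_fst {w : W} {i : Node W} : i < X.fst w ↔ i.a < w := by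
  constructor
  · intro h
    by_contra hc
    exact absurd h (not_lt.2 (X.fst_le (not_lt.1 hc)))
  · exact fun h => Node.lt_of_a h

theorem fst_ne_bot {w : W} (h : w ≠ X.z) : X.fst w ≠ X.bot := fun h' =>
  h (congrArg Node.a h')

open Classical in
/-- the node with a given datum -/
noncomputable def nodeOf (x : W) (p : ℕ × Set W) : Node W :=
  if h : ∃ i : Node W, i.a = x ∧ i.n % 4 = 0 ∧ i.n ≠ 0 ∧ dat i = p then h.choose
  else ⟨x, X.z, 4, X.z_le x⟩

theorem nodeOf_a (x : W) (p : ℕ × Set W) : (X.nodeOf dat x p).a = x := by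
  unfold nodeOf
  split
  · next h => exact h.choose_spec.1
  · rfl

theorem nodeOf_n4 (x : W) (p : ℕ × Set W) : (X.nodeOf dat x p).n % 4 = 0 := by
  unfold nodeOf
  split
  · next h => exact h.choose_spec.2.1
  · simp

theorem nodeOf_n0 (x : W) (p : ℕ × Set W) : (X.nodeOf dat x p).n ≠ 0 := by
  unfold nodeOf
  split
  · next h => exact h.choose_spec.2.2.1
  · simp

theorem dat_nodeOf {x : W} {p : ℕ × Set W}
    (h : ∃ i : Node W, i.a = x ∧ i.n % 4 = 0 ∧ i.n ≠ 0 ∧ dat i = p) :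
    dat (X.nodeOf dat x p) = p := by
  unfold nodeOf
  rw [dif_pos h]
  exact h.choose_spec.2.2.2

/-- the service node of `x ∈ C w` -/
noncomputable def nu (w x : W) : Node W := X.nodeOf dat x (X.h w, X.C w ∩ Iic x)

open Classical in
/-- the predecessor of a service node with a given datum -/
noncomputable def pdB (x : W) (p : ℕ × Set W) : Node W :=
  if h : ∃ m ∈ p.2, m < x ∧ ∀ y ∈ p.2, y < x → y ≤ m then
    (if Acc p.2 h.choose then X.fst h.choose else X.nodeOf dat h.choose (p.1, p.2 ∩ Iic h.choose))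
  else X.bot

theorem pdB_bot {w x : W} (h : ∀ y ∈ X.C w, ¬ y < x) :
    X.pdB dat x (X.h w, X.C w ∩ Iic x) = X.bot := by
  unfold pdB
  rw [dif_neg]
  rintro ⟨m, hm, hx, _⟩
  exact h m hm.1 hx

theorem pdB_choose {w x m : W} (hm : m ∈ X.C w) (hx : m < x) (hmax : ∀ y ∈ X.C w, y < x → y ≤ m)
    (h : ∃ m ∈ X.C w ∩ Iic x, m < x ∧ ∀ y ∈ X.C w ∩ Iic x, y < x → y ≤ m) : h.choose = m := by
  obtain ⟨h1, h2, h3⟩ := h.choose_spec
  exact le_antisymm (hmax _ h1.1 h2) (h3 m ⟨hm, hx.le⟩ hx)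

theorem pdB_acc {w x m : W} (hm : m ∈ X.C w) (hx : m < x)
    (hmax : ∀ y ∈ X.C w, y < x → y ≤ m) (ha : Acc (X.C w) m) :
    X.pdB dat x (X.h w, X.C w ∩ Iic x) = X.fst m := by
  have h : ∃ m ∈ X.C w ∩ Iic x, m < x ∧ ∀ y ∈ X.C w ∩ Iic x, y < x → y ≤ m :=
    ⟨m, ⟨hm, hx.le⟩, hx, fun y hy => hmax y hy.1⟩
  have hc := X.pdB_choose hm hx hmax h
  unfold pdB
  rw [dif_pos h]
  have h0 : Acc (X.C w ∩ Iic x) m ↔ Acc (X.C w) m :=
    acc_congr fun c hc => ⟨fun h => h.1, fun h => ⟨h, (hc.trans hx).le⟩⟩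
  have : Acc (X.C w ∩ Iic x) h.choose := by
    rw [hc]
    exact h0.2 ha
  rw [if_pos this]
  exact congrArg X.fst hc

theorem pdB_nacc {w x m : W} (hm : m ∈ X.C w) (hx : m < x)
    (hmax : ∀ y ∈ X.C w, y < x → y ≤ m) (ha : ¬ Acc (X.C w) m) :
    X.pdB dat x (X.h w, X.C w ∩ Iic x) = X.nu dat w m := by
  have h : ∃ m ∈ X.C w ∩ Iic x, m < x ∧ ∀ y ∈ X.C w ∩ Iic x, y < x → y ≤ m :=
    ⟨m, ⟨hm, hx.le⟩, hx, fun y hy => hmax y hy.1⟩
  have hc := X.pdB_choose hm hx hmax h
  unfold pdB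
  rw [dif_pos h]
  have h0 : Acc (X.C w ∩ Iic x) m ↔ Acc (X.C w) m :=
    acc_congr fun c hc => ⟨fun h => h.1, fun h => ⟨h, (hc.trans hx).le⟩⟩
  have : ¬ Acc (X.C w ∩ Iic x) h.choose := by
    rw [hc]
    exact fun h' => ha (h0.1 h')
  rw [if_neg this]
  unfold nu
  simp only
  have h2 : ∀ m' : W, m' = m → X.nodeOf dat m' (X.h w, X.C w ∩ Iic x ∩ Iic m') =
      X.nodeOf dat m (X.h w, X.C w ∩ Iic m) := by
    rintro m' rfl
    congr 2
    rw [inter_assoc, Iic_inter_Iic, min_eq_right hx.le]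
  exact h2 _ hc

/-- limit nodes -/
def L (_ : WSq W) : Set (Node W) := {c | c.n = 0}

/-- service nodes -/
def S (_ : WSq W) : Set (Node W) := {c | c.n % 2 = 0 ∧ c.n ≠ 0}

open Classical in
/-- the predecessor of a service node in its chains -/
noncomputable def pd (c : Node W) : Node W :=
  if c.n % 4 = 0 then (if dat c ∈ X.D c.a then X.pdB dat c.a (dat c) else X.bot)
  else if 2 < c.n then ⟨c.a, c.b, c.n - 4, c.hb⟩
  else if c.b = X.z then X.bot else ⟨c.a, c.b, 0, c.hb⟩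

open Classical in
/-- the levels -/
noncomputable def hh (c : Node W) : ℕ :=
  if c.n = 0 then (if c.b = X.z ∧ c.a ∈ X.lim then X.h c.a else 1)
  else if c.n % 4 = 0 ∧ dat c ∈ X.D c.a then (dat c).1 else 1

open Classical in
/-- the block below a limit node -/
noncomputable def blk (t : Node W) : W :=
  if h : t.b = X.z ∧ ∃ v, t.a = X.s v then h.2.choose else t.a

open Classical in
/-- the `C`-sequence -/
noncomputable def Cs (t : Node W) : Set (Node W) :=
  if t.b = X.z ∧ t.a ∈ X.lim then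
    {c | c = X.bot ∨ (∃ e ∈ X.C t.a, Acc (X.C t.a) e ∧ c = X.fst e) ∨
      ∃ x ∈ X.C t.a, ¬ Acc (X.C t.a) x ∧ c = X.nu dat t.a x}
  else {c | c = X.bot ∨ (c.a = X.blk t ∧ c < t ∧ ((c.n = 0 ∧ c.b ≠ X.z) ∨ c.n % 4 = 2))}

theorem blk_of_ne {t : Node W} (h : t.b ≠ X.z) : X.blk t = t.a := by
  unfold blk
  rw [dif_neg]
  exact fun h' => h h'.1

theorem blk_of_s {t : Node W} (h : t.b = X.z) {v : W} (hv : t.a = X.s v) : X.blk t = v := by
  unfold blk
  have h' : t.b = X.z ∧ ∃ v, t.a = X.s v := ⟨h, v, hv⟩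
  rw [dif_pos h']
  exact X.s_inj (h'.2.choose_spec.symm.trans hv)

theorem nu_S (w x : W) : X.nu dat w x ∈ X.S :=
  ⟨by have := X.nodeOf_n4 dat x (X.h w, X.C w ∩ Iic x); unfold nu; omega,
    X.nodeOf_n0 dat x _⟩

theorem nu_a (w x : W) : (X.nu dat w x).a = x := X.nodeOf_a dat x _

theorem fst_L (w : W) : X.fst w ∈ X.L := rfl

theorem disj (i : Node W) (h : i ∈ X.S) : i ∉ X.L := fun h' => h.2 h'

theorem nu_ne_fst (w x v : W) : X.nu dat w x ≠ X.fst v := fun h =>
  X.disj _ (X.nu_S dat w x) (h ▸ X.fst_L v)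

/-- the successor -/
def sc (_ : WSq W) (c : Node W) : Node W := ⟨c.a, c.b, c.n + 1, c.hb⟩

/-- the predecessor -/
def pv (_ : WSq W) (c : Node W) : Node W := ⟨c.a, c.b, c.n - 1, c.hb⟩

theorem lt_sc (c : Node W) : c < X.sc c :=
  Node.lt_iff.2 (Or.inr ⟨rfl, Or.inr ⟨rfl, Nat.lt_succ_self _⟩⟩)

theorem sc_bot_lt {c : Node W} (h : c ∈ X.S) : X.sc X.bot < c := by
  rw [Node.lt_iff]
  rcases (X.z_le c.a).lt_or_eq with h1 | h1
  · exact Or.inl h1
  · refine Or.inr ⟨h1, ?_⟩
    rcases (X.z_le c.b).lt_or_eq with h' | h'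
    · exact Or.inl h'
    · refine Or.inr ⟨h', ?_⟩
      have h2 : c.n % 2 = 0 := h.1
      have h3 : c.n ≠ 0 := h.2
      simp only [sc, bot, fst]
      omega

variable [WellFoundedLT W]

/-- description of the predecessor of `nu w x` -/
theorem pdB_cases {w x : W} (hw : w ∈ X.lim) (hx : x ∈ X.C w) (hn : ¬ Acc (X.C w) x) :
    ((∀ y ∈ X.C w, ¬ y < x) ∧ X.pdB dat x (X.h w, X.C w ∩ Iic x) = X.bot) ∨
    ∃ m ∈ X.C w, m < x ∧ (∀ y ∈ X.C w, y < x → y ≤ m) ∧
      ((Acc (X.C w) m ∧ X.pdB dat x (X.h w, X.C w ∩ Iic x) = X.fst m) ∨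
      (¬ Acc (X.C w) m ∧ X.pdB dat x (X.h w, X.C w ∩ Iic x) = X.nu dat w m)) := by
  by_cases hne : ∃ y ∈ X.C w, y < x
  · right
    obtain ⟨m, h1, h2, h3⟩ := X.exists_max hw (X.C_lt w hw x hx) hn hne
    refine ⟨m, h1, h2, h3, ?_⟩
    by_cases ha : Acc (X.C w) m
    · exact Or.inl ⟨ha, X.pdB_acc dat h1 h2 h3 ha⟩
    · exact Or.inr ⟨ha, X.pdB_nacc dat h1 h2 h3 ha⟩
  · push Not at hne
    exact Or.inl ⟨fun y hy => not_lt.2 (hne y hy), X.pdB_bot dat fun y hy => not_lt.2 (hne y hy)⟩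

theorem pd_LS (c : Node W) (hc : c ∈ X.S) : X.pd dat c ∈ X.L ∨ X.pd dat c ∈ X.S := by
  unfold pd
  split
  · split
    · next h1 h2 =>
      obtain ⟨w, hw, hx, hn, hp⟩ := h2
      rw [hp]
      rcases X.pdB_cases dat hw hx hn with h | ⟨m, _, _, _, h | h⟩
      · rw [h.2]
        exact Or.inl (X.fst_L _)
      · rw [h.2]
        exact Or.inl (X.fst_L _)
      · rw [h.2]
        exact Or.inr (X.nu_S dat _ _)
    · exact Or.inl (X.fst_L _)
  · split
    · next h1 h2 =>
      have h3 : c.n % 2 = 0 := hc.1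
      right
      constructor
      · simp only
        omega
      · simp only
        omega
    · split
      · exact Or.inl (X.fst_L _)
      · exact Or.inl rfl

theorem sc_pd (c : Node W) (hc : c ∈ X.S) : X.sc (X.pd dat c) < c := by
  unfold pd
  split
  · split
    · next h1 h2 =>
      obtain ⟨w, hw, hx, hn, hp⟩ := h2
      rw [hp]
      rcases X.pdB_cases dat hw hx hn with h | ⟨m, _, hm, _, h | h⟩
      · rw [h.2]
        exact X.sc_bot_lt hc
      · rw [h.2]
        exact Node.lt_of_a hm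
      · rw [h.2]
        refine Node.lt_of_a ?_
        simp only [sc, nu_a]
        exact hm
    · exact X.sc_bot_lt hc
  · split
    · next h1 h2 =>
      refine Node.lt_iff.2 (Or.inr ⟨rfl, Or.inr ⟨rfl, ?_⟩⟩)
      simp only [sc]
      have h3 : c.n % 2 = 0 := hc.1
      omega
    · split
      · exact X.sc_bot_lt hc
      · refine Node.lt_iff.2 (Or.inr ⟨rfl, Or.inr ⟨rfl, ?_⟩⟩)
        simp only [sc]
        have h3 : c.n % 2 = 0 := hc.1
        have h4 : c.n ≠ 0 := hc.2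
        omega

omit [WellFoundedLT W] in
theorem hh_fst {w : W} (hw : w ∈ X.lim) : X.hh dat (X.fst w) = X.h w := by
  unfold hh
  simp [fst, hw]

variable (hdat : ∀ x, ∀ p ∈ X.D x, ∃ i : Node W, i.a = x ∧ i.n % 4 = 0 ∧ i.n ≠ 0 ∧ dat i = p)

include hdat

omit [WellFoundedLT W] in
theorem dat_nu {w x : W} (hw : w ∈ X.lim) (hx : x ∈ X.C w) (hn : ¬ Acc (X.C w) x) :
    dat (X.nu dat w x) = (X.h w, X.C w ∩ Iic x) :=
  X.dat_nodeOf dat (hdat x _ ⟨w, hw, hx, hn, rfl⟩)

omit [WellFoundedLT W] in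
theorem hh_nu {w x : W} (hw : w ∈ X.lim) (hx : x ∈ X.C w) (hn : ¬ Acc (X.C w) x) :
    X.hh dat (X.nu dat w x) = X.h w := by
  have h1 := X.dat_nu dat hdat hw hx hn
  have h2 : (X.nu dat w x).n % 4 = 0 := X.nodeOf_n4 dat x (X.h w, X.C w ∩ Iic x)
  have h3 : (X.nu dat w x).n ≠ 0 := X.nodeOf_n0 dat x (X.h w, X.C w ∩ Iic x)
  unfold hh
  rw [if_neg h3, if_pos, h1]
  refine ⟨h2, ?_⟩
  rw [h1, X.nu_a]
  exact ⟨w, hw, hx, hn, rfl⟩

omit [WellFoundedLT W] in
theorem pd_nu {w x : W} (hw : w ∈ X.lim) (hx : x ∈ X.C w) (hn : ¬ Acc (X.C w) x) :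
    X.pd dat (X.nu dat w x) = X.pdB dat x (X.h w, X.C w ∩ Iic x) := by
  have h1 := X.dat_nu dat hdat hw hx hn
  have h2 : (X.nu dat w x).n % 4 = 0 := X.nodeOf_n4 dat x (X.h w, X.C w ∩ Iic x)
  unfold pd
  rw [if_pos h2, if_pos, h1, X.nu_a]
  rw [h1, X.nu_a]
  exact ⟨w, hw, hx, hn, rfl⟩

theorem h_pd (c : Node W) (hc : c ∈ X.S) (hb : X.pd dat c ≠ X.bot) :
    X.hh dat (X.pd dat c) = X.hh dat c := by
  have h3 : c.n % 2 = 0 := hc.1
  have h4 : c.n ≠ 0 := hc.2
  by_cases h1 : c.n % 4 = 0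
  · by_cases h2 : dat c ∈ X.D c.a
    · have e1 : X.pd dat c = X.pdB dat c.a (dat c) := by
        unfold pd
        rw [if_pos h1, if_pos h2]
      have e2 : X.hh dat c = (dat c).1 := by
        unfold hh
        rw [if_neg h4, if_pos ⟨h1, h2⟩]
      obtain ⟨w, hw, hx, hn, hp⟩ := h2
      rw [e1, hp] at hb ⊢
      rw [e2, hp]
      rcases X.pdB_cases dat hw hx hn with h | ⟨m, h5, hm, h6, h | h⟩
      · exact absurd h.2 hb
      · rw [h.2, X.hh_fst dat (X.acc_lim w hw m (X.C_lt w hw m h5) h.1)]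
        exact X.h_coh w hw m (X.C_lt w hw m h5) h.1
      · rw [h.2, X.hh_nu dat hdat hw h5 h.1]
    · exfalso
      apply hb
      unfold pd
      rw [if_pos h1, if_neg h2]
  · have e2 : X.hh dat c = 1 := by
      unfold hh
      rw [if_neg h4, if_neg fun h => h1 h.1]
    rw [e2]
    by_cases h2 : 2 < c.n
    · have e1 : X.pd dat c = ⟨c.a, c.b, c.n - 4, c.hb⟩ := by
        unfold pd
        rw [if_neg h1, if_pos h2]
      rw [e1]
      unfold hh
      rw [if_neg, if_neg]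
      · rintro ⟨h5, _⟩
        simp only at h5
        omega
      · simp only
        omega
    · by_cases h5 : c.b = X.z
      · exfalso
        apply hb
        unfold pd
        rw [if_neg h1, if_neg h2, if_pos h5]
      · have e1 : X.pd dat c = ⟨c.a, c.b, 0, c.hb⟩ := by
          unfold pd
          rw [if_neg h1, if_neg h2, if_neg h5]
        rw [e1]
        unfold hh
        rw [if_pos rfl, if_neg fun h => h5 h.1]

omit [WellFoundedLT W] hdat in
theorem hh_pos (c : Node W) : 1 ≤ X.hh dat c := by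
  unfold hh
  split
  · split
    · exact X.h_pos _
    · exact le_rfl
  · split
    · next h =>
      obtain ⟨w, hw, hx, hn, hp⟩ := h.2
      rw [hp]
      exact X.h_pos _
    · exact le_rfl

omit [WellFoundedLT W] hdat in
theorem Cs_lim {t : Node W} (h : t.b = X.z ∧ t.a ∈ X.lim) : X.Cs dat t =
    {c | c = X.bot ∨ (∃ e ∈ X.C t.a, Acc (X.C t.a) e ∧ c = X.fst e) ∨
      ∃ x ∈ X.C t.a, ¬ Acc (X.C t.a) x ∧ c = X.nu dat t.a x} := by
  unfold Cs
  rw [if_pos h]

omit [WellFoundedLT W] hdat in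
theorem Cs_nlim {t : Node W} (h : ¬ (t.b = X.z ∧ t.a ∈ X.lim)) : X.Cs dat t =
    {c | c = X.bot ∨ (c.a = X.blk t ∧ c < t ∧ ((c.n = 0 ∧ c.b ≠ X.z) ∨ c.n % 4 = 2))} := by
  unfold Cs
  rw [if_neg h]

omit [WellFoundedLT W] hdat in
theorem eq_fst {t : Node W} (hL : t ∈ X.L) (h : t.b = X.z) : t = X.fst t.a :=
  Node.ext' rfl h hL

omit [WellFoundedLT W] hdat in
theorem lt_bot_of_ne {t : Node W} (h : t ≠ X.bot) : X.bot < t :=
  lt_of_le_of_ne (X.bot_le t) (Ne.symm h)

omit [WellFoundedLT W] hdat in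
theorem C_lt' (t : Node W) (_ : t ∈ X.L) (ht : t ≠ X.bot) (c : Node W) (hc : c ∈ X.Cs dat t) :
    c < t ∧ (c ∈ X.L ∨ c ∈ X.S) := by
  by_cases h : t.b = X.z ∧ t.a ∈ X.lim
  · rw [X.Cs_lim dat h] at hc
    rcases hc with rfl | ⟨e, he, _, rfl⟩ | ⟨x, hx, _, rfl⟩
    · exact ⟨X.lt_bot_of_ne ht, Or.inl (X.fst_L _)⟩
    · exact ⟨Node.lt_of_a (X.C_lt _ h.2 e he), Or.inl (X.fst_L _)⟩
    · refine ⟨Node.lt_of_a ?_, Or.inr (X.nu_S dat _ _)⟩
      rw [X.nu_a]
      exact X.C_lt _ h.2 x hx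
  · rw [X.Cs_nlim dat h] at hc
    rcases hc with rfl | ⟨_, h2, h3⟩
    · exact ⟨X.lt_bot_of_ne ht, Or.inl (X.fst_L _)⟩
    · refine ⟨h2, ?_⟩
      rcases h3 with h3 | h3
      · exact Or.inl h3.1
      · refine Or.inr ⟨by omega, by omega⟩

theorem C_S' (t : Node W) (htL : t ∈ X.L) (_ : t ≠ X.bot) (c : Node W) (hc : c ∈ X.Cs dat t)
    (hS : c ∈ X.S) : X.hh dat c = X.hh dat t ∧ X.pd dat c ∈ X.Cs dat t ∧
      ∀ x ∈ X.Cs dat t, x < c → x ≤ X.pd dat c := by
  by_cases h : t.b = X.z ∧ t.a ∈ X.lim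
  · have ht' := X.eq_fst htL h.1
    have hht : X.hh dat t = X.h t.a := by
      rw [ht']
      exact X.hh_fst dat h.2
    rw [X.Cs_lim dat h] at hc ⊢
    rcases hc with rfl | ⟨e, he, _, rfl⟩ | ⟨x, hx, hn, rfl⟩
    · exact absurd (X.fst_L _) (X.disj _ hS)
    · exact absurd (X.fst_L _) (X.disj _ hS)
    · refine ⟨by rw [X.hh_nu dat hdat h.2 hx hn, hht], ?_⟩
      rw [X.pd_nu dat hdat h.2 hx hn]
      rcases X.pdB_cases dat h.2 hx hn with h1 | ⟨m, hm, hmx, hmax, h1⟩
      · rw [h1.2]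
        refine ⟨Or.inl rfl, ?_⟩
        rintro y (rfl | ⟨e, he, hea, rfl⟩ | ⟨v, hv, hvn, rfl⟩) hy
        · exact le_rfl
        · exfalso
          have h2 := Node.le_a hy.le
          rw [X.nu_a] at h2
          rcases h2.lt_or_eq with h3 | h3
          · exact h1.1 e he h3
          · have h4 : e = x := h3
            exact hn (h4 ▸ hea)
        · exfalso
          have h2 := Node.le_a hy.le
          rw [X.nu_a, X.nu_a] at h2
          rcases h2.lt_or_eq with h3 | h3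
          · exact h1.1 v hv h3
          · subst h3
            exact lt_irrefl _ hy
      · have key : ∀ y : Node W, (y = X.bot ∨ (∃ e ∈ X.C t.a, Acc (X.C t.a) e ∧ y = X.fst e) ∨
            ∃ x ∈ X.C t.a, ¬ Acc (X.C t.a) x ∧ y = X.nu dat t.a x) → y < X.nu dat t.a x →
            y = X.bot ∨ y.a < m ∨ (Acc (X.C t.a) m ∧ y = X.fst m) ∨
              (¬ Acc (X.C t.a) m ∧ y = X.nu dat t.a m) := by
          rintro y (rfl | ⟨e, he, hea, rfl⟩ | ⟨v, hv, hvn, rfl⟩) hy
          · exact Or.inl rfl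
          · have h2 := Node.le_a hy.le
            rw [X.nu_a] at h2
            have h2' : e ≤ x := h2
            have h3 : e < x := lt_of_le_of_ne h2' fun h4 => hn (h4 ▸ hea)
            rcases (hmax e he h3).lt_or_eq with h4 | h4
            · exact Or.inr (Or.inl h4)
            · subst h4
              exact Or.inr (Or.inr (Or.inl ⟨hea, rfl⟩))
          · have h2 := Node.le_a hy.le
            rw [X.nu_a, X.nu_a] at h2
            have h3 : v < x := lt_of_le_of_ne h2 fun h4 => by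
              subst h4
              exact lt_irrefl _ hy
            rcases (hmax v hv h3).lt_or_eq with h4 | h4
            · right; left
              rw [X.nu_a]
              exact h4
            · subst h4
              exact Or.inr (Or.inr (Or.inr ⟨hvn, rfl⟩))
        rcases h1 with ⟨ha, h1⟩ | ⟨ha, h1⟩
        · rw [h1]
          refine ⟨Or.inr (Or.inl ⟨m, hm, ha, rfl⟩), fun y hy hyx => ?_⟩
          rcases key y hy hyx with rfl | h2 | h2 | h2
          · exact X.bot_le _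
          · exact (Node.lt_of_a h2).le
          · exact h2.2.le
          · exact absurd ha h2.1
        · rw [h1]
          refine ⟨Or.inr (Or.inr ⟨m, hm, ha, rfl⟩), fun y hy hyx => ?_⟩
          rcases key y hy hyx with rfl | h2 | h2 | h2
          · exact X.bot_le _
          · refine (Node.lt_of_a ?_).le
            rw [X.nu_a]
            exact h2
          · exact absurd h2.1 ha
          · exact h2.2.le
  · have hht : X.hh dat t = 1 := by
      have htn : t.n = 0 := htL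
      unfold hh
      rw [if_pos htn, if_neg h]
    have h3 : c.n % 2 = 0 := hS.1
    have h4 : c.n ≠ 0 := hS.2
    rw [X.Cs_nlim dat h] at hc ⊢
    rcases hc with rfl | ⟨h1, h2, h5⟩
    · exact absurd (X.fst_L _) (X.disj _ hS)
    have h6 : c.n % 4 = 2 := by
      rcases h5 with h5 | h5
      · exact absurd h5.1 h4
      · exact h5
    have h7 : ¬ c.n % 4 = 0 := by omega
    refine ⟨?_, ?_⟩
    · rw [hht]
      unfold hh
      rw [if_neg h4, if_neg fun h => h7 h.1]
    · have hlt : X.pd dat c < c := (X.lt_sc _).trans (X.sc_pd dat c hS)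
      by_cases h8 : 2 < c.n
      · have e1 : X.pd dat c = ⟨c.a, c.b, c.n - 4, c.hb⟩ := by
          unfold pd
          rw [if_neg h7, if_pos h8]
        refine ⟨Or.inr ⟨?_, hlt.trans h2, ?_⟩, ?_⟩
        · rw [e1]
          exact h1
        · rw [e1]
          right
          simp only
          omega
        · rw [e1]
          rintro y (rfl | ⟨h9, h10, h11⟩) hy
          · exact X.bot_le _
          · rw [Node.lt_iff] at hy
            rw [Node.le_iff]
            simp only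
            rcases hy with hy | ⟨hy, hy'⟩
            · exact Or.inl hy
            · refine Or.inr ⟨hy, ?_⟩
              rcases hy' with hy' | ⟨hy', hy''⟩
              · exact Or.inl hy'
              · refine Or.inr ⟨hy', ?_⟩
                rcases h11 with h11 | h11
                · omega
                · omega
      · have hn2 : c.n = 2 := by omega
        by_cases h9 : c.b = X.z
        · have e1 : X.pd dat c = X.bot := by
            unfold pd
            rw [if_neg h7, if_neg h8, if_pos h9]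
          rw [e1]
          refine ⟨Or.inl rfl, ?_⟩
          rintro y (rfl | ⟨h9', h10, h11⟩) hy
          · exact le_rfl
          · exfalso
            rw [Node.lt_iff] at hy
            rcases hy with hy | ⟨hy, hy' | ⟨hy', hy''⟩⟩
            · rw [h9', h1] at hy
              exact lt_irrefl _ hy
            · rw [h9] at hy'
              exact absurd hy' (not_lt.2 (X.z_le _))
            · rcases h11 with h11 | h11
              · exact h11.2 (hy'.trans h9)
              · omega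
        · have e1 : X.pd dat c = ⟨c.a, c.b, 0, c.hb⟩ := by
            unfold pd
            rw [if_neg h7, if_neg h8, if_neg h9]
          refine ⟨Or.inr ⟨?_, hlt.trans h2, ?_⟩, ?_⟩
          · rw [e1]
            exact h1
          · rw [e1]
            exact Or.inl ⟨rfl, h9⟩
          · rw [e1]
            rintro y (rfl | ⟨h9, h10, h11⟩) hy
            · exact X.bot_le _
            · rw [Node.lt_iff] at hy
              rw [Node.le_iff]
              simp only
              rcases hy with hy | ⟨hy, hy'⟩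
              · exact Or.inl hy
              · refine Or.inr ⟨hy, ?_⟩
                rcases hy' with hy' | ⟨hy', hy''⟩
                · exact Or.inl hy'
                · refine Or.inr ⟨hy', ?_⟩
                  rcases h11 with h11 | h11
                  · omega
                  · omega

omit [WellFoundedLT W] hdat in
theorem C_L' (t : Node W) (htL : t ∈ X.L) (_ : t ≠ X.bot) (c : Node W) (hc : c ∈ X.Cs dat t)
    (hL : c ∈ X.L) (hb : c ≠ X.bot) :
    X.hh dat c = X.hh dat t ∧ X.Cs dat c = X.Cs dat t ∩ Iio c := by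
  by_cases h : t.b = X.z ∧ t.a ∈ X.lim
  · have ht' := X.eq_fst htL h.1
    have hht : X.hh dat t = X.h t.a := by
      rw [ht']
      exact X.hh_fst dat h.2
    rw [X.Cs_lim dat h] at hc ⊢
    rcases hc with rfl | ⟨e, he, hea, rfl⟩ | ⟨x, hx, hn, rfl⟩
    · exact absurd rfl hb
    · have het := X.C_lt _ h.2 e he
      have hel := X.acc_lim _ h.2 e het hea
      have hh := X.h_coh _ h.2 e het hea
      have hC := X.C_coh _ h.2 e het hea
      refine ⟨by rw [X.hh_fst dat hel, hht, hh], ?_⟩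
      rw [X.Cs_lim dat (t := X.fst e) ⟨rfl, hel⟩]
      have hacc : ∀ v ≤ e, Acc (X.C e) v ↔ Acc (X.C t.a) v := by
        intro v hv
        refine acc_congr fun c hc => ?_
        rw [hC]
        exact ⟨fun h => h.1, fun h => ⟨h, hc.trans_le hv⟩⟩
      have hnu : ∀ v < e, X.nu dat e v = X.nu dat t.a v := by
        intro v hv
        unfold nu
        rw [hh, hC]
        congr 2
        ext y
        simp only [mem_inter_iff, mem_Iio, mem_Iic]
        constructor
        · rintro ⟨⟨h1, _⟩, h2⟩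
          exact ⟨h1, h2⟩
        · rintro ⟨h1, h2⟩
          exact ⟨⟨h1, h2.trans_lt hv⟩, h2⟩
      have hmem : ∀ v, v ∈ X.C e ↔ v ∈ X.C t.a ∧ v < e := by
        intro v
        rw [hC]
        rfl
      ext y
      simp only [fst, mem_inter_iff, Set.mem_ofPred_eq, mem_Iio]
      constructor
      · rintro (rfl | ⟨v, hv, hva, rfl⟩ | ⟨v, hv, hvn, rfl⟩)
        · exact ⟨Or.inl rfl, X.lt_bot_of_ne hb⟩
        · have hv' := (hmem v).1 hv
          exact ⟨Or.inr (Or.inl ⟨v, hv'.1, (hacc v hv'.2.le).1 hva, rfl⟩), Node.lt_of_a hv'.2⟩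
        · have hv' := (hmem v).1 hv
          refine ⟨Or.inr (Or.inr ⟨v, hv'.1, fun h => hvn ((hacc v hv'.2.le).2 h),
            hnu v hv'.2⟩), Node.lt_of_a ?_⟩
          rw [X.nu_a]
          exact hv'.2
      · rintro ⟨rfl | ⟨v, hv, hva, rfl⟩ | ⟨v, hv, hvn, rfl⟩, hy⟩
        · exact Or.inl rfl
        · have h1 : v < e := (X.lt_fst (w := e)).1 hy
          exact Or.inr (Or.inl ⟨v, (hmem v).2 ⟨hv, h1⟩, (hacc v h1.le).2 hva, rfl⟩)
        · have h1 : v < e := by
            have := (X.lt_fst (w := e)).1 hy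
            rwa [X.nu_a] at this
          exact Or.inr (Or.inr ⟨v, (hmem v).2 ⟨hv, h1⟩, fun h => hvn ((hacc v h1.le).1 h),
            (hnu v h1).symm⟩)
    · exact absurd hL (X.disj _ (X.nu_S dat _ _))
  · have hht : X.hh dat t = 1 := by
      have htn : t.n = 0 := htL
      unfold hh
      rw [if_pos htn, if_neg h]
    rw [X.Cs_nlim dat h] at hc ⊢
    rcases hc with rfl | ⟨h1, h2, h3⟩
    · exact absurd rfl hb
    have hcn : c.n = 0 := hL
    have h4 : c.b ≠ X.z := by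
      rcases h3 with h3 | h3
      · exact h3.2
      · omega
    have h5 : ¬ (c.b = X.z ∧ c.a ∈ X.lim) := fun h => h4 h.1
    refine ⟨?_, ?_⟩
    · rw [hht]
      unfold hh
      rw [if_pos hcn, if_neg h5]
    · rw [X.Cs_nlim dat h5, X.blk_of_ne h4]
      ext y
      simp only [mem_inter_iff, Set.mem_ofPred_eq, mem_Iio]
      constructor
      · rintro (rfl | ⟨h6, h7, h8⟩)
        · exact ⟨Or.inl rfl, X.lt_bot_of_ne hb⟩
        · exact ⟨Or.inr ⟨h6.trans h1, h7.trans h2, h8⟩, h7⟩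
      · rintro ⟨rfl | ⟨h6, h7, h8⟩, hy⟩
        · exact Or.inl rfl
        · exact Or.inr ⟨h6.trans h1.symm, hy, h8⟩

/-- the numbers of the nodes of a chain are unbounded -/
theorem C_cof' (kk : Node W → ℕ)
    (hkk : ∀ c ∈ X.S, X.pd dat c ∈ X.S → kk c = kk (X.pd dat c) + 1)
    (t : Node W) (htL : t ∈ X.L) (ht : t ≠ X.bot) (i : Node W) (hi : i < t) (k : ℕ) :
    ∃ c ∈ X.Cs dat t, c ∈ X.S ∧ i < c ∧ k ≤ kk c := by
  by_cases h : t.b = X.z ∧ t.a ∈ X.lim
  · have ht' := X.eq_fst htL h.1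
    rw [X.Cs_lim dat h]
    have hi' : i.a < t.a := by
      rw [ht'] at hi
      exact X.lt_fst.1 hi
    have hnext : ∀ x ∈ X.C t.a, ∃ y ∈ X.C t.a, x < y ∧ ∀ v ∈ X.C t.a, v < y → v ≤ x := by
      intro x hx
      obtain ⟨c, hc, hxc⟩ := X.C_unb _ h.2 x (X.C_lt _ h.2 x hx)
      have hwf : WellFounded ((· < ·) : W → W → Prop) := wellFounded_lt
      let T : Set W := {v | v ∈ X.C t.a ∧ x < v}
      have hT : T.Nonempty := ⟨c, hc, hxc⟩
      refine ⟨hwf.min T hT, (hwf.min_mem T hT).1, (hwf.min_mem T hT).2, fun v hv hlt => ?_⟩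
      by_contra hc
      exact hwf.not_lt_min T (⟨hv, not_le.1 hc⟩ : v ∈ T) hlt
    have hnacc : ∀ x ∈ X.C t.a, ∀ y, x < y → (∀ v ∈ X.C t.a, v < y → v ≤ x) →
        ¬ Acc (X.C t.a) y := by
      intro x _ y hxy h2 h3
      obtain ⟨c, hc, h4, h5⟩ := h3.2 x hxy
      exact absurd h4 (not_lt.2 (h2 c hc h5))
    have main : ∀ k : ℕ, ∃ x ∈ X.C t.a, ¬ Acc (X.C t.a) x ∧ i.a < x ∧
        k ≤ kk (X.nu dat t.a x) := by
      intro k
      induction k with
      | zero =>
        obtain ⟨c, hc, hic⟩ := X.C_unb _ h.2 _ hi'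
        obtain ⟨y, hy, hcy, hy'⟩ := hnext c hc
        exact ⟨y, hy, hnacc c hc y hcy hy', hic.trans hcy, Nat.zero_le _⟩
      | succ k ih =>
        obtain ⟨x, hx, hxn, hix, hk⟩ := ih
        obtain ⟨y, hy, hxy, hy'⟩ := hnext x hx
        have hyn := hnacc x hx y hxy hy'
        refine ⟨y, hy, hyn, hix.trans hxy, ?_⟩
        have h1 : X.pd dat (X.nu dat t.a y) = X.nu dat t.a x := by
          rw [X.pd_nu dat hdat h.2 hy hyn]
          exact X.pdB_nacc dat hx hxy hy' hxn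
        have h2 := hkk (X.nu dat t.a y) (X.nu_S dat _ _) (by rw [h1]; exact X.nu_S dat _ _)
        rw [h2, h1]
        omega
    obtain ⟨x, hx, hxn, hix, hk⟩ := main k
    refine ⟨X.nu dat t.a x, Or.inr (Or.inr ⟨x, hx, hxn, rfl⟩), X.nu_S dat _ _,
      Node.lt_of_a ?_, hk⟩
    rw [X.nu_a]
    exact hix
  · have main : ∀ (a b : W) (hb : b ≤ a) (k : ℕ), k ≤ kk ⟨a, b, 4 * k + 2, hb⟩ := by
      intro a b hb k
      induction k with
      | zero => exact Nat.zero_le _
      | succ k ih =>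
        have h1 : X.pd dat ⟨a, b, 4 * (k + 1) + 2, hb⟩ = ⟨a, b, 4 * k + 2, hb⟩ := by
          unfold pd
          rw [if_neg (by simp only; omega), if_pos (by simp only; omega)]
          exact Node.ext' rfl rfl (by simp only; omega)
        have h2 := hkk ⟨a, b, 4 * (k + 1) + 2, hb⟩ ⟨by simp only; omega, by simp only; omega⟩
          (by rw [h1]; exact ⟨by simp only; omega, by simp only; omega⟩)
        rw [h2, h1]
        omega
    have htn : t.n = 0 := htL
    rw [X.Cs_nlim dat h]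
    by_cases hb : t.b = X.z
    · have hs : ∃ v, t.a = X.s v := by
        rcases X.cases t.a with h1 | h1 | h1
        · exact absurd (Node.ext' h1 hb htn) ht
        · exact h1
        · exact absurd ⟨hb, h1⟩ h
      obtain ⟨v, hv⟩ := hs
      rw [X.blk_of_s hb hv]
      have hi' : i.a < t.a := by
        rw [X.eq_fst htL hb] at hi
        exact X.lt_fst.1 hi
      have hiv : i.a ≤ v := X.le_of_lt_s (hv ▸ hi')
      refine ⟨⟨v, v, 4 * (i.n + k) + 2, le_rfl⟩, Or.inr ⟨rfl, Node.lt_of_a ?_, Or.inr ?_⟩, ?_, ?_,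
        ?_⟩
      · rw [hv]
        exact X.lt_s v
      · simp only
        omega
      · exact ⟨by simp only; omega, by simp only; omega⟩
      · rw [Node.lt_iff]
        simp only
        rcases hiv.lt_or_eq with h1 | h1
        · exact Or.inl h1
        · refine Or.inr ⟨h1, ?_⟩
          rcases (h1 ▸ i.hb : i.b ≤ v).lt_or_eq with h2 | h2
          · exact Or.inl h2
          · exact Or.inr ⟨h2, by omega⟩
      · exact (Nat.le_add_left k i.n).trans (main v v le_rfl (i.n + k))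
    · rw [X.blk_of_ne hb]
      rw [Node.lt_iff] at hi
      have hi2 : i.a < t.a ∨ (i.a = t.a ∧ i.b < t.b) := by
        rcases hi with h1 | ⟨h1, h2 | ⟨h2, h3⟩⟩
        · exact Or.inl h1
        · exact Or.inr ⟨h1, h2⟩
        · omega
      rcases hi2 with h1 | ⟨h1, h2⟩
      · refine ⟨⟨t.a, X.z, 4 * k + 2, X.z_le _⟩, Or.inr ⟨rfl, ?_, Or.inr ?_⟩, ?_, ?_, ?_⟩
        · exact Node.lt_iff.2 (Or.inr ⟨rfl, Or.inl (lt_of_le_of_ne (X.z_le _) (Ne.symm hb))⟩)
        · simp only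
          omega
        · exact ⟨by simp only; omega, by simp only; omega⟩
        · exact Node.lt_of_a h1
        · exact main _ _ _ k
      · refine ⟨⟨t.a, i.b, 4 * (i.n + k) + 2, h2.le.trans t.hb⟩,
          Or.inr ⟨rfl, ?_, Or.inr ?_⟩, ?_, ?_, ?_⟩
        · exact Node.lt_iff.2 (Or.inr ⟨rfl, Or.inl h2⟩)
        · simp only
          omega
        · exact ⟨by simp only; omega, by simp only; omega⟩
        · refine Node.lt_iff.2 (Or.inr ⟨h1, Or.inr ⟨rfl, ?_⟩⟩)
          simp only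
          omega
        · exact (Nat.le_add_left k i.n).trans (main _ _ _ (i.n + k))

theorem exists_Idx : ∃ Y : Idx (Node W), Y.L = X.L ∧ Y.bot = X.bot ∧ Y.h = X.hh dat := by
  have := Node.wf (W := W)
  obtain ⟨rt, kk, h1, h2⟩ := exists_rt_kk X.L X.S (X.pd dat)
    (fun c hc => (X.lt_sc _).trans (X.sc_pd dat c hc)) X.disj
  refine ⟨{
    L := X.L
    S := X.S
    bot := X.bot
    pv := X.pv
    sc := X.sc
    pd := X.pd dat
    rt := rt
    kk := kk
    h := X.hh dat
    Cs := X.Cs dat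
    disj := X.disj
    bot_mem := X.fst_L _
    bot_le := X.bot_le
    pv_lt := ?_
    le_pv := ?_
    lim := ?_
    sc_L := fun i _ h => Nat.succ_ne_zero i.n h
    sc_S := ?_
    pv_sc := fun i _ => rfl
    pd_LS := X.pd_LS dat
    sc_pd := X.sc_pd dat
    rt_L := h1
    rt_S := h2
    h_pos := fun c _ => X.hh_pos dat c
    h_pd := X.h_pd dat hdat
    hL_pos := fun c _ _ => X.hh_pos dat c
    C_lt := X.C_lt' dat
    C_S := X.C_S' dat hdat
    C_L := X.C_L' dat
    C_cof := X.C_cof' dat hdat kk fun c hc hc' => (h2 c hc hc').2 }, rfl, rfl, rfl⟩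
  · intro i hi
    have hi' : i.n ≠ 0 := hi
    refine Node.lt_iff.2 (Or.inr ⟨rfl, Or.inr ⟨rfl, ?_⟩⟩)
    simp only [pv]
    omega
  · intro i hi j hj
    have hi' : i.n ≠ 0 := hi
    rw [Node.lt_iff] at hj
    rw [Node.le_iff]
    simp only [pv]
    rcases hj with hj | ⟨hj, hj' | ⟨hj', hj''⟩⟩
    · exact Or.inl hj
    · exact Or.inr ⟨hj, Or.inl hj'⟩
    · exact Or.inr ⟨hj, Or.inr ⟨hj', by omega⟩⟩
  · intro i hi j hj
    have hi' : i.n = 0 := hi
    refine ⟨X.sc j, ?_, X.lt_sc j⟩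
    rw [Node.lt_iff] at hj ⊢
    simp only [sc]
    rcases hj with hj | ⟨hj, hj' | ⟨hj', hj''⟩⟩
    · exact Or.inl hj
    · exact Or.inr ⟨hj, Or.inl hj'⟩
    · omega
  · rintro i (hi | hi) h
    · have h1 : i.n = 0 := hi
      have h2 : (i.n + 1) % 2 = 0 := h.1
      omega
    · have h1 : i.n % 2 = 0 := hi.1
      have h2 : (i.n + 1) % 2 = 0 := h.1
      omega

end WSq


section transfer

variable {κ : Cardinal.{0}}

/-- the ordinal of a point -/
noncomputable def ov (w : κ.ord.ToType) : Ordinal.{0} := ((Ordinal.ToType.mk (o := κ.ord)).symm w : Iio κ.ord)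

theorem ov_lt (w : κ.ord.ToType) : ov w < κ.ord := (Ordinal.ToType.mk.symm w).2

theorem ov_lt_ov {v w : κ.ord.ToType} : ov v < ov w ↔ v < w := by
  unfold ov
  rw [Subtype.coe_lt_coe]
  exact Ordinal.ToType.mk.symm.lt_iff_lt

theorem ov_le_ov {v w : κ.ord.ToType} : ov v ≤ ov w ↔ v ≤ w := by
  rw [← not_lt, ov_lt_ov, not_lt]

theorem ov_inj {v w : κ.ord.ToType} (h : ov v = ov w) : v = w :=
  le_antisymm (ov_le_ov.1 h.le) (ov_le_ov.1 h.ge)

/-- the point of an ordinal -/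
noncomputable def pt (a : Ordinal.{0}) (h : a < κ.ord) : κ.ord.ToType := Ordinal.ToType.mk ⟨a, h⟩

theorem ov_pt (a : Ordinal.{0}) (h : a < κ.ord) : ov (pt a h) = a := by
  unfold ov pt
  rw [OrderIso.symm_apply_apply]

theorem acc_iff {S : Set Ordinal.{0}} {b : κ.ord.ToType} :
    IsAcc S (ov b) ↔ Acc {v : κ.ord.ToType | ov v ∈ S} b := by
  constructor
  · rintro ⟨h1, h2⟩
    refine ⟨⟨pt 0 ((bot_le : (0 : Ordinal.{0}) ≤ ov b).trans_lt (ov_lt b)), ?_⟩, fun x hx => ?_⟩
    · rw [← ov_lt_ov, ov_pt]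
      exact h1
    · obtain ⟨c, hc, h3, h4⟩ := h2 (ov x) (ov_lt_ov.2 hx)
      have hck : c < κ.ord := h4.trans (ov_lt b)
      refine ⟨pt c hck, ?_, ?_, ?_⟩
      · simp only [Set.mem_ofPred_eq, ov_pt]
        exact hc
      · rwa [← ov_lt_ov, ov_pt]
      · rwa [← ov_lt_ov, ov_pt]
  · rintro ⟨⟨x, hx⟩, h2⟩
    refine ⟨(bot_le : (0 : Ordinal.{0}) ≤ ov x).trans_lt (ov_lt_ov.2 hx), fun y hy => ?_⟩
    have hyk : y < κ.ord := hy.trans (ov_lt b)
    have hy' : pt y hyk < b := by rwa [← ov_lt_ov, ov_pt]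
    obtain ⟨c, hc, h3, h4⟩ := h2 _ hy'
    refine ⟨ov c, hc, ?_, ov_lt_ov.2 h4⟩
    rwa [← ov_lt_ov, ov_pt] at h3

theorem exists_WSq (hκ : κ.IsRegular) (D : SqData κ) : ∃ X : WSq κ.ord.ToType,
    X.lim = {w | IsSuccLimit (ov w)} ∧ ∀ w, X.h w = D.h (ov w) := by
  have hl : IsSuccLimit κ.ord := isSuccLimit_ord hκ.aleph0_le
  have h0 : 0 < κ.ord := hκ.ord_pos
  have hs : ∀ w : κ.ord.ToType, succ (ov w) < κ.ord := fun w => hl.succ_lt (ov_lt w)
  refine ⟨{
    z := pt 0 h0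
    z_le := ?_
    s := fun w => pt (succ (ov w)) (hs w)
    lt_s := ?_
    s_le := ?_
    lim := {w | IsSuccLimit (ov w)}
    lim_lt := ?_
    cases := ?_
    z_nlim := ?_
    C := fun w => {v | ov v ∈ D.C (ov w)}
    C_lt := ?_
    C_unb := ?_
    C_cl := ?_
    acc_lim := ?_
    C_coh := ?_
    h := fun w => D.h (ov w)
    h_coh := ?_
    h_pos := fun w => D.h_pos _ }, rfl, fun w => rfl⟩
  · intro w
    rw [← ov_le_ov, ov_pt]
    exact (bot_le : (0 : Ordinal.{0}) ≤ ov w)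
  · intro w
    rw [← ov_lt_ov, ov_pt]
    exact lt_succ _
  · intro w v h
    rw [← ov_le_ov, ov_pt]
    exact succ_le_of_lt (ov_lt_ov.2 h)
  · intro w hw v h
    rw [← ov_lt_ov, ov_pt]
    exact IsSuccLimit.succ_lt hw (ov_lt_ov.2 h)
  · intro w
    rcases Ordinal.zero_or_succ_or_isSuccLimit (ov w) with h | ⟨a, ha⟩ | h
    · left
      apply ov_inj
      rw [ov_pt, h]
    · right; left
      have hak : a < κ.ord := (lt_succ a).trans (ha ▸ ov_lt w)
      refine ⟨pt a hak, ?_⟩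
      apply ov_inj
      rw [ov_pt, ov_pt, ha]
    · exact Or.inr (Or.inr h)
  · intro h
    have h' : IsSuccLimit (ov (pt (0 : Ordinal.{0}) h0)) := h
    rw [ov_pt] at h'
    exact h'.1 (isMin_iff_eq_bot.2 rfl)
  · intro w hw v hv
    exact ov_lt_ov.1 ((D.club _ (ov_lt w) hw).1 hv)
  · intro w hw v hv
    obtain ⟨c, hc, hvc⟩ := (D.club _ (ov_lt w) hw).2.1 (succ (ov v))
      (IsSuccLimit.succ_lt hw (ov_lt_ov.2 hv))
    have hcw : c < ov w := (D.club _ (ov_lt w) hw).1 hc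
    have hck := hcw.trans (ov_lt w)
    refine ⟨pt c hck, ?_, ?_⟩
    · simp only [Set.mem_ofPred_eq, ov_pt]
      exact hc
    · rw [← ov_lt_ov, ov_pt]
      exact lt_of_lt_of_le (lt_succ _) hvc
  · intro w hw v hv hacc
    exact (D.club _ (ov_lt w) hw).2.2 _ (ov_lt_ov.2 hv) (acc_iff.2 hacc)
  · intro w hw v hv hacc
    have h1 := acc_iff.2 hacc
    rcases Ordinal.zero_or_succ_or_isSuccLimit (ov v) with h | ⟨a, ha⟩ | h
    · exact absurd h1.1 (by rw [h]; exact lt_irrefl _)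
    · exfalso
      obtain ⟨c, _, h2, h3⟩ := h1.2 a (ha ▸ lt_succ a)
      rw [← ha] at h3
      exact absurd h2 (not_lt.2 (lt_succ_iff.1 h3))
    · exact h
  · intro w hw v hv hacc
    have h1 := D.coh _ (ov_lt w) hw _ (ov_lt_ov.2 hv) (acc_iff.2 hacc)
    ext y
    simp only [Set.mem_ofPred_eq, h1, mem_inter_iff, mem_Iio, ov_lt_ov]
  · intro w hw v hv hacc
    exact D.h_coh _ (ov_lt w) hw _ (ov_lt_ov.2 hv) (acc_iff.2 hacc)

end transfer

end IB

open IB in
theorem exists_idx {κ : Cardinal.{0}} (hκ : κ.IsRegular) (hu : ℵ₀ < κ) (D : SqData κ) :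
    ∃ (ι : Type) (_ : LinearOrder ι) (X : Idx ι), X.Large κ := by
  obtain ⟨X, hlim, hh⟩ := exists_WSq hκ D
  obtain ⟨dat, hdat⟩ := X.exists_dat
  obtain ⟨Y, hL, hbot, hY⟩ := X.exists_Idx dat hdat
  have hW : #κ.ord.ToType = κ := mk_ord_toType κ
  have hcof : Order.cof κ.ord.ToType = κ := by
    rw [Ordinal.cof_toType, hκ.cof_ord]
  have hsm : ∀ w : κ.ord.ToType, #(Iic w) < κ := by
    intro w
    have h1 : Iic w ⊆ Iio (X.s w) := fun v hv => lt_of_le_of_lt hv (X.lt_s w)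
    exact (mk_le_mk_of_subset h1).trans_lt (mk_Iio_toType_ord_lt _)
  refine ⟨Node κ.ord.ToType, inferInstance, Y, ⟨Node.wf, ?_, ?_, ?_, ?_⟩⟩
  · apply le_antisymm
    · have h1 : #(Node κ.ord.ToType) ≤ #(κ.ord.ToType × κ.ord.ToType × ℕ) := by
        refine mk_le_of_injective (f := fun i => (i.a, i.b, i.n)) ?_
        intro i j h
        simp only [Prod.mk.injEq] at h
        exact Node.ext' h.1 h.2.1 h.2.2
      refine h1.trans ?_
      simp only [mk_prod, lift_id]
      rw [hW, mk_nat,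
        mul_eq_left hκ.aleph0_le hκ.aleph0_le aleph0_ne_zero, mul_eq_self hκ.aleph0_le]
    · conv_lhs => rw [← hW]
      refine mk_le_of_injective (f := X.fst) ?_
      intro v w h
      exact congrArg Node.a h
  · intro i
    have h1 : #(Iio i) ≤ #(Iic i.a × Iic i.a × ℕ) := by
      refine mk_le_of_injective (f := fun j : Iio i =>
        (⟨j.1.a, Node.le_a j.2.le⟩, ⟨j.1.b, j.1.hb.trans (Node.le_a j.2.le)⟩, j.1.n)) ?_
      intro j j' h
      simp only [Prod.mk.injEq] at h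
      exact Subtype.ext (Node.ext' (congrArg Subtype.val h.1) (congrArg Subtype.val h.2.1) h.2.2)
    refine h1.trans_lt ?_
    simp only [mk_prod, lift_id]
    rw [mk_nat]
    exact mul_lt_of_lt hκ.aleph0_le (hsm _) (mul_lt_of_lt hκ.aleph0_le (hsm _) hu)
  · intro s hs
    have h1 : ¬ IsCofinal ((fun i : Node κ.ord.ToType => i.a) '' s) := by
      intro h
      have := (Order.cof_le h).trans mk_image_le
      rw [hcof] at this
      exact absurd hs (not_lt.2 this)
    rw [not_isCofinal_iff] at h1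
    obtain ⟨x, hx⟩ := h1
    exact ⟨X.fst x, fun y hy => Node.lt_of_a (hx _ ⟨y, hy, rfl⟩)⟩
  · intro n hn r hr
    have hl : IsSuccLimit κ.ord := isSuccLimit_ord hκ.aleph0_le
    have h0 : 0 < κ.ord := hκ.ord_pos
    let T : Set Ordinal.{0} := {a | a < κ.ord ∧ IsSuccLimit a ∧ D.h a = n}
    have hT : IsStat κ T := by
      intro C hC
      obtain ⟨a, ha, ha'⟩ := D.h_stat n hn C hC
      exact ⟨a, ha, hC.1 ha, ha'.1, ha'.2⟩
    classical
    let f : Ordinal.{0} → Ordinal.{0} := fun a =>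
      if h : a < κ.ord then ov (r (X.fst (pt a h))).a else 0
    have hlimpt : ∀ a (h : a < κ.ord), IsSuccLimit a → pt a h ∈ X.lim := by
      intro a h ha
      rw [hlim]
      simp only [Set.mem_ofPred_eq, ov_pt]
      exact ha
    have hnode : ∀ a (h : a < κ.ord), IsSuccLimit a → D.h a = n →
        X.fst (pt a h) ∈ Y.L ∧ X.fst (pt a h) ≠ Y.bot ∧ Y.h (X.fst (pt a h)) = n := by
      intro a h ha hn'
      have h1 := hlimpt a h ha
      refine ⟨by rw [hL]; exact X.fst_L _, ?_, ?_⟩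
      · rw [hbot]
        exact X.fst_ne_bot (ne_of_gt (X.z_lt_of_lim h1))
      · rw [hY, X.hh_fst dat h1, hh, ov_pt, hn']
    have hf : ∀ a ∈ T, f a < a := by
      rintro a ⟨h, ha, hn'⟩
      obtain ⟨h1, h2, h3⟩ := hnode a h ha hn'
      have h4 := hr _ h1 h2 h3
      have h5 : (r (X.fst (pt a h))).a < pt a h := X.lt_fst.1 h4
      simp only [f, dif_pos h]
      rwa [← ov_lt_ov, ov_pt] at h5
    obtain ⟨b, hb⟩ := fodor hκ hu hT f hf
    have hbk : b < κ.ord := by
      obtain ⟨a, ha, ha', ha''⟩ := hb _ (club_lim hκ hu h0)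
      rw [← ha'']
      exact (hf a ha').trans ha'.1
    refine ⟨X.fst (pt (succ b) (hl.succ_lt hbk)), fun i => ?_⟩
    obtain ⟨a, ha, ha', ha''⟩ := hb _ (club_lim hκ hu (ov_lt i.a))
    obtain ⟨h1, h2, h3⟩ := hnode a ha'.1 ha'.2.1 ha'.2.2
    refine ⟨_, h1, ?_, h3, ?_⟩
    · refine Node.lt_of_a ?_
      change i.a < pt a ha'.1
      rw [← ov_lt_ov, ov_pt]
      exact ha.2.1
    · refine (Node.lt_of_a ?_).le
      simp only [f, dif_pos ha'.1] at ha''
      change (r (X.fst (pt a ha'.1))).a < pt (succ b) (hl.succ_lt hbk)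
      rw [← ov_lt_ov, ov_pt, ha'']
      exact lt_succ b

end Pool.Agent.Helper4.KSq
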