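import Pool.Agent.Helper4.KSq.NFun

set_option autoImplicit false

/-!
# The countable base `J`

`J` is the set of germs, with respect to a nonprincipal ultrafilter on `ℕ`, of the functions
generated from the identity by the functions in `fam` and by pairing.
-/

namespace Pool.Agent.Helper4.KSq

open Filter Cod

/-- a nonprincipal ultrafilter -/
noncomputable def JU : Ultrafilter ℕ := Filter.hyperfilter ℕ

/-- generated functions -/
inductive Gen : (ℕ → ℕ) → Prop
  | id : Gen (fun n => n)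
  | ap {f F : ℕ → ℕ} : f ∈ fam → Gen F → Gen (fun n => f (F n))
  | pr {F G : ℕ → ℕ} : Gen F → Gen G → Gen (fun n => Nat.pair (F n) (G n))

/-- the base -/
def J : Type := {g : (JU : Filter ℕ).Germ ℕ // ∃ F, Gen F ∧ (F : (JU : Filter ℕ).Germ ℕ) = g}

noncomputable instance : LinearOrder J := inferInstanceAs
  (LinearOrder {g : (JU : Filter ℕ).Germ ℕ // ∃ F, Gen F ∧ (F : (JU : Filter ℕ).Germ ℕ) = g})

namespace J

/-- the germ of a generated function -/
noncomputable def mk (F : ℕ → ℕ) (hF : Gen F) : J := ⟨F, F, hF, rfl⟩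

theorem ind (a : J) : ∃ F, ∃ hF : Gen F, a = mk F hF := by
  obtain ⟨g, F, hF, rfl⟩ := a
  exact ⟨F, hF, rfl⟩

/-- a representative -/
noncomputable def rep (a : J) : ℕ → ℕ := Classical.choose a.ind
theorem gen_rep (a : J) : Gen a.rep := Classical.choose (Classical.choose_spec a.ind)
theorem mk_rep (a : J) : mk a.rep a.gen_rep = a :=
  (Classical.choose_spec (Classical.choose_spec a.ind)).symm

theorem mk_eq {F G : ℕ → ℕ} (hF : Gen F) (hG : Gen G) :
    mk F hF = mk G hG ↔ ∀ᶠ n in (JU : Filter ℕ), F n = G n := by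
  refine (Subtype.ext_iff (p := fun g : (JU : Filter ℕ).Germ ℕ =>
    ∃ F, Gen F ∧ (F : (JU : Filter ℕ).Germ ℕ) = g)).trans ?_
  exact Filter.Germ.coe_eq

theorem mk_lt {F G : ℕ → ℕ} (hF : Gen F) (hG : Gen G) :
    mk F hF < mk G hG ↔ ∀ᶠ n in (JU : Filter ℕ), F n < G n := by
  show (F : (JU : Filter ℕ).Germ ℕ) < (G : (JU : Filter ℕ).Germ ℕ) ↔ _
  exact Filter.Germ.coe_lt

theorem mk_le {F G : ℕ → ℕ} (hF : Gen F) (hG : Gen G) :
    mk F hF ≤ mk G hG ↔ ∀ᶠ n in (JU : Filter ℕ), F n ≤ G n := by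
  show (F : (JU : Filter ℕ).Germ ℕ) ≤ (G : (JU : Filter ℕ).Germ ℕ) ↔ _
  exact Filter.Germ.coe_le

/-- the relation on `J` given by a relation on the natural numbers -/
theorem rep_mk {F : ℕ → ℕ} (hF : Gen F) : ∀ᶠ n in (JU : Filter ℕ), (mk F hF).rep n = F n :=
  (mk_eq (gen_rep _) hF).1 (mk_rep _)

/-- application of a function in `fam` -/
noncomputable def ap (f : ℕ → ℕ) (hf : f ∈ fam) (a : J) : J := mk _ (Gen.ap hf a.gen_rep)

theorem ap_mk {f F : ℕ → ℕ} (hf : f ∈ fam) (hF : Gen F) :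
    ap f hf (mk F hF) = mk _ (Gen.ap hf hF) := by
  refine (mk_eq _ _).2 ?_
  filter_upwards [rep_mk hF] with n hn
  rw [hn]

theorem gen_const (k : ℕ) : Gen (fun _ => k) := Gen.ap (Or.inl (Or.inl ⟨k, rfl⟩)) Gen.id

noncomputable instance : Cod J where
  pr a b := mk _ (Gen.pr a.gen_rep b.gen_rep)
  num k := mk _ (gen_const k)

theorem pr_mk {F G : ℕ → ℕ} (hF : Gen F) (hG : Gen G) :
    pr (mk F hF) (mk G hG) = mk _ (Gen.pr hF hG) := by
  refine (mk_eq _ _).2 ?_
  filter_upwards [rep_mk hF, rep_mk hG] with n h1 h2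
  rw [h1, h2]

theorem num_def (k : ℕ) : (num k : J) = mk _ (gen_const k) := rfl

theorem mem_fst : (fun x : ℕ => x.unpair.1) ∈ fam := by simp [fam]
theorem mem_snd : (fun x : ℕ => x.unpair.2) ∈ fam := by simp [fam]
theorem mem_add : (fun x : ℕ => x.unpair.1 + x.unpair.2) ∈ fam := by simp [fam]
theorem mem_mul : (fun x : ℕ => x.unpair.1 * x.unpair.2) ∈ fam := by simp [fam]
theorem mem_pred : (fun x : ℕ => x - 1) ∈ fam := by simp [fam]
theorem mem_sk : sk ∈ fam := by simp [fam]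
theorem mem_gam : KSq.gam ∈ fam := by simp [fam]
theorem mem_gmax : KSq.gmax ∈ fam := by simp [fam]
theorem mem_bdgam : KSq.bdc KSq.gam ∈ fam := by simp [fam]
theorem mem_gcgam : KSq.gcd KSq.gam ∈ fam := by simp [fam]
theorem mem_hh : KSq.hh ∈ fam := by simp [fam]
theorem mem_iv : iv itr ∈ fam := by simp [fam]
theorem mem_cP {P : Set Fm} (hP : RecSet P) : cP P ∈ fam := Or.inr ⟨P, hP, Or.inl rfl⟩
theorem mem_bdP {P : Set Fm} (hP : RecSet P) : bdc (cP P) ∈ fam :=
  Or.inr ⟨P, hP, Or.inr (Or.inl rfl)⟩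
theorem mem_gcP {P : Set Fm} (hP : RecSet P) : KSq.gcd (cP P) ∈ fam :=
  Or.inr ⟨P, hP, Or.inr (Or.inr (Or.inl rfl))⟩
theorem mem_ivP {P : Set Fm} (hP : RecSet P) : iv (bdc (cP P)) ∈ fam :=
  Or.inr ⟨P, hP, Or.inr (Or.inr (Or.inr rfl))⟩

/-- the arithmetical structure `J` -/
noncomputable def JAr : Ar J where
  zero := num 0
  one := num 1
  add a b := ap _ mem_add (pr a b)
  mul a b := ap _ mem_mul (pr a b)
  pair := pr
  fst := ap _ mem_fst
  snd := ap _ mem_snd
  lt := (· < ·)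

/-- the satisfaction relation of `J` -/
def SJ (c x : J) : Prop := ∀ᶠ n in (JU : Filter ℕ), SN (c.rep n) (x.rep n)

/-- the structure `J` -/
noncomputable def JJ : Str J J where
  toAr := JAr
  j a := a
  S := SJ

/-- `gam` on `J` -/
noncomputable def gam : J → J := ap _ mem_gam
/-- `gmax` on `J` -/
noncomputable def gmax : J → J := ap _ mem_gmax
/-- successor on `J` -/
noncomputable def sc (a : J) : J := JAr.add a (num 1)
/-- predecessor on `J` -/
noncomputable def pd : J → J := ap _ mem_pred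

end J

end Pool.Agent.Helper4.KSq
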