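import Pool.Agent.Helper4.KSq.JDef

set_option autoImplicit false

/-!
# Cuts of `J` and the class of structures
-/

namespace Pool.Agent.Helper4.KSq

open Filter Cod

/-- cuts of `J` which are closed under pairing and `gmax` -/
structure Cut where
  s : Set J
  down : ∀ {a b : J}, a ≤ b → b ∈ s → a ∈ s
  num : ∀ n, num n ∈ s
  pr : ∀ {a b : J}, a ∈ s → b ∈ s → pr a b ∈ s
  gmax : ∀ {a : J}, a ∈ s → J.gmax a ∈ s

/-- the cut `I` is contained in the cut `K` -/
instance : LE Cut := ⟨fun I K => I.s ⊆ K.s⟩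

theorem Cut.closed (I : Cut) : CClosed I.s := ⟨I.num, fun _ _ => I.pr⟩

/-- `a` is nonstandard -/
def NonSt (a : J) : Prop := ∀ k, a ≠ num k

/-- the structures of length `I` -/
structure IsK {α : Type} (A : Str J α) (I : Cut) : Prop where
  pairing : A.Pairing
  j_pair : ∀ a b, A.j (pr a b) = A.pair (A.j a) (A.j b)
  initial : ∀ x b, A.lt x (A.j b) → ∃ a, x = A.j a
  tarski : A.Tarski I.s
  lnp : ∀ c ∈ I.s, ∀ p, (∃ x, A.S c (A.pair x p)) →
    ∃ x, A.S c (A.pair x p) ∧ ∀ y, A.lt y x → ¬ A.S c (A.pair y p)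
  agree : ∀ (n : ℕ) (x : J), A.S (num n) (A.j x) ↔ J.SJ (num n) x
  /-- standard codes of the empty relation (in particular the invalid codes) -/
  void : ∀ n : ℕ, (∀ x, ¬ SN n x) → ∀ x, ¬ A.S (num n) x

/-- the code of a relation -/
noncomputable def UD.cd {R : Rl} (h : UD R) {C : Type} [Cod C] (ρ : ℕ → C) : C :=
  (Classical.choose h).code1 ρ

theorem UD.cd_mem {R : Rl} (h : UD R) (I : Cut) {ρ : ℕ → J} (hρ : ∀ k, ρ k ∈ I.s) :
    h.cd ρ ∈ I.s := I.closed.code1 hρ _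

theorem UD.cd_spec {R : ∀ (C α : Type), Str C α → (ℕ → C) → α → Prop}
    (h : UD (fun C α A ρ e => R C α A ρ (e 0))) {α : Type} {A : Str J α} {I : Cut}
    (hA : IsK A I) {ρ : ℕ → J} (hρ : ∀ k, ρ k ∈ I.s) (x : α) :
    A.S (h.cd ρ) x ↔ R J α A ρ x := by
  rw [UD.cd, hA.tarski.rep1 hA.pairing I.closed hρ]
  exact Classical.choose_spec h J α A hA.pairing ρ _

end Pool.Agent.Helper4.KSq
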