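import Mathlib

set_option autoImplicit false

/-!
# Kaufmann models of Peano arithmetic and the square principle

Plain definitions: the language of arithmetic, Peano arithmetic, recursive saturation, classes,
`κ`-like and rather classless models, and the principle `□(κ)`.
-/

open Cardinal Set

namespace Pool.Agent.Helper4.KSq

/-! ## The language of arithmetic -/

/-- terms in the language `0, 1, +, ·, <` with variables `v₀, v₁, ...` -/
inductive Tm : Type
  | var : ℕ → Tm
  | zero : Tm
  | one : Tm
  | add : Tm → Tm → Tm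
  | mul : Tm → Tm → Tm

/-- formulas in the language `0, 1, +, ·, <`; `all k φ` is `∀ v_k, φ` -/
inductive Fm : Type
  | eq : Tm → Tm → Fm
  | lt : Tm → Tm → Fm
  | bot : Fm
  | imp : Fm → Fm → Fm
  | all : ℕ → Fm → Fm

/-- Goedel number of a term -/
def Tm.code : Tm → ℕ
  | .zero => 0
  | .one => 1
  | .var k => 3 * k + 2
  | .add t u => 3 * Nat.pair t.code u.code + 3
  | .mul t u => 3 * Nat.pair t.code u.code + 4

/-- Goedel number of a formula -/
def Fm.code : Fm → ℕ
  | .bot => 0
  | .eq t u => 4 * Nat.pair t.code u.code + 1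
  | .lt t u => 4 * Nat.pair t.code u.code + 2
  | .imp φ ψ => 4 * Nat.pair φ.code ψ.code + 3
  | .all k φ => 4 * Nat.pair k φ.code + 4

/-- variables of a term -/
def Tm.vars : Tm → Finset ℕ
  | .var k => {k}
  | .zero => ∅
  | .one => ∅
  | .add t u => t.vars ∪ u.vars
  | .mul t u => t.vars ∪ u.vars

/-- free variables of a formula -/
def Fm.fv : Fm → Finset ℕ
  | .bot => ∅
  | .eq t u => t.vars ∪ u.vars
  | .lt t u => t.vars ∪ u.vars
  | .imp φ ψ => φ.fv ∪ ψ.fv
  | .all k φ => φ.fv.erase k

/-- negation -/
def Fm.neg (φ : Fm) : Fm := .imp φ .bot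

/-- existential quantifier -/
def Fm.ex (k : ℕ) (φ : Fm) : Fm := (Fm.all k φ.neg).neg

/-- a structure for the language of arithmetic with universe `A` -/
structure ArStr (A : Type) where
  zero : A
  one : A
  add : A → A → A
  mul : A → A → A
  lt : A → A → Prop

variable {A : Type}

/-- value of a term under an assignment -/
def Tm.val (M : ArStr A) (v : ℕ → A) : Tm → A
  | .var k => v k
  | .zero => M.zero
  | .one => M.one
  | .add t u => M.add (t.val M v) (u.val M v)
  | .mul t u => M.mul (t.val M v) (u.val M v)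

/-- `φ` is true in `M` under the assignment `v` -/
def Fm.Sat (M : ArStr A) (v : ℕ → A) : Fm → Prop
  | .eq t u => t.val M v = u.val M v
  | .lt t u => M.lt (t.val M v) (u.val M v)
  | .bot => False
  | .imp φ ψ => φ.Sat M v → ψ.Sat M v
  | .all k φ => ∀ a, φ.Sat M (Function.update v k a)

/-! ## Peano arithmetic -/

/-- the finitely many axioms of Peano arithmetic other than induction (the variables are
universally quantified): `x + 1 ≠ 0`, `x + 1 = y + 1 → x = y`, `x + 0 = x`,
`x + (y + 1) = (x + y) + 1`, `x · 0 = 0`, `x · (y + 1) = x · y + x`,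
`x < y → ∃ z, x + (z + 1) = y`, `x + (z + 1) = y → x < y` -/
def basicAxioms : List Fm :=
  let x := Tm.var 0
  let y := Tm.var 1
  let z := Tm.var 2
  [ (Fm.eq (x.add .one) .zero).neg,
    .imp (.eq (x.add .one) (y.add .one)) (.eq x y),
    .eq (x.add .zero) x,
    .eq (x.add (y.add .one)) ((x.add y).add .one),
    .eq (x.mul .zero) .zero,
    .eq (x.mul (y.add .one)) ((x.mul y).add x),
    .imp (.lt x y) (Fm.ex 2 (.eq (x.add (z.add .one)) y)),
    .imp (.eq (x.add (z.add .one)) y) (.lt x y) ]

/-- `M` is a model of Peano arithmetic: the basic axioms and the induction scheme (for every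
formula `φ`, every variable `v_k` and all values of the other variables) -/
def IsPA (M : ArStr A) : Prop :=
  (∀ φ ∈ basicAxioms, ∀ v : ℕ → A, φ.Sat M v) ∧
  ∀ (φ : Fm) (k : ℕ) (v : ℕ → A), φ.Sat M (Function.update v k M.zero) →
    (∀ x, φ.Sat M (Function.update v k x) → φ.Sat M (Function.update v k (M.add x M.one))) →
    ∀ x, φ.Sat M (Function.update v k x)

/-! ## Saturation and classes -/

/-- a recursive set of formulas, all of whose free variables are among `v₀, ..., v_n` for some `n`:
a type in the variable `v₀` over finitely many parameters `v₁, ..., v_n` -/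
def IsRecType (P : Set Fm) : Prop :=
  ComputablePred (fun n : ℕ => ∃ φ ∈ P, φ.code = n) ∧ ∃ n : ℕ, ∀ φ ∈ P, ∀ k ∈ φ.fv, k ≤ n

/-- recursively saturated: every recursive type over finitely many parameters which is finitely
satisfiable is realised -/
def IsRecSat (M : ArStr A) : Prop :=
  ∀ P : Set Fm, IsRecType P → ∀ v : ℕ → A,
    (∀ F : Finset Fm, (F : Set Fm) ⊆ P → ∃ a, ∀ φ ∈ F, φ.Sat M (Function.update v 0 a)) →
    ∃ a, ∀ φ ∈ P, φ.Sat M (Function.update v 0 a)

/-- the set `X` is definable in `M` with parameters -/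
def IsDef (M : ArStr A) (X : Set A) : Prop :=
  ∃ (φ : Fm) (v : ℕ → A), ∀ x, x ∈ X ↔ φ.Sat M (Function.update v 0 x)

/-- the set `X` is a class of `M`: for every `a` the set of its elements below `a` is definable
with parameters -/
def IsClass (M : ArStr A) (X : Set A) : Prop := ∀ a, IsDef M {x | x ∈ X ∧ M.lt x a}

/-- rather classless: every class is definable with parameters -/
def IsRatherClassless (M : ArStr A) : Prop := ∀ X : Set A, IsClass M X → IsDef M X

/-- `κ`-like: of size `κ`, while every proper initial segment has size less than `κ` -/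
def IsLike (κ : Cardinal.{0}) (M : ArStr A) : Prop := #A = κ ∧ ∀ a : A, #{x : A | M.lt x a} < κ

/-- `M` is a `κ`-Kaufmann model: a `κ`-like, recursively saturated, rather classless model of
Peano arithmetic -/
def IsKaufmann (κ : Cardinal.{0}) (M : ArStr A) : Prop :=
  IsPA M ∧ IsLike κ M ∧ IsRecSat M ∧ IsRatherClassless M

/-! ## The square principle -/

/-- `a` is an accumulation point of the set `C` of ordinals: `a > 0` and the elements of `C` below
`a` are unbounded in `a` -/
def IsAcc (C : Set Ordinal.{0}) (a : Ordinal.{0}) : Prop :=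
  0 < a ∧ ∀ b < a, ∃ c ∈ C, b < c ∧ c < a

/-- `C` is a closed unbounded subset of the ordinal `a` -/
def IsClubIn (C : Set Ordinal.{0}) (a : Ordinal.{0}) : Prop :=
  C ⊆ Set.Iio a ∧ (∀ b < a, ∃ c ∈ C, b ≤ c) ∧ ∀ b < a, IsAcc C b → b ∈ C

/-- the principle `□(κ)`: there is a sequence of clubs `C_a ⊆ a`, for the limit ordinals `a < κ`,
which is coherent (`C_b = C_a ∩ b` for every accumulation point `b < a` of `C_a`) and has no
thread (there is no club `D ⊆ κ` with `C_b = D ∩ b` for all accumulation points `b < κ` of `D`) -/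
def Square (κ : Cardinal.{0}) : Prop :=
  ∃ C : Ordinal.{0} → Set Ordinal.{0},
    (∀ a < κ.ord, Order.IsSuccLimit a →
      IsClubIn (C a) a ∧ ∀ b < a, IsAcc (C a) b → C b = C a ∩ Set.Iio b) ∧
    ¬ ∃ D, IsClubIn D κ.ord ∧ ∀ b < κ.ord, IsAcc D b → C b = D ∩ Set.Iio b

end Pool.Agent.Helper4.KSq
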