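import Pool.Agent.Helper4.KSq.KOrd2

set_option autoImplicit false

/-!
# Induction, comprehension and collection
-/

namespace Pool.Agent.Helper4.KSq

open Filter Cod

private def rn1 : ℕ → ℕ
  | 0 => 0
  | n + 1 => n + 2

private def rn2 : ℕ → ℕ
  | 0 => 0
  | n + 1 => n + 3

private def rn3 : ℕ → ℕ
  | 0 => 0
  | n + 1 => n + 4

private def rn4 : ℕ → ℕ
  | 0 => 1
  | 1 => 0
  | n + 2 => n + 5

private theorem sc_le_pr (a : J) : J.sc a ≤ pr a (num 1) := by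
  obtain ⟨F, hF, rfl⟩ := a.ind
  unfold J.sc J.JAr
  simp only [J.num_def, J.pr_mk, J.ap_mk]
  refine (J.mk_le _ _).2 (Filter.Eventually.of_forall fun n => ?_)
  simp only [Nat.unpair_pair]
  exact Nat.add_le_pair _ _

namespace IsK

variable {α : Type} {A : Str J α} {I : Cut} (hA : IsK A I)
include hA

private theorem repx {R : ∀ (C α : Type), Str C α → (ℕ → C) → α → (ℕ → α) → Prop}
    (h : UD (fun C α A ρ e => R C α A ρ (e 0) (fun n => e (n + 1))))
    {ρ : ℕ → J} (hρ : ∀ k, ρ k ∈ I.s) (e : ℕ → α) :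
    ∃ c ∈ I.s, ∃ p, ∀ x, A.S c (A.pair x p) ↔ R J α A ρ x e := by
  obtain ⟨φ, hφ⟩ := h
  refine ⟨φ.code ρ, I.closed.code hρ φ, A.st φ.bd e A.zero, fun x => ?_⟩
  have h1 := hA.tarski.rep hA.pairing I.closed hρ φ (n := φ.bd + 1) (by omega) (cs x e) A.zero
  have h2 := hφ J α A hA.pairing ρ (cs x e)
  exact h1.trans h2

/-- least number principle -/
theorem least {R : ∀ (C α : Type), Str C α → (ℕ → C) → α → (ℕ → α) → Prop}
    (h : UD (fun C α A ρ e => R C α A ρ (e 0) (fun n => e (n + 1))))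
    {ρ : ℕ → J} (hρ : ∀ k, ρ k ∈ I.s) (e : ℕ → α) (hx : ∃ x, R J α A ρ x e) :
    ∃ x, R J α A ρ x e ∧ ∀ y, A.lt y x → ¬ R J α A ρ y e := by
  obtain ⟨c, hc, p, hp⟩ := hA.repx h hρ e
  obtain ⟨x, hx⟩ := hx
  obtain ⟨y, hy, hy2⟩ := hA.lnp c hc p ⟨x, (hp x).mpr hx⟩
  exact ⟨y, (hp y).mp hy, fun z hz h => hy2 z hz ((hp z).mpr h)⟩

private theorem lt_self_succ (a : α) : A.lt a (A.add a A.one) :=
  (hA.lt_succ a a).mpr (Or.inr rfl)

private theorem lt_of_lt_of_le' {a b c : α} (h : A.lt a b) (h' : A.le b c) : A.lt a c := by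
  rcases h' with h' | h'
  · exact hA.trans h h'
  · exact h' ▸ h

private theorem le_trans' {a b c : α} (h : A.le a b) (h' : A.le b c) : A.le a c := by
  rcases h with h | h
  · exact Or.inl (hA.lt_of_lt_of_le' h h')
  · exact h ▸ h'

private theorem not_lt_zero' (a : α) : ¬ A.lt a A.zero := fun h =>
  hA.irrefl a (hA.lt_of_lt_of_le' h (hA.zero_le a))

/-- induction -/
theorem induct {R : ∀ (C α : Type), Str C α → (ℕ → C) → α → (ℕ → α) → Prop}
    (h : UD (fun C α A ρ e => R C α A ρ (e 0) (fun n => e (n + 1))))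
    {ρ : ℕ → J} (hρ : ∀ k, ρ k ∈ I.s) (e : ℕ → α) (h0 : R J α A ρ A.zero e)
    (hs : ∀ x, R J α A ρ x e → R J α A ρ (A.add x A.one) e) (x : α) : R J α A ρ x e := by
  by_contra hcon
  obtain ⟨y, hy, hy2⟩ := hA.least (R := fun C α A ρ x e => ¬ R C α A ρ x e) h.not hρ e ⟨x, hcon⟩
  by_cases hy0 : y = A.zero
  · exact hy (hy0 ▸ h0)
  · obtain ⟨b, rfl⟩ := hA.exists_pred hy0
    exact hy (hs b (not_not.mp (hy2 b (hA.lt_self_succ b))))

/-- greatest element of a bounded nonempty set -/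
theorem greatest {R : ∀ (C α : Type), Str C α → (ℕ → C) → α → (ℕ → α) → Prop}
    (h : UD (fun C α A ρ e => R C α A ρ (e 0) (fun n => e (n + 1))))
    {ρ : ℕ → J} (hρ : ∀ k, ρ k ∈ I.s) (e : ℕ → α) (m : α) (hx : ∃ x, A.le x m ∧ R J α A ρ x e) :
    ∃ x, A.le x m ∧ R J α A ρ x e ∧ ∀ y, A.le y m → R J α A ρ y e → A.le y x := by
  have hU : UD (fun C α A ρ e => ∀ x, A.le x (e 1) →
      R C α A ρ x (fun n => e (n + 2)) → A.le x (e 0)) := by
    refine UD.all (P := fun C α A ρ x e => A.le x (e 1) →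
      R C α A ρ x (fun n => e (n + 2)) → A.le x (e 0)) ?_
    refine UD.imp (UD.le (TD.var 0) (TD.var 2)) (UD.imp ?_ (UD.le (TD.var 0) (TD.var 1)))
    exact h.ren rn2
  obtain ⟨y, hy, hy2⟩ := hA.least (R := fun C α A ρ y e => ∀ x, A.le x (e 0) →
      R C α A ρ x (fun n => e (n + 1)) → A.le x y) hU hρ (cs m e) ⟨m, fun x hx _ => hx⟩
  change ∀ x, A.le x m → R J α A ρ x e → A.le x y at hy
  change ∀ y', A.lt y' y → ¬ ∀ x, A.le x m → R J α A ρ x e → A.le x y' at hy2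
  have key : ∃ x, A.le x m ∧ R J α A ρ x e ∧ x = y := by
    by_cases hy0 : y = A.zero
    · obtain ⟨x, hxm, hxR⟩ := hx
      refine ⟨x, hxm, hxR, ?_⟩
      have := hy x hxm hxR
      rw [hy0] at this ⊢
      rcases this with h1 | h1
      · exact absurd h1 (hA.not_lt_zero' x)
      · exact h1
    · obtain ⟨b, rfl⟩ := hA.exists_pred hy0
      have h1 := hy2 b (hA.lt_self_succ b)
      push Not at h1
      obtain ⟨x, hxm, hxR, hxb⟩ := h1
      refine ⟨x, hxm, hxR, ?_⟩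
      rcases hy x hxm hxR with h2 | h2
      · exact absurd ((hA.lt_succ x b).mp h2) hxb
      · exact h2
  obtain ⟨x, hxm, hxR, rfl⟩ := key
  exact ⟨x, hxm, hxR, hy⟩

/-- comprehension -/
theorem compr {R : ∀ (C α : Type), Str C α → (ℕ → C) → α → (ℕ → α) → Prop}
    (h : UD (fun C α A ρ e => R C α A ρ (e 0) (fun n => e (n + 1))))
    {ρ : ℕ → J} (hρ : ∀ k, ρ k ∈ I.s) (e : ℕ → α) (b : α) :
    ∃ u, ∀ y, A.lt y b → (A.E u y ↔ R J α A ρ y e) := by
  have hU : UD (fun C α A ρ e => ∃ u, ∀ y, A.lt y (e 1) →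
      (A.E u y ↔ R C α A ρ y (fun n => e (n + 2)) ∧ A.lt y (e 0))) := by
    refine UD.ex (P := fun C α A ρ u e => ∀ y, A.lt y (e 1) →
      (A.E u y ↔ R C α A ρ y (fun n => e (n + 2)) ∧ A.lt y (e 0))) ?_
    refine UD.all (P := fun C α A ρ y e => A.lt y (e 2) →
      (A.E (e 0) y ↔ R C α A ρ y (fun n => e (n + 3)) ∧ A.lt y (e 1))) ?_
    refine UD.imp (UD.lt (TD.var 0) (TD.var 3)) (UD.iff (UD.E (TD.var 1) (TD.var 0))
      (UD.and ?_ (UD.lt (TD.var 0) (TD.var 2))))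
    exact h.ren rn3
  have key := hA.induct (R := fun C α A ρ i e => ∃ u, ∀ y, A.lt y (e 0) →
      (A.E u y ↔ R C α A ρ y (fun n => e (n + 1)) ∧ A.lt y i)) hU hρ (cs b e) (by
        obtain ⟨u, hu⟩ := hA.E_empty b
        refine ⟨u, fun y hy => ?_⟩
        constructor
        · intro h1; exact absurd h1 (hu y hy)
        · rintro ⟨_, h1⟩; exact absurd h1 (hA.not_lt_zero' y)) (by
        rintro i ⟨u, hu⟩
        change ∀ y, A.lt y b → (A.E u y ↔ R J α A ρ y e ∧ A.lt y i) at hu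
        change ∃ u, ∀ y, A.lt y b → (A.E u y ↔ R J α A ρ y e ∧ A.lt y (A.add i A.one))
        by_cases hR : R J α A ρ i e
        · obtain ⟨u', hu'⟩ := hA.E_insert u i b
          refine ⟨u', fun y hy => ?_⟩
          rw [hu' y hy, hu y hy, hA.lt_succ]
          constructor
          · rintro (⟨h1, h2⟩ | h1)
            · exact ⟨h1, Or.inl h2⟩
            · exact ⟨h1 ▸ hR, Or.inr h1⟩
          · rintro ⟨h1, h2 | h2⟩
            · exact Or.inl ⟨h1, h2⟩
            · exact Or.inr h2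
        · refine ⟨u, fun y hy => ?_⟩
          rw [hu y hy, hA.lt_succ]
          constructor
          · rintro ⟨h1, h2⟩
            exact ⟨h1, Or.inl h2⟩
          · rintro ⟨h1, h2 | h2⟩
            · exact ⟨h1, h2⟩
            · exact absurd (h2 ▸ h1) hR) b
  obtain ⟨u, hu⟩ := key
  refine ⟨u, fun y hy => ?_⟩
  rw [hu y hy]
  exact ⟨fun h1 => h1.1, fun h1 => ⟨h1, hy⟩⟩

/-- collection -/
theorem collect {R : ∀ (C α : Type), Str C α → (ℕ → C) → α → α → (ℕ → α) → Prop}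
    (h : UD (fun C α A ρ e => R C α A ρ (e 0) (e 1) (fun n => e (n + 2))))
    {ρ : ℕ → J} (hρ : ∀ k, ρ k ∈ I.s) (e : ℕ → α) (b : α)
    (hR : ∀ x, A.le x b → ∃ y, R J α A ρ x y e) :
    ∃ m, ∀ x, A.le x b → ∃ y, A.le y m ∧ R J α A ρ x y e := by
  have hU : UD (fun C α A ρ e => ∃ m, ∀ x, A.le x (e 1) → A.lt x (e 0) →
      ∃ y, A.le y m ∧ R C α A ρ x y (fun n => e (n + 2))) := by
    refine UD.ex (P := fun C α A ρ m e => ∀ x, A.le x (e 1) → A.lt x (e 0) →
      ∃ y, A.le y m ∧ R C α A ρ x y (fun n => e (n + 2))) ?_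
    refine UD.all (P := fun C α A ρ x e => A.le x (e 2) → A.lt x (e 1) →
      ∃ y, A.le y (e 0) ∧ R C α A ρ x y (fun n => e (n + 3))) ?_
    refine UD.imp (UD.le (TD.var 0) (TD.var 3)) (UD.imp (UD.lt (TD.var 0) (TD.var 2)) ?_)
    refine UD.ex (P := fun C α A ρ y e => A.le y (e 1) ∧ R C α A ρ (e 0) y
      (fun n => e (n + 4))) ?_
    refine UD.and (UD.le (TD.var 0) (TD.var 2)) ?_
    exact h.ren rn4
  have key := hA.induct (R := fun C α A ρ i e => ∃ m, ∀ x, A.le x (e 0) → A.lt x i →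
      ∃ y, A.le y m ∧ R C α A ρ x y (fun n => e (n + 1))) hU hρ (cs b e)
      ⟨b, fun x _ hx => absurd hx (hA.not_lt_zero' x)⟩ (by
        rintro i ⟨m, hm⟩
        change ∀ x, A.le x b → A.lt x i → ∃ y, A.le y m ∧ R J α A ρ x y e at hm
        change ∃ m, ∀ x, A.le x b → A.lt x (A.add i A.one) → ∃ y, A.le y m ∧ R J α A ρ x y e
        by_cases hib : A.le i b
        · obtain ⟨y, hy⟩ := hR i hib
          obtain ⟨m', h1, h2⟩ : ∃ m', A.le m m' ∧ A.le y m' := by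
            rcases hA.tri m y with h1 | h1 | h1
            · exact ⟨y, Or.inl h1, Or.inr rfl⟩
            · exact ⟨y, Or.inr h1, Or.inr rfl⟩
            · exact ⟨m, Or.inr rfl, Or.inl h1⟩
          refine ⟨m', fun x hx hxi => ?_⟩
          rcases (hA.lt_succ x i).mp hxi with h3 | h3
          · obtain ⟨z, hz1, hz2⟩ := hm x hx h3
            exact ⟨z, hA.le_trans' hz1 h1, hz2⟩
          · subst h3
            exact ⟨y, h2, hy⟩
        · refine ⟨m, fun x hx hxi => ?_⟩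
          rcases (hA.lt_succ x i).mp hxi with h3 | h3
          · exact hm x hx h3
          · subst h3
            exact absurd hx hib) (A.add b A.one)
  obtain ⟨m, hm⟩ := key
  exact ⟨m, fun x hx => hm x hx ((hA.lt_succ x b).mpr hx)⟩

/-- overspill: a property which holds for all elements of the cut `K` holds for some element of
`J` above `K` -/
theorem overspill {R : ∀ (C α : Type), Str C α → (ℕ → C) → α → (ℕ → α) → Prop}
    (h : UD (fun C α A ρ e => R C α A ρ (e 0) (fun n => e (n + 1))))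
    {ρ : ℕ → J} (hρ : ∀ k, ρ k ∈ I.s) (e : ℕ → α) (K : Cut) {d0 : J} (hd0 : d0 ∉ K.s)
    (hR : ∀ d ∈ K.s, R J α A ρ (A.j d) e) :
    ∃ d : J, d ∉ K.s ∧ R J α A ρ (A.j d) e := by
  by_cases hRd0 : R J α A ρ (A.j d0) e
  · exact ⟨d0, hd0, hRd0⟩
  obtain ⟨y, hy, hy2⟩ := hA.least (R := fun C α A ρ x e => ¬ R C α A ρ x e) h.not hρ e
    ⟨A.j d0, hRd0⟩
  have hyj : ∃ a, y = A.j a := by
    rcases hA.tri y (A.j d0) with h1 | h1 | h1
    · exact hA.initial y d0 h1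
    · exact ⟨d0, h1⟩
    · exact absurd hRd0 (hy2 _ h1)
  obtain ⟨a, rfl⟩ := hyj
  have haK : a ∉ K.s := fun h1 => hy (hR a h1)
  have h0 : A.j a ≠ A.zero := by
    intro h1
    have h2 : A.j (num 0) = A.zero := hA.j_num 0
    apply hy
    rw [h1, ← h2]
    exact hR _ (K.num 0)
  obtain ⟨b, hb⟩ := hA.exists_pred h0
  have hba : A.lt b (A.j a) := by rw [hb]; exact hA.lt_self_succ b
  obtain ⟨a', rfl⟩ := hA.initial b a hba
  have haa : a = J.sc a' := by
    apply hA.j_inj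
    rw [hb, hA.j_sc]
  refine ⟨a', fun h1 => haK ?_, not_not.mp (hy2 _ hba)⟩
  rw [haa]
  exact K.down (sc_le_pr a') (K.pr h1 (K.num 1))

end IsK

end Pool.Agent.Helper4.KSq
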