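import Pool.Agent.Helper4.KSq.Transfer

set_option autoImplicit false

/-!
# Order and coding in the structures of the class
-/

namespace Pool.Agent.Helper4.KSq

open Filter Cod

theorem kord_le_iff (a b : ℕ) : NN.le a b ↔ a ≤ b := by
  constructor
  · rintro (h | h)
    · exact le_of_lt h
    · exact le_of_eq h
  · intro h
    rcases lt_or_eq_of_le h with h | h
    · exact Or.inl h
    · exact Or.inr h

theorem kord_pair_mono {a a' b b' : ℕ} (h : a ≤ a') (h' : b ≤ b') :
    Nat.pair a b ≤ Nat.pair a' b' := by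
  have h1 : Nat.pair a b ≤ Nat.pair a' b := by
    rcases lt_or_eq_of_le h with h | h
    · exact le_of_lt (Nat.pair_lt_pair_left b h)
    · rw [h]
  have h2 : Nat.pair a' b ≤ Nat.pair a' b' := by
    rcases lt_or_eq_of_le h' with h' | h'
    · exact le_of_lt (Nat.pair_lt_pair_right a' h')
    · rw [h']
  exact h1.trans h2

namespace IsK

variable {α : Type} {A : Str J α} {I : Cut} (hA : IsK A I)
include hA

theorem irrefl (a : α) : ¬ A.lt a a := by
  have h := transfer hA (R := fun _ _ A _ e => ¬ A.lt (e 0) (e 0))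
    (UD.not (UD.lt (TD.var 0) (TD.var 0))) (fun _ => 0)
    (fun e => lt_irrefl (e 0)) (fun _ => a)
  exact h

theorem trans {a b c : α} (h : A.lt a b) (h' : A.lt b c) : A.lt a c := by
  have h0 := transfer hA (R := fun _ _ A _ e => A.lt (e 0) (e 1) → A.lt (e 1) (e 2) →
      A.lt (e 0) (e 2))
    (UD.imp (UD.lt (TD.var 0) (TD.var 1)) (UD.imp (UD.lt (TD.var 1) (TD.var 2))
      (UD.lt (TD.var 0) (TD.var 2)))) (fun _ => 0)
    (fun e (h1 : e 0 < e 1) (h2 : e 1 < e 2) => lt_trans h1 h2) (cs a (cs b (fun _ => c)))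
  exact h0 h h'

theorem tri (a b : α) : A.lt a b ∨ a = b ∨ A.lt b a := by
  have h := transfer hA (R := fun _ _ A _ e => A.lt (e 0) (e 1) ∨ e 0 = e 1 ∨ A.lt (e 1) (e 0))
    (UD.or (UD.lt (TD.var 0) (TD.var 1)) (UD.or (UD.eq (TD.var 0) (TD.var 1))
      (UD.lt (TD.var 1) (TD.var 0)))) (fun _ => 0)
    (fun e => lt_trichotomy (e 0) (e 1)) (cs a (fun _ => b))
  exact h

theorem zero_le (a : α) : A.le A.zero a := by
  have h := transfer hA (R := fun _ _ A _ e => A.le A.zero (e 0))
    (UD.le TD.zero (TD.var 0)) (fun _ => 0)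
    (fun e => (kord_le_iff _ _).2 (Nat.zero_le (e 0))) (fun _ => a)
  exact h

theorem lt_succ (a b : α) : A.lt a (A.add b A.one) ↔ A.le a b := by
  have h := transfer hA (R := fun _ _ A _ e => (A.lt (e 0) (A.add (e 1) A.one) ↔
      A.le (e 0) (e 1)))
    (UD.iff (UD.lt (TD.var 0) (TD.add (TD.var 1) TD.one)) (UD.le (TD.var 0) (TD.var 1)))
    (fun _ => 0)
    (fun e => by
      show e 0 < e 1 + 1 ↔ NN.le (e 0) (e 1)
      rw [kord_le_iff]
      omega) (cs a (fun _ => b))
  exact h

theorem exists_pred {a : α} (h : a ≠ A.zero) : ∃ b, a = A.add b A.one := by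
  have h0 := transfer hA (R := fun _ _ A _ e => ¬ e 0 = A.zero → ∃ b, e 0 = A.add b A.one)
    (by
      repeat' first
        | exact TD.var _ | exact TD.zero | exact TD.one | exact TD.nm _ | assumption
        | apply TD.fst | apply TD.snd | apply TD.pair | apply TD.add | apply TD.mul | apply TD.ren
        | apply UD.S | apply UD.E | apply UD.lt | apply UD.le | apply UD.eq
        | apply UD.not | apply UD.and | apply UD.or | apply UD.iff | apply UD.all | apply UD.ex
        | apply UD.imp)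
    (fun _ => 0)
    (fun e => by
      show ¬ e 0 = 0 → ∃ b, e 0 = b + 1
      intro h1
      exact ⟨e 0 - 1, by omega⟩) (fun _ => a)
  exact h0 h

theorem succ_inj {a b : α} (h : A.add a A.one = A.add b A.one) : a = b := by
  have h0 := transfer hA (R := fun _ _ A _ e => A.add (e 0) A.one = A.add (e 1) A.one →
      e 0 = e 1)
    (UD.imp (UD.eq (TD.add (TD.var 0) TD.one) (TD.add (TD.var 1) TD.one))
      (UD.eq (TD.var 0) (TD.var 1)))
    (fun _ => 0)
    (fun e => by
      show e 0 + 1 = e 1 + 1 → e 0 = e 1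
      intro h1
      omega) (cs a (fun _ => b))
  exact h0 h

theorem le_pair (a b : α) : A.le a (A.pair a b) ∧ A.le b (A.pair a b) := by
  have h := transfer hA (R := fun _ _ A _ e => A.le (e 0) (A.pair (e 0) (e 1)) ∧
      A.le (e 1) (A.pair (e 0) (e 1)))
    (UD.and (UD.le (TD.var 0) (TD.pair (TD.var 0) (TD.var 1)))
      (UD.le (TD.var 1) (TD.pair (TD.var 0) (TD.var 1))))
    (fun _ => 0)
    (fun e => ⟨(kord_le_iff _ _).2 (Nat.left_le_pair (e 0) (e 1)),
      (kord_le_iff _ _).2 (Nat.right_le_pair (e 0) (e 1))⟩) (cs a (fun _ => b))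
  exact h

theorem pair_mono {a a' b b' : α} (h : A.le a a') (h' : A.le b b') :
    A.le (A.pair a b) (A.pair a' b') := by
  have h0 := transfer hA (R := fun _ _ A _ e => A.le (e 0) (e 1) → A.le (e 2) (e 3) →
      A.le (A.pair (e 0) (e 2)) (A.pair (e 1) (e 3)))
    (UD.imp (UD.le (TD.var 0) (TD.var 1)) (UD.imp (UD.le (TD.var 2) (TD.var 3))
      (UD.le (TD.pair (TD.var 0) (TD.var 2)) (TD.pair (TD.var 1) (TD.var 3)))))
    (fun _ => 0)
    (fun e h1 h2 => (kord_le_iff _ _).2
      (kord_pair_mono ((kord_le_iff _ _).1 h1) ((kord_le_iff _ _).1 h2)))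
    (cs a (cs a' (cs b (fun _ => b'))))
  exact h0 h h'

theorem pair_zero : A.pair A.zero A.zero = A.zero := by
  have h := transfer hA (R := fun _ _ A _ _ => A.pair A.zero A.zero = A.zero)
    (UD.eq (TD.pair TD.zero TD.zero) TD.zero) (fun _ => 0)
    (fun e => by
      show Nat.pair 0 0 = 0
      decide) (fun _ => A.zero)
  exact h

end IsK

end Pool.Agent.Helper4.KSq
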