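import Pool.Agent.Helper4.KSq.KOrd

set_option autoImplicit false

/-!
# Coding and the embedding of `J`
-/

namespace Pool.Agent.Helper4.KSq

open Filter Cod

private theorem KOrd2_rep_ap {f : ℕ → ℕ} (hf : f ∈ fam) (a : J) :
    ∀ᶠ n in (JU : Filter ℕ), (J.ap f hf a).rep n = f (a.rep n) := J.rep_mk _

private theorem KOrd2_rep_pr (a b : J) :
    ∀ᶠ n in (JU : Filter ℕ), (pr a b : J).rep n = Nat.pair (a.rep n) (b.rep n) :=
  J.rep_mk (Gen.pr a.gen_rep b.gen_rep)

private theorem KOrd2_rep_num (k : ℕ) :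
    ∀ᶠ n in (JU : Filter ℕ), (num k : J).rep n = k := J.rep_mk (J.gen_const k)

private theorem KOrd2_nm (k : ℕ) : NN.nm k = k := by
  induction k with
  | zero => rfl
  | succ k ih =>
    show NN.nm k + 1 = k + 1
    rw [ih]

private theorem KOrd2_le {a b : ℕ} (h : a ≤ b) : NN.le a b := by
  rcases h.lt_or_eq with h | h
  · exact Or.inl h
  · exact Or.inr h

namespace IsK

variable {α : Type} {A : Str J α} {I : Cut} (hA : IsK A I)
include hA

/-- adding an element to a coded set -/
theorem E_insert (u y b : α) : ∃ u', ∀ x, A.lt x b → (A.E u' x ↔ A.E u x ∨ x = y) := by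
  have h : UD (fun _ _ A _ e => ∃ u', ∀ x, A.lt x (e 2) → (A.E u' x ↔ A.E (e 0) x ∨ x = e 1)) := by
    repeat' first
      | exact TD.var _ | exact TD.zero | exact TD.one | exact TD.nm _ | assumption
      | apply TD.fst | apply TD.snd | apply TD.pair | apply TD.add | apply TD.mul | apply TD.ren
      | apply UD.S | apply UD.E | apply UD.lt | apply UD.le | apply UD.eq
      | apply UD.not | apply UD.and | apply UD.or | apply UD.iff | apply UD.all | apply UD.ex
      | apply UD.imp
  exact transfer hA h (fun _ => 0) (fun e => N_compr _ _) (cs u (cs y (fun _ => b)))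
theorem E_empty (b : α) : ∃ u, ∀ x, A.lt x b → ¬ A.E u x := by
  have h : UD (fun _ _ A _ e => ∃ u, ∀ x, A.lt x (e 0) → ¬ A.E u x) := by
    repeat' first
      | exact TD.var _ | exact TD.zero | exact TD.one | exact TD.nm _ | assumption
      | apply TD.fst | apply TD.snd | apply TD.pair | apply TD.add | apply TD.mul | apply TD.ren
      | apply UD.S | apply UD.E | apply UD.lt | apply UD.le | apply UD.eq
      | apply UD.not | apply UD.and | apply UD.or | apply UD.iff | apply UD.all | apply UD.ex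
      | apply UD.imp
  refine transfer hA h (fun _ => 0) (fun e => ?_) (fun _ => b)
  obtain ⟨u, hu⟩ := N_compr (fun _ => False) (e 0)
  exact ⟨u, fun x hx hE => (hu x hx).1 hE⟩
/-- all subsets of `[0, b]` which are coded have a code `≤ m` -/
theorem E_bound (b : α) : ∃ m, ∀ u, ∃ u', A.le u' m ∧ ∀ z, A.le z b → (A.E u z ↔ A.E u' z) := by
  have h : UD (fun _ _ A _ e => ∃ m, ∀ u, ∃ u', A.le u' m ∧
      ∀ z, A.le z (e 0) → (A.E u z ↔ A.E u' z)) := by
    repeat' first
      | exact TD.var _ | exact TD.zero | exact TD.one | exact TD.nm _ | assumption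
      | apply TD.fst | apply TD.snd | apply TD.pair | apply TD.add | apply TD.mul | apply TD.ren
      | apply UD.S | apply UD.E | apply UD.lt | apply UD.le | apply UD.eq
      | apply UD.not | apply UD.and | apply UD.or | apply UD.iff | apply UD.all | apply UD.ex
      | apply UD.imp
  refine transfer hA h (fun _ => 0) (fun e => ?_) (fun _ => b)
  classical
  have hc : ∀ s : Finset ℕ, ∃ v, ∀ y < e 0 + 1, NAr.E v y ↔ y ∈ s := fun s =>
    N_compr (fun y => y ∈ s) (e 0 + 1)
  choose c hc using hc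
  refine ⟨((Finset.range (e 0 + 1)).powerset).sup c, fun u => ?_⟩
  refine ⟨c ((Finset.range (e 0 + 1)).filter fun y => NAr.E u y), ?_, ?_⟩
  · refine KOrd2_le ?_
    exact Finset.le_sup (f := c) (Finset.mem_powerset.2 (Finset.filter_subset _ _))
  · intro z hz
    have hz' : z < e 0 + 1 := by
      rcases hz with hz | hz
      · exact Nat.lt_succ_of_lt hz
      · exact Nat.lt_succ_of_le hz.le
    have h1 := hc ((Finset.range (e 0 + 1)).filter fun y => NAr.E u y) z hz'
    rw [Finset.mem_filter, Finset.mem_range] at h1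
    constructor
    · intro hE
      exact h1.2 ⟨hz', hE⟩
    · intro hE
      exact (h1.1 hE).2

theorem j_lt (a b : J) : A.lt (A.j a) (A.j b) ↔ a < b := by
  have h : UD (fun _ _ A _ e => A.lt (e 0) (e 1)) := UD.lt (TD.var 0) (TD.var 1)
  have h1 := agree_UD hA h (fun _ => 0) (cs a (fun _ => b))
  have h2 := J.mk_lt a.gen_rep b.gen_rep
  rw [J.mk_rep, J.mk_rep] at h2
  exact h1.trans h2.symm
theorem j_inj {a b : J} (h : A.j a = A.j b) : a = b := by
  have h0 : UD (fun _ _ A _ e => e 0 = e 1) := UD.eq (TD.var 0) (TD.var 1)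
  have h1 := agree_UD hA h0 (fun _ => 0) (cs a (fun _ => b))
  have h2 := J.mk_eq a.gen_rep b.gen_rep
  rw [J.mk_rep, J.mk_rep] at h2
  exact h2.2 (h1.1 h)
theorem j_num (k : ℕ) : A.j (num k) = A.nm k := by
  have h0 : UD (fun _ _ A _ e => e 0 = A.nm k) := UD.eq (TD.var 0) (TD.nm k)
  have h1 := agree_UD hA h0 (fun _ => 0) (fun _ => num k)
  refine h1.2 ?_
  filter_upwards [KOrd2_rep_num k] with n hn
  rw [hn, KOrd2_nm]
theorem j_sc (a : J) : A.j (J.sc a) = A.add (A.j a) A.one := by
  have h0 : UD (fun _ _ A _ e => e 0 = A.add (e 1) A.one) :=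
    UD.eq (TD.var 0) (TD.add (TD.var 1) TD.one)
  have h1 := agree_UD hA h0 (fun _ => 0) (cs (J.sc a) (fun _ => a))
  refine h1.2 ?_
  filter_upwards [KOrd2_rep_ap J.mem_add (pr a (num 1)), KOrd2_rep_pr a (num 1),
    KOrd2_rep_num 1] with n hn1 hn2 hn3
  show (J.sc a).rep n = a.rep n + 1
  have h3 : (J.sc a).rep n = (J.ap _ J.mem_add (pr a (num 1))).rep n := rfl
  rw [h3, hn1, hn2, hn3]
  simp
theorem j_fst (a : J) : A.fst (A.j a) = A.j (J.JAr.fst a) := by
  have h0 : UD (fun _ _ A _ e => A.fst (e 0) = e 1) := UD.eq (TD.fst (TD.var 0)) (TD.var 1)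
  have h1 := agree_UD hA h0 (fun _ => 0) (cs a (fun _ => J.JAr.fst a))
  refine h1.2 ?_
  filter_upwards [KOrd2_rep_ap J.mem_fst a] with n hn
  exact hn.symm
theorem j_snd (a : J) : A.snd (A.j a) = A.j (J.JAr.snd a) := by
  have h0 : UD (fun _ _ A _ e => A.snd (e 0) = e 1) := UD.eq (TD.snd (TD.var 0)) (TD.var 1)
  have h1 := agree_UD hA h0 (fun _ => 0) (cs a (fun _ => J.JAr.snd a))
  refine h1.2 ?_
  filter_upwards [KOrd2_rep_ap J.mem_snd a] with n hn
  exact hn.symm
/-- the predicate `E` on `J` -/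
theorem j_E (u y : J) : A.E (A.j u) (A.j y) ↔ ∀ᶠ n in (JU : Filter ℕ), NAr.E (u.rep n) (y.rep n) := by
  have h0 : UD (fun _ _ A _ e => A.E (e 0) (e 1)) := UD.E (TD.var 0) (TD.var 1)
  exact agree_UD hA h0 (fun _ => 0) (cs u (fun _ => y))

end IsK

end Pool.Agent.Helper4.KSq
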