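import Pool.Agent.Helper4.KSq.PSFacts3

set_option autoImplicit false

/-!
# Standard codes
-/

namespace Pool.Agent.Helper4.KSq

open Filter Cod Cardinal

theorem J.eq_num_of_le {a : J} {k : ℕ} (h : a ≤ num k) : ∃ i, a = num i := by
  obtain ⟨F, hF, rfl⟩ := a.ind
  rw [J.num_def, J.mk_le] at h
  have key : ∀ k : ℕ, (∀ᶠ n in (JU : Filter ℕ), F n ≤ k) →
      ∃ i, ∀ᶠ n in (JU : Filter ℕ), F n = i := by
    intro k
    induction k with
    | zero =>
      intro h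
      exact ⟨0, h.mono fun n hn => Nat.le_zero.1 hn⟩
    | succ k ih =>
      intro h
      have h' : ∀ᶠ n in (JU : Filter ℕ), F n ≤ k ∨ F n = k + 1 :=
        h.mono fun n hn => by omega
      rcases Ultrafilter.eventually_or.1 h' with h1 | h1
      · exact ih h1
      · exact ⟨k + 1, h1⟩
  obtain ⟨i, hi⟩ := key k h
  exact ⟨i, (J.mk_eq _ _).2 hi⟩

theorem J.gmax_num (k : ℕ) : J.gmax (num k) = num (KSq.gmax k) :=
  J.ap_mk J.mem_gmax (J.gen_const k)

/-- the cut of the standard numbers -/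
noncomputable def om : Cut where
  s := {a | ∃ k, a = num k}
  down := by
    rintro a b h ⟨k, rfl⟩
    exact J.eq_num_of_le h
  num := fun n => ⟨n, rfl⟩
  pr := by
    rintro a b ⟨k, rfl⟩ ⟨l, rfl⟩
    exact ⟨_, J.pr_num k l⟩
  gmax := by
    rintro a ⟨k, rfl⟩
    exact ⟨_, J.gmax_num k⟩

/-- truth for codes `≤ g` -/
theorem IsK.S_c5 {α : Type} {A : Str J α} {I : Cut} (hA : IsK A I) {g c : J} (hg : g ∈ I.s)
    (hc : c ≤ g) (x : α) : A.S (c5 g) (A.pair (A.j c) x) ↔ A.S c x := by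
  rw [hA.tarski.sat g (I.pr (I.num 5) hg), hA.pairing.fst_pair, hA.pairing.snd_pair]
  constructor
  · rintro ⟨c', -, h1, h2⟩
    rwa [hA.j_inj h1]
  · exact fun h => ⟨c, hc, rfl, h⟩

/-- the relation used in `standard_code` -/
def stR (C α : Type) (A : Str C α) (ρ : ℕ → C) (x : α) (e : ℕ → α) : Prop :=
  ∃ p', ∀ y, (A.S (ρ 0) (A.pair x (A.pair y p')) ↔ A.S (ρ 1) (A.pair y (e 0)))

theorem stR_UD : UD (fun C α A ρ e => stR C α A ρ (e 0) (fun n => e (n + 1))) := by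
  unfold stR
  repeat' first
    | exact TD.var _ | exact TD.zero | exact TD.one | exact TD.nm _ | assumption
    | apply TD.fst | apply TD.snd | apply TD.pair | apply TD.add | apply TD.mul | apply TD.ren
    | apply UD.S | apply UD.E | apply UD.lt | apply UD.le | apply UD.eq
    | apply UD.not | apply UD.and | apply UD.or | apply UD.iff | apply UD.all | apply UD.ex

/-- type level version of `standard_code` -/
theorem standard_code' {α : Type} (V : Levels) {A : Str J α} (hA : IsK A (V.I 0)) {X : Set α}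
    (h : ∀ n, 1 ≤ n → ∃ g ∈ (V.I n).s, ∃ p, ∀ y, (y ∈ X ↔ A.S g (A.pair y p))) :
    ∃ (k : ℕ), ∃ p, ∀ y, (y ∈ X ↔ A.S (num k) (A.pair y p)) := by
  obtain ⟨g, hg1, p, hp⟩ := h 1 le_rfl
  have hg : g ∈ (V.I 0).s := V.anti 0 hg1
  have hc5 : c5 g ∈ (V.I 0).s := (V.I 0).pr ((V.I 0).num 5) hg
  let ρ : ℕ → J := fun k => if k = 0 then c5 g else g
  have hρ : ∀ k, ρ k ∈ (V.I 0).s := by
    intro k
    by_cases hk : k = 0
    · simp only [ρ, hk, if_true]; exact hc5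
    · simp only [ρ, hk, if_false]; exact hg
  have key : ∀ a : J, a ≤ g → (stR J α A ρ (A.j a) (fun _ => p) ↔
      ∃ p', ∀ y, (y ∈ X ↔ A.S a (A.pair y p'))) := by
    intro a ha
    unfold stR
    refine exists_congr fun p' => forall_congr' fun y => ?_
    rw [hp y]
    show (A.S (c5 g) _ ↔ A.S g _) ↔ _
    rw [hA.S_c5 hg ha]
    exact iff_comm
  obtain ⟨x, hx, hmin⟩ := hA.least stR_UD hρ (fun _ => p) ⟨A.j g, (key g le_rfl).2 ⟨p, hp⟩⟩
  have hxg : A.le x (A.j g) := by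
    rcases hA.tri x (A.j g) with h1 | h1 | h1
    · exact Or.inl h1
    · exact Or.inr h1
    · exact absurd ((key g le_rfl).2 ⟨p, hp⟩) (hmin _ h1)
  obtain ⟨a, ha, rfl⟩ : ∃ a : J, a ≤ g ∧ x = A.j a := by
    rcases hxg with h1 | h1
    · obtain ⟨a, rfl⟩ := hA.initial x g h1
      exact ⟨a, ((hA.j_lt a g).1 h1).le, rfl⟩
    · exact ⟨g, le_rfl, h1⟩
  have hall : ∀ n, a ∈ (V.I n).s := by
    intro n
    rcases Nat.eq_zero_or_pos n with rfl | hn
    · exact (V.I 0).down ha hg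
    · obtain ⟨g', hg', p', hp'⟩ := h n hn
      refine (V.I n).down ?_ hg'
      rcases le_total g' g with h1 | h1
      · by_contra h2
        rw [not_le] at h2
        exact hmin _ ((hA.j_lt g' a).2 h2) ((key g' h1).2 ⟨p', hp'⟩)
      · exact ha.trans h1
  obtain ⟨k, rfl⟩ := V.inter a hall
  exact ⟨k, (key _ ha).1 hx⟩

/-- an element of `D_{I n}` for all `n` has a standard code -/
theorem standard_code {Ω : Type} (V : Levels) {A : PS Ω} (hA : IsK A.sub (V.I 0)) {X : Set Ω}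
    (h : ∀ n, 1 ≤ n → ∃ g ∈ (V.I n).s, ∃ p ∈ A.U, ∀ y ∈ A.U, (y ∈ X ↔ A.S g (A.pair y p))) :
    ∃ (k : ℕ), ∃ p ∈ A.U, ∀ y ∈ A.U, (y ∈ X ↔ A.S (num k) (A.pair y p)) := by
  obtain ⟨k, p, hp⟩ := standard_code' V hA (X := {y : A.U | (y : Ω) ∈ X}) (fun n hn => by
    obtain ⟨g, hg, p, hpU, hp⟩ := h n hn
    exact ⟨g, hg, ⟨p, hpU⟩, fun y => hp y y.2⟩)
  exact ⟨k, p, p.2, fun y hy => hp ⟨y, hy⟩⟩

end Pool.Agent.Helper4.KSq
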