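import Pool.Agent.Helper4.KSq.TFacts
import Pool.Agent.Helper4.KSq.Kauf1
import Pool.Agent.Helper4.KSq.FinDef

set_option autoImplicit false

/-!
# The union of the tower
-/

namespace Pool.Agent.Helper4.KSq

open Filter Cod Cardinal

namespace Setup

variable {Ω ι : Type} [LinearOrder ι] (Z : Setup Ω ι)

include Z in
/-- there is a node above every node -/
theorem kf2_exists_above (i : ι) : ∃ d, i < d := by
  obtain ⟨d, hd⟩ := Z.large.cof {i} (by
    rw [Cardinal.mk_singleton]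
    exact one_lt_aleph0.trans Z.unc)
  exact ⟨d, hd i rfl⟩

theorem kf2_all_emb {N : ι → Nd Ω} (hN : ∀ i, Z.Spec N i) {i j : ι} (h : i < j) :
    PS.EE (N i).ps (N j).ps := by
  obtain ⟨d, hd⟩ := Z.kf2_exists_above j
  exact (Z.facts (N := N) (d := d) (fun i _ => hN i)).emb i j h hd

theorem kf2_all_coh {N : ι → Nd Ω} (hN : ∀ i, Z.Spec N i) {i j : ι} (h : i < j) :
    PS.CohI om (N i).ps (N j).ps := by
  obtain ⟨d, hd⟩ := Z.kf2_exists_above j
  obtain ⟨n, hn⟩ := (Z.facts (N := N) (d := d) (fun i _ => hN i)).coh i j h hd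
  rintro c ⟨k, rfl⟩ x hx
  exact hn _ ((Z.V.I n).num k) x hx

theorem kf2_om_down {k : ℕ} {c : J} (h : c ≤ num k) : c ∈ om.s := om.down h ⟨k, rfl⟩

theorem kf2_bs_lim {N : ι → Nd Ω} {t : ι} (ht : t ∈ Z.X.L) (htb : t ≠ Z.X.bot) :
    Z.bs N t = Z.Ml N t := by
  unfold Setup.bs
  rw [if_neg htb, if_pos ht]

theorem kf2_bI_lim {t : ι} (ht : t ∈ Z.X.L) (htb : t ≠ Z.X.bot) :
    Z.bI t = Z.V.I (Z.X.h t) := by
  unfold Setup.bI
  rw [if_neg htb, if_pos ht]

theorem kf2_sub_bs {N : ι → Nd Ω} (hN : ∀ i, Z.Spec N i) {i j : ι} (h : i < j) :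
    (N i).ps.U ⊆ (Z.bs N j).U := by
  have hjb : j ≠ Z.X.bot := by
    rintro rfl
    exact absurd h (not_lt.2 (Z.X.bot_le i))
  by_cases hj : j ∈ Z.X.L
  · rw [Z.kf2_bs_lim hj hjb]
    exact (((Z.facts (N := N) (d := j) (fun i _ => hN i)).isLim j hj hjb le_rfl).emb i h).sub
  · have hb : Z.bs N j = (N (Z.X.pv j)).ps := by
      unfold Setup.bs
      rw [if_neg hjb, if_neg hj]
    rw [hb]
    rcases (Z.X.le_pv j hj i h).eq_or_lt with h' | h'
    · rw [← h']
    · exact (Z.kf2_all_emb hN h').sub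

/-- the nodes are coherent with the union, for standard codes -/
theorem kf2_coh_union {N : ι → Nd Ω} (hN : ∀ i, Z.Spec N i) {M : PS Ω}
    (hM : IsLim (fun i => (N i).ps) Set.univ (fun _ => Set.univ) M) (i : ι) :
    PS.CohI om (N i).ps M := by
  intro c hc x hx
  exact hM.coh (Set.subset_univ _) (fun i _ j _ hij x hx => Z.kf2_all_coh hN hij c hc x hx)
    (Set.mem_univ i) hx

/-- the union of the tower -/
theorem exists_union {N : ι → Nd Ω} (hN : ∀ i, Z.Spec N i) :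
    ∃ M : PS Ω, IsLim (fun i => (N i).ps) Set.univ (fun _ => Set.univ) M ∧ IsK M.sub om ∧
      (∀ i, PS.EE (N i).ps M ∧ PS.CohI om (N i).ps M) ∧
      (∀ t ∈ Z.X.L, t ≠ Z.X.bot → PS.EE (Z.Ml N t) M ∧ PS.CohI om (Z.Ml N t) M) := by
  have hne : (Set.univ : Set ι).Nonempty := ⟨Z.X.bot, Set.mem_univ _⟩
  have hch : ∀ i ∈ (Set.univ : Set ι), ∀ j ∈ (Set.univ : Set ι), i < j →
      PS.EE ((fun i => (N i).ps) i) ((fun i => (N i).ps) j) := fun i _ j _ h => Z.kf2_all_emb hN h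
  obtain ⟨M, hM⟩ := exists_isLim (N := fun i => (N i).ps) (good := fun _ => Set.univ) hne hch
  have hE : ∀ i, PS.EE (N i).ps M := fun i => hM.emb i (Set.mem_univ i)
  refine ⟨M, hM, ?_, fun i => ⟨hE i, Z.kf2_coh_union hN hM i⟩, ?_⟩
  · refine hM.isK (I := om) (K := Z.K) ?_ hne hch (fun i _ => (hN i).ext.isK)
      (fun _ => Set.subset_univ _) (fun _ _ _ => subset_rfl) ?_ ?_
    · rintro _ ⟨k, rfl⟩
      exact Z.K.num k
    · intro c _ i _
      obtain ⟨d, hd⟩ := Z.kf2_exists_above i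
      exact ⟨d, Set.mem_univ _, hd⟩
    · rintro _ ⟨k, rfl⟩ i _ j _ hij c hc x hx
      exact Z.kf2_all_coh hN hij c (kf2_om_down hc) x hx
  · intro t ht htb
    have hb := Z.kf2_bs_lim (N := N) ht htb
    have h1 : PS.EE (Z.Ml N t) (N t).ps := by
      have := (hN t).ext.emb
      rwa [hb] at this
    refine ⟨h1.trans (hE t), ?_⟩
    rintro _ ⟨k, rfl⟩ x hx
    have h2 := (hN t).ext.coh
    rw [hb] at h2
    obtain ⟨n, hn⟩ := Z.exists_n (hN t).nonst
    have hk : num k ≤ (N t).l := (hn _ ((Z.V.I n).num k)).le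
    exact (Z.kf2_coh_union hN hM t (num k) ⟨k, rfl⟩ x (h1.sub hx)).trans (h2 _ hk x hx)

/-- the union is `κ`-like -/
theorem union_like {N : ι → Nd Ω} (hN : ∀ i, Z.Spec N i) {M : PS Ω}
    (hM : IsLim (fun i => (N i).ps) Set.univ (fun _ => Set.univ) M) (hK : IsK M.sub om) :
    IsLike Z.κ M.sub.red := by
  have hE : ∀ i, PS.EE (N i).ps M := fun i => hM.emb i (Set.mem_univ i)
  constructor
  · apply le_antisymm
    · rw [← Z.cardΩ]
      exact Cardinal.mk_set_le M.U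
    · rw [← Z.large.card]
      have hlt : ∀ {i j : ι}, i < j → M.lt (N i).m (N j).m := by
        intro i j hij
        have h1 : (N i).m ∈ (Z.bs N j).U := Z.kf2_sub_bs hN hij (hN i).ext.m_mem
        have h2 := (hN j).ext.m_gt _ h1
        exact ((hE j).lt _ ((hN j).ext.emb.sub h1) _ (hN j).ext.m_mem).2 h2
      refine Cardinal.mk_le_of_injective (f := fun i : ι =>
        (⟨(N i).m, (hE i).sub (hN i).ext.m_mem⟩ : M.U)) ?_
      intro i j hij
      have hij' : (N i).m = (N j).m := congrArg Subtype.val hij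
      rcases lt_trichotomy i j with h | h | h
      · have := hlt h
        rw [hij'] at this
        exact absurd this (hK.irrefl ⟨(N j).m, (hE j).sub (hN j).ext.m_mem⟩)
      · exact h
      · have := hlt h
        rw [hij'] at this
        exact absurd this (hK.irrefl ⟨(N j).m, (hE j).sub (hN j).ext.m_mem⟩)
  · intro a
    have ha : a.1 ∈ ⋃ i ∈ (Set.univ : Set ι), (N i).ps.U := by
      rw [← hM.U]
      exact a.2
    simp only [Set.mem_univ, Set.iUnion_true, Set.mem_iUnion] at ha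
    obtain ⟨i, hi⟩ := ha
    refine lt_of_le_of_lt ?_ (hN i).card
    refine Cardinal.mk_le_of_injective (f := fun x : {x : M.U | M.sub.red.lt x a} =>
      (⟨x.1.1, (hE i).init _ hi _ x.1.2 x.2⟩ : (N i).ps.U)) ?_
    intro x y hxy
    have h1 : x.1.1 = y.1.1 := congrArg (fun z : (N i).ps.U => z.1) hxy
    exact Subtype.ext (Subtype.ext h1)

/-- bounded codes for the subsets of `[0, b]` -/
def Kf2Bnd {C α : Type} (A : Str C α) (x : α) : Prop :=
  ∀ u, ∃ u', A.le u' (A.fst x) ∧ ∀ z, A.le z (A.snd x) → (A.E u z ↔ A.E u' z)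

theorem kf2_UD_bound : UD (fun C α A ρ e => (fun (C α : Type) (A : Str C α) (_ : ℕ → C) (x : α) =>
    Kf2Bnd A x) C α A ρ (e 0)) := by
  unfold Kf2Bnd
  repeat' first
    | exact TD.var _ | exact TD.zero | exact TD.one | exact TD.nm _ | assumption
    | apply TD.fst | apply TD.snd | apply TD.pair | apply TD.add | apply TD.mul | apply TD.ren
    | apply UD.S | apply UD.E | apply UD.lt | apply UD.le | apply UD.eq
    | apply UD.not | apply UD.and | apply UD.or | apply UD.iff | apply UD.all | apply UD.ex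
    | apply UD.imp

/-- a class of the union is definable over the limits `M_t`, with a code in `I (h t)` -/
theorem class_lim {N : ι → Nd Ω} (hN : ∀ i, Z.Spec N i) {M : PS Ω}
    (hM : IsLim (fun i => (N i).ps) Set.univ (fun _ => Set.univ) M) (hK : IsK M.sub om)
    {X : Set M.U} (hX : IsClass M.sub.red X) {t : ι} (ht : t ∈ Z.X.L) (htb : t ≠ Z.X.bot) :
    ∃ g ∈ (Z.V.I (Z.X.h t)).s, ∃ p ∈ (Z.Ml N t).U, ∀ y : M.U, y.1 ∈ (Z.Ml N t).U →
      (y ∈ X ↔ (Z.Ml N t).S g ((Z.Ml N t).pair y p)) := by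
  have hE : PS.EE (N t).ps M := hM.emb t (Set.mem_univ t)
  have hext := (hN t).ext
  rw [Z.kf2_bs_lim (N := N) ht htb, Z.kf2_bI_lim ht htb] at hext
  have hKN : IsK (N t).ps.sub Z.K := hext.isK
  -- the class below `m`
  obtain ⟨k, p0, hk⟩ := code_of_def hK (hX ⟨(N t).m, hE.sub hext.m_mem⟩)
  have hUD : UD (fun C α A ρ e => (fun (C α : Type) (A : Str C α) (ρ : ℕ → C) (y : α)
      (e : ℕ → α) => A.S (ρ 0) (A.pair y (e 0))) C α A ρ (e 0) (fun n => e (n + 1))) := by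
    repeat' first
      | exact TD.var _ | apply TD.pair | apply UD.S
  obtain ⟨u, hu⟩ := hK.compr (R := fun _ α A ρ y e => A.S (ρ 0) (A.pair y (e 0))) hUD (ρ := fun _ => num k) (fun _ => ⟨k, rfl⟩) (fun _ => p0)
    ⟨(N t).m, hE.sub hext.m_mem⟩
  obtain ⟨bd, hbd⟩ := hKN.E_bound ⟨(N t).m, hext.m_mem⟩
  -- the bound works in `M`
  have h1 : (N t).ps.S (kf2_UD_bound.cd (fun _ => num 0)) ((N t).ps.pair bd (N t).m) := by
    refine (PS.cd_spec kf2_UD_bound hKN (ρ := fun _ => num 0) (fun _ => Z.K.num 0)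
      ((N t).ps.sub.pair bd ⟨(N t).m, hext.m_mem⟩)).2 ?_
    intro v
    obtain ⟨v', hv', hv⟩ := hbd v
    refine ⟨v', ?_, ?_⟩
    · rw [hKN.pairing.fst_pair]
      exact hv'
    · rw [hKN.pairing.snd_pair]
      exact hv
  have h2 : M.S (kf2_UD_bound.cd (fun _ => num 0)) (M.pair bd (N t).m) := by
    rw [hE.pair _ bd.2 _ hext.m_mem]
    exact (Z.kf2_coh_union hN hM t _ (UD.cd_mem kf2_UD_bound om (fun _ => om.num 0)) _
      ((N t).ps.pair_mem bd.2 hext.m_mem)).2 h1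
  have h3 := (PS.cd_spec kf2_UD_bound hK (ρ := fun _ => num 0) (fun _ => om.num 0)
      (M.sub.pair ⟨bd, hE.sub bd.2⟩ ⟨(N t).m, hE.sub hext.m_mem⟩)).1 h2
  obtain ⟨u', hu', hz⟩ := h3 u
  rw [hK.pairing.fst_pair] at hu'
  rw [hK.pairing.snd_pair] at hz
  have hu'm : u'.1 ∈ (N t).ps.U := by
    rcases hu' with h | h
    · exact hE.init _ bd.2 _ u'.2 h
    · rw [h]
      exact bd.2
  obtain ⟨g, hg, p, hp, hgp⟩ := hext.cons u'.1 hu'm
  refine ⟨g, hg, p, hp, fun y hy => ?_⟩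
  have hym : y.1 ∈ (N t).ps.U := hext.emb.sub hy
  have hlt : M.lt y.1 (N t).m := (hE.lt _ hym _ hext.m_mem).2 (hext.m_gt _ hy)
  rw [← hgp y.1 hy, ← hE.el hKN hK hu'm hym]
  have e1 : M.el u'.1 y.1 ↔ M.sub.E u' y := PS.el_sub u' y
  rw [e1, ← hz y (Or.inl hlt), hu y hlt]
  refine Iff.trans ?_ (hk y)
  exact ⟨fun h => ⟨h, hlt⟩, fun h => h.1⟩

end Setup

end Pool.Agent.Helper4.KSq
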