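import Pool.Agent.Helper4.KSq.KInd

set_option autoImplicit false

/-!
# Recursive saturation
-/

namespace Pool.Agent.Helper4.KSq

open Filter Cod

/-! ### Goedel numbers are injective -/

theorem Tm.rs_code_inj : ∀ t u : Tm, t.code = u.code → t = u := by
  intro t
  induction t with
  | var k =>
    intro u h
    cases u <;> simp only [Tm.code] at h
    · rw [Nat.eq_of_mul_eq_mul_left (by norm_num : 0 < 3) (Nat.add_right_cancel h)]
    all_goals omega
  | zero =>
    intro u h
    cases u <;> simp only [Tm.code] at h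
    · omega
    · rfl
    all_goals omega
  | one =>
    intro u h
    cases u <;> simp only [Tm.code] at h
    · omega
    · omega
    · rfl
    all_goals omega
  | add t1 t2 ih1 ih2 =>
    intro u h
    cases u <;> simp only [Tm.code] at h
    · omega
    · omega
    · omega
    · have h1 := Nat.pair_eq_pair.1
        (Nat.eq_of_mul_eq_mul_left (by norm_num : 0 < 3) (Nat.add_right_cancel h))
      rw [ih1 _ h1.1, ih2 _ h1.2]
    · omega
  | mul t1 t2 ih1 ih2 =>
    intro u h
    cases u <;> simp only [Tm.code] at h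
    · omega
    · omega
    · omega
    · omega
    · have h1 := Nat.pair_eq_pair.1
        (Nat.eq_of_mul_eq_mul_left (by norm_num : 0 < 3) (Nat.add_right_cancel h))
      rw [ih1 _ h1.1, ih2 _ h1.2]

theorem Fm.rs_code_inj : ∀ φ ψ : Fm, φ.code = ψ.code → φ = ψ := by
  intro φ
  induction φ with
  | eq t u =>
    intro ψ h
    cases ψ <;> simp only [Fm.code] at h
    · have h1 := Nat.pair_eq_pair.1
        (Nat.eq_of_mul_eq_mul_left (by norm_num : 0 < 4) (Nat.add_right_cancel h))
      rw [Tm.rs_code_inj _ _ h1.1, Tm.rs_code_inj _ _ h1.2]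
    all_goals omega
  | lt t u =>
    intro ψ h
    cases ψ <;> simp only [Fm.code] at h
    · omega
    · have h1 := Nat.pair_eq_pair.1
        (Nat.eq_of_mul_eq_mul_left (by norm_num : 0 < 4) (Nat.add_right_cancel h))
      rw [Tm.rs_code_inj _ _ h1.1, Tm.rs_code_inj _ _ h1.2]
    all_goals omega
  | bot =>
    intro ψ h
    cases ψ <;> simp only [Fm.code] at h
    · omega
    · omega
    · rfl
    all_goals omega
  | imp φ1 φ2 ih1 ih2 =>
    intro ψ h
    cases ψ <;> simp only [Fm.code] at h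
    · omega
    · omega
    · omega
    · have h1 := Nat.pair_eq_pair.1
        (Nat.eq_of_mul_eq_mul_left (by norm_num : 0 < 4) (Nat.add_right_cancel h))
      rw [ih1 _ h1.1, ih2 _ h1.2]
    · omega
  | all k φ1 ih =>
    intro ψ h
    cases ψ <;> simp only [Fm.code] at h
    · omega
    · omega
    · omega
    · omega
    · have h1 := Nat.pair_eq_pair.1
        (Nat.eq_of_mul_eq_mul_left (by norm_num : 0 < 4) (Nat.add_right_cancel h))
      rw [h1.1, ih _ h1.2]

/-! ### Free variables -/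

namespace Fo

/-- free variables -/
def rsfv : Fo → Set ℕ
  | zero i => {i}
  | one i => {i}
  | add i j k => {i, j, k}
  | mul i j k => {i, j, k}
  | pair i j k => {i, j, k}
  | lt i j => {i, j}
  | eq i j => {i, j}
  | S _ i => {i}
  | neg φ => φ.rsfv
  | and φ ψ => φ.rsfv ∪ ψ.rsfv
  | ex φ => {i | i + 1 ∈ φ.rsfv}

theorem rs_bd_le (φ : Fo) (n : ℕ) (h : ∀ i ∈ φ.rsfv, i < n) : φ.bd ≤ n := by
  induction φ generalizing n with
  | zero i => exact h i rfl
  | one i => exact h i rfl
  | add i j k =>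
    simp only [bd, sup_le_iff]
    exact ⟨⟨h i (by simp [rsfv]), h j (by simp [rsfv])⟩, h k (by simp [rsfv])⟩
  | mul i j k =>
    simp only [bd, sup_le_iff]
    exact ⟨⟨h i (by simp [rsfv]), h j (by simp [rsfv])⟩, h k (by simp [rsfv])⟩
  | pair i j k =>
    simp only [bd, sup_le_iff]
    exact ⟨⟨h i (by simp [rsfv]), h j (by simp [rsfv])⟩, h k (by simp [rsfv])⟩
  | lt i j =>
    simp only [bd, sup_le_iff]
    exact ⟨h i (by simp [rsfv]), h j (by simp [rsfv])⟩
  | eq i j =>
    simp only [bd, sup_le_iff]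
    exact ⟨h i (by simp [rsfv]), h j (by simp [rsfv])⟩
  | S k i => exact h i rfl
  | neg φ ih => exact ih n h
  | and φ ψ ih1 ih2 =>
    simp only [bd, sup_le_iff]
    exact ⟨ih1 n fun i hi => h i (Or.inl hi), ih2 n fun i hi => h i (Or.inr hi)⟩
  | ex φ ih =>
    simp only [bd]
    have := ih (n + 1) (by
      intro i hi
      cases i with
      | zero => omega
      | succ i => exact Nat.succ_lt_succ (h i hi))
    omega

theorem rs_fv_ren (φ : Fo) (f : ℕ → ℕ) : ∀ i ∈ (φ.ren f).rsfv, ∃ j ∈ φ.rsfv, f j = i := by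
  induction φ generalizing f with
  | zero i => intro x hx; exact ⟨i, rfl, hx.symm⟩
  | one i => intro x hx; exact ⟨i, rfl, hx.symm⟩
  | add i j k =>
    rintro x (hx | hx | hx)
    · exact ⟨i, by simp [rsfv], hx.symm⟩
    · exact ⟨j, by simp [rsfv], hx.symm⟩
    · exact ⟨k, by simp [rsfv], hx.symm⟩
  | mul i j k =>
    rintro x (hx | hx | hx)
    · exact ⟨i, by simp [rsfv], hx.symm⟩
    · exact ⟨j, by simp [rsfv], hx.symm⟩
    · exact ⟨k, by simp [rsfv], hx.symm⟩
  | pair i j k =>
    rintro x (hx | hx | hx)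
    · exact ⟨i, by simp [rsfv], hx.symm⟩
    · exact ⟨j, by simp [rsfv], hx.symm⟩
    · exact ⟨k, by simp [rsfv], hx.symm⟩
  | lt i j =>
    rintro x (hx | hx)
    · exact ⟨i, by simp [rsfv], hx.symm⟩
    · exact ⟨j, by simp [rsfv], hx.symm⟩
  | eq i j =>
    rintro x (hx | hx)
    · exact ⟨i, by simp [rsfv], hx.symm⟩
    · exact ⟨j, by simp [rsfv], hx.symm⟩
  | S k i => intro x hx; exact ⟨i, rfl, hx.symm⟩
  | neg φ ih => exact ih f
  | and φ ψ ih1 ih2 =>
    rintro x (hx | hx)
    · obtain ⟨j, hj, e⟩ := ih1 f x hx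
      exact ⟨j, Or.inl hj, e⟩
    · obtain ⟨j, hj, e⟩ := ih2 f x hx
      exact ⟨j, Or.inr hj, e⟩
  | ex φ ih =>
    intro x hx
    obtain ⟨j, hj, e⟩ := ih (lft f) (x + 1) hx
    cases j with
    | zero => exact absurd e (by simp [lft])
    | succ j => exact ⟨j, hj, by simpa [lft] using e⟩

end Fo

theorem Tm.rs_fv (t : Tm) : ∀ i ∈ t.fo.rsfv, i = 0 ∨ ∃ k ∈ t.vars, i = k + 1 := by
  induction t with
  | var k =>
    rintro i (hi | hi)
    · exact Or.inl hi
    · exact Or.inr ⟨k, by simp [Tm.vars], hi⟩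
  | zero => intro i hi; exact Or.inl hi
  | one => intro i hi; exact Or.inl hi
  | add t u iht ihu =>
    intro i hi
    rcases hi with hi | hi | hi
    · obtain ⟨j, hj, e⟩ := Fo.rs_fv_ren _ _ _ hi
      rcases iht j hj with rfl | ⟨k, hk, rfl⟩
      · simp at e
      · right
        refine ⟨k, by simp [Tm.vars, hk], ?_⟩
        simp at e
        omega
    · obtain ⟨j, hj, e⟩ := Fo.rs_fv_ren _ _ _ hi
      rcases ihu j hj with rfl | ⟨k, hk, rfl⟩
      · simp at e
      · right
        refine ⟨k, by simp [Tm.vars, hk], ?_⟩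
        simp at e
        omega
    · left
      simp [Fo.rsfv] at hi
      omega
  | mul t u iht ihu =>
    intro i hi
    rcases hi with hi | hi | hi
    · obtain ⟨j, hj, e⟩ := Fo.rs_fv_ren _ _ _ hi
      rcases iht j hj with rfl | ⟨k, hk, rfl⟩
      · simp at e
      · right
        refine ⟨k, by simp [Tm.vars, hk], ?_⟩
        simp at e
        omega
    · obtain ⟨j, hj, e⟩ := Fo.rs_fv_ren _ _ _ hi
      rcases ihu j hj with rfl | ⟨k, hk, rfl⟩
      · simp at e
      · right
        refine ⟨k, by simp [Tm.vars, hk], ?_⟩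
        simp at e
        omega
    · left
      simp [Fo.rsfv] at hi
      omega

theorem Fm.rs_fv (φ : Fm) : ∀ i ∈ φ.fo.rsfv, i = 0 ∨ i ∈ φ.fv := by
  induction φ with
  | eq t u =>
    rintro i (hi | hi)
    · rcases t.rs_fv _ hi with h | ⟨k, hk, h⟩
      · omega
      · right
        have : i = k := by omega
        simp [Fm.fv, this, hk]
    · rcases u.rs_fv _ hi with h | ⟨k, hk, h⟩
      · omega
      · right
        have : i = k := by omega
        simp [Fm.fv, this, hk]
  | lt t u =>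
    intro i hi
    rcases hi with hi | hi | hi
    · obtain ⟨j, hj, e⟩ := Fo.rs_fv_ren _ _ _ hi
      rcases t.rs_fv _ hj with rfl | ⟨k, hk, rfl⟩
      · simp at e
      · right
        simp at e
        have : i = k := by omega
        simp [Fm.fv, this, hk]
    · obtain ⟨j, hj, e⟩ := Fo.rs_fv_ren _ _ _ hi
      rcases u.rs_fv _ hj with rfl | ⟨k, hk, rfl⟩
      · simp at e
      · right
        simp at e
        have : i = k := by omega
        simp [Fm.fv, this, hk]
    · simp [Fo.rsfv] at hi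
  | bot =>
    intro i hi
    left
    simpa [Fm.fo, Fo.rsfv] using hi
  | imp φ ψ ih1 ih2 =>
    rintro i (hi | hi)
    · rcases ih1 _ hi with h | h
      · exact Or.inl h
      · right; simp [Fm.fv, h]
    · rcases ih2 _ hi with h | h
      · exact Or.inl h
      · right; simp [Fm.fv, h]
  | all k φ ih =>
    intro i hi
    obtain ⟨j, hj, e⟩ := Fo.rs_fv_ren _ _ _ hi
    by_cases hjk : j = k
    · simp [hjk] at e
    · simp only [hjk, if_false] at e
      have hij : j = i := by omega
      subst hij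
      rcases ih _ hj with h | h
      · exact Or.inl h
      · right
        simp [Fm.fv, h, hjk]

/-! ### Codes in `J` -/

theorem J.rs_pr_num (a b : ℕ) : (pr (num a) (num b) : J) = num (Nat.pair a b) := by
  rw [J.num_def, J.num_def, J.pr_mk]
  rfl

theorem rs_cb (k : ℕ) : (cb k : J) = num (cb k : ℕ) := J.rs_pr_num _ _
theorem rs_cn (c : ℕ) : (cn (num c) : J) = num (cn c : ℕ) := J.rs_pr_num _ _
theorem rs_ca (c d : ℕ) : (ca (num c) (num d) : J) = num (ca c d : ℕ) := by
  unfold ca
  rw [J.rs_pr_num, J.rs_pr_num]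
  rfl
theorem rs_ce (c : ℕ) : (ce (num c) : J) = num (ce c : ℕ) := J.rs_pr_num _ _
theorem rs_cf (k c : ℕ) : (cf k (num c) : J) = num (cf k c : ℕ) := by
  unfold cf
  rw [J.rs_pr_num, J.rs_pr_num]
  rfl
theorem rs_cf_iter (k i c : ℕ) : ((cf k)^[i] (num c) : J) = num ((cf k)^[i] c : ℕ) := by
  induction i generalizing c with
  | zero => rfl
  | succ i ih =>
    rw [Function.iterate_succ, Function.comp_apply, Function.iterate_succ, Function.comp_apply,
      rs_cf, ih]
theorem rs_cp (i c : ℕ) : (cp i (num c) : J) = num (cp i c : ℕ) := by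
  unfold cp
  rw [rs_cf, rs_cf_iter, rs_cf, rs_cf_iter, rs_cf]

theorem rs_code (φ : Fo) : (φ.code (fun _ => num 0) : J) = num (φ.code (fun _ => 0) : ℕ) := by
  induction φ with
  | zero i => simp only [Fo.code, rs_cb, rs_cp]
  | one i => simp only [Fo.code, rs_cb, rs_cp]
  | add i j k => simp only [Fo.code, rs_cb, rs_cp]
  | mul i j k => simp only [Fo.code, rs_cb, rs_cp]
  | pair i j k => simp only [Fo.code, rs_cb, rs_cp]
  | lt i j => simp only [Fo.code, rs_cb, rs_cp]
  | eq i j => simp only [Fo.code, rs_cb, rs_cp]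
  | S k i => simp only [Fo.code, rs_cf, rs_cp]
  | neg φ ih => simp only [Fo.code, ih, rs_cn]
  | and φ ψ ih1 ih2 => simp only [Fo.code, ih1, ih2, rs_ca]
  | ex φ ih => simp only [Fo.code, ih, rs_ce]

/-! ### Nonstandard elements of `J` -/

theorem J.rs_unb {F : ℕ → ℕ} (hF : Gen F) (h : NonSt (mk F hF)) (m : ℕ) :
    ∀ᶠ n in (JU : Filter ℕ), m ≤ F n := by
  induction m with
  | zero => exact Filter.Eventually.of_forall fun n => Nat.zero_le _
  | succ m ih =>
    have h1 : ¬ ∀ᶠ n in (JU : Filter ℕ), F n = m := by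
      intro h2
      exact h m ((J.mk_eq hF (J.gen_const m)).2 h2)
    have h2 : ∀ᶠ n in (JU : Filter ℕ), ¬ F n = m := (Ultrafilter.eventually_not).2 h1
    filter_upwards [ih, h2] with n h3 h4
    omega

theorem rs_iv_le {b : ℕ → ℕ} {k e : ℕ} (h1 : k ≤ e) (h2 : b k ≤ e) : k ≤ iv b e := by
  classical
  unfold iv
  exact Nat.le_findGreatest h1 h2

theorem rs_iv_spec {b : ℕ → ℕ} {e : ℕ} (h : b 0 ≤ e) : b (iv b e) ≤ e := by
  classical
  unfold iv
  exact Nat.findGreatest_spec (P := fun k => b k ≤ e) (Nat.zero_le e) h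

/-! ### The conjunctions -/

theorem rs_conj_bd (P : Set Fm) (n : ℕ) (hP : ∀ φ ∈ P, ∀ k ∈ φ.fv, k ≤ n) (k : ℕ) :
    (conjP P k).bd ≤ n + 1 := by
  induction k with
  | zero =>
    show trueF.bd ≤ n + 1
    simp [trueF, Fo.bd]
  | succ k ih =>
    rw [conjP]
    simp only [Fo.bd, sup_le_iff]
    refine ⟨ih, ?_⟩
    split_ifs with h
    · apply Fo.rs_bd_le
      intro i hi
      rcases Fm.rs_fv _ _ hi with h1 | h1
      · omega
      · exact Nat.lt_succ_of_le (hP _ (Classical.choose_spec h).1 _ h1)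
    · simp [trueF, Fo.bd]

theorem rs_conj_sat {C α : Type} (A : Str C α) (ρ : ℕ → C) (P : Set Fm) (k : ℕ) (v : ℕ → α) :
    (conjP P k).sat A ρ v ↔ ∀ φ ∈ P, φ.code < k → φ.Sat A.red v := by
  have ht : trueF.sat A ρ v := by simp [trueF, Fo.sat]
  induction k with
  | zero =>
    constructor
    · intro _ φ _ h
      omega
    · intro _
      exact ht
  | succ k ih =>
    rw [conjP]
    constructor
    · rintro ⟨h1', h2⟩ φ hφ hk
      have h1 := ih.1 h1'
      rcases Nat.lt_succ_iff_lt_or_eq.1 hk with h | h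
      · exact h1 φ hφ h
      · have hex : ∃ φ ∈ P, φ.code = k := ⟨φ, hφ, h⟩
        rw [dif_pos hex, Fm.sat_fo] at h2
        have : Classical.choose hex = φ :=
          Fm.rs_code_inj _ _ ((Classical.choose_spec hex).2.trans h.symm)
        rwa [this] at h2
    · intro h
      refine ⟨ih.2 fun φ hφ hk => h φ hφ (by omega), ?_⟩
      split_ifs with hex
      · rw [Fm.sat_fo]
        refine h _ (Classical.choose_spec hex).1 ?_
        rw [(Classical.choose_spec hex).2]
        omega
      · exact ht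

/-! ### The main argument -/

/-- the relation used in the overspill argument -/
def rsR : ∀ (C α : Type), Str C α → (ℕ → C) → α → (ℕ → α) → Prop :=
  fun _ _ A ρ k e => ∃ x, ∀ i, A.le i k → ∀ y, A.le y (e 0) → A.E (e 1) (A.pair i y) →
    A.S (ρ 0) (A.pair y (A.pair x (e 2)))

theorem rsR_UD : UD (fun C α A ρ e => rsR C α A ρ (e 0) (fun n => e (n + 1))) := by
  unfold rsR
  repeat' first
    | exact TD.var _ | exact TD.zero | exact TD.one | exact TD.nm _ | assumption
    | apply TD.fst | apply TD.snd | apply TD.pair | apply TD.add | apply TD.mul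
    | apply UD.S | apply UD.E | apply UD.lt | apply UD.le | apply UD.eq
    | apply UD.not | apply UD.and | apply UD.or | apply UD.iff | apply UD.all | apply UD.ex
    | apply UD.imp

theorem IsK.rs_le_nm {α : Type} {A : Str J α} {I : Cut} (hA : IsK A I) (k : ℕ) {i : α}
    (h : A.le i (A.nm k)) : ∃ i' ≤ k, i = A.nm i' := by
  induction k with
  | zero =>
    rcases h with h | h
    · rcases hA.zero_le i with h1 | h1
      · exact absurd (hA.trans h h1) (hA.irrefl _)
      · rw [← h1] at h
        exact absurd h (hA.irrefl _)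
    · exact ⟨0, le_rfl, h⟩
  | succ k ih =>
    rcases h with h | h
    · obtain ⟨i', h1, h2⟩ := ih ((hA.lt_succ _ _).1 h)
      exact ⟨i', by omega, h2⟩
    · exact ⟨k + 1, le_rfl, h⟩

/-- a structure whose length is a cut with nonstandard elements is recursively saturated -/
theorem isRecSat_of_isK {α : Type} {A : Str J α} {I : Cut} (hA : IsK A I) {e : J} (he : e ∈ I.s)
    (hn : NonSt e) : IsRecSat A.red := by
  classical
  intro P hP v hF
  obtain ⟨hrec, n, hfv⟩ := hP
  obtain ⟨Fe, hFe, rfl⟩ := J.ind e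
  set c : ℕ → ℕ := cP P with hc
  have hrec' : RecSet P := hrec
  set K : ℕ → ℕ := fun m => iv (bdc c) (Fe m) with hK
  have hKg : Gen K := Gen.ap (J.mem_ivP hrec') hFe
  set k0 : J := J.mk K hKg with hk0
  set B : J := J.mk (fun m => bdc c (K m)) (Gen.ap (J.mem_bdP hrec') hKg) with hB
  set G : J := J.mk (fun m => KSq.gcd c (K m)) (Gen.ap (J.mem_gcP hrec') hKg) with hG
  have hFu := J.rs_unb hFe hn
  have hKu : ∀ m, ∀ᶠ l in (JU : Filter ℕ), m ≤ K l := by
    intro m
    filter_upwards [hFu m, hFu (bdc c m)] with l h1 h2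
    exact rs_iv_le h1 h2
  have hBe : B ≤ J.mk Fe hFe := by
    rw [hB, J.mk_le]
    filter_upwards [hFu (bdc c 0)] with l h1
    exact rs_iv_spec h1
  have hBI : B ∈ I.s := I.down hBe he
  -- the coded graph at standard arguments
  have hcB : ∀ m, (num (c m) : J) ≤ B := by
    intro m
    rw [J.num_def, hB, J.mk_le]
    filter_upwards [hKu m] with l h1
    exact le_bdc c h1
  have hE : ∀ (m : ℕ) (b : J), b ≤ B →
      (A.E (A.j G) (A.pair (A.nm m) (A.j b)) ↔ b = num (c m)) := by
    intro m b hb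
    obtain ⟨Fb, hFb, rfl⟩ := J.ind b
    rw [← hA.j_num, ← hA.j_pair, hA.j_E, J.num_def, J.num_def, J.pr_mk, J.mk_eq]
    rw [hB, J.mk_le] at hb
    refine Filter.eventually_congr ?_
    filter_upwards [hb, hKu m, J.rep_mk (Gen.ap (J.mem_gcP hrec') hKg),
      J.rep_mk (Gen.pr (J.gen_const m) hFb)] with l h1 h2 h3 h4
    rw [hG, h3, h4]
    exact gcd_spec c h2 h1
  -- the stack
  set tail : α := A.st n (fun i => v (i + 1)) A.zero with htail
  have hS : ∀ (m : ℕ) (x : α), A.S (num (c m)) (A.pair x tail) ↔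
      ∀ φ ∈ P, φ.code < m → φ.Sat A.red (Function.update v 0 x) := by
    intro m x
    have h1 : A.pair x tail = A.st (n + 1) (Function.update v 0 x) A.zero := by
      rw [Ar.st, htail]
      congr 1
    have h2 : (num (c m) : J) = (conjP P m).code (fun _ => num 0) := by
      rw [rs_code]
      rfl
    rw [h1, h2, hA.tarski.rep hA.pairing I.closed (fun _ => I.num 0) _
      (rs_conj_bd P n hfv m), rs_conj_sat]
  have hc5 : (c5 B : J) ∈ I.s := I.closed.c5 hBI
  have hsat : ∀ (b : J) (z : α), b ≤ B → (A.S (c5 B) (A.pair (A.j b) z) ↔ A.S b z) := by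
    intro b z hb
    rw [hA.tarski.sat B hc5, hA.pairing.fst_pair, hA.pairing.snd_pair]
    constructor
    · rintro ⟨b', -, h1, h2⟩
      rwa [hA.j_inj h1]
    · intro h
      exact ⟨b, hb, rfl, h⟩
  set ρ : ℕ → J := fun _ => c5 B with hρd
  have hρ : ∀ k, ρ k ∈ I.s := fun _ => hc5
  set en : ℕ → α := cs (A.j B) (cs (A.j G) (fun _ => tail)) with hen
  -- elements below an element of the range of `j`
  have hle : ∀ (y : α) (b : J), A.le y (A.j b) → ∃ b', b' ≤ b ∧ y = A.j b' := by
    intro y b h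
    rcases h with h | h
    · obtain ⟨a, rfl⟩ := hA.initial y b h
      exact ⟨a, ((hA.j_lt a b).1 h).le, rfl⟩
    · exact ⟨b, le_rfl, h⟩
  -- standard arguments
  have hstd : ∀ m : ℕ, rsR J α A ρ (A.nm m) en := by
    intro m
    have hfin : {φ : Fm | φ ∈ P ∧ φ.code < m}.Finite := by
      refine Set.Finite.subset (Set.Finite.preimage (f := Fm.code)
        (fun φ _ ψ _ h => Fm.rs_code_inj φ ψ h) (Set.finite_lt_nat m)) ?_
      intro φ hφ
      exact hφ.2
    obtain ⟨x, hx⟩ := hF hfin.toFinset (by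
      intro φ hφ
      rw [Finset.mem_coe, Set.Finite.mem_toFinset] at hφ
      exact hφ.1)
    refine ⟨x, fun i hi y hy hE' => ?_⟩
    obtain ⟨i', hi', rfl⟩ := hA.rs_le_nm m hi
    obtain ⟨b, hb, rfl⟩ := hle y B hy
    have hb' := (hE i' b hb).1 hE'
    show A.S (c5 B) (A.pair (A.j b) (A.pair x tail))
    rw [hsat b _ hb, hb', hS]
    intro φ hφ hk
    refine hx φ ?_
    rw [Set.Finite.mem_toFinset]
    exact ⟨hφ, by omega⟩
  -- overspill
  obtain ⟨d, hd, hRd⟩ : ∃ d : J, (∀ m : ℕ, (num m : J) ≤ d) ∧ rsR J α A ρ (A.j d) en := by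
    have hk0u : ∀ m : ℕ, (num m : J) ≤ k0 := by
      intro m
      rw [J.num_def, hk0, J.mk_le]
      exact hKu m
    by_cases h0 : rsR J α A ρ (A.j k0) en
    · exact ⟨k0, hk0u, h0⟩
    · obtain ⟨x, hx1, hx2⟩ := hA.least (R := fun C α A ρ x e => ¬ rsR C α A ρ x e) rsR_UD.not
        hρ en ⟨_, h0⟩
      have hx0 : x ≠ A.zero := by
        intro h
        rw [h] at hx1
        exact hx1 (hstd 0)
      obtain ⟨b, hb⟩ := hA.exists_pred hx0
      have hbx : A.lt b x := by
        rw [hb]
        exact (hA.lt_succ _ _).2 (Or.inr rfl)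
      have hxk : A.le x (A.j k0) := by
        rcases hA.tri x (A.j k0) with h | h | h
        · exact Or.inl h
        · exact Or.inr h
        · exact absurd h0 (hx2 _ h)
      have hRb : rsR J α A ρ b en := not_not.1 (hx2 b hbx)
      have hbk : A.le b (A.j k0) := by
        rcases hxk with h | h
        · exact Or.inl (hA.trans hbx h)
        · rw [h] at hbx
          exact Or.inl hbx
      obtain ⟨d, -, rfl⟩ := hle b k0 hbk
      refine ⟨d, ?_, hRb⟩
      intro m
      by_contra hcon
      have h1 : d < num m := not_le.1 hcon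
      have h2 : A.le (A.j d) (A.nm m) := by
        rw [← hA.j_num]
        exact Or.inl ((hA.j_lt _ _).2 h1)
      obtain ⟨i', -, h3⟩ := hA.rs_le_nm m h2
      rw [h3] at hb
      have h4 : x = A.nm (i' + 1) := hb
      rw [h4] at hx1
      exact hx1 (hstd _)
  obtain ⟨x, hx⟩ := hRd
  refine ⟨x, fun φ hφ => ?_⟩
  have h1 : A.le (A.nm (φ.code + 1)) (A.j d) := by
    rw [← hA.j_num]
    rcases (hd (φ.code + 1)).lt_or_eq with h | h
    · exact Or.inl ((hA.j_lt _ _).2 h)
    · rw [h]
      exact Or.inr rfl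
  have h2 : A.le (A.j (num (c (φ.code + 1)))) (en 0) := by
    show A.le _ (A.j B)
    rcases (hcB (φ.code + 1)).lt_or_eq with h | h
    · exact Or.inl ((hA.j_lt _ _).2 h)
    · rw [h]
      exact Or.inr rfl
  have h3 := hx _ h1 _ h2 ((hE _ _ (hcB _)).2 rfl)
  have h4 : A.S (c5 B) (A.pair (A.j (num (c (φ.code + 1)))) (A.pair x tail)) := h3
  rw [hsat _ _ (hcB _), hS] at h4
  exact h4 φ hφ (by omega)

end Pool.Agent.Helper4.KSq
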