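import Pool.Agent.Helper4.KSq.Trace
import Pool.Agent.Helper4.KSq.FinDef
import Pool.Agent.Helper4.KSq.RecSat
import Pool.Agent.Helper4.KSq.Kauf2

set_option autoImplicit false

/-!
# The union of the tower is a Kaufmann model
-/

namespace Pool.Agent.Helper4.KSq

open Filter Cod Cardinal

/-- the relation used for the transfer of standard codes -/
def kfR (C α : Type) (A : Str C α) (ρ : ℕ → C) (x : α) : Prop :=
  ∃ p', ∀ y, (A.S (ρ 0) (A.pair (A.fst x) (A.pair y p')) ↔ A.S (ρ 1) (A.pair y (A.snd x)))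

theorem kf_ud : UD (fun C α A ρ e => kfR C α A ρ (e 0)) := by
  unfold kfR
  repeat' first
    | exact TD.var _ | assumption
    | apply TD.fst | apply TD.snd | apply TD.pair
    | apply UD.S | apply UD.iff | apply UD.all | apply UD.ex

/-- `c5 g` in terms of the codes `≤ g` -/
theorem kf_c5_spec {α : Type} {A : Str J α} {I : Cut} (hA : IsK A I) {g c : J} (hg : g ∈ I.s)
    (hc : c ≤ g) (z : α) : A.S (c5 g) (A.pair (A.j c) z) ↔ A.S c z := by
  rw [hA.tarski.sat g (c5_mem I hg)]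
  rw [hA.pairing.fst_pair, hA.pairing.snd_pair]
  constructor
  · rintro ⟨c', -, h1, h2⟩
    rw [hA.j_inj h1]
    exact h2
  · intro h
    exact ⟨c, hc, rfl, h⟩

theorem kf_nonSt_not_mem {a : J} (h : NonSt a) : a ∉ om.s := fun ⟨k, hk⟩ => h k hk

theorem kf_num_le {a : J} (h : NonSt a) (k : ℕ) : num k ≤ a := by
  by_contra hlt
  exact kf_nonSt_not_mem h (om.down (not_le.1 hlt).le (om.num k))

theorem kf_nonSt_mono {a b : J} (h : NonSt a) (hab : a ≤ b) : NonSt b := by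
  intro k hk
  exact kf_nonSt_not_mem h (om.down hab ⟨k, hk⟩)

theorem Cut.kf_max_mem (I : Cut) {a b : J} (ha : a ∈ I.s) (hb : b ∈ I.s) : max a b ∈ I.s := by
  rcases max_choice a b with h | h <;> rw [h] <;> assumption

theorem Levels.kf_lv_mono (V : Levels) (h : ℕ) {k k' : ℕ} (hk : k ≤ k') :
    V.lv h k ≤ V.lv h k' := monotone_nat_of_le_succ (fun n => V.lv_mono h n) hk

/-- truth of a formula only depends on the free variables -/
theorem Tm.kf_val_congr {α : Type} (M : ArStr α) {v v' : ℕ → α} (t : Tm)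
    (h : ∀ k ∈ t.vars, v k = v' k) : t.val M v = t.val M v' := by
  induction t with
  | var k => exact h k (Finset.mem_singleton_self k)
  | zero => rfl
  | one => rfl
  | add t u ih1 ih2 =>
    simp only [Tm.val, Tm.vars, Finset.mem_union] at h ⊢
    rw [ih1 fun k hk => h k (Or.inl hk), ih2 fun k hk => h k (Or.inr hk)]
  | mul t u ih1 ih2 =>
    simp only [Tm.val, Tm.vars, Finset.mem_union] at h ⊢
    rw [ih1 fun k hk => h k (Or.inl hk), ih2 fun k hk => h k (Or.inr hk)]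

theorem Fm.kf_sat_congr {α : Type} (M : ArStr α) (φ : Fm) {v v' : ℕ → α}
    (h : ∀ k ∈ φ.fv, v k = v' k) : φ.Sat M v ↔ φ.Sat M v' := by
  induction φ generalizing v v' with
  | eq t u =>
    simp only [Fm.fv, Finset.mem_union] at h
    simp only [Fm.Sat]
    rw [t.kf_val_congr M fun k hk => h k (Or.inl hk), u.kf_val_congr M fun k hk => h k (Or.inr hk)]
  | lt t u =>
    simp only [Fm.fv, Finset.mem_union] at h
    simp only [Fm.Sat]
    rw [t.kf_val_congr M fun k hk => h k (Or.inl hk), u.kf_val_congr M fun k hk => h k (Or.inr hk)]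
  | bot => exact Iff.rfl
  | imp φ ψ ih1 ih2 =>
    simp only [Fm.fv, Finset.mem_union] at h
    simp only [Fm.Sat]
    rw [ih1 fun k hk => h k (Or.inl hk), ih2 fun k hk => h k (Or.inr hk)]
  | all k φ ih =>
    simp only [Fm.Sat]
    refine forall_congr' fun a => ih fun i hi => ?_
    by_cases hik : i = k
    · subst hik; simp
    · rw [Function.update_of_ne hik, Function.update_of_ne hik]
      exact h i (by simp only [Fm.fv, Finset.mem_erase]; exact ⟨hik, hi⟩)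

/-- conjunction of a list of formulas -/
def kfConj : List Fm → Fo
  | [] => trueF
  | φ :: l => .and φ.fo (kfConj l)

theorem kf_conj_sat {C α : Type} (A : Str C α) (ρ : ℕ → C) (e : ℕ → α) (l : List Fm) :
    (kfConj l).sat A ρ e ↔ ∀ φ ∈ l, φ.Sat A.red e := by
  induction l with
  | nil => simp [kfConj, trueF, Fo.sat]
  | cons φ l ih =>
    simp only [kfConj, Fo.sat, ih, Fm.sat_fo, List.mem_cons, forall_eq_or_imp]

theorem kf_cs_update {α : Type} (x : α) (w : ℕ → α) :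
    cs x (fun k => w (k + 1)) = Function.update w 0 x := by
  funext k
  cases k with
  | zero => simp [cs]
  | succ k => simp [cs]

/-- elementarity of coherent initial segments -/
theorem kf_elementary {Ω : Type} {A B : PS Ω} {I I' : Cut} (hA : IsK A.sub I) (hB : IsK B.sub I')
    (hE : PS.EE A B) (hc : PS.CohI om A B) (ψ : Fo) (u : ℕ → A.U) :
    ψ.sat A.sub (fun _ => num 0) u ↔
      ψ.sat B.sub (fun _ => num 0) (fun k => ⟨(u k).1, hE.sub (u k).2⟩) := by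
  have hst : ∀ (n : ℕ) (e : ℕ → A.U) (z : A.U),
      ((B.sub.st n (fun k => ⟨(e k).1, hE.sub (e k).2⟩) ⟨z.1, hE.sub z.2⟩ : B.U) : Ω) =
        ((A.sub.st n e z : A.U) : Ω) := by
    intro n
    induction n with
    | zero => intro e z; rfl
    | succ n ih =>
      intro e z
      show B.pair (e 0).1 ((B.sub.st n (fun k => ⟨(e (k + 1)).1, hE.sub (e (k + 1)).2⟩)
        ⟨z.1, hE.sub z.2⟩ : B.U) : Ω) = A.pair (e 0).1 ((A.sub.st n (fun k => e (k + 1)) z : A.U) : Ω)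
      rw [ih (fun k => e (k + 1)) z]
      exact hE.pair _ (e 0).2 _ (Subtype.mem _)
  have h0 : ∀ I : Cut, ∀ k : ℕ, (fun _ : ℕ => (num 0 : J)) k ∈ I.s := fun I _ => I.num 0
  rw [← hA.tarski.rep hA.pairing I.closed (h0 I) ψ le_rfl u (u 0),
    ← hB.tarski.rep hB.pairing I'.closed (h0 I') ψ le_rfl _ ⟨(u 0).1, hE.sub (u 0).2⟩]
  have h1 := hc (ψ.code (fun _ => num 0)) (om.closed.code (h0 om) ψ)
    ((A.sub.st ψ.bd u (u 0) : A.U) : Ω) (Subtype.mem _)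
  show A.S _ ((A.sub.st ψ.bd u (u 0) : A.U) : Ω) ↔ B.S _ ((B.sub.st ψ.bd _ _ : B.U) : Ω)
  rw [hst, h1]

namespace Setup

variable {Ω ι : Type} [LinearOrder ι] (Z : Setup Ω ι)

include Z in
theorem kf_above (i : ι) : ∃ d, i < d := by
  have h : #({i} : Set ι) < Z.κ := by
    rw [Cardinal.mk_singleton]
    exact lt_of_lt_of_le Cardinal.one_lt_aleph0 Z.unc.le
  obtain ⟨d, hd⟩ := Z.large.cof {i} h
  exact ⟨d, hd i rfl⟩

theorem kf_chain {N : ι → Nd Ω} (hN : ∀ i, Z.Spec N i) {i j : ι} (h : i < j) :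
    PS.EE (N i).ps (N j).ps := by
  obtain ⟨d, hd⟩ := Z.kf_above j
  exact (Z.facts (d := d) (fun i _ => hN i)).emb i j h hd

theorem kf_chain_le {N : ι → Nd Ω} (hN : ∀ i, Z.Spec N i) {i j : ι} (h : i ≤ j) :
    (N i).ps.U ⊆ (N j).ps.U := by
  rcases h.lt_or_eq with h | h
  · exact (Z.kf_chain hN h).sub
  · rw [h]

theorem kf_ne_bot {i t : ι} (h : i < t) : t ≠ Z.X.bot := by
  rintro rfl
  exact absurd (lt_of_le_of_lt (Z.X.bot_le i) h) (lt_irrefl _)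

omit [LinearOrder ι] in
theorem kf_mem_lim {N : ι → Nd Ω} {M : PS Ω}
    (hM : IsLim (fun i => (N i).ps) Set.univ (fun _ => Set.univ) M) {x : Ω} (hx : x ∈ M.U) :
    ∃ i, x ∈ (N i).ps.U := by
  rw [hM.U, Set.mem_iUnion₂] at hx
  obtain ⟨i, _, h⟩ := hx
  exact ⟨i, h⟩

/-- two limits over all nodes agree -/
theorem kf_lim_ee {N : ι → Nd Ω} (hN : ∀ i, Z.Spec N i) {M M' : PS Ω}
    (hM : IsLim (fun i => (N i).ps) Set.univ (fun _ => Set.univ) M)
    (hM' : IsLim (fun i => (N i).ps) Set.univ (fun _ => Set.univ) M') : PS.EE M' M := by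
  have hU : M'.U = M.U := by rw [hM.U, hM'.U]
  have hmem : ∀ x ∈ M'.U, ∃ i, x ∈ (N i).ps.U := by
    intro x hx
    rw [hM'.U, Set.mem_iUnion₂] at hx
    obtain ⟨i, _, h⟩ := hx
    exact ⟨i, h⟩
  have hmem2 : ∀ x ∈ M'.U, ∀ y ∈ M'.U, ∃ i, x ∈ (N i).ps.U ∧ y ∈ (N i).ps.U := by
    intro x hx y hy
    obtain ⟨i, hi⟩ := hmem x hx
    obtain ⟨j, hj⟩ := hmem y hy
    exact ⟨max i j, Z.kf_chain_le hN (le_max_left i j) hi, Z.kf_chain_le hN (le_max_right i j) hj⟩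
  have e := fun i => hM.emb i trivial
  have e' := fun i => hM'.emb i trivial
  refine ⟨hU.le, ?_, ?_, ?_, ?_, ?_, ?_, ?_, ?_, ?_, ?_⟩
  · rw [(e Z.X.bot).zero, (e' Z.X.bot).zero]
  · rw [(e Z.X.bot).one, (e' Z.X.bot).one]
  · intro x hx y hy
    obtain ⟨i, h1, h2⟩ := hmem2 x hx y hy
    rw [(e i).add x h1 y h2, (e' i).add x h1 y h2]
  · intro x hx y hy
    obtain ⟨i, h1, h2⟩ := hmem2 x hx y hy
    rw [(e i).mul x h1 y h2, (e' i).mul x h1 y h2]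
  · intro x hx y hy
    obtain ⟨i, h1, h2⟩ := hmem2 x hx y hy
    rw [(e i).pair x h1 y h2, (e' i).pair x h1 y h2]
  · intro x hx
    obtain ⟨i, h1⟩ := hmem x hx
    rw [(e i).fst x h1, (e' i).fst x h1]
  · intro x hx
    obtain ⟨i, h1⟩ := hmem x hx
    rw [(e i).snd x h1, (e' i).snd x h1]
  · intro x hx y hy
    obtain ⟨i, h1, h2⟩ := hmem2 x hx y hy
    rw [(e i).lt x h1 y h2, (e' i).lt x h1 y h2]
  · intro c
    rw [(e Z.X.bot).j, (e' Z.X.bot).j]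
  · intro x hx y hy _
    rw [hU]; exact hy

/-- the limits `M_t` and the union -/
theorem kf_union_coh {N : ι → Nd Ω} (hN : ∀ i, Z.Spec N i) {M : PS Ω}
    (hM : IsLim (fun i => (N i).ps) Set.univ (fun _ => Set.univ) M) {t : ι} (ht : t ∈ Z.X.L)
    (htb : t ≠ Z.X.bot) : PS.EE (Z.Ml N t) M ∧ PS.CohI om (Z.Ml N t) M := by
  obtain ⟨M', hM', -, -, h4⟩ := Z.exists_union hN
  obtain ⟨h5, h6⟩ := h4 t ht htb
  have hE := Z.kf_lim_ee hN hM hM'
  refine ⟨h5.trans hE, fun c hc x hx => ?_⟩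
  rw [← h6 c hc x hx, hM.S c x (hE.sub (h5.sub hx)), hM'.S c x (h5.sub hx)]

/-- a class of the union is definable over all large nodes with a code in `I n` -/
theorem kf_class_node_n {N : ι → Nd Ω} (hN : ∀ i, Z.Spec N i) {M : PS Ω}
    (hM : IsLim (fun i => (N i).ps) Set.univ (fun _ => Set.univ) M) (hK : IsK M.sub om)
    {X : Set M.U} (hX : IsClass M.sub.red X) {n : ℕ} (hn : 1 ≤ n) :
    ∃ b : ι, ∀ i, b ≤ i → ∃ g ∈ (Z.V.I n).s, ∃ p ∈ (N i).ps.U, ∀ y : M.U, y.1 ∈ (N i).ps.U →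
      (y ∈ X ↔ (N i).ps.S g ((N i).ps.pair y p)) := by
  classical
  have hdat : ∀ t ∈ Z.X.L, t ≠ Z.X.bot → ∃ i, i < t ∧ ∃ g ∈ (Z.V.I (Z.X.h t)).s,
      ∃ p ∈ (N i).ps.U, ∀ y : M.U, y.1 ∈ (Z.Ml N t).U →
        (y ∈ X ↔ (Z.Ml N t).S g ((Z.Ml N t).pair y p)) := by
    intro t ht htb
    obtain ⟨g, hg, p, hp, h⟩ := Z.class_lim hN hM hK hX ht htb
    have hl := (Z.facts (d := t) (fun i _ => hN i)).isLim t ht htb le_rfl
    rw [hl.U, Set.mem_iUnion₂] at hp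
    obtain ⟨i, hi, hp⟩ := hp
    exact ⟨i, hi, g, hg, p, hp, h⟩
  obtain ⟨r, hr⟩ : ∃ r : ι → ι, r = fun t => if h : t ∈ Z.X.L ∧ t ≠ Z.X.bot then
    Classical.choose (hdat t h.1 h.2) else Z.X.bot := ⟨_, rfl⟩
  have hr1 : ∀ (t : ι) (ht : t ∈ Z.X.L) (htb : t ≠ Z.X.bot),
      r t = Classical.choose (hdat t ht htb) := by
    intro t ht htb
    rw [hr]
    exact dif_pos ⟨ht, htb⟩
  obtain ⟨b, hb⟩ := Z.large.fodor n hn r (by
    intro t ht htb _
    rw [hr1 t ht htb]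
    exact (Classical.choose_spec (hdat t ht htb)).1)
  refine ⟨b, fun i hi => ?_⟩
  obtain ⟨t, ht, hit, hht, hrt⟩ := hb i
  have htb : t ≠ Z.X.bot := Z.kf_ne_bot hit
  obtain ⟨hrt', g, hg, p, hp, hy⟩ := Classical.choose_spec (hdat t ht htb)
  rw [← hr1 t ht htb] at hrt' hp
  have hpi : p ∈ (N i).ps.U := Z.kf_chain_le hN (hrt.trans hi) hp
  subst hht
  obtain ⟨k, hk⟩ := Z.V.lv_cof _ g hg
  obtain ⟨c, hcC, hcS, hic, hkc⟩ := Z.X.C_cof t ht htb i hit k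
  have hF := Z.facts (d := t) (fun i _ => hN i)
  have hct : c < t := (Z.X.C_lt t ht htb c hcC).1
  have hcoh := hF.cohL t ht htb le_rfl c hcC hcS
  have hgc : g ≤ Z.V.lv (Z.X.h t) (Z.X.kk c) := hk.trans (Z.V.kf_lv_mono _ hkc)
  have hlim := hF.isLim t ht htb le_rfl
  have eI : PS.EE (N i).ps (Z.Ml N t) := hlim.emb i hit
  obtain ⟨g', hg', p', hp', htr⟩ := Z.trace hN hn hic g hg p hpi
  refine ⟨g', hg', p', hp', fun y hy' => ?_⟩
  rw [← htr y hy', hy y (eI.sub hy'), eI.pair y hy' p hpi]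
  exact hcoh g hgc _ (Z.kf_chain_le hN hic.le ((N i).ps.pair_mem hy' hpi))

/-- a class of the union has a standard code over all large nodes -/
theorem class_node {N : ι → Nd Ω} (hN : ∀ i, Z.Spec N i) {M : PS Ω}
    (hM : IsLim (fun i => (N i).ps) Set.univ (fun _ => Set.univ) M) (hK : IsK M.sub om)
    {X : Set M.U} (hX : IsClass M.sub.red X) :
    ∃ b : ι, ∀ i, b ≤ i → ∃ k : ℕ, ∃ p ∈ (N i).ps.U, ∀ y : M.U, y.1 ∈ (N i).ps.U →
      (y ∈ X ↔ (N i).ps.S (num k) ((N i).ps.pair y p)) := by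
  choose b hb using fun n : ℕ => Z.kf_class_node_n hN hM hK hX (n := n + 1) (by omega)
  obtain ⟨i0, hi0⟩ := Z.large.cof (Set.range b) (by
    refine lt_of_le_of_lt Cardinal.mk_range_le ?_
    rw [Cardinal.mk_nat]
    exact Z.unc)
  refine ⟨i0, fun i hi => ?_⟩
  obtain ⟨k, p, hp, h⟩ := standard_code Z.V (A := (N i).ps) (hN i).ext.isK
    (X := {y | ∃ h : y ∈ M.U, (⟨y, h⟩ : M.U) ∈ X}) (by
      intro n hn
      obtain ⟨m, rfl⟩ : ∃ m, n = m + 1 := ⟨n - 1, by omega⟩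
      obtain ⟨g, hg, p, hp, h⟩ := hb m i ((hi0 _ ⟨m, rfl⟩).le.trans hi)
      refine ⟨g, hg, p, hp, fun y hy => ?_⟩
      have hyM : y ∈ M.U := (hM.emb i trivial).sub hy
      rw [← h ⟨y, hyM⟩ hy]
      exact ⟨fun ⟨_, hX⟩ => hX, fun hX => ⟨hyM, hX⟩⟩)
  refine ⟨k, p, hp, fun y hy => ?_⟩
  rw [← h y hy]
  exact ⟨fun hX => ⟨y.2, hX⟩, fun ⟨_, hX⟩ => hX⟩

/-- a class of the union has a standard code over all large limits -/
theorem class_lim_std {N : ι → Nd Ω} (hN : ∀ i, Z.Spec N i) {M : PS Ω}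
    (hM : IsLim (fun i => (N i).ps) Set.univ (fun _ => Set.univ) M) (hK : IsK M.sub om)
    {X : Set M.U} (hX : IsClass M.sub.red X) :
    ∃ b : ι, ∀ t ∈ Z.X.L, b < t → ∃ k : ℕ, ∃ p ∈ (Z.Ml N t).U, ∀ y : M.U, y.1 ∈ (Z.Ml N t).U →
      (y ∈ X ↔ (Z.Ml N t).S (num k) ((Z.Ml N t).pair y p)) := by
  obtain ⟨b, hb⟩ := Z.class_node hN hM hK hX
  refine ⟨b, fun t ht hbt => ?_⟩
  have htb := Z.kf_ne_bot hbt
  have hF := Z.facts (d := t) (fun i _ => hN i)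
  have hlim := hF.isLim t ht htb le_rfl
  have hMt := hF.limK t ht htb le_rfl
  obtain ⟨g, hg, p, hp, hy⟩ := Z.class_lim hN hM hK hX ht htb
  have hp' := hp
  rw [hlim.U, Set.mem_iUnion₂] at hp'
  obtain ⟨i, hit, hpi⟩ := hp'
  obtain ⟨a, ha, hna⟩ := Z.V.nonst (Z.X.h t)
  obtain ⟨g0, hg0⟩ : ∃ g0, g0 = max g a := ⟨_, rfl⟩
  have hg0m : g0 ∈ (Z.V.I (Z.X.h t)).s := by rw [hg0]; exact Cut.kf_max_mem _ hg ha
  have hg0n : NonSt g0 := kf_nonSt_mono hna (by rw [hg0]; exact le_max_right _ _)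
  have hanti : ∀ n, (Z.V.I n).s ⊆ (Z.V.I 0).s := by
    intro n
    induction n with
    | zero => exact subset_rfl
    | succ n ih => exact subset_trans (Z.V.anti n) ih
  obtain ⟨ρ, hρd⟩ : ∃ ρ : ℕ → J, ρ = rh2 (c5 g0) g := ⟨_, rfl⟩
  have hρ0 : ρ 0 = c5 g0 := by rw [hρd]; rfl
  have hρ1 : ρ 1 = g := by rw [hρd]; rfl
  have hρ : ∀ k, ρ k ∈ (Z.V.I (Z.X.h t)).s := by
    intro k
    rw [hρd]
    unfold rh2
    split_ifs
    · exact c5_mem _ hg0m
    · exact hg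
  have hcdm := UD.cd_mem kf_ud (Z.V.I (Z.X.h t)) hρ
  obtain ⟨k1, hk1⟩ := Z.V.lv_cof _ _ hcdm
  obtain ⟨k2, hk2⟩ := Z.V.lv_cof _ g hg
  obtain ⟨c, hcC, hcS, hic, hkc⟩ := Z.X.C_cof t ht htb (max i b) (max_lt hit hbt) (max k1 k2)
  have hct : c < t := (Z.X.C_lt t ht htb c hcC).1
  have hcoh := hF.cohL t ht htb le_rfl c hcC hcS
  have hcd : kf_ud.cd ρ ≤ Z.V.lv (Z.X.h t) (Z.X.kk c) :=
    hk1.trans (Z.V.kf_lv_mono _ ((le_max_left _ _).trans hkc))
  have hgc : g ≤ Z.V.lv (Z.X.h t) (Z.X.kk c) :=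
    hk2.trans (Z.V.kf_lv_mono _ ((le_max_right _ _).trans hkc))
  have eC : PS.EE (N c).ps (Z.Ml N t) := hlim.emb c hct
  have hpc : p ∈ (N c).ps.U := Z.kf_chain_le hN (le_of_lt (lt_of_le_of_lt (le_max_left i b) hic)) hpi
  obtain ⟨k, pc, hpcm, hk⟩ := hb c (le_of_lt (lt_of_le_of_lt (le_max_right i b) hic))
  have hKc := (hN c).ext.isK
  have hle : (num k : J) ≤ g0 := kf_num_le hg0n k
  -- the relation holds in `N c`
  have hjm : (N c).ps.j (num k) ∈ (N c).ps.U := (N c).ps.j_mem _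
  obtain ⟨x, hx⟩ : ∃ x : (N c).ps.U, x = (N c).ps.sub.pair ((N c).ps.sub.j (num k)) ⟨p, hpc⟩ :=
    ⟨_, rfl⟩
  have hS1 : (N c).ps.S (kf_ud.cd ρ) x := by
    rw [PS.cd_spec kf_ud hKc (fun k => hanti _ (hρ k))]
    refine ⟨⟨pc, hpcm⟩, fun y => ?_⟩
    rw [hx, hKc.pairing.fst_pair, hKc.pairing.snd_pair, hρ0, hρ1,
      kf_c5_spec hKc (hanti _ hg0m) hle]
    have hyM : y.1 ∈ M.U := (hM.emb c trivial).sub y.2
    have h1 := hk ⟨y.1, hyM⟩ y.2
    have h2 := hy ⟨y.1, hyM⟩ (eC.sub y.2)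
    have h3 := hcoh g hgc ((N c).ps.pair y.1 p) ((N c).ps.pair_mem y.2 hpc)
    rw [eC.pair _ y.2 _ hpc] at h2
    exact h1.symm.trans (h2.trans h3)
  have hxM : (x : Ω) ∈ (Z.Ml N t).U := eC.sub x.2
  have hS2 : (Z.Ml N t).S (kf_ud.cd ρ) x := (hcoh _ hcd _ x.2).2 hS1
  have hS3 := (PS.cd_spec kf_ud hMt hρ ⟨(x : Ω), hxM⟩).1 hS2
  obtain ⟨p', hp'⟩ := hS3
  refine ⟨k, p'.1, p'.2, fun y hyt => ?_⟩
  have h1 := hp' ⟨y.1, hyt⟩
  have hx' : (⟨(x : Ω), hxM⟩ : (Z.Ml N t).U) =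
      (Z.Ml N t).sub.pair ((Z.Ml N t).sub.j (num k)) ⟨p, hp⟩ := by
    apply Subtype.ext
    show (x : Ω) = (Z.Ml N t).pair ((Z.Ml N t).j (num k)) p
    rw [hx, eC.j, eC.pair _ hjm _ hpc]
    rfl
  rw [hx', hMt.pairing.fst_pair, hMt.pairing.snd_pair, hρ0, hρ1, kf_c5_spec hMt hg0m hle] at h1
  rw [hy y hyt]
  exact h1.symm

/-- the union is rather classless -/
theorem union_rcl {N : ι → Nd Ω} (hN : ∀ i, Z.Spec N i) {M : PS Ω}
    (hM : IsLim (fun i => (N i).ps) Set.univ (fun _ => Set.univ) M) (hK : IsK M.sub om) :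
    IsRatherClassless M.sub.red := by
  classical
  intro X hX
  obtain ⟨b, hb⟩ := Z.class_lim_std hN hM hK hX
  have hdat : ∀ t ∈ Z.X.L, b < t → ∃ i, i < t ∧ ∃ k : ℕ, ∃ p ∈ (N i).ps.U,
      ∀ y : M.U, y.1 ∈ (Z.Ml N t).U →
        (y ∈ X ↔ (Z.Ml N t).S (num k) ((Z.Ml N t).pair y p)) := by
    intro t ht hbt
    obtain ⟨k, p, hp, h⟩ := hb t ht hbt
    have hl := (Z.facts (d := t) (fun i _ => hN i)).isLim t ht (Z.kf_ne_bot hbt) le_rfl
    rw [hl.U, Set.mem_iUnion₂] at hp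
    obtain ⟨i, hi, hp⟩ := hp
    exact ⟨i, hi, k, p, hp, h⟩
  obtain ⟨r, hr⟩ : ∃ r : ι → ι, r = fun t => if h : t ∈ Z.X.L ∧ b < t then
    Classical.choose (hdat t h.1 h.2) else Z.X.bot := ⟨_, rfl⟩
  have hr1 : ∀ (t : ι) (ht : t ∈ Z.X.L) (hbt : b < t),
      r t = Classical.choose (hdat t ht hbt) := by
    intro t ht hbt
    rw [hr]
    exact dif_pos ⟨ht, hbt⟩
  obtain ⟨b1, hb1⟩ := Z.large.fodor 1 le_rfl r (by
    intro t ht htb _
    by_cases hbt : b < t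
    · rw [hr1 t ht hbt]
      exact (Classical.choose_spec (hdat t ht hbt)).1
    · have : r t = Z.X.bot := by
        rw [hr]
        exact dif_neg fun h => hbt h.2
      rw [this]
      exact lt_of_le_of_ne (Z.X.bot_le t) (Ne.symm htb))
  -- for every `i` there are a limit above `i`, and `k`, `p` with `p ∈ N b1`
  have key : ∀ i, ∃ t ∈ Z.X.L, i < t ∧ b < t ∧ ∃ k : ℕ, ∃ p ∈ (N b1).ps.U,
      ∀ y : M.U, y.1 ∈ (Z.Ml N t).U →
        (y ∈ X ↔ (Z.Ml N t).S (num k) ((Z.Ml N t).pair y p)) := by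
    intro i
    obtain ⟨t, ht, hit, -, hrt⟩ := hb1 (max i b)
    have hbt : b < t := lt_of_le_of_lt (le_max_right i b) hit
    obtain ⟨-, k, p, hp, h⟩ := Classical.choose_spec (hdat t ht hbt)
    rw [← hr1 t ht hbt] at hp
    exact ⟨t, ht, lt_of_le_of_lt (le_max_left i b) hit, hbt, k, p, Z.kf_chain_le hN hrt hp, h⟩
  -- pigeonhole
  have hpig : ∃ (k : ℕ) (p : (N b1).ps.U), ∀ i, ∃ t ∈ Z.X.L, i < t ∧ b < t ∧
      ∀ y : M.U, y.1 ∈ (Z.Ml N t).U →
        (y ∈ X ↔ (Z.Ml N t).S (num k) ((Z.Ml N t).pair y p)) := by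
    by_contra hcon
    push Not at hcon
    choose f hf using hcon
    have hcard : #(Set.range (fun q : ℕ × (N b1).ps.U => f q.1 q.2)) < Z.κ := by
      refine lt_of_le_of_lt Cardinal.mk_range_le ?_
      rw [Cardinal.mk_prod, Cardinal.lift_id, Cardinal.lift_id]
      refine Cardinal.mul_lt_of_lt Z.unc.le ?_ ?_
      · rw [Cardinal.mk_nat]; exact Z.unc
      · exact (hN b1).card
    obtain ⟨i, hi⟩ := Z.large.cof _ hcard
    obtain ⟨t, ht, hit, hbt, k, p, hp, h⟩ := key i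
    obtain ⟨y, hy1, hy2⟩ := hf k ⟨p, hp⟩ t ht ((hi _ ⟨(k, ⟨p, hp⟩), rfl⟩).trans hit) hbt
    have h3 := h y hy1
    rcases hy2 with ⟨h4, h5⟩ | ⟨h4, h5⟩
    · exact h5 (h3.1 h4)
    · exact h4 (h3.2 h5)
  obtain ⟨k, p, hkp⟩ := hpig
  have hpM : (p : Ω) ∈ M.U := (hM.emb b1 trivial).sub p.2
  obtain ⟨φ, v, hφ⟩ := def_of_code hK k ⟨(p : Ω), hpM⟩
  refine ⟨φ, v, fun y => ?_⟩
  rw [← hφ y]
  obtain ⟨i, hi⟩ : ∃ i, y.1 ∈ (N i).ps.U := kf_mem_lim hM y.2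
  obtain ⟨t, ht, hit, hbt, h⟩ := hkp (max i b1)
  have htb := Z.kf_ne_bot hbt
  have hlim := (Z.facts (d := t) (fun i _ => hN i)).isLim t ht htb le_rfl
  have hyt : y.1 ∈ (Z.Ml N t).U :=
    (hlim.emb i (lt_of_le_of_lt (le_max_left i b1) hit)).sub hi
  have hpt : (p : Ω) ∈ (Z.Ml N t).U :=
    (hlim.emb b1 (lt_of_le_of_lt (le_max_right i b1) hit)).sub p.2
  obtain ⟨e1, e2⟩ := Z.kf_union_coh hN hM ht htb
  rw [h y hyt]
  show _ ↔ M.S (num k) (M.pair y.1 p)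
  rw [e1.pair _ hyt _ hpt]
  exact (e2 _ ⟨k, rfl⟩ _ ((Z.Ml N t).pair_mem hyt hpt)).symm

/-- the union is recursively saturated -/
theorem kf_union_recSat {N : ι → Nd Ω} (hN : ∀ i, Z.Spec N i) {M : PS Ω}
    (hM : IsLim (fun i => (N i).ps) Set.univ (fun _ => Set.univ) M) (hK : IsK M.sub om)
    (hE : ∀ i, PS.EE (N i).ps M ∧ PS.CohI om (N i).ps M) : IsRecSat M.sub.red := by
  classical
  intro P hP v hfin
  obtain ⟨n, hn⟩ := hP.2
  -- a node which contains the parameters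
  have hi : ∀ m : ℕ, ∃ i, ∀ k ≤ m, (v k).1 ∈ (N i).ps.U := by
    have hone : ∀ k : ℕ, ∃ i, (v k).1 ∈ (N i).ps.U := fun k => kf_mem_lim hM (v k).2
    intro m
    induction m with
    | zero =>
      obtain ⟨i, hi⟩ := hone 0
      exact ⟨i, fun k hk => by rw [Nat.le_zero.1 hk]; exact hi⟩
    | succ m ih =>
      obtain ⟨i, hi⟩ := ih
      obtain ⟨j, hj⟩ := hone (m + 1)
      refine ⟨max i j, fun k hk => ?_⟩
      rcases Nat.lt_or_ge k (m + 1) with h | h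
      · exact Z.kf_chain_le hN (le_max_left i j) (hi k (by omega))
      · have : k = m + 1 := by omega
        rw [this]
        exact Z.kf_chain_le hN (le_max_right i j) hj
  obtain ⟨i, hi⟩ := hi n
  obtain ⟨e1, e2⟩ := hE i
  have hKi := (hN i).ext.isK
  obtain ⟨w, hw⟩ : ∃ w : ℕ → (N i).ps.U, w = fun k =>
    if h : k ≤ n then ⟨(v k).1, hi k h⟩ else (N i).ps.sub.zero := ⟨_, rfl⟩
  obtain ⟨W, hW⟩ : ∃ W : ℕ → M.U, W = fun k => ⟨(w k).1, e1.sub (w k).2⟩ := ⟨_, rfl⟩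
  have hWv : ∀ k ≤ n, W k = v k := by
    intro k hk
    rw [hW, hw]
    apply Subtype.ext
    simp [hk]
  have hcongr : ∀ φ ∈ P, ∀ a : M.U, φ.Sat M.sub.red (Function.update v 0 a) ↔
      φ.Sat M.sub.red (Function.update W 0 a) := by
    intro φ hφ a
    apply Fm.kf_sat_congr
    intro k hk
    rcases Nat.eq_zero_or_pos k with rfl | hk0
    · simp
    · rw [Function.update_of_ne (by omega), Function.update_of_ne (by omega),
        hWv k (hn φ hφ k hk)]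
  have hupd : ∀ a : (N i).ps.U, (fun k => (⟨(Function.update w 0 a k).1,
      e1.sub (Function.update w 0 a k).2⟩ : M.U)) = Function.update W 0 ⟨a.1, e1.sub a.2⟩ := by
    intro a
    funext k
    rcases Nat.eq_zero_or_pos k with rfl | hk0
    · simp
    · rw [Function.update_of_ne (by omega)]
      apply Subtype.ext
      rw [Function.update_of_ne (by omega), hW]
  obtain ⟨g, hg, hgn⟩ := Z.V.nonst 0
  obtain ⟨a, ha⟩ := isRecSat_of_isK hKi hg hgn P hP w (by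
    intro F hF
    obtain ⟨a, ha⟩ := hfin F hF
    have h1 : (Fo.ex (kfConj F.toList)).sat M.sub (fun _ => num 0) (fun k => W (k + 1)) := by
      refine ⟨a, ?_⟩
      rw [kf_conj_sat, kf_cs_update]
      intro φ hφ
      rw [Finset.mem_toList] at hφ
      exact (hcongr φ (hF hφ) a).1 (ha φ hφ)
    have h2 := (kf_elementary hKi hK e1 e2 (Fo.ex (kfConj F.toList)) (fun k => w (k + 1))).2 (by
      rw [hW] at h1; exact h1)
    obtain ⟨x, hx⟩ := h2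
    rw [kf_conj_sat, kf_cs_update] at hx
    exact ⟨x, fun φ hφ => hx φ (Finset.mem_toList.2 hφ)⟩)
  refine ⟨⟨a.1, e1.sub a.2⟩, fun φ hφ => ?_⟩
  rw [hcongr φ hφ, ← hupd a, ← Fm.sat_fo M.sub (fun _ => num 0) φ,
    ← kf_elementary hKi hK e1 e2 φ.fo (Function.update w 0 a), Fm.sat_fo]
  exact ha φ hφ

theorem exists_kaufmann {N : ι → Nd Ω}
    (hN : ∀ i, Z.Spec N i) : ∃ (A : Type) (M : ArStr A), IsKaufmann Z.κ M := by
  obtain ⟨M, hM, hK, hE, -⟩ := Z.exists_union hN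
  exact ⟨M.U, M.sub.red, isPA_of_isK hK, Z.union_like hN hM hK, Z.kf_union_recSat hN hM hK hE,
    Z.union_rcl hN hM hK⟩

end Setup

end Pool.Agent.Helper4.KSq
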