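import Pool.Agent.Helper4.KSq.TowerDefs
import Pool.Agent.Helper4.KSq.JFacts

set_option autoImplicit false

/-!
# Existence of the cuts and levels
-/

namespace Pool.Agent.Helper4.KSq

open Filter Cod

private theorem gmax_mono {x y : ℕ} (h : x ≤ y) : gmax x ≤ gmax y :=
  Finset.sup_mono (Finset.range_mono (by omega))

private theorem pair_mono {a b c d : ℕ} (h : a ≤ c) (h' : b ≤ d) : Nat.pair a b ≤ Nat.pair c d := by
  have h1 : Nat.pair a b ≤ Nat.pair c b := by
    rcases h.lt_or_eq with h | rfl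
    · exact (Nat.pair_lt_pair_left _ h).le
    · exact le_rfl
  have h2 : Nat.pair c b ≤ Nat.pair c d := by
    rcases h'.lt_or_eq with h | rfl
    · exact (Nat.pair_lt_pair_right _ h).le
    · exact le_rfl
  exact h1.trans h2

private theorem hh_mono {x y : ℕ} (h : x ≤ y) : hh x ≤ hh y := by
  unfold hh
  have h1 := gmax_mono h
  have h2 := pair_mono h h
  omega

private theorem lt_hh (x : ℕ) : x < hh x := by
  unfold hh
  omega

private theorem gmax_le_hh (x : ℕ) : gmax x ≤ hh x := by
  unfold hh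
  omega

private theorem pair_le_hh (x : ℕ) : Nat.pair x x ≤ hh x := by
  unfold hh
  omega

private theorem hhi_mono (k : ℕ) {x y : ℕ} (h : x ≤ y) : hh^[k] x ≤ hh^[k] y :=
  (Monotone.iterate (fun _ _ h => hh_mono h) k) h

private theorem hhi_le {k l : ℕ} (h : k ≤ l) (x : ℕ) : hh^[k] x ≤ hh^[l] x := by
  induction l, h using Nat.le_induction with
  | base => exact le_rfl
  | succ l _ ih =>
    rw [Function.iterate_succ_apply']
    exact ih.trans (lt_hh _).le

/-- `hh` on `J` -/
private noncomputable def hj : J → J := J.ap _ J.mem_hh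

private theorem hj_it (k : ℕ) {F : ℕ → ℕ} (hF : Gen F) :
    ∃ hG : Gen (fun n => hh^[k] (F n)), hj^[k] (J.mk F hF) = J.mk _ hG := by
  induction k with
  | zero => exact ⟨hF, rfl⟩
  | succ k ih =>
    obtain ⟨hG, e⟩ := ih
    have hG' : Gen (fun n => hh^[k + 1] (F n)) := by
      have : (fun n => hh^[k + 1] (F n)) = fun n => hh (hh^[k] (F n)) := by
        funext n
        rw [Function.iterate_succ_apply']
      rw [this]
      exact Gen.ap J.mem_hh hG
    refine ⟨hG', ?_⟩
    rw [Function.iterate_succ_apply', e, hj, J.ap_mk]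
    refine (J.mk_eq _ _).2 (Eventually.of_forall fun n => ?_)
    rw [Function.iterate_succ_apply']

private theorem hji_mono (k : ℕ) {a b : J} (h : a ≤ b) : hj^[k] a ≤ hj^[k] b := by
  obtain ⟨F, hF, rfl⟩ := a.ind
  obtain ⟨G, hG, rfl⟩ := b.ind
  obtain ⟨h1, e1⟩ := hj_it k hF
  obtain ⟨h2, e2⟩ := hj_it k hG
  rw [e1, e2, J.mk_le]
  filter_upwards [(J.mk_le hF hG).1 h] with n hn
  exact hhi_mono k hn

private theorem hj_num (k n : ℕ) : hj^[k] (num n : J) = num (hh^[k] n) := by
  rw [J.num_def]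
  obtain ⟨h1, e1⟩ := hj_it k (J.gen_const n)
  rw [e1]
  exact (J.mk_eq _ _).2 (Eventually.of_forall fun _ => rfl)

private theorem num_lt {e : J} (he : NonSt e) (m : ℕ) : num m < e := by
  by_contra hcon
  have h := not_lt.1 hcon
  obtain ⟨F, hF, rfl⟩ := e.ind
  rw [J.num_def, J.mk_le] at h
  have h2 : ∀ᶠ n in (JU : Filter ℕ), ∃ k ∈ (Set.Iic m), F n = k := by
    filter_upwards [h] with n hn
    exact ⟨F n, hn, rfl⟩
  rw [Ultrafilter.eventually_exists_mem_iff (Set.finite_Iic m)] at h2
  obtain ⟨k, -, hk⟩ := h2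
  refine he k ?_
  rw [J.num_def]
  exact (J.mk_eq _ _).2 hk

private theorem pr_mono {a b c d : J} (h : a ≤ c) (h' : b ≤ d) : pr a b ≤ pr c d := by
  obtain ⟨F, hF, rfl⟩ := a.ind
  obtain ⟨G, hG, rfl⟩ := b.ind
  obtain ⟨F', hF', rfl⟩ := c.ind
  obtain ⟨G', hG', rfl⟩ := d.ind
  rw [J.pr_mk, J.pr_mk, J.mk_le]
  filter_upwards [(J.mk_le _ _).1 h, (J.mk_le _ _).1 h'] with n h1 h2
  exact pair_mono h1 h2

private theorem pr_le_hj (a : J) : pr a a ≤ hj a := by
  obtain ⟨F, hF, rfl⟩ := a.ind
  rw [J.pr_mk, hj, J.ap_mk, J.mk_le]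
  exact Eventually.of_forall fun n => pair_le_hh _

private theorem gmax_le_hj (a : J) : J.gmax a ≤ hj a := by
  obtain ⟨F, hF, rfl⟩ := a.ind
  rw [J.gmax, J.ap_mk, hj, J.ap_mk, J.mk_le]
  exact Eventually.of_forall fun n => gmax_le_hh _

/-- the cut below `e` -/
private noncomputable def cut (e : J) (he : NonSt e) : Cut where
  s := {a | ∀ k : ℕ, hj^[k] a < e}
  down := fun h hb k => (hji_mono k h).trans_lt (hb k)
  num := fun n k => by
    rw [hj_num]
    exact num_lt he _
  pr := fun {a b} ha hb k => by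
    rcases le_total a b with h | h
    · have h1 : pr a b ≤ hj b := (pr_mono h le_rfl).trans (pr_le_hj b)
      refine (hji_mono k h1).trans_lt ?_
      rw [← Function.iterate_succ_apply]
      exact hb (k + 1)
    · have h1 : pr a b ≤ hj a := (pr_mono le_rfl h).trans (pr_le_hj a)
      refine (hji_mono k h1).trans_lt ?_
      rw [← Function.iterate_succ_apply]
      exact ha (k + 1)
  gmax := fun {a} ha k => by
    refine (hji_mono k (gmax_le_hj a)).trans_lt ?_
    rw [← Function.iterate_succ_apply]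
    exact ha (k + 1)

private theorem cut_nonst (e : J) (he : NonSt e) : ∃ a ∈ (cut e he).s, NonSt a := by
  obtain ⟨F, hF, rfl⟩ := e.ind
  have hbig : ∀ m : ℕ, ∀ᶠ n in (JU : Filter ℕ), m < F n := by
    intro m
    have h := num_lt he m
    rw [J.num_def, J.mk_lt] at h
    exact h
  have hk : ∀ k : ℕ, ∀ᶠ n in (JU : Filter ℕ), k ≤ iv itr (F n) := by
    intro k
    filter_upwards [hbig k, hbig (itr k)] with n h1 h2
    unfold iv
    exact Nat.le_findGreatest h1.le h2.le
  refine ⟨J.mk _ (Gen.ap J.mem_iv hF), fun k => ?_, fun k => ?_⟩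
  · obtain ⟨h1, e1⟩ := hj_it k (Gen.ap J.mem_iv hF)
    rw [e1, J.mk_lt]
    filter_upwards [hk k, hbig (itr 0)] with n hn h0
    have h2 : itr (iv itr (F n)) ≤ F n := by
      unfold iv
      exact Nat.findGreatest_spec (P := fun k => itr k ≤ F n) (Nat.zero_le _) h0.le
    have h3 : hh^[k] (iv itr (F n)) ≤ hh^[iv itr (F n)] (iv itr (F n)) := hhi_le hn _
    unfold itr at h2
    unfold itr at h3 ⊢
    omega
  · intro hcon
    rw [J.num_def, J.mk_eq] at hcon
    obtain ⟨n, h1, h2⟩ := (hcon.and (hk (k + 1))).exists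
    omega

private theorem cut_lt {e : J} {he : NonSt e} {a : J} (h : a ∈ (cut e he).s) : a < e := h 0

private theorem cut_sub {e e' : J} {he : NonSt e} {he' : NonSt e'} (h : e ≤ e') :
    (cut e he).s ⊆ (cut e' he').s := fun _ ha k => (ha k).trans_le h

private theorem step (e b : J) (he : NonSt e) :
    ∃ e' : J, NonSt e' ∧ e' ∈ (cut e he).s ∧ (NonSt b → e' ≤ b) := by
  by_cases hb : NonSt b
  · have hm : NonSt (min e b) := by
      rcases le_total e b with h | h
      · rw [min_eq_left h]
        exact he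
      · rw [min_eq_right h]
        exact hb
    obtain ⟨a, ha, hn⟩ := cut_nonst (min e b) hm
    exact ⟨a, hn, cut_sub (min_le_left _ _) ha, fun _ => (cut_lt ha).le.trans (min_le_right _ _)⟩
  · obtain ⟨a, ha, hn⟩ := cut_nonst e he
    exact ⟨a, hn, ha, fun h => (hb h).elim⟩

private theorem exists_nonst : ∃ e : J, NonSt e := by
  refine ⟨J.mk _ Gen.id, fun k hk => ?_⟩
  rw [J.num_def, J.mk_eq] at hk
  have h1 : ∀ᶠ n in (JU : Filter ℕ), n ≠ k := by
    have : (JU : Filter ℕ) ≤ Filter.cofinite := Filter.hyperfilter_le_cofinite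
    exact this (Set.finite_singleton k).compl_mem_cofinite
  obtain ⟨n, h2, h3⟩ := (hk.and h1).exists
  exact h3 h2

theorem exists_levels : Nonempty Levels := by
  classical
  obtain ⟨e00, he00⟩ := exists_nonst
  haveI := J.countable
  haveI : Nonempty J := ⟨e00⟩
  obtain ⟨f, hf⟩ := exists_surjective_nat J
  -- the sequence of the `e n`
  let E : ℕ → {e : J // NonSt e} := fun n => Nat.rec ⟨e00, he00⟩
    (fun n p => ⟨(step p.1 (f n) p.2).choose, (step p.1 (f n) p.2).choose_spec.1⟩) n
  have hE : ∀ n, (E (n + 1)).1 ∈ (cut (E n).1 (E n).2).s ∧ (NonSt (f n) → (E (n + 1)).1 ≤ f n) :=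
    fun n => (step (E n).1 (f n) (E n).2).choose_spec.2
  let I : ℕ → Cut := fun n => cut (E n).1 (E n).2
  have hEI : ∀ n, (E n).1 ∉ (I n).s := fun n h => lt_irrefl _ (cut_lt h)
  let lv : ℕ → ℕ → J := fun h k => Nat.rec (E (h + 1)).1
    (fun k a => max (max a (appC a)) (if f k ∈ (I h).s then f k else a)) k
  have lv0 : ∀ h, lv h 0 = (E (h + 1)).1 := fun _ => rfl
  have lvs : ∀ h k, lv h (k + 1) = max (max (lv h k) (appC (lv h k)))
      (if f k ∈ (I h).s then f k else lv h k) := fun _ _ => rfl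
  have lvmono : ∀ h k, lv h k ≤ lv h (k + 1) := fun h k => by
    rw [lvs]
    exact (le_max_left _ _).trans (le_max_left _ _)
  have lvmem : ∀ h k, lv h k ∈ (I h).s := by
    intro h k
    induction k with
    | zero => exact (hE h).1
    | succ k ih =>
      rw [lvs]
      have h1 : appC (lv h k) ∈ (I h).s := appC_mem (I h) ih
      have h2 : (if f k ∈ (I h).s then f k else lv h k) ∈ (I h).s := by
        split_ifs with hc
        · exact hc
        · exact ih
      rcases max_choice (max (lv h k) (appC (lv h k)))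
        (if f k ∈ (I h).s then f k else lv h k) with h3 | h3
      · rw [h3]
        rcases max_choice (lv h k) (appC (lv h k)) with h4 | h4
        · rw [h4]
          exact ih
        · rw [h4]
          exact h1
      · rw [h3]
        exact h2
  have lvge : ∀ h k, (E (h + 1)).1 ≤ lv h k := by
    intro h k
    induction k with
    | zero => exact le_rfl
    | succ k ih => exact ih.trans (lvmono h k)
  exact ⟨{
    I := I
    e0 := (E 0).1
    e0_nmem := hEI 0
    anti := fun n => cut_sub (cut_lt (hE n).1).le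
    inter := fun a ha => by
      by_contra hcon
      push Not at hcon
      obtain ⟨m, rfl⟩ := hf a
      exact absurd (cut_lt (ha (m + 1))) (not_lt.2 ((hE m).2 hcon))
    nonst := fun n => ⟨(E (n + 1)).1, (hE n).1, (E (n + 1)).2⟩
    lU := (E 1).1
    lU_mem := (hE 0).1
    lU_nmem := hEI 1
    lv := lv
    lv_mem := lvmem
    lv_nmem := fun h k hc => hEI (h + 1) ((I (h + 1)).down (lvge h k) hc)
    lv_mono := lvmono
    lv_cof := fun h a ha => by
      obtain ⟨m, rfl⟩ := hf a
      refine ⟨m + 1, ?_⟩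
      rw [lvs, if_pos ha]
      exact le_max_right _ _
    lv_app := fun h k => by
      rw [lvs]
      exact (le_max_right _ _).trans (le_max_left _ _) }⟩

end Pool.Agent.Helper4.KSq
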