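import Pool.Agent.Helper4.KSq.PSFacts3

set_option autoImplicit false

/-!
# Limits of chains
-/

namespace Pool.Agent.Helper4.KSq

open Filter Cod Cardinal

variable {ι Ω : Type} [LinearOrder ι]

namespace LimAux

theorem le_pr (a b : J) : a ≤ pr a b ∧ b ≤ pr a b := by
  obtain ⟨F, hF, rfl⟩ := a.ind
  obtain ⟨G, hG, rfl⟩ := b.ind
  rw [J.pr_mk]
  exact ⟨(J.mk_le _ _).2 (Eventually.of_forall fun n => Nat.left_le_pair _ _),
    (J.mk_le _ _).2 (Eventually.of_forall fun n => Nat.right_le_pair _ _)⟩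

theorem le_cn (c : J) : c ≤ cn c := (le_pr _ _).2
theorem le_ce (c : J) : c ≤ ce c := (le_pr _ _).2
theorem le_c5 (c : J) : c ≤ c5 c := (le_pr _ _).2
theorem le_ca1 (c d : J) : c ≤ ca c d := (le_pr c d).1.trans (le_pr _ _).2
theorem le_ca2 (c d : J) : d ≤ ca c d := (le_pr c d).2.trans (le_pr _ _).2
theorem le_cf (k : ℕ) (c : J) : c ≤ cf k c := (le_pr (num k) c).2.trans (le_pr _ _).2

section inc

variable {A B : PS Ω}

/-- the inclusion -/
def inc (h : PS.EE A B) (x : A.U) : B.U := ⟨x, h.sub x.2⟩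

theorem inc_inj (h : PS.EE A B) {x y : A.U} : inc h x = inc h y ↔ x = y := by
  constructor
  · intro e
    exact Subtype.ext (congrArg (fun z : B.U => (z : Ω)) e)
  · rintro rfl; rfl

theorem inc_zero (h : PS.EE A B) : B.sub.zero = inc h A.sub.zero := Subtype.ext h.zero
theorem inc_one (h : PS.EE A B) : B.sub.one = inc h A.sub.one := Subtype.ext h.one
theorem inc_add (h : PS.EE A B) (x y : A.U) :
    B.sub.add (inc h x) (inc h y) = inc h (A.sub.add x y) := Subtype.ext (h.add _ x.2 _ y.2)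
theorem inc_mul (h : PS.EE A B) (x y : A.U) :
    B.sub.mul (inc h x) (inc h y) = inc h (A.sub.mul x y) := Subtype.ext (h.mul _ x.2 _ y.2)
theorem inc_pair (h : PS.EE A B) (x y : A.U) :
    B.sub.pair (inc h x) (inc h y) = inc h (A.sub.pair x y) := Subtype.ext (h.pair _ x.2 _ y.2)
theorem inc_fst (h : PS.EE A B) (x : A.U) :
    B.sub.fst (inc h x) = inc h (A.sub.fst x) := Subtype.ext (h.fst _ x.2)
theorem inc_snd (h : PS.EE A B) (x : A.U) :
    B.sub.snd (inc h x) = inc h (A.sub.snd x) := Subtype.ext (h.snd _ x.2)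
theorem inc_lt (h : PS.EE A B) (x y : A.U) :
    B.sub.lt (inc h x) (inc h y) ↔ A.sub.lt x y := h.lt _ x.2 _ y.2
theorem inc_j (h : PS.EE A B) (c : J) : B.sub.j c = inc h (A.sub.j c) := Subtype.ext (h.j c)

theorem inc_base (h : PS.EE A B) (k : ℕ) (hk : k < 7) (x : A.U) :
    B.sub.base k (inc h x) ↔ A.sub.base k x := by
  interval_cases k
  · simp only [Ar.base, inc_fst, inc_snd, inc_add, inc_inj]
  · simp only [Ar.base, inc_fst, inc_snd, inc_mul, inc_inj]
  · simp only [Ar.base, inc_fst, inc_snd, inc_lt]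
  · simp only [Ar.base, inc_fst, inc_snd, inc_pair, inc_inj]
  · simp only [Ar.base, inc_fst, inc_snd, inc_inj]
  · simp only [Ar.base, inc_fst, inc_zero h, inc_inj]
  · simp only [Ar.base, inc_fst, inc_one h, inc_inj]

theorem inc_fn (h : PS.EE A B) (k : ℕ) (hk : k < 7) (x : A.U) :
    B.sub.fn k (inc h x) = inc h (A.sub.fn k x) := by
  interval_cases k <;> simp only [Ar.fn, inc_fst, inc_snd, inc_pair]

end inc

end LimAux

open LimAux

theorem exists_isLim {N : ι → PS Ω} {s : Set ι} {good : J → Set ι} (hne : s.Nonempty)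
    (hch : ∀ i ∈ s, ∀ j ∈ s, i < j → PS.EE (N i) (N j)) : ∃ M, IsLim N s good M := by
  classical
  have hch' : ∀ i ∈ s, ∀ j ∈ s, i ≤ j → PS.EE (N i) (N j) := by
    intro i hi j hj hij
    rcases hij.lt_or_eq with h | rfl
    · exact hch i hi j hj h
    · exact PS.EE.refl _
  obtain ⟨i0, hi0⟩ := hne
  -- operations
  let op2 : (PS Ω → Ω → Ω → Ω) → Ω → Ω → Ω := fun f x y =>
    if h : ∃ i, i ∈ s ∧ x ∈ (N i).U ∧ y ∈ (N i).U then f (N h.choose) x y else (N i0).zero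
  let op1 : (PS Ω → Ω → Ω) → Ω → Ω := fun f x =>
    if h : ∃ i, i ∈ s ∧ x ∈ (N i).U then f (N h.choose) x else (N i0).zero
  have op2_eq : ∀ (f : PS Ω → Ω → Ω → Ω),
      (∀ i ∈ s, ∀ j ∈ s, i ≤ j → ∀ x ∈ (N i).U, ∀ y ∈ (N i).U, f (N j) x y = f (N i) x y) →
      ∀ i ∈ s, ∀ x ∈ (N i).U, ∀ y ∈ (N i).U, op2 f x y = f (N i) x y := by
    intro f hf i hi x hx y hy
    have h : ∃ i, i ∈ s ∧ x ∈ (N i).U ∧ y ∈ (N i).U := ⟨i, hi, hx, hy⟩
    have e : op2 f x y = f (N h.choose) x y := dif_pos h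
    rw [e]
    obtain ⟨h1, h2, h3⟩ := h.choose_spec
    rcases le_total i h.choose with hle | hle
    · exact hf i hi _ h1 hle x hx y hy
    · exact (hf _ h1 i hi hle x h2 y h3).symm
  have op1_eq : ∀ (f : PS Ω → Ω → Ω),
      (∀ i ∈ s, ∀ j ∈ s, i ≤ j → ∀ x ∈ (N i).U, f (N j) x = f (N i) x) →
      ∀ i ∈ s, ∀ x ∈ (N i).U, op1 f x = f (N i) x := by
    intro f hf i hi x hx
    have h : ∃ i, i ∈ s ∧ x ∈ (N i).U := ⟨i, hi, hx⟩
    have e : op1 f x = f (N h.choose) x := dif_pos h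
    rw [e]
    obtain ⟨h1, h2⟩ := h.choose_spec
    rcases le_total i h.choose with hle | hle
    · exact hf i hi _ h1 hle x hx
    · exact (hf _ h1 i hi hle x h2).symm
  have hadd := op2_eq (fun P => P.add) (fun i hi j hj hij x hx y hy =>
    (hch' i hi j hj hij).add x hx y hy)
  have hmul := op2_eq (fun P => P.mul) (fun i hi j hj hij x hx y hy =>
    (hch' i hi j hj hij).mul x hx y hy)
  have hpair := op2_eq (fun P => P.pair) (fun i hi j hj hij x hx y hy =>
    (hch' i hi j hj hij).pair x hx y hy)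
  have hfst := op1_eq (fun P => P.fst) (fun i hi j hj hij x hx =>
    (hch' i hi j hj hij).fst x hx)
  have hsnd := op1_eq (fun P => P.snd) (fun i hi j hj hij x hx =>
    (hch' i hi j hj hij).snd x hx)
  have hzero : ∀ i ∈ s, (N i0).zero = (N i).zero := by
    intro i hi
    rcases le_total i i0 with h | h
    · exact (hch' i hi i0 hi0 h).zero
    · exact (hch' i0 hi0 i hi h).zero.symm
  have hone : ∀ i ∈ s, (N i0).one = (N i).one := by
    intro i hi
    rcases le_total i i0 with h | h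
    · exact (hch' i hi i0 hi0 h).one
    · exact (hch' i0 hi0 i hi h).one.symm
  have hj : ∀ i ∈ s, ∀ c, (N i0).j c = (N i).j c := by
    intro i hi c
    rcases le_total i i0 with h | h
    · exact (hch' i hi i0 hi0 h).j c
    · exact ((hch' i0 hi0 i hi h).j c).symm
  have htwo : ∀ x ∈ ⋃ i ∈ s, (N i).U, ∀ y ∈ ⋃ i ∈ s, (N i).U,
      ∃ i, i ∈ s ∧ x ∈ (N i).U ∧ y ∈ (N i).U := by
    intro x hx y hy
    simp only [Set.mem_iUnion, exists_prop] at hx hy
    obtain ⟨i, hi, hx⟩ := hx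
    obtain ⟨j, hj, hy⟩ := hy
    rcases le_total i j with h | h
    · exact ⟨j, hj, (hch' i hi j hj h).sub hx, hy⟩
    · exact ⟨i, hi, hx, (hch' j hj i hi h).sub hy⟩
  have mem : ∀ i ∈ s, ∀ x ∈ (N i).U, x ∈ ⋃ i ∈ s, (N i).U := by
    intro i hi x hx
    simp only [Set.mem_iUnion, exists_prop]
    exact ⟨i, hi, hx⟩
  let M : PS Ω :=
    { zero := (N i0).zero
      one := (N i0).one
      add := op2 fun P => P.add
      mul := op2 fun P => P.mul
      pair := op2 fun P => P.pair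
      fst := op1 fun P => P.fst
      snd := op1 fun P => P.snd
      lt := fun x y => ∃ i ∈ s, x ∈ (N i).U ∧ y ∈ (N i).U ∧ (N i).lt x y
      j := (N i0).j
      S := fun c x => ∃ i ∈ good c, x ∈ (N i).U ∧ (N i).S c x
      U := ⋃ i ∈ s, (N i).U
      zero_mem := mem i0 hi0 _ (N i0).zero_mem
      one_mem := mem i0 hi0 _ (N i0).one_mem
      add_mem := by
        intro x y hx hy
        obtain ⟨i, hi, h1, h2⟩ := htwo x hx y hy
        rw [hadd i hi x h1 y h2]
        exact mem i hi _ ((N i).add_mem h1 h2)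
      mul_mem := by
        intro x y hx hy
        obtain ⟨i, hi, h1, h2⟩ := htwo x hx y hy
        rw [hmul i hi x h1 y h2]
        exact mem i hi _ ((N i).mul_mem h1 h2)
      pair_mem := by
        intro x y hx hy
        obtain ⟨i, hi, h1, h2⟩ := htwo x hx y hy
        rw [hpair i hi x h1 y h2]
        exact mem i hi _ ((N i).pair_mem h1 h2)
      fst_mem := by
        intro x hx
        obtain ⟨i, hi, h1, -⟩ := htwo x hx x hx
        rw [hfst i hi x h1]
        exact mem i hi _ ((N i).fst_mem h1)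
      snd_mem := by
        intro x hx
        obtain ⟨i, hi, h1, -⟩ := htwo x hx x hx
        rw [hsnd i hi x h1]
        exact mem i hi _ ((N i).snd_mem h1)
      j_mem := fun c => mem i0 hi0 _ ((N i0).j_mem c) }
  refine ⟨M, ⟨rfl, ?_, fun c x _ => Iff.rfl⟩⟩
  intro i hi
  refine ⟨fun x hx => mem i hi x hx, hzero i hi, hone i hi, hadd i hi, hmul i hi, hpair i hi,
    hfst i hi, hsnd i hi, ?_, hj i hi, ?_⟩
  · intro x hx y hy
    constructor
    · rintro ⟨k, hk, hxk, hyk, hlt⟩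
      rcases le_total i k with h | h
      · exact ((hch' i hi k hk h).lt x hx y hy).1 hlt
      · exact ((hch' k hk i hi h).lt x hxk y hyk).2 hlt
    · intro h
      exact ⟨i, hi, hx, hy, h⟩
  · intro x hx y _ hlt
    obtain ⟨k, hk, hyk, hxk, hlt⟩ := hlt
    rcases le_total i k with h | h
    · exact (hch' i hi k hk h).init x hx y hyk hlt
    · exact (hch' k hk i hi h).sub hyk

variable {N : ι → PS Ω} {s : Set ι} {good : J → Set ι} {M : PS Ω}

/-- the satisfaction relation of the limit agrees with those of the good nodes -/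
theorem IsLim.coh (hM : IsLim N s good M) {c : J} (hgs : good c ⊆ s)
    (hcoh : ∀ i ∈ good c, ∀ j ∈ good c, i < j → ∀ x ∈ (N i).U, ((N j).S c x ↔ (N i).S c x))
    {i : ι} (hi : i ∈ good c) {x : Ω} (hx : x ∈ (N i).U) : M.S c x ↔ (N i).S c x := by
  rw [hM.S c x ((hM.emb i (hgs hi)).sub hx)]
  constructor
  · rintro ⟨k, hk, hxk, hS⟩
    rcases lt_trichotomy i k with h | rfl | h
    · exact (hcoh i hi k hk h x hx).1 hS
    · exact hS
    · exact (hcoh k hk i hi h x hxk).2 hS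
  · intro h
    exact ⟨i, hi, hx, h⟩

/-- the limit belongs to the class, for the length `I` -/
theorem IsLim.isK (hM : IsLim N s good M) {I K : Cut} (hIK : I ≤ K) (hne : s.Nonempty)
    (hch : ∀ i ∈ s, ∀ j ∈ s, i < j → PS.EE (N i) (N j))
    (hK : ∀ i ∈ s, IsK (N i).sub K) (hgs : ∀ c, good c ⊆ s)
    (hmono : ∀ c c', c ≤ c' → good c' ⊆ good c)
    (hcof : ∀ c ∈ I.s, ∀ i ∈ s, ∃ j ∈ good c, i < j)
    (hcoh : ∀ c ∈ I.s, ∀ i ∈ good c, ∀ j ∈ good c, i < j → PS.Coh c (N i) (N j)) :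
    IsK M.sub I := by
  have hch' : ∀ i ∈ s, ∀ j ∈ s, i ≤ j → PS.EE (N i) (N j) := by
    intro i hi j hj hij
    rcases hij.lt_or_eq with h | rfl
    · exact hch i hi j hj h
    · exact PS.EE.refl _
  have hone : ∀ x ∈ M.U, ∃ i, i ∈ s ∧ x ∈ (N i).U := by
    intro x hx
    rw [hM.U] at hx
    simp only [Set.mem_iUnion, exists_prop] at hx
    exact hx
  have htwo : ∀ x y : M.U, ∃ i, ∃ hi : i ∈ s, ∃ x' y' : (N i).U,
      x = inc (hM.emb i hi) x' ∧ y = inc (hM.emb i hi) y' := by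
    intro x y
    obtain ⟨i, hi, hx⟩ := hone x x.2
    obtain ⟨j, hj, hy⟩ := hone y y.2
    rcases le_total i j with h | h
    · exact ⟨j, hj, ⟨x, (hch' i hi j hj h).sub hx⟩, ⟨y, hy⟩, rfl, rfl⟩
    · exact ⟨i, hi, ⟨x, hx⟩, ⟨y, (hch' j hj i hi h).sub hy⟩, rfl, rfl⟩
  -- good nodes
  have hgood : ∀ c ∈ I.s, ∀ x y : M.U, ∃ i, ∃ hi : i ∈ good c, ∃ x' y' : (N i).U,
      x = inc (hM.emb i (hgs c hi)) x' ∧ y = inc (hM.emb i (hgs c hi)) y' := by
    intro c hc x y
    obtain ⟨i, hi, x', y', hx, hy⟩ := htwo x y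
    obtain ⟨j, hj, hij⟩ := hcof c hc i hi
    have hE := hch i hi j (hgs c hj) hij
    refine ⟨j, hj, inc hE x', inc hE y', ?_, ?_⟩
    · rw [hx]; rfl
    · rw [hy]; rfl
  have hS : ∀ c ∈ I.s, ∀ i, ∀ hi : i ∈ good c, ∀ x : (N i).U,
      (M.sub.S c (inc (hM.emb i (hgs c hi)) x) ↔ (N i).sub.S c x) := by
    intro c hc i hi x
    exact hM.coh (hgs c) (fun i hi j hj hij x hx => hcoh c hc i hi j hj hij c le_rfl x hx) hi x.2
  have hdown : ∀ {c c' : J}, c ≤ c' → c' ∈ I.s → c ∈ I.s := fun h h' => I.down h h'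
  refine ⟨⟨?_, ?_, ?_⟩, ?_, ?_, ⟨?_, ?_, ?_, ?_, ?_, ?_⟩, ?_, ?_, ?_⟩
  · intro a b
    obtain ⟨i, hi, a, b, rfl, rfl⟩ := htwo a b
    rw [inc_pair, inc_fst, (hK i hi).pairing.fst_pair]
  · intro a b
    obtain ⟨i, hi, a, b, rfl, rfl⟩ := htwo a b
    rw [inc_pair, inc_snd, (hK i hi).pairing.snd_pair]
  · intro a
    obtain ⟨i, hi, a, -, rfl, -⟩ := htwo a a
    rw [inc_fst, inc_snd, inc_pair, (hK i hi).pairing.eta]
  · intro a b
    obtain ⟨i, hi⟩ := hne
    rw [inc_j (hM.emb i hi), inc_j (hM.emb i hi), inc_j (hM.emb i hi), inc_pair, (hK i hi).j_pair]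
  · intro x b hlt
    obtain ⟨i, hi, x, -, rfl, -⟩ := htwo x x
    rw [inc_j (hM.emb i hi), inc_lt] at hlt
    obtain ⟨a, rfl⟩ := (hK i hi).initial x b hlt
    exact ⟨a, (inc_j (hM.emb i hi) a).symm⟩
  · -- base
    intro k hk hc x
    obtain ⟨i, hi, x, -, rfl, -⟩ := hgood _ hc x x
    rw [hS _ hc i hi, (hK i (hgs _ hi)).tarski.base k hk (hIK hc), inc_base _ k hk]
  · -- neg
    intro c hc x
    obtain ⟨i, hi, x, -, rfl, -⟩ := hgood _ hc x x
    have hi' := hmono _ _ (le_cn c) hi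
    have h2 := hS c (hdown (le_cn c) hc) i hi' x
    rw [hS _ hc i hi, (hK i (hgs _ hi)).tarski.neg c (hIK hc), ← h2]
  · -- and
    intro c d hc x
    obtain ⟨i, hi, x, -, rfl, -⟩ := hgood _ hc x x
    have h2 := hS c (hdown (le_ca1 c d) hc) i (hmono _ _ (le_ca1 c d) hi) x
    have h3 := hS d (hdown (le_ca2 c d) hc) i (hmono _ _ (le_ca2 c d) hi) x
    rw [hS _ hc i hi, (hK i (hgs _ hi)).tarski.and c d (hIK hc), ← h2, ← h3]
  · -- ex
    intro c hc x
    constructor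
    · intro h
      obtain ⟨i, hi, x, -, rfl, -⟩ := hgood _ hc x x
      rw [hS _ hc i hi, (hK i (hgs _ hi)).tarski.ex c (hIK hc)] at h
      obtain ⟨z, hz⟩ := h
      refine ⟨inc (hM.emb i (hgs _ hi)) z, ?_⟩
      rw [inc_pair]
      exact (hS c (hdown (le_ce c) hc) i (hmono _ _ (le_ce c) hi) _).2 hz
    · rintro ⟨z, hz⟩
      obtain ⟨i, hi, x, z, rfl, rfl⟩ := hgood _ hc x z
      rw [hS _ hc i hi, (hK i (hgs _ hi)).tarski.ex c (hIK hc)]
      rw [inc_pair] at hz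
      exact ⟨z, (hS c (hdown (le_ce c) hc) i (hmono _ _ (le_ce c) hi) _).1 hz⟩
  · -- fn
    intro k hk c hc x
    obtain ⟨i, hi, x, -, rfl, -⟩ := hgood _ hc x x
    have h2 := hS c (hdown (le_cf k c) hc) i (hmono _ _ (le_cf k c) hi) ((N i).sub.fn k x)
    rw [hS _ hc i hi, (hK i (hgs _ hi)).tarski.fn k hk c (hIK hc), ← h2, inc_fn _ k hk]
  · -- sat
    intro e hc x
    obtain ⟨i, hi, x, -, rfl, -⟩ := hgood _ hc x x
    rw [hS _ hc i hi, (hK i (hgs _ hi)).tarski.sat e (hIK hc)]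
    refine exists_congr fun c => and_congr_right fun hce => ?_
    have hle : c ≤ c5 e := hce.trans (le_c5 e)
    have h2 := hS c (hdown hle hc) i (hmono _ _ hle hi) ((N i).sub.snd x)
    rw [inc_fst, inc_snd, inc_j (hM.emb i (hgs _ hi)), inc_inj, ← h2]
  · -- lnp
    rintro c hc p ⟨x, hx⟩
    obtain ⟨i, hi, x, p, rfl, rfl⟩ := hgood _ hc x p
    rw [inc_pair, hS _ hc i hi] at hx
    obtain ⟨x', hx', hmin⟩ := (hK i (hgs _ hi)).lnp c (hIK hc) p ⟨x, hx⟩
    refine ⟨inc (hM.emb i (hgs _ hi)) x', ?_, ?_⟩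
    · rw [inc_pair, hS _ hc i hi]
      exact hx'
    · intro y hy hSy
      have hyU : (y : Ω) ∈ (N i).U := (hM.emb i (hgs _ hi)).init x' x'.2 y y.2 hy
      obtain ⟨y', rfl⟩ : ∃ y' : (N i).U, y = inc (hM.emb i (hgs _ hi)) y' := ⟨⟨y, hyU⟩, rfl⟩
      rw [inc_lt] at hy
      rw [inc_pair, hS _ hc i hi] at hSy
      exact hmin y' hy hSy
  · -- agree
    intro n x
    obtain ⟨i, hi, -⟩ := hgood (num n) (I.num n) M.sub.zero M.sub.zero
    rw [inc_j (hM.emb i (hgs _ hi)), hS _ (I.num n) i hi, (hK i (hgs _ hi)).agree]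
  · -- void
    intro n hn x hx
    obtain ⟨i, hi, x, -, rfl, -⟩ := hgood (num n) (I.num n) x x
    rw [hS _ (I.num n) i hi] at hx
    exact (hK i (hgs _ hi)).void n hn x hx

end Pool.Agent.Helper4.KSq
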