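import Pool.Agent.Helper4.KSq.KInd

set_option autoImplicit false

/-!
# The MacDowell-Specker construction: one step
-/

namespace Pool.Agent.Helper4.KSq

open Filter Cod

variable {α : Type} {A : Str J α} {I : Cut}

namespace MS1Aux

/-- two constants -/
def r2 (a g : J) : ℕ → J := fun k => if k = 0 then a else g

theorem r2_mem {a g : J} (ha : a ∈ I.s) (hg : g ∈ I.s) (k : ℕ) : r2 a g k ∈ I.s := by
  unfold r2; split_ifs <;> assumption

theorem le_lt (hA : IsK A I) {a b c : α} (h : A.le a b) (h' : A.lt b c) : A.lt a c := by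
  rcases h with h | h
  · exact hA.trans h h'
  · rw [h]; exact h'

theorem lt_le (hA : IsK A I) {a b c : α} (h : A.lt a b) (h' : A.le b c) : A.lt a c := by
  rcases h' with h' | h'
  · exact hA.trans h h'
  · rw [← h']; exact h

theorem le_trans (hA : IsK A I) {a b c : α} (h : A.le a b) (h' : A.le b c) : A.le a c := by
  rcases h with h | h
  · exact Or.inl (lt_le hA h h')
  · rw [h]; exact h'

theorem succ_le (hA : IsK A I) {a b : α} : A.le (A.add a A.one) b ↔ A.lt a b := by
  constructor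
  · intro h
    exact lt_le hA ((hA.lt_succ a a).2 (Or.inr rfl)) h
  · intro h
    rcases hA.tri (A.add a A.one) b with h' | h' | h'
    · exact Or.inl h'
    · exact Or.inr h'
    · rcases (hA.lt_succ b a).1 h' with h'' | h''
      · exact absurd (hA.trans h h'') (hA.irrefl _)
      · rw [h''] at h; exact absurd h (hA.irrefl _)

theorem mtch_congr {C : Type} {A : Str C α} {g : C} {w w' i x : α}
    (h : ∀ p, A.lt p i → (A.E w p ↔ A.E w' p)) : mtch A g w i x ↔ mtch A g w' i x := by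
  unfold mtch
  exact forall_congr' fun p => imp_congr_right fun hp => by rw [h p hp]

theorem mtch_down (hA : IsK A I) {g : J} {w i i' x : α} (hi : A.le i' i)
    (h : mtch A g w i x) : mtch A g w i' x := fun p hp => h p (lt_le hA hp hi)

theorem lmp_down (hA : IsK A I) {a g : J} {w i i' : α} (hi : A.le i' i)
    (h : lmp A a g w i) : lmp A a g w i' := fun p hp => h p (lt_le hA hp hi)

/-- the leftmost persistent pattern is unique -/
theorem lmp_uniq (hA : IsK A I) {a g : J} {w w' i : α}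
    (h : lmp A a g w i) (h' : lmp A a g w' i) : ∀ p, A.lt p i → (A.E w p ↔ A.E w' p) := by
  by_contra hc
  push Not at hc
  obtain ⟨p0, hp0, hp0'⟩ := hc
  have hU : UD (fun C α A ρ e => A.lt (e 0) (e 1) ∧ ¬ (A.E (e 2) (e 0) ↔ A.E (e 3) (e 0))) := by
    repeat' first
      | exact TD.var _ | exact TD.zero | exact TD.one | exact TD.nm _ | assumption
      | apply TD.fst | apply TD.snd | apply TD.pair | apply TD.add | apply TD.mul | apply TD.ren
      | apply UD.S | apply UD.E | apply UD.lt | apply UD.le | apply UD.eq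
      | apply UD.not | apply UD.and | apply UD.or | apply UD.iff | apply UD.all | apply UD.ex
      | apply UD.imp
  obtain ⟨p, ⟨hpi, hp⟩, hmin⟩ := hA.least
    (R := fun C α A ρ x e => A.lt x (e 0) ∧ ¬ (A.E (e 1) x ↔ A.E (e 2) x)) hU
    (ρ := fun _ => num 0) (fun _ => I.num 0) (cs i (cs w (fun _ => w')))
    ⟨p0, hp0, by
      intro hiff
      change A.E w p0 ↔ A.E w' p0 at hiff
      rcases hp0' with ⟨h1, h2⟩ | ⟨h1, h2⟩
      · exact h2 (hiff.1 h1)
      · exact h1 (hiff.2 h2)⟩
  change A.lt p i at hpi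
  change ¬ (A.E w p ↔ A.E w' p) at hp
  have hag : ∀ q, A.lt q p → (A.E w q ↔ A.E w' q) := by
    intro q hq
    by_contra hn
    exact hmin q hq ⟨hA.trans hq hpi, hn⟩
  apply hp
  rw [h p hpi, h' p hpi]
  refine not_congr (forall_congr' fun y => exists_congr fun x => ?_)
  rw [mtch_congr hag]

/-- the leftmost persistent pattern exists -/
theorem lmp_ex (hA : IsK A I) {a g : J} (ha : a ∈ I.s) (hg : g ∈ I.s) (i : α) :
    ∃ w, lmp A a g w i := by
  have hU : UD (fun C α A ρ e => ∃ w, lmp A (ρ 0) (ρ 1) w (e 0)) := by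
    apply UD.ex (P := fun C α A ρ w e => lmp A (ρ 0) (ρ 1) w (e 0))
    exact UD.lmp (w := fun C α A ρ e => e 0) (i := fun C α A ρ e => e 1) (TD.var 0) (TD.var 1) 0 1
  refine hA.induct (R := fun C α A ρ i e => ∃ w, lmp A (ρ 0) (ρ 1) w i) hU
    (ρ := r2 a g) (r2_mem ha hg) (fun _ => i) ⟨i, ?_⟩ ?_ i
  · intro p hp
    rcases hA.zero_le p with h | h
    · exact absurd (hA.trans h hp) (hA.irrefl _)
    · rw [← h] at hp; exact absurd hp (hA.irrefl _)
  · intro i hi
    obtain ⟨w, hw⟩ := hi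
    change lmp A a g w i at hw
    change ∃ w, lmp A a g w (A.add i A.one)
    have hU2 : UD (fun C α A ρ e => (A.lt (e 0) (e 1) ∧ A.E (e 2) (e 0)) ∨
        (e 0 = e 1 ∧ ¬ ∀ y, ∃ x, A.lt y x ∧ A.S (ρ 0) x ∧ mtch A (ρ 1) (e 2) (e 1) x ∧
          ¬ A.S (ρ 1) (A.pair x (e 1)))) := by
      repeat' first
        | exact TD.var _ | exact TD.zero | exact TD.one | exact TD.nm _ | assumption
        | apply TD.fst | apply TD.snd | apply TD.pair | apply TD.add | apply TD.mul | apply TD.ren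
        | apply UD.mtch
        | apply UD.S | apply UD.E | apply UD.lt | apply UD.le | apply UD.eq
        | apply UD.not | apply UD.and | apply UD.or | apply UD.iff | apply UD.all | apply UD.ex
        | apply UD.imp
    obtain ⟨w', hw'⟩ := hA.compr (R := fun C α A ρ p e => (A.lt p (e 0) ∧ A.E (e 1) p) ∨
        (p = e 0 ∧ ¬ ∀ y, ∃ x, A.lt y x ∧ A.S (ρ 0) x ∧ mtch A (ρ 1) (e 1) (e 0) x ∧
          ¬ A.S (ρ 1) (A.pair x (e 0)))) hU2 (ρ := r2 a g) (r2_mem ha hg)
        (cs i (fun _ => w)) (A.add i A.one)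
    have hw'' : ∀ p, A.lt p (A.add i A.one) → (A.E w' p ↔ (A.lt p i ∧ A.E w p) ∨
        (p = i ∧ ¬ ∀ y, ∃ x, A.lt y x ∧ A.S a x ∧ mtch A g w i x ∧
          ¬ A.S g (A.pair x i))) := fun p hp => hw' p hp
    have hag : ∀ p, A.lt p i → (A.E w' p ↔ A.E w p) := by
      intro p hp
      rw [hw'' p ((hA.lt_succ _ _).2 (Or.inl hp))]
      constructor
      · rintro (⟨_, h⟩ | ⟨h, _⟩)
        · exact h
        · rw [h] at hp; exact absurd hp (hA.irrefl _)
      · intro h; exact Or.inl ⟨hp, h⟩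
    refine ⟨w', fun p hp => ?_⟩
    rcases (hA.lt_succ _ _).1 hp with hpi | hpi
    · rw [hag p hpi, hw p hpi]
      refine not_congr (forall_congr' fun y => exists_congr fun x => ?_)
      rw [mtch_congr (w := w) (w' := w') (fun q hq => (hag q (hA.trans hq hpi)).symm)]
    · subst hpi
      rw [hw'' p hp]
      have e1 : ∀ x, mtch A g w p x ↔ mtch A g w' p x := fun x =>
        mtch_congr (fun q hq => (hag q hq).symm)
      constructor
      · rintro (⟨h, _⟩ | ⟨_, h⟩)
        · exact absurd h (hA.irrefl _)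
        · simpa only [e1] using h
      · intro h
        exact Or.inr ⟨rfl, by simpa only [e1] using h⟩

/-- the leftmost persistent pattern is persistent -/
theorem lmp_unb (hA : IsK A I) {a g : J} (ha : a ∈ I.s) (hg : g ∈ I.s)
    (hu : ∀ y, ∃ x, A.lt y x ∧ A.S a x) {w i : α} (hw : lmp A a g w i) (y : α) :
    ∃ x, A.lt y x ∧ A.S a x ∧ mtch A g w i x := by
  have hU : UD (fun C α A ρ e => A.le (e 0) (e 1) →
      ∀ y, ∃ x, A.lt y x ∧ A.S (ρ 0) x ∧ mtch A (ρ 1) (e 2) (e 0) x) := by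
    repeat' first
      | exact TD.var _ | exact TD.zero | exact TD.one | exact TD.nm _ | assumption
      | apply TD.fst | apply TD.snd | apply TD.pair | apply TD.add | apply TD.mul | apply TD.ren
      | apply UD.mtch
      | apply UD.S | apply UD.E | apply UD.lt | apply UD.le | apply UD.eq
      | apply UD.not | apply UD.and | apply UD.or | apply UD.iff | apply UD.all | apply UD.ex
      | apply UD.imp
  refine hA.induct (R := fun C α A ρ j e => A.le j (e 0) →
      ∀ y, ∃ x, A.lt y x ∧ A.S (ρ 0) x ∧ mtch A (ρ 1) (e 1) j x) hU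
    (ρ := r2 a g) (r2_mem ha hg) (cs i (fun _ => w)) ?_ ?_ i (Or.inr rfl) y
  · intro _ y
    obtain ⟨x, hx, hx'⟩ := hu y
    refine ⟨x, hx, hx', fun p hp => ?_⟩
    rcases hA.zero_le p with h | h
    · exact absurd (hA.trans h hp) (hA.irrefl _)
    · rw [← h] at hp; exact absurd hp (hA.irrefl _)
  · intro j ih hj y
    change A.le (A.add j A.one) i at hj
    have hji : A.lt j i := (succ_le hA).1 hj
    have ih' : ∀ y, ∃ x, A.lt y x ∧ A.S a x ∧ mtch A g w j x := fun y => ih (Or.inl hji) y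
    change ∃ x, A.lt y x ∧ A.S a x ∧ mtch A g w (A.add j A.one) x
    have hb := hw j hji
    by_cases h0 : ∀ y, ∃ x, A.lt y x ∧ A.S a x ∧ mtch A g w j x ∧ ¬ A.S g (A.pair x j)
    · obtain ⟨x, h1, h2, h3, h4⟩ := h0 y
      refine ⟨x, h1, h2, fun p hp => ?_⟩
      rcases (hA.lt_succ _ _).1 hp with hp | hp
      · exact h3 p hp
      · subst hp
        exact ⟨fun h => absurd h h4, fun h => absurd h0 (hb.1 h)⟩
    · have hE : A.E w j := hb.2 h0
      push Not at h0
      obtain ⟨y0, hy0⟩ := h0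
      have key : ∃ x, A.lt y x ∧ A.lt y0 x ∧ A.S a x ∧ mtch A g w j x := by
        rcases hA.tri y y0 with h | h | h
        · obtain ⟨x, h1, h2, h3⟩ := ih' y0
          exact ⟨x, hA.trans h h1, h1, h2, h3⟩
        · obtain ⟨x, h1, h2, h3⟩ := ih' y0
          exact ⟨x, h ▸ h1, h1, h2, h3⟩
        · obtain ⟨x, h1, h2, h3⟩ := ih' y
          exact ⟨x, h1, hA.trans h h1, h2, h3⟩
      obtain ⟨x, h1, h2, h3, h4⟩ := key
      refine ⟨x, h1, h3, fun p hp => ?_⟩
      rcases (hA.lt_succ _ _).1 hp with hp | hp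
      · exact h4 p hp
      · subst hp
        exact ⟨fun _ => hE, fun _ => hy0 x h2 h3 h4⟩

end MS1Aux

open MS1Aux

/-- the next set is unbounded -/
theorem ms_unb (hA : IsK A I) {a g : J} (ha : a ∈ I.s) (hg : g ∈ I.s)
    (hu : ∀ y, ∃ x, A.lt y x ∧ A.S a x) (y : α) : ∃ x, A.lt y x ∧ msP A a g x := by
  obtain ⟨w, hw⟩ := lmp_ex hA ha hg (A.add y A.one)
  obtain ⟨x0, h1, h2, h3⟩ := lmp_unb hA ha hg hu hw (A.add y A.one)
  have hU : UD (fun C α A ρ e => A.S (ρ 0) (e 0) ∧ A.le (e 1) (e 0) ∧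
      mtch A (ρ 1) (e 2) (e 1) (e 0)) := by
    repeat' first
      | exact TD.var _ | exact TD.zero | exact TD.one | exact TD.nm _ | assumption
      | apply TD.fst | apply TD.snd | apply TD.pair | apply TD.add | apply TD.mul | apply TD.ren
      | apply UD.mtch
      | apply UD.S | apply UD.E | apply UD.lt | apply UD.le | apply UD.eq
      | apply UD.not | apply UD.and | apply UD.or | apply UD.iff | apply UD.all | apply UD.ex
      | apply UD.imp
  obtain ⟨x, ⟨h4, h5, h6⟩, hmin⟩ := hA.least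
    (R := fun C α A ρ x e => A.S (ρ 0) x ∧ A.le (e 0) x ∧ mtch A (ρ 1) (e 1) (e 0) x) hU
    (ρ := r2 a g) (r2_mem ha hg) (cs (A.add y A.one) (fun _ => w)) ⟨x0, h2, Or.inl h1, h3⟩
  refine ⟨x, (succ_le hA).1 h5, h4, A.add y A.one, w, hw, h5, h6, fun x' hx' h => ?_⟩
  exact hmin x' hx' ⟨h.1, h.2.1, h.2.2⟩

/-- the next set decides the predicates `S(g, ⟨x, p⟩)` -/
theorem ms_dec (hA : IsK A I) {a g : J} (ha : a ∈ I.s) (hg : g ∈ I.s) (p : α) :
    (∃ b, ∀ x, A.lt b x → msP A a g x → A.S g (A.pair x p)) ∨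
    (∃ b, ∀ x, A.lt b x → msP A a g x → ¬ A.S g (A.pair x p)) := by
  by_cases hu : ∀ y, ∃ x, A.lt y x ∧ A.S a x
  · obtain ⟨w, hw⟩ := lmp_ex hA ha hg (A.add p A.one)
    obtain ⟨b, h1, h2, h3⟩ := lmp_unb hA ha hg hu hw (A.add p A.one)
    have key : ∀ x, A.lt b x → msP A a g x → (A.S g (A.pair x p) ↔ A.E w p) := by
      rintro x hbx ⟨hx, i, w', hw', hix, hm, hmin⟩
      have hpi : A.lt p i := by
        by_contra hn
        have hip : A.le i p := by
          rcases hA.tri p i with h | h | h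
          · exact absurd h hn
          · exact Or.inr h.symm
          · exact Or.inl h
        have hip' : A.le i (A.add p A.one) := Or.inl ((hA.lt_succ _ _).2 hip)
        refine hmin b hbx ⟨h2, le_trans hA hip' (Or.inl h1), ?_⟩
        have hag := lmp_uniq hA hw' (lmp_down hA hip' hw)
        rw [mtch_congr hag]
        exact mtch_down hA hip' h3
      have hle : A.le (A.add p A.one) i := (succ_le hA).2 hpi
      have hag := lmp_uniq hA (lmp_down hA hle hw') hw p ((hA.lt_succ _ _).2 (Or.inr rfl))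
      exact (hm p hpi).trans hag
    by_cases hE : A.E w p
    · exact Or.inl ⟨b, fun x hx hm => (key x hx hm).2 hE⟩
    · exact Or.inr ⟨b, fun x hx hm h => hE ((key x hx hm).1 h)⟩
  · push Not at hu
    obtain ⟨b, hb⟩ := hu
    exact Or.inl ⟨b, fun x hx hm => absurd hm.1 (hb x hx)⟩

end Pool.Agent.Helper4.KSq
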