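import Pool.Agent.Helper4.KSq.MS2

set_option autoImplicit false

/-!
# The MacDowell-Specker filter
-/

namespace Pool.Agent.Helper4.KSq

open Filter Cod

variable {α : Type} {A : Str J α} {I : Cut}

/-- `P` holds for almost all `x` -/
def Ae (A : Str J α) (I : Cut) (P : α → Prop) : Prop :=
  ∃ g ∈ I.s, ∃ b, ∀ x, A.lt b x → A.S (J.gam g) x → P x

theorem Ae.mono {P Q : α → Prop} (h : Ae A I P) (hPQ : ∀ x, P x → Q x) : Ae A I Q := by
  obtain ⟨g, hg, b, hb⟩ := h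
  exact ⟨g, hg, b, fun x h1 h2 => hPQ x (hb x h1 h2)⟩

theorem ms3_max (hA : IsK A I) (b b' : α) : ∃ c, ∀ x, A.lt c x → A.lt b x ∧ A.lt b' x := by
  rcases hA.tri b b' with h | h | h
  · exact ⟨b', fun x hx => ⟨hA.trans h hx, hx⟩⟩
  · subst h
    exact ⟨b, fun x hx => ⟨hx, hx⟩⟩
  · exact ⟨b, fun x hx => ⟨hx, hA.trans h hx⟩⟩

theorem Ae.and (hA : IsK A I) {P Q : α → Prop} (h : Ae A I P) (h' : Ae A I Q) :
    Ae A I (fun x => P x ∧ Q x) := by
  obtain ⟨g, hg, b, hb⟩ := h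
  obtain ⟨g', hg', b', hb'⟩ := h'
  obtain ⟨c, hc⟩ := ms3_max hA b b'
  have hm : max g g' ∈ I.s := by
    rcases max_choice g g' with h | h
    · rw [h]; exact hg
    · rw [h]; exact hg'
  refine ⟨max g g', hm, c, fun x h1 h2 => ⟨hb x (hc x h1).1 ?_, hb' x (hc x h1).2 ?_⟩⟩
  · exact gam_anti hA hm (le_max_left g g') h2
  · exact gam_anti hA hm (le_max_right g g') h2

theorem Ae.all (hA : IsK A I) {P : α → Prop} (h : ∀ x, P x) : Ae A I P := by
  exact ⟨num 0, I.num 0, A.zero, fun x _ _ => h x⟩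

theorem Ae.tail (hA : IsK A I) (b : α) : Ae A I (fun x => A.lt b x) := by
  exact ⟨num 0, I.num 0, b, fun x h _ => h⟩

theorem Ae.false (hA : IsK A I) (h : Ae A I (fun _ => False)) : False := by
  obtain ⟨g, hg, b, hb⟩ := h
  obtain ⟨x, hx1, hx2⟩ := gam_unb hA hg b
  exact hb x hx1 hx2

theorem Ae.exists (hA : IsK A I) {P : α → Prop} (h : Ae A I P) : ∃ x, P x := by
  obtain ⟨g, hg, b, hb⟩ := h
  obtain ⟨x, hx1, hx2⟩ := gam_unb hA hg b
  exact ⟨x, hb x hx1 hx2⟩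

/-- the code which decides the predicate with code `g` -/
noncomputable def dl (g : J) : J := decF.code1 (rh2 (J.gam (J.sc g)) g)

theorem ms3_rh2 (I : Cut) {g : J} (hg : g ∈ I.s) : ∀ k, rh2 (J.gam (J.sc g)) g k ∈ I.s := by
  intro k
  unfold rh2
  split_ifs
  · exact I.gam_mem (I.sc_mem hg)
  · exact hg

theorem dl_mem (I : Cut) {g : J} (hg : g ∈ I.s) : dl g ∈ I.s := by
  exact I.closed.code1 (ms3_rh2 I hg) _

theorem ms3_dl (hA : IsK A I) {g : J} (hg : g ∈ I.s) (p : α) :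
    A.S (dl g) p ↔ Dec A (J.gam (J.sc g)) g p := by
  unfold dl
  rw [hA.tarski.rep1 hA.pairing I.closed (ms3_rh2 I hg)]
  exact Classical.choose_spec (UD.Dec (TD.var 0) 0 1) J α A hA.pairing _ _

theorem ms3_dec (hA : IsK A I) {g : J} (hg : g ∈ I.s) (p : α) :
    (∃ b, ∀ x, A.lt b x → A.S (J.gam (J.sc g)) x → A.S g (A.pair x p)) ∨
    (∃ b, ∀ x, A.lt b x → A.S (J.gam (J.sc g)) x → ¬ A.S g (A.pair x p)) := by
  rcases ms_dec hA (I.gam_mem hg) hg p with ⟨b, hb⟩ | ⟨b, hb⟩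
  · exact Or.inl ⟨b, fun x h1 h2 => hb x h1 ((gam_sc hA hg x).1 h2)⟩
  · exact Or.inr ⟨b, fun x h1 h2 => hb x h1 ((gam_sc hA hg x).1 h2)⟩

theorem Ae.em (hA : IsK A I) {g : J} (hg : g ∈ I.s) (p : α) :
    Ae A I (fun x => A.S g (A.pair x p)) ∨ Ae A I (fun x => ¬ A.S g (A.pair x p)) := by
  rcases ms3_dec hA hg p with ⟨b, hb⟩ | ⟨b, hb⟩
  · exact Or.inl ⟨J.sc g, I.sc_mem hg, b, hb⟩
  · exact Or.inr ⟨J.sc g, I.sc_mem hg, b, hb⟩

theorem ae_dec (hA : IsK A I) {g : J} (hg : g ∈ I.s) (p : α) :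
    Ae A I (fun x => A.S g (A.pair x p)) ↔ A.S (dl g) p := by
  rw [ms3_dl hA hg]
  constructor
  · intro h
    rcases ms3_dec hA hg p with ⟨b, hb⟩ | ⟨b, hb⟩
    · exact ⟨b, hb⟩
    · exfalso
      have h2 : Ae A I (fun x => ¬ A.S g (A.pair x p)) := ⟨J.sc g, I.sc_mem hg, b, hb⟩
      exact ((h.and hA h2).mono fun x hx => hx.2 hx.1).false hA
  · rintro ⟨b, hb⟩
    exact ⟨J.sc g, I.sc_mem hg, b, hb⟩

/-- `F` is definable, with code `f` and parameter `p` -/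
def DF (A : Str J α) (F : α → α) (f : J) (p : α) : Prop :=
  ∀ x y, A.S f (A.pair (A.pair x y) p) ↔ y = F x

/-- the relation used for `Ae.const` -/
theorem ms3_rel : UD (fun C α A ρ e =>
    A.S (ρ 0) (A.pair (A.pair (A.fst (e 0)) (A.fst (A.snd (e 0)))) (A.snd (A.snd (e 0))))) :=
  UD.S 0 (TD.pair (TD.pair (TD.fst (TD.var 0)) (TD.fst (TD.snd (TD.var 0))))
    (TD.snd (TD.snd (TD.var 0))))

theorem ms3_rel2 : UD (fun C α A ρ e => ∀ x, A.lt (e 1) x → A.S (ρ 0) x →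
    ¬ A.S (ρ 1) (A.pair x (A.pair (e 0) (e 2)))) := by
  repeat' first
    | exact TD.var _ | exact TD.zero | exact TD.one | exact TD.nm _ | assumption
    | apply TD.fst | apply TD.snd | apply TD.pair | apply TD.add | apply TD.mul
    | apply UD.S | apply UD.E | apply UD.lt | apply UD.le | apply UD.eq
    | apply UD.not | apply UD.and | apply UD.or | apply UD.iff | apply UD.all | apply UD.ex
    | apply UD.imp

/-- bounded definable functions are constant almost everywhere -/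
theorem Ae.const (hA : IsK A I) {F : α → α} {f : J} (hf : f ∈ I.s) {p : α} (hF : DF A F f p)
    {b : α} (hb : Ae A I (fun x => A.lt (F x) b)) : ∃ a, Ae A I (fun x => F x = a) := by
  set g : J := ms3_rel.cd (fun _ => f) with hg
  have hgI : g ∈ I.s := ms3_rel.cd_mem I (fun _ => hf)
  have hgs : ∀ x q, A.S g (A.pair x (A.pair q p)) ↔ q = F x := by
    intro x q
    have h := UD.cd_spec (R := fun C α A ρ v =>
      A.S (ρ 0) (A.pair (A.pair (A.fst v) (A.fst (A.snd v))) (A.snd (A.snd v)))) ms3_rel hA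
      (ρ := fun _ => f) (fun _ => hf) (A.pair x (A.pair q p))
    simp only [hA.pairing.fst_pair, hA.pairing.snd_pair] at h
    rw [hg]
    exact h.trans (hF x q)
  by_cases hex : ∃ q, Ae A I (fun x => F x = q)
  · exact hex
  exfalso
  have hno : ∀ q, A.le q b → ∃ c, ∀ x, A.lt c x → A.S (J.gam (J.sc g)) x →
      ¬ A.S g (A.pair x (A.pair q p)) := by
    intro q _
    rcases ms3_dec hA hgI (A.pair q p) with ⟨c, hc⟩ | h
    · exact absurd ⟨q, J.sc g, I.sc_mem hgI, c, fun x h1 h2 => ((hgs x q).1 (hc x h1 h2)).symm⟩ hex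
    · exact h
  obtain ⟨m, hm⟩ := hA.collect (R := fun C α A ρ q c e => ∀ x, A.lt c x → A.S (ρ 0) x →
    ¬ A.S (ρ 1) (A.pair x (A.pair q (e 0)))) ms3_rel2 (ρ := rh2 (J.gam (J.sc g)) g)
    (ms3_rh2 I hgI) (fun _ => p) b hno
  have h2 : Ae A I (fun x => A.lt m x ∧ A.S (J.gam (J.sc g)) x) :=
    ⟨J.sc g, I.sc_mem hgI, m, fun x h1 h2 => ⟨h1, h2⟩⟩
  obtain ⟨x, hx1, hx2, hx3⟩ := (hb.and hA h2).exists hA
  obtain ⟨c, hc1, hc2⟩ := hm (F x) (Or.inl hx1)
  have hcx : A.lt c x := by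
    rcases hc1 with h | h
    · exact hA.trans h hx2
    · rw [h]; exact hx2
  exact hc2 x hcx hx3 ((hgs x (F x)).2 rfl)

end Pool.Agent.Helper4.KSq
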