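import Pool.Agent.Helper4.KSq.TS1

set_option autoImplicit false

/-!
# The step of the construction: service nodes, first case
-/

namespace Pool.Agent.Helper4.KSq

open Filter Cod Cardinal

namespace Setup

variable {Ω ι : Type} [LinearOrder ι] (Z : Setup Ω ι)

theorem S0_anti (n m : ℕ) (h : n ≤ m) : (Z.V.I m).s ⊆ (Z.V.I n).s := by
  induction m with
  | zero =>
    have : n = 0 := by omega
    rw [this]
  | succ m ih =>
    rcases Nat.lt_or_ge n (m+1) with h1 | h1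
    · exact (Z.V.anti m).trans (ih (by omega))
    · have : n = m + 1 := by omega
      rw [this]

/-- the nodes of a tower are extensions of `P0` -/
theorem S0_emb0 {N : ι → Nd Ω} {d : ι} (hN : ∀ i < d, Z.Spec N i) {i : ι} (hi : i < d) :
    PS.EE Z.P0 (N i).ps := by
  have h0 : PS.EE Z.P0 (N Z.X.bot).ps := by
    have h := (hN Z.X.bot ((Z.X.bot_le i).trans_lt hi)).ext.emb
    have hb : Z.bs N Z.X.bot = Z.P0 := by simp [bs]
    rwa [hb] at h
  rcases (Z.X.bot_le i).eq_or_lt with h | h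
  · rw [← h]; exact h0
  · exact h0.trans ((Z.facts hN).emb _ _ h hi)

/-- the step at a service node whose chain has length one -/
theorem step_S0 {N : ι → Nd Ω} {d : ι} (hN : ∀ i < d, Z.Spec N i) (hd : d ∈ Z.X.S)
    (hp : Z.X.pd d ∈ Z.X.L) : ∃ x : Nd Ω, Z.Spec (Function.update N d x) d := by
  have hdL : d ∉ Z.X.L := Z.X.disj d hd
  have hdb : d ≠ Z.X.bot := fun h => hdL (h ▸ Z.X.bot_mem)
  have hpv : Z.X.pv d < d := Z.X.pv_lt d hdL
  have hsc : Z.X.sc (Z.X.pd d) < d := Z.X.sc_pd d hd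
  have hsL : Z.X.sc (Z.X.pd d) ∉ Z.X.L := Z.X.sc_L _ (Or.inl hp)
  have hesc : Z.X.pd d < Z.X.sc (Z.X.pd d) := by
    have := Z.X.pv_lt _ hsL
    rwa [Z.X.pv_sc _ (Or.inl hp)] at this
  have hepv : Z.X.pd d < Z.X.pv d := hesc.trans_le (Z.X.le_pv d hdL _ hsc)
  have hed : Z.X.pd d < d := hesc.trans hsc
  have F := Z.facts hN
  obtain ⟨n0, hn0⟩ := F.coh _ _ hepv hpv
  have hBP : PS.EE (N (Z.X.pd d)).ps (N (Z.X.pv d)).ps := F.emb _ _ hepv hpv
  have hSe := hN _ hed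
  have hSp := hN _ hpv
  have hAB : PS.EE (Z.bs N (Z.X.pd d)) (N (Z.X.pd d)).ps := hSe.ext.emb
  have hAP := hAB.trans hBP
  have hN' : ∀ i < Z.X.pd d, Z.Spec N i := fun i hi => hN i (hi.trans hed)
  have hKA := Z.bs_isK hN'
  have hKB := hSe.ext.isK
  have hKP := hSp.ext.isK
  -- the number n and the level l
  let n := max n0 (Z.X.h d + 1)
  obtain ⟨l, hl, hlns⟩ := Z.V.nonst n
  have hln0 : l ∈ (Z.V.I n0).s := Z.S0_anti _ _ (le_max_left _ _) hl
  have hlh1 : l ∈ (Z.V.I (Z.X.h d + 1)).s := Z.S0_anti _ _ (le_max_right _ _) hl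
  have hlh : l ∈ (Z.V.I (Z.X.h d)).s := Z.S0_anti _ _ (Nat.le_succ _) hlh1
  have hlK : l ∈ Z.K.s := Z.S0_anti _ _ (Nat.zero_le _) hlh
  have hl1h : Z.V.lv (Z.X.h d) 1 ∈ (Z.V.I (Z.X.h d)).s := Z.V.lv_mem _ _
  have hl1K : Z.V.lv (Z.X.h d) 1 ∈ Z.K.s := Z.S0_anti _ _ (Nat.zero_le _) hl1h
  have hbI : (Z.V.I (Z.X.h d)).s ⊆ (Z.bI (Z.X.pd d)).s := by
    unfold bI
    by_cases hb : Z.X.pd d = Z.X.bot
    · rw [if_pos hb]; exact Z.S0_anti _ _ (Nat.zero_le _)
    · rw [if_neg hb, if_pos hp, Z.X.h_pd d hd hb]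
  obtain ⟨D, hD, hpsi⟩ := Z.bs_psi hp hN' (hbI hlh) (hbI hl1h)
  -- the level of the node e
  have hlev : appC l ≤ (N (Z.X.pd d)).l := by
    by_cases hb : Z.X.pd d = Z.X.bot
    · rw [hSe.l_bot hb]
      rcases le_total (appC l) Z.V.lU with h | h
      · exact h
      · exact absurd ((Z.V.I 1).down h (appC_mem _ (Z.S0_anti 1 _ (by omega) hlh1))) Z.V.lU_nmem
    · rw [hSe.l_lim hp hb, Z.X.h_pd d hd hb]
      rcases le_total (appC l) (Z.V.lv (Z.X.h d) 0) with h | h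
      · exact h
      · exact absurd ((Z.V.I _).down h (appC_mem _ hlh1)) (Z.V.lv_nmem _ _)
  have hcohAB : PS.Coh (appC l) (Z.bs N (Z.X.pd d)) (N (Z.X.pd d)).ps := hSe.ext.coh.mono hlev
  have hcohBP : PS.Coh (appC l) (N (Z.X.pd d)).ps (N (Z.X.pv d)).ps := fun c hc x hx =>
    hn0 c ((Z.V.I n0).down hc (appC_mem _ hln0)) x hx
  set A := Z.bs N (Z.X.pd d) with hAdef
  set B := (N (Z.X.pd d)).ps with hBdef
  set P := (N (Z.X.pv d)).ps with hPdef
  set l1 := Z.V.lv (Z.X.h d) 1 with hl1def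
  set u1 := (N (Z.X.pd d)).can l1 with hu1def
  have hu1B : u1 ∈ B.U := hSe.ext.can_mem l1
  have hu1P : u1 ∈ P.U := hBP.sub hu1B
  have hcan := hSe.ext.can_spec l1 (hbI hl1h)
  -- there are approximations for all b in A
  have happ : ∀ b ∈ A.U, P.app l (P.qq (P.j l1) u1 b P.zero P.zero P.zero) (P.j D) := by
    intro b hb
    obtain ⟨u, hu, hus⟩ := PS.exists_cds hKA (hbI hl1h) hb
    have h1 := hpsi b hb u hu hus
    have hz := A.zero_mem
    have hj := A.j_mem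
    have hqA : A.qq (A.j l1) u b A.zero A.zero A.zero ∈ A.U := by
      unfold PS.qq
      exact A.pair_mem (hj _) (A.pair_mem hu (A.pair_mem hb (A.pair_mem hz (A.pair_mem hz hz))))
    have h2 := (PS.app_coh hAB (le_refl _) hcohAB hqA (hj D)).2 h1
    have h3 := (PS.app_coh hBP (le_refl _) hcohBP (hAB.sub hqA) (hAB.sub (hj D))).2 h2
    have hqe : A.qq (A.j l1) u b A.zero A.zero A.zero = P.qq (P.j l1) u b P.zero P.zero P.zero := by
      unfold PS.qq
      rw [hAP.j, hAP.zero, hAP.pair _ hz _ hz,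
        hAP.pair _ hz _ (A.pair_mem hz hz),
        hAP.pair _ hb _ (A.pair_mem hz (A.pair_mem hz hz)),
        hAP.pair _ hu _ (A.pair_mem hb (A.pair_mem hz (A.pair_mem hz hz))),
        hAP.pair _ (hj _) _ (A.pair_mem hu (A.pair_mem hb (A.pair_mem hz (A.pair_mem hz hz))))]
    rw [hqe, ← hAP.j] at h3
    refine PS.app_congr1 hKP hlK (hAP.sub hu) hu1P (hAP.sub hb) P.zero_mem P.zero_mem P.zero_mem
      (P.j_mem D) ?_ h3
    intro c hc y hy hyb
    have hyA : y ∈ A.U := hAP.init b hb y hy hyb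
    have hyb' : A.lt y b := (hAP.lt y hyA b hb).1 hyb
    have e1 : P.pair (P.j c) y = A.pair (A.j c) y := by
      rw [hAP.j, hAP.pair _ (hj c) _ hyA]
    have e2 : P.pair (P.j c) y = B.pair (B.j c) y := by
      rw [hBP.j, hBP.pair _ (B.j_mem c) _ (hAB.sub hyA)]
    have h4 : P.el u (P.pair (P.j c) y) ↔ A.S c y := by
      rw [e1, hAP.el hKA hKP hu (A.pair_mem (hj c) hyA)]
      exact hus c hc y hyA hyb'
    have h5 : P.el u1 (P.pair (P.j c) y) ↔ A.S c y := by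
      rw [e2, hBP.el hKB hKP hu1B (B.pair_mem (B.j_mem c) (hAB.sub hyA))]
      exact hcan c hc y hyA
    exact h4.trans h5.symm
  -- the greatest b
  have hmB : (N (Z.X.pd d)).m ∈ B.U := hSe.ext.m_mem
  have hmP := hBP.sub hmB
  have h0 : P.le P.zero (N (Z.X.pd d)).m := by
    left
    have h1 := hSe.ext.m_gt A.zero A.zero_mem
    have h2 := (hBP.lt A.zero (hAB.sub A.zero_mem) _ hmB).2 h1
    rw [hAP.zero]; exact h2
  obtain ⟨b1, hb1P, hG1⟩ := PS.exists_G1 hKP hlK (l1 := P.j l1) (u1 := u1) (D := P.j D)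
    (m := (N (Z.X.pd d)).m) (b0 := P.zero) (P.j_mem _) hu1P (P.j_mem _) hmP P.zero_mem h0
    (by have := happ A.zero A.zero_mem; rwa [← hAP.zero] at this)
  have hb1B : b1 ∈ B.U := by
    rcases hG1.1 with h | h
    · exact hBP.init _ hmB _ hb1P h
    · rw [h]; exact hmB
  have hlt : ∀ a ∈ A.U, B.lt a b1 := by
    intro a ha
    have haP := hAP.sub ha
    have ha1 : A.add a A.one ∈ A.U := A.add_mem ha A.one_mem
    have e1 : A.add a A.one = P.add a P.one := by rw [hAP.one, hAP.add _ ha _ A.one_mem]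
    have hle : P.le (A.add a A.one) (N (Z.X.pd d)).m :=
      Or.inl ((hBP.lt _ (hAB.sub ha1) _ hmB).2 (hSe.ext.m_gt _ ha1))
    have h1 := hG1.2.2 _ (hAP.sub ha1) hle (happ _ ha1)
    have h2 : P.lt a (P.add a P.one) :=
      (hKP.lt_succ (⟨a, haP⟩ : P.U) ⟨a, haP⟩).2 (Or.inr rfl)
    rw [← e1] at h2
    have h3 : P.lt a b1 := by
      rcases h1 with h1 | h1
      · exact hKP.trans (a := (⟨a, haP⟩ : P.U)) (b := ⟨_, hAP.sub ha1⟩) (c := ⟨b1, hb1P⟩) h2 h1
      · rwa [← h1]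
    exact (hBP.lt _ (hAB.sub ha) _ hb1B).1 h3
  -- the new node
  have hqP : P.qq (P.j l1) u1 b1 P.zero P.zero P.zero ∈ P.U := by
    unfold PS.qq
    exact P.pair_mem (P.j_mem _) (P.pair_mem hu1P (P.pair_mem hb1P (P.pair_mem P.zero_mem
      (P.pair_mem P.zero_mem P.zero_mem))))
  obtain ⟨x, hx, hxl, hxq, hxd, hxn, hxc⟩ := exists_PExt (K := Z.K) hKP hlK hlns hqP hD hG1.2.1
    (by rw [Z.cardΩ]; exact hSp.card) (by rw [Z.cardΩ]; exact Z.unc) n
  refine ⟨x, ?_⟩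
  have hbs : Z.bs (Function.update N d x) d = P := by
    rw [Z.bs_congr (N' := N) (fun i hi => Function.update_of_ne hi.ne _ _)]
    unfold bs
    rw [if_neg hdb, if_neg hdL]
  have hbId : Z.bI d = Z.K := by
    unfold bI
    rw [if_neg hdb, if_neg hdL]
  have hNd : Function.update N d x d = x := Function.update_self _ _ _
  have hNe : Function.update N d x (Z.X.pd d) = N (Z.X.pd d) := Function.update_of_ne hed.ne _ _
  have hNp : Function.update N d x (Z.X.pv d) = N (Z.X.pv d) := Function.update_of_ne hpv.ne _ _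
  have hP0 := Z.S0_emb0 hN hpv
  have hB0 := Z.S0_emb0 hN hed
  refine
    { ext := ?_, q_mem := ?_, card := ?_, nonst := ?_, d_gt := ?_, l_bot := ?_, l_lim := ?_,
      l_U := ?_, l_S := ?_, q_zero := ?_, s0 := ?_, s1 := ?_ }
  · rw [hbs, hbId, hNd]; exact hx
  · rw [hbs, hNd, hxq]; exact hqP
  · rw [hNd, ← Z.cardΩ]; exact hxc
  · rw [hNd, hxl]; exact hlns
  · rw [hNd, hxd]; exact hD
  · intro h; exact absurd h hdb
  · intro h; exact absurd h hdL
  · intro _ h; exact absurd hd h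
  · intro _
    rw [hNd, hxn, hxl]
    exact ⟨le_max_right _ _, hl⟩
  · intro h; exact absurd hd h
  · intro _ _
    unfold SpecS0
    have hbs2 : Z.bs (Function.update N d x) (Z.X.pd d) = A :=
      Z.bs_congr (fun i hi => Function.update_of_ne (hi.trans hed).ne _ _)
    rw [hNd, hNe, hNp, hbs2, hxn, hxq, hxl, hxd]
    refine ⟨?_, b1, hb1B, l1, rfl, ?_, hlt, ?_⟩
    · intro c hc y hy
      exact hn0 c (Z.S0_anti _ _ (le_max_left _ _) hc) y hy
    · rw [← hP0.j, ← hP0.zero]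
      have hz := B.zero_mem
      have hzz := hBP.zero
      have hjj := hBP.j l1
      unfold PS.qq
      rw [hzz, hjj, hBP.pair _ hz _ hz, hBP.pair _ hz _ (B.pair_mem hz hz),
        hBP.pair _ hb1B _ (B.pair_mem hz (B.pair_mem hz hz)),
        hBP.pair _ hu1B _ (B.pair_mem hb1B (B.pair_mem hz (B.pair_mem hz hz))),
        hBP.pair _ (B.j_mem _) _ (B.pair_mem hu1B (B.pair_mem hb1B (B.pair_mem hz
          (B.pair_mem hz hz))))]
    · rw [← hP0.j, ← hP0.j]
      exact hG1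
  · intro _ h
    exact absurd hp (Z.X.disj _ h)

end Setup

end Pool.Agent.Helper4.KSq
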