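import Pool.Agent.Helper4.KSq.TS1

set_option autoImplicit false

/-!
# The step of the construction: service nodes, second case
-/

namespace Pool.Agent.Helper4.KSq

open Filter Cod Cardinal

namespace PS

variable {Ω : Type}

theorem ts4_qq_mem (A : PS Ω) {l1 u1 b1 l2 u2 b2 : Ω} (h1 : l1 ∈ A.U) (h2 : u1 ∈ A.U)
    (h3 : b1 ∈ A.U) (h4 : l2 ∈ A.U) (h5 : u2 ∈ A.U) (h6 : b2 ∈ A.U) :
    A.qq l1 u1 b1 l2 u2 b2 ∈ A.U :=
  A.pair_mem h1 (A.pair_mem h2 (A.pair_mem h3 (A.pair_mem h4 (A.pair_mem h5 h6))))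

theorem ts4_qq {A B : PS Ω} (hE : EE A B) {l1 u1 b1 l2 u2 b2 : Ω} (h1 : l1 ∈ A.U) (h2 : u1 ∈ A.U)
    (h3 : b1 ∈ A.U) (h4 : l2 ∈ A.U) (h5 : u2 ∈ A.U) (h6 : b2 ∈ A.U) :
    B.qq l1 u1 b1 l2 u2 b2 = A.qq l1 u1 b1 l2 u2 b2 := by
  unfold qq
  rw [hE.pair u2 h5 b2 h6, hE.pair l2 h4 _ (A.pair_mem h5 h6),
    hE.pair b1 h3 _ (A.pair_mem h4 (A.pair_mem h5 h6)),
    hE.pair u1 h2 _ (A.pair_mem h3 (A.pair_mem h4 (A.pair_mem h5 h6))),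
    hE.pair l1 h1 _ (A.pair_mem h2 (A.pair_mem h3 (A.pair_mem h4 (A.pair_mem h5 h6))))]

theorem ts4_le {A B : PS Ω} (hE : EE A B) {x y : Ω} (hx : x ∈ A.U) (hy : y ∈ A.U)
    (h : A.lt x y) : B.le x y := Or.inl ((hE.lt x hx y hy).mpr h)

/-- `a < a + 1 ≤ b` -/
theorem ts4_lt {A : PS Ω} {I : Cut} (hA : IsK A.sub I) {a b : Ω} (ha : a ∈ A.U) (hb : b ∈ A.U)
    (h : A.le (A.add a A.one) b) : A.lt a b := by
  have h1 : A.sub.lt ⟨a, ha⟩ (A.sub.add ⟨a, ha⟩ A.sub.one) := (hA.lt_succ _ _).mpr (Or.inr rfl)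
  rcases h with h | h
  · have h2 : A.sub.lt (A.sub.add ⟨a, ha⟩ A.sub.one) ⟨b, hb⟩ := h
    exact hA.trans h1 h2
  · have h3 : A.lt a (A.add a A.one) := h1
    rwa [h] at h3

theorem ts4_coh {A B : PS Ω} {I : Cut} {l : J} (hl : l ∈ I.s) (h : CohI I A B) :
    Coh (appC l) A B := fun c hc x hx => h c (I.down hc (appC_mem I hl)) x hx

/-- an element below an element of the initial segment -/
theorem ts4_mem {A B : PS Ω} (hE : EE A B) {b m : Ω} (hb : b ∈ B.U) (hm : m ∈ A.U)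
    (h : B.le b m) : b ∈ A.U := by
  rcases h with h | h
  · exact hE.init m hm b hb h
  · rw [h]
    exact hm

/-- the canonical codes compute the satisfaction relation of the base structure -/
theorem ts4_can {A B : PS Ω} {I K : Cut} {x : Nd Ω} (hx : PExt A I K x) (hB : IsK B.sub K)
    (hE : EE x.ps B) {l1 : J} (hl1 : l1 ∈ I.s) {c : J} (hc : c ≤ l1) {y : Ω} (hy : y ∈ A.U) :
    B.el (x.can l1) (B.pair (B.j c) y) ↔ A.S c y := by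
  have hyx : y ∈ x.ps.U := hx.emb.sub hy
  rw [hE.j c, hE.pair _ (x.ps.j_mem c) _ hyx,
    EE.el hE hx.isK hB (hx.can_mem l1) (x.ps.pair_mem (x.ps.j_mem c) hyx)]
  exact hx.can_spec l1 hl1 c hc y hy

/-- a code of the satisfaction relation of `A` below `b`, in an extension of `A` -/
theorem ts4_cds {A B : PS Ω} {I K : Cut} (hA : IsK A.sub I) (hB : IsK B.sub K) (hE : EE A B)
    {l : J} {u b : Ω} (hu : u ∈ A.U) (hb : b ∈ A.U)
    (h : ∀ c ≤ l, ∀ y ∈ A.U, A.lt y b → (A.el u (A.pair (A.j c) y) ↔ A.S c y))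
    {c : J} (hc : c ≤ l) {y : Ω} (hy : y ∈ B.U) (hyb : B.lt y b) :
    y ∈ A.U ∧ (B.el u (B.pair (B.j c) y) ↔ A.S c y) := by
  have hyA : y ∈ A.U := hE.init b hb y hy hyb
  refine ⟨hyA, ?_⟩
  rw [hE.j c, hE.pair _ (A.j_mem c) _ hyA, EE.el hE hA hB hu (A.pair_mem (A.j_mem c) hyA)]
  exact h c hc y hyA ((hE.lt y hyA b hb).mp hyb)

/-- first constraint -/
theorem ts4_one {A B : PS Ω} {I K : Cut} {x : Nd Ω} (hA : IsK A.sub I) (hx : PExt A I K x)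
    (hB : IsK B.sub K) (hE : EE x.ps B) {l1 l2 dd : J} (hl1 : l1 ∈ I.s) (hl2K : l2 ∈ K.s)
    (hpsi : A.psi l2 l1 dd) (hc : Coh (appC l2) A B) {b : Ω} (hb : b ∈ A.U) :
    B.app l2 (B.qq (B.j l1) (x.can l1) b B.zero B.zero B.zero) (B.j dd) := by
  have hAB : EE A B := EE.trans hx.emb hE
  obtain ⟨u, hu, hcds⟩ := exists_cds hA hl1 hb
  have h1 := hpsi b hb u hu hcds
  have hq : A.qq (A.j l1) u b A.zero A.zero A.zero ∈ A.U :=
    ts4_qq_mem A (A.j_mem _) hu hb A.zero_mem A.zero_mem A.zero_mem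
  rw [← app_coh hAB le_rfl hc hq (A.j_mem dd)] at h1
  rw [← ts4_qq hAB (A.j_mem _) hu hb A.zero_mem A.zero_mem A.zero_mem, ← hAB.j l1, ← hAB.j dd,
    ← hAB.zero] at h1
  refine app_congr1 hB hl2K (hAB.sub hu) (hE.sub (hx.can_mem l1)) (hAB.sub hb) B.zero_mem
    B.zero_mem B.zero_mem (B.j_mem dd) ?_ h1
  intro c hcl y hy hyb
  obtain ⟨hyA, h2⟩ := ts4_cds hA hB hAB hu hb hcds hcl hy hyb
  rw [h2, ts4_can hx hB hE hl1 hcl hyA]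

/-- second constraint -/
theorem ts4_two {A B : PS Ω} {K : Cut} {x : Nd Ω} (hA : IsK A.sub K) (hx : PExt A K K x)
    (hB : IsK B.sub K) (hE : EE x.ps B) {l l1 l2 dd : J} (hl : l ∈ K.s) (hl2 : l2 ∈ K.s)
    (hll : l ≤ l2) {u1 b1 : Ω} (hu1 : u1 ∈ A.U) (hb1 : b1 ∈ A.U)
    (h : A.app l2 (A.qq (A.j l1) u1 b1 A.zero A.zero A.zero) (A.j dd))
    (hc : Coh (appC l) A x.ps) (hc' : Coh (appC l) x.ps B) {b : Ω} (hb : b ∈ A.U) :
    B.app l (B.qq (B.j l1) u1 b1 (B.j l2) (x.can l2) b) (B.j dd) := by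
  have hAB : EE A B := EE.trans hx.emb hE
  have hcAB : Coh (appC l) A B := Coh.trans hx.emb hc hc'
  obtain ⟨u, hu, hcds⟩ := exists_cds hA hl2 hb
  have h1 := app_add hA hl2 le_rfl hll (A.j_mem l1) hu1 hb1 hu hb (A.j_mem dd) h hcds
  have hq : A.qq (A.j l1) u1 b1 (A.j l2) u b ∈ A.U :=
    ts4_qq_mem A (A.j_mem _) hu1 hb1 (A.j_mem _) hu hb
  rw [← app_coh hAB le_rfl hcAB hq (A.j_mem dd)] at h1
  rw [← ts4_qq hAB (A.j_mem _) hu1 hb1 (A.j_mem _) hu hb, ← hAB.j l1, ← hAB.j l2,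
    ← hAB.j dd] at h1
  refine app_congr2 hB hl (B.j_mem l1) (hAB.sub hu1) (hAB.sub hb1) (hAB.sub hu)
    (hE.sub (hx.can_mem l2)) (hAB.sub hb) (B.j_mem dd) ?_ h1
  intro c hcl y hy hyb
  obtain ⟨hyA, h2⟩ := ts4_cds hA hB hAB hu hb hcds hcl hy hyb
  rw [h2, ts4_can hx hB hE hl2 hcl hyA]

end PS

namespace PS

variable {Ω : Type}

/-- the greatest element exceeds the base structure -/
theorem ts4_gt {A B : PS Ω} {I K : Cut} {x : Nd Ω} (hx : PExt A I K x)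
    (hB : IsK B.sub K) (hE : EE x.ps B) {b1 : Ω} (hb1 : b1 ∈ B.U)
    (h : ∀ b ∈ A.U, B.le b x.m → B.le b b1) (hb1x : b1 ∈ x.ps.U) {a : Ω} (ha : a ∈ A.U) :
    x.ps.lt a b1 := by
  have hAB : EE A B := EE.trans hx.emb hE
  have ha1 : A.add a A.one ∈ A.U := A.add_mem ha A.one_mem
  have h1 : B.le (A.add a A.one) b1 :=
    h _ ha1 (ts4_le hE (hx.emb.sub ha1) hx.m_mem (hx.m_gt _ ha1))
  rw [← hAB.add a ha _ A.one_mem, ← hAB.one] at h1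
  exact (hE.lt a (hx.emb.sub ha) b1 hb1x).mp (ts4_lt hB (hAB.sub ha) hb1 h1)

end PS

namespace Setup

variable {Ω ι : Type} [LinearOrder ι] (Z : Setup Ω ι)

theorem ts4_anti {n m : ℕ} (h : n ≤ m) {a : J} (ha : a ∈ (Z.V.I m).s) : a ∈ (Z.V.I n).s := by
  induction m, h using Nat.le_induction with
  | base => exact ha
  | succ m _ ih => exact ih (Z.V.anti m ha)

theorem ts4_bs {N : ι → Nd Ω} {d : ι} (hd : d ∉ Z.X.L) :
    Z.bs N d = (N (Z.X.pv d)).ps ∧ Z.bI d = Z.K := by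
  have hb : d ≠ Z.X.bot := fun h => hd (h ▸ Z.X.bot_mem)
  constructor
  · unfold bs
    rw [if_neg hb, if_neg hd]
  · unfold bI
    rw [if_neg hb, if_neg hd]

theorem ts4_P0 {N : ι → Nd Ω} {d : ι} (hN : ∀ i < d, Z.Spec N i) {i : ι} (hi : i < d) :
    PS.EE Z.P0 (N i).ps := by
  have hb : Z.X.bot < d := lt_of_le_of_lt (Z.X.bot_le i) hi
  have h0 : PS.EE Z.P0 (N Z.X.bot).ps := by
    have := (hN _ hb).ext.emb
    unfold bs at this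
    rwa [if_pos rfl] at this
  rcases (Z.X.bot_le i).eq_or_lt with h | h
  · rw [← h]
    exact h0
  · exact PS.EE.trans h0 ((Z.facts hN).emb _ _ h hi)

/-- the step at a service node whose chain has length greater than one -/
theorem step_S1 {N : ι → Nd Ω} {d : ι} (hN : ∀ i < d, Z.Spec N i) (hd : d ∈ Z.X.S)
    (hp : Z.X.pd d ∈ Z.X.S) : ∃ x : Nd Ω, Z.Spec (Function.update N d x) d := by
  have F := Z.facts hN
  obtain ⟨ν, hν⟩ : ∃ ν, Z.X.pd d = ν := ⟨_, rfl⟩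
  obtain ⟨s, hs⟩ : ∃ s, Z.X.sc ν = s := ⟨_, rfl⟩
  obtain ⟨e, he⟩ : ∃ e, Z.X.rt d = e := ⟨_, rfl⟩
  obtain ⟨v, hv⟩ : ∃ v, Z.X.pv d = v := ⟨_, rfl⟩
  rw [hν] at hp
  have hdL : d ∉ Z.X.L := Z.X.disj d hd
  have hsd : s < d := by
    have := Z.X.sc_pd d hd
    rwa [hν, hs] at this
  have hsL : s ∉ Z.X.L := hs ▸ Z.X.sc_L ν (Or.inr hp)
  have hsS : s ∉ Z.X.S := hs ▸ Z.X.sc_S ν (Or.inr hp)
  have hpvs : Z.X.pv s = ν := hs ▸ Z.X.pv_sc ν (Or.inr hp)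
  have hνs : ν < s := by
    have := Z.X.pv_lt s hsL
    rwa [hpvs] at this
  have hνd : ν < d := hνs.trans hsd
  have hvd : v < d := hv ▸ Z.X.pv_lt d hdL
  have hsv : s ≤ v := hv ▸ Z.X.le_pv d hdL s hsd
  obtain ⟨hrt, hkk⟩ := Z.X.rt_S d hd (hν ▸ hp)
  rw [hν, he] at hrt
  rw [hν] at hkk
  obtain ⟨heL, heν, heh⟩ := Z.rt_facts ν hp
  rw [← hrt] at heL heν heh
  have hed : e < d := heν.trans hνd
  have hνb : ν ≠ Z.X.bot := fun h => Z.X.disj ν hp (h ▸ Z.X.bot_mem)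
  have hνh : Z.X.h ν = Z.X.h d := by
    have := Z.X.h_pd d hd (by rw [hν]; exact hνb)
    rwa [hν] at this
  have hh1 : 1 ≤ Z.X.h d := Z.X.h_pos d hd
  obtain ⟨hbs, hbI⟩ := Z.ts4_bs (N := N) hsL
  rw [hpvs] at hbs
  obtain ⟨hbsd, hbId⟩ := Z.ts4_bs (N := N) hdL
  rw [hv] at hbsd
  have Se := hN e hed
  have Sν := hN ν hνd
  have Ss := hN s hsd
  have Sv := hN v hvd
  have Xs : PExt (N ν).ps Z.K Z.K (N s) := by
    have := Ss.ext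
    rwa [hbs, hbI] at this
  have hEe : PS.EE (N e).ps (N ν).ps := F.emb e ν heν hνd
  have hEs : PS.EE (N s).ps (N v).ps := by
    rcases hsv.eq_or_lt with h | h
    · rw [← h]
      exact PS.EE.refl _
    · exact F.emb s v h hvd
  obtain ⟨n0, hn0⟩ : ∃ n0, PS.CohI (Z.V.I n0) (N s).ps (N v).ps := by
    rcases hsv.eq_or_lt with h | h
    · rw [← h]
      exact ⟨0, fun c _ x _ => Iff.rfl⟩
    · exact F.coh s v h hvd
  -- the level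
  obtain ⟨n, hn⟩ : ∃ n, n = max n0 (Z.X.h d + 1) := ⟨_, rfl⟩
  have hnn0 : n0 ≤ n := hn ▸ le_max_left _ _
  have hnh : Z.X.h d + 1 ≤ n := hn ▸ le_max_right _ _
  have hcoh : PS.CohI (Z.V.I n) (N s).ps (N v).ps :=
    fun c hc x hx => hn0 c (Z.ts4_anti hnn0 hc) x hx
  obtain ⟨l, hl, hln⟩ := Z.V.nonst n
  have hlK : l ∈ Z.K.s := Z.ts4_anti (Nat.zero_le _) hl
  obtain ⟨l1, hl1⟩ : ∃ l1, l1 = Z.V.lv (Z.X.h d) (Z.X.kk d + 1) := ⟨_, rfl⟩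
  obtain ⟨l2, hl2⟩ : ∃ l2, l2 = Z.V.lv (Z.X.h d) (Z.X.kk ν) := ⟨_, rfl⟩
  have hl1m : l1 ∈ (Z.V.I (Z.X.h d)).s := hl1 ▸ Z.V.lv_mem _ _
  have hl2m : l2 ∈ (Z.V.I (Z.X.h d)).s := hl2 ▸ Z.V.lv_mem _ _
  have hl2K : l2 ∈ Z.K.s := Z.ts4_anti (Nat.zero_le _) hl2m
  have hll : l ≤ l2 := by
    by_contra hcon
    have h1 : l2 ∈ (Z.V.I (Z.X.h d + 1)).s :=
      (Z.V.I (Z.X.h d + 1)).down (le_of_lt (not_le.mp hcon)) (Z.ts4_anti hnh hl)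
    rw [hl2] at h1
    exact Z.V.lv_nmem _ _ h1
  have hIe : ∀ a ∈ (Z.V.I (Z.X.h d)).s, a ∈ (Z.bI e).s := by
    intro a ha
    unfold bI
    by_cases hb : e = Z.X.bot
    · rw [if_pos hb]
      exact Z.ts4_anti (Nat.zero_le _) ha
    · rw [if_neg hb, if_pos heL, heh hb, hνh]
      exact ha
  obtain ⟨dd, hdd, hpsi⟩ := Z.bs_psi heL (fun i hi => hN i (hi.trans hed)) (hIe l2 hl2m)
    (hIe l1 hl1m)
  have hcR : PS.Coh (appC l2) (Z.bs N e) (N ν).ps := by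
    have h1 := F.cohR ν hp hνd
    rw [← hrt, hνh] at h1
    exact PS.Coh.mono h1 (hl2 ▸ Z.V.lv_app _ _)
  have hAe : IsK (Z.bs N e).sub (Z.bI e) := Z.bs_isK (fun i hi => hN i (hi.trans hed))
  have hone : ∀ b ∈ (Z.bs N e).U, (N ν).ps.app l2 ((N ν).ps.qq ((N ν).ps.j l1) ((N e).can l1) b
      (N ν).ps.zero (N ν).ps.zero (N ν).ps.zero) ((N ν).ps.j dd) := fun b hb =>
    PS.ts4_one hAe Se.ext Sν.ext.isK hEe (hIe l1 hl1m) hl2K hpsi hcR hb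
  have hEbe : PS.EE (Z.bs N e) (N ν).ps := PS.EE.trans Se.ext.emb hEe
  have hu1 : (N e).can l1 ∈ (N ν).ps.U := hEe.sub (Se.ext.can_mem l1)
  obtain ⟨b1, hb1, hG1⟩ := PS.exists_G1 Sν.ext.isK hl2K ((N ν).ps.j_mem l1) hu1
    ((N ν).ps.j_mem dd) (hEe.sub Se.ext.m_mem) (hEbe.sub (Z.bs N e).zero_mem)
    (PS.ts4_le hEe (Se.ext.emb.sub (Z.bs N e).zero_mem) Se.ext.m_mem
      (Se.ext.m_gt _ (Z.bs N e).zero_mem)) (hone _ (Z.bs N e).zero_mem)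
  have hb1e : b1 ∈ (N e).ps.U := PS.ts4_mem hEe hb1 Se.ext.m_mem hG1.1
  have hb1gt : ∀ a ∈ (Z.bs N e).U, (N e).ps.lt a b1 := fun a ha =>
    PS.ts4_gt Se.ext Sν.ext.isK hEe hb1
      (fun b hb hle => hG1.2.2 b (hEbe.sub hb) hle (hone b hb)) hb1e ha
  have hcA : PS.Coh (appC l) (N ν).ps (N s).ps := by
    refine PS.Coh.mono Xs.coh ?_
    rw [Ss.l_U hsL hsS]
    by_contra hcon
    exact Z.V.lU_nmem ((Z.V.I 1).down (le_of_lt (not_le.mp hcon))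
      (Z.ts4_anti (by omega) (appC_mem (Z.V.I n) hl)))
  have hcB : PS.Coh (appC l) (N s).ps (N v).ps := PS.ts4_coh hl hcoh
  have htwo : ∀ b ∈ (N ν).ps.U, (N v).ps.app l ((N v).ps.qq ((N v).ps.j l1) ((N e).can l1) b1
      ((N v).ps.j l2) ((N s).can l2) b) ((N v).ps.j dd) := fun b hb =>
    PS.ts4_two Sν.ext.isK Xs Sv.ext.isK hEs hlK hl2K hll hu1 hb1 hG1.2.1 hcA hcB hb
  have hEνv : PS.EE (N ν).ps (N v).ps := PS.EE.trans Xs.emb hEs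
  have hu2 : (N s).can l2 ∈ (N v).ps.U := hEs.sub (Xs.can_mem l2)
  obtain ⟨b2, hb2, hG2⟩ := PS.exists_G2 Sv.ext.isK hlK ((N v).ps.j_mem l1) (hEνv.sub hu1)
    (hEνv.sub hb1) ((N v).ps.j_mem l2) hu2 ((N v).ps.j_mem dd) (hEs.sub Xs.m_mem)
    (hEνv.sub (N ν).ps.zero_mem)
    (PS.ts4_le hEs (Xs.emb.sub (N ν).ps.zero_mem) Xs.m_mem (Xs.m_gt _ (N ν).ps.zero_mem))
    (htwo _ (N ν).ps.zero_mem)
  have hb2s : b2 ∈ (N s).ps.U := PS.ts4_mem hEs hb2 Xs.m_mem hG2.1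
  have hb2gt : ∀ a ∈ (N ν).ps.U, (N s).ps.lt a b2 := fun a ha =>
    PS.ts4_gt Xs Sv.ext.isK hEs hb2
      (fun b hb hle => hG2.2.2 b (hEνv.sub hb) hle (htwo b hb)) hb2s ha
  -- the extension
  have hj : ∀ i < d, ∀ c, (N i).ps.j c = Z.P0.j c := fun i hi c => (Z.ts4_P0 hN hi).j c
  obtain ⟨x, hx, hxl, hxq, hxd, hxn, hxc⟩ := exists_PExt (K := Z.K) Sv.ext.isK hlK hln
    (PS.ts4_qq_mem (N v).ps ((N v).ps.j_mem l1) (hEνv.sub hu1) (hEνv.sub hb1)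
      ((N v).ps.j_mem l2) hu2 hb2) hdd hG2.2.1 (by rw [Z.cardΩ]; exact Sv.card)
    (by rw [Z.cardΩ]; exact Z.unc) n
  have hUN : ∀ i < d, Function.update N d x i = N i := fun i hi => Function.update_of_ne hi.ne _ _
  have hbsx : Z.bs (Function.update N d x) d = (N v).ps := by
    rw [Z.bs_congr hUN, hbsd]
  have hxx : Function.update N d x d = x := Function.update_self _ _ _
  refine ⟨x, ⟨?_, ?_, ?_, ?_, ?_, ?_, ?_, ?_, ?_, ?_, ?_, ?_⟩⟩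
  · rw [hbsx, hbId, hxx]
    exact hx
  · rw [hbsx, hxx, hxq]
    exact PS.ts4_qq_mem (N v).ps ((N v).ps.j_mem l1) (hEνv.sub hu1) (hEνv.sub hb1)
      ((N v).ps.j_mem l2) hu2 hb2
  · rw [hxx, ← Z.cardΩ]
    exact hxc
  · rw [hxx, hxl]
    exact hln
  · rw [hxx, hxd]
    exact hdd
  · intro h
    exact absurd (h ▸ Z.X.bot_mem) hdL
  · intro h
    exact absurd h hdL
  · intro _ h
    exact absurd hd h
  · intro _
    rw [hxx, hxn, hxl]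
    exact ⟨hnh, hl⟩
  · intro h
    exact absurd hd h
  · intro _ h
    rw [hν] at h
    exact absurd h (Z.X.disj ν hp)
  · intro _ _
    unfold SpecS1
    rw [hxx, hν, hs, he, hv, hUN s hsd, hUN v hvd, hUN e hed, hUN ν hνd, hxn, hxl, hxq, hxd]
    refine ⟨hcoh, b1, hb1e, b2, hb2s, l1, l2, hl1, hl2, ?_, ?_, ?_, hb2gt, ?_⟩
    · rw [← hj v hvd l1, ← hj v hvd l2]
      have hj1 : (N v).ps.j l1 ∈ (N s).ps.U := by
        rw [hj v hvd, ← hj s hsd]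
        exact (N s).ps.j_mem l1
      have hj2 : (N v).ps.j l2 ∈ (N s).ps.U := by
        rw [hj v hvd, ← hj s hsd]
        exact (N s).ps.j_mem l2
      exact PS.ts4_qq hEs hj1 (Xs.emb.sub hu1) (Xs.emb.sub hb1) hj2 (Xs.can_mem l2) hb2s
    · rw [Z.bs_congr (N := Function.update N d x) (N' := N) (fun i hi => hUN i (hi.trans hed))]
      exact hb1gt
    · rw [← hj ν hνd l1, ← hj ν hνd dd]
      exact hG1
    · rw [← hj v hvd l1, ← hj v hvd l2, ← hj v hvd dd]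
      exact hG2

end Setup

end Pool.Agent.Helper4.KSq
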