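import Pool.Agent.Helper4.KSq.TS2
import Pool.Agent.Helper4.KSq.TS3
import Pool.Agent.Helper4.KSq.TS4

set_option autoImplicit false

/-!
# Existence of the tower
-/

namespace Pool.Agent.Helper4.KSq

open Filter Cod Cardinal

namespace Setup

variable {Ω ι : Type} [LinearOrder ι] (Z : Setup Ω ι)

/-- the step of the construction -/
theorem step {N : ι → Nd Ω} {d : ι} (hN : ∀ i < d, Z.Spec N i) :
    ∃ x : Nd Ω, Z.Spec (Function.update N d x) d := by
  by_cases hL : d ∈ Z.X.L
  · exact Z.step_L hN hL
  by_cases hS : d ∈ Z.X.S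
  · rcases Z.X.pd_LS d hS with h | h
    · exact Z.step_S0 hN hS h
    · exact Z.step_S1 hN hS h
  · exact Z.step_U hN hL hS

theorem exists_tower : ∃ N : ι → Nd Ω, ∀ i, Z.Spec N i := by
  classical
  have hwfi := Z.large.wf
  have hwf : WellFounded (fun a b : ι => a < b) := wellFounded_lt
  let x0 : Nd Ω :=
    ⟨Z.P0, Z.P0.zero, fun _ => Z.P0.zero, fun _ _ => ∅, Z.V.e0, Z.P0.zero, Z.V.e0, 0⟩
  let ex : (d : ι) → ((j : ι) → j < d → Nd Ω) → ι → Nd Ω :=
    fun d g j => if h : j < d then g j h else x0
  let F : (d : ι) → ((j : ι) → j < d → Nd Ω) → Nd Ω := fun d g =>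
    if h : ∃ x, Z.Spec (Function.update (ex d g) d x) d then h.choose else x0
  let N : ι → Nd Ω := hwf.fix F
  have hfix : ∀ d, N d = F d (fun j _ => N j) := fun d => hwf.fix_eq F d
  refine ⟨N, fun i => ?_⟩
  induction i using hwf.induction with
  | _ d ih =>
    have h1 : ∀ i < d, Z.Spec (ex d (fun j _ => N j)) i := by
      intro i hi
      refine Z.spec_congr (N := N) ?_ (ih i hi)
      intro j hj
      have hjd : j < d := lt_of_le_of_lt hj hi
      have : ex d (fun j _ => N j) j = N j := dif_pos hjd
      exact this.symm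
    have h2 := Z.step h1
    have h3 : N d = h2.choose := by
      rw [hfix]
      exact dif_pos h2
    refine Z.spec_congr ?_ h2.choose_spec
    intro j hj
    rcases hj.lt_or_eq with h | h
    · rw [Function.update_of_ne h.ne]
      exact dif_pos h
    · subst h
      rw [Function.update_self, h3]

end Setup

end Pool.Agent.Helper4.KSq
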