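import Pool.Agent.Helper4.KSq.SetupEx
import Pool.Agent.Helper4.KSq.Tower
import Pool.Agent.Helper4.KSq.Kauf

set_option autoImplicit false

/-!
# Main theorem
-/

namespace Pool.Agent.Helper4.KSq

open Cardinal

theorem kaufmann_of_square {κ : Cardinal.{0}} (hκ : κ.IsRegular) (hu : ℵ₀ < κ)
    (hsq : Square κ) : ∃ (A : Type) (M : ArStr A), IsKaufmann κ M := by
  obtain ⟨Ω, ι, _, Z, rfl⟩ := exists_setup hκ hu hsq
  obtain ⟨N, hN⟩ := Z.exists_tower
  exact Z.exists_kaufmann hN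

end Pool.Agent.Helper4.KSq
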