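import Pool.Agent.Helper4.KSq.Preds2

set_option autoImplicit false

/-!
# Functions on the natural numbers
-/

namespace Pool.Agent.Helper4.KSq

open Cod

/-- a true formula -/
def trueF : Fo := .neg (.and (.eq 0 0) (.neg (.eq 0 0)))

/-- a template formula for `msP` (constants `ρ 0`, `ρ 1`; free variable `x_0`) -/
noncomputable def gamF : Fo := Classical.choose (UD.msP (TD.var 0) 0 1)

/-- a template formula for `Dec` -/
noncomputable def decF : Fo := Classical.choose (UD.Dec (TD.var 0) 0 1)

/-- two constants -/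
def rh2 {C : Type} (a g : C) : ℕ → C := fun k => if k = 0 then a else g

/-- codes of the MacDowell-Specker sets -/
noncomputable def gam : ℕ → ℕ
  | 0 => trueF.code1 (fun _ => 0)
  | g + 1 => gamF.code1 (rh2 (gam g) g)

/-- maximum of the codes of the first sets -/
noncomputable def gmax (e : ℕ) : ℕ := (Finset.range (e + 1)).sup gam

/-- bound for the first values of a sequence -/
noncomputable def bdc (c : ℕ → ℕ) (k : ℕ) : ℕ := (Finset.range (k + 1)).sup c

/-- comprehension for natural numbers -/
theorem N_compr (X : ℕ → Prop) (b : ℕ) : ∃ u, ∀ y < b, NAr.E u y ↔ X y := by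
  classical
  -- the numbers `(y + 1) * b! + 1` for `y < b` are pairwise coprime
  have hco : ∀ n < b, ∀ m < b, n ≠ m →
      Nat.Coprime ((n + 1) * b.factorial + 1) ((m + 1) * b.factorial + 1) := by
    have key : ∀ n m, n < m → m < b →
        Nat.Coprime ((n + 1) * b.factorial + 1) ((m + 1) * b.factorial + 1) := by
      intro n m h1 h2
      exact Nat.coprime_mul_succ (Nat.dvd_factorial (by omega) (by omega))
    intro n hn m hm hnm
    rcases lt_or_gt_of_ne hnm with h | h
    · exact key n m h hm
    · exact (key m n h hn).symm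
  have hone : ∀ n, (n + 1) * b.factorial + 1 ≠ 1 := by
    intro n h
    have h1 := Nat.factorial_pos b
    have : 0 < (n + 1) * b.factorial := by positivity
    omega
  set s : Finset ℕ := (Finset.range b).filter X with hs
  refine ⟨Nat.pair (∏ y ∈ s, ((y + 1) * b.factorial + 1)) b.factorial, fun y hy => ?_⟩
  have hE : NAr.E (Nat.pair (∏ y ∈ s, ((y + 1) * b.factorial + 1)) b.factorial) y ↔
      ((y + 1) * b.factorial + 1) ∣ ∏ y ∈ s, ((y + 1) * b.factorial + 1) := by
    simp only [Ar.E, NAr, Nat.unpair_pair]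
    constructor
    · rintro ⟨z, hz⟩
      exact ⟨z, by rw [← hz]; ring⟩
    · rintro ⟨z, hz⟩
      exact ⟨z, by rw [hz]; ring⟩
  rw [hE]
  constructor
  · intro h
    by_contra hX
    have hc : Nat.Coprime ((y + 1) * b.factorial + 1) (∏ y ∈ s, ((y + 1) * b.factorial + 1)) := by
      refine Nat.Coprime.prod_right fun n hn => ?_
      rw [hs, Finset.mem_filter, Finset.mem_range] at hn
      exact hco y hy n hn.1 (fun h => hX (h ▸ hn.2))
    exact hone y (Nat.Coprime.eq_one_of_dvd hc h)
  · intro h
    exact Finset.dvd_prod_of_mem (fun y => (y + 1) * b.factorial + 1)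
      (by rw [hs, Finset.mem_filter, Finset.mem_range]; exact ⟨hy, h⟩)

/-- code of the graph of the function `c` restricted to the numbers `≤ k` -/
noncomputable def gcd (c : ℕ → ℕ) (k : ℕ) : ℕ :=
  Classical.choose (N_compr (fun y => y.unpair.2 = c y.unpair.1) (Nat.pair k (bdc c k) + 1))

theorem le_bdc (c : ℕ → ℕ) {i k : ℕ} (h : i ≤ k) : c i ≤ bdc c k :=
  Finset.le_sup (f := c) (Finset.mem_range.2 (by omega))

theorem gcd_spec (c : ℕ → ℕ) {i k y : ℕ} (hi : i ≤ k) (hy : y ≤ bdc c k) :
    NAr.E (gcd c k) (Nat.pair i y) ↔ y = c i := by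
  have h := Classical.choose_spec
    (N_compr (fun y => y.unpair.2 = c y.unpair.1) (Nat.pair k (bdc c k) + 1)) (Nat.pair i y)
    (Nat.lt_succ_of_le ?_)
  · simp only [Nat.unpair_pair] at h
    exact h
  · rcases hi.lt_or_eq with hi | rfl
    · rcases hy.lt_or_eq with hy | rfl
      · exact ((Nat.pair_lt_pair_left _ hi).trans (Nat.pair_lt_pair_right _ hy)).le
      · exact (Nat.pair_lt_pair_left _ hi).le
    · rcases hy.lt_or_eq with hy | rfl
      · exact (Nat.pair_lt_pair_right _ hy).le
      · exact le_rfl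

/-- Skolem function for the satisfaction relation -/
noncomputable def sk (x : ℕ) : ℕ :=
  sInf {z | SN x.unpair.1 (Nat.pair z x.unpair.2)}

/-- growth function for the cuts -/
noncomputable def hh (x : ℕ) : ℕ := Nat.pair x x + gmax x + x + 1

/-- the diagonal of the iterates of `hh` -/
noncomputable def itr (k : ℕ) : ℕ := hh^[k] k + 1

/-- the greatest `k ≤ e` with `b k ≤ e` -/
noncomputable def iv (b : ℕ → ℕ) (e : ℕ) : ℕ := by
  classical exact Nat.findGreatest (fun k => b k ≤ e) e

/-- recursive sets of formulas -/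
def RecSet (P : Set Fm) : Prop := ComputablePred (fun n : ℕ => ∃ φ ∈ P, φ.code = n)

open Classical in
/-- conjunction of the formulas in `P` with code `< k` -/
noncomputable def conjP (P : Set Fm) : ℕ → Fo
  | 0 => trueF
  | k + 1 => .and (conjP P k) (if h : ∃ φ ∈ P, φ.code = k then (Classical.choose h).fo else trueF)

/-- code of the conjunction of the formulas in `P` with code `< k` -/
noncomputable def cP (P : Set Fm) (k : ℕ) : ℕ := (conjP P k).code (fun _ => 0)

/-- the countable family of functions under which the base `J` is closed -/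
def fam : Set (ℕ → ℕ) :=
  Set.range (fun (n : ℕ) (_ : ℕ) => n) ∪
  {fun x => x.unpair.1, fun x => x.unpair.2, fun x => x.unpair.1 + x.unpair.2,
    fun x => x.unpair.1 * x.unpair.2, fun x => x - 1, sk, gam, gmax, bdc gam, gcd gam, hh, iv itr} ∪
  {f | ∃ P, RecSet P ∧ (f = cP P ∨ f = bdc (cP P) ∨ f = gcd (cP P) ∨ f = iv (bdc (cP P)))}

end Pool.Agent.Helper4.KSq
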