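import Pool.Agent.Helper4.KSq.ExtDefs

set_option autoImplicit false

/-!
# Structures whose universe is a subset of a fixed type `Ω`
-/

namespace Pool.Agent.Helper4.KSq

open Filter Cod

/-- a structure whose universe is the subset `U` of `Ω` (the operations are total functions on `Ω`,
but only their values on `U` matter) -/
structure PS (Ω : Type) extends Str J Ω where
  U : Set Ω
  zero_mem : zero ∈ U
  one_mem : one ∈ U
  add_mem : ∀ {x y}, x ∈ U → y ∈ U → add x y ∈ U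
  mul_mem : ∀ {x y}, x ∈ U → y ∈ U → mul x y ∈ U
  pair_mem : ∀ {x y}, x ∈ U → y ∈ U → pair x y ∈ U
  fst_mem : ∀ {x}, x ∈ U → fst x ∈ U
  snd_mem : ∀ {x}, x ∈ U → snd x ∈ U
  j_mem : ∀ c, j c ∈ U

namespace PS

variable {Ω : Type}

/-- `y` belongs to the set coded by `u` (in the structure `A`) -/
def el (A : PS Ω) (u y : Ω) : Prop :=
  ∃ z ∈ A.U, A.add (A.add (A.mul (A.mul z (A.snd u)) y) (A.mul z (A.snd u))) z = A.fst u

/-- the structure on the subtype -/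
def sub (A : PS Ω) : Str J A.U where
  zero := ⟨A.zero, A.zero_mem⟩
  one := ⟨A.one, A.one_mem⟩
  add x y := ⟨A.add x y, A.add_mem x.2 y.2⟩
  mul x y := ⟨A.mul x y, A.mul_mem x.2 y.2⟩
  pair x y := ⟨A.pair x y, A.pair_mem x.2 y.2⟩
  fst x := ⟨A.fst x, A.fst_mem x.2⟩
  snd x := ⟨A.snd x, A.snd_mem x.2⟩
  lt x y := A.lt x y
  j c := ⟨A.j c, A.j_mem c⟩
  S c x := A.S c x

/-- `A` is an initial segment of `B` (for the arithmetical operations and `j`) -/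
structure EE (A B : PS Ω) : Prop where
  sub : A.U ⊆ B.U
  zero : B.zero = A.zero
  one : B.one = A.one
  add : ∀ x ∈ A.U, ∀ y ∈ A.U, B.add x y = A.add x y
  mul : ∀ x ∈ A.U, ∀ y ∈ A.U, B.mul x y = A.mul x y
  pair : ∀ x ∈ A.U, ∀ y ∈ A.U, B.pair x y = A.pair x y
  fst : ∀ x ∈ A.U, B.fst x = A.fst x
  snd : ∀ x ∈ A.U, B.snd x = A.snd x
  lt : ∀ x ∈ A.U, ∀ y ∈ A.U, (B.lt x y ↔ A.lt x y)
  j : ∀ c, B.j c = A.j c
  init : ∀ x ∈ A.U, ∀ y ∈ B.U, B.lt y x → y ∈ A.U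

/-- the satisfaction relations of `A` and `B` agree on `A` for the codes `≤ a` -/
def Coh (a : J) (A B : PS Ω) : Prop := ∀ c ≤ a, ∀ x ∈ A.U, (B.S c x ↔ A.S c x)

/-- the satisfaction relations of `A` and `B` agree on `A` for the codes in `I` -/
def CohI (I : Cut) (A B : PS Ω) : Prop := ∀ c ∈ I.s, ∀ x ∈ A.U, (B.S c x ↔ A.S c x)

/-- `u` and `v` code (in `A`) sets which agree for the codes `≤ l` and the arguments in `M` -/
def Cdm (A M : PS Ω) (l : J) (u : Ω) : Prop :=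
  ∀ c ≤ l, ∀ y ∈ M.U, (A.el u (A.pair (A.j c) y) ↔ M.S c y)

/-- isomorphic copy of a structure, along an injection `e : β → Ω` -/
noncomputable def ofStr {β : Type} (B : Str J β) (e : β → Ω) : PS Ω := by
  classical exact
  let inv : Ω → β := @Function.invFun β Ω ⟨B.zero⟩ e
  { zero := e B.zero
    one := e B.one
    add := fun x y => e (B.add (inv x) (inv y))
    mul := fun x y => e (B.mul (inv x) (inv y))
    pair := fun x y => e (B.pair (inv x) (inv y))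
    fst := fun x => e (B.fst (inv x))
    snd := fun x => e (B.snd (inv x))
    lt := fun x y => B.lt (inv x) (inv y)
    j := fun c => e (B.j c)
    S := fun c x => B.S c (inv x)
    U := Set.range e
    zero_mem := ⟨_, rfl⟩
    one_mem := ⟨_, rfl⟩
    add_mem := fun _ _ => ⟨_, rfl⟩
    mul_mem := fun _ _ => ⟨_, rfl⟩
    pair_mem := fun _ _ => ⟨_, rfl⟩
    fst_mem := fun _ => ⟨_, rfl⟩
    snd_mem := fun _ => ⟨_, rfl⟩
    j_mem := fun _ => ⟨_, rfl⟩ }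

end PS

/-- a node of the tower: a structure together with the data of its construction -/
structure Nd (Ω : Type) where
  ps : PS Ω
  m : Ω
  can : J → Ω
  Gn : Cut → Ω → Set Ω
  l : J
  q : Ω
  d : J
  n : ℕ

/-- the node `N` is an extension of `A` (of length `I`) of length `K` -/
structure PExt {Ω : Type} (A : PS Ω) (I K : Cut) (N : Nd Ω) : Prop where
  emb : PS.EE A N.ps
  isK : IsK N.ps.sub K
  coh : PS.Coh N.l A N.ps
  trace : ∀ g ∈ K.s, ∀ z ∈ A.U, (N.ps.S g z ↔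
    A.S (thC N.l) (A.pair z (A.pair (A.j g) (A.pair N.q (A.pair (A.j N.d) (A.j N.l))))))
  con1 : ∀ c : J, A.le (A.j c) (A.fst N.q) → ∀ y ∈ N.ps.U, N.ps.lt y (A.fst (A.snd (A.snd N.q))) →
    (N.ps.S c y ↔ N.ps.el (A.fst (A.snd N.q)) (N.ps.pair (N.ps.j c) y))
  con2 : ∀ c : J, A.le (A.j c) (A.fst (A.snd (A.snd (A.snd N.q)))) → ∀ y ∈ N.ps.U,
    N.ps.lt y (A.snd (A.snd (A.snd (A.snd (A.snd N.q))))) →
    (N.ps.S c y ↔ N.ps.el (A.fst (A.snd (A.snd (A.snd (A.snd N.q))))) (N.ps.pair (N.ps.j c) y))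
  m_mem : N.m ∈ N.ps.U
  m_gt : ∀ a ∈ A.U, N.ps.lt a N.m
  can_mem : ∀ e, N.can e ∈ N.ps.U
  can_spec : ∀ e ∈ I.s, PS.Cdm N.ps A e (N.can e)
  gn_mem : ∀ (I' : Cut), ∀ p ∈ A.U, I' ≤ I → N.Gn I' p ⊆ N.ps.U
  gn_p : ∀ (I' : Cut), ∀ p ∈ A.U, I' ≤ I → p ∈ N.Gn I' p
  gn_j : ∀ (I' : Cut), ∀ p ∈ A.U, ∀ a : J, I' ≤ I → A.j a ∈ N.Gn I' p
  gn_m : ∀ (I' : Cut), ∀ p ∈ A.U, I' ≤ I → N.m ∈ N.Gn I' p
  gn_can : ∀ (I' : Cut), ∀ p ∈ A.U, I' ≤ I → ∀ e ∈ I'.s, N.can e ∈ N.Gn I' p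
  gn_pair : ∀ (I' : Cut), ∀ p ∈ A.U, I' ≤ I → ∀ v ∈ N.Gn I' p, ∀ w ∈ N.Gn I' p,
    N.ps.pair v w ∈ N.Gn I' p
  gn_trace : ∀ (I' : Cut), ∀ p ∈ A.U, I' ≤ I → ∀ v ∈ N.Gn I' p, ∀ g ∈ I'.s, g ≤ N.l →
    ∃ θ ∈ I'.s, ∃ P : J, ∀ y ∈ A.U,
      (N.ps.S g (N.ps.pair y v) ↔ A.S θ (A.pair y (A.pair p (A.j P))))
  gn_def : ∀ (I' : Cut), ∀ p ∈ A.U, I' ≤ I → ∀ v ∈ N.Gn I' p, ∀ g ∈ I'.s, g ≤ N.l →
    ∀ w ∈ N.ps.U, (∀ w' ∈ N.ps.U, (N.ps.S g (N.ps.pair w' v) ↔ w' = w)) → w ∈ N.Gn I' p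
  cons : ∀ v ∈ N.ps.U, ∃ g ∈ I.s, ∃ p ∈ A.U, ∀ a ∈ A.U, (N.ps.el v a ↔ A.S g (A.pair a p))

end Pool.Agent.Helper4.KSq
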