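import Pool.Agent.Helper4.KSq.ExtC
import Pool.Agent.Helper4.KSq.TowerDefs
import Pool.Agent.Helper4.KSq.JFacts

set_option autoImplicit false

/-!
# Extensions inside the fixed type `Ω`
-/

namespace Pool.Agent.Helper4.KSq

open Filter Cod Cardinal

variable {Ω : Type}

/-- `f` is an isomorphism of the structures `B` and `C` -/
structure SIso {β γ : Type} (B : Str J β) (C : Str J γ) (f : β → γ) : Prop where
  bij : Function.Bijective f
  zero : C.zero = f B.zero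
  one : C.one = f B.one
  add : ∀ x y, C.add (f x) (f y) = f (B.add x y)
  mul : ∀ x y, C.mul (f x) (f y) = f (B.mul x y)
  pair : ∀ x y, C.pair (f x) (f y) = f (B.pair x y)
  fst : ∀ x, C.fst (f x) = f (B.fst x)
  snd : ∀ x, C.snd (f x) = f (B.snd x)
  lt : ∀ x y, C.lt (f x) (f y) ↔ B.lt x y
  j : ∀ c, C.j c = f (B.j c)
  S : ∀ c x, C.S c (f x) ↔ B.S c x

namespace SIso

variable {β γ : Type} {B : Str J β} {C : Str J γ} {f : β → γ}

theorem eqv (h : SIso B C f) (x y : β) : f x = f y ↔ x = y := h.bij.1.eq_iff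

theorem fn (h : SIso B C f) (k : ℕ) (x : β) : C.fn k (f x) = f (B.fn k x) := by
  match k with
  | 0 => simp [Ar.fn, h.fst]
  | 1 => simp [Ar.fn, h.snd]
  | 2 => simp [Ar.fn, h.pair]
  | 3 => simp [Ar.fn, h.pair, h.fst, h.snd]
  | 4 => simp [Ar.fn, h.pair, h.fst, h.snd]
  | 5 => simp [Ar.fn, h.pair, h.fst, h.snd]
  | 6 => simp [Ar.fn, h.pair, h.fst, h.snd]
  | (n + 7) => simp [Ar.fn]

theorem base (h : SIso B C f) (k : ℕ) (x : β) : C.base k (f x) ↔ B.base k x := by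
  match k with
  | 0 => simp [Ar.base, h.add, h.fst, h.snd, h.eqv]
  | 1 => simp [Ar.base, h.mul, h.fst, h.snd, h.eqv]
  | 2 => simp [Ar.base, h.lt, h.fst, h.snd]
  | 3 => simp [Ar.base, h.pair, h.fst, h.snd, h.eqv]
  | 4 => simp [Ar.base, h.fst, h.snd, h.eqv]
  | 5 => simp [Ar.base, h.fst, h.zero, h.eqv]
  | 6 => simp [Ar.base, h.fst, h.one, h.eqv]
  | (n + 7) => simp [Ar.base]

theorem isK (h : SIso B C f) {I : Cut} (hB : IsK B I) : IsK C I := by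
  have sf := h.bij.2
  refine ⟨⟨?_, ?_, ?_⟩, ?_, ?_, ⟨?_, ?_, ?_, ?_, ?_, ?_⟩, ?_, ?_, ?_⟩
  · intro a b
    obtain ⟨a, rfl⟩ := sf a
    obtain ⟨b, rfl⟩ := sf b
    rw [h.pair, h.fst, hB.pairing.fst_pair]
  · intro a b
    obtain ⟨a, rfl⟩ := sf a
    obtain ⟨b, rfl⟩ := sf b
    rw [h.pair, h.snd, hB.pairing.snd_pair]
  · intro a
    obtain ⟨a, rfl⟩ := sf a
    rw [h.fst, h.snd, h.pair, hB.pairing.eta]
  · intro a b
    rw [h.j, h.j, h.j, h.pair, hB.j_pair]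
  · intro x b hx
    obtain ⟨x, rfl⟩ := sf x
    rw [h.j, h.lt] at hx
    obtain ⟨a, ha⟩ := hB.initial x b hx
    exact ⟨a, by rw [h.j, ha]⟩
  · intro k hk hI x
    obtain ⟨x, rfl⟩ := sf x
    rw [h.S, h.base]
    exact hB.tarski.base k hk hI x
  · intro c hc x
    obtain ⟨x, rfl⟩ := sf x
    rw [h.S, h.S]
    exact hB.tarski.neg c hc x
  · intro c d hc x
    obtain ⟨x, rfl⟩ := sf x
    rw [h.S, h.S, h.S]
    exact hB.tarski.and c d hc x
  · intro c hc x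
    obtain ⟨x, rfl⟩ := sf x
    rw [h.S, hB.tarski.ex c hc x]
    constructor
    · rintro ⟨z, hz⟩
      exact ⟨f z, by rw [h.pair, h.S]; exact hz⟩
    · rintro ⟨z, hz⟩
      obtain ⟨z, rfl⟩ := sf z
      rw [h.pair, h.S] at hz
      exact ⟨z, hz⟩
  · intro k hk c hc x
    obtain ⟨x, rfl⟩ := sf x
    rw [h.S, h.fn, h.S]
    exact hB.tarski.fn k hk c hc x
  · intro e he x
    obtain ⟨x, rfl⟩ := sf x
    rw [h.S, hB.tarski.sat e he x]
    constructor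
    · rintro ⟨c, hc, h1, h2⟩
      exact ⟨c, hc, by rw [h.fst, h.j, h1], by rw [h.snd, h.S]; exact h2⟩
    · rintro ⟨c, hc, h1, h2⟩
      rw [h.fst, h.j, h.eqv] at h1
      rw [h.snd, h.S] at h2
      exact ⟨c, hc, h1, h2⟩
  · intro c hc p hp
    obtain ⟨p, rfl⟩ := sf p
    obtain ⟨x, hx⟩ := hp
    obtain ⟨x, rfl⟩ := sf x
    rw [h.pair, h.S] at hx
    obtain ⟨y, hy, hy2⟩ := hB.lnp c hc p ⟨x, hx⟩
    refine ⟨f y, by rw [h.pair, h.S]; exact hy, ?_⟩
    intro z hz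
    obtain ⟨z, rfl⟩ := sf z
    rw [h.lt] at hz
    rw [h.pair, h.S]
    exact hy2 z hz
  · intro n x
    rw [h.j, h.S]
    exact hB.agree n x
  · intro n hn x
    obtain ⟨x, rfl⟩ := sf x
    rw [h.S]
    exact hB.void n hn x

end SIso

namespace PS

section ofStr

variable {β : Type} (B : Str J β) {e : β → Ω} (he : Function.Injective e)

theorem ofStr_inv {e : β → Ω} (he : Function.Injective e) (v : β) :
    @Function.invFun β Ω ⟨B.zero⟩ e (e v) = v :=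
  @Function.leftInverse_invFun β Ω ⟨B.zero⟩ e he v

theorem ofStr_U : (PS.ofStr B e).U = Set.range e := rfl
theorem ofStr_zero : (PS.ofStr B e).zero = e B.zero := rfl
theorem ofStr_one : (PS.ofStr B e).one = e B.one := rfl
theorem ofStr_j (c : J) : (PS.ofStr B e).j c = e (B.j c) := rfl

include he

theorem ofStr_add (v w : β) : (PS.ofStr B e).add (e v) (e w) = e (B.add v w) := by
  show e (B.add (@Function.invFun β Ω ⟨B.zero⟩ e (e v)) (@Function.invFun β Ω ⟨B.zero⟩ e (e w))) = _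
  rw [ofStr_inv B he, ofStr_inv B he]

theorem ofStr_mul (v w : β) : (PS.ofStr B e).mul (e v) (e w) = e (B.mul v w) := by
  show e (B.mul (@Function.invFun β Ω ⟨B.zero⟩ e (e v)) (@Function.invFun β Ω ⟨B.zero⟩ e (e w))) = _
  rw [ofStr_inv B he, ofStr_inv B he]

theorem ofStr_pair (v w : β) : (PS.ofStr B e).pair (e v) (e w) = e (B.pair v w) := by
  show e (B.pair (@Function.invFun β Ω ⟨B.zero⟩ e (e v))
    (@Function.invFun β Ω ⟨B.zero⟩ e (e w))) = _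
  rw [ofStr_inv B he, ofStr_inv B he]

theorem ofStr_fst (v : β) : (PS.ofStr B e).fst (e v) = e (B.fst v) := by
  show e (B.fst (@Function.invFun β Ω ⟨B.zero⟩ e (e v))) = _
  rw [ofStr_inv B he]

theorem ofStr_snd (v : β) : (PS.ofStr B e).snd (e v) = e (B.snd v) := by
  show e (B.snd (@Function.invFun β Ω ⟨B.zero⟩ e (e v))) = _
  rw [ofStr_inv B he]

theorem ofStr_lt (v w : β) : (PS.ofStr B e).lt (e v) (e w) ↔ B.lt v w := by
  show B.lt (@Function.invFun β Ω ⟨B.zero⟩ e (e v)) (@Function.invFun β Ω ⟨B.zero⟩ e (e w)) ↔ _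
  rw [ofStr_inv B he, ofStr_inv B he]

theorem ofStr_S (c : J) (v : β) : (PS.ofStr B e).S c (e v) ↔ B.S c v := by
  show B.S c (@Function.invFun β Ω ⟨B.zero⟩ e (e v)) ↔ _
  rw [ofStr_inv B he]

theorem ofStr_el (u y : β) : (PS.ofStr B e).el (e u) (e y) ↔ B.E u y := by
  unfold PS.el Ar.E
  constructor
  · rintro ⟨z, ⟨z, rfl⟩, h⟩
    rw [ofStr_snd B he, ofStr_mul B he, ofStr_mul B he, ofStr_add B he, ofStr_add B he,
      ofStr_fst B he] at h
    exact ⟨z, he h⟩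
  · rintro ⟨z, h⟩
    refine ⟨e z, ⟨z, rfl⟩, ?_⟩
    rw [ofStr_snd B he, ofStr_mul B he, ofStr_mul B he, ofStr_add B he, ofStr_add B he,
      ofStr_fst B he, h]

/-- the transported structure is isomorphic to the given one -/
theorem ofStr_iso : SIso B (PS.ofStr B e).sub (fun v => ⟨e v, v, rfl⟩) := by
  refine ⟨⟨?_, ?_⟩, rfl, rfl, ?_, ?_, ?_, ?_, ?_, ?_, fun _ => rfl, ?_⟩
  · intro v w h
    exact he (congrArg Subtype.val h)
  · rintro ⟨_, v, rfl⟩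
    exact ⟨v, rfl⟩
  · intro x y
    exact Subtype.ext (ofStr_add B he x y)
  · intro x y
    exact Subtype.ext (ofStr_mul B he x y)
  · intro x y
    exact Subtype.ext (ofStr_pair B he x y)
  · intro x
    exact Subtype.ext (ofStr_fst B he x)
  · intro x
    exact Subtype.ext (ofStr_snd B he x)
  · intro x y
    exact ofStr_lt B he x y
  · intro c x
    exact ofStr_S B he c x

end ofStr

/-- `E` in the structure on the subtype -/
theorem sub_le {A : PS Ω} (x y : A.U) : A.sub.le x y ↔ A.le x.1 y.1 := by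
  unfold Ar.le
  constructor
  · rintro (h | h)
    · exact Or.inl h
    · exact Or.inr (congrArg Subtype.val h)
  · rintro (h | h)
    · exact Or.inl h
    · exact Or.inr (Subtype.ext h)

end PS

/-- a copy of `J` -/
theorem exists_P0 (h : ℵ₀ ≤ #Ω) (I : Cut) :
    ∃ P : PS Ω, IsK P.sub I ∧ #P.U ≤ ℵ₀ ∧ P.U = Set.range P.j := by
  have hJ : #J ≤ ℵ₀ := by
    have := J.countable
    exact Cardinal.mk_le_aleph0
  obtain ⟨e⟩ : Nonempty (J ↪ Ω) := hJ.trans h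
  refine ⟨PS.ofStr J.JJ e, (PS.ofStr_iso J.JJ e.injective).isK (JJ_isK I), ?_, ?_⟩
  · exact (Cardinal.mk_range_le (f := e)).trans hJ
  · rfl

/-- an injection which extends a given bijection of small subsets -/
theorem exists_inj {α β : Type} {U : Set Ω} (f : α → β) (hf : Function.Injective f)
    (g : α → Ω) (hg : Function.Injective g) (hgU : ∀ a, g a ∈ U) (hU : #U < #Ω) (hβ : #β < #Ω)
    (hunc : ℵ₀ < #Ω) : ∃ e : β → Ω, Function.Injective e ∧ ∀ a, e (f a) = g a := by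
  classical
  have : Infinite Ω := Cardinal.infinite_iff.2 hunc.le
  have h1 : #(Uᶜ : Set Ω) = #Ω := Cardinal.mk_compl_of_infinite U hU
  obtain ⟨k⟩ : Nonempty (β ↪ (Uᶜ : Set Ω)) := (hβ.le.trans h1.ge)
  refine ⟨fun v => if h : ∃ a, f a = v then g (Classical.choose h) else (k v : Ω), ?_, ?_⟩
  · intro v w hvw
    by_cases hv : ∃ a, f a = v
    · by_cases hw : ∃ a, f a = w
      · simp only [dif_pos hv, dif_pos hw] at hvw
        have h2 := hg hvw
        have h3 := Classical.choose_spec hv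
        have h4 := Classical.choose_spec hw
        rw [← h3, ← h4, h2]
      · simp only [dif_pos hv, dif_neg hw] at hvw
        exact absurd (hvw ▸ hgU (Classical.choose hv)) (k w).2
    · by_cases hw : ∃ a, f a = w
      · simp only [dif_neg hv, dif_pos hw] at hvw
        exact absurd (hvw.symm ▸ hgU (Classical.choose hw)) (k v).2
      · simp only [dif_neg hv, dif_neg hw] at hvw
        exact k.injective (Subtype.ext hvw)
  · intro a
    have h : ∃ a', f a' = f a := ⟨a, rfl⟩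
    simp only [dif_pos h]
    rw [hf (Classical.choose_spec h)]

/-- transport of an extension into `Ω` -/
theorem PExt.ofSpec {A : PS Ω} {I K : Cut} {l : J} {q : Ω} (hq : q ∈ A.U) {d : J} {β : Type}
    {B : Str J β} {f : A.U → β} {m : β} {can : J → β} {G : Cut → A.U → Set β}
    (hs : ExtSpec A.sub I K l ⟨q, hq⟩ d B f m can G) {e : β → Ω} (he : Function.Injective e)
    (hee : ∀ a, e (f a) = a.1) (n : ℕ) :
    PExt A I K ⟨PS.ofStr B e, e m, fun c => e (can c),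
      fun I' p => {w | ∃ hp : p ∈ A.U, ∃ v ∈ G I' ⟨p, hp⟩, w = e v}, l, q, d, n⟩ := by
  have hx : ∀ x (h : x ∈ A.U), x = e (f ⟨x, h⟩) := fun x h => (hee ⟨x, h⟩).symm
  refine ⟨⟨?_, ?_, ?_, ?_, ?_, ?_, ?_, ?_, ?_, ?_, ?_⟩, (PS.ofStr_iso B he).isK hs.isK, ?_, ?_, ?_,
    ?_, ⟨m, rfl⟩, ?_, fun c => ⟨can c, rfl⟩, ?_, ?_, ?_, ?_, ?_, ?_, ?_, ?_, ?_, ?_⟩
  · intro x h
    exact ⟨f ⟨x, h⟩, hee ⟨x, h⟩⟩
  · show e B.zero = A.zero
    rw [← hs.emb.zero, hee]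
    rfl
  · show e B.one = A.one
    rw [← hs.emb.one, hee]
    rfl
  · intro x h y h'
    rw [hx x h, hx y h', PS.ofStr_add B he, ← hs.emb.add, hee, hee, hee]
    rfl
  · intro x h y h'
    rw [hx x h, hx y h', PS.ofStr_mul B he, ← hs.emb.mul, hee, hee, hee]
    rfl
  · intro x h y h'
    rw [hx x h, hx y h', PS.ofStr_pair B he, ← hs.emb.pair, hee, hee, hee]
    rfl
  · intro x h
    rw [hx x h, PS.ofStr_fst B he, ← hs.emb.fst, hee, hee]
    rfl
  · intro x h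
    rw [hx x h, PS.ofStr_snd B he, ← hs.emb.snd, hee, hee]
    rfl
  · intro x h y h'
    rw [hx x h, hx y h', PS.ofStr_lt B he, ← hs.emb.lt, hee, hee]
    rfl
  · intro c
    show e (B.j c) = A.j c
    rw [← hs.emb.j, hee]
    rfl
  · rintro x h _ ⟨v, rfl⟩ hlt
    rw [hx x h, PS.ofStr_lt B he] at hlt
    obtain ⟨x', rfl⟩ := hs.emb.init _ _ hlt
    rw [hee]
    exact x'.2
  · intro c hc x h
    show (PS.ofStr B e).S c x ↔ A.S c x
    rw [hx x h, PS.ofStr_S B he, hs.coh c hc, hee]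
    rfl
  · intro g hg z h
    show (PS.ofStr B e).S g z ↔
      A.S (thC l) (A.pair z (A.pair (A.j g) (A.pair q (A.pair (A.j d) (A.j l)))))
    have h1 := hs.trace g hg ⟨z, h⟩
    rw [← PS.ofStr_S B he g, hee] at h1
    exact h1
  · rintro c hc _ ⟨y, rfl⟩ hy
    have h1 := hs.con1 c y ((PS.sub_le _ _).2 hc)
    have h2 : (PS.ofStr B e).lt (e y) (A.fst (A.snd (A.snd q))) := hy
    have h3 : A.fst (A.snd (A.snd q)) =
        e (f (A.sub.fst (A.sub.snd (A.sub.snd ⟨q, hq⟩)))) :=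
      (hee (A.sub.fst (A.sub.snd (A.sub.snd ⟨q, hq⟩)))).symm
    rw [h3, PS.ofStr_lt B he] at h2
    have h4 := h1 h2
    have h5 : A.fst (A.snd q) = e (f (A.sub.fst (A.sub.snd ⟨q, hq⟩))) :=
      (hee (A.sub.fst (A.sub.snd ⟨q, hq⟩))).symm
    show (PS.ofStr B e).S c (e y) ↔
      (PS.ofStr B e).el (A.fst (A.snd q)) ((PS.ofStr B e).pair ((PS.ofStr B e).j c) (e y))
    rw [h5, PS.ofStr_j, PS.ofStr_pair B he, PS.ofStr_el B he, PS.ofStr_S B he]
    exact h4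
  · rintro c hc _ ⟨y, rfl⟩ hy
    have h1 := hs.con2 c y ((PS.sub_le _ _).2 hc)
    have h2 : (PS.ofStr B e).lt (e y) (A.snd (A.snd (A.snd (A.snd (A.snd q))))) := hy
    have h3 : A.snd (A.snd (A.snd (A.snd (A.snd q)))) =
        e (f (A.sub.snd (A.sub.snd (A.sub.snd (A.sub.snd (A.sub.snd ⟨q, hq⟩)))))) :=
      (hee (A.sub.snd (A.sub.snd (A.sub.snd (A.sub.snd (A.sub.snd ⟨q, hq⟩)))))).symm
    rw [h3, PS.ofStr_lt B he] at h2
    have h4 := h1 h2
    have h5 : A.fst (A.snd (A.snd (A.snd (A.snd q)))) =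
        e (f (A.sub.fst (A.sub.snd (A.sub.snd (A.sub.snd (A.sub.snd ⟨q, hq⟩)))))) :=
      (hee (A.sub.fst (A.sub.snd (A.sub.snd (A.sub.snd (A.sub.snd ⟨q, hq⟩)))))).symm
    show (PS.ofStr B e).S c (e y) ↔
      (PS.ofStr B e).el (A.fst (A.snd (A.snd (A.snd (A.snd q)))))
        ((PS.ofStr B e).pair ((PS.ofStr B e).j c) (e y))
    rw [h5, PS.ofStr_j, PS.ofStr_pair B he, PS.ofStr_el B he, PS.ofStr_S B he]
    exact h4
  · intro a h
    show (PS.ofStr B e).lt a (e m)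
    rw [hx a h, PS.ofStr_lt B he]
    exact hs.m_gt _
  · intro c hc c' hc' y h
    show (PS.ofStr B e).el (e (can c)) ((PS.ofStr B e).pair ((PS.ofStr B e).j c') y) ↔ A.S c' y
    have h1 := hs.can_spec c hc c' hc' ⟨y, h⟩
    rw [← PS.ofStr_el B he, ← PS.ofStr_pair B he, hee, ← PS.ofStr_j B (e := e)] at h1
    exact h1
  · rintro I' p hp hI _ ⟨_, v, _, rfl⟩
    exact ⟨v, rfl⟩
  · intro I' p hp hI
    exact ⟨hp, f ⟨p, hp⟩, hs.gn_p I' _ hI, hx p hp⟩
  · intro I' p hp a hI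
    refine ⟨hp, B.j a, hs.gn_j I' _ a hI, ?_⟩
    rw [← hs.emb.j, hee]
    rfl
  · intro I' p hp hI
    exact ⟨hp, m, hs.gn_m I' _ hI, rfl⟩
  · intro I' p hp hI c hc
    exact ⟨hp, can c, hs.gn_can I' _ hI c hc, rfl⟩
  · rintro I' p hp hI _ ⟨_, v, hv, rfl⟩ _ ⟨_, w, hw, rfl⟩
    exact ⟨hp, B.pair v w, hs.gn_pair I' _ hI v hv w hw, PS.ofStr_pair B he v w⟩
  · rintro I' p hp hI _ ⟨_, v, hv, rfl⟩ g hg hgl
    obtain ⟨θ, hθ, P, h1⟩ := hs.gn_trace I' _ hI v hv g hg hgl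
    refine ⟨θ, hθ, P, ?_⟩
    intro y h
    have h2 := h1 ⟨y, h⟩
    rw [← PS.ofStr_S B he, ← PS.ofStr_pair B he, hee] at h2
    exact h2
  · rintro I' p hp hI _ ⟨_, v, hv, rfl⟩ g hg hgl _ ⟨w, rfl⟩ h1
    refine ⟨hp, w, hs.gn_def I' _ hI v hv g hg hgl w ?_, rfl⟩
    intro w'
    have h2 := h1 (e w') ⟨w', rfl⟩
    have h3 : (PS.ofStr B e).S g ((PS.ofStr B e).pair (e w') (e v)) ↔ e w' = e w := h2
    rw [PS.ofStr_pair B he, PS.ofStr_S B he, he.eq_iff] at h3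
    exact h3
  · rintro _ ⟨v, rfl⟩
    obtain ⟨g, hg, p, h1⟩ := hs.cons v
    refine ⟨g, hg, p.1, p.2, ?_⟩
    intro a h
    have h2 := h1 ⟨a, h⟩
    rw [← PS.ofStr_el B he, hee] at h2
    exact h2

theorem exists_PExt {A : PS Ω} {I K : Cut} (hA : IsK A.sub I) {l : J} (hl : l ∈ I.s)
    (hn : NonSt l) {q : Ω} (hq : q ∈ A.U) {d : J} (hd : ∀ k ∈ K.s, k < d)
    (happ : A.app l q (A.j d)) (hcard : #A.U < #Ω) (hunc : ℵ₀ < #Ω) (n : ℕ) :
    ∃ N : Nd Ω, PExt A I K N ∧ N.l = l ∧ N.q = q ∧ N.d = d ∧ N.n = n ∧ #N.ps.U < #Ω := by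
  have happ' : App A.sub (c5 l) (A.sub.j l) ⟨q, hq⟩ (A.sub.j d) :=
    (appC_spec hA hl ⟨q, hq⟩ (A.sub.j d)).1 happ
  obtain ⟨X, hXA, hXI, hXK, hXl, hXq, hXd⟩ : ∃ X : Ctx A.U, X.A = A.sub ∧ X.I = I ∧ X.K = K ∧
      X.l = l ∧ X.q = ⟨q, hq⟩ ∧ X.d = d :=
    ⟨⟨A.sub, I, K, l, ⟨q, hq⟩, d, hA, hl, hn, hd, happ'⟩, rfl, rfl, rfl, rfl, rfl, rfl⟩
  have hs := X.extSpec
  rw [hXA, hXI, hXK, hXl, hXq, hXd] at hs
  have hBc : #X.Bt < #Ω := X.B_card.trans_lt (max_lt hcard hunc)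
  obtain ⟨e, he, hee⟩ := exists_inj (U := A.U) X.emb hs.emb.inj (fun a => a.1)
    Subtype.val_injective (fun a => a.2) hcard hBc hunc
  exact ⟨_, PExt.ofSpec hq hs he hee n, rfl, rfl, rfl, rfl,
    (Cardinal.mk_range_le (f := e)).trans_lt hBc⟩

end Pool.Agent.Helper4.KSq
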