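import Pool.Agent.Helper4.KSq.AppEx
import Pool.Agent.Helper4.KSq.TowerDefs

set_option autoImplicit false

/-!
# Facts about structures inside `Ω`, part 1
-/

namespace Pool.Agent.Helper4.KSq

open Filter Cod Cardinal

namespace PS

variable {Ω : Type}

theorem el_sub {A : PS Ω} (u y : A.U) : A.el u y ↔ A.sub.E u y := by
  constructor
  · rintro ⟨z, hz, h⟩
    exact ⟨⟨z, hz⟩, Subtype.ext h⟩
  · rintro ⟨z, h⟩
    exact ⟨z, z.2, congrArg Subtype.val h⟩

/-- code of a relation, used inside `Ω` -/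
theorem cd_spec {R : ∀ (C α : Type), Str C α → (ℕ → C) → α → Prop}
    (h : UD (fun C α A ρ e => R C α A ρ (e 0))) {A : PS Ω} {I : Cut}
    (hA : IsK A.sub I) {ρ : ℕ → J} (hρ : ∀ k, ρ k ∈ I.s) (x : A.U) :
    A.S (h.cd ρ) x ↔ R J A.U A.sub ρ x :=
  UD.cd_spec h hA hρ x

theorem EE.refl (A : PS Ω) : EE A A where
  sub := subset_rfl
  zero := rfl
  one := rfl
  add := fun _ _ _ _ => rfl
  mul := fun _ _ _ _ => rfl
  pair := fun _ _ _ _ => rfl
  fst := fun _ _ => rfl
  snd := fun _ _ => rfl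
  lt := fun _ _ _ _ => Iff.rfl
  j := fun _ => rfl
  init := fun _ _ _ h _ => h

theorem EE.trans {A B D : PS Ω} (h : EE A B) (h' : EE B D) : EE A D where
  sub := h.sub.trans h'.sub
  zero := h'.zero.trans h.zero
  one := h'.one.trans h.one
  add := fun x hx y hy => (h'.add x (h.sub hx) y (h.sub hy)).trans (h.add x hx y hy)
  mul := fun x hx y hy => (h'.mul x (h.sub hx) y (h.sub hy)).trans (h.mul x hx y hy)
  pair := fun x hx y hy => (h'.pair x (h.sub hx) y (h.sub hy)).trans (h.pair x hx y hy)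
  fst := fun x hx => (h'.fst x (h.sub hx)).trans (h.fst x hx)
  snd := fun x hx => (h'.snd x (h.sub hx)).trans (h.snd x hx)
  lt := fun x hx y hy => (h'.lt x (h.sub hx) y (h.sub hy)).trans (h.lt x hx y hy)
  j := fun c => (h'.j c).trans (h.j c)
  init := fun x hx y hy hl => h.init x hx y (h'.init x (h.sub hx) y hy hl)
    ((h'.lt y (h'.init x (h.sub hx) y hy hl) x (h.sub hx)).1 hl)

theorem le_add_self {α : Type} {A : Str J α} {I : Cut} (hA : IsK A I) (x z : α) :
    A.le z (A.add x z) := by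
  have hU : UD (fun C α A ρ e => A.le (e 0) (A.add (e 1) (e 0))) :=
    UD.le (TD.var 0) (TD.add (TD.var 1) (TD.var 0))
  refine transfer hA hU (fun _ => 0) (fun e => ?_) (cs z (cs x (fun _ => x)))
  show e 0 < e 1 + e 0 ∨ e 0 = e 1 + e 0
  omega

/-- the relation `el` is absolute -/
theorem EE.el {A B : PS Ω} (h : EE A B) {I I' : Cut} (hA : IsK A.sub I') (hB : IsK B.sub I)
    {u y : Ω} (hu : u ∈ A.U) (hy : y ∈ A.U) : B.el u y ↔ A.el u y := by
  have key : ∀ z ∈ A.U, B.add (B.add (B.mul (B.mul z (B.snd u)) y) (B.mul z (B.snd u))) z =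
      A.add (A.add (A.mul (A.mul z (A.snd u)) y) (A.mul z (A.snd u))) z := by
    intro z hz
    have h1 := A.mul_mem hz (A.snd_mem hu)
    rw [h.snd u hu, h.mul z hz _ (A.snd_mem hu), h.mul _ h1 y hy,
      h.add _ (A.mul_mem h1 hy) _ h1, h.add _ (A.add_mem (A.mul_mem h1 hy) h1) z hz]
  constructor
  · rintro ⟨z, hz, hzz⟩
    have h1 : B.mul z (B.snd u) ∈ B.U := B.mul_mem hz (B.snd_mem (h.sub hu))
    have h2 : B.add (B.mul (B.mul z (B.snd u)) y) (B.mul z (B.snd u)) ∈ B.U :=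
      B.add_mem (B.mul_mem h1 (h.sub hy)) h1
    have h3 : B.lt z (B.fst u) ∨ z = B.fst u := by
      have := le_add_self hB (⟨_, h2⟩ : B.U) (⟨z, hz⟩ : B.U)
      rcases this with h4 | h4
      · left
        have h5 : B.lt z (B.add (B.add (B.mul (B.mul z (B.snd u)) y) (B.mul z (B.snd u))) z) := h4
        rwa [hzz] at h5
      · right
        have h5 : z = B.add (B.add (B.mul (B.mul z (B.snd u)) y) (B.mul z (B.snd u))) z :=
          congrArg Subtype.val h4
        rwa [hzz] at h5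
    rw [h.fst u hu] at h3
    have hzA : z ∈ A.U := by
      rcases h3 with h3 | h3
      · exact h.init _ (A.fst_mem hu) z hz h3
      · rw [h3]; exact A.fst_mem hu
    exact ⟨z, hzA, by rw [← key z hzA, hzz, h.fst u hu]⟩
  · rintro ⟨z, hz, hzz⟩
    exact ⟨z, h.sub hz, by rw [key z hz, hzz, h.fst u hu]⟩

theorem Coh.mono {A B : PS Ω} {a a' : J} (h : Coh a A B) (h' : a' ≤ a) : Coh a' A B :=
  fun c hc x hx => h c (hc.trans h') x hx

theorem Coh.trans {A B D : PS Ω} {a : J} (hE : EE A B) (h : Coh a A B) (h' : Coh a B D) :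
    Coh a A D :=
  fun c hc x hx => (h' c hc x (hE.sub hx)).trans (h c hc x hx)

/-- the approximations (in `Ω`) in terms of `App` -/
theorem app_iff {A : PS Ω} {I : Cut} (hA : IsK A.sub I) {l : J} (hl : l ∈ I.s) (q d : A.U) :
    A.app l q d ↔ App A.sub (c5 l) (A.sub.j l) q d :=
  appC_spec hA hl q d

/-- `app` is absolute between coherent structures -/
theorem app_coh {A B : PS Ω} (hE : EE A B) {l : J} {a : J} (ha : appC l ≤ a) (hc : Coh a A B)
    {q d : Ω} (hq : q ∈ A.U) (hd : d ∈ A.U) : B.app l q d ↔ A.app l q d := by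
  unfold app
  rw [hE.j, hE.pair q hq d hd, hE.pair _ (A.j_mem l) _ (A.pair_mem hq hd)]
  exact hc _ ha _ (A.pair_mem (A.j_mem l) (A.pair_mem hq hd))

end PS

end Pool.Agent.Helper4.KSq
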