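import Pool.Agent.Helper4.KSq.PSFacts1

set_option autoImplicit false

/-!
# Facts about structures inside `Ω`, part 2
-/

namespace Pool.Agent.Helper4.KSq

open Filter Cod Cardinal

namespace PS

variable {Ω : Type}

/-! ### Auxiliary facts -/

private theorem p2_le_j {α : Type} {A : Str J α} {I : Cut} (hA : IsK A I) {a : J} {x : α} :
    A.le x (A.j a) ↔ ∃ c ≤ a, x = A.j c := by
  constructor
  · rintro (h | h)
    · obtain ⟨c, rfl⟩ := hA.initial _ _ h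
      exact ⟨c, ((hA.j_lt _ _).1 h).le, rfl⟩
    · exact ⟨a, le_rfl, h⟩
  · rintro ⟨c, hc, rfl⟩
    rcases hc.lt_or_eq with h | h
    · exact Or.inl ((hA.j_lt _ _).2 h)
    · exact Or.inr (by rw [h])

private theorem p2_c5 {α : Type} {A : Str J α} {I : Cut} (hA : IsK A I) {l c : J} (hl : l ∈ I.s)
    (hc : c ≤ l) (y : α) : A.S (c5 l) (A.pair (A.j c) y) ↔ A.S c y := by
  rw [hA.tarski.sat l (c5_mem I hl), hA.pairing.fst_pair, hA.pairing.snd_pair]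
  constructor
  · rintro ⟨c', _, h1, h2⟩
    rw [hA.j_inj h1]
    exact h2
  · intro h
    exact ⟨c, hc, rfl, h⟩

private theorem p2_cds {α : Type} {A : Str J α} {I : Cut} (hA : IsK A I) {l : J} (hl : l ∈ I.s)
    (u b : α) : Cds A (c5 l) (A.j l) u b ↔
      ∀ c ≤ l, ∀ y, A.lt y b → (A.E u (A.pair (A.j c) y) ↔ A.S c y) := by
  constructor
  · intro h c hc y hy
    rw [h (A.j c) y ((p2_le_j hA).2 ⟨c, hc, rfl⟩) hy, p2_c5 hA hl hc]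
  · intro h c y hc hy
    obtain ⟨c', hc', rfl⟩ := (p2_le_j hA).1 hc
    rw [h c' hc' y hy, p2_c5 hA hl hc']

private theorem p2_cdsU {A : PS Ω} {I : Cut} (hA : IsK A.sub I) {l : J} (hl : l ∈ I.s)
    (u b : A.U) : Cds A.sub (c5 l) (A.sub.j l) u b ↔
      ∀ c ≤ l, ∀ y ∈ A.U, A.lt y b → (A.el u (A.pair (A.j c) y) ↔ A.S c y) := by
  rw [p2_cds hA hl]
  constructor
  · intro h c hc y hy hyb
    exact (el_sub u (A.sub.pair (A.sub.j c) ⟨y, hy⟩)).trans (h c hc ⟨y, hy⟩ hyb)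
  · intro h c hc y hyb
    exact (el_sub u (A.sub.pair (A.sub.j c) y)).symm.trans (h c hc y y.2 hyb)

private theorem p2_not_lt_zero {α : Type} {A : Str J α} {I : Cut} (hA : IsK A I) (y : α) :
    ¬ A.lt y A.zero := by
  intro h
  rcases hA.zero_le y with h1 | h1
  · exact hA.irrefl _ (hA.trans h h1)
  · rw [← h1] at h
    exact hA.irrefl _ h

private theorem p2_app_con {α : Type} {A : Str J α} {k : J} {L q q' D : α}
    (h1 : ∀ t m, Con A (A.fst q') (A.fst (A.snd q')) (A.fst (A.snd (A.snd q'))) t m)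
    (h2 : ∀ t m, Con A (A.fst (A.snd (A.snd (A.snd q'))))
      (A.fst (A.snd (A.snd (A.snd (A.snd q'))))) (A.snd (A.snd (A.snd (A.snd (A.snd q'))))) t m)
    (h : App A k L q D) : App A k L q' D := by
  intro x
  obtain ⟨w, hw1, hw2⟩ := h x
  exact ⟨w, hw1, fun m hm => ⟨(hw2 m hm).1, (hw2 m hm).2.1, h1 _ _, h2 _ _⟩⟩

/-- `psi`: in a structure of length `I`, for `b ∈ A`, there are approximations with the constraint
`(l1, u, b)` if `u` codes the satisfaction relation for codes `≤ l1` below `b` -/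
def psi (A : PS Ω) (l l1 d : J) : Prop :=
  ∀ b ∈ A.U, ∀ u ∈ A.U, (∀ c ≤ l1, ∀ y ∈ A.U, A.lt y b → (A.el u (A.pair (A.j c) y) ↔ A.S c y)) →
    A.app l (A.qq (A.j l1) u b A.zero A.zero A.zero) (A.j d)

/-- `psi` in terms of `Psi` -/
theorem psi_iff {A : PS Ω} {I : Cut} (hA : IsK A.sub I) {l l1 : J} (hl : l ∈ I.s)
    (hl1 : l1 ∈ I.s) (d : J) :
    A.psi l l1 d ↔ Psi A.sub (c5 l) (c5 l1) (A.sub.j l) (A.sub.j l1) (A.sub.j d) := by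
  constructor
  · intro h b u hu
    exact (app_iff hA hl (qmk1 A.sub (A.sub.j l1) u b) (A.sub.j d)).1
      (h b b.2 u u.2 ((p2_cdsU hA hl1 u b).1 hu))
  · intro h b hb u hu hc
    exact (app_iff hA hl (qmk1 A.sub (A.sub.j l1) ⟨u, hu⟩ ⟨b, hb⟩) (A.sub.j d)).2
      (h ⟨b, hb⟩ ⟨u, hu⟩ ((p2_cdsU hA hl1 ⟨u, hu⟩ ⟨b, hb⟩).2 hc))

theorem psi_full {A : PS Ω} {I : Cut} (hA : IsK A.sub I) {l l1 d : J} (hl : l ∈ I.s)
    (hl1 : l1 ∈ I.s) (hd : d ∈ I.s) : A.psi l l1 d :=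
  (psi_iff hA hl hl1 d).2 (KSq.psi_full hA hl hl1 hd)

/-- the relation `Psi` with the argument `⟨l, ⟨l1, d⟩⟩` -/
private def p2R (C α : Type) (A : Str C α) (ρ : ℕ → C) (x : α) : Prop :=
  Psi A (ρ 0) (ρ 1) (A.fst x) (A.fst (A.snd x)) (A.snd (A.snd x))

private theorem p2_udR : UD (fun C α A ρ e => p2R C α A ρ (e 0)) :=
  UD.Psi (TD.fst (TD.var 0)) (TD.fst (TD.snd (TD.var 0))) (TD.snd (TD.snd (TD.var 0))) 0 1

private noncomputable def p2rho (l l1 : J) : ℕ → J := fun k => if k = 0 then c5 l else c5 l1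

private theorem p2rho_mem (I : Cut) {l l1 : J} (hl : l ∈ I.s) (hl1 : l1 ∈ I.s) (k : ℕ) :
    p2rho l l1 k ∈ I.s := by
  unfold p2rho
  split_ifs
  · exact c5_mem I hl
  · exact c5_mem I hl1

/-- `psi` has a code, in every cut which contains `l` and `l1` -/
theorem psi_code (l l1 : J) : ∃ c : J, (∀ I : Cut, l ∈ I.s → l1 ∈ I.s → c ∈ I.s) ∧
    ∀ (A : PS Ω) (I : Cut), IsK A.sub I → l ∈ I.s → l1 ∈ I.s → ∀ d : J,
      (A.S c (A.pair (A.j l) (A.pair (A.j l1) (A.j d))) ↔ A.psi l l1 d) := by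
  refine ⟨p2_udR.cd (p2rho l l1), fun I hl hl1 => UD.cd_mem _ I (p2rho_mem I hl hl1), ?_⟩
  intro A I hA hl hl1 d
  rw [psi_iff hA hl hl1]
  have h := cd_spec (R := p2R) p2_udR hA (p2rho_mem I hl hl1)
    (A.sub.pair (A.sub.j l) (A.sub.pair (A.sub.j l1) (A.sub.j d)))
  refine Iff.trans h ?_
  unfold p2R
  rw [hA.pairing.fst_pair, hA.pairing.snd_pair, hA.pairing.fst_pair, hA.pairing.snd_pair]
  exact Iff.rfl

/-- overspill for `psi` -/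
theorem psi_over {A : PS Ω} {I : Cut} (hA : IsK A.sub I) {l l1 : J} (hl : l ∈ I.s)
    (hl1 : l1 ∈ I.s) (K : Cut) {e0 : J} (he0 : e0 ∉ K.s) (h : ∀ d ∈ K.s, A.psi l l1 d) :
    ∃ d : J, d ∉ K.s ∧ A.psi l l1 d := by
  obtain ⟨d, hd, h2⟩ := hA.overspill
    (R := fun (C α : Type) (A : Str C α) (ρ : ℕ → C) (x : α) (e : ℕ → α) =>
      Psi A (ρ 0) (ρ 1) (e 0) (e 1) x)
    (UD.Psi (TD.var 1) (TD.var 2) (TD.var 0) 0 1) (p2rho_mem I hl hl1)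
    (fun k => if k = 0 then A.sub.j l else A.sub.j l1) K he0
    (fun d hd => (psi_iff hA hl hl1 d).1 (h d hd))
  exact ⟨d, hd, (psi_iff hA hl hl1 d).2 h2⟩

/-- approximations without constraints -/
theorem psi_zero {A : PS Ω} {I : Cut} (hA : IsK A.sub I) {l l1 d : J} (hl : l ∈ I.s)
    (h : A.psi l l1 d) : A.app l A.zero (A.j d) := by
  have hno : ∀ y : A.U, ¬ A.sub.lt y A.sub.zero := p2_not_lt_zero hA
  have h1 := h A.zero A.zero_mem A.zero A.zero_mem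
    (fun c _ y hy hy0 => absurd hy0 (hno ⟨y, hy⟩))
  have h2 := (app_iff hA hl (qmk1 A.sub (A.sub.j l1) A.sub.zero A.sub.zero) (A.sub.j d)).1 h1
  refine (app_iff hA hl A.sub.zero (A.sub.j d)).2 ?_
  have hf : A.sub.fst A.sub.zero = A.sub.zero := by
    conv_lhs => rw [← hA.pair_zero]
    exact hA.pairing.fst_pair _ _
  have hs : A.sub.snd A.sub.zero = A.sub.zero := by
    conv_lhs => rw [← hA.pair_zero]
    exact hA.pairing.snd_pair _ _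
  refine p2_app_con ?_ ?_ h2
  · intro t m c y _ hy
    rw [hs, hs, hf] at hy
    exact absurd hy (hno y)
  · intro t m c y _ hy
    rw [hs, hs, hs, hs, hs] at hy
    exact absurd hy (hno y)

/-- existence of codes for the satisfaction relation -/
theorem exists_cds {A : PS Ω} {I : Cut} (hA : IsK A.sub I) {l : J} (hl : l ∈ I.s) {b : Ω}
    (hb : b ∈ A.U) : ∃ u ∈ A.U, ∀ c ≤ l, ∀ y ∈ A.U, A.lt y b →
      (A.el u (A.pair (A.j c) y) ↔ A.S c y) := by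
  obtain ⟨u, hu⟩ := hA.compr
    (R := fun (C α : Type) (A : Str C α) (ρ : ℕ → C) (x : α) (_ : ℕ → α) => A.S (ρ 0) x)
    (UD.S 0 (TD.var 0)) (ρ := fun _ => c5 l) (fun _ => c5_mem I hl) (fun _ => A.sub.zero)
    (A.sub.add (A.sub.pair (A.sub.j l) ⟨b, hb⟩) A.sub.one)
  refine ⟨u, u.2, ?_⟩
  refine (p2_cdsU hA hl u ⟨b, hb⟩).1 ?_
  rw [p2_cds hA hl]
  intro c hc y hy
  have h1 : A.sub.le (A.sub.pair (A.sub.j c) y) (A.sub.pair (A.sub.j l) ⟨b, hb⟩) :=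
    hA.pair_mono ((p2_le_j hA).2 ⟨c, hc, rfl⟩) (Or.inl hy)
  rw [hu _ ((hA.lt_succ _ _).2 h1)]
  exact p2_c5 hA hl hc y

/-- adding a constraint and lowering the level -/
theorem app_add {A : PS Ω} {I : Cut} (hA : IsK A.sub I) {l l' l2 : J} (hl : l ∈ I.s)
    (h2 : l2 ≤ l) (hl' : l' ≤ l) {l1 u1 b1 u b D : Ω} (m1 : l1 ∈ A.U) (m2 : u1 ∈ A.U)
    (m3 : b1 ∈ A.U) (m4 : u ∈ A.U) (m5 : b ∈ A.U) (m6 : D ∈ A.U)
    (h : A.app l (A.qq l1 u1 b1 A.zero A.zero A.zero) D)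
    (hu : ∀ c ≤ l2, ∀ y ∈ A.U, A.lt y b → (A.el u (A.pair (A.j c) y) ↔ A.S c y)) :
    A.app l' (A.qq l1 u1 b1 (A.j l2) u b) D := by
  have hl2 : l2 ∈ I.s := I.down h2 hl
  have hl'' : l' ∈ I.s := I.down hl' hl
  have h3 := (app_iff hA hl (qmk1 A.sub ⟨l1, m1⟩ ⟨u1, m2⟩ ⟨b1, m3⟩) ⟨D, m6⟩).1 h
  have h4 := (p2_cdsU hA hl2 ⟨u, m4⟩ ⟨b, m5⟩).2 hu
  exact (app_iff hA hl'' (qmk A.sub ⟨l1, m1⟩ ⟨u1, m2⟩ ⟨b1, m3⟩ (A.sub.j l2) ⟨u, m4⟩ ⟨b, m5⟩)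
    ⟨D, m6⟩).2 (KSq.app_add hA hl h2 hl' h3 h4)

/-- only the pairs `⟨c, y⟩` with `c ≤ l1`, `y < b1` matter (first constraint) -/
theorem app_congr1 {A : PS Ω} {I : Cut} (hA : IsK A.sub I) {l l1 : J} (hl : l ∈ I.s)
    {u1 u1' b1 l2 u2 b2 D : Ω} (m1 : u1 ∈ A.U) (m1' : u1' ∈ A.U) (m3 : b1 ∈ A.U)
    (m4 : l2 ∈ A.U) (m5 : u2 ∈ A.U) (m6 : b2 ∈ A.U) (m7 : D ∈ A.U)
    (hu : ∀ c ≤ l1, ∀ y ∈ A.U, A.lt y b1 →
      (A.el u1 (A.pair (A.j c) y) ↔ A.el u1' (A.pair (A.j c) y)))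
    (h : A.app l (A.qq (A.j l1) u1 b1 l2 u2 b2) D) :
    A.app l (A.qq (A.j l1) u1' b1 l2 u2 b2) D := by
  have h1 := (app_iff hA hl (qmk A.sub (A.sub.j l1) ⟨u1, m1⟩ ⟨b1, m3⟩ ⟨l2, m4⟩ ⟨u2, m5⟩
    ⟨b2, m6⟩) ⟨D, m7⟩).1 h
  refine (app_iff hA hl (qmk A.sub (A.sub.j l1) ⟨u1', m1'⟩ ⟨b1, m3⟩ ⟨l2, m4⟩ ⟨u2, m5⟩
    ⟨b2, m6⟩) ⟨D, m7⟩).2 (KSq.app_congr1 ?_ h1 hA.pairing)
  intro c y hc hy
  obtain ⟨c', hc', rfl⟩ := (p2_le_j hA).1 hc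
  exact (el_sub ⟨u1, m1⟩ (A.sub.pair (A.sub.j c') y)).symm.trans
    ((hu c' hc' y y.2 hy).trans (el_sub ⟨u1', m1'⟩ (A.sub.pair (A.sub.j c') y)))

/-- only the pairs `⟨c, y⟩` with `c ≤ l2`, `y < b2` matter (second constraint) -/
theorem app_congr2 {A : PS Ω} {I : Cut} (hA : IsK A.sub I) {l l2 : J} (hl : l ∈ I.s)
    {l1 u1 b1 u2 u2' b2 D : Ω} (m1 : l1 ∈ A.U) (m2 : u1 ∈ A.U) (m3 : b1 ∈ A.U)
    (m5 : u2 ∈ A.U) (m5' : u2' ∈ A.U) (m6 : b2 ∈ A.U) (m7 : D ∈ A.U)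
    (hu : ∀ c ≤ l2, ∀ y ∈ A.U, A.lt y b2 →
      (A.el u2 (A.pair (A.j c) y) ↔ A.el u2' (A.pair (A.j c) y)))
    (h : A.app l (A.qq l1 u1 b1 (A.j l2) u2 b2) D) :
    A.app l (A.qq l1 u1 b1 (A.j l2) u2' b2) D := by
  have h1 := (app_iff hA hl (qmk A.sub ⟨l1, m1⟩ ⟨u1, m2⟩ ⟨b1, m3⟩ (A.sub.j l2) ⟨u2, m5⟩
    ⟨b2, m6⟩) ⟨D, m7⟩).1 h
  refine (app_iff hA hl (qmk A.sub ⟨l1, m1⟩ ⟨u1, m2⟩ ⟨b1, m3⟩ (A.sub.j l2) ⟨u2', m5'⟩
    ⟨b2, m6⟩) ⟨D, m7⟩).2 (KSq.app_congr2 ?_ h1 hA.pairing)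
  intro c y hc hy
  obtain ⟨c', hc', rfl⟩ := (p2_le_j hA).1 hc
  exact (el_sub ⟨u2, m5⟩ (A.sub.pair (A.sub.j c') y)).symm.trans
    ((hu c' hc' y y.2 hy).trans (el_sub ⟨u2', m5'⟩ (A.sub.pair (A.sub.j c') y)))

end PS

end Pool.Agent.Helper4.KSq
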