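import Pool.Agent.Helper4.KSq.PSFacts2

set_option autoImplicit false

/-!
# Facts about structures inside `Ω`, part 3
-/

namespace Pool.Agent.Helper4.KSq

open Filter Cod Cardinal

namespace PS

variable {Ω : Type}

theorem le_sub_iff (A : PS Ω) (x y : A.U) : A.le (x : Ω) (y : Ω) ↔ A.sub.le x y := by
  unfold Ar.le
  rw [Subtype.ext_iff]
  exact Iff.rfl

/-- `G1` in terms of `Grt1` -/
theorem G1_iff {A : PS Ω} {I : Cut} (hA : IsK A.sub I) {l : J} (hl : l ∈ I.s)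
    (l1 u1 d m b : A.U) :
    A.G1 l l1 u1 d m b ↔ Grt1 A.sub (c5 l) (A.sub.j l) l1 u1 d m b := by
  have happ : ∀ b : A.U, A.app l (A.qq l1 u1 b A.zero A.zero A.zero) d ↔
      App A.sub (c5 l) (A.sub.j l) (qmk1 A.sub l1 u1 b) d := fun b =>
    app_iff hA hl (qmk1 A.sub l1 u1 b) d
  unfold PS.G1 Grt1
  rw [le_sub_iff, happ b]
  refine and_congr Iff.rfl (and_congr Iff.rfl ⟨?_, ?_⟩)
  · intro h b' h1 h2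
    exact (le_sub_iff A _ _).1 (h b' b'.2 ((le_sub_iff A _ _).2 h1) ((happ b').2 h2))
  · intro h b' hb' h1 h2
    exact (le_sub_iff A ⟨b', hb'⟩ b).2 (h ⟨b', hb'⟩ ((le_sub_iff A ⟨b', hb'⟩ m).1 h1)
      ((happ ⟨b', hb'⟩).1 h2))

/-- `G2` in terms of `Grt2` -/
theorem G2_iff {A : PS Ω} {I : Cut} (hA : IsK A.sub I) {l : J} (hl : l ∈ I.s)
    (l1 u1 b1 l2 u2 d m b : A.U) :
    A.G2 l l1 u1 b1 l2 u2 d m b ↔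
      Grt2 A.sub (c5 l) (A.sub.j l) l1 u1 b1 l2 u2 d m b := by
  have happ : ∀ b : A.U, A.app l (A.qq l1 u1 b1 l2 u2 b) d ↔
      App A.sub (c5 l) (A.sub.j l) (qmk A.sub l1 u1 b1 l2 u2 b) d := fun b =>
    app_iff hA hl (qmk A.sub l1 u1 b1 l2 u2 b) d
  unfold PS.G2 Grt2
  rw [le_sub_iff, happ b]
  refine and_congr Iff.rfl (and_congr Iff.rfl ⟨?_, ?_⟩)
  · intro h b' h1 h2
    exact (le_sub_iff A _ _).1 (h b' b'.2 ((le_sub_iff A _ _).2 h1) ((happ b').2 h2))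
  · intro h b' hb' h1 h2
    exact (le_sub_iff A ⟨b', hb'⟩ b).2 (h ⟨b', hb'⟩ ((le_sub_iff A ⟨b', hb'⟩ m).1 h1)
      ((happ ⟨b', hb'⟩).1 h2))

/-- greatest element for the first constraint -/
theorem exists_G1 {A : PS Ω} {I : Cut} (hA : IsK A.sub I) {l : J} (hl : l ∈ I.s)
    {l1 u1 D m b0 : Ω} (m1 : l1 ∈ A.U) (m2 : u1 ∈ A.U) (m3 : D ∈ A.U) (m4 : m ∈ A.U)
    (m5 : b0 ∈ A.U) (h0 : A.le b0 m) (h : A.app l (A.qq l1 u1 b0 A.zero A.zero A.zero) D) :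
    ∃ b ∈ A.U, A.G1 l l1 u1 D m b := by
  have hud : UD (fun C α A ρ e => (fun (C α : Type) (A : Str C α) (ρ : ℕ → C) (b : α)
      (e : ℕ → α) => App A (ρ 0) (e 0) (qmk1 A (e 1) (e 2) b) (e 3)) C α A ρ (e 0)
      (fun n => e (n + 1))) :=
    UD.App (TD.var 1) (TD.qmk1 (TD.var 2) (TD.var 3) (TD.var 0)) (TD.var 4) 0
  have key := hA.greatest (R := fun (C α : Type) (A : Str C α) (ρ : ℕ → C) (b : α)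
      (e : ℕ → α) => App A (ρ 0) (e 0) (qmk1 A (e 1) (e 2) b) (e 3)) hud
    (ρ := fun _ => c5 l) (fun _ => c5_mem I hl)
    (cs (A.sub.j l) (cs ⟨l1, m1⟩ (cs ⟨u1, m2⟩ (fun _ => ⟨D, m3⟩)))) ⟨m, m4⟩
    ⟨⟨b0, m5⟩, (le_sub_iff A ⟨b0, m5⟩ ⟨m, m4⟩).1 h0,
      (app_iff hA hl (qmk1 A.sub ⟨l1, m1⟩ ⟨u1, m2⟩ ⟨b0, m5⟩) ⟨D, m3⟩).1 h⟩
  obtain ⟨b, hb1, hb2, hb3⟩ := key
  exact ⟨b, b.2, (G1_iff hA hl ⟨l1, m1⟩ ⟨u1, m2⟩ ⟨D, m3⟩ ⟨m, m4⟩ b).2 ⟨hb1, hb2, hb3⟩⟩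

/-- greatest element for the second constraint -/
theorem exists_G2 {A : PS Ω} {I : Cut} (hA : IsK A.sub I) {l : J} (hl : l ∈ I.s)
    {l1 u1 b1 l2 u2 D m b0 : Ω} (m1 : l1 ∈ A.U) (m2 : u1 ∈ A.U) (m2' : b1 ∈ A.U)
    (m1' : l2 ∈ A.U) (m2'' : u2 ∈ A.U) (m3 : D ∈ A.U) (m4 : m ∈ A.U)
    (m5 : b0 ∈ A.U) (h0 : A.le b0 m) (h : A.app l (A.qq l1 u1 b1 l2 u2 b0) D) :
    ∃ b ∈ A.U, A.G2 l l1 u1 b1 l2 u2 D m b := by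
  have hud : UD (fun C α A ρ e => (fun (C α : Type) (A : Str C α) (ρ : ℕ → C) (b : α)
      (e : ℕ → α) => App A (ρ 0) (e 0) (qmk A (e 1) (e 2) (e 3) (e 4) (e 5) b) (e 6)) C α A ρ
      (e 0) (fun n => e (n + 1))) :=
    UD.App (TD.var 1) (TD.qmk (TD.var 2) (TD.var 3) (TD.var 4) (TD.var 5) (TD.var 6) (TD.var 0))
      (TD.var 7) 0
  have key := hA.greatest (R := fun (C α : Type) (A : Str C α) (ρ : ℕ → C) (b : α)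
      (e : ℕ → α) => App A (ρ 0) (e 0) (qmk A (e 1) (e 2) (e 3) (e 4) (e 5) b) (e 6)) hud
    (ρ := fun _ => c5 l) (fun _ => c5_mem I hl)
    (cs (A.sub.j l) (cs ⟨l1, m1⟩ (cs ⟨u1, m2⟩ (cs ⟨b1, m2'⟩ (cs ⟨l2, m1'⟩ (cs ⟨u2, m2''⟩
      (fun _ => ⟨D, m3⟩))))))) ⟨m, m4⟩
    ⟨⟨b0, m5⟩, (le_sub_iff A ⟨b0, m5⟩ ⟨m, m4⟩).1 h0,
      (app_iff hA hl (qmk A.sub ⟨l1, m1⟩ ⟨u1, m2⟩ ⟨b1, m2'⟩ ⟨l2, m1'⟩ ⟨u2, m2''⟩ ⟨b0, m5⟩)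
        ⟨D, m3⟩).1 h⟩
  obtain ⟨b, hb1, hb2, hb3⟩ := key
  exact ⟨b, b.2, (G2_iff hA hl ⟨l1, m1⟩ ⟨u1, m2⟩ ⟨b1, m2'⟩ ⟨l2, m1'⟩ ⟨u2, m2''⟩ ⟨D, m3⟩
    ⟨m, m4⟩ b).2 ⟨hb1, hb2, hb3⟩⟩

/-- the relation `Grt1`, the argument is `⟨b, ⟨l, ⟨l1, ⟨u1, ⟨d, m⟩⟩⟩⟩⟩` -/
def g1R (C α : Type) (A : Str C α) (ρ : ℕ → C) (x : α) : Prop :=
  Grt1 A (ρ 0) (A.fst (A.snd x)) (A.fst (A.snd (A.snd x))) (A.fst (A.snd (A.snd (A.snd x))))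
    (A.fst (A.snd (A.snd (A.snd (A.snd x))))) (A.snd (A.snd (A.snd (A.snd (A.snd x)))))
    (A.fst x)

theorem udG1 : UD (fun C α A ρ e => g1R C α A ρ (e 0)) := by
  unfold g1R
  apply UD.Grt1 <;>
  repeat' first
    | exact TD.var _ | apply TD.fst | apply TD.snd

/-- the relation `Grt2`, the argument is `⟨b, ⟨l, ⟨l1, ⟨u1, ⟨b1, ⟨l2, ⟨u2, ⟨d, m⟩⟩⟩⟩⟩⟩⟩⟩` -/
def g2R (C α : Type) (A : Str C α) (ρ : ℕ → C) (x : α) : Prop :=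
  Grt2 A (ρ 0) (A.fst (A.snd x)) (A.fst (A.snd (A.snd x))) (A.fst (A.snd (A.snd (A.snd x))))
    (A.fst (A.snd (A.snd (A.snd (A.snd x)))))
    (A.fst (A.snd (A.snd (A.snd (A.snd (A.snd x))))))
    (A.fst (A.snd (A.snd (A.snd (A.snd (A.snd (A.snd x)))))))
    (A.fst (A.snd (A.snd (A.snd (A.snd (A.snd (A.snd (A.snd x))))))))
    (A.snd (A.snd (A.snd (A.snd (A.snd (A.snd (A.snd (A.snd x))))))))
    (A.fst x)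

theorem udG2 : UD (fun C α A ρ e => g2R C α A ρ (e 0)) := by
  unfold g2R
  apply UD.Grt2 <;>
  repeat' first
    | exact TD.var _ | apply TD.fst | apply TD.snd

/-- `G1` has a code -/
theorem G1_code (l : J) : ∃ c : J, (∀ I : Cut, l ∈ I.s → c ∈ I.s) ∧
    ∀ (A : PS Ω) (I : Cut), IsK A.sub I → l ∈ I.s → ∀ l1 ∈ A.U, ∀ u1 ∈ A.U, ∀ d ∈ A.U, ∀ m ∈ A.U,
      ∀ b ∈ A.U, (A.S c (A.pair b (A.pair (A.j l) (A.pair l1 (A.pair u1 (A.pair d m))))) ↔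
        A.G1 l l1 u1 d m b) := by
  refine ⟨udG1.cd (fun _ => c5 l), fun I hl => UD.cd_mem _ I (fun _ => c5_mem I hl), ?_⟩
  intro A I hA hl l1 m1 u1 m2 d m3 m m4 b m5
  rw [G1_iff hA hl ⟨l1, m1⟩ ⟨u1, m2⟩ ⟨d, m3⟩ ⟨m, m4⟩ ⟨b, m5⟩]
  have h := PS.cd_spec (R := g1R) udG1 hA (fun _ => c5_mem I hl)
    (A.sub.pair ⟨b, m5⟩ (A.sub.pair (A.sub.j l) (A.sub.pair ⟨l1, m1⟩ (A.sub.pair ⟨u1, m2⟩
      (A.sub.pair ⟨d, m3⟩ ⟨m, m4⟩)))))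
  refine h.trans ?_
  simp only [g1R, hA.pairing.fst_pair, hA.pairing.snd_pair]

/-- `G2` has a code -/
theorem G2_code (l : J) : ∃ c : J, (∀ I : Cut, l ∈ I.s → c ∈ I.s) ∧
    ∀ (A : PS Ω) (I : Cut), IsK A.sub I → l ∈ I.s → ∀ l1 ∈ A.U, ∀ u1 ∈ A.U, ∀ b1 ∈ A.U,
      ∀ l2 ∈ A.U, ∀ u2 ∈ A.U, ∀ d ∈ A.U, ∀ m ∈ A.U, ∀ b ∈ A.U,
      (A.S c (A.pair b (A.pair (A.j l) (A.pair l1 (A.pair u1 (A.pair b1 (A.pair l2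
        (A.pair u2 (A.pair d m)))))))) ↔ A.G2 l l1 u1 b1 l2 u2 d m b) := by
  refine ⟨udG2.cd (fun _ => c5 l), fun I hl => UD.cd_mem _ I (fun _ => c5_mem I hl), ?_⟩
  intro A I hA hl l1 m1 u1 m2 b1 m2' l2 m1' u2 m2'' d m3 m m4 b m5
  rw [G2_iff hA hl ⟨l1, m1⟩ ⟨u1, m2⟩ ⟨b1, m2'⟩ ⟨l2, m1'⟩ ⟨u2, m2''⟩ ⟨d, m3⟩ ⟨m, m4⟩ ⟨b, m5⟩]
  have h := PS.cd_spec (R := g2R) udG2 hA (fun _ => c5_mem I hl)
    (A.sub.pair ⟨b, m5⟩ (A.sub.pair (A.sub.j l) (A.sub.pair ⟨l1, m1⟩ (A.sub.pair ⟨u1, m2⟩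
      (A.sub.pair ⟨b1, m2'⟩ (A.sub.pair ⟨l2, m1'⟩ (A.sub.pair ⟨u2, m2''⟩
        (A.sub.pair ⟨d, m3⟩ ⟨m, m4⟩))))))))
  refine h.trans ?_
  simp only [g2R, hA.pairing.fst_pair, hA.pairing.snd_pair]

/-- the relation `S(c, ⟨⟨y, p⟩, P⟩)`, the argument is `⟨y, ⟨p, P⟩⟩` -/
def asR (C α : Type) (A : Str C α) (ρ : ℕ → C) (x : α) : Prop :=
  A.S (ρ 0) (A.pair (A.pair (A.fst x) (A.fst (A.snd x))) (A.snd (A.snd x)))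

theorem udAs : UD (fun C α A ρ e => asR C α A ρ (e 0)) := by
  unfold asR
  repeat' first
    | exact TD.var _ | apply TD.fst | apply TD.snd | apply TD.pair | apply UD.S

/-- rearrangement of parameters: for every code `c` there is a code `c'`, in the same cuts, with
`S(c', ⟨y, ⟨p, P⟩⟩) ↔ S(c, ⟨⟨y, p⟩, P⟩)` -/
theorem assoc_code (c : J) : ∃ c' : J, (∀ I : Cut, c ∈ I.s → c' ∈ I.s) ∧
    ∀ (A : PS Ω) (I : Cut), IsK A.sub I → c ∈ I.s → ∀ y ∈ A.U, ∀ p ∈ A.U, ∀ P ∈ A.U,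
      (A.S c' (A.pair y (A.pair p P)) ↔ A.S c (A.pair (A.pair y p) P)) := by
  refine ⟨udAs.cd (fun _ => c), fun I hc => UD.cd_mem _ I (fun _ => hc), ?_⟩
  intro A I hA hc y my p mp P mP
  have h := PS.cd_spec (R := asR) udAs hA (fun _ => hc)
    (A.sub.pair ⟨y, my⟩ (A.sub.pair ⟨p, mp⟩ ⟨P, mP⟩))
  refine h.trans ?_
  simp only [asR, hA.pairing.fst_pair, hA.pairing.snd_pair]
  exact Iff.rfl

end PS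

end Pool.Agent.Helper4.KSq
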