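import Pool.Agent.Helper4.KSq.SN

set_option autoImplicit false

/-!
# The definable predicates of the construction

* `msP`: one step of the MacDowell-Specker construction,
* `Good`, `App`: approximations of the satisfaction relation,
* `Grt`: the greatest `b ≤ m` such that `App ..`.
-/

namespace Pool.Agent.Helper4.KSq

section MS

variable {C α : Type}

/-- `x` follows the pattern `w` below `i` (with respect to the predicates `S(g, ⟨x, p⟩)`) -/
def mtch (A : Str C α) (g : C) (w i x : α) : Prop :=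
  ∀ p, A.lt p i → (A.S g (A.pair x p) ↔ A.E w p)

/-- `w` codes below `i` the leftmost persistent pattern for the set `{x | S(a, x)}` -/
def lmp (A : Str C α) (a g : C) (w i : α) : Prop :=
  ∀ p, A.lt p i → (A.E w p ↔
    ¬ ∀ y, ∃ x, A.lt y x ∧ A.S a x ∧ mtch A g w p x ∧ ¬ A.S g (A.pair x p))

/-- the next set of the MacDowell-Specker construction: the elements `x_i`, where `x_i` is the least
`x ≥ i` in `{x | S(a, x)}` which follows the leftmost persistent pattern below `i` -/
def msP (A : Str C α) (a g : C) (x : α) : Prop :=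
  A.S a x ∧ ∃ i w, lmp A a g w i ∧ A.le i x ∧ mtch A g w i x ∧
    ∀ x', A.lt x' x → ¬ (A.S a x' ∧ A.le i x' ∧ mtch A g w i x')

end MS

theorem UD.mtch {w i x : Tr} (hw : TD w) (hi : TD i) (hx : TD x) (k : ℕ) :
    UD (fun C α A ρ e => mtch A (ρ k) (w C α A ρ e) (i C α A ρ e) (x C α A ρ e)) := by
  unfold KSq.mtch
  repeat' first
    | exact TD.var _ | exact TD.zero | exact TD.one | exact TD.nm _ | assumption
    | apply TD.fst | apply TD.snd | apply TD.pair | apply TD.add | apply TD.mul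
    | apply TD.ren hw | apply TD.ren hi | apply TD.ren hx
    | apply UD.S | apply UD.E | apply UD.lt | apply UD.le | apply UD.eq
    | apply UD.not | apply UD.and | apply UD.or | apply UD.iff | apply UD.all | apply UD.ex
    | apply UD.imp

theorem UD.lmp {w i : Tr} (hw : TD w) (hi : TD i) (k l : ℕ) :
    UD (fun C α A ρ e => lmp A (ρ k) (ρ l) (w C α A ρ e) (i C α A ρ e)) := by
  unfold KSq.lmp
  repeat' first
    | exact TD.var _ | exact TD.zero | exact TD.one | exact TD.nm _ | assumption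
    | apply TD.fst | apply TD.snd | apply TD.pair | apply TD.add | apply TD.mul
    | apply TD.ren hw | apply TD.ren hi
    | apply UD.mtch
    | apply UD.S | apply UD.E | apply UD.lt | apply UD.le | apply UD.eq
    | apply UD.not | apply UD.and | apply UD.or | apply UD.iff | apply UD.all | apply UD.ex
    | apply UD.imp

theorem UD.msP {x : Tr} (hx : TD x) (k l : ℕ) :
    UD (fun C α A ρ e => msP A (ρ k) (ρ l) (x C α A ρ e)) := by
  unfold KSq.msP
  repeat' first
    | exact TD.var _ | exact TD.zero | exact TD.one | exact TD.nm _ | assumption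
    | apply TD.fst | apply TD.snd | apply TD.pair | apply TD.add | apply TD.mul
    | apply TD.ren hx
    | apply UD.mtch | apply UD.lmp
    | apply UD.S | apply UD.E | apply UD.lt | apply UD.le | apply UD.eq
    | apply UD.not | apply UD.and | apply UD.or | apply UD.iff | apply UD.all | apply UD.ex
    | apply UD.imp

section App

variable {C α : Type}

/-- the set of pairs coded by `t` -/
abbrev Tc (A : Str C α) (t c y : α) : Prop := A.E t (A.pair c y)

/-- `y'` is a sufficiently large threshold after `y`: it bounds sums, products and pairs, codes of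
all subsets of `[0, y]` and witnesses for the existential codes `≤ d` -/
def Nxt (A : Str C α) (d t y y' : α) : Prop :=
  A.lt y y' ∧
  (∀ a b, A.le a y → A.le b y → A.le (A.add a b) y' ∧ A.le (A.mul a b) y' ∧
    A.le (A.pair a b) y') ∧
  (∀ u, ∃ u', A.le u' y' ∧ ∀ z, A.le z y → (A.E u z ↔ A.E u' z)) ∧
  (∀ c z, A.le (A.ice c) d → A.le z y → Tc A t (A.ice c) z →
    ∃ v, A.le v y' ∧ Tc A t c (A.pair v z))

/-- `y` is the `i`-th element of the sequence coded by `s` (the least `y` such that the pair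
`⟨i, y⟩` belongs to the set coded by `s`) -/
def Es (A : Str C α) (s i y : α) : Prop :=
  A.E s (A.pair i y) ∧ ∀ y', A.lt y' y → ¬ A.E s (A.pair i y')

/-- `s` codes a sequence of thresholds of length `n + 1` with first element `≥ x` -/
def Thr (A : Str C α) (d t s x n : α) : Prop :=
  (∀ i, A.le i n → ∃ y, Es A s i y) ∧
  (∀ i y y', Es A s i y → Es A s i y' → y = y') ∧
  (∀ y, Es A s A.zero y → A.le x y) ∧
  (∀ i y y', A.lt i n → Es A s i y → Es A s (A.add i A.one) y' → Nxt A d t y y')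

/-- `t` satisfies Tarski's clauses for the codes `≤ d` and the arguments `≤ m` -/
def TarT (A : Str C α) (d t m : α) : Prop :=
  (∀ y, A.le y m → A.le (A.icb 0) d → (Tc A t (A.icb 0) y ↔ A.base 0 y)) ∧
  (∀ y, A.le y m → A.le (A.icb 1) d → (Tc A t (A.icb 1) y ↔ A.base 1 y)) ∧
  (∀ y, A.le y m → A.le (A.icb 2) d → (Tc A t (A.icb 2) y ↔ A.base 2 y)) ∧
  (∀ y, A.le y m → A.le (A.icb 3) d → (Tc A t (A.icb 3) y ↔ A.base 3 y)) ∧
  (∀ y, A.le y m → A.le (A.icb 4) d → (Tc A t (A.icb 4) y ↔ A.base 4 y)) ∧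
  (∀ y, A.le y m → A.le (A.icb 5) d → (Tc A t (A.icb 5) y ↔ A.base 5 y)) ∧
  (∀ y, A.le y m → A.le (A.icb 6) d → (Tc A t (A.icb 6) y ↔ A.base 6 y)) ∧
  (∀ c y, A.le (A.icn c) d → A.le y m → (Tc A t (A.icn c) y ↔ ¬ Tc A t c y)) ∧
  (∀ c c' y, A.le (A.ica c c') d → A.le y m →
    (Tc A t (A.ica c c') y ↔ Tc A t c y ∧ Tc A t c' y)) ∧
  (∀ c z y, A.le (A.ice c) d → A.le (A.pair z y) m → Tc A t c (A.pair z y) →
    Tc A t (A.ice c) y) ∧
  (∀ c y, A.le (A.icf 0 c) d → A.le y m → A.le (A.fn 0 y) m →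
    (Tc A t (A.icf 0 c) y ↔ Tc A t c (A.fn 0 y))) ∧
  (∀ c y, A.le (A.icf 1 c) d → A.le y m → A.le (A.fn 1 y) m →
    (Tc A t (A.icf 1 c) y ↔ Tc A t c (A.fn 1 y))) ∧
  (∀ c y, A.le (A.icf 2 c) d → A.le y m → A.le (A.fn 2 y) m →
    (Tc A t (A.icf 2 c) y ↔ Tc A t c (A.fn 2 y))) ∧
  (∀ c y, A.le (A.icf 3 c) d → A.le y m → A.le (A.fn 3 y) m →
    (Tc A t (A.icf 3 c) y ↔ Tc A t c (A.fn 3 y))) ∧
  (∀ c y, A.le (A.icf 4 c) d → A.le y m → A.le (A.fn 4 y) m →
    (Tc A t (A.icf 4 c) y ↔ Tc A t c (A.fn 4 y))) ∧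
  (∀ c y, A.le (A.icf 5 c) d → A.le y m → A.le (A.fn 5 y) m →
    (Tc A t (A.icf 5 c) y ↔ Tc A t c (A.fn 5 y))) ∧
  (∀ c y, A.le (A.icf 6 c) d → A.le y m → A.le (A.fn 6 y) m →
    (Tc A t (A.icf 6 c) y ↔ Tc A t c (A.fn 6 y))) ∧
  (∀ f y, A.le (A.ic5 f) d → A.le y m →
    (Tc A t (A.ic5 f) y ↔ A.le (A.fst y) f ∧ Tc A t (A.fst y) (A.snd y)))

/-- `t` agrees with `S(k, ⟨c, y⟩)` for the codes `c ≤ l` and the arguments `y ≤ m` -/
def Cor (A : Str C α) (k : C) (l t m : α) : Prop :=
  ∀ c y, A.le c l → A.le y m → (Tc A t c y ↔ A.S k (A.pair c y))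

/-- `t` agrees with the set coded by `u` for the codes `c ≤ l` and the arguments `y < b` -/
def Con (A : Str C α) (l u b t m : α) : Prop :=
  ∀ c y, A.le c l → A.lt y b → A.le y m → (Tc A t c y ↔ A.E u (A.pair c y))

/-- `w = ⟨s, t⟩` is a good approximation at `x`.  Here `k` is the code of the satisfaction relation
for codes `≤ l`, `q = ⟨l₁, ⟨u₁, ⟨b₁, ⟨l₂, ⟨u₂, b₂⟩⟩⟩⟩⟩` is a pair of constraints and `d` bounds the
codes -/
def Good (A : Str C α) (k : C) (l q d x w : α) : Prop :=
  Thr A d (A.snd w) (A.fst w) x x ∧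
  ∀ m, Es A (A.fst w) x m → TarT A d (A.snd w) m ∧ Cor A k l (A.snd w) m ∧
    Con A (A.fst q) (A.fst (A.snd q)) (A.fst (A.snd (A.snd q))) (A.snd w) m ∧
    Con A (A.fst (A.snd (A.snd (A.snd q)))) (A.fst (A.snd (A.snd (A.snd (A.snd q)))))
      (A.snd (A.snd (A.snd (A.snd (A.snd q))))) (A.snd w) m

/-- there are approximations everywhere -/
def App (A : Str C α) (k : C) (l q d : α) : Prop := ∀ x, ∃ w, Good A k l q d x w

end App

theorem TD.ice {t : Tr} (ht : TD t) : TD (fun C α A ρ e => A.ice (t C α A ρ e)) :=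
  TD.pair (TD.nm 3) ht
theorem TD.icn {t : Tr} (ht : TD t) : TD (fun C α A ρ e => A.icn (t C α A ρ e)) :=
  TD.pair (TD.nm 1) ht
theorem TD.ica {t u : Tr} (ht : TD t) (hu : TD u) :
    TD (fun C α A ρ e => A.ica (t C α A ρ e) (u C α A ρ e)) :=
  TD.pair (TD.nm 2) (TD.pair ht hu)
theorem TD.icf (k : ℕ) {t : Tr} (ht : TD t) : TD (fun C α A ρ e => A.icf k (t C α A ρ e)) :=
  TD.pair (TD.nm 4) (TD.pair (TD.nm k) ht)
theorem TD.ic5 {t : Tr} (ht : TD t) : TD (fun C α A ρ e => A.ic5 (t C α A ρ e)) :=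
  TD.pair (TD.nm 5) ht
theorem TD.icb (k : ℕ) : TD (fun C α A ρ e => A.icb k) :=
  TD.pair (TD.nm 0) (TD.nm k)

theorem UD.Nxt {d t y y' : Tr} (hd : TD d) (ht : TD t) (hy : TD y) (hy' : TD y') :
    UD (fun C α A ρ e => Nxt A (d C α A ρ e) (t C α A ρ e) (y C α A ρ e) (y' C α A ρ e)) := by
  unfold KSq.Nxt Tc
  repeat' first
    | exact TD.var _ | exact TD.zero | exact TD.one | exact TD.nm _ | assumption
    | apply TD.fst | apply TD.snd | apply TD.pair | apply TD.add | apply TD.mul | apply TD.ice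
    | apply TD.ren hd | apply TD.ren ht | apply TD.ren hy | apply TD.ren hy'
    | apply UD.S | apply UD.E | apply UD.lt | apply UD.le | apply UD.eq
    | apply UD.not | apply UD.and | apply UD.or | apply UD.iff | apply UD.all | apply UD.ex
    | apply UD.imp

theorem UD.Es {s i y : Tr} (hs : TD s) (hi : TD i) (hy : TD y) :
    UD (fun C α A ρ e => Es A (s C α A ρ e) (i C α A ρ e) (y C α A ρ e)) := by
  unfold KSq.Es
  repeat' first
    | exact TD.var _ | exact TD.zero | exact TD.one | exact TD.nm _ | assumption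
    | apply TD.ren hs | apply TD.ren hi | apply TD.ren hy
    | apply TD.pair
    | apply UD.S | apply UD.E | apply UD.lt | apply UD.le | apply UD.eq
    | apply UD.not | apply UD.and | apply UD.or | apply UD.iff | apply UD.all | apply UD.ex
    | apply UD.imp

theorem UD.Thr {d t s x n : Tr} (hd : TD d) (ht : TD t) (hs : TD s) (hx : TD x) (hn : TD n) :
    UD (fun C α A ρ e => Thr A (d C α A ρ e) (t C α A ρ e) (s C α A ρ e) (x C α A ρ e)
      (n C α A ρ e)) := by
  unfold KSq.Thr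
  repeat' first
    | exact TD.var _ | exact TD.zero | exact TD.one | exact TD.nm _ | assumption
    | apply TD.fst | apply TD.snd | apply TD.pair | apply TD.add | apply TD.mul | apply TD.ice
    | apply TD.ren hd | apply TD.ren ht | apply TD.ren hs | apply TD.ren hx | apply TD.ren hn
    | apply UD.Nxt | apply UD.Es
    | apply UD.S | apply UD.E | apply UD.lt | apply UD.le | apply UD.eq
    | apply UD.not | apply UD.and | apply UD.or | apply UD.iff | apply UD.all | apply UD.ex
    | apply UD.imp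

end Pool.Agent.Helper4.KSq
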