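import Pool.Agent.Helper4.KSq.Preds
import Pool.Agent.Helper4.KSq.KDefs

set_option autoImplicit false

/-!
# More definable predicates, translation of arithmetical formulas
-/

namespace Pool.Agent.Helper4.KSq

section

variable {C α : Type}

/-- a pair of constraints -/
def qmk (A : Str C α) (l1 u1 b1 l2 u2 b2 : α) : α :=
  A.pair l1 (A.pair u1 (A.pair b1 (A.pair l2 (A.pair u2 b2))))

/-- one constraint -/
def qmk1 (A : Str C α) (l1 u1 b1 : α) : α := qmk A l1 u1 b1 A.zero A.zero A.zero

/-- `w` is the least good approximation at `x` -/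
def LG (A : Str C α) (k : C) (l q d x w : α) : Prop :=
  Good A k l q d x w ∧ ∀ w', A.lt w' w → ¬ Good A k l q d x w'

/-- `b` is the greatest number `≤ m` such that there are approximations with the constraint
`(l1, u1, b)` -/
def Grt1 (A : Str C α) (k : C) (l l1 u1 d m b : α) : Prop :=
  A.le b m ∧ App A k l (qmk1 A l1 u1 b) d ∧
    ∀ b', A.le b' m → App A k l (qmk1 A l1 u1 b') d → A.le b' b

/-- `b` is the greatest number `≤ m` such that there are approximations with the constraints
`(l1, u1, b1)` and `(l2, u2, b)` -/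
def Grt2 (A : Str C α) (k : C) (l l1 u1 b1 l2 u2 d m b : α) : Prop :=
  A.le b m ∧ App A k l (qmk A l1 u1 b1 l2 u2 b) d ∧
    ∀ b', A.le b' m → App A k l (qmk A l1 u1 b1 l2 u2 b') d → A.le b' b

/-- `u` codes the satisfaction relation (with code `k`, for codes `≤ l`) below `b` -/
def Cds (A : Str C α) (k : C) (l u b : α) : Prop :=
  ∀ c y, A.le c l → A.lt y b → (A.E u (A.pair c y) ↔ A.S k (A.pair c y))

/-- for all `b`, there are approximations (for the level `l`) with the constraint given by the
satisfaction relation for codes `≤ l1` below `b` -/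
def Psi (A : Str C α) (k k1 : C) (l l1 d : α) : Prop :=
  ∀ b u, Cds A k1 l1 u b → App A k l (qmk1 A l1 u b) d

/-- decision: the predicate `S(g, ⟨x, p⟩)` holds for almost all `x` in the set `{x | S(a, x)}` -/
def Dec (A : Str C α) (a g : C) (p : α) : Prop :=
  ∃ b, ∀ x, A.lt b x → A.S a x → A.S g (A.pair x p)

end

theorem UD.Good {l q d x w : Tr} (hl : TD l) (hq : TD q) (hd : TD d) (hx : TD x) (hw : TD w)
    (k : ℕ) :
    UD (fun C α A ρ e => Good A (ρ k) (l C α A ρ e) (q C α A ρ e) (d C α A ρ e) (x C α A ρ e)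
      (w C α A ρ e)) := by
  unfold KSq.Good KSq.TarT KSq.Cor KSq.Con Tc Ar.base Ar.fn
  repeat' first
    | exact TD.var _ | exact TD.zero | exact TD.one | exact TD.nm _ | assumption
    | apply TD.ren hd | apply TD.ren hq | apply TD.ren hl | apply TD.ren hx | apply TD.ren hw
    | apply TD.fst | apply TD.snd | apply TD.pair | apply TD.add | apply TD.mul | apply TD.ice
    | apply TD.icn | apply TD.ica | apply TD.icf | apply TD.ic5 | apply TD.icb
    | apply UD.Thr | apply UD.Es
    | apply UD.S | apply UD.E | apply UD.lt | apply UD.le | apply UD.eq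
    | apply UD.not | apply UD.and | apply UD.or | apply UD.iff | apply UD.all | apply UD.ex
    | apply UD.imp

theorem UD.App {l q d : Tr} (hl : TD l) (hq : TD q) (hd : TD d) (k : ℕ) :
    UD (fun C α A ρ e => App A (ρ k) (l C α A ρ e) (q C α A ρ e) (d C α A ρ e)) := by
  unfold KSq.App
  repeat' first
    | exact TD.var _ | exact TD.zero | exact TD.one | exact TD.nm _ | assumption
    | apply TD.ren hd | apply TD.ren hq | apply TD.ren hl
    | apply UD.Good
    | apply UD.all | apply UD.ex

theorem TD.qmk {a b c d f g : Tr} (ha : TD a) (hb : TD b) (hc : TD c) (hd : TD d) (hf : TD f)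
    (hg : TD g) :
    TD (fun C α A ρ e => qmk A (a C α A ρ e) (b C α A ρ e) (c C α A ρ e) (d C α A ρ e)
      (f C α A ρ e) (g C α A ρ e)) :=
  TD.pair ha (TD.pair hb (TD.pair hc (TD.pair hd (TD.pair hf hg))))

theorem TD.qmk1 {a b c : Tr} (ha : TD a) (hb : TD b) (hc : TD c) :
    TD (fun C α A ρ e => qmk1 A (a C α A ρ e) (b C α A ρ e) (c C α A ρ e)) :=
  TD.qmk ha hb hc TD.zero TD.zero TD.zero

theorem UD.LG {l q d x w : Tr} (hl : TD l) (hq : TD q) (hd : TD d) (hx : TD x) (hw : TD w)
    (k : ℕ) :
    UD (fun C α A ρ e => LG A (ρ k) (l C α A ρ e) (q C α A ρ e) (d C α A ρ e) (x C α A ρ e)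
      (w C α A ρ e)) := by
  unfold KSq.LG
  repeat' first
    | exact TD.var _ | exact TD.zero | exact TD.one | exact TD.nm _ | assumption
    | apply TD.ren hd | apply TD.ren hq | apply TD.ren hl | apply TD.ren hx | apply TD.ren hw
    | apply UD.Good
    | apply UD.S | apply UD.E | apply UD.lt | apply UD.le | apply UD.eq
    | apply UD.not | apply UD.and | apply UD.or | apply UD.iff | apply UD.all | apply UD.ex
    | apply UD.imp

theorem UD.Grt1 {l a b d m y : Tr} (hl : TD l) (ha : TD a) (hb : TD b) (hd : TD d) (hm : TD m)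
    (hy : TD y) (k : ℕ) :
    UD (fun C α A ρ e => Grt1 A (ρ k) (l C α A ρ e) (a C α A ρ e) (b C α A ρ e) (d C α A ρ e)
      (m C α A ρ e) (y C α A ρ e)) := by
  unfold KSq.Grt1
  repeat' first
    | exact TD.var _ | exact TD.zero | exact TD.one | exact TD.nm _ | assumption
    | apply TD.ren hl | apply TD.ren ha | apply TD.ren hb | apply TD.ren hd | apply TD.ren hm
    | apply TD.ren hy | apply TD.qmk1
    | apply UD.App
    | apply UD.S | apply UD.E | apply UD.lt | apply UD.le | apply UD.eq
    | apply UD.not | apply UD.and | apply UD.or | apply UD.iff | apply UD.all | apply UD.ex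
    | apply UD.imp

theorem UD.Grt2 {l a b c f g d m y : Tr} (hl : TD l) (ha : TD a) (hb : TD b) (hc : TD c)
    (hf : TD f) (hg : TD g) (hd : TD d) (hm : TD m) (hy : TD y) (k : ℕ) :
    UD (fun C α A ρ e => Grt2 A (ρ k) (l C α A ρ e) (a C α A ρ e) (b C α A ρ e) (c C α A ρ e)
      (f C α A ρ e) (g C α A ρ e) (d C α A ρ e) (m C α A ρ e) (y C α A ρ e)) := by
  unfold KSq.Grt2
  repeat' first
    | exact TD.var _ | exact TD.zero | exact TD.one | exact TD.nm _ | assumption
    | apply TD.ren hl | apply TD.ren ha | apply TD.ren hb | apply TD.ren hc | apply TD.ren hf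
    | apply TD.ren hg | apply TD.ren hd | apply TD.ren hm | apply TD.ren hy | apply TD.qmk
    | apply UD.App
    | apply UD.S | apply UD.E | apply UD.lt | apply UD.le | apply UD.eq
    | apply UD.not | apply UD.and | apply UD.or | apply UD.iff | apply UD.all | apply UD.ex
    | apply UD.imp

theorem UD.Psi {l a d : Tr} (hl : TD l) (ha : TD a) (hd : TD d) (k k' : ℕ) :
    UD (fun C α A ρ e => Psi A (ρ k) (ρ k') (l C α A ρ e) (a C α A ρ e) (d C α A ρ e)) := by
  unfold KSq.Psi KSq.Cds
  repeat' first
    | exact TD.var _ | exact TD.zero | exact TD.one | exact TD.nm _ | assumption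
    | apply TD.ren hl | apply TD.ren ha | apply TD.ren hd
    | apply TD.qmk1 | apply TD.pair
    | apply UD.App
    | apply UD.S | apply UD.E | apply UD.lt | apply UD.le | apply UD.eq
    | apply UD.not | apply UD.and | apply UD.or | apply UD.iff | apply UD.all | apply UD.ex
    | apply UD.imp

theorem UD.Dec {p : Tr} (hp : TD p) (k k' : ℕ) :
    UD (fun C α A ρ e => Dec A (ρ k) (ρ k') (p C α A ρ e)) := by
  unfold KSq.Dec
  repeat' first
    | exact TD.var _ | exact TD.zero | exact TD.one | exact TD.nm _ | assumption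
    | apply TD.ren hp
    | apply TD.pair
    | apply UD.S | apply UD.E | apply UD.lt | apply UD.le | apply UD.eq
    | apply UD.not | apply UD.and | apply UD.or | apply UD.iff | apply UD.all | apply UD.ex
    | apply UD.imp

/-! ## Translation of arithmetical formulas -/

/-- `x_0` is the value of the term; the variable `v_k` is `x_{k+1}` -/
def Tm.fo : Tm → Fo
  | .var k => .eq 0 (k + 1)
  | .zero => .zero 0
  | .one => .one 0
  | .add t u => .ex (.ex (.and (t.fo.ren (fun i => if i = 0 then 1 else i + 2))
      (.and (u.fo.ren (fun i => if i = 0 then 0 else i + 2)) (.add 1 0 2))))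
  | .mul t u => .ex (.ex (.and (t.fo.ren (fun i => if i = 0 then 1 else i + 2))
      (.and (u.fo.ren (fun i => if i = 0 then 0 else i + 2)) (.mul 1 0 2))))

/-- the formula, with `x_k` for `v_k` -/
def Fm.fo : Fm → Fo
  | .eq t u => .ex (.and t.fo u.fo)
  | .lt t u => .ex (.ex (.and (t.fo.ren (fun i => if i = 0 then 1 else i + 1))
      (.and (u.fo.ren (fun i => if i = 0 then 0 else i + 1)) (.lt 1 0))))
  | .bot => .neg (.eq 0 0)
  | .imp φ ψ => .neg (.and φ.fo (.neg ψ.fo))
  | .all k φ => .neg (.ex (.neg (φ.fo.ren (fun i => if i = k then 0 else i + 1))))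

/-- the reduct to the language of arithmetic -/
def Ar.red {α : Type} (A : Ar α) : ArStr α where
  zero := A.zero
  one := A.one
  add := A.add
  mul := A.mul
  lt := A.lt

theorem Tm.sat_fo {C α : Type} (A : Str C α) (ρ : ℕ → C) (t : Tm) (x : α) (e : ℕ → α) :
    t.fo.sat A ρ (cs x e) ↔ x = t.val A.red e := by
  induction t generalizing x e with
  | var k => exact Iff.rfl
  | zero => exact Iff.rfl
  | one => exact Iff.rfl
  | add t u iht ihu =>
    simp only [Tm.fo, Fo.sat, Fo.sat_ren]
    have h1 : ∀ a b : α, (fun i => cs b (cs a (cs x e)) (if i = 0 then 1 else i + 2)) =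
        cs a e := by
      intro a b; funext i; cases i with
      | zero => rfl
      | succ i => simp [cs]
    have h2 : ∀ a b : α, (fun i => cs b (cs a (cs x e)) (if i = 0 then 0 else i + 2)) =
        cs b e := by
      intro a b; funext i; cases i with
      | zero => rfl
      | succ i => simp [cs]
    simp only [h1, h2, iht, ihu]
    constructor
    · rintro ⟨a, b, rfl, rfl, h⟩; exact h.symm
    · rintro rfl; exact ⟨_, _, rfl, rfl, rfl⟩
  | mul t u iht ihu =>
    simp only [Tm.fo, Fo.sat, Fo.sat_ren]
    have h1 : ∀ a b : α, (fun i => cs b (cs a (cs x e)) (if i = 0 then 1 else i + 2)) =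
        cs a e := by
      intro a b; funext i; cases i with
      | zero => rfl
      | succ i => simp [cs]
    have h2 : ∀ a b : α, (fun i => cs b (cs a (cs x e)) (if i = 0 then 0 else i + 2)) =
        cs b e := by
      intro a b; funext i; cases i with
      | zero => rfl
      | succ i => simp [cs]
    simp only [h1, h2, iht, ihu]
    constructor
    · rintro ⟨a, b, rfl, rfl, h⟩; exact h.symm
    · rintro rfl; exact ⟨_, _, rfl, rfl, rfl⟩

theorem Fm.sat_fo {C α : Type} (A : Str C α) (ρ : ℕ → C) (φ : Fm) (e : ℕ → α) :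
    φ.fo.sat A ρ e ↔ φ.Sat A.red e := by
  induction φ generalizing e with
  | eq t u =>
    simp only [Fm.fo, Fo.sat, Tm.sat_fo, Fm.Sat]
    constructor
    · rintro ⟨x, h1, h2⟩; rw [← h1, ← h2]
    · intro h; exact ⟨_, rfl, h⟩
  | lt t u =>
    simp only [Fm.fo, Fo.sat, Fo.sat_ren, Fm.Sat]
    have h1 : ∀ a b : α, (fun i => cs b (cs a e) (if i = 0 then 1 else i + 1)) = cs a e := by
      intro a b; funext i; cases i with
      | zero => rfl
      | succ i => simp [cs]
    have h2 : ∀ a b : α, (fun i => cs b (cs a e) (if i = 0 then 0 else i + 1)) = cs b e := by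
      intro a b; funext i; cases i with
      | zero => rfl
      | succ i => simp [cs]
    simp only [h1, h2, Tm.sat_fo]
    constructor
    · rintro ⟨a, b, rfl, rfl, h⟩; exact h
    · intro h; exact ⟨_, _, rfl, rfl, h⟩
  | bot => simp [Fm.fo, Fo.sat, Fm.Sat]
  | imp φ ψ ih1 ih2 => simp only [Fm.fo, Fo.sat, ih1, ih2, Fm.Sat]; tauto
  | all k φ ih =>
    simp only [Fm.fo, Fo.sat, Fo.sat_ren, ih, Fm.Sat, not_exists, not_not]
    refine forall_congr' fun x => ?_
    have : (fun i => cs x e (if i = k then 0 else i + 1)) = Function.update e k x := by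
      funext i
      by_cases h : i = k
      · subst h; simp [cs]
      · simp [h, cs]
    rw [this]

end Pool.Agent.Helper4.KSq
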