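import Pool.Agent.Helper4.KSq.Base

set_option autoImplicit false

/-!
# Codes represent formulas
-/

namespace Pool.Agent.Helper4.KSq

open Cod

/-- stack: `st n e z = ⟨e 0, ⟨e 1, ... ⟨e (n-1), z⟩⟩⟩` -/
def Ar.st {α : Type} (A : Ar α) : ℕ → (ℕ → α) → α → α
  | 0, _, z => z
  | n + 1, e, z => A.pair (e 0) (st A n (fun i => e (i + 1)) z)

section closed

variable {C : Type} [Cod C] {I : Set C}

theorem CClosed.cb (h : CClosed I) (k : ℕ) : (cb k : C) ∈ I := h.pr _ _ (h.num _) (h.num _)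
theorem CClosed.cn (h : CClosed I) {c : C} (hc : c ∈ I) : cn c ∈ I := h.pr _ _ (h.num _) hc
theorem CClosed.ca (h : CClosed I) {c d : C} (hc : c ∈ I) (hd : d ∈ I) : ca c d ∈ I :=
  h.pr _ _ (h.num _) (h.pr _ _ hc hd)
theorem CClosed.ce (h : CClosed I) {c : C} (hc : c ∈ I) : ce c ∈ I := h.pr _ _ (h.num _) hc
theorem CClosed.cf (h : CClosed I) (k : ℕ) {c : C} (hc : c ∈ I) : cf k c ∈ I :=
  h.pr _ _ (h.num _) (h.pr _ _ (h.num _) hc)
theorem CClosed.c5 (h : CClosed I) {c : C} (hc : c ∈ I) : c5 c ∈ I := h.pr _ _ (h.num _) hc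

theorem CClosed.cf_iter (h : CClosed I) (k i : ℕ) {c : C} (hc : c ∈ I) :
    (KSq.cf k)^[i] c ∈ I := by
  induction i generalizing c with
  | zero => exact hc
  | succ i ih => exact ih (h.cf k hc)

theorem CClosed.cp (h : CClosed I) (i : ℕ) {c : C} (hc : c ∈ I) : cp i c ∈ I :=
  h.cf _ (h.cf_iter _ _ (h.cf _ (h.cf_iter _ _ (h.cf _ hc))))

theorem CClosed.cp_iter (h : CClosed I) (k i : ℕ) {c : C} (hc : c ∈ I) :
    (KSq.cp k)^[i] c ∈ I := by
  induction i generalizing c with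
  | zero => exact hc
  | succ i ih => exact ih (h.cp k hc)

theorem CClosed.code (h : CClosed I) {ρ : ℕ → C} (hρ : ∀ k, ρ k ∈ I) (φ : Fo) : φ.code ρ ∈ I := by
  induction φ with
  | zero i => exact h.cp _ (h.cb _)
  | one i => exact h.cp _ (h.cb _)
  | add i j k => exact h.cp _ (h.cp _ (h.cp _ (h.cb _)))
  | mul i j k => exact h.cp _ (h.cp _ (h.cp _ (h.cb _)))
  | pair i j k => exact h.cp _ (h.cp _ (h.cp _ (h.cb _)))
  | lt i j => exact h.cp _ (h.cp _ (h.cb _))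
  | eq i j => exact h.cp _ (h.cp _ (h.cb _))
  | S k i => exact h.cp _ (h.cf _ (hρ _))
  | neg φ ih => exact h.cn ih
  | and φ ψ ih1 ih2 => exact h.ca ih1 ih2
  | ex φ ih => exact h.ce ih

theorem CClosed.code1 (h : CClosed I) {ρ : ℕ → C} (hρ : ∀ k, ρ k ∈ I) (φ : Fo) :
    φ.code1 ρ ∈ I := h.cf _ (h.cp_iter _ _ (h.code hρ φ))

end closed

section rep

variable {C α : Type} [LE C] [Cod C] {A : Str C α} {I : Set C}

theorem Str.Tarski.fn_iter (hT : A.Tarski I) (hI : CClosed I) {k : ℕ} (hk : k < 7) (i : ℕ) {c : C}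
    (hc : c ∈ I) (x : α) : A.S ((cf k)^[i] c) x ↔ A.S c ((A.fn k)^[i] x) := by
  induction i generalizing c x with
  | zero => rfl
  | succ i ih =>
    rw [Function.iterate_succ, Function.comp_apply, ih (hI.cf _ hc),
      hT.fn k hk c (hI.cf _ hc), ← Function.comp_apply (f := A.fn k), ← Function.iterate_succ']

/-- `cp i c` is the code of the substitution `x ↦ ⟨x_i, x⟩` -/
theorem Str.Tarski.cp (hT : A.Tarski I) (hP : A.Pairing) (hI : CClosed I) (i : ℕ) {c : C}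
    (hc : c ∈ I) (x : α) : A.S (cp i c) x ↔ A.S c (A.pair (A.pj i x) x) := by
  have h6 := hI.cf 6 hc
  have h5 := hI.cf_iter 5 i h6
  have h4 := hI.cf 4 h5
  have h3 := hI.cf_iter 3 i h4
  have h2 := hI.cf 2 h3
  unfold KSq.cp
  rw [hT.fn 2 (by norm_num) _ h2, hT.fn_iter hI (by norm_num) i h4, hT.fn 4 (by norm_num) _ h4,
    hT.fn_iter hI (by norm_num) i h6, hT.fn 6 (by norm_num) _ h6]
  -- the value of the composition
  have key : ∀ (i : ℕ) (L R z : α), (A.fn 5)^[i] (A.pair z ((A.fn 3)^[i] (A.pair L R))) =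
      A.pair z (A.pair L R) := by
    intro i
    induction i with
    | zero => intro L R z; rfl
    | succ i ih =>
      intro L R z
      rw [Function.iterate_succ' (f := A.fn 5), Function.comp_apply,
        Function.iterate_succ (f := A.fn 3), Function.comp_apply]
      have : A.fn 3 (A.pair L R) = A.pair (A.pair (A.fst R) L) (A.snd R) := by
        simp [Ar.fn, hP.fst_pair, hP.snd_pair]
      rw [this, ih]
      simp [Ar.fn, hP.fst_pair, hP.snd_pair, hP.eta]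
  have key2 : ∀ (i : ℕ) (L R : α), A.fst (A.snd ((A.fn 3)^[i] (A.pair L R))) = A.pj i R := by
    intro i
    induction i with
    | zero => intro L R; simp [Ar.pj, hP.snd_pair]
    | succ i ih =>
      intro L R
      rw [Function.iterate_succ (f := A.fn 3), Function.comp_apply]
      have : A.fn 3 (A.pair L R) = A.pair (A.pair (A.fst R) L) (A.snd R) := by
        simp [Ar.fn, hP.fst_pair, hP.snd_pair]
      rw [this, ih]; rfl
  have h : (A.fn 5)^[i] (A.fn 4 ((A.fn 3)^[i] (A.fn 2 x))) = A.pair (A.pj i x) (A.pair x x) := by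
    have : A.fn 4 ((A.fn 3)^[i] (A.fn 2 x)) = A.pair (A.pj i x) ((A.fn 3)^[i] (A.pair x x)) := by
      show A.pair (A.fst (A.snd ((A.fn 3)^[i] (A.pair x x)))) _ = _
      rw [key2]; rfl
    rw [this, key]
  rw [h]
  simp [Ar.fn, hP.fst_pair, hP.snd_pair]

theorem Ar.pj_st {A : Ar α} (hP : A.Pairing) {i n : ℕ} (h : i < n) (e : ℕ → α) (z : α) :
    A.pj i (A.st n e z) = e i := by
  induction n generalizing i e with
  | zero => omega
  | succ n ih =>
    cases i with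
    | zero => simp [Ar.pj, Ar.st, hP.fst_pair]
    | succ i =>
      show A.pj i (A.snd (A.pair _ _)) = _
      rw [hP.snd_pair, ih (by omega)]

/-- the representation lemma -/
theorem Str.Tarski.rep (hT : A.Tarski I) (hP : A.Pairing) (hI : CClosed I) {ρ : ℕ → C}
    (hρ : ∀ k, ρ k ∈ I) (φ : Fo) {n : ℕ} (hn : φ.bd ≤ n) (e : ℕ → α) (z : α) :
    A.S (φ.code ρ) (A.st n e z) ↔ φ.sat A ρ e := by
  induction φ generalizing n e with
  | zero i =>
    simp only [Fo.bd] at hn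
    rw [Fo.code, hT.cp hP hI i (hI.cb 5), Ar.pj_st hP (by omega), hT.base 5 (by norm_num) (hI.cb 5)]
    simp [Ar.base, hP.fst_pair, Fo.sat]
  | one i =>
    simp only [Fo.bd] at hn
    rw [Fo.code, hT.cp hP hI i (hI.cb 6), Ar.pj_st hP (by omega), hT.base 6 (by norm_num) (hI.cb 6)]
    simp [Ar.base, hP.fst_pair, Fo.sat]
  | add i j k =>
    simp only [Fo.bd, sup_le_iff] at hn
    rw [Fo.code, hT.cp hP hI k (hI.cp _ (hI.cp _ (hI.cb 0))), Ar.pj_st hP (by omega),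
      hT.cp hP hI (j + 1) (hI.cp _ (hI.cb 0))]
    simp only [Ar.pj, hP.snd_pair]
    rw [Ar.pj_st hP (by omega), hT.cp hP hI (i + 2) (hI.cb 0)]
    simp only [Ar.pj, hP.snd_pair]
    rw [Ar.pj_st hP (by omega), hT.base 0 (by norm_num) (hI.cb 0)]
    simp [Ar.base, hP.fst_pair, hP.snd_pair, Fo.sat]
  | mul i j k =>
    simp only [Fo.bd, sup_le_iff] at hn
    rw [Fo.code, hT.cp hP hI k (hI.cp _ (hI.cp _ (hI.cb 1))), Ar.pj_st hP (by omega),
      hT.cp hP hI (j + 1) (hI.cp _ (hI.cb 1))]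
    simp only [Ar.pj, hP.snd_pair]
    rw [Ar.pj_st hP (by omega), hT.cp hP hI (i + 2) (hI.cb 1)]
    simp only [Ar.pj, hP.snd_pair]
    rw [Ar.pj_st hP (by omega), hT.base 1 (by norm_num) (hI.cb 1)]
    simp [Ar.base, hP.fst_pair, hP.snd_pair, Fo.sat]
  | pair i j k =>
    simp only [Fo.bd, sup_le_iff] at hn
    rw [Fo.code, hT.cp hP hI k (hI.cp _ (hI.cp _ (hI.cb 3))), Ar.pj_st hP (by omega),
      hT.cp hP hI (j + 1) (hI.cp _ (hI.cb 3))]
    simp only [Ar.pj, hP.snd_pair]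
    rw [Ar.pj_st hP (by omega), hT.cp hP hI (i + 2) (hI.cb 3)]
    simp only [Ar.pj, hP.snd_pair]
    rw [Ar.pj_st hP (by omega), hT.base 3 (by norm_num) (hI.cb 3)]
    simp [Ar.base, hP.fst_pair, hP.snd_pair, Fo.sat]
  | lt i j =>
    simp only [Fo.bd, sup_le_iff] at hn
    rw [Fo.code, hT.cp hP hI j (hI.cp _ (hI.cb 2)), Ar.pj_st hP (by omega),
      hT.cp hP hI (i + 1) (hI.cb 2)]
    simp only [Ar.pj, hP.snd_pair]
    rw [Ar.pj_st hP (by omega), hT.base 2 (by norm_num) (hI.cb 2)]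
    simp [Ar.base, hP.fst_pair, hP.snd_pair, Fo.sat]
  | eq i j =>
    simp only [Fo.bd, sup_le_iff] at hn
    rw [Fo.code, hT.cp hP hI j (hI.cp _ (hI.cb 4)), Ar.pj_st hP (by omega),
      hT.cp hP hI (i + 1) (hI.cb 4)]
    simp only [Ar.pj, hP.snd_pair]
    rw [Ar.pj_st hP (by omega), hT.base 4 (by norm_num) (hI.cb 4)]
    simp [Ar.base, hP.fst_pair, hP.snd_pair, Fo.sat]
  | S k i =>
    simp only [Fo.bd] at hn
    rw [Fo.code, hT.cp hP hI i (hI.cf _ (hρ k)), Ar.pj_st hP (by omega),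
      hT.fn 0 (by norm_num) _ (hI.cf _ (hρ k))]
    simp [Ar.fn, hP.fst_pair, Fo.sat]
  | neg φ ih =>
    rw [Fo.code, hT.neg _ (hI.cn (hI.code hρ φ)), ih hn]; rfl
  | and φ ψ ih1 ih2 =>
    simp only [Fo.bd, sup_le_iff] at hn
    rw [Fo.code, hT.and _ _ (hI.ca (hI.code hρ φ) (hI.code hρ ψ)), ih1 hn.1, ih2 hn.2]; rfl
  | ex φ ih =>
    simp only [Fo.bd] at hn
    rw [Fo.code, hT.ex _ (hI.ce (hI.code hρ φ))]
    show (∃ z', A.S (φ.code ρ) (A.pair z' (A.st n e z))) ↔ ∃ x, φ.sat A ρ (cs x e)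
    refine exists_congr fun x => ?_
    have := ih (n := n + 1) (by omega) (cs x e)
    exact this

/-- representation of sets by codes -/
theorem Str.Tarski.rep1 (hT : A.Tarski I) (hP : A.Pairing) (hI : CClosed I) {ρ : ℕ → C}
    (hρ : ∀ k, ρ k ∈ I) (φ : Fo) (x : α) :
    A.S (φ.code1 ρ) x ↔ φ.sat A ρ (fun _ => x) := by
  have hc := hI.code hρ φ
  unfold Fo.code1
  rw [hT.fn 2 (by norm_num) _ (hI.cf _ (hI.cp_iter _ _ hc))]
  have key : ∀ (n m : ℕ) {c : C}, c ∈ I →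
      (A.S ((KSq.cp 0)^[n] c) (A.st (m + 1) (fun _ => x) x) ↔
        A.S c (A.st (n + (m + 1)) (fun _ => x) x)) := by
    intro n
    induction n with
    | zero => intro m c _; rw [Nat.zero_add]; rfl
    | succ n ih =>
      intro m c hc
      rw [Function.iterate_succ, Function.comp_apply, ih m (hI.cp 0 hc), hT.cp hP hI 0 hc]
      have : A.pj 0 (A.st (n + (m + 1)) (fun _ => x) x) = x := by
        rw [Ar.pj_st hP (by omega)]
      rw [this]
      have h2 : n + 1 + (m + 1) = (n + (m + 1)) + 1 := by omega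
      rw [h2]; rfl
  have h1 := key φ.bd 0 hc
  have h2 : A.st (0 + 1) (fun _ => x) x = A.fn 2 x := rfl
  rw [h2] at h1
  rw [h1]
  exact hT.rep hP hI hρ φ (by omega) _ _

end rep

end Pool.Agent.Helper4.KSq
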