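import Pool.Agent.Helper4.KSq.UD

set_option autoImplicit false

/-!
# The standard structure `NN` with its satisfaction relation
-/

namespace Pool.Agent.Helper4.KSq

/-- the natural numbers -/
def NAr : Ar ℕ where
  zero := 0
  one := 1
  add := (· + ·)
  mul := (· * ·)
  pair := Nat.pair
  fst x := x.unpair.1
  snd x := x.unpair.2
  lt := (· < ·)

/-- satisfaction relation of the natural numbers -/
def SN (c x : ℕ) : Prop :=
  if h0 : c.unpair.1 = 0 then NAr.base c.unpair.2 x
  else if h1 : c.unpair.1 = 1 then ¬ SN c.unpair.2 x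
  else if h2 : c.unpair.1 = 2 then SN c.unpair.2.unpair.1 x ∧ SN c.unpair.2.unpair.2 x
  else if h3 : c.unpair.1 = 3 then ∃ z, SN c.unpair.2 (Nat.pair z x)
  else if h4 : c.unpair.1 = 4 then
    c.unpair.2.unpair.1 < 7 ∧ SN c.unpair.2.unpair.2 (NAr.fn c.unpair.2.unpair.1 x)
  else if h5 : c.unpair.1 = 5 then
    ∃ h : x.unpair.1 ≤ c.unpair.2, SN x.unpair.1 x.unpair.2
  else False
termination_by c
decreasing_by
  all_goals
    have hc : 0 < c := by
      rcases Nat.eq_zero_or_pos c with rfl | h
      · simp at h0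
      · exact h
    have h12 : c.unpair.2 < c := by
      have := Nat.unpair_add_le c
      omega
    have h3' := Nat.unpair_left_le c.unpair.2
    have h4' := Nat.unpair_right_le c.unpair.2
    omega

/-- the standard structure -/
def NN : Str ℕ ℕ where
  toAr := NAr
  j n := n
  S := SN

theorem NN_pairing : NN.Pairing where
  fst_pair a b := by simp [NN, NAr]
  snd_pair a b := by simp [NN, NAr]
  eta a := by simp [NN, NAr]

theorem NN_tarski : NN.Tarski Set.univ where
  base k hk _ x := by
    show SN (Nat.pair 0 k) x ↔ _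
    rw [SN]; simp [NN]
  neg c _ x := by
    show SN (Nat.pair 1 c) x ↔ _
    rw [SN]; simp [NN]
  and c d _ x := by
    show SN (Nat.pair 2 (Nat.pair c d)) x ↔ _
    rw [SN]; simp [NN]
  ex c _ x := by
    show SN (Nat.pair 3 c) x ↔ _
    rw [SN]; simp [NN, NAr]
  fn k hk c _ x := by
    show SN (Nat.pair 4 (Nat.pair k c)) x ↔ _
    rw [SN]; simp [NN, hk]
  sat e _ x := by
    show SN (Nat.pair 5 e) x ↔ _
    rw [SN]; simp [NN, NAr]

end Pool.Agent.Helper4.KSq
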