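import Pool.Agent.Helper4.KSq.Levels
import Pool.Agent.Helper4.KSq.PSExt
import Pool.Agent.Helper4.KSq.IdxBuild

set_option autoImplicit false

/-!
# Existence of the setup
-/

namespace Pool.Agent.Helper4.KSq

open Filter Cod Cardinal

theorem exists_setup {κ : Cardinal.{0}} (hκ : κ.IsRegular) (hu : ℵ₀ < κ) (hsq : Square κ) :
    ∃ (Ω ι : Type) (_ : LinearOrder ι) (Z : Setup Ω ι), Z.κ = κ := by
  obtain ⟨V⟩ := exists_levels
  obtain ⟨D⟩ := exists_sqData hκ hu hsq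
  obtain ⟨ι, hι, X, hX⟩ := exists_idx hκ hu D
  have hΩ : #κ.out = κ := mk_out κ
  obtain ⟨P, hP1, hP2, hP3⟩ := exists_P0 (Ω := κ.out) (by rw [hΩ]; exact hu.le) (V.I 0)
  exact ⟨κ.out, ι, hι,
    { V := V, X := X, κ := κ, reg := hκ, unc := hu, cardΩ := hΩ, large := hX, P0 := P,
      P0_isK := hP1, P0_card := hP2, P0_U := hP3 }, rfl⟩

end Pool.Agent.Helper4.KSq
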