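import Pool.Agent.Helper4.KSq.Fodor

set_option autoImplicit false

/-!
# Splitting a square sequence
-/

namespace Pool.Agent.Helper4.KSq

open Cardinal Order Set

/-- the coherent sequence as a sequence on a well-order of type `κ`, together with the partition
into stationary sets -/
structure SqData (κ : Cardinal.{0}) where
  C : Ordinal.{0} → Set Ordinal.{0}
  club : ∀ a < κ.ord, IsSuccLimit a → IsClubIn (C a) a
  coh : ∀ a < κ.ord, IsSuccLimit a → ∀ b < a, IsAcc (C a) b → C b = C a ∩ Set.Iio b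
  h : Ordinal.{0} → ℕ
  h_coh : ∀ a < κ.ord, IsSuccLimit a → ∀ b < a, IsAcc (C a) b → h b = h a
  h_pos : ∀ a, 1 ≤ h a
  h_stat : ∀ n, 1 ≤ n → IsStat κ {a | IsSuccLimit a ∧ h a = n}

/-- an accumulation point is a limit -/
theorem sqd_acc_lim {C : Set Ordinal.{0}} {a : Ordinal.{0}} (h : IsAcc C a) : IsSuccLimit a := by
  refine ⟨?_, ?_⟩
  · intro hm
    have h1 : a ≤ 0 := hm zero_le
    exact absurd h.1 (not_lt.mpr h1)
  · intro b hb
    obtain ⟨c, _, h1, h2⟩ := h.2 b hb.1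
    exact hb.2 h1 h2

theorem sqd_acc_congr {C C' : Set Ordinal.{0}} {a b : Ordinal.{0}} (hab : a ≤ b)
    (h : ∀ c < b, c ∈ C → c ∈ C') (ha : IsAcc C a) : IsAcc C' a := by
  refine ⟨ha.1, fun d hd => ?_⟩
  obtain ⟨c, hc, h1, h2⟩ := ha.2 d hd
  exact ⟨c, h c (h2.trans_le hab) hc, h1, h2⟩

/-- the set `A` is invariant above `x` -/
def SqdInv (κ : Cardinal.{0}) (C : Ordinal.{0} → Set Ordinal.{0}) (A : Set Ordinal.{0})
    (x : Ordinal.{0}) : Prop :=
  ∀ a < κ.ord, IsSuccLimit a → ∀ b < a, x < b → IsAcc (C a) b → (b ∈ A ↔ a ∈ A)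

/-- an unbounded coherent system of members of the sequence gives a thread -/
theorem sqd_thread {κ : Cardinal.{0}} {C : Ordinal.{0} → Set Ordinal.{0}}
    (hC : ∀ a < κ.ord, IsSuccLimit a →
      IsClubIn (C a) a ∧ ∀ b < a, IsAcc (C a) b → C b = C a ∩ Set.Iio b)
    {S : Set Ordinal.{0}} (hS1 : ∀ a ∈ S, a < κ.ord ∧ IsSuccLimit a)
    (hS2 : ∀ a < κ.ord, ∃ b ∈ S, a < b)
    (hS3 : ∀ b ∈ S, ∀ b' ∈ S, b < b' → C b = C b' ∩ Set.Iio b) :
    ∃ D, IsClubIn D κ.ord ∧ ∀ b < κ.ord, IsAcc D b → C b = D ∩ Set.Iio b := by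
  have key : ∀ b ∈ S, ∀ c, c < b → ((∃ b' ∈ S, c ∈ C b') ↔ c ∈ C b) := by
    intro b hb c hc
    constructor
    · rintro ⟨b', hb', hc'⟩
      rcases lt_trichotomy b' b with h | h | h
      · rw [hS3 b' hb' b hb h] at hc'
        exact hc'.1
      · rw [← h]; exact hc'
      · rw [hS3 b hb b' hb' h]
        exact ⟨hc', hc⟩
    · intro h
      exact ⟨b, hb, h⟩
  refine ⟨{c | ∃ b ∈ S, c ∈ C b}, ⟨?_, ?_, ?_⟩, ?_⟩
  · rintro c ⟨b, hb, hc⟩
    have h1 := hS1 b hb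
    exact ((hC b h1.1 h1.2).1.1 hc).trans h1.1
  · intro d hd
    obtain ⟨b, hb, hdb⟩ := hS2 d hd
    have h1 := hS1 b hb
    obtain ⟨c, hc, hdc⟩ := (hC b h1.1 h1.2).1.2.1 d hdb
    exact ⟨c, ⟨b, hb, hc⟩, hdc⟩
  · intro d hd hacc
    obtain ⟨b, hb, hdb⟩ := hS2 d hd
    have h1 := hS1 b hb
    have h2 : IsAcc (C b) d :=
      sqd_acc_congr hdb.le (fun c hc hc' => (key b hb c hc).1 hc') hacc
    exact ⟨b, hb, (hC b h1.1 h1.2).1.2.2 d hdb h2⟩
  · intro d hd hacc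
    obtain ⟨b, hb, hdb⟩ := hS2 d hd
    have h1 := hS1 b hb
    have h2 : IsAcc (C b) d :=
      sqd_acc_congr hdb.le (fun c hc hc' => (key b hb c hc).1 hc') hacc
    rw [(hC b h1.1 h1.2).2 d hdb h2]
    ext c
    constructor
    · rintro ⟨h3, h4⟩
      exact ⟨⟨b, hb, h3⟩, h4⟩
    · rintro ⟨h3, h4⟩
      exact ⟨(key b hb c (lt_trans h4 hdb)).1 h3, h4⟩

/-- the least element of `C_b` which is at least `x` -/
noncomputable def sqdF (C : Ordinal.{0} → Set Ordinal.{0}) (x b : Ordinal.{0}) : Ordinal.{0} :=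
  sInf (C b ∩ Set.Ici x)

theorem sqdF_mem {C : Ordinal.{0} → Set Ordinal.{0}} {x b : Ordinal.{0}}
    (hb : IsClubIn (C b) b) (hx : x < b) : sqdF C x b ∈ C b ∩ Set.Ici x := by
  obtain ⟨c, hc, hxc⟩ := hb.2.1 x hx
  exact csInf_mem ⟨c, hc, hxc⟩

theorem sqdF_self {C : Ordinal.{0} → Set Ordinal.{0}} {c b : Ordinal.{0}}
    (hc : c ∈ C b) : sqdF C c b = c := by
  apply le_antisymm
  · exact csInf_le' ⟨hc, Set.mem_Ici.2 le_rfl⟩
  · exact le_csInf ⟨c, hc, Set.mem_Ici.2 le_rfl⟩ (fun d hd => hd.2)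

theorem sqdF_coh {C : Ordinal.{0} → Set Ordinal.{0}} {x b a : Ordinal.{0}}
    (hb : IsClubIn (C b) b) (hx : x < b) (h : C b = C a ∩ Set.Iio b) :
    sqdF C x b = sqdF C x a := by
  have h1 := sqdF_mem hb hx
  have h2 : sqdF C x b ∈ C a ∩ Set.Iio b := by rw [← h]; exact h1.1
  apply le_antisymm
  · have h3 : sqdF C x a ∈ C a ∩ Set.Ici x := csInf_mem ⟨_, h2.1, h1.2⟩
    have h4 : sqdF C x a ≤ sqdF C x b := csInf_le' ⟨h2.1, h1.2⟩
    have h5 : sqdF C x a ∈ C b := by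
      rw [h]
      exact ⟨h3.1, h4.trans_lt h2.2⟩
    exact csInf_le' ⟨h5, h3.2⟩
  · exact csInf_le' ⟨h2.1, h1.2⟩

/-- splitting an invariant stationary set into two such sets -/
theorem sqd_split {κ : Cardinal.{0}} (hκ : κ.IsRegular) (hu : ℵ₀ < κ)
    {C : Ordinal.{0} → Set Ordinal.{0}}
    (hC : ∀ a < κ.ord, IsSuccLimit a →
      IsClubIn (C a) a ∧ ∀ b < a, IsAcc (C a) b → C b = C a ∩ Set.Iio b)
    (hnt : ¬ ∃ D, IsClubIn D κ.ord ∧ ∀ b < κ.ord, IsAcc D b → C b = D ∩ Set.Iio b)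
    {A : Set Ordinal.{0}} {x0 : Ordinal.{0}} (hx0 : x0 < κ.ord) (hA : IsStat κ A)
    (hinv : SqdInv κ C A x0) :
    ∃ x, x0 ≤ x ∧ x < κ.ord ∧ ∃ A' ⊆ A, IsStat κ A' ∧ IsStat κ (A \ A') ∧ SqdInv κ C A' x := by
  by_contra hcon
  -- a club and a value for every `x`
  have hex : ∀ x, ∃ (D : Set Ordinal.{0}) (v : Ordinal.{0}), IsClubIn D κ.ord ∧
      (x0 ≤ x → x < κ.ord → ∀ b ∈ A, b ∈ D →
        (IsSuccLimit b ∧ b < κ.ord ∧ x < b ∧ sqdF C x b = v)) := by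
    intro x
    by_cases hx : x0 ≤ x ∧ x < κ.ord
    · obtain ⟨hx1, hx2⟩ := hx
      have hs : IsStat κ {a | a ∈ A ∧ a < κ.ord ∧ x < a ∧ IsSuccLimit a} := by
        intro D hD
        obtain ⟨a, ha, haA⟩ := hA _ (club_inter hκ hu hD (club_lim hκ hu hx2))
        exact ⟨a, ha.1, haA, ha.2⟩
      obtain ⟨v, hv⟩ := fodor hκ hu hs (sqdF C x) (by
        rintro a ⟨_, h1, h2, h3⟩
        exact (hC a h1 h3).1.1 (sqdF_mem (hC a h1 h3).1 h2).1)
      have hinv' : SqdInv κ C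
          {a | a ∈ {a | a ∈ A ∧ a < κ.ord ∧ x < a ∧ IsSuccLimit a} ∧ sqdF C x a = v} x := by
        intro a ha hal b hb hxb hacc
        have hbl : IsSuccLimit b := sqd_acc_lim hacc
        have h1 := hinv a ha hal b hb (lt_of_le_of_lt hx1 hxb) hacc
        have h2 := sqdF_coh (hC b (hb.trans ha) hbl).1 hxb ((hC a ha hal).2 b hb hacc)
        constructor
        · rintro ⟨⟨h3, _, _, _⟩, h4⟩
          exact ⟨⟨h1.1 h3, ha, hxb.trans hb, hal⟩, by rw [← h2]; exact h4⟩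
        · rintro ⟨⟨h3, _, _, _⟩, h4⟩
          exact ⟨⟨h1.2 h3, hb.trans ha, hxb, hbl⟩, by rw [h2]; exact h4⟩
      have hns : ¬ IsStat κ (A \
          {a | a ∈ {a | a ∈ A ∧ a < κ.ord ∧ x < a ∧ IsSuccLimit a} ∧ sqdF C x a = v}) := by
        intro hst
        exact hcon ⟨x, hx1, hx2, _, fun a ha => ha.1.1, hv, hst, hinv'⟩
      unfold IsStat at hns
      push Not at hns
      obtain ⟨D, hD, hDn⟩ := hns
      refine ⟨D, v, hD, fun _ _ b hbA hbD => ?_⟩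
      have h1 := hDn b hbD
      by_contra h2
      apply h1
      refine ⟨hbA, ?_⟩
      rintro ⟨⟨_, h3, h4, h5⟩, h6⟩
      exact h2 ⟨h5, h3, h4, h6⟩
    · exact ⟨_, 0, club_lim hκ hu hx0, fun h1 h2 => absurd ⟨h1, h2⟩ hx⟩
  choose D v hD hDv using hex
  have hdiag := club_diag hκ hu D (fun b _ => hD b)
  -- the thread
  apply hnt
  apply sqd_thread hC
    (S := {a | a ∈ A ∧ a < κ.ord ∧ x0 < a ∧ IsSuccLimit a ∧ ∀ b < a, a ∈ D b})
  · rintro a ⟨_, h1, _, h2, _⟩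
    exact ⟨h1, h2⟩
  · intro a ha
    have h1 : max a x0 < κ.ord := max_lt ha hx0
    obtain ⟨b, hb, hbA⟩ := hA _ (club_inter hκ hu hdiag (club_lim hκ hu h1))
    refine ⟨b, ⟨hbA, hb.1.1, ?_, hb.2.2.2, hb.1.2⟩, ?_⟩
    · exact lt_of_le_of_lt (le_max_right a x0) hb.2.2.1
    · exact lt_of_le_of_lt (le_max_left a x0) hb.2.2.1
  · rintro b ⟨hbA, hbκ, hx0b, hbl, hbD⟩ b' ⟨hbA', hbκ', hx0b', hbl', hbD'⟩ hbb'
    refine (hC b' hbκ' hbl').2 b hbb' ⟨?_, ?_⟩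
    · exact lt_of_le_of_lt zero_le hx0b
    · intro d hd
      have h1 : max (succ d) x0 < b := max_lt (hbl.succ_lt hd) hx0b
      obtain ⟨c, hc, hdc⟩ := (hC b hbκ hbl).1.2.1 _ h1
      have hcb : c < b := (hC b hbκ hbl).1.1 hc
      have hx0c : x0 ≤ c := (le_max_right _ _).trans hdc
      have hcκ : c < κ.ord := hcb.trans hbκ
      have h2 := (hDv c hx0c hcκ b hbA (hbD c hcb)).2.2.2
      have h3 := hDv c hx0c hcκ b' hbA' (hbD' c (hcb.trans hbb'))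
      rw [sqdF_self hc] at h2
      have h4 := (sqdF_mem (hC b' hbκ' hbl').1 h3.2.2.1).1
      rw [h3.2.2.2, ← h2] at h4
      exact ⟨c, h4, lt_of_lt_of_le (lt_succ d) ((le_max_left _ _).trans hdc), hcb⟩

theorem exists_sqData {κ : Cardinal.{0}} (hκ : κ.IsRegular) (hu : ℵ₀ < κ) (hsq : Square κ) :
    Nonempty (SqData κ) := by
  classical
  obtain ⟨C, hC, hnt⟩ := hsq
  have hκ0 : (0 : Ordinal.{0}) < κ.ord := by
    rw [Cardinal.lt_ord]
    simpa using hκ.pos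
  -- the iteration
  let St := {p : Set Ordinal.{0} × Ordinal.{0} // IsStat κ p.1 ∧ SqdInv κ C p.1 p.2 ∧ p.2 < κ.ord}
  have hstep : ∀ s : St, ∃ t : St, t.1.1 ⊆ s.1.1 ∧ s.1.2 ≤ t.1.2 ∧ IsStat κ (s.1.1 \ t.1.1) := by
    rintro ⟨⟨A, x0⟩, hA, hinv, hx0⟩
    obtain ⟨x, h1, h2, A', h3, h4, h5, h6⟩ := sqd_split hκ hu hC hnt hx0 hA hinv
    exact ⟨⟨⟨A', x⟩, h4, h6, h2⟩, h3, h1, h5⟩
  choose next hn1 hn2 hn3 using hstep
  let s0 : St := ⟨⟨Set.univ, 0⟩, by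
    refine ⟨?_, ?_, hκ0⟩
    · intro D hD
      obtain ⟨c, hc, _⟩ := hD.2.1 0 hκ0
      exact ⟨c, hc, trivial⟩
    · intro a _ _ b _ _ _
      exact ⟨fun _ => trivial, fun _ => trivial⟩⟩
  let R : ℕ → St := fun n => Nat.rec s0 (fun _ s => next s) n
  have hR : ∀ n, R (n + 1) = next (R n) := fun n => rfl
  have hRsub : ∀ n m, n ≤ m → (R m).1.1 ⊆ (R n).1.1 := by
    intro n m hnm
    induction m, hnm using Nat.le_induction with
    | base => exact subset_rfl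
    | succ m _ ih =>
      rw [hR]
      exact (hn1 (R m)).trans ih
  obtain ⟨x, hx⟩ : ∃ x, x = ⨆ n, (R n).1.2 := ⟨_, rfl⟩
  have hxle : ∀ n, (R n).1.2 ≤ x := by
    intro n
    rw [hx]
    exact Ordinal.le_iSup (fun n => (R n).1.2) n
  have hxκ : x < κ.ord := by
    rw [hx]
    apply Ordinal.iSup_lt_of_lt_cof
    · rw [hκ.cof_ord]
      simpa using hu
    · intro n
      exact (R n).2.2.2
  have hRinv : ∀ n, SqdInv κ C (R n).1.1 x := by
    intro n a ha hal b hb hxb hacc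
    exact (R n).2.2.1 a ha hal b hb (lt_of_le_of_lt (hxle n) hxb) hacc
  let H : Set ℕ → ℕ := fun S => if h : ∃ n, n ∈ S ∧ n + 1 ∉ S then Nat.find h + 1 else 1
  have hHpos : ∀ S, 1 ≤ H S := by
    intro S
    show 1 ≤ dite _ _ _
    split_ifs
    · omega
    · exact le_rfl
  have hHval : ∀ (n : ℕ) (S : Set ℕ), (∀ m, m ∈ S ↔ m ≤ n) → H S = n + 1 := by
    intro n S hS
    have hex : ∃ n, n ∈ S ∧ n + 1 ∉ S := ⟨n, by rw [hS], by rw [hS]; omega⟩
    show dite _ _ _ = n + 1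
    rw [dif_pos hex]
    congr 1
    apply le_antisymm
    · exact Nat.find_min' hex ⟨by rw [hS], by rw [hS]; omega⟩
    · have h1 := Nat.find_spec hex
      rw [hS, hS] at h1
      omega
  refine ⟨{
    C := fun a => if x < a then {c | c ∈ C a ∧ x < c} else C a
    club := ?_
    coh := ?_
    h := fun a => if x < a then H {n | a ∈ (R n).1.1} else 1
    h_coh := ?_
    h_pos := ?_
    h_stat := ?_ }⟩
  · intro a ha hal
    split_ifs with hxa
    · refine ⟨fun c hc => (hC a ha hal).1.1 hc.1, ?_, ?_⟩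
      · intro b hb
        have h1 : max b (succ x) < a := max_lt hb (hal.succ_lt hxa)
        obtain ⟨c, hc, hbc⟩ := (hC a ha hal).1.2.1 _ h1
        exact ⟨c, ⟨hc, lt_of_lt_of_le (lt_succ x) ((le_max_right _ _).trans hbc)⟩,
          (le_max_left _ _).trans hbc⟩
      · intro b hb hacc
        have h1 : IsAcc (C a) b := ⟨hacc.1, fun d hd => by
          obtain ⟨c, hc, h2, h3⟩ := hacc.2 d hd
          exact ⟨c, hc.1, h2, h3⟩⟩
        obtain ⟨c, hc, _, h3⟩ := hacc.2 0 hacc.1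
        exact ⟨(hC a ha hal).1.2.2 b hb h1, hc.2.trans h3⟩
    · exact (hC a ha hal).1
  · intro a ha hal b hb hacc
    by_cases hxa : x < a
    · rw [if_pos hxa] at hacc ⊢
      have hxb : x < b := by
        obtain ⟨c, hc, _, h3⟩ := hacc.2 0 hacc.1
        exact hc.2.trans h3
      rw [if_pos hxb]
      have h1 : IsAcc (C a) b := ⟨hacc.1, fun d hd => by
        obtain ⟨c, hc, h2, h3⟩ := hacc.2 d hd
        exact ⟨c, hc.1, h2, h3⟩⟩
      have h2 := (hC a ha hal).2 b hb h1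
      ext c
      constructor
      · rintro ⟨h3, h4⟩
        rw [h2] at h3
        exact ⟨⟨h3.1, h4⟩, h3.2⟩
      · rintro ⟨⟨h3, h4⟩, h5⟩
        refine ⟨?_, h4⟩
        rw [h2]
        exact ⟨h3, h5⟩
    · rw [if_neg hxa] at hacc ⊢
      rw [if_neg (fun h => hxa (h.trans hb))]
      exact (hC a ha hal).2 b hb hacc
  · intro a ha hal b hb hacc
    try dsimp only at hacc ⊢
    by_cases hxa : x < a
    · rw [if_pos hxa] at hacc ⊢
      have h1 : IsAcc (C a) b := ⟨hacc.1, fun d hd => by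
        obtain ⟨c, hc, h2, h3⟩ := hacc.2 d hd
        exact ⟨c, hc.1, h2, h3⟩⟩
      have hxb : x < b := by
        obtain ⟨c, hc, _, h3⟩ := hacc.2 0 hacc.1
        exact hc.2.trans h3
      rw [if_pos hxb]
      congr 1
      ext n
      exact hRinv n a ha hal b hb hxb h1
    · rw [if_neg hxa, if_neg (fun h => hxa (h.trans hb))]
  · intro a
    split_ifs
    · exact hHpos _
    · exact le_rfl
  · intro n hn D hD
    obtain ⟨m, rfl⟩ : ∃ m, n = m + 1 := ⟨n - 1, by omega⟩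
    have h1 : IsStat κ ((R m).1.1 \ (R (m + 1)).1.1) := by
      rw [hR]
      exact hn3 (R m)
    obtain ⟨a, ha, haR⟩ := h1 _ (club_inter hκ hu hD (club_lim hκ hu hxκ))
    refine ⟨a, ha.1, ha.2.2.2, ?_⟩
    rw [if_pos ha.2.2.1]
    apply hHval
    intro k
    constructor
    · intro hk
      by_contra hkm
      exact haR.2 (hRsub (m + 1) k (by omega) hk)
    · intro hk
      exact hRsub k m hk haR.1

end Pool.Agent.Helper4.KSq
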