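import Pool.Agent.Helper4.KSq.PSExt
import Pool.Agent.Helper4.KSq.Lim

set_option autoImplicit false

/-!
# Simple facts about the setup
-/

namespace Pool.Agent.Helper4.KSq

open Filter Cod Cardinal

namespace Setup

variable {Ω ι : Type} [LinearOrder ι] (Z : Setup Ω ι)

/-- for a nonstandard `l`, some `I n` is contained in `[0, l)` -/
theorem exists_n {l : J} (hl : NonSt l) : ∃ n, ∀ a ∈ (Z.V.I n).s, a < l := by
  by_contra hcon
  push Not at hcon
  obtain ⟨k, hk⟩ := Z.V.inter l (fun n => by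
    obtain ⟨a, ha, hla⟩ := hcon n
    exact (Z.V.I n).down hla ha)
  exact hl k hk

theorem nonst_lv (h k : ℕ) : NonSt (Z.V.lv h k) := by
  intro n hn
  exact Z.V.lv_nmem h k (hn ▸ (Z.V.I (h + 1)).num n)

theorem tf0_pd_lt {c : ι} (hc : c ∈ Z.X.S) : Z.X.pd c < c := by
  have h1 := Z.X.pd_LS c hc
  have h2 := Z.X.pv_sc _ h1
  have h3 := Z.X.pv_lt _ (Z.X.sc_L _ h1)
  rw [h2] at h3
  exact h3.trans (Z.X.sc_pd c hc)

/-- the root of the chain of a service node -/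
theorem rt_facts (c : ι) (hc : c ∈ Z.X.S) : Z.X.rt c ∈ Z.X.L ∧ Z.X.rt c < c ∧
    (Z.X.rt c ≠ Z.X.bot → Z.X.h (Z.X.rt c) = Z.X.h c) := by
  have := Z.large.wf
  induction c using WellFoundedLT.induction with
  | ind c ih =>
    have hlt := Z.tf0_pd_lt hc
    rcases Z.X.pd_LS c hc with h | h
    · rw [(Z.X.rt_L c hc h).1]
      exact ⟨h, hlt, fun hb => Z.X.h_pd c hc hb⟩
    · rw [(Z.X.rt_S c hc h).1]
      obtain ⟨h1, h2, h3⟩ := ih _ hlt h
      refine ⟨h1, h2.trans hlt, fun hb => ?_⟩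
      rw [h3 hb]
      refine Z.X.h_pd c hc fun hb' => ?_
      exact Z.X.disj _ h (hb' ▸ Z.X.bot_mem)

/-- the chain of a service node of `C_t`, and the nodes of `C_t` below its root -/
theorem rt_Cs {t c : ι} (ht : t ∈ Z.X.L) (htb : t ≠ Z.X.bot) (hc : c ∈ Z.X.Cs t)
    (hcS : c ∈ Z.X.S) : Z.X.rt c ∈ Z.X.Cs t := by
  have := Z.large.wf
  induction c using WellFoundedLT.induction with
  | ind c ih =>
    have hlt := Z.tf0_pd_lt hcS
    have hpd := (Z.X.C_S t ht htb c hc hcS).2.1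
    rcases Z.X.pd_LS c hcS with h | h
    · rw [(Z.X.rt_L c hcS h).1]
      exact hpd
    · rw [(Z.X.rt_S c hcS h).1]
      exact ih _ hlt hpd h

theorem tf0_isLim {N N' : ι → Nd Ω} {t : ι} (ht : t ∈ Z.X.L) (htb : t ≠ Z.X.bot)
    (h : ∀ i < t, N i = N' i) (M : PS Ω)
    (hM : IsLim (fun i => (N i).ps) (Set.Iio t) (Z.good t) M) :
    IsLim (fun i => (N' i).ps) (Set.Iio t) (Z.good t) M where
  U := by
    rw [hM.U]
    ext x
    simp only [Set.mem_iUnion, Set.mem_Iio]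
    constructor
    · rintro ⟨i, hi, hx⟩
      exact ⟨i, hi, by rw [← h i hi]; exact hx⟩
    · rintro ⟨i, hi, hx⟩
      exact ⟨i, hi, by rw [h i hi]; exact hx⟩
  emb i hi := by
    have h1 : PS.EE (N i).ps M := hM.emb i hi
    rw [h i hi] at h1
    exact h1
  S c x hx := by
    rw [hM.S c x hx]
    constructor
    · rintro ⟨i, hi, hx⟩
      have hit : i < t := (Z.X.C_lt t ht htb i hi.1).1
      refine ⟨i, hi, ?_⟩
      rw [← h i hit]; exact hx
    · rintro ⟨i, hi, hx⟩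
      have hit : i < t := (Z.X.C_lt t ht htb i hi.1).1
      refine ⟨i, hi, ?_⟩
      rw [h i hit]; exact hx

/-- `bs` only depends on the smaller nodes -/
theorem bs_congr {N N' : ι → Nd Ω} {d : ι} (h : ∀ i < d, N i = N' i) : Z.bs N d = Z.bs N' d := by
  unfold bs
  by_cases hb : d = Z.X.bot
  · rw [if_pos hb, if_pos hb]
  · rw [if_neg hb, if_neg hb]
    by_cases hL : d ∈ Z.X.L
    · rw [if_pos hL, if_pos hL]
      unfold Ml
      congr 1
      funext M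
      apply propext
      exact ⟨Z.tf0_isLim hL hb h M, Z.tf0_isLim hL hb (fun i hi => (h i hi).symm) M⟩
    · rw [if_neg hL, if_neg hL, h _ (Z.X.pv_lt d hL)]

/-- the specification only depends on the nodes `≤ d` -/
theorem spec_congr {N N' : ι → Nd Ω} {d : ι} (h : ∀ i ≤ d, N i = N' i) (hS : Z.Spec N d) :
    Z.Spec N' d := by
  have hb : Z.bs N d = Z.bs N' d := Z.bs_congr fun i hi => h i hi.le
  have hd : N d = N' d := h d le_rfl
  have hpv : d ∉ Z.X.L → N (Z.X.pv d) = N' (Z.X.pv d) := fun hL => h _ (Z.X.pv_lt d hL).le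
  refine ⟨?_, ?_, ?_, ?_, ?_, ?_, ?_, ?_, ?_, ?_, ?_, ?_⟩
  · rw [← hb, ← hd]; exact hS.ext
  · rw [← hb, ← hd]; exact hS.q_mem
  · rw [← hd]; exact hS.card
  · rw [← hd]; exact hS.nonst
  · rw [← hd]; exact hS.d_gt
  · rw [← hd]; exact hS.l_bot
  · rw [← hd]; exact hS.l_lim
  · rw [← hd]; exact hS.l_U
  · rw [← hd]; exact hS.l_S
  · rw [← hd]; exact hS.q_zero
  · intro h1 h2
    have h3 := hS.s0 h1 h2
    have hpd : N (Z.X.pd d) = N' (Z.X.pd d) := h _ (Z.tf0_pd_lt h1).le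
    have hbp : Z.bs N (Z.X.pd d) = Z.bs N' (Z.X.pd d) :=
      Z.bs_congr fun i hi => h i (hi.trans (Z.tf0_pd_lt h1)).le
    have hv := hpv (Z.X.disj _ h1)
    unfold SpecS0 at h3 ⊢
    rw [← hbp, ← hpd, ← hd, ← hv]
    exact h3
  · intro h1 h2
    have h3 := hS.s1 h1 h2
    have hpd : N (Z.X.pd d) = N' (Z.X.pd d) := h _ (Z.tf0_pd_lt h1).le
    have hrt : N (Z.X.rt d) = N' (Z.X.rt d) := h _ (Z.rt_facts d h1).2.1.le
    have hbp : Z.bs N (Z.X.rt d) = Z.bs N' (Z.X.rt d) :=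
      Z.bs_congr fun i hi => h i (hi.trans (Z.rt_facts d h1).2.1).le
    have hsc : N (Z.X.sc (Z.X.pd d)) = N' (Z.X.sc (Z.X.pd d)) := h _ (Z.X.sc_pd d h1).le
    have hv := hpv (Z.X.disj _ h1)
    unfold SpecS1 at h3 ⊢
    rw [← hbp, ← hpd, ← hd, ← hv, ← hrt, ← hsc]
    exact h3

end Setup

end Pool.Agent.Helper4.KSq
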