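import Pool.Agent.Helper4.KSq.TF0

set_option autoImplicit false

/-!
# Coherence of the service nodes
-/

namespace Pool.Agent.Helper4.KSq

open Filter Cod Cardinal

section aux

variable {Ω : Type}

/-- projections of a pair of constraints -/
theorem tf1_proj {P A : PS Ω} {I : Cut} (hP : IsK P.sub I) (h : PS.EE P A)
    {l1 u1 b1 l2 u2 b2 : Ω} (m1 : l1 ∈ P.U) (m2 : u1 ∈ P.U) (m3 : b1 ∈ P.U) (m4 : l2 ∈ P.U)
    (m5 : u2 ∈ P.U) (m6 : b2 ∈ P.U) :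
    A.fst (P.qq l1 u1 b1 l2 u2 b2) = l1 ∧
    A.fst (A.snd (P.qq l1 u1 b1 l2 u2 b2)) = u1 ∧
    A.fst (A.snd (A.snd (P.qq l1 u1 b1 l2 u2 b2))) = b1 ∧
    A.fst (A.snd (A.snd (A.snd (P.qq l1 u1 b1 l2 u2 b2)))) = l2 ∧
    A.fst (A.snd (A.snd (A.snd (A.snd (P.qq l1 u1 b1 l2 u2 b2))))) = u2 ∧
    A.snd (A.snd (A.snd (A.snd (A.snd (P.qq l1 u1 b1 l2 u2 b2))))) = b2 := by
  have pf : ∀ x ∈ P.U, ∀ y ∈ P.U, A.fst (P.pair x y) = x := by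
    intro x hx y hy
    rw [h.fst _ (P.pair_mem hx hy)]
    exact congrArg Subtype.val (hP.pairing.fst_pair ⟨x, hx⟩ ⟨y, hy⟩)
  have ps : ∀ x ∈ P.U, ∀ y ∈ P.U, A.snd (P.pair x y) = y := by
    intro x hx y hy
    rw [h.snd _ (P.pair_mem hx hy)]
    exact congrArg Subtype.val (hP.pairing.snd_pair ⟨x, hx⟩ ⟨y, hy⟩)
  have n5 := P.pair_mem m5 m6
  have n4 := P.pair_mem m4 n5
  have n3 := P.pair_mem m3 n4
  have n2 := P.pair_mem m2 n3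
  have e1 : A.snd (P.qq l1 u1 b1 l2 u2 b2) =
      P.pair u1 (P.pair b1 (P.pair l2 (P.pair u2 b2))) := ps _ m1 _ n2
  have e2 : A.snd (A.snd (P.qq l1 u1 b1 l2 u2 b2)) =
      P.pair b1 (P.pair l2 (P.pair u2 b2)) := by rw [e1]; exact ps _ m2 _ n3
  have e3 : A.snd (A.snd (A.snd (P.qq l1 u1 b1 l2 u2 b2))) =
      P.pair l2 (P.pair u2 b2) := by rw [e2]; exact ps _ m3 _ n4
  have e4 : A.snd (A.snd (A.snd (A.snd (P.qq l1 u1 b1 l2 u2 b2)))) =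
      P.pair u2 b2 := by rw [e3]; exact ps _ m4 _ n5
  refine ⟨pf _ m1 _ n2, ?_, ?_, ?_, ?_, ?_⟩
  · rw [e1]; exact pf _ m2 _ n3
  · rw [e2]; exact pf _ m3 _ n4
  · rw [e3]; exact pf _ m4 _ n5
  · rw [e4]; exact pf _ m5 _ m6
  · rw [e4]; exact ps _ m5 _ m6

theorem tf1_le {A : PS Ω} {I : Cut} (hA : IsK A.sub I) {c l : J} (h : c ≤ l) :
    A.le (A.j c) (A.j l) := by
  rcases h.lt_or_eq with h | h
  · exact Or.inl ((hA.j_lt c l).mpr h)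
  · exact Or.inr (by rw [h])

/-- the core of the argument -/
theorem tf1_core {M E C : PS Ω} {I K : Cut} (hME : PS.EE M E) (hEC : PS.EE E C)
    (hE : IsK E.sub I) (hC : IsK C.sub K) {l : J} {u b : Ω} (hu : u ∈ E.U) (hb : b ∈ E.U)
    (hcd : PS.Cdm E M l u) (hbd : ∀ a ∈ M.U, E.lt a b)
    (hcon : ∀ c ≤ l, ∀ y ∈ C.U, C.lt y b → (C.S c y ↔ C.el u (C.pair (C.j c) y))) :
    PS.Coh l M C := by
  intro c hc x hx
  have hxE : x ∈ E.U := hME.sub hx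
  have hxC : x ∈ C.U := hEC.sub hxE
  have h1 : C.lt x b := (hEC.lt x hxE b hb).mpr (hbd x hx)
  rw [hcon c hc x hxC h1]
  have h2 : C.pair (C.j c) x = E.pair (E.j c) x := by
    rw [hEC.j c, hEC.pair _ (E.j_mem c) _ hxE]
  rw [h2, hEC.el hE hC hu (E.pair_mem (E.j_mem c) hxE)]
  exact hcd c hc x hx

end aux

namespace Setup

variable {Ω ι : Type} [LinearOrder ι] (Z : Setup Ω ι)

theorem tf1_anti (n : ℕ) : (Z.V.I n).s ⊆ (Z.V.I 0).s := by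
  induction n with
  | zero => exact subset_rfl
  | succ n ih => exact fun a ha => ih (Z.V.anti n ha)

theorem tf1_S {c : ι} (hc : c ∈ Z.X.S) : c ∉ Z.X.L ∧ c ≠ Z.X.bot := by
  have h1 := Z.X.disj c hc
  exact ⟨h1, fun h => h1 (h ▸ Z.X.bot_mem)⟩

theorem tf1_sc {c : ι} (hc : c ∈ Z.X.L ∨ c ∈ Z.X.S) :
    Z.X.sc c ∉ Z.X.L ∧ Z.X.sc c ≠ Z.X.bot ∧ c < Z.X.sc c := by
  have h1 := Z.X.sc_L c hc
  refine ⟨h1, fun h => h1 (h ▸ Z.X.bot_mem), ?_⟩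
  have h2 := Z.X.pv_lt _ h1
  rwa [Z.X.pv_sc c hc] at h2

theorem tf1_bs {N : ι → Nd Ω} {c : ι} (h1 : c ∉ Z.X.L) (h2 : c ≠ Z.X.bot) :
    Z.bs N c = (N (Z.X.pv c)).ps := by
  unfold bs
  rw [if_neg h2, if_neg h1]

theorem tf1_bsbot {N : ι → Nd Ω} : Z.bs N Z.X.bot = Z.P0 := by
  unfold bs
  rw [if_pos rfl]

theorem tf1_bI {c : ι} (hc : c ∈ Z.X.S) (k : ℕ) :
    Z.V.lv (Z.X.h c) k ∈ (Z.bI (Z.X.rt c)).s := by
  obtain ⟨h1, -, h3⟩ := Z.rt_facts c hc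
  unfold bI
  by_cases hb : Z.X.rt c = Z.X.bot
  · rw [if_pos hb]
    exact Z.tf1_anti _ (Z.V.lv_mem _ _)
  · rw [if_neg hb, if_pos h1, h3 hb]
    exact Z.V.lv_mem _ _

theorem tf1_bI2 {c : ι} (h1 : c ∉ Z.X.L) (h2 : c ≠ Z.X.bot) (h k : ℕ) :
    Z.V.lv h k ∈ (Z.bI c).s := by
  unfold bI
  rw [if_neg h2, if_neg h1]
  exact Z.tf1_anti _ (Z.V.lv_mem _ _)

/-- all nodes agree on `j` and zero -/
theorem tf1_j {N : ι → Nd Ω} {d : ι} (hN : ∀ i < d, Z.Spec N i)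
    (hE : ∀ i j, i < j → j < d → PS.EE (N i).ps (N j).ps) {i : ι} (hi : i < d) :
    (∀ a, (N i).ps.j a = Z.P0.j a) ∧ (N i).ps.zero = Z.P0.zero := by
  have hb : Z.X.bot < d := lt_of_le_of_lt (Z.X.bot_le i) hi
  have h0 := (hN _ hb).ext.emb
  rw [Z.tf1_bsbot] at h0
  rcases (Z.X.bot_le i).eq_or_lt with h | h
  · subst h
    exact ⟨h0.j, h0.zero⟩
  · have h1 := hE _ i h hi
    exact ⟨fun a => (h1.j a).trans (h0.j a), h1.zero.trans h0.zero⟩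

theorem tf1_EE {N : ι → Nd Ω} {d : ι}
    (hE : ∀ i j, i < j → j < d → PS.EE (N i).ps (N j).ps) {i j : ι} (hij : i ≤ j) (hj : j < d) :
    PS.EE (N i).ps (N j).ps := by
  rcases hij.eq_or_lt with h | h
  · subst h; exact PS.EE.refl _
  · exact hE i j h hj

/-- coherence of a service node with the base structure at its root -/
theorem cohR_of {N : ι → Nd Ω} {d : ι} (hN : ∀ i < d, Z.Spec N i)
    (hE : ∀ i j, i < j → j < d → PS.EE (N i).ps (N j).ps) {c : ι} (hc : c ∈ Z.X.S) (hcd : c < d) :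
    PS.Coh (Z.V.lv (Z.X.h c) (Z.X.kk c + 1)) (Z.bs N (Z.X.rt c)) (N c).ps := by
  obtain ⟨hcL, hcb⟩ := Z.tf1_S hc
  obtain ⟨hrL, hrc, -⟩ := Z.rt_facts c hc
  have hrd : Z.X.rt c < d := hrc.trans hcd
  have hpv : Z.X.pv c < c := Z.X.pv_lt c hcL
  have hpvd : Z.X.pv c < d := hpv.trans hcd
  have hCext := (hN c hcd).ext
  rw [Z.tf1_bs hcL hcb] at hCext
  have hRext := (hN _ hrd).ext
  obtain ⟨jr, zr⟩ := Z.tf1_j hN hE hrd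
  obtain ⟨jp, zp⟩ := Z.tf1_j hN hE hpvd
  have hrpv : Z.X.rt c ≤ Z.X.pv c := Z.X.le_pv c hcL _ hrc
  have hspec : ∀ k, PS.Cdm (N (Z.X.rt c)).ps (Z.bs N (Z.X.rt c)) (Z.V.lv (Z.X.h c) k)
      ((N (Z.X.rt c)).can (Z.V.lv (Z.X.h c) k)) := fun k =>
    hRext.can_spec _ (Z.tf1_bI hc k)
  have hKpv := (hN _ hpvd).ext.isK
  rcases Z.X.pd_LS c hc with hpd | hpd
  · -- chain of length one
    obtain ⟨hrt, hkk⟩ := Z.X.rt_L c hc hpd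
    obtain ⟨-, b1, hb1, l1, hl1, hq, hbd, -⟩ := (hN c hcd).s0 hc hpd
    rw [← hrt] at hb1 hq hbd
    have hPA : PS.EE (N (Z.X.rt c)).ps (N (Z.X.pv c)).ps := tf1_EE hE hrpv hpvd
    have mz : Z.P0.zero ∈ (N (Z.X.rt c)).ps.U := zr ▸ (N (Z.X.rt c)).ps.zero_mem
    have ml : Z.P0.j l1 ∈ (N (Z.X.rt c)).ps.U := by
      rw [← jr]; exact (N (Z.X.rt c)).ps.j_mem l1
    obtain ⟨p1, p2, p3, -, -, -⟩ := tf1_proj hRext.isK hPA ml (hRext.can_mem l1) hb1 mz mz mz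
    rw [← hq] at p1 p2 p3
    rw [hkk, zero_add, ← hl1]
    have hs := hspec 1
    rw [← hl1] at hs
    refine tf1_core hRext.emb (hE _ _ hrc hcd) hRext.isK hCext.isK (hRext.can_mem l1) hb1 hs hbd ?_
    intro c' hc' y hy hlt
    have := hCext.con1 c' (by rw [p1, ← jp]; exact tf1_le hKpv hc') y hy (by rw [p3]; exact hlt)
    rw [p2] at this
    exact this
  · -- longer chains
    obtain ⟨hrt, hkk⟩ := Z.X.rt_S c hc hpd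
    obtain ⟨-, b1, hb1, b2, hb2, l1, l2, hl1, hl2, hq, hbd, -⟩ := (hN c hcd).s1 hc hpd
    obtain ⟨hsL, hsb, hsc⟩ := Z.tf1_sc (Or.inr hpd)
    have hscc : Z.X.sc (Z.X.pd c) < c := Z.X.sc_pd c hc
    have hscd : Z.X.sc (Z.X.pd c) < d := hscc.trans hcd
    have hrs : Z.X.rt c < Z.X.sc (Z.X.pd c) := by
      rw [hrt]
      exact (Z.rt_facts _ hpd).2.1.trans hsc
    have hRS := hE _ _ hrs hscd
    have hSext := (hN _ hscd).ext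
    have hPA : PS.EE (N (Z.X.sc (Z.X.pd c))).ps (N (Z.X.pv c)).ps :=
      tf1_EE hE (Z.X.le_pv c hcL _ hscc) hpvd
    obtain ⟨js, zs⟩ := Z.tf1_j hN hE hscd
    have ml : ∀ l, Z.P0.j l ∈ (N (Z.X.sc (Z.X.pd c))).ps.U := by
      intro l; rw [← js]; exact (N (Z.X.sc (Z.X.pd c))).ps.j_mem l
    obtain ⟨p1, p2, p3, -, -, -⟩ := tf1_proj hSext.isK hPA (ml l1)
      (hRS.sub (hRext.can_mem l1)) (hRS.sub hb1) (ml l2) (hSext.can_mem l2) hb2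
    rw [← hq] at p1 p2 p3
    have hs := hspec (Z.X.kk c + 1)
    rw [← hl1] at hs ⊢
    refine tf1_core hRext.emb (hE _ _ hrc hcd) hRext.isK hCext.isK (hRext.can_mem l1) hb1 hs hbd ?_
    intro c' hc' y hy hlt
    have := hCext.con1 c' (by rw [p1, ← jp]; exact tf1_le hKpv hc') y hy (by rw [p3]; exact hlt)
    rw [p2] at this
    exact this

/-- coherence of a service node with its predecessor in the chain -/
theorem cohP_of {N : ι → Nd Ω} {d : ι} (hN : ∀ i < d, Z.Spec N i)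
    (hE : ∀ i j, i < j → j < d → PS.EE (N i).ps (N j).ps) {c : ι} (hc : c ∈ Z.X.S) (hcd : c < d)
    (hp : Z.X.pd c ∈ Z.X.S) :
    PS.Coh (Z.V.lv (Z.X.h c) (Z.X.kk (Z.X.pd c))) (N (Z.X.pd c)).ps (N c).ps := by
  obtain ⟨hcL, hcb⟩ := Z.tf1_S hc
  obtain ⟨hrL, hrc, -⟩ := Z.rt_facts c hc
  have hrd : Z.X.rt c < d := hrc.trans hcd
  have hpv : Z.X.pv c < c := Z.X.pv_lt c hcL
  have hpvd : Z.X.pv c < d := hpv.trans hcd
  have hCext := (hN c hcd).ext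
  rw [Z.tf1_bs hcL hcb] at hCext
  have hRext := (hN _ hrd).ext
  obtain ⟨jp, zp⟩ := Z.tf1_j hN hE hpvd
  have hKpv := (hN _ hpvd).ext.isK
  obtain ⟨hrt, hkk⟩ := Z.X.rt_S c hc hp
  obtain ⟨-, b1, hb1, b2, hb2, l1, l2, hl1, hl2, hq, hbd, -, hbd2, -⟩ := (hN c hcd).s1 hc hp
  obtain ⟨hsL, hsb, hsc⟩ := Z.tf1_sc (Or.inr hp)
  have hscc : Z.X.sc (Z.X.pd c) < c := Z.X.sc_pd c hc
  have hscd : Z.X.sc (Z.X.pd c) < d := hscc.trans hcd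
  have hrs : Z.X.rt c < Z.X.sc (Z.X.pd c) := by
    rw [hrt]
    exact (Z.rt_facts _ hp).2.1.trans hsc
  have hRS := hE _ _ hrs hscd
  have hSext := (hN _ hscd).ext
  have hPA : PS.EE (N (Z.X.sc (Z.X.pd c))).ps (N (Z.X.pv c)).ps :=
    tf1_EE hE (Z.X.le_pv c hcL _ hscc) hpvd
  obtain ⟨js, zs⟩ := Z.tf1_j hN hE hscd
  have ml : ∀ l, Z.P0.j l ∈ (N (Z.X.sc (Z.X.pd c))).ps.U := by
    intro l; rw [← js]; exact (N (Z.X.sc (Z.X.pd c))).ps.j_mem l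
  obtain ⟨-, -, -, p4, p5, p6⟩ := tf1_proj hSext.isK hPA (ml l1)
    (hRS.sub (hRext.can_mem l1)) (hRS.sub hb1) (ml l2) (hSext.can_mem l2) hb2
  rw [← hq] at p4 p5 p6
  have hs := hSext.can_spec _ (Z.tf1_bI2 hsL hsb (Z.X.h c) (Z.X.kk (Z.X.pd c)))
  have hemb := hSext.emb
  rw [Z.tf1_bs hsL hsb, Z.X.pv_sc _ (Or.inr hp)] at hs hemb
  rw [← hl2] at hs ⊢
  refine tf1_core hemb (hE _ _ hscc hcd) hSext.isK hCext.isK (hSext.can_mem l2) hb2 hs hbd2 ?_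
  intro c' hc' y hy hlt
  have := hCext.con2 c' (by rw [p4, ← jp]; exact tf1_le hKpv hc') y hy (by rw [p6]; exact hlt)
  rw [p5] at this
  exact this

theorem tf1_lv_mono (h : ℕ) {k k' : ℕ} (hk : k ≤ k') : Z.V.lv h k ≤ Z.V.lv h k' :=
  monotone_nat_of_le_succ (Z.V.lv_mono h) hk

/-- coherence of two service nodes of the same chain -/
theorem tf1_chain {N : ι → Nd Ω} {t : ι} (ht : t ∈ Z.X.L) (htb : t ≠ Z.X.bot)
    (hE : ∀ i j, i < j → j < t → PS.EE (N i).ps (N j).ps)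
    (hP : ∀ c ∈ Z.X.S, c < t → Z.X.pd c ∈ Z.X.S →
      PS.Coh (Z.V.lv (Z.X.h c) (Z.X.kk (Z.X.pd c))) (N (Z.X.pd c)).ps (N c).ps)
    {c1 : ι} (h1 : c1 ∈ Z.X.Cs t) (h1S : c1 ∈ Z.X.S) (c2 : ι) (h2 : c2 ∈ Z.X.Cs t)
    (h2S : c2 ∈ Z.X.S) (h : c1 < c2) (hr : Z.X.rt c2 ≤ c1) :
    Z.X.kk c1 < Z.X.kk c2 ∧ PS.Coh (Z.V.lv (Z.X.h t) (Z.X.kk c1)) (N c1).ps (N c2).ps := by
  have := Z.large.wf
  induction c2 using WellFoundedLT.induction with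
  | _ c2 ih =>
    obtain ⟨e1, e2, e3⟩ := Z.X.C_S t ht htb c2 h2 h2S
    have h2t : c2 < t := (Z.X.C_lt t ht htb c2 h2).1
    have h1p : c1 ≤ Z.X.pd c2 := e3 c1 h1 h
    rcases Z.X.pd_LS c2 h2S with hpd | hpd
    · exfalso
      obtain ⟨hrt, -⟩ := Z.X.rt_L c2 h2S hpd
      rw [hrt] at hr
      have : c1 = Z.X.pd c2 := le_antisymm h1p hr
      exact Z.X.disj c1 h1S (this ▸ hpd)
    · obtain ⟨hrt, hkk⟩ := Z.X.rt_S c2 h2S hpd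
      have hc := hP c2 h2S h2t hpd
      rw [e1] at hc
      rcases h1p.eq_or_lt with h' | h'
      · rw [h']
        exact ⟨by omega, hc⟩
      · have hp2 : Z.X.pd c2 < c2 := (Z.tf1_sc (Or.inr hpd)).2.2.trans (Z.X.sc_pd c2 h2S)
        obtain ⟨k1, k2⟩ := ih (Z.X.pd c2) hp2 e2 hpd h' (by rw [← hrt]; exact hr)
        refine ⟨by omega, ?_⟩
        refine k2.trans (hE _ _ h' (hp2.trans h2t)) ?_
        exact hc.mono (Z.tf1_lv_mono _ k1.le)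

/-- coherence of two service nodes of `C_t` -/
theorem coh_pair {N : ι → Nd Ω} {t : ι} (ht : t ∈ Z.X.L) (htb : t ≠ Z.X.bot)
    (hE : ∀ i j, i < j → j < t → PS.EE (N i).ps (N j).ps)
    (hEL : ∀ e ∈ Z.X.L, e < t → PS.EE (Z.bs N e) (N e).ps)
    (hEM : ∀ e ∈ Z.X.L, e ≠ Z.X.bot → e < t → ∀ i < e, PS.EE (N i).ps (Z.Ml N e))
    (hR : ∀ c ∈ Z.X.S, c < t →
      PS.Coh (Z.V.lv (Z.X.h c) (Z.X.kk c + 1)) (Z.bs N (Z.X.rt c)) (N c).ps)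
    (hP : ∀ c ∈ Z.X.S, c < t → Z.X.pd c ∈ Z.X.S →
      PS.Coh (Z.V.lv (Z.X.h c) (Z.X.kk (Z.X.pd c))) (N (Z.X.pd c)).ps (N c).ps)
    (hL : ∀ e ∈ Z.X.L, e ≠ Z.X.bot → e < t → ∀ c ∈ Z.X.Cs e, c ∈ Z.X.S →
      PS.Coh (Z.V.lv (Z.X.h e) (Z.X.kk c)) (N c).ps (Z.Ml N e))
    {c1 c2 : ι} (h1 : c1 ∈ Z.X.Cs t) (h1S : c1 ∈ Z.X.S) (h2 : c2 ∈ Z.X.Cs t) (h2S : c2 ∈ Z.X.S)
    (h : c1 < c2) {a : J} (ha1 : a ≤ Z.V.lv (Z.X.h t) (Z.X.kk c1))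
    (ha2 : a ≤ Z.V.lv (Z.X.h t) (Z.X.kk c2)) : PS.Coh a (N c1).ps (N c2).ps := by
  rcases le_or_gt (Z.X.rt c2) c1 with hr | hr
  · exact (Z.tf1_chain ht htb hE hP h1 h1S c2 h2 h2S h hr).2.mono ha1
  · obtain ⟨e1, -, -⟩ := Z.rt_facts c2 h2S
    have h2t : c2 < t := (Z.X.C_lt t ht htb c2 h2).1
    have het : Z.X.rt c2 < t := (Z.rt_facts c2 h2S).2.1.trans h2t
    have heb : Z.X.rt c2 ≠ Z.X.bot := by
      intro hb
      rw [hb] at hr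
      exact absurd hr (not_lt.mpr (Z.X.bot_le c1))
    have heC := Z.rt_Cs ht htb h2 h2S
    obtain ⟨f1, f2⟩ := Z.X.C_L t ht htb _ heC e1 heb
    have h1e : c1 ∈ Z.X.Cs (Z.X.rt c2) := by
      rw [f2]; exact ⟨h1, hr⟩
    have g1 := hL _ e1 heb het c1 h1e h1S
    rw [f1] at g1
    have g2 := hR c2 h2S h2t
    have hbs : Z.bs N (Z.X.rt c2) = Z.Ml N (Z.X.rt c2) := by
      unfold bs
      rw [if_neg heb, if_pos e1]
    rw [hbs, (Z.X.C_S t ht htb c2 h2 h2S).1] at g2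
    refine (g1.mono ha1).trans (hEM _ e1 heb het c1 hr) (g2.mono ?_)
    exact ha2.trans (Z.V.lv_mono _ _)

end Setup

end Pool.Agent.Helper4.KSq
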