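import Pool.Agent.Helper4.KSq.TF1

set_option autoImplicit false

/-!
# Consequences of the specification of the tower
-/

namespace Pool.Agent.Helper4.KSq

open Filter Cod Cardinal

namespace Setup

variable {Ω ι : Type} [LinearOrder ι] (Z : Setup Ω ι)

/-- the facts about the nodes `< d` of a tower which satisfies the specification below `d`, and
about the limits `≤ d` -/
structure Facts (N : ι → Nd Ω) (d : ι) : Prop where
  /-- the tower is increasing -/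
  emb : ∀ i j, i < j → j < d → PS.EE (N i).ps (N j).ps
  /-- coherence for codes in a nonstandard cut -/
  coh : ∀ i j, i < j → j < d → ∃ n, PS.CohI (Z.V.I n) (N i).ps (N j).ps
  /-- limits exist -/
  isLim : ∀ t ∈ Z.X.L, t ≠ Z.X.bot → t ≤ d →
    IsLim (fun i => (N i).ps) (Set.Iio t) (Z.good t) (Z.Ml N t)
  limK : ∀ t ∈ Z.X.L, t ≠ Z.X.bot → t ≤ d → IsK (Z.Ml N t).sub (Z.V.I (Z.X.h t))
  /-- coherence of the nodes of `C_t` with the limit -/
  cohL : ∀ t ∈ Z.X.L, t ≠ Z.X.bot → t ≤ d → ∀ c ∈ Z.X.Cs t, c ∈ Z.X.S →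
    PS.Coh (Z.V.lv (Z.X.h t) (Z.X.kk c)) (N c).ps (Z.Ml N t)
  /-- coherence of the base structures with the service nodes -/
  cohR : ∀ c ∈ Z.X.S, c < d →
    PS.Coh (Z.V.lv (Z.X.h c) (Z.X.kk c + 1)) (Z.bs N (Z.X.rt c)) (N c).ps
  cohP : ∀ c ∈ Z.X.S, c < d → Z.X.pd c ∈ Z.X.S →
    PS.Coh (Z.V.lv (Z.X.h c) (Z.X.kk (Z.X.pd c))) (N (Z.X.pd c)).ps (N c).ps

private theorem tf_I_anti {m n : ℕ} (h : m ≤ n) : (Z.V.I n).s ⊆ (Z.V.I m).s := by
  induction h with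
  | refl => exact subset_rfl
  | step h ih => exact fun x hx => ih (Z.V.anti _ hx)

private theorem tf_lv_mono (h : ℕ) {k k' : ℕ} (hk : k ≤ k') : Z.V.lv h k ≤ Z.V.lv h k' := by
  induction hk with
  | refl => exact le_rfl
  | step _ ih => exact ih.trans (Z.V.lv_mono _ _)

private theorem tf_bs_bot {N : ι → Nd Ω} : Z.bs N Z.X.bot = Z.P0 := by
  simp [bs]

private theorem tf_bs_lim {N : ι → Nd Ω} {i : ι} (hi : i ∈ Z.X.L) (hb : i ≠ Z.X.bot) :
    Z.bs N i = Z.Ml N i := by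
  simp [bs, hi, hb]

private theorem tf_bs_succ {N : ι → Nd Ω} {i : ι} (hi : i ∉ Z.X.L) :
    Z.bs N i = (N (Z.X.pv i)).ps := by
  have hb : i ≠ Z.X.bot := fun h => hi (h ▸ Z.X.bot_mem)
  simp [bs, hi, hb]

private theorem tf_emb {N : ι → Nd Ω} {d : ι} (hN : ∀ i < d, Z.Spec N i)
    (ih : ∀ d' < d, Z.Facts N d') (i j : ι) (hij : i < j) (hjd : j < d) :
    PS.EE (N i).ps (N j).ps := by
  have hs := (hN j hjd).ext.emb
  have hF := ih j hjd
  have hb : j ≠ Z.X.bot := fun h => absurd (Z.X.bot_le i) (not_le.2 (h ▸ hij))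
  by_cases hL : j ∈ Z.X.L
  · rw [Z.tf_bs_lim hL hb] at hs
    exact PS.EE.trans ((hF.isLim j hL hb le_rfl).emb i hij) hs
  · rw [Z.tf_bs_succ hL] at hs
    rcases (Z.X.le_pv j hL i hij).lt_or_eq with h | h
    · exact PS.EE.trans (hF.emb i _ h (Z.X.pv_lt j hL)) hs
    · rw [h]
      exact hs

private theorem tf_coh {N : ι → Nd Ω} {d : ι} (hN : ∀ i < d, Z.Spec N i)
    (ih : ∀ d' < d, Z.Facts N d') (i j : ι) (hij : i < j) (hjd : j < d) :
    ∃ n, PS.CohI (Z.V.I n) (N i).ps (N j).ps := by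
  obtain ⟨n0, hn0⟩ := Z.exists_n (hN j hjd).nonst
  have hs := (hN j hjd).ext.coh
  have hF := ih j hjd
  have hb : j ≠ Z.X.bot := fun h => absurd (Z.X.bot_le i) (not_le.2 (h ▸ hij))
  by_cases hL : j ∈ Z.X.L
  · rw [Z.tf_bs_lim hL hb] at hs
    obtain ⟨c, hc, hcS, hic, -⟩ := Z.X.C_cof j hL hb i hij 0
    have hcj : c < j := (Z.X.C_lt j hL hb c hc).1
    obtain ⟨n1, hn1⟩ := hF.coh i c hic hcj
    obtain ⟨n2, hn2⟩ := Z.exists_n (Z.nonst_lv (Z.X.h j) (Z.X.kk c))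
    have hl := hF.cohL j hL hb le_rfl c hc hcS
    have hE1 : PS.EE (N i).ps (N c).ps := hF.emb i c hic hcj
    have hE2 : PS.EE (N i).ps (Z.Ml N j) := (hF.isLim j hL hb le_rfl).emb i hij
    refine ⟨max n0 (max n1 n2), fun a ha x hx => ?_⟩
    have h0 : a ∈ (Z.V.I n0).s := Z.tf_I_anti (le_max_left _ _) ha
    have h1 : a ∈ (Z.V.I n1).s :=
      Z.tf_I_anti ((le_max_left n1 n2).trans (le_max_right n0 _)) ha
    have h2 : a ∈ (Z.V.I n2).s :=
      Z.tf_I_anti ((le_max_right n1 n2).trans (le_max_right n0 _)) ha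
    rw [hs a (hn0 a h0).le x (hE2.sub hx), hl a (hn2 a h2).le x (hE1.sub hx)]
    exact hn1 a h1 x hx
  · rw [Z.tf_bs_succ hL] at hs
    rcases (Z.X.le_pv j hL i hij).lt_or_eq with h | h
    · obtain ⟨n1, hn1⟩ := hF.coh i _ h (Z.X.pv_lt j hL)
      have hE1 : PS.EE (N i).ps (N (Z.X.pv j)).ps := hF.emb i _ h (Z.X.pv_lt j hL)
      refine ⟨max n0 n1, fun a ha x hx => ?_⟩
      have h0 : a ∈ (Z.V.I n0).s := Z.tf_I_anti (le_max_left _ _) ha
      have h1 : a ∈ (Z.V.I n1).s := Z.tf_I_anti (le_max_right _ _) ha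
      rw [hs a (hn0 a h0).le x (hE1.sub hx)]
      exact hn1 a h1 x hx
    · subst h
      exact ⟨n0, fun a ha x hx => hs a (hn0 a ha).le x hx⟩

private theorem tf_isLim {N : ι → Nd Ω} {d : ι} (hE : ∀ i j, i < j → j < d →
    PS.EE (N i).ps (N j).ps) (t : ι) (htb : t ≠ Z.X.bot) (htd : t ≤ d) :
    IsLim (fun i => (N i).ps) (Set.Iio t) (Z.good t) (Z.Ml N t) := by
  have hne : (Set.Iio t).Nonempty := ⟨Z.X.bot, lt_of_le_of_ne (Z.X.bot_le t) htb.symm⟩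
  exact Classical.epsilon_spec (exists_isLim hne
    fun i _ j hj hij => hE i j hij (lt_of_lt_of_le hj htd))

/-- the specification implies the facts -/
theorem facts {N : ι → Nd Ω} {d : ι} (hN : ∀ i < d, Z.Spec N i) : Z.Facts N d := by
  have wf : WellFoundedLT ι := Z.large.wf
  induction d using WellFoundedLT.induction with
  | ind d ih' =>
  have ih : ∀ d' < d, Z.Facts N d' := fun d' hd' => ih' d' hd' fun i hi => hN i (hi.trans hd')
  have hE := Z.tf_emb hN ih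
  have hR : ∀ c ∈ Z.X.S, c < d →
      PS.Coh (Z.V.lv (Z.X.h c) (Z.X.kk c + 1)) (Z.bs N (Z.X.rt c)) (N c).ps :=
    fun c hc hcd => Z.cohR_of hN hE hc hcd
  have hP : ∀ c ∈ Z.X.S, c < d → Z.X.pd c ∈ Z.X.S →
      PS.Coh (Z.V.lv (Z.X.h c) (Z.X.kk (Z.X.pd c))) (N (Z.X.pd c)).ps (N c).ps :=
    fun c hc hcd hp => Z.cohP_of hN hE hc hcd hp
  have hLim : ∀ t ∈ Z.X.L, t ≠ Z.X.bot → t ≤ d →
      IsLim (fun i => (N i).ps) (Set.Iio t) (Z.good t) (Z.Ml N t) :=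
    fun t _ htb htd => Z.tf_isLim hE t htb htd
  have hpair : ∀ t ∈ Z.X.L, t ≠ Z.X.bot → t ≤ d → ∀ c1 ∈ Z.X.Cs t, c1 ∈ Z.X.S →
      ∀ c2 ∈ Z.X.Cs t, c2 ∈ Z.X.S → c1 < c2 → ∀ a : J, a ≤ Z.V.lv (Z.X.h t) (Z.X.kk c1) →
      a ≤ Z.V.lv (Z.X.h t) (Z.X.kk c2) → PS.Coh a (N c1).ps (N c2).ps := by
    intro t ht htb htd c1 h1 h1S c2 h2 h2S h a ha1 ha2
    refine Z.coh_pair ht htb (fun i j hij hj => hE i j hij (lt_of_lt_of_le hj htd))
      (fun e _ het => (hN e (lt_of_lt_of_le het htd)).ext.emb)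
      (fun e he heb het i hi => (hLim e he heb (het.le.trans htd)).emb i hi)
      (fun c hc hct => hR c hc (lt_of_lt_of_le hct htd))
      (fun c hc hct hp => hP c hc (lt_of_lt_of_le hct htd) hp)
      (fun e he heb het c hc hcS => (ih e (lt_of_lt_of_le het htd)).cohL e he heb le_rfl c hc hcS)
      h1 h1S h2 h2S h ha1 ha2
  have hgood : ∀ t ∈ Z.X.L, t ≠ Z.X.bot → ∀ c, Z.good t c ⊆ Set.Iio t :=
    fun t ht htb c i hi => (Z.X.C_lt t ht htb i hi.1).1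
  refine ⟨hE, Z.tf_coh hN ih, hLim, ?_, ?_, hR, hP⟩
  · intro t ht htb htd
    refine (hLim t ht htb htd).isK (I := Z.V.I (Z.X.h t)) (K := Z.K)
      (Z.tf_I_anti (Nat.zero_le _)) ⟨Z.X.bot, lt_of_le_of_ne (Z.X.bot_le t) htb.symm⟩
      (fun i _ j hj hij => hE i j hij (lt_of_lt_of_le hj htd))
      (fun i hi => (hN i (lt_of_lt_of_le hi htd)).ext.isK)
      (hgood t ht htb) (fun c c' hcc i hi => ⟨hi.1, hi.2.1, hcc.trans hi.2.2⟩) ?_ ?_
    · intro c hc i hi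
      obtain ⟨k, hk⟩ := Z.V.lv_cof (Z.X.h t) c hc
      obtain ⟨j, hj, hjS, hij, hkj⟩ := Z.X.C_cof t ht htb i hi k
      exact ⟨j, ⟨hj, hjS, hk.trans (Z.tf_lv_mono _ hkj)⟩, hij⟩
    · intro c _ i hi j hj hij
      exact hpair t ht htb htd i hi.1 hi.2.1 j hj.1 hj.2.1 hij c hi.2.2 hj.2.2
  · intro t ht htb htd c hc hcS a ha x hx
    refine (hLim t ht htb htd).coh (hgood t ht htb a) ?_ (i := c) ⟨hc, hcS, ha⟩ hx
    intro i hi j hj hij y hy
    exact hpair t ht htb htd i hi.1 hi.2.1 j hj.1 hj.2.1 hij a hi.2.2 hj.2.2 a le_rfl y hy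

end Setup

end Pool.Agent.Helper4.KSq
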