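import Pool.Agent.Helper4.KSq.TFacts

set_option autoImplicit false

/-!
# Properties of the service nodes
-/

namespace Pool.Agent.Helper4.KSq

open Filter Cod Cardinal

namespace Setup

variable {Ω ι : Type} [LinearOrder ι] (Z : Setup Ω ι)

section aux

theorem TP_anti {m n : ℕ} (h : m ≤ n) : (Z.V.I n).s ⊆ (Z.V.I m).s := by
  induction n, h using Nat.le_induction with
  | base => exact subset_rfl
  | succ n _ ih => exact (Z.V.anti n).trans ih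

include Z in
theorem TP_gt (c : ι) : ∃ d, c < d := by
  obtain ⟨i, hi⟩ := Z.large.cof {c} (by
    rw [Cardinal.mk_singleton]
    exact lt_of_lt_of_le Cardinal.one_lt_aleph0 Z.unc.le)
  exact ⟨i, hi c rfl⟩

variable {Z} {N : ι → Nd Ω} (hN : ∀ i, Z.Spec N i)
include hN

theorem TP_facts (d : ι) : Z.Facts N d := Z.facts (fun i _ => hN i)

theorem TP_EE {i j : ι} (h : i ≤ j) : PS.EE (N i).ps (N j).ps := by
  rcases h.eq_or_lt with rfl | h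
  · exact PS.EE.refl _
  · obtain ⟨d, hd⟩ := Z.TP_gt j
    exact (TP_facts hN d).emb i j h hd

theorem TP_isK (i : ι) : IsK (N i).ps.sub Z.K := (hN i).ext.isK

omit hN in
theorem TP_bs_bot : Z.bs N Z.X.bot = Z.P0 := by simp [bs]

omit hN in
theorem TP_bI_bot : Z.bI Z.X.bot = Z.K := by simp [bI]

omit hN in
theorem TP_bs_succ {i : ι} (h : i ∉ Z.X.L) : Z.bs N i = (N (Z.X.pv i)).ps := by
  have : i ≠ Z.X.bot := fun h' => h (h' ▸ Z.X.bot_mem)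
  simp [bs, this, h]

omit hN in
theorem TP_bI_succ {i : ι} (h : i ∉ Z.X.L) : Z.bI i = Z.K := by
  have : i ≠ Z.X.bot := fun h' => h (h' ▸ Z.X.bot_mem)
  simp [bI, this, h]

omit hN in
theorem TP_bI_lim {i : ι} (h : i ∈ Z.X.L) (hb : i ≠ Z.X.bot) : Z.bI i = Z.V.I (Z.X.h i) := by
  simp [bI, hb, h]

theorem TP_j (i : ι) (a : J) : (N i).ps.j a = Z.P0.j a := by
  have h1 := (TP_EE hN (Z.X.bot_le i)).j a
  have h2 := (hN Z.X.bot).ext.emb.j a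
  rw [TP_bs_bot] at h2
  rw [h1, h2]

theorem TP_zero (i : ι) : (N i).ps.zero = Z.P0.zero := by
  have h1 := (TP_EE hN (Z.X.bot_le i)).zero
  have h2 := (hN Z.X.bot).ext.emb.zero
  rw [TP_bs_bot] at h2
  rw [h1, h2]

theorem TP_bs_j (i : ι) (a : J) : (Z.bs N i).j a = Z.P0.j a := by
  rw [← TP_j hN i a, (hN i).ext.emb.j a]

theorem TP_bs_zero (i : ι) : (Z.bs N i).zero = Z.P0.zero := by
  rw [← TP_zero hN i, (hN i).ext.emb.zero]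

theorem TP_j_mem (i : ι) (a : J) : Z.P0.j a ∈ (N i).ps.U := TP_j hN i a ▸ (N i).ps.j_mem a

theorem TP_zero_mem (i : ι) : Z.P0.zero ∈ (N i).ps.U := TP_zero hN i ▸ (N i).ps.zero_mem

theorem TP_bs_zero_mem (i : ι) : Z.P0.zero ∈ (Z.bs N i).U :=
  TP_bs_zero hN i ▸ (Z.bs N i).zero_mem

/-- the level of a limit node -/
theorem TP_level {e : ι} (he : e ∈ Z.X.L) {H : ℕ} (hH : 1 ≤ H)
    (h : e ≠ Z.X.bot → Z.X.h e = H) {a : J} (ha : a ∈ (Z.V.I (H + 1)).s) : a ≤ (N e).l := by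
  by_cases hb : e = Z.X.bot
  · rw [(hN e).l_bot hb]
    by_contra hlt
    exact Z.V.lU_nmem ((Z.V.I 1).down (not_le.1 hlt).le (Z.TP_anti (by omega) ha))
  · rw [(hN e).l_lim he hb, h hb]
    by_contra hlt
    exact Z.V.lv_nmem H 0 ((Z.V.I (H + 1)).down (not_le.1 hlt).le ha)

/-- the level of an unconstrained node -/
theorem TP_levelU {i : ι} (h1 : i ∉ Z.X.L) (h2 : i ∉ Z.X.S) {a : J} (ha : a ∈ (Z.V.I 1).s) :
    a ≤ (N i).l := by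
  rw [(hN i).l_U h1 h2]
  by_contra hlt
  exact Z.V.lU_nmem ((Z.V.I 1).down (not_le.1 hlt).le ha)

end aux

end Setup

/-- tuples -/
def tpTup {Ω : Type} (A : PS Ω) : List Ω → Ω → Ω
  | [], x => x
  | a :: l, x => A.pair a (tpTup A l x)

theorem tpTup_mem {Ω : Type} (A : PS Ω) (l : List Ω) (x : Ω) (hl : ∀ y ∈ l, y ∈ A.U)
    (hx : x ∈ A.U) : tpTup A l x ∈ A.U := by
  induction l with
  | nil => exact hx
  | cons a l ih =>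
    exact A.pair_mem (hl a (by simp)) (ih fun y hy => hl y (by simp [hy]))

theorem tpTup_EE {Ω : Type} {A B : PS Ω} (h : PS.EE A B) (l : List Ω) (x : Ω)
    (hl : ∀ y ∈ l, y ∈ A.U) (hx : x ∈ A.U) : tpTup B l x = tpTup A l x := by
  induction l with
  | nil => rfl
  | cons a l ih =>
    have hl' : ∀ y ∈ l, y ∈ A.U := fun y hy => hl y (by simp [hy])
    show B.pair a (tpTup B l x) = A.pair a (tpTup A l x)
    rw [ih hl']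
    exact h.pair _ (hl a (by simp)) _ (tpTup_mem A l x hl' hx)

theorem tpTup_gn {Ω : Type} {B : PS Ω} {G : Set Ω} (hG : ∀ v ∈ G, ∀ w ∈ G, B.pair v w ∈ G)
    (l : List Ω) (x : Ω) (hl : ∀ y ∈ l, y ∈ G) (hx : x ∈ G) : tpTup B l x ∈ G := by
  induction l with
  | nil => exact hx
  | cons a l ih =>
    exact hG _ (hl a (by simp)) _ (ih fun y hy => hl y (by simp [hy]))

theorem PS.TP_antisymm {Ω : Type} {A : PS Ω} {I : Cut} (hA : IsK A.sub I) {x y : Ω}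
    (hx : x ∈ A.U) (hy : y ∈ A.U) (h1 : A.le x y) (h2 : A.le y x) : x = y := by
  rcases h1 with h1 | h1
  · rcases h2 with h2 | h2
    · exact absurd (hA.trans (a := ⟨x, hx⟩) (b := ⟨y, hy⟩) (c := ⟨x, hx⟩) h1 h2) (hA.irrefl _)
    · exact h2.symm
  · exact h1

theorem PS.TP_G1_unique {Ω : Type} {A : PS Ω} {I : Cut} (hA : IsK A.sub I) {l : J}
    {l1 u1 d m b b' : Ω} (hb : b ∈ A.U) (hb' : b' ∈ A.U) (h : A.G1 l l1 u1 d m b)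
    (h' : A.G1 l l1 u1 d m b') : b = b' :=
  PS.TP_antisymm hA hb hb' (h'.2.2 b hb h.1 h.2.1) (h.2.2 b' hb' h'.1 h'.2.1)

theorem PS.TP_G2_unique {Ω : Type} {A : PS Ω} {I : Cut} (hA : IsK A.sub I) {l : J}
    {l1 u1 b1 l2 u2 d m b b' : Ω} (hb : b ∈ A.U) (hb' : b' ∈ A.U)
    (h : A.G2 l l1 u1 b1 l2 u2 d m b) (h' : A.G2 l l1 u1 b1 l2 u2 d m b') : b = b' :=
  PS.TP_antisymm hA hb hb' (h'.2.2 b hb h.1 h.2.1) (h.2.2 b' hb' h'.1 h'.2.1)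

theorem PS.TP_fst_pair {Ω : Type} {A : PS Ω} {I : Cut} (hA : IsK A.sub I) {x y : Ω}
    (hx : x ∈ A.U) (hy : y ∈ A.U) : A.fst (A.pair x y) = x :=
  congrArg Subtype.val (hA.pairing.fst_pair ⟨x, hx⟩ ⟨y, hy⟩)

theorem PS.TP_snd_pair {Ω : Type} {A : PS Ω} {I : Cut} (hA : IsK A.sub I) {x y : Ω}
    (hx : x ∈ A.U) (hy : y ∈ A.U) : A.snd (A.pair x y) = y :=
  congrArg Subtype.val (hA.pairing.snd_pair ⟨x, hx⟩ ⟨y, hy⟩)

theorem tpUdFst : UD (fun _ _ A _ e => A.fst (e 0) = A.fst (A.snd (e 0))) :=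
  UD.eq (TD.fst (TD.var 0)) (TD.fst (TD.snd (TD.var 0)))

theorem tpUdSnd : UD (fun _ _ A _ e => A.fst (e 0) = A.snd (A.snd (e 0))) :=
  UD.eq (TD.fst (TD.var 0)) (TD.snd (TD.snd (TD.var 0)))

theorem PExt.TP_gn_fst {Ω : Type} {A : PS Ω} {I K : Cut} {N : Nd Ω} (h : PExt A I K N) {I' : Cut}
    {p : Ω} (hp : p ∈ A.U) (hI : I' ≤ I) {v : Ω} (hv : v ∈ N.Gn I' p)
    (hl : tpUdFst.cd (fun _ => (num 0 : J)) ≤ N.l) : N.ps.fst v ∈ N.Gn I' p := by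
  have hvU := h.gn_mem I' p hp hI hv
  refine h.gn_def I' p hp hI v hv (tpUdFst.cd (fun _ => (num 0 : J)))
    (UD.cd_mem _ I' (fun _ => I'.num 0)) hl _ (N.ps.fst_mem hvU) fun w' hw' => ?_
  have h1 := PS.cd_spec (R := fun _ _ A _ x => A.fst x = A.fst (A.snd x)) tpUdFst h.isK
    (ρ := fun _ => (num 0 : J)) (fun _ => K.num 0) ⟨N.ps.pair w' v, N.ps.pair_mem hw' hvU⟩
  rw [h1]
  constructor
  · intro h2
    have h3 := congrArg Subtype.val h2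
    have h4 : N.ps.fst (N.ps.pair w' v) = N.ps.fst (N.ps.snd (N.ps.pair w' v)) := h3
    rwa [PS.TP_fst_pair h.isK hw' hvU, PS.TP_snd_pair h.isK hw' hvU] at h4
  · intro h2
    apply Subtype.ext
    show N.ps.fst (N.ps.pair w' v) = N.ps.fst (N.ps.snd (N.ps.pair w' v))
    rw [PS.TP_fst_pair h.isK hw' hvU, PS.TP_snd_pair h.isK hw' hvU, h2]

theorem PExt.TP_gn_snd {Ω : Type} {A : PS Ω} {I K : Cut} {N : Nd Ω} (h : PExt A I K N) {I' : Cut}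
    {p : Ω} (hp : p ∈ A.U) (hI : I' ≤ I) {v : Ω} (hv : v ∈ N.Gn I' p)
    (hl : tpUdSnd.cd (fun _ => (num 0 : J)) ≤ N.l) : N.ps.snd v ∈ N.Gn I' p := by
  have hvU := h.gn_mem I' p hp hI hv
  refine h.gn_def I' p hp hI v hv (tpUdSnd.cd (fun _ => (num 0 : J)))
    (UD.cd_mem _ I' (fun _ => I'.num 0)) hl _ (N.ps.snd_mem hvU) fun w' hw' => ?_
  have h1 := PS.cd_spec (R := fun _ _ A _ x => A.fst x = A.snd (A.snd x)) tpUdSnd h.isK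
    (ρ := fun _ => (num 0 : J)) (fun _ => K.num 0) ⟨N.ps.pair w' v, N.ps.pair_mem hw' hvU⟩
  rw [h1]
  constructor
  · intro h2
    have h3 := congrArg Subtype.val h2
    have h4 : N.ps.fst (N.ps.pair w' v) = N.ps.snd (N.ps.snd (N.ps.pair w' v)) := h3
    rwa [PS.TP_fst_pair h.isK hw' hvU, PS.TP_snd_pair h.isK hw' hvU] at h4
  · intro h2
    apply Subtype.ext
    show N.ps.fst (N.ps.pair w' v) = N.ps.snd (N.ps.snd (N.ps.pair w' v))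
    rw [PS.TP_fst_pair h.isK hw' hvU, PS.TP_snd_pair h.isK hw' hvU, h2]

namespace Setup

variable {Ω ι : Type} [LinearOrder ι] {Z : Setup Ω ι} {N : ι → Nd Ω} (hN : ∀ i, Z.Spec N i)

theorem TP_pd_lt {c : ι} (hc : c ∈ Z.X.S) : Z.X.pd c < Z.X.sc (Z.X.pd c) := by
  have h := Z.X.pv_lt _ (Z.X.sc_L _ (Z.X.pd_LS c hc))
  rwa [Z.X.pv_sc _ (Z.X.pd_LS c hc)] at h

theorem TP_sc_le {c : ι} (hc : c ∈ Z.X.S) : Z.X.sc (Z.X.pd c) ≤ Z.X.pv c :=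
  Z.X.le_pv c (Z.X.disj c hc) _ (Z.X.sc_pd c hc)

theorem TP_rt_lt {c : ι} (hc : c ∈ Z.X.S) (hp : Z.X.pd c ∈ Z.X.S) :
    Z.X.rt c < Z.X.pd c := by
  rw [(Z.X.rt_S c hc hp).1]
  exact (Z.rt_facts _ hp).2.1

include hN

theorem TP_q0 {c : ι} (hc : c ∈ Z.X.S) (hp : Z.X.pd c ∈ Z.X.L) :
    (N c).q ∈ (N (Z.X.pd c)).ps.U := by
  obtain ⟨_, b1, hb1, l1, _, hq, _⟩ := (hN c).s0 hc hp
  rw [hq]
  have hz := TP_zero_mem hN (Z.X.pd c)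
  exact PS.pair_mem _ (TP_j_mem hN _ _) (PS.pair_mem _ ((hN _).ext.can_mem _)
    (PS.pair_mem _ hb1 (PS.pair_mem _ hz (PS.pair_mem _ hz hz))))

theorem TP_q1 {c : ι} (hc : c ∈ Z.X.S) (hp : Z.X.pd c ∈ Z.X.S) :
    (N c).q ∈ (N (Z.X.sc (Z.X.pd c))).ps.U := by
  obtain ⟨_, b1, hb1, b2, hb2, l1, l2, _, _, hq, _⟩ := (hN c).s1 hc hp
  rw [hq]
  have hE := TP_EE hN ((TP_rt_lt hc hp).trans (TP_pd_lt hc)).le
  exact PS.pair_mem _ (TP_j_mem hN _ _) (PS.pair_mem _ (hE.sub ((hN _).ext.can_mem _))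
    (PS.pair_mem _ (hE.sub hb1) (PS.pair_mem _ (TP_j_mem hN _ _)
      (PS.pair_mem _ ((hN _).ext.can_mem _) hb2))))

/-- the trace of a service node -/
theorem TP_P1i {c : ι} (hc : c ∈ Z.X.S) {i : ι} (hi : i ≤ Z.X.pv c) (hq : (N c).q ∈ (N i).ps.U)
    {g : J} (hg : g ∈ Z.K.s) :
    tpTup (N i).ps [Z.P0.j g, (N c).q, Z.P0.j (N c).d] (Z.P0.j (N c).l) ∈ (N i).ps.U ∧
    ∀ z ∈ (N (Z.X.pv c)).ps.U, ((N c).ps.S g z ↔ (N (Z.X.pv c)).ps.S (thC (N c).l)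
      ((N (Z.X.pv c)).ps.pair z
        (tpTup (N i).ps [Z.P0.j g, (N c).q, Z.P0.j (N c).d] (Z.P0.j (N c).l)))) := by
  have hl : ∀ y ∈ [Z.P0.j g, (N c).q, Z.P0.j (N c).d], y ∈ (N i).ps.U := by
    intro y hy
    simp only [List.mem_cons, List.not_mem_nil, or_false] at hy
    rcases hy with rfl | rfl | rfl
    · exact TP_j_mem hN _ _
    · exact hq
    · exact TP_j_mem hN _ _
  refine ⟨tpTup_mem _ _ _ hl (TP_j_mem hN _ _), fun z hz => ?_⟩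
  rw [← tpTup_EE (TP_EE hN hi) _ _ hl (TP_j_mem hN _ _)]
  have hL := Z.X.disj c hc
  have h := (hN c).ext.trace g hg
  rw [TP_bs_succ hL] at h
  have h2 := h z hz
  simp only [TP_j hN] at h2
  exact h2

omit hN in
theorem TP_bI {c : ι} (hc : c ∈ Z.X.S) : Z.V.I (Z.X.h c) ≤ Z.bI (Z.X.rt c) := by
  obtain ⟨h1, _, h3⟩ := Z.rt_facts c hc
  by_cases hb : Z.X.rt c = Z.X.bot
  · rw [hb, TP_bI_bot]
    exact Z.TP_anti (Nat.zero_le _)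
  · rw [TP_bI_lim h1 hb, h3 hb]
    exact fun x hx => hx

theorem TP_lev {c : ι} (hc : c ∈ Z.X.S) {a : J} (ha : a ∈ (Z.V.I (Z.X.h c + 1)).s) :
    a ≤ (N (Z.X.rt c)).l := by
  obtain ⟨h1, _, h3⟩ := Z.rt_facts c hc
  exact TP_level hN h1 (Z.X.h_pos c hc) h3 ha

theorem TP_P2x {c : ι} (hc : c ∈ Z.X.S) (hp : Z.X.pd c ∈ Z.X.S) {g : J} (hg : g ∈ Z.K.s) :
    ∃ b1 ∈ (N (Z.X.rt c)).ps.U,
      (N (Z.X.pd c)).ps.G1 (Z.V.lv (Z.X.h c) (Z.X.kk (Z.X.pd c)))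
        (Z.P0.j (Z.V.lv (Z.X.h c) (Z.X.kk c + 1)))
        ((N (Z.X.rt c)).can (Z.V.lv (Z.X.h c) (Z.X.kk c + 1))) (Z.P0.j (N c).d)
        (N (Z.X.rt c)).m b1 ∧
      ∃ th ∈ (Z.V.I (Z.X.h c)).s, ∃ P : J, ∀ z ∈ (N (Z.X.pd c)).ps.U,
        ((N c).ps.S g z ↔ (N (Z.X.pd c)).ps.S th ((N (Z.X.pd c)).ps.pair z
          ((N (Z.X.pd c)).ps.pair ((N (Z.X.pd c)).ps.pair
            ((N (Z.X.rt c)).can (Z.V.lv (Z.X.h c) (Z.X.kk c + 1))) b1) (Z.P0.j P)))) := by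
  obtain ⟨hcoh, b1, hb1, b2, hb2, l1, l2, hl1, hl2, hq, -, hG1, -, hG2⟩ := (hN c).s1 hc hp
  subst hl1 hl2
  refine ⟨b1, hb1, hG1, ?_⟩
  obtain ⟨hn, hln⟩ := (hN c).l_S hc
  have hq1 := TP_q1 hN hc hp
  obtain ⟨hQU, hQ⟩ := TP_P1i hN hc (TP_sc_le hc) hq1 hg
  have hEeν := TP_EE hN (TP_rt_lt hc hp).le
  have hEνs := TP_EE hN (TP_pd_lt hc).le
  have hEsp := TP_EE hN (TP_sc_le hc)
  have hsL := Z.X.sc_L (Z.X.pd c) (Or.inr hp)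
  have hsS := Z.X.sc_S (Z.X.pd c) (Or.inr hp)
  have hext := (hN (Z.X.sc (Z.X.pd c))).ext
  rw [TP_bs_succ hsL, TP_bI_succ hsL, Z.X.pv_sc _ (Or.inr hp)] at hext
  have hI' : Z.V.I (Z.X.h c) ≤ Z.K := Z.TP_anti (Nat.zero_le _)
  have hh1 := Z.X.h_pos c hc
  have hlev : ∀ a : J, a ∈ (Z.V.I 1).s → a ≤ (N (Z.X.sc (Z.X.pd c))).l :=
    fun a ha => TP_levelU hN hsL hsS ha
  set u1 := (N (Z.X.rt c)).can (Z.V.lv (Z.X.h c) (Z.X.kk c + 1)) with hu1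
  have hu1e : u1 ∈ (N (Z.X.rt c)).ps.U := (hN _).ext.can_mem _
  have hu1ν := hEeν.sub hu1e
  have hb1ν := hEeν.sub hb1
  set p := (N (Z.X.pd c)).ps.pair u1 b1 with hpdef
  have hpU : p ∈ (N (Z.X.pd c)).ps.U := PS.pair_mem _ hu1ν hb1ν
  have hpB : (N (Z.X.sc (Z.X.pd c))).ps.pair u1 b1 = p := hEνs.pair _ hu1ν _ hb1ν
  have hpG := hext.gn_p _ p hpU hI'
  have hu1G : u1 ∈ (N (Z.X.sc (Z.X.pd c))).Gn (Z.V.I (Z.X.h c)) p := by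
    have h := hext.TP_gn_fst hpU hI' hpG (hlev _ (UD.cd_mem _ _ (fun _ => (Z.V.I 1).num 0)))
    rwa [← hpB, PS.TP_fst_pair hext.isK (hEνs.sub hu1ν) (hEνs.sub hb1ν), hpB] at h
  have hb1G : b1 ∈ (N (Z.X.sc (Z.X.pd c))).Gn (Z.V.I (Z.X.h c)) p := by
    have h := hext.TP_gn_snd hpU hI' hpG (hlev _ (UD.cd_mem _ _ (fun _ => (Z.V.I 1).num 0)))
    rwa [← hpB, PS.TP_snd_pair hext.isK (hEνs.sub hu1ν) (hEνs.sub hb1ν), hpB] at h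
  have hjG : ∀ a, Z.P0.j a ∈ (N (Z.X.sc (Z.X.pd c))).Gn (Z.V.I (Z.X.h c)) p := by
    intro a
    have h := hext.gn_j _ p hpU a hI'
    rwa [TP_j hN] at h
  have hmG := hext.gn_m _ p hpU hI'
  have hu2G := hext.gn_can _ p hpU hI' _ (Z.V.lv_mem (Z.X.h c) (Z.X.kk (Z.X.pd c)))
  set u2 := (N (Z.X.sc (Z.X.pd c))).can (Z.V.lv (Z.X.h c) (Z.X.kk (Z.X.pd c))) with hu2
  have hpair := hext.gn_pair _ p hpU hI'
  -- `b2` is generated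
  have hb2G : b2 ∈ (N (Z.X.sc (Z.X.pd c))).Gn (Z.V.I (Z.X.h c)) p := by
    obtain ⟨c2, hc2I, hc2⟩ := PS.G2_code (Ω := Ω) (N c).l
    have hc2n := hc2I _ hln
    have hvG : tpTup (N (Z.X.sc (Z.X.pd c))).ps [Z.P0.j (N c).l,
        Z.P0.j (Z.V.lv (Z.X.h c) (Z.X.kk c + 1)), u1, b1,
        Z.P0.j (Z.V.lv (Z.X.h c) (Z.X.kk (Z.X.pd c))), u2, Z.P0.j (N c).d]
        (N (Z.X.sc (Z.X.pd c))).m ∈ (N (Z.X.sc (Z.X.pd c))).Gn (Z.V.I (Z.X.h c)) p := by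
      refine tpTup_gn hpair _ _ ?_ hmG
      intro y hy
      simp only [List.mem_cons, List.not_mem_nil, or_false] at hy
      rcases hy with rfl | rfl | rfl | rfl | rfl | rfl | rfl
      · exact hjG _
      · exact hjG _
      · exact hu1G
      · exact hb1G
      · exact hjG _
      · exact hu2G
      · exact hjG _
    refine hext.gn_def _ p hpU hI' _ hvG c2 (Z.TP_anti (by omega) hc2n)
      (hlev _ (Z.TP_anti (by omega) hc2n)) b2 hb2 fun w' hw' => ?_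
    have hmem : ∀ y ∈ [w', Z.P0.j (N c).l,
        Z.P0.j (Z.V.lv (Z.X.h c) (Z.X.kk c + 1)), u1, b1,
        Z.P0.j (Z.V.lv (Z.X.h c) (Z.X.kk (Z.X.pd c))), u2, Z.P0.j (N c).d],
        y ∈ (N (Z.X.sc (Z.X.pd c))).ps.U := by
      intro y hy
      simp only [List.mem_cons, List.not_mem_nil, or_false] at hy
      rcases hy with rfl | rfl | rfl | rfl | rfl | rfl | rfl | rfl
      · exact hw'
      · exact TP_j_mem hN _ _
      · exact TP_j_mem hN _ _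
      · exact hEνs.sub hu1ν
      · exact hEνs.sub hb1ν
      · exact TP_j_mem hN _ _
      · exact hext.can_mem _
      · exact TP_j_mem hN _ _
    have hx := tpTup_mem (N (Z.X.sc (Z.X.pd c))).ps _ (N (Z.X.sc (Z.X.pd c))).m hmem hext.m_mem
    have h1 := hcoh c2 hc2n _ hx
    have hD := TP_isK hN (Z.X.pv c)
    have h2 := hc2 (N (Z.X.pv c)).ps Z.K hD (Z.TP_anti (Nat.zero_le _) hln)
      (Z.P0.j (Z.V.lv (Z.X.h c) (Z.X.kk c + 1))) (TP_j_mem hN _ _)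
      u1 (hEsp.sub (hEνs.sub hu1ν)) b1 (hEsp.sub (hEνs.sub hb1ν))
      (Z.P0.j (Z.V.lv (Z.X.h c) (Z.X.kk (Z.X.pd c)))) (TP_j_mem hN _ _)
      u2 (hEsp.sub (hext.can_mem _)) (Z.P0.j (N c).d) (TP_j_mem hN _ _)
      (N (Z.X.sc (Z.X.pd c))).m (hEsp.sub hext.m_mem) w' (hEsp.sub hw')
    rw [TP_j hN] at h2
    have h2' : (N (Z.X.pv c)).ps.S c2 (tpTup (N (Z.X.pv c)).ps [w', Z.P0.j (N c).l,
        Z.P0.j (Z.V.lv (Z.X.h c) (Z.X.kk c + 1)), u1, b1,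
        Z.P0.j (Z.V.lv (Z.X.h c) (Z.X.kk (Z.X.pd c))), u2, Z.P0.j (N c).d]
        (N (Z.X.sc (Z.X.pd c))).m) ↔ _ := h2
    rw [tpTup_EE hEsp _ _ hmem hext.m_mem] at h2'
    have h3 : (N (Z.X.sc (Z.X.pd c))).ps.S c2 ((N (Z.X.sc (Z.X.pd c))).ps.pair w'
        (tpTup (N (Z.X.sc (Z.X.pd c))).ps [Z.P0.j (N c).l,
        Z.P0.j (Z.V.lv (Z.X.h c) (Z.X.kk c + 1)), u1, b1,
        Z.P0.j (Z.V.lv (Z.X.h c) (Z.X.kk (Z.X.pd c))), u2, Z.P0.j (N c).d]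
        (N (Z.X.sc (Z.X.pd c))).m)) ↔ _ := h1.symm.trans h2'
    rw [h3]
    constructor
    · intro h4
      exact PS.TP_G2_unique hD (hEsp.sub hw') (hEsp.sub hb2) h4 hG2
    · rintro rfl
      exact hG2
  have hqG : (N c).q ∈ (N (Z.X.sc (Z.X.pd c))).Gn (Z.V.I (Z.X.h c)) p := by
    rw [hq]
    exact hpair _ (hjG _) _ (hpair _ hu1G _ (hpair _ hb1G _ (hpair _ (hjG _) _
      (hpair _ hu2G _ hb2G))))
  have hQG : tpTup (N (Z.X.sc (Z.X.pd c))).ps [Z.P0.j g, (N c).q, Z.P0.j (N c).d]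
      (Z.P0.j (N c).l) ∈ (N (Z.X.sc (Z.X.pd c))).Gn (Z.V.I (Z.X.h c)) p :=
    hpair _ (hjG _) _ (hpair _ hqG _ (hpair _ (hjG _) _ (hjG _)))
  have hthn := thC_mem _ hln
  obtain ⟨θ, hθ, P, hP⟩ := hext.gn_trace _ p hpU hI' _ hQG (thC (N c).l)
    (Z.TP_anti (by omega) hthn) (hlev _ (Z.TP_anti (by omega) hthn))
  refine ⟨θ, hθ, P, fun z hz => ?_⟩
  have hzs := hEνs.sub hz
  rw [hQ z (hEsp.sub hzs), ← TP_j hN (Z.X.pd c) P, ← hP z hz, hEsp.pair _ hzs _ hQU]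
  exact hcoh _ hthn _ (PS.pair_mem _ hzs hQU)


/-- the generated elements of the root -/
theorem TP_gnE {c : ι} (hc : c ∈ Z.X.S) :
    (N (Z.X.rt c)).Gn (Z.V.I (Z.X.h c)) Z.P0.zero ⊆ (N (Z.X.rt c)).ps.U ∧
    Z.P0.zero ∈ (N (Z.X.rt c)).Gn (Z.V.I (Z.X.h c)) Z.P0.zero ∧
    (∀ a, Z.P0.j a ∈ (N (Z.X.rt c)).Gn (Z.V.I (Z.X.h c)) Z.P0.zero) ∧
    (N (Z.X.rt c)).m ∈ (N (Z.X.rt c)).Gn (Z.V.I (Z.X.h c)) Z.P0.zero ∧
    (∀ a ∈ (Z.V.I (Z.X.h c)).s,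
      (N (Z.X.rt c)).can a ∈ (N (Z.X.rt c)).Gn (Z.V.I (Z.X.h c)) Z.P0.zero) ∧
    (∀ v ∈ (N (Z.X.rt c)).Gn (Z.V.I (Z.X.h c)) Z.P0.zero,
      ∀ w ∈ (N (Z.X.rt c)).Gn (Z.V.I (Z.X.h c)) Z.P0.zero,
      (N (Z.X.rt c)).ps.pair v w ∈ (N (Z.X.rt c)).Gn (Z.V.I (Z.X.h c)) Z.P0.zero) := by
  have h := (hN (Z.X.rt c)).ext
  have hz := TP_bs_zero_mem hN (Z.X.rt c)
  have hI := TP_bI hc
  refine ⟨h.gn_mem _ _ hz hI, h.gn_p _ _ hz hI, fun a => ?_, h.gn_m _ _ hz hI,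
    h.gn_can _ _ hz hI, h.gn_pair _ _ hz hI⟩
  have h2 := h.gn_j _ _ hz a hI
  rwa [TP_bs_j hN] at h2

/-- definability of the element `b` in the root -/
theorem TP_defE {c : ι} (hc : c ∈ Z.X.S) {v : Ω}
    (hv : v ∈ (N (Z.X.rt c)).Gn (Z.V.I (Z.X.h c)) Z.P0.zero) {g : J}
    (hg : g ∈ (Z.V.I (Z.X.h c + 1)).s) {w : Ω} (hw : w ∈ (N (Z.X.rt c)).ps.U)
    (h : ∀ w' ∈ (N (Z.X.rt c)).ps.U,
      ((N (Z.X.rt c)).ps.S g ((N (Z.X.rt c)).ps.pair w' v) ↔ w' = w)) :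
    w ∈ (N (Z.X.rt c)).Gn (Z.V.I (Z.X.h c)) Z.P0.zero :=
  (hN (Z.X.rt c)).ext.gn_def _ _ (TP_bs_zero_mem hN _) (TP_bI hc) v hv g
    (Z.TP_anti (by omega) hg) (TP_lev hN hc hg) w hw h

theorem TP_base {c : ι} (hc : c ∈ Z.X.S) (hp : Z.X.pd c ∈ Z.X.L) {g : J} (hg : g ∈ Z.K.s) :
    ∃ th ∈ (Z.V.I (Z.X.h c + 1)).s,
      ∃ P ∈ (N (Z.X.rt c)).Gn (Z.V.I (Z.X.h c)) Z.P0.zero, ∀ z ∈ (N (Z.X.rt c)).ps.U,
      ((N c).ps.S g z ↔ (N (Z.X.rt c)).ps.S th ((N (Z.X.rt c)).ps.pair z P)) := by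
  obtain ⟨hre, -⟩ := Z.X.rt_L c hc hp
  obtain ⟨hn, hln⟩ := (hN c).l_S hc
  obtain ⟨hcoh, b1, hb1, l1, hl1, hq, -, hG1⟩ := (hN c).s0 hc hp
  subst hl1
  have hle := (TP_pd_lt hc).le.trans (TP_sc_le hc)
  obtain ⟨hQU, hQ⟩ := TP_P1i hN hc hle (TP_q0 hN hc hp) hg
  obtain ⟨-, hz, hj, hm, hcan, hpair⟩ := TP_gnE hN hc
  have hdef := fun v hv g hg w hw h => TP_defE hN hc (v := v) hv (g := g) hg (w := w) hw h
  rw [hre] at hz hj hm hcan hpair hdef ⊢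
  have hE := TP_EE hN hle
  have hext := (hN (Z.X.pd c)).ext
  have hu1 := hcan _ (Z.V.lv_mem (Z.X.h c) 1)
  set u1 := (N (Z.X.pd c)).can (Z.V.lv (Z.X.h c) 1) with hu1def
  have hb1G : b1 ∈ (N (Z.X.pd c)).Gn (Z.V.I (Z.X.h c)) Z.P0.zero := by
    obtain ⟨c1, hc1I, hc1⟩ := PS.G1_code (Ω := Ω) (N c).l
    have hc1n := hc1I _ hln
    have hvG : tpTup (N (Z.X.pd c)).ps [Z.P0.j (N c).l, Z.P0.j (Z.V.lv (Z.X.h c) 1), u1,
        Z.P0.j (N c).d] (N (Z.X.pd c)).m ∈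
        (N (Z.X.pd c)).Gn (Z.V.I (Z.X.h c)) Z.P0.zero := by
      refine tpTup_gn hpair _ _ ?_ hm
      intro y hy
      simp only [List.mem_cons, List.not_mem_nil, or_false] at hy
      rcases hy with rfl | rfl | rfl | rfl
      · exact hj _
      · exact hj _
      · exact hu1
      · exact hj _
    refine hdef _ hvG c1 (Z.TP_anti hn hc1n) b1 hb1 fun w' hw' => ?_
    have hmem : ∀ y ∈ [w', Z.P0.j (N c).l, Z.P0.j (Z.V.lv (Z.X.h c) 1), u1,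
        Z.P0.j (N c).d], y ∈ (N (Z.X.pd c)).ps.U := by
      intro y hy
      simp only [List.mem_cons, List.not_mem_nil, or_false] at hy
      rcases hy with rfl | rfl | rfl | rfl | rfl
      · exact hw'
      · exact TP_j_mem hN _ _
      · exact TP_j_mem hN _ _
      · exact hext.can_mem _
      · exact TP_j_mem hN _ _
    have hx := tpTup_mem (N (Z.X.pd c)).ps _ (N (Z.X.pd c)).m hmem hext.m_mem
    have h1 := hcoh c1 hc1n _ hx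
    have hD := TP_isK hN (Z.X.pv c)
    have h2 := hc1 (N (Z.X.pv c)).ps Z.K hD (Z.TP_anti (Nat.zero_le _) hln)
      (Z.P0.j (Z.V.lv (Z.X.h c) 1)) (TP_j_mem hN _ _)
      u1 (hE.sub (hext.can_mem _)) (Z.P0.j (N c).d) (TP_j_mem hN _ _)
      (N (Z.X.pd c)).m (hE.sub hext.m_mem) w' (hE.sub hw')
    rw [TP_j hN] at h2
    have h2' : (N (Z.X.pv c)).ps.S c1 (tpTup (N (Z.X.pv c)).ps [w', Z.P0.j (N c).l,
        Z.P0.j (Z.V.lv (Z.X.h c) 1), u1, Z.P0.j (N c).d] (N (Z.X.pd c)).m) ↔ _ := h2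
    rw [tpTup_EE hE _ _ hmem hext.m_mem] at h2'
    have h3 : (N (Z.X.pd c)).ps.S c1 ((N (Z.X.pd c)).ps.pair w'
        (tpTup (N (Z.X.pd c)).ps [Z.P0.j (N c).l, Z.P0.j (Z.V.lv (Z.X.h c) 1), u1,
        Z.P0.j (N c).d] (N (Z.X.pd c)).m)) ↔ _ := h1.symm.trans h2'
    rw [h3]
    constructor
    · intro h4
      exact PS.TP_G1_unique hD (hE.sub hw') (hE.sub hb1) h4 hG1
    · rintro rfl
      exact hG1
  have hqG : (N c).q ∈ (N (Z.X.pd c)).Gn (Z.V.I (Z.X.h c)) Z.P0.zero := by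
    rw [hq]
    exact hpair _ (hj _) _ (hpair _ hu1 _ (hpair _ hb1G _ (hpair _ hz _ (hpair _ hz _ hz))))
  have hQG : tpTup (N (Z.X.pd c)).ps [Z.P0.j g, (N c).q, Z.P0.j (N c).d]
      (Z.P0.j (N c).l) ∈ (N (Z.X.pd c)).Gn (Z.V.I (Z.X.h c)) Z.P0.zero :=
    hpair _ (hj _) _ (hpair _ hqG _ (hpair _ (hj _) _ (hj _)))
  have hthn := thC_mem _ hln
  refine ⟨thC (N c).l, Z.TP_anti hn hthn, _, hQG, fun z hz' => ?_⟩
  rw [hQ z (hE.sub hz'), hE.pair _ hz' _ hQU]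
  exact hcoh _ hthn _ (PS.pair_mem _ hz' hQU)

theorem TP_P3x (k : ℕ) : ∀ c ∈ Z.X.S, Z.X.kk c = k → ∀ g ∈ Z.K.s,
    ∃ th ∈ (Z.V.I (Z.X.h c + 1)).s,
      ∃ P ∈ (N (Z.X.rt c)).Gn (Z.V.I (Z.X.h c)) Z.P0.zero, ∀ z ∈ (N (Z.X.rt c)).ps.U,
      ((N c).ps.S g z ↔ (N (Z.X.rt c)).ps.S th ((N (Z.X.rt c)).ps.pair z P)) := by
  induction k with
  | zero =>
    intro c hc hk g hg
    rcases Z.X.pd_LS c hc with hp | hp
    · exact TP_base hN hc hp hg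
    · have := (Z.X.rt_S c hc hp).2
      omega
  | succ k ih =>
    intro c hc hk g hg
    rcases Z.X.pd_LS c hc with hp | hp
    · exact TP_base hN hc hp hg
    obtain ⟨hrt, hkk⟩ := Z.X.rt_S c hc hp
    have hb : Z.X.pd c ≠ Z.X.bot := fun h => Z.X.disj _ hp (h ▸ Z.X.bot_mem)
    have hh := Z.X.h_pd c hc hb
    have ihν := ih (Z.X.pd c) hp (by omega)
    rw [hh, ← hrt] at ihν
    obtain ⟨b1, hb1, hG1, θ, hθ, P, hP⟩ := TP_P2x hN hc hp hg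
    obtain ⟨hGU, hz, hj, hm, hcan, hpair⟩ := TP_gnE hN hc
    have hE := TP_EE hN (TP_rt_lt hc hp).le
    have hext := (hN (Z.X.rt c)).ext
    have hu1 := hcan _ (Z.V.lv_mem (Z.X.h c) (Z.X.kk c + 1))
    set u1 := (N (Z.X.rt c)).can (Z.V.lv (Z.X.h c) (Z.X.kk c + 1)) with hu1def
    have hIK : (Z.V.I (Z.X.h c)).s ⊆ Z.K.s := Z.TP_anti (Nat.zero_le _)
    have hIK' : (Z.V.I (Z.X.h c + 1)).s ⊆ Z.K.s := Z.TP_anti (Nat.zero_le _)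
    have hR := TP_isK hN (Z.X.rt c)
    have hb1G : b1 ∈ (N (Z.X.rt c)).Gn (Z.V.I (Z.X.h c)) Z.P0.zero := by
      obtain ⟨c1, hc1I, hc1⟩ := PS.G1_code (Ω := Ω) (Z.V.lv (Z.X.h c) (Z.X.kk (Z.X.pd c)))
      have hc1h := hc1I _ (Z.V.lv_mem _ _)
      obtain ⟨th1, hth1, P1, hP1, h1⟩ := ihν c1 (hIK hc1h)
      obtain ⟨th2, hth2, h2⟩ := PS.assoc_code (Ω := Ω) th1
      have hvG : tpTup (N (Z.X.rt c)).ps [Z.P0.j (Z.V.lv (Z.X.h c) (Z.X.kk (Z.X.pd c))),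
          Z.P0.j (Z.V.lv (Z.X.h c) (Z.X.kk c + 1)), u1, Z.P0.j (N c).d] (N (Z.X.rt c)).m ∈
          (N (Z.X.rt c)).Gn (Z.V.I (Z.X.h c)) Z.P0.zero := by
        refine tpTup_gn hpair _ _ ?_ hm
        intro y hy
        simp only [List.mem_cons, List.not_mem_nil, or_false] at hy
        rcases hy with rfl | rfl | rfl | rfl
        · exact hj _
        · exact hj _
        · exact hu1
        · exact hj _
      refine TP_defE hN hc (hpair _ hvG _ hP1) (hth2 _ hth1) hb1 fun w' hw' => ?_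
      rw [h2 (N (Z.X.rt c)).ps Z.K hR (hIK' hth1) w' hw' _ (hGU hvG) _ (hGU hP1),
        ← h1 _ (PS.pair_mem _ hw' (hGU hvG))]
      have hmem : ∀ y ∈ [w', Z.P0.j (Z.V.lv (Z.X.h c) (Z.X.kk (Z.X.pd c))),
          Z.P0.j (Z.V.lv (Z.X.h c) (Z.X.kk c + 1)), u1, Z.P0.j (N c).d],
          y ∈ (N (Z.X.rt c)).ps.U := by
        intro y hy
        simp only [List.mem_cons, List.not_mem_nil, or_false] at hy
        rcases hy with rfl | rfl | rfl | rfl | rfl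
        · exact hw'
        · exact TP_j_mem hN _ _
        · exact TP_j_mem hN _ _
        · exact hGU hu1
        · exact TP_j_mem hN _ _
      have h3 : tpTup (N (Z.X.pd c)).ps [w', Z.P0.j (Z.V.lv (Z.X.h c) (Z.X.kk (Z.X.pd c))),
          Z.P0.j (Z.V.lv (Z.X.h c) (Z.X.kk c + 1)), u1, Z.P0.j (N c).d] (N (Z.X.rt c)).m =
          (N (Z.X.rt c)).ps.pair w' (tpTup (N (Z.X.rt c)).ps
            [Z.P0.j (Z.V.lv (Z.X.h c) (Z.X.kk (Z.X.pd c))),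
            Z.P0.j (Z.V.lv (Z.X.h c) (Z.X.kk c + 1)), u1, Z.P0.j (N c).d]
            (N (Z.X.rt c)).m) := tpTup_EE hE _ _ hmem hext.m_mem
      rw [← h3]
      have hD := TP_isK hN (Z.X.pd c)
      have h4 := hc1 (N (Z.X.pd c)).ps Z.K hD (hIK (Z.V.lv_mem _ _))
        (Z.P0.j (Z.V.lv (Z.X.h c) (Z.X.kk c + 1))) (TP_j_mem hN _ _)
        u1 (hE.sub (hGU hu1)) (Z.P0.j (N c).d) (TP_j_mem hN _ _)
        (N (Z.X.rt c)).m (hE.sub hext.m_mem) w' (hE.sub hw')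
      rw [TP_j hN] at h4
      refine h4.trans ⟨fun h5 => ?_, ?_⟩
      · exact PS.TP_G1_unique hD (hE.sub hw') (hE.sub hb1) h5 hG1
      · rintro rfl
        exact hG1
    obtain ⟨th1, hth1, P1, hP1, h1⟩ := ihν θ (hIK hθ)
    obtain ⟨th2, hth2, h2⟩ := PS.assoc_code (Ω := Ω) th1
    have hRG := hpair _ (hpair _ hu1 _ hb1G) _ (hj P)
    refine ⟨th2, hth2 _ hth1, _, hpair _ hRG _ hP1, fun z hz' => ?_⟩
    rw [hP z (hE.sub hz'), h2 (N (Z.X.rt c)).ps Z.K hR (hIK' hth1) z hz' _ (hGU hRG) _ (hGU hP1),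
      ← h1 _ (PS.pair_mem _ hz' (hGU hRG)), hE.pair _ (hGU hu1) _ hb1,
      hE.pair _ (PS.pair_mem _ (hGU hu1) hb1) _ (TP_j_mem hN _ _),
      hE.pair _ hz' _ (hGU hRG)]

end Setup

namespace Setup

variable {Ω ι : Type} [LinearOrder ι] (Z : Setup Ω ι)

/-- property (P1) of a service node `c`: the satisfaction relation of `N c` for codes in `K` is
definable over `N (pv c)`, with a parameter in `N i`, where `i = pd c` or `i = sc (pd c)` -/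
theorem P1 {N : ι → Nd Ω} (hN : ∀ i, Z.Spec N i) {c : ι} (hc : c ∈ Z.X.S) {i : ι}
    (hi : (Z.X.pd c ∈ Z.X.L ∧ i = Z.X.pd c) ∨ (Z.X.pd c ∈ Z.X.S ∧ i = Z.X.sc (Z.X.pd c)))
    {g : J} (hg : g ∈ Z.K.s) :
    ∃ th ∈ (Z.V.I (N c).n).s, (∀ I' : Cut, (N c).l ∈ I'.s → th ∈ I'.s) ∧
      ∃ P ∈ (N i).ps.U, ∀ z ∈ (N (Z.X.pv c)).ps.U,
      ((N c).ps.S g z ↔ (N (Z.X.pv c)).ps.S th ((N (Z.X.pv c)).ps.pair z P)) := by
  obtain ⟨hn, hln⟩ := (hN c).l_S hc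
  have key : i ≤ Z.X.pv c ∧ (N c).q ∈ (N i).ps.U := by
    rcases hi with ⟨hp, rfl⟩ | ⟨hp, rfl⟩
    · exact ⟨(TP_pd_lt hc).le.trans (TP_sc_le hc), TP_q0 hN hc hp⟩
    · exact ⟨TP_sc_le hc, TP_q1 hN hc hp⟩
  obtain ⟨hU, h⟩ := TP_P1i hN hc key.1 key.2 hg
  exact ⟨thC (N c).l, thC_mem _ hln, fun I' hI' => thC_mem _ hI', _, hU, h⟩

/-- property (P3'): the satisfaction relation of `N c` for codes in `K` is definable over `N e`,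
`e = rt c`, with a code in `I (h c + 1)` and a generated parameter -/
theorem P3' {N : ι → Nd Ω} (hN : ∀ i, Z.Spec N i) {c : ι} (hc : c ∈ Z.X.S) {g : J}
    (hg : g ∈ Z.K.s) :
    ∃ th ∈ (Z.V.I (Z.X.h c + 1)).s,
      ∃ P ∈ (N (Z.X.rt c)).Gn (Z.V.I (Z.X.h c)) Z.P0.zero, ∀ z ∈ (N (Z.X.rt c)).ps.U,
      ((N c).ps.S g z ↔ (N (Z.X.rt c)).ps.S th ((N (Z.X.rt c)).ps.pair z P)) :=
  TP_P3x hN _ c hc rfl g hg

/-- property (P2): the satisfaction relation of `N c` for codes in `K` is definable over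
`N (pd c)`, with a code in `I (h c)` and a parameter in `N (rt c)` -/
theorem P2 {N : ι → Nd Ω} (hN : ∀ i, Z.Spec N i) {c : ι} (hc : c ∈ Z.X.S)
    (hp : Z.X.pd c ∈ Z.X.S) {g : J} (hg : g ∈ Z.K.s) :
    ∃ th ∈ (Z.V.I (Z.X.h c)).s, ∃ P ∈ (N (Z.X.rt c)).ps.U, ∀ z ∈ (N (Z.X.pd c)).ps.U,
      ((N c).ps.S g z ↔ (N (Z.X.pd c)).ps.S th ((N (Z.X.pd c)).ps.pair z P)) := by
  obtain ⟨b1, hb1, -, th, hth, P, h⟩ := TP_P2x hN hc hp hg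
  have hE := TP_EE hN (TP_rt_lt hc hp).le
  have hu := (hN (Z.X.rt c)).ext.can_mem (Z.V.lv (Z.X.h c) (Z.X.kk c + 1))
  refine ⟨th, hth, (N (Z.X.rt c)).ps.pair ((N (Z.X.rt c)).ps.pair
    ((N (Z.X.rt c)).can (Z.V.lv (Z.X.h c) (Z.X.kk c + 1))) b1) (Z.P0.j P),
    PS.pair_mem _ (PS.pair_mem _ hu hb1) (TP_j_mem hN _ _), fun z hz => ?_⟩
  rw [h z hz, hE.pair _ hu _ hb1, hE.pair _ (PS.pair_mem _ hu hb1) _ (TP_j_mem hN _ _)]

/-- property (P3): the satisfaction relation of `N c` for codes in `K` is definable over the base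
structure at `e = rt c`, with a code in `I (h c)` and a parameter in `J` -/
theorem P3 {N : ι → Nd Ω} (hN : ∀ i, Z.Spec N i) {c : ι} (hc : c ∈ Z.X.S) {g : J}
    (hg : g ∈ Z.K.s) :
    ∃ th ∈ (Z.V.I (Z.X.h c)).s, ∃ P : J, ∀ z ∈ (Z.bs N (Z.X.rt c)).U,
      ((N c).ps.S g z ↔ (Z.bs N (Z.X.rt c)).S th
        ((Z.bs N (Z.X.rt c)).pair z ((Z.bs N (Z.X.rt c)).j P))) := by
  obtain ⟨th, hth, P, hP, h⟩ := Z.P3' hN hc hg
  have hext := (hN (Z.X.rt c)).ext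
  have hz := TP_bs_zero_mem hN (Z.X.rt c)
  obtain ⟨θ, hθ, P', h'⟩ := hext.gn_trace _ _ hz (TP_bI hc) P hP th (Z.TP_anti (by omega) hth)
    (TP_lev hN hc hth)
  refine ⟨θ, hθ, pr (num 0) P', fun z hz' => ?_⟩
  rw [h z (hext.emb.sub hz'), h' z hz']
  have h1 : (Z.bs N (Z.X.rt c)).pair Z.P0.zero ((Z.bs N (Z.X.rt c)).j P') =
      (Z.bs N (Z.X.rt c)).j (pr (num 0) P') := by
    have h2 := congrArg Subtype.val (hext.isK.j_pair (num 0) P')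
    have h3 : (N (Z.X.rt c)).ps.j (pr (num 0) P') =
      (N (Z.X.rt c)).ps.pair ((N (Z.X.rt c)).ps.j (num 0)) ((N (Z.X.rt c)).ps.j P') := h2
    have h4 : (N (Z.X.rt c)).ps.j (num 0) = Z.P0.zero := by
      have h5 := congrArg Subtype.val (hext.isK.j_num 0)
      rw [← TP_zero hN (Z.X.rt c)]
      exact h5
    rw [← hext.emb.j (pr (num 0) P'), h3, h4, hext.emb.j P']
    exact (hext.emb.pair _ hz _ ((Z.bs N (Z.X.rt c)).j_mem _)).symm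
  rw [h1]

end Setup

end Pool.Agent.Helper4.KSq
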