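import Pool.Agent.Helper4.KSq.TFacts

set_option autoImplicit false

/-!
# The base structures
-/

namespace Pool.Agent.Helper4.KSq

open Filter Cod Cardinal

namespace Setup

variable {Ω ι : Type} [LinearOrder ι] (Z : Setup Ω ι)

private theorem bs_bot (N : ι → Nd Ω) : Z.bs N Z.X.bot = Z.P0 := by
  unfold bs; rw [if_pos rfl]

private theorem bI_bot : Z.bI Z.X.bot = Z.K := by
  unfold bI; rw [if_pos rfl]

private theorem bs_lim (N : ι → Nd Ω) {t : ι} (ht : t ∈ Z.X.L) (hb : t ≠ Z.X.bot) :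
    Z.bs N t = Z.Ml N t := by
  unfold bs; rw [if_neg hb, if_pos ht]

private theorem bI_lim {t : ι} (ht : t ∈ Z.X.L) (hb : t ≠ Z.X.bot) :
    Z.bI t = Z.V.I (Z.X.h t) := by
  unfold bI; rw [if_neg hb, if_pos ht]

private theorem bs_suc (N : ι → Nd Ω) {t : ι} (ht : t ∉ Z.X.L) :
    Z.bs N t = (N (Z.X.pv t)).ps := by
  have hb : t ≠ Z.X.bot := fun h => ht (h ▸ Z.X.bot_mem)
  unfold bs; rw [if_neg hb, if_neg ht]

private theorem bI_suc {t : ι} (ht : t ∉ Z.X.L) : Z.bI t = Z.K := by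
  have hb : t ≠ Z.X.bot := fun h => ht (h ▸ Z.X.bot_mem)
  unfold bI; rw [if_neg hb, if_neg ht]

private theorem I_sub (n : ℕ) : (Z.V.I n).s ⊆ Z.K.s := by
  induction n with
  | zero => exact subset_rfl
  | succ n ih => exact (Z.V.anti n : (Z.V.I (n + 1)).s ⊆ (Z.V.I n).s).trans ih

/-- the base structure at a limit node or at `bot` belongs to the class -/
theorem bs_isK {N : ι → Nd Ω} {d : ι} (hN : ∀ i < d, Z.Spec N i) : IsK (Z.bs N d).sub (Z.bI d) := by
  by_cases hb : d = Z.X.bot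
  · subst hb
    rw [bs_bot, bI_bot]
    exact Z.P0_isK
  · by_cases hL : d ∈ Z.X.L
    · rw [bs_lim Z N hL hb, bI_lim Z hL hb]
      exact (Z.facts hN).limK d hL hb le_rfl
    · rw [bs_suc Z N hL, bI_suc Z hL]
      exact (hN _ (Z.X.pv_lt d hL)).ext.isK

theorem bs_card {N : ι → Nd Ω} {d : ι} (hN : ∀ i < d, Z.Spec N i) : #(Z.bs N d).U < Z.κ := by
  by_cases hb : d = Z.X.bot
  · subst hb
    rw [bs_bot]
    exact Z.P0_card.trans_lt Z.unc
  · by_cases hL : d ∈ Z.X.L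
    · rw [bs_lim Z N hL hb, ((Z.facts hN).isLim d hL hb le_rfl).U]
      have e : (⋃ i ∈ Set.Iio d, (N i).ps.U) = ⋃ i : Set.Iio d, (N i).ps.U := by
        rw [Set.biUnion_eq_iUnion]
      rw [e]
      exact (Cardinal.card_iUnion_lt_iff_forall_of_isRegular Z.reg (Z.large.small d)).2
        fun i => (hN i i.2).card
    · rw [bs_suc Z N hL]
      exact (hN _ (Z.X.pv_lt d hL)).card

/-- at a limit node `t` (or `bot`), `psi` holds for some bound of the codes above `K` -/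
theorem bs_psi {N : ι → Nd Ω} {t : ι} (ht : t ∈ Z.X.L) (hN : ∀ i < t, Z.Spec N i) {l l1 : J}
    (hl : l ∈ (Z.bI t).s) (hl1 : l1 ∈ (Z.bI t).s) :
    ∃ d : J, (∀ k ∈ Z.K.s, k < d) ∧ (Z.bs N t).psi l l1 d := by
  have hK := Z.bs_isK hN
  have key : ∀ d ∈ Z.K.s, (Z.bs N t).psi l l1 d := by
    intro d hd
    by_cases hb : t = Z.X.bot
    · subst hb
      rw [bI_bot] at hl hl1 hK
      exact PS.psi_full hK hl hl1 hd
    · rw [bI_lim Z ht hb] at hl hl1 hK
      rw [bs_lim Z N ht hb] at hK ⊢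
      obtain ⟨c, hc, hcs⟩ := PS.psi_code (Ω := Ω) l l1
      obtain ⟨k, hk⟩ := Z.V.lv_cof (Z.X.h t) c (hc _ hl hl1)
      have hbt : Z.X.bot < t := lt_of_le_of_ne (Z.X.bot_le t) (Ne.symm hb)
      obtain ⟨c', hc'C, hc'S, -, hkk⟩ := Z.X.C_cof t ht hb _ hbt k
      have hc't := (Z.X.C_lt t ht hb c' hc'C).1
      have hle : c ≤ Z.V.lv (Z.X.h t) (Z.X.kk c') :=
        hk.trans (monotone_nat_of_le_succ (Z.V.lv_mono (Z.X.h t)) hkk)
      have hKc := (hN c' hc't).ext.isK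
      have hlK := I_sub Z _ hl
      have hl1K := I_sub Z _ hl1
      have h1 : (N c').ps.psi l l1 d := PS.psi_full hKc hlK hl1K hd
      rw [← hcs _ _ hKc hlK hl1K] at h1
      have hF := Z.facts hN
      have hE := (hF.isLim t ht hb le_rfl).emb c' hc't
      have hco := hF.cohL t ht hb le_rfl c' hc'C hc'S
      have m1 := (N c').ps.j_mem l
      have m2 := (N c').ps.j_mem l1
      have m3 := (N c').ps.j_mem d
      have m4 := (N c').ps.pair_mem m2 m3
      rw [← hcs _ _ hK hl hl1, hE.j, hE.j, hE.j, hE.pair _ m2 _ m3, hE.pair _ m1 _ m4]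
      exact (hco c hle _ ((N c').ps.pair_mem m1 m4)).2 h1
  obtain ⟨d, hd, hp⟩ := PS.psi_over hK hl hl1 Z.K Z.V.e0_nmem key
  refine ⟨d, fun k hk => ?_, hp⟩
  by_contra hkd
  exact hd (Z.K.down (not_lt.mp hkd) hk)

end Setup

end Pool.Agent.Helper4.KSq
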