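import Pool.Agent.Helper4.KSq.TS1

set_option autoImplicit false

/-!
# The step of the construction: limit nodes and unconstrained nodes
-/

namespace Pool.Agent.Helper4.KSq

open Filter Cod Cardinal

namespace Setup

variable {Ω ι : Type} [LinearOrder ι] (Z : Setup Ω ι)

theorem ts2_bs_upd {N : ι → Nd Ω} {d : ι} (x : Nd Ω) {i : ι} (hi : i ≤ d) :
    Z.bs (Function.update N d x) i = Z.bs N i := by
  refine Z.bs_congr fun j hj => ?_
  exact Function.update_of_ne (hj.trans_le hi).ne x N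

theorem ts2_not_mem {I : Cut} {a k : J} (ha : a ∉ I.s) (hk : k ∈ I.s) : k < a := by
  by_contra h
  exact ha (I.down (not_lt.1 h) hk)

/-- all nodes have the same zero -/
theorem ts2_zero_node {N : ι → Nd Ω} {d : ι} (hN : ∀ i < d, Z.Spec N i) {i : ι} (hi : i < d) :
    (N i).ps.zero = Z.P0.zero := by
  have hb : Z.X.bot < d := (Z.X.bot_le i).trans_lt hi
  have h0 : (N Z.X.bot).ps.zero = Z.P0.zero := by
    have h1 := (hN _ hb).ext.emb.zero
    have h2 : Z.bs N Z.X.bot = Z.P0 := by simp [bs]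
    rw [h2] at h1
    exact h1
  rcases (Z.X.bot_le i).eq_or_lt with h | h
  · rw [← h]; exact h0
  · rw [((Z.facts hN).emb _ _ h hi).zero, h0]

theorem ts2_zero {N : ι → Nd Ω} {d : ι} (hN : ∀ i < d, Z.Spec N i) :
    (Z.bs N d).zero = Z.P0.zero := by
  unfold bs
  by_cases hb : d = Z.X.bot
  · rw [if_pos hb]
  · rw [if_neg hb]
    by_cases hL : d ∈ Z.X.L
    · rw [if_pos hL]
      have hbd : Z.X.bot < d := lt_of_le_of_ne (Z.X.bot_le d) (Ne.symm hb)
      have h1 := ((Z.facts hN).isLim d hL hb le_rfl).emb Z.X.bot hbd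
      rw [h1.zero]
      exact Z.ts2_zero_node hN hbd
    · rw [if_neg hL]
      exact Z.ts2_zero_node hN (Z.X.pv_lt d hL)

theorem ts2_lU : NonSt Z.V.lU := fun n hn => Z.V.lU_nmem (hn ▸ (Z.V.I 1).num n)

/-- assembling the specification at a node which is not a service node -/
theorem ts2_spec {N : ι → Nd Ω} {d : ι} (hS : d ∉ Z.X.S) {x : Nd Ω}
    (hext : PExt (Z.bs N d) (Z.bI d) Z.K x) (hq : x.q = (Z.bs N d).zero)
    (hz : (Z.bs N d).zero = Z.P0.zero) (hc : #x.ps.U < Z.κ)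
    (hn : NonSt x.l) (hdg : ∀ k ∈ Z.K.s, k < x.d) (h1 : d = Z.X.bot → x.l = Z.V.lU)
    (h2 : d ∈ Z.X.L → d ≠ Z.X.bot → x.l = Z.V.lv (Z.X.h d) 0)
    (h3 : d ∉ Z.X.L → d ∉ Z.X.S → x.l = Z.V.lU) : Z.Spec (Function.update N d x) d := by
  have hu : Function.update N d x d = x := Function.update_self d x N
  refine ⟨?_, ?_, ?_, ?_, ?_, ?_, ?_, ?_, ?_, ?_, ?_, ?_⟩
  · rw [Z.ts2_bs_upd x le_rfl, hu]; exact hext
  · rw [Z.ts2_bs_upd x le_rfl, hu, hq]; exact (Z.bs N d).zero_mem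
  · rw [hu]; exact hc
  · rw [hu]; exact hn
  · rw [hu]; exact hdg
  · rw [hu]; exact h1
  · rw [hu]; exact h2
  · rw [hu]; exact h3
  · intro h; exact absurd h hS
  · intro _; rw [hu, hq, hz]
  · intro h; exact absurd h hS
  · intro h; exact absurd h hS

/-- the step at a limit node (or at `bot`) -/
theorem step_L {N : ι → Nd Ω} {d : ι} (hN : ∀ i < d, Z.Spec N i) (hd : d ∈ Z.X.L) :
    ∃ x : Nd Ω, Z.Spec (Function.update N d x) d := by
  have hS : d ∉ Z.X.S := fun h => Z.X.disj d h hd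
  classical
  obtain ⟨l, hl, hns, hl1, hl2⟩ : ∃ l : J, l ∈ (Z.bI d).s ∧ NonSt l ∧
      (d = Z.X.bot → l = Z.V.lU) ∧ (d ∈ Z.X.L → d ≠ Z.X.bot → l = Z.V.lv (Z.X.h d) 0) := by
    by_cases hb : d = Z.X.bot
    · refine ⟨Z.V.lU, ?_, Z.ts2_lU, fun _ => rfl, fun _ h => absurd hb h⟩
      unfold bI
      rw [if_pos hb]
      exact Z.V.lU_mem
    · refine ⟨Z.V.lv (Z.X.h d) 0, ?_, Z.nonst_lv _ _, fun h => absurd h hb, fun _ _ => rfl⟩
      unfold bI
      rw [if_neg hb, if_pos hd]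
      exact Z.V.lv_mem _ _
  obtain ⟨e, he, hpsi⟩ := Z.bs_psi hd hN hl hl
  have happ := PS.psi_zero (Z.bs_isK hN) hl hpsi
  obtain ⟨x, hx, hxl, hxq, hxd, -, hxc⟩ := exists_PExt (Z.bs_isK hN) hl hns
    (Z.bs N d).zero_mem he happ (by rw [Z.cardΩ]; exact Z.bs_card hN)
    (by rw [Z.cardΩ]; exact Z.unc) 0
  refine ⟨x, Z.ts2_spec hS hx hxq (Z.ts2_zero hN) (by rw [← Z.cardΩ]; exact hxc)
    (by rw [hxl]; exact hns) (by rw [hxd]; exact he) (by rw [hxl]; exact hl1)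
    (by rw [hxl]; exact hl2) (fun h => absurd hd h)⟩

/-- the step at an unconstrained successor node -/
theorem step_U {N : ι → Nd Ω} {d : ι} (hN : ∀ i < d, Z.Spec N i) (hd : d ∉ Z.X.L)
    (hd' : d ∉ Z.X.S) : ∃ x : Nd Ω, Z.Spec (Function.update N d x) d := by
  have hb : d ≠ Z.X.bot := fun h => hd (h ▸ Z.X.bot_mem)
  have hI : Z.bI d = Z.K := by
    unfold bI
    rw [if_neg hb, if_neg hd]
  have hA := Z.bs_isK hN
  have hl : Z.V.lU ∈ (Z.bI d).s := by rw [hI]; exact Z.V.lU_mem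
  obtain ⟨e, he, hpsi⟩ := PS.psi_over hA hl hl Z.K Z.V.e0_nmem (fun f hf =>
    PS.psi_full hA hl hl (by rw [hI]; exact hf))
  have he' : ∀ k ∈ Z.K.s, k < e := fun k hk => ts2_not_mem he hk
  have happ := PS.psi_zero hA hl hpsi
  obtain ⟨x, hx, hxl, hxq, hxd, -, hxc⟩ := exists_PExt hA hl Z.ts2_lU
    (Z.bs N d).zero_mem he' happ (by rw [Z.cardΩ]; exact Z.bs_card hN)
    (by rw [Z.cardΩ]; exact Z.unc) 0
  refine ⟨x, Z.ts2_spec hd' hx hxq (Z.ts2_zero hN) (by rw [← Z.cardΩ]; exact hxc)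
    (by rw [hxl]; exact Z.ts2_lU) (by rw [hxd]; exact he') (fun h => absurd h hb)
    (fun h => absurd h hd) (fun _ _ => hxl)⟩

end Setup

end Pool.Agent.Helper4.KSq
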