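import Pool.Agent.Helper4.KSq.TP

set_option autoImplicit false

/-!
# The trace lemma
-/

namespace Pool.Agent.Helper4.KSq

open Filter Cod Cardinal

namespace Setup

variable {Ω ι : Type} [LinearOrder ι] (Z : Setup Ω ι)

/-- the traces on `N i` of the relations definable over `N j` with codes in `I n` and parameters in
`N i` are definable over `N i` with codes in `I n` -/
def Tr (N : ι → Nd Ω) (n : ℕ) (i j : ι) : Prop :=
  ∀ g ∈ (Z.V.I n).s, ∀ p ∈ (N i).ps.U, ∃ g' ∈ (Z.V.I n).s, ∃ p' ∈ (N i).ps.U,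
    ∀ y ∈ (N i).ps.U, ((N j).ps.S g ((N i).ps.pair y p) ↔ (N i).ps.S g' ((N i).ps.pair y p'))

/-- the trace on `N i` of the relation over `A` with code `g` and parameter `p` is definable -/
def trRed (N : ι → Nd Ω) (n : ℕ) (i : ι) (A : PS Ω) (g : J) (p : Ω) : Prop :=
  ∃ g' ∈ (Z.V.I n).s, ∃ p' ∈ (N i).ps.U,
    ∀ y ∈ (N i).ps.U, (A.S g ((N i).ps.pair y p) ↔ (N i).ps.S g' ((N i).ps.pair y p'))

theorem tr_anti {m n : ℕ} (h : m ≤ n) : (Z.V.I n).s ⊆ (Z.V.I m).s := by
  induction n, h using Nat.le_induction with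
  | base => exact subset_rfl
  | succ k _ ih => exact fun x hx => ih (Z.V.anti k hx)

theorem tr_lv_mono (h : ℕ) {k k' : ℕ} (hk : k ≤ k') : Z.V.lv h k ≤ Z.V.lv h k' :=
  monotone_nat_of_le_succ (Z.V.lv_mono h) hk

theorem tr_le_cut (I : Cut) {g a : J} (hg : g ∈ I.s) (ha : a ∉ I.s) : g ≤ a := by
  rcases le_total g a with h | h
  · exact h
  · exact absurd (I.down h hg) ha

variable {Z}

theorem trRed_refl {N : ι → Nd Ω} {n : ℕ} {i : ι} {g : J} {p : Ω} (hg : g ∈ (Z.V.I n).s)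
    (hp : p ∈ (N i).ps.U) : Z.trRed N n i (N i).ps g p :=
  ⟨g, hg, p, hp, fun _ _ => Iff.rfl⟩

theorem trRed_coh {N : ι → Nd Ω} {n : ℕ} {i : ι} {A B : PS Ω} {g : J} {p : Ω}
    (hp : p ∈ (N i).ps.U) (hS : ∀ z ∈ (N i).ps.U, (A.S g z ↔ B.S g z))
    (hR : Z.trRed N n i B g p) : Z.trRed N n i A g p := by
  obtain ⟨g', hg', p', hp', hh⟩ := hR
  exact ⟨g', hg', p', hp', fun y hy => (hS _ ((N i).ps.pair_mem hy hp)).trans (hh y hy)⟩

theorem trRed_step {N : ι → Nd Ω} {n : ℕ} {i : ι} {A B : PS Ω} {I' : Cut}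
    (hE : PS.EE (N i).ps B) (hB : IsK B.sub I') {g th : J} (hth : th ∈ (Z.V.I n).s)
    (hth' : th ∈ I'.s) {P p : Ω} (hP : P ∈ (N i).ps.U) (hp : p ∈ (N i).ps.U)
    (hS : ∀ z ∈ (N i).ps.U, (A.S g z ↔ B.S th (B.pair z P)))
    (hR : ∀ g1 ∈ (Z.V.I n).s, g1 ∈ I'.s → ∀ p1 ∈ (N i).ps.U, Z.trRed N n i B g1 p1) :
    Z.trRed N n i A g p := by
  obtain ⟨c', hc', hc⟩ := PS.assoc_code th
  have hpP : (N i).ps.pair p P ∈ (N i).ps.U := (N i).ps.pair_mem hp hP
  obtain ⟨g', hg', p', hp', hh⟩ := hR c' (hc' _ hth) (hc' _ hth') _ hpP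
  refine ⟨g', hg', p', hp', fun y hy => ?_⟩
  have hyp : (N i).ps.pair y p ∈ (N i).ps.U := (N i).ps.pair_mem hy hp
  rw [hS _ hyp, ← hh y hy, ← hE.pair y hy p hp, ← hE.pair y hy _ hpP, ← hE.pair p hp P hP]
  exact (hc B I' hB hth' y (hE.sub hy) p (hE.sub hp) P (hE.sub hP)).symm

theorem tr_bs_U {N : ι → Nd Ω} {j : ι} (hj : j ∉ Z.X.L) : Z.bs N j = (N (Z.X.pv j)).ps := by
  have h1 : j ≠ Z.X.bot := by
    rintro rfl
    exact hj Z.X.bot_mem
  rw [Setup.bs, if_neg h1, if_neg hj]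

theorem tr_bs_L {N : ι → Nd Ω} {j : ι} (hj : j ∈ Z.X.L) (hb : j ≠ Z.X.bot) :
    Z.bs N j = Z.Ml N j := by
  rw [Setup.bs, if_neg hb, if_pos hj]

/-- the limit structures -/
theorem tr_atM {N : ι → Nd Ω} (hN : ∀ i, Z.Spec N i) {n : ℕ} {i t : ι} (ht : t ∈ Z.X.L)
    (hit : i < t) (IH : ∀ k < t, i < k → Z.Tr N n i k) {g : J} (hg : g ∈ (Z.V.I n).s)
    (hg' : g ∈ (Z.V.I (Z.X.h t)).s) {p : Ω} (hp : p ∈ (N i).ps.U) :
    Z.trRed N n i (Z.Ml N t) g p := by
  have htb : t ≠ Z.X.bot := fun h => absurd (Z.X.bot_le i) (not_le.mpr (h ▸ hit))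
  obtain ⟨k, hk⟩ := Z.V.lv_cof _ g hg'
  obtain ⟨c, hc, hcS, hic, hkc⟩ := Z.X.C_cof t ht htb i hit k
  have hct : c < t := (Z.X.C_lt t ht htb c hc).1
  have F := Z.facts (N := N) (d := t) fun i _ => hN i
  have h1 := F.cohL t ht htb le_rfl c hc hcS
  have hgk : g ≤ Z.V.lv (Z.X.h t) (Z.X.kk c) := hk.trans (Z.tr_lv_mono _ hkc)
  refine trRed_coh (B := (N c).ps) hp (fun z hz => ?_) (IH c hct hic g hg p hp)
  exact h1 g hgk z ((F.emb i c hic hct).sub hz)

/-- the structures `N e`, `e` a limit node: the relation over `A` is definable over the base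
structure -/
theorem tr_atL {N : ι → Nd Ω} (hN : ∀ i, Z.Spec N i) {n : ℕ} {i e : ι} (he : e ∈ Z.X.L)
    (hie : i < e) (IH : ∀ k < e, i < k → Z.Tr N n i k) {A : PS Ω} {g th : J}
    (hth : th ∈ (Z.V.I n).s) (hth' : th ∈ (Z.V.I (Z.X.h e)).s) {P p : Ω}
    (hP : P ∈ (N i).ps.U) (hp : p ∈ (N i).ps.U)
    (hS : ∀ z ∈ (N i).ps.U, (A.S g z ↔ (Z.bs N e).S th ((Z.bs N e).pair z P))) :
    Z.trRed N n i A g p := by
  have heb : e ≠ Z.X.bot := fun h => absurd (Z.X.bot_le i) (not_le.mpr (h ▸ hie))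
  have F := Z.facts (N := N) (d := e) fun i _ => hN i
  rw [tr_bs_L he heb] at hS
  exact trRed_step ((F.isLim e he heb le_rfl).emb i hie) (F.limK e he heb le_rfl) hth hth' hP hp hS
    fun g1 h1 h2 p1 hp1 => tr_atM hN he hie IH h1 h2 hp1

variable (Z)

/-- the trace lemma -/
theorem trace {N : ι → Nd Ω} (hN : ∀ i, Z.Spec N i) {n : ℕ} (hn : 1 ≤ n) {i j : ι} (h : i < j) :
    Z.Tr N n i j := by
  have := Z.large.wf
  induction j using WellFoundedLT.induction with
  | ind j IH =>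
  have IH' : ∀ k < j, i < k → Z.Tr N n i k := fun k hk hik => IH k hk hik
  intro g hg p hp
  change Z.trRed N n i (N j).ps g p
  have hgK : g ∈ Z.K.s := Z.tr_anti (Nat.zero_le n) hg
  have hjb : j ≠ Z.X.bot := fun h' => absurd (Z.X.bot_le i) (not_le.mpr (h' ▸ h))
  -- a node above `j`
  obtain ⟨d, hd⟩ := Z.large.cof {j} (by
    rw [Cardinal.mk_singleton]
    exact one_lt_aleph0.trans Z.unc)
  have hjd : j < d := hd j rfl
  have F := Z.facts (N := N) (d := d) fun i _ => hN i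
  have hE : ∀ k, i ≤ k → k ≤ j → PS.EE (N i).ps (N k).ps := by
    intro k hik hkj
    rcases hik.eq_or_lt with rfl | hik
    · exact PS.EE.refl _
    · exact F.emb i k hik (hkj.trans_lt hjd)
  have hR : ∀ k, i ≤ k → k < j → ∀ g1 ∈ (Z.V.I n).s, ∀ p1 ∈ (N i).ps.U,
      Z.trRed N n i (N k).ps g1 p1 := by
    intro k hik hkj g1 hg1 p1 hp1
    rcases hik.eq_or_lt with rfl | hik
    · exact trRed_refl hg1 hp1
    · exact IH k hkj hik g1 hg1 p1 hp1
  have hX := (hN j).ext
  by_cases hL : j ∈ Z.X.L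
  · -- limit nodes
    have hl := (hN j).l_lim hL hjb
    rw [tr_bs_L hL hjb] at hX
    have hEM : PS.EE (N i).ps (Z.Ml N j) := (F.isLim j hL hjb hjd.le).emb i h
    by_cases hnh : n ≤ Z.X.h j
    · have hth : thC (N j).l ∈ (Z.V.I (Z.X.h j)).s := by
        rw [hl]
        exact thC_mem _ (Z.V.lv_mem _ _)
      have hjS : j ∉ Z.X.S := fun hS => Z.X.disj j hS hL
      have hq := (hN j).q_zero hjS
      have hj : ∀ a : J, (Z.Ml N j).j a ∈ (N i).ps.U := by
        intro a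
        rw [hEM.j]
        exact (N i).ps.j_mem a
      have hzero : Z.P0.zero ∈ (N i).ps.U := by
        have hb := (hN Z.X.bot).ext.emb
        have hbs : Z.bs N Z.X.bot = Z.P0 := by rw [Setup.bs, if_pos rfl]
        rw [hbs] at hb
        have h0 : Z.P0.zero ∈ (N Z.X.bot).ps.U := hb.sub Z.P0.zero_mem
        rcases (Z.X.bot_le i).eq_or_lt with h1 | h1
        · rw [← h1]
          exact h0
        · exact (F.emb _ i h1 (h.trans hjd)).sub h0
      have hpr : ∀ x ∈ (N i).ps.U, ∀ y ∈ (N i).ps.U, (Z.Ml N j).pair x y ∈ (N i).ps.U := by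
        intro x hx y hy
        rw [hEM.pair x hx y hy]
        exact (N i).ps.pair_mem hx hy
      refine tr_atL hN hL h IH' (Z.tr_anti hnh hth) hth
        (P := (Z.Ml N j).pair ((Z.Ml N j).j g) ((Z.Ml N j).pair (N j).q
          ((Z.Ml N j).pair ((Z.Ml N j).j (N j).d) ((Z.Ml N j).j (N j).l)))) ?_ hp fun z hz => ?_
      · rw [hq]
        exact hpr _ (hj _) _ (hpr _ hzero _ (hpr _ (hj _) _ (hj _)))
      · rw [tr_bs_L hL hjb]
        exact hX.trace g hgK z (hEM.sub hz)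
    · push Not at hnh
      have hg1 : g ∈ (Z.V.I (Z.X.h j + 1)).s := Z.tr_anti hnh hg
      have hgl : g ≤ (N j).l := by
        rw [hl]
        exact tr_le_cut _ hg1 (Z.V.lv_nmem _ _)
      refine trRed_coh (B := Z.Ml N j) hp (fun z hz => hX.coh g hgl z (hEM.sub hz)) ?_
      exact tr_atM hN hL h IH' hg (Z.tr_anti hnh.le hg) hp
  · have hpv : Z.X.pv j < j := Z.X.pv_lt j hL
    have hipv : i ≤ Z.X.pv j := Z.X.le_pv j hL i h
    rw [tr_bs_U hL] at hX
    have hEpv := hE _ hipv hpv.le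
    have hcoh : g ≤ (N j).l → Z.trRed N n i (N j).ps g p := fun hgl =>
      trRed_coh (B := (N (Z.X.pv j)).ps) hp (fun z hz => hX.coh g hgl z (hEpv.sub hz))
        (hR _ hipv hpv g hg p hp)
    by_cases hS : j ∈ Z.X.S
    · -- service nodes
      have hstep : ∀ k, i ≤ k → k < j → ∀ th ∈ (Z.V.I n).s, ∀ P ∈ (N i).ps.U,
          (∀ z ∈ (N k).ps.U, ((N j).ps.S g z ↔ (N k).ps.S th ((N k).ps.pair z P))) →
          Z.trRed N n i (N j).ps g p := by
        intro k hik hkj th hth P hP hz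
        exact trRed_step (hE k hik hkj.le) (hN k).ext.isK hth (Z.tr_anti (Nat.zero_le n) hth) hP hp
          (fun z hz' => hz z ((hE k hik hkj.le).sub hz'))
          fun g1 h1 _ p1 hp1 => hR k hik hkj g1 h1 p1 hp1
      -- the first case
      have hfirst : ∀ i0, ((Z.X.pd j ∈ Z.X.L ∧ i0 = Z.X.pd j) ∨
          (Z.X.pd j ∈ Z.X.S ∧ i0 = Z.X.sc (Z.X.pd j))) → i0 ≤ i →
          Z.trRed N n i (N j).ps g p := by
        intro i0 hi0 hii
        by_cases hl : (N j).l ∈ (Z.V.I n).s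
        · obtain ⟨th, -, hth, P, hP, hz⟩ := Z.P1 hN hS hi0 hgK
          have hPi : P ∈ (N i).ps.U := by
            rcases hii.eq_or_lt with rfl | hlt
            · exact hP
            · exact (F.emb i0 i hlt (h.trans hjd)).sub hP
          exact hstep _ hipv hpv th (hth _ hl) P hPi hz
        · exact hcoh (tr_le_cut _ hg hl)
      -- the last case
      have hlast : i < Z.X.rt j → Z.trRed N n i (N j).ps g p := by
        intro hirt
        obtain ⟨hrL, hrj, hrh⟩ := Z.rt_facts j hS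
        have hrb : Z.X.rt j ≠ Z.X.bot :=
          fun h' => absurd (Z.X.bot_le i) (not_le.mpr (h' ▸ hirt))
        have hh := hrh hrb
        have hEM : PS.EE (N i).ps (Z.Ml N (Z.X.rt j)) :=
          (F.isLim _ hrL hrb (hrj.trans hjd).le).emb i hirt
        by_cases hnh : n ≤ Z.X.h j
        · obtain ⟨th, hth, P, hz⟩ := Z.P3 hN hS hgK
          have hbs : Z.bs N (Z.X.rt j) = Z.Ml N (Z.X.rt j) := tr_bs_L hrL hrb
          refine tr_atL hN hrL hirt (fun k hk hik => IH' k (hk.trans hrj) hik)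
            (Z.tr_anti hnh hth) (by rw [hh]; exact hth) (P := (Z.bs N (Z.X.rt j)).j P) ?_ hp
            fun z hz' => hz z ?_
          · rw [hbs, hEM.j]
            exact (N i).ps.j_mem P
          · rw [hbs]
            exact hEM.sub hz'
        · push Not at hnh
          have hg1 : g ∈ (Z.V.I (Z.X.h j + 1)).s := Z.tr_anti hnh hg
          have hc := F.cohR j hS hjd
          rw [tr_bs_L hrL hrb] at hc
          refine trRed_coh (B := Z.Ml N (Z.X.rt j)) hp (fun z hz => ?_)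
            (tr_atM hN hrL hirt (fun k hk hik => IH' k (hk.trans hrj) hik) hg ?_ hp)
          · exact hc g (tr_le_cut _ hg1 (Z.V.lv_nmem _ _)) z (hEM.sub hz)
          · rw [hh]
            exact Z.tr_anti hnh.le hg
      rcases Z.X.pd_LS j hS with hpL | hpS
      · rcases le_or_gt (Z.X.pd j) i with hle | hlt
        · exact hfirst _ (Or.inl ⟨hpL, rfl⟩) hle
        · refine hlast ?_
          rw [(Z.X.rt_L j hS hpL).1]
          exact hlt
      · rcases le_or_gt (Z.X.sc (Z.X.pd j)) i with hle | hlt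
        · exact hfirst _ (Or.inr ⟨hpS, rfl⟩) hle
        · have hip : i ≤ Z.X.pd j := by
            have h1 := Z.X.le_pv _ (Z.X.sc_L _ (Or.inr hpS)) i hlt
            rwa [Z.X.pv_sc _ (Or.inr hpS)] at h1
          have hpj : Z.X.pd j < j := by
            have h1 := Z.X.pv_lt _ (Z.X.sc_L _ (Or.inr hpS))
            rw [Z.X.pv_sc _ (Or.inr hpS)] at h1
            exact h1.trans (Z.X.sc_pd j hS)
          rcases le_or_gt (Z.X.rt j) i with hri | hir
          · by_cases hnh : n ≤ Z.X.h j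
            · obtain ⟨th, hth, P, hP, hz⟩ := Z.P2 hN hS hpS hgK
              have hPi : P ∈ (N i).ps.U := by
                rcases hri.eq_or_lt with hri | hri
                · rw [← hri]
                  exact hP
                · exact (F.emb _ i hri (h.trans hjd)).sub hP
              exact hstep _ hip hpj th (Z.tr_anti hnh hth) P hPi hz
            · push Not at hnh
              have hg1 : g ∈ (Z.V.I (Z.X.h j + 1)).s := Z.tr_anti hnh hg
              have hc := F.cohP j hS hjd hpS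
              refine trRed_coh (B := (N (Z.X.pd j)).ps) hp (fun z hz => ?_)
                (hR _ hip hpj g hg p hp)
              exact hc g (tr_le_cut _ hg1 (Z.V.lv_nmem _ _)) z ((hE _ hip hpj.le).sub hz)
          · exact hlast hir
    · -- the other successor nodes
      have hl := (hN j).l_U hL hS
      refine hcoh ?_
      rw [hl]
      exact tr_le_cut _ (Z.tr_anti hn hg) Z.V.lU_nmem

end Setup

end Pool.Agent.Helper4.KSq
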