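import Pool.Agent.Helper4.KSq.K

set_option autoImplicit false

/-!
# Transfer from the natural numbers
-/

namespace Pool.Agent.Helper4.KSq

open Filter Cod

theorem J.pr_num (a b : ℕ) : (pr (num a) (num b) : J) = num (Nat.pair a b) :=
  J.pr_mk (J.gen_const a) (J.gen_const b)

theorem J.cb_num (k : ℕ) : (cb k : J) = num (cb k : ℕ) := J.pr_num 0 k
theorem J.cn_num (c : ℕ) : (cn (num c) : J) = num (cn c : ℕ) := J.pr_num 1 c
theorem J.ca_num (c d : ℕ) : (ca (num c) (num d) : J) = num (ca c d : ℕ) := by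
  unfold ca
  rw [J.pr_num, J.pr_num]
  rfl
theorem J.ce_num (c : ℕ) : (ce (num c) : J) = num (ce c : ℕ) := J.pr_num 3 c
theorem J.cf_num (k c : ℕ) : (cf k (num c) : J) = num (cf k c : ℕ) := by
  unfold cf
  rw [J.pr_num, J.pr_num]
  rfl

theorem J.cf_iter_num (k i c : ℕ) : ((cf k)^[i] (num c) : J) = num ((cf k)^[i] c : ℕ) := by
  induction i generalizing c with
  | zero => rfl
  | succ i ih => rw [Function.iterate_succ_apply, Function.iterate_succ_apply, J.cf_num, ih]

theorem J.cp_num (i c : ℕ) : (cp i (num c) : J) = num (cp i c : ℕ) := by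
  unfold cp
  rw [J.cf_num, J.cf_iter_num, J.cf_num, J.cf_iter_num, J.cf_num]

theorem J.code_num (ρ : ℕ → ℕ) (φ : Fo) :
    (φ.code (fun k => num (ρ k)) : J) = num (φ.code ρ) := by
  induction φ with
  | zero i => simp only [Fo.code, J.cb_num, J.cp_num]
  | one i => simp only [Fo.code, J.cb_num, J.cp_num]
  | add i j k => simp only [Fo.code, J.cb_num, J.cp_num]
  | mul i j k => simp only [Fo.code, J.cb_num, J.cp_num]
  | pair i j k => simp only [Fo.code, J.cb_num, J.cp_num]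
  | lt i j => simp only [Fo.code, J.cb_num, J.cp_num]
  | eq i j => simp only [Fo.code, J.cb_num, J.cp_num]
  | S k i => simp only [Fo.code, J.cf_num, J.cp_num]
  | neg φ ih => simp only [Fo.code, ih, J.cn_num]
  | and φ ψ ih1 ih2 => simp only [Fo.code, ih1, ih2, J.ca_num]
  | ex φ ih => simp only [Fo.code, ih, J.ce_num]

theorem univ_closed : CClosed (Set.univ : Set ℕ) := ⟨fun _ => trivial, fun _ _ _ _ => trivial⟩

theorem J.rep_num (c : ℕ) : ∀ᶠ n in (JU : Filter ℕ), (num c : J).rep n = c :=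
  J.rep_mk (J.gen_const c)

theorem J.rep_pr (a b : J) :
    ∀ᶠ n in (JU : Filter ℕ), (pr a b : J).rep n = Nat.pair (a.rep n) (b.rep n) :=
  J.rep_mk (Gen.pr a.gen_rep b.gen_rep)

theorem J.rep_st (m : ℕ) (e : ℕ → J) (z : J) :
    ∀ᶠ n in (JU : Filter ℕ), (J.JAr.st m e z).rep n = NAr.st m (fun i => (e i).rep n) (z.rep n) := by
  induction m generalizing e with
  | zero => exact Eventually.of_forall fun n => rfl
  | succ m ih =>
    filter_upwards [J.rep_pr (e 0) (J.JAr.st m (fun i => e (i + 1)) z), ih (fun i => e (i + 1))]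
      with n h1 h2
    show (pr (e 0) (J.JAr.st m (fun i => e (i + 1)) z) : J).rep n = _
    rw [h1, h2]
    rfl

theorem IsK.j_st {α : Type} {A : Str J α} {I : Cut} (hA : IsK A I) (m : ℕ) (e : ℕ → J) (z : J) :
    A.st m (fun i => A.j (e i)) (A.j z) = A.j (J.JAr.st m e z) := by
  induction m generalizing e with
  | zero => rfl
  | succ m ih =>
    show A.pair (A.j (e 0)) (A.st m (fun i => A.j (e (i + 1))) (A.j z)) = _
    rw [ih (fun i => e (i + 1)), ← hA.j_pair]
    rfl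

/-- truth of standard codes at elements of `J` -/
theorem IsK.S_num {α : Type} {A : Str J α} {I : Cut} (hA : IsK A I) (c : ℕ) (x : J) :
    A.S (num c) (A.j x) ↔ ∀ᶠ n in (JU : Filter ℕ), SN c (x.rep n) := by
  rw [hA.agree]
  refine ⟨fun h => ?_, fun h => ?_⟩
  · filter_upwards [h, J.rep_num c] with n h1 h2
    rwa [h2] at h1
  · show ∀ᶠ n in (JU : Filter ℕ), SN ((num c : J).rep n) (x.rep n)
    filter_upwards [h, J.rep_num c] with n h1 h2
    rwa [h2]

/-- relations between germs -/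
theorem agree_UD {α : Type} {A : Str J α} {I : Cut} (hA : IsK A I) {R : Rl} (h : UD R)
    (ρ : ℕ → ℕ) (e : ℕ → J) :
    R J α A (fun k => num (ρ k)) (fun i => A.j (e i)) ↔
      ∀ᶠ n in (JU : Filter ℕ), R ℕ ℕ NN ρ (fun i => (e i).rep n) := by
  obtain ⟨φ, h⟩ := h
  rw [← h J α A hA.pairing]
  rw [← hA.tarski.rep hA.pairing I.closed (fun k => I.num (ρ k)) φ le_rfl
    (fun i => A.j (e i)) (A.j (num 0)), J.code_num, hA.j_st, hA.S_num]
  have key : ∀ n, (J.JAr.st φ.bd e (num 0)).rep n =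
      NAr.st φ.bd (fun i => (e i).rep n) ((num 0 : J).rep n) →
      (SN (φ.code ρ) ((J.JAr.st φ.bd e (num 0)).rep n) ↔
        R ℕ ℕ NN ρ (fun i => (e i).rep n)) := by
    intro n hn
    rw [hn, ← h ℕ ℕ NN NN_pairing]
    exact NN_tarski.rep NN_pairing univ_closed (fun _ => trivial) φ le_rfl _ _
  refine ⟨fun h' => ?_, fun h' => ?_⟩
  · filter_upwards [h', J.rep_st φ.bd e (num 0)] with n h1 h2
    exact (key n h2).1 h1
  · filter_upwards [h', J.rep_st φ.bd e (num 0)] with n h1 h2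
    exact (key n h2).2 h1

/-- universal closure -/
def Fo.cl (φ : Fo) : ℕ → Fo
  | 0 => φ
  | n + 1 => ((φ.cl n).neg.ex).neg

theorem Fo.cl_bd (φ : Fo) (n : ℕ) : (φ.cl n).bd = φ.bd - n := by
  induction n with
  | zero => rfl
  | succ n ih =>
    show (φ.cl n).bd - 1 = _
    rw [ih]
    omega

theorem Fo.sat_cl_succ {C α : Type} (A : Str C α) (ρ : ℕ → C) (φ : Fo) (n : ℕ) (e : ℕ → α) :
    (φ.cl (n + 1)).sat A ρ e ↔ ∀ x, (φ.cl n).sat A ρ (cs x e) := by
  show (¬ ∃ x, ¬ (φ.cl n).sat A ρ (cs x e)) ↔ _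
  push Not
  rfl

theorem Fo.sat_cl_of {C α : Type} (A : Str C α) (ρ : ℕ → C) (φ : Fo)
    (h : ∀ e, φ.sat A ρ e) (n : ℕ) (e : ℕ → α) : (φ.cl n).sat A ρ e := by
  induction n generalizing e with
  | zero => exact h e
  | succ n ih => exact (Fo.sat_cl_succ A ρ φ n e).2 fun x => ih _

theorem Fo.sat_of_cl {C α : Type} (A : Str C α) (ρ : ℕ → C) (φ : Fo) (n : ℕ) (e : ℕ → α)
    (h : (φ.cl n).sat A ρ (fun i => e (i + n))) : φ.sat A ρ e := by
  induction n with
  | zero => exact h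
  | succ n ih =>
    refine ih ?_
    have h1 := (Fo.sat_cl_succ A ρ φ n _).1 h (e n)
    have h2 : cs (e n) (fun i => e (i + (n + 1))) = fun i => e (i + n) := by
      funext i
      cases i with
      | zero => simp [cs]
      | succ i =>
        show e (i + (n + 1)) = e (i + 1 + n)
        congr 1
        omega
    rwa [h2] at h1

/-- transfer of true statements -/
theorem transfer {α : Type} {A : Str J α} {I : Cut} (hA : IsK A I) {R : Rl} (h : UD R)
    (ρ : ℕ → ℕ) (hN : ∀ e, R ℕ ℕ NN ρ e) (e : ℕ → α) : R J α A (fun k => num (ρ k)) e := by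
  obtain ⟨φ, h⟩ := h
  rw [← h J α A hA.pairing]
  have hbd : (φ.cl φ.bd).bd ≤ 0 := by rw [Fo.cl_bd]; omega
  refine Fo.sat_of_cl A _ φ φ.bd e ?_
  rw [← hA.tarski.rep hA.pairing I.closed (fun k => I.num (ρ k)) (φ.cl φ.bd) hbd _
    (A.j (num 0)), J.code_num]
  show A.S _ (A.j (num 0))
  rw [hA.S_num]
  refine Eventually.of_forall fun n => ?_
  exact (NN_tarski.rep NN_pairing univ_closed (fun _ => trivial) (φ.cl φ.bd) hbd
    (fun _ => 0) _).2 (Fo.sat_cl_of NN ρ φ (fun e => (h ℕ ℕ NN NN_pairing ρ e).2 (hN e)) _ _)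

end Pool.Agent.Helper4.KSq
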