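import Pool.Agent.Helper4.KSq.Rep

set_option autoImplicit false

/-!
# Calculus of uniformly definable relations and terms
-/

namespace Pool.Agent.Helper4.KSq

/-- type of families of relations -/
abbrev Rl := ∀ (C α : Type), Str C α → (ℕ → C) → (ℕ → α) → Prop
/-- type of families of terms -/
abbrev Tr := ∀ (C α : Type), Str C α → (ℕ → C) → (ℕ → α) → α

namespace Fo

/-- lift a renaming -/
def lft (f : ℕ → ℕ) : ℕ → ℕ
  | 0 => 0
  | n + 1 => f n + 1

/-- renaming of the variables -/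
def ren : (ℕ → ℕ) → Fo → Fo
  | f, zero i => zero (f i)
  | f, one i => one (f i)
  | f, add i j k => add (f i) (f j) (f k)
  | f, mul i j k => mul (f i) (f j) (f k)
  | f, pair i j k => pair (f i) (f j) (f k)
  | f, lt i j => lt (f i) (f j)
  | f, eq i j => eq (f i) (f j)
  | f, S k i => S k (f i)
  | f, neg φ => neg (φ.ren f)
  | f, and φ ψ => and (φ.ren f) (ψ.ren f)
  | f, ex φ => ex (φ.ren (lft f))

theorem cs_lft {α : Type} (x : α) (f : ℕ → ℕ) (e : ℕ → α) :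
    (fun i => cs x e (lft f i)) = cs x (fun i => e (f i)) := by
  funext i; cases i <;> rfl

theorem sat_ren {C α : Type} (A : Str C α) (ρ : ℕ → C) (φ : Fo) (f : ℕ → ℕ) (e : ℕ → α) :
    (φ.ren f).sat A ρ e ↔ φ.sat A ρ (fun i => e (f i)) := by
  induction φ generalizing f e with
  | neg φ ih => simp [ren, sat, ih]
  | and φ ψ ih1 ih2 => simp [ren, sat, ih1, ih2]
  | ex φ ih => simp only [ren, sat, ih, cs_lft]
  | _ => simp [ren, sat]

end Fo

namespace Fo

/-- renaming of the constants -/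
def renC : (ℕ → ℕ) → Fo → Fo
  | f, S k i => S (f k) i
  | f, neg φ => neg (φ.renC f)
  | f, and φ ψ => and (φ.renC f) (ψ.renC f)
  | f, ex φ => ex (φ.renC f)
  | _, φ => φ

theorem sat_renC {C α : Type} (A : Str C α) (ρ : ℕ → C) (φ : Fo) (f : ℕ → ℕ) (e : ℕ → α) :
    (φ.renC f).sat A ρ e ↔ φ.sat A (fun k => ρ (f k)) e := by
  induction φ generalizing e with
  | neg φ ih => simp [renC, sat, ih]
  | and φ ψ ih1 ih2 => simp [renC, sat, ih1, ih2]
  | ex φ ih => simp only [renC, sat, ih]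
  | _ => simp [renC, sat]

end Fo

theorem cs_eta {α : Type} (e : ℕ → α) : cs (e 0) (fun n => e (n + 1)) = e := by
  funext n; cases n <;> rfl

namespace UD

theorem not {P : Rl} (h : UD P) : UD (fun C α A ρ e => ¬ P C α A ρ e) := by
  obtain ⟨φ, h⟩ := h
  exact ⟨φ.neg, fun C α A hA ρ e => not_congr (h C α A hA ρ e)⟩

theorem and {P Q : Rl} (h : UD P) (h' : UD Q) :
    UD (fun C α A ρ e => P C α A ρ e ∧ Q C α A ρ e) := by
  obtain ⟨φ, h⟩ := h
  obtain ⟨ψ, h'⟩ := h'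
  exact ⟨φ.and ψ, fun C α A hA ρ e => and_congr (h C α A hA ρ e) (h' C α A hA ρ e)⟩

theorem congr {P Q : Rl} (h : UD P)
    (hPQ : ∀ (C α : Type) (A : Str C α), A.Pairing → ∀ (ρ : ℕ → C) (e : ℕ → α),
      P C α A ρ e ↔ Q C α A ρ e) : UD Q := by
  obtain ⟨φ, h⟩ := h
  exact ⟨φ, fun C α A hA ρ e => (h C α A hA ρ e).trans (hPQ C α A hA ρ e)⟩

theorem or {P Q : Rl} (h : UD P) (h' : UD Q) :
    UD (fun C α A ρ e => P C α A ρ e ∨ Q C α A ρ e) :=
  ((h.not.and h'.not).not).congr fun _ _ _ _ _ _ => by tauto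

theorem imp {P Q : Rl} (h : UD P) (h' : UD Q) :
    UD (fun C α A ρ e => P C α A ρ e → Q C α A ρ e) :=
  ((h.and h'.not).not).congr fun _ _ _ _ _ _ => by tauto

theorem iff {P Q : Rl} (h : UD P) (h' : UD Q) :
    UD (fun C α A ρ e => (P C α A ρ e ↔ Q C α A ρ e)) :=
  ((h.imp h').and (h'.imp h)).congr fun _ _ _ _ _ _ => by tauto

theorem ren {P : Rl} (h : UD P) (f : ℕ → ℕ) :
    UD (fun C α A ρ e => P C α A ρ (fun n => e (f n))) := by
  obtain ⟨φ, h⟩ := h
  exact ⟨φ.ren f, fun C α A hA ρ e => (Fo.sat_ren A ρ φ f e).trans (h C α A hA ρ _)⟩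

/-- renaming of the constants -/
theorem renC {P : Rl} (h : UD P) (f : ℕ → ℕ) :
    UD (fun C α A ρ e => P C α A (fun k => ρ (f k)) e) := by
  obtain ⟨φ, h⟩ := h
  exact ⟨φ.renC f, fun C α A hA ρ e => (Fo.sat_renC A ρ φ f e).trans (h C α A hA _ e)⟩

theorem ex {P : ∀ (C α : Type), Str C α → (ℕ → C) → α → (ℕ → α) → Prop}
    (h : UD (fun C α A ρ e => P C α A ρ (e 0) (fun n => e (n + 1)))) :
    UD (fun C α A ρ e => ∃ x, P C α A ρ x e) := by
  obtain ⟨φ, h⟩ := h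
  exact ⟨φ.ex, fun C α A hA ρ e => exists_congr fun x => h C α A hA ρ (cs x e)⟩

theorem all {P : ∀ (C α : Type), Str C α → (ℕ → C) → α → (ℕ → α) → Prop}
    (h : UD (fun C α A ρ e => P C α A ρ (e 0) (fun n => e (n + 1)))) :
    UD (fun C α A ρ e => ∀ x, P C α A ρ x e) := by
  have := (UD.ex (P := fun C α A ρ x e => ¬ P C α A ρ x e) h.not).not
  exact this.congr fun _ _ _ _ _ _ => by simp

theorem true : UD (fun _ _ _ _ _ => True) :=
  ⟨(Fo.and (.eq 0 0) (.neg (.eq 0 0))).neg, fun _ _ _ _ _ _ => by simp [Fo.sat]⟩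

end UD

namespace TD

theorem var (k : ℕ) : TD (fun _ _ _ _ e => e k) :=
  ⟨.eq 0 (k + 1), fun _ _ _ _ _ _ _ => Iff.rfl⟩

theorem ren {t : Tr} (h : TD t) (f : ℕ → ℕ) :
    TD (fun C α A ρ e => t C α A ρ (fun n => e (f n))) := by
  obtain ⟨φ, h⟩ := h
  refine ⟨φ.ren (Fo.lft f), fun C α A hA ρ e x => ?_⟩
  rw [Fo.sat_ren, Fo.cs_lft]
  exact h C α A hA ρ _ x

/-- a term is given by a uniformly definable relation -/
theorem of_rel {t : Tr} (h : UD (fun C α A ρ e => e 0 = t C α A ρ (fun n => e (n + 1)))) :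
    TD t := by
  obtain ⟨φ, h⟩ := h
  exact ⟨φ, fun C α A hA ρ e x => h C α A hA ρ (cs x e)⟩

/-- the relation `x = t` -/
theorem rel {t : Tr} (h : TD t) : UD (fun C α A ρ e => e 0 = t C α A ρ (fun n => e (n + 1))) := by
  obtain ⟨φ, h⟩ := h
  refine ⟨φ, fun C α A hA ρ e => ?_⟩
  have := h C α A hA ρ (fun n => e (n + 1)) (e 0)
  rwa [cs_eta] at this

end TD

namespace UD

/-- substitution of a term for the first variable -/
theorem subst {P : ∀ (C α : Type), Str C α → (ℕ → C) → α → (ℕ → α) → Prop} {t : Tr}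
    (h : UD (fun C α A ρ e => P C α A ρ (e 0) (fun n => e (n + 1)))) (ht : TD t) :
    UD (fun C α A ρ e => P C α A ρ (t C α A ρ e) e) := by
  have h2 : UD (fun C α A ρ e => ∃ x, x = t C α A ρ e ∧ P C α A ρ x e) :=
    UD.ex (P := fun C α A ρ x e => x = t C α A ρ e ∧ P C α A ρ x e) (ht.rel.and h)
  exact h2.congr fun _ _ _ _ _ _ => by simp

/-- relations between two terms -/
theorem rel2 {R : ∀ (C α : Type), Str C α → (ℕ → C) → α → α → Prop}
    (h : UD (fun C α A ρ e => R C α A ρ (e 0) (e 1))) {t u : Tr} (ht : TD t) (hu : TD u) :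
    UD (fun C α A ρ e => R C α A ρ (t C α A ρ e) (u C α A ρ e)) := by
  have h1 : UD (fun C α A ρ e => R C α A ρ (e 0) (u C α A ρ (fun n => e (n + 1)))) := by
    have h2 : UD (fun C α A ρ e => R C α A ρ (e 1) (e 0)) :=
      h.ren (fun n => if n = 0 then 1 else 0)
    exact UD.subst (P := fun C α A ρ x e => R C α A ρ (e 0) x) h2 (hu.ren (fun n => n + 1))
  exact UD.subst (P := fun C α A ρ x e => R C α A ρ x (u C α A ρ e)) h1 ht

theorem rel1 {R : ∀ (C α : Type), Str C α → (ℕ → C) → α → Prop}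
    (h : UD (fun C α A ρ e => R C α A ρ (e 0))) {t : Tr} (ht : TD t) :
    UD (fun C α A ρ e => R C α A ρ (t C α A ρ e)) :=
  UD.subst (P := fun C α A ρ x _ => R C α A ρ x) h ht

theorem lt {t u : Tr} (ht : TD t) (hu : TD u) :
    UD (fun C α A ρ e => A.lt (t C α A ρ e) (u C α A ρ e)) :=
  UD.rel2 (R := fun _ _ A _ x y => A.lt x y) ⟨.lt 0 1, fun _ _ _ _ _ _ => Iff.rfl⟩ ht hu

theorem eq {t u : Tr} (ht : TD t) (hu : TD u) :
    UD (fun C α A ρ e => t C α A ρ e = u C α A ρ e) :=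
  UD.rel2 (R := fun _ _ _ _ x y => x = y) ⟨.eq 0 1, fun _ _ _ _ _ _ => Iff.rfl⟩ ht hu

theorem le {t u : Tr} (ht : TD t) (hu : TD u) :
    UD (fun C α A ρ e => A.le (t C α A ρ e) (u C α A ρ e)) :=
  (UD.lt ht hu).or (UD.eq ht hu)

theorem S (k : ℕ) {t : Tr} (ht : TD t) :
    UD (fun C α A ρ e => A.S (ρ k) (t C α A ρ e)) :=
  UD.rel1 (R := fun _ _ A ρ x => A.S (ρ k) x) ⟨.S k 0, fun _ _ _ _ _ _ => Iff.rfl⟩ ht

end UD

namespace TD

/-- terms given by a binary operation -/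
theorem op2 {f : ∀ (C α : Type), Str C α → (ℕ → C) → α → α → α}
    (h : UD (fun C α A ρ e => e 0 = f C α A ρ (e 1) (e 2))) {t u : Tr} (ht : TD t) (hu : TD u) :
    TD (fun C α A ρ e => f C α A ρ (t C α A ρ e) (u C α A ρ e)) := by
  apply TD.of_rel
  have ht' := ht.ren (fun n => n + 1)
  have hu' := hu.ren (fun n => n + 1)
  have h1 : UD (fun C α A ρ e => e 2 = f C α A ρ (e 1) (e 0)) :=
    h.ren (fun n => if n = 0 then 2 else if n = 1 then 1 else 0)
  have h2 : UD (fun C α A ρ e =>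
      e 1 = f C α A ρ (e 0) (u C α A ρ (fun n => e (n + 2)))) :=
    UD.subst (P := fun C α A ρ x e => e 1 = f C α A ρ (e 0) x) h1 (hu.ren (fun n => n + 2))
  exact UD.subst (P := fun C α A ρ x e =>
    e 0 = f C α A ρ x (u C α A ρ (fun n => e (n + 1)))) h2 ht'

theorem op1 {f : ∀ (C α : Type), Str C α → (ℕ → C) → α → α}
    (h : UD (fun C α A ρ e => e 0 = f C α A ρ (e 1))) {t : Tr} (ht : TD t) :
    TD (fun C α A ρ e => f C α A ρ (t C α A ρ e)) := by
  apply TD.of_rel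
  have h1 : UD (fun C α A ρ e => e 1 = f C α A ρ (e 0)) :=
    h.ren (fun n => if n = 0 then 1 else 0)
  exact UD.subst (P := fun C α A ρ x e => e 0 = f C α A ρ x) h1 (ht.ren (fun n => n + 1))

theorem pair {t u : Tr} (ht : TD t) (hu : TD u) :
    TD (fun C α A ρ e => A.pair (t C α A ρ e) (u C α A ρ e)) :=
  TD.op2 (f := fun _ _ A _ x y => A.pair x y)
    ⟨.pair 1 2 0, fun _ _ _ _ _ _ => eq_comm⟩ ht hu

theorem add {t u : Tr} (ht : TD t) (hu : TD u) :
    TD (fun C α A ρ e => A.add (t C α A ρ e) (u C α A ρ e)) :=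
  TD.op2 (f := fun _ _ A _ x y => A.add x y)
    ⟨.add 1 2 0, fun _ _ _ _ _ _ => eq_comm⟩ ht hu

theorem mul {t u : Tr} (ht : TD t) (hu : TD u) :
    TD (fun C α A ρ e => A.mul (t C α A ρ e) (u C α A ρ e)) :=
  TD.op2 (f := fun _ _ A _ x y => A.mul x y)
    ⟨.mul 1 2 0, fun _ _ _ _ _ _ => eq_comm⟩ ht hu

theorem zero : TD (fun _ _ A _ _ => A.zero) := ⟨.zero 0, fun _ _ _ _ _ _ _ => Iff.rfl⟩

theorem one : TD (fun _ _ A _ _ => A.one) := ⟨.one 0, fun _ _ _ _ _ _ _ => Iff.rfl⟩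

theorem nm (k : ℕ) : TD (fun _ _ A _ _ => A.nm k) := by
  induction k with
  | zero => exact zero
  | succ k ih => exact TD.add ih one

theorem fst {t : Tr} (ht : TD t) : TD (fun C α A ρ e => A.fst (t C α A ρ e)) := by
  refine TD.op1 (f := fun _ _ A _ x => A.fst x) ?_ ht
  have : UD (fun C α A ρ e => ∃ z, A.pair (e 0) z = e 1) :=
    UD.ex (P := fun _ _ A _ z e => A.pair (e 0) z = e 1)
      (UD.eq (TD.pair (TD.var 1) (TD.var 0)) (TD.var 2))
  refine this.congr fun C α A hA ρ e => ⟨?_, fun h => ⟨A.snd (e 1), ?_⟩⟩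
  · rintro ⟨z, hz⟩; rw [← hz, hA.fst_pair]
  · rw [h, hA.eta]

theorem snd {t : Tr} (ht : TD t) : TD (fun C α A ρ e => A.snd (t C α A ρ e)) := by
  refine TD.op1 (f := fun _ _ A _ x => A.snd x) ?_ ht
  have : UD (fun C α A ρ e => ∃ z, A.pair z (e 0) = e 1) :=
    UD.ex (P := fun _ _ A _ z e => A.pair z (e 0) = e 1)
      (UD.eq (TD.pair (TD.var 0) (TD.var 1)) (TD.var 2))
  refine this.congr fun C α A hA ρ e => ⟨?_, fun h => ⟨A.fst (e 1), ?_⟩⟩
  · rintro ⟨z, hz⟩; rw [← hz, hA.snd_pair]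
  · rw [h, hA.eta]

end TD

namespace UD

theorem E {t u : Tr} (ht : TD t) (hu : TD u) :
    UD (fun C α A ρ e => A.E (t C α A ρ e) (u C α A ρ e)) := by
  refine UD.rel2 (R := fun _ _ A _ x y => A.E x y) ?_ ht hu
  refine UD.ex (P := fun C α A ρ z e => A.add (A.add (A.mul (A.mul z (A.snd (e 0))) (e 1))
    (A.mul z (A.snd (e 0)))) z = A.fst (e 0)) ?_
  exact UD.eq (TD.add (TD.add (TD.mul (TD.mul (TD.var 0) (TD.snd (TD.var 1))) (TD.var 2))
    (TD.mul (TD.var 0) (TD.snd (TD.var 1)))) (TD.var 0)) (TD.fst (TD.var 1))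

end UD

/-- the standard automation for `UD` goals -/
example : UD (fun _ _ A ρ e => ∀ x, A.lt x (e 2) → ∃ y, A.E (e 0) (A.pair x y) ∧
    (A.S (ρ 0) (A.fst y) ↔ ¬ A.le (e 1) (A.add y A.one))) := by
  repeat' first
    | exact TD.var _ | exact TD.zero | exact TD.one | exact TD.nm _ | assumption
    | apply TD.fst | apply TD.snd | apply TD.pair | apply TD.add | apply TD.mul | apply TD.ren
    | apply UD.S | apply UD.E | apply UD.lt | apply UD.le | apply UD.eq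
    | apply UD.not | apply UD.and | apply UD.or | apply UD.iff | apply UD.all | apply UD.ex
    | apply UD.imp

end Pool.Agent.Helper4.KSq
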